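import Pool.Agent.Lib.MP_f62ea7_gt.Basic

set_option autoImplicit false

open MeasureTheory Set Filter Topology Real
open scoped ContDiff ENNReal

namespace Pool.Agent.Lib.MP_f62ea7_gt

namespace MP

lemma det_eq (A : P →L[ℝ] P) :
    A.det = (A (1, 0)).1 * (A (0, 1)).2 - (A (0, 1)).1 * (A (1, 0)).2 := by
  unfold ContinuousLinearMap.det
  rw [← LinearMap.det_toMatrix (Module.Basis.finTwoProd ℝ), Matrix.det_fin_two]
  simp [LinearMap.toMatrix_apply, Module.Basis.finTwoProd_zero, Module.Basis.finTwoProd_one,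
    Module.Basis.coe_finTwoProd_repr]

lemma det_one (A : P →L[ℝ] P) (lx lu mx mu : ℝ) (hne : lx ≠ 0 ∨ lu ≠ 0)
    (h1 : (A (1, 0)).1 * mx + (A (1, 0)).2 * mu = lx)
    (h2 : (A (0, 1)).1 * mx + (A (0, 1)).2 * mu = lu)
    (h3 : A (lu, -lx) = (mu, -mx)) : A.det = 1 := by
  rw [det_eq]
  have e : ((lu, -lx) : P) = lu • ((1, 0) : P) + (-lx) • ((0, 1) : P) := by ext <;> simp
  rw [e, map_add, map_smul, map_smul] at h3
  have a := congrArg Prod.fst h3
  have b := congrArg Prod.snd h3
  simp only [Prod.fst_add, Prod.snd_add, Prod.smul_fst, Prod.smul_snd, smul_eq_mul] at a b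
  rcases hne with h | h
  · apply mul_left_cancel₀ h
    linear_combination (-1 : ℝ) * h1 - (A (1, 0)).2 * a + (A (1, 0)).1 * b + 2 * h1
      + 2 * (A (1, 0)).2 * a - 2 * (A (1, 0)).1 * b
  · apply mul_left_cancel₀ h
    linear_combination h2 + (A (0, 1)).2 * a - (A (0, 1)).1 * b

end MP

theorem blk_MP : St_MP := by
  intro N k K b hN hk hkN hadd h0 hK hne hder hb hbk A hA hAm
  have hKd : ∀ p ∈ N, DifferentiableAt ℝ K p := fun p hp => hK.differentiableAt (hN.mem_nhds hp)
  have hKc : ∀ p ∈ N, ∀ t, K (k t p) = K p := by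
    intro p hp t
    have hd : ∀ τ, HasDerivAt (fun τ => K (k τ p)) 0 τ := by
      intro τ
      have := hasDerivAt_comp (hKd _ (hkN p hp τ)) (hder p hp τ)
      refine this.congr_deriv ?_
      ring
    have := is_const_of_deriv_eq_zero (fun τ => (hd τ).differentiableAt) (fun τ => (hd τ).deriv) t 0
    rw [this, h0 p hp]
  have hh : ∀ p ∈ N, DifferentiableAt ℝ (fun p => k (b p) p) p := by
    intro p hp
    have h1 : DifferentiableAt ℝ (fun q : ℝ × P => k q.1 q.2) (b p, p) :=
      (hk.differentiableOn one_ne_zero).differentiableAt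
        ((isOpen_univ.prod hN).mem_nhds ⟨mem_univ _, hp⟩)
    have h2 : DifferentiableAt ℝ (fun p : P => ((b p, p) : ℝ × P)) p :=
      (hb.differentiableAt (hN.mem_nhds hp)).prodMk differentiableAt_id
    exact DifferentiableAt.comp (g := fun q : ℝ × P => k q.1 q.2) (f := fun p : P => ((b p, p) : ℝ × P)) p h1 h2
  have hdet : ∀ p ∈ N, (fderiv ℝ (fun p => k (b p) p) p).det = 1 := by
    intro p hp
    have hpN : k (b p) p ∈ N := hkN p hp _
    have hc : (fderiv ℝ K (k (b p) p)).comp (fderiv ℝ (fun p => k (b p) p) p) = fderiv ℝ K p := by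
      have h1 := HasFDerivAt.comp (g := K) (f := fun p => k (b p) p) p (hKd _ hpN).hasFDerivAt
        (hh p hp).hasFDerivAt
      have h2 : K =ᶠ[𝓝 p] (K ∘ fun p => k (b p) p) := by
        filter_upwards [hN.mem_nhds hp] with q hq
        exact (hKc q hq _).symm
      exact ((h1.congr_of_eventuallyEq h2).fderiv).symm
    refine MP.det_one _ (dx K p) (du K p) (dx K (k (b p) p)) (du K (k (b p) p)) ?_ ?_ ?_ ?_
    · by_contra hcon
      rw [not_or, not_not, not_not] at hcon
      apply hne p hp
      refine ContinuousLinearMap.ext fun v => ?_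
      rw [fderiv_apply_eq, hcon.1, hcon.2]; simp
    · rw [← fderiv_apply_eq]
      exact congrArg (fun L : P →L[ℝ] ℝ => L (1, 0)) hc
    · rw [← fderiv_apply_eq]
      exact congrArg (fun L : P →L[ℝ] ℝ => L (0, 1)) hc
    · have h1 := hder p hp 0
      have h2 := hder _ hpN 0
      rw [h0 _ hpN] at h2
      have h3 : HasFDerivAt (fun p => k (b p) p) (fderiv ℝ (fun p => k (b p) p) p) (k 0 p) := by
        rw [h0 p hp]; exact (hh p hp).hasFDerivAt
      have h4 := h3.comp_hasDerivAt (0 : ℝ) h1
      rw [h0 p hp] at h4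
      have h5 : ((fun p => k (b p) p) ∘ fun τ => k τ p) = fun τ => k τ (k (b p) p) := by
        funext τ
        simp only [Function.comp]
        rw [hbk p hp, ← hadd p hp, ← hadd p hp, add_comm]
      rw [h5] at h4
      exact h4.unique h2
  have hinj : InjOn (fun p => k (b p) p) A := by
    intro p hp q hq hpq
    have hp' := hA hp
    have hq' := hA hq
    simp only at hpq
    have e : b p = b q := by rw [← hbk p hp' (b p), hpq, hbk q hq']
    have e1 : k (-b p) (k (b p) p) = p := by rw [← hadd p hp', neg_add_cancel, h0 p hp']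
    have e2 : k (-b q) (k (b q) q) = q := by rw [← hadd q hq', neg_add_cancel, h0 q hq']
    rw [← e1, ← e2, hpq, e]
  rw [← lintegral_abs_det_fderiv_eq_addHaar_image volume hAm
    (fun p hp => (hh p (hA hp)).hasFDerivAt.hasFDerivWithinAt) hinj]
  rw [setLIntegral_congr_fun hAm (g := fun _ => 1) (fun p hp => by
    simp only [hdet p (hA hp)]; simp)]
  simp

end Pool.Agent.Lib.MP_f62ea7_gt
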