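import Pool.Agent.Lib.MP_f62ea7_gt.Basic

set_option autoImplicit false

open MeasureTheory Set Filter Topology Real
open scoped ContDiff ENNReal

namespace Pool.Agent.Lib.MP_f62ea7_gt

/-- jointly measurable functions of `(t, a)`, bounded on `[0, π] × M` -/
def Nice (M : Set P) (f : ℝ → P → ℝ) : Prop :=
  Measurable (fun q : ℝ × P => f q.1 q.2) ∧ ∃ B, ∀ t ∈ Icc 0 π, ∀ a ∈ M, |f t a| ≤ B

lemma zero_mem_Icc : (0 : ℝ) ∈ Icc 0 π := ⟨le_rfl, pi_pos.le⟩
lemma pi_mem_Icc : π ∈ Icc 0 π := ⟨pi_pos.le, le_rfl⟩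

lemma integrableOn_of_bdd {M : Set P} (hM : IsCompact M) {h : P → ℝ} (hh : Measurable h) {B : ℝ}
    (hB : ∀ a ∈ M, |h a| ≤ B) : IntegrableOn h M :=
  Measure.integrableOn_of_bounded hM.measure_lt_top.ne hh.aestronglyMeasurable
    ((ae_restrict_mem hM.measurableSet).mono hB)

lemma intervalIntegrable_of_bdd {E : Type} [NormedAddCommGroup E] {h : ℝ → E}
    (hh : AEStronglyMeasurable h) {B α β : ℝ} (hα : α ∈ Icc 0 π) (hβ : β ∈ Icc 0 π)
    (hB : ∀ t ∈ Icc 0 π, ‖h t‖ ≤ B) : IntervalIntegrable h volume α β := by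
  rw [intervalIntegrable_iff]
  refine Measure.integrableOn_of_bounded (M := B) (by simp [uIoc]) hh ?_
  refine (ae_restrict_mem measurableSet_uIoc).mono fun t ht => hB t ?_
  exact uIcc_subset_Icc hα hβ (uIoc_subset_uIcc ht)

/-- fundamental theorem of calculus off a finite set, inside `[0, π]` -/
lemma ftc_off {E : Type} [NormedAddCommGroup E] [NormedSpace ℝ E] [CompleteSpace E]
    {f f' : ℝ → E} (S : Finset ℝ) {α β : ℝ} (hα : α ∈ Icc 0 π) (hβ : β ∈ Icc 0 π)
    (hc : ContinuousOn f (uIcc α β)) (hd : ∀ t ∈ Ioo 0 π, t ∈ uIcc α β → t ∉ S → HasDerivAt f (f' t) t)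
    (hi : IntervalIntegrable f' volume α β) : ∫ t in α..β, f' t = f β - f α := by
  refine integral_eq_of_hasDerivAt_off_countable f f' S.countable_toSet hc (fun t ht => ?_) hi
  refine hd t ⟨lt_of_le_of_lt (le_min hα.1 hβ.1) ht.1.1, lt_of_lt_of_le ht.1.2 (max_le hα.2 hβ.2)⟩
    (Ioo_subset_Icc_self ht.1) ht.2

namespace Nice
variable {M : Set P} {f g : ℝ → P → ℝ}

lemma const (c : ℝ) : Nice M fun _ _ => c := ⟨measurable_const, |c|, fun _ _ _ _ => le_rfl⟩

lemma add (hf : Nice M f) (hg : Nice M g) : Nice M fun t a => f t a + g t a := by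
  obtain ⟨h1, B, hB⟩ := hf
  obtain ⟨h2, B', hB'⟩ := hg
  exact ⟨h1.add h2, B + B', fun t ht a ha =>
    (abs_add_le _ _).trans (add_le_add (hB t ht a ha) (hB' t ht a ha))⟩

lemma neg (hf : Nice M f) : Nice M fun t a => -f t a := by
  obtain ⟨h1, B, hB⟩ := hf
  exact ⟨h1.neg, B, fun t ht a ha => by rw [abs_neg]; exact hB t ht a ha⟩

lemma sub (hf : Nice M f) (hg : Nice M g) : Nice M fun t a => f t a - g t a := by
  simpa only [sub_eq_add_neg] using hf.add hg.neg

lemma mul (hf : Nice M f) (hg : Nice M g) : Nice M fun t a => f t a * g t a := by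
  obtain ⟨h1, B, hB⟩ := hf
  obtain ⟨h2, B', hB'⟩ := hg
  refine ⟨h1.mul h2, B * B', fun t ht a ha => ?_⟩
  rw [abs_mul]
  exact mul_le_mul (hB t ht a ha) (hB' t ht a ha) (abs_nonneg _)
    ((abs_nonneg _).trans (hB t ht a ha))

lemma abs (hf : Nice M f) : Nice M fun t a => |f t a| := by
  obtain ⟨h1, B, hB⟩ := hf
  exact ⟨h1.abs, B, fun t ht a ha => by rw [abs_abs]; exact hB t ht a ha⟩

lemma pow (hf : Nice M f) (n : ℕ) : Nice M fun t a => f t a ^ n := by
  induction n with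
  | zero => simpa using const 1
  | succ n ih => simpa only [pow_succ] using ih.mul hf

lemma const_mul (hf : Nice M f) (c : ℝ) : Nice M fun t a => c * f t a := (const c).mul hf

lemma div_const (hf : Nice M f) (c : ℝ) : Nice M fun t a => f t a / c := by
  simpa only [div_eq_mul_inv] using hf.mul (const c⁻¹)

lemma of_continuous (hM : IsCompact M) (hf : Continuous fun q : ℝ × P => f q.1 q.2) : Nice M f := by
  obtain ⟨B, hB⟩ := (isCompact_Icc.prod hM).exists_bound_of_continuousOn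
    (s := Icc 0 π ×ˢ M) hf.continuousOn
  exact ⟨hf.measurable, B, fun t ht a ha => hB (t, a) ⟨ht, ha⟩⟩

lemma of_space {h : P → ℝ} (hh : Measurable h) {B : ℝ} (hB : ∀ a ∈ M, |h a| ≤ B) :
    Nice M fun _ a => h a := ⟨hh.comp measurable_snd, B, fun _ _ a ha => hB a ha⟩

lemma of_time {h : ℝ → ℝ} (hh : Measurable h) {B : ℝ} (hB : ∀ t ∈ Icc 0 π, |h t| ≤ B) :
    Nice M fun t _ => h t := ⟨hh.comp measurable_fst, B, fun t ht _ _ => hB t ht⟩

lemma measurable_space (hf : Nice M f) (t : ℝ) : Measurable (f t) :=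
  hf.1.comp measurable_prodMk_left

lemma measurable_time (hf : Nice M f) (a : P) : Measurable fun t => f t a :=
  hf.1.comp measurable_prodMk_right

lemma integrableOn (hf : Nice M f) (hM : IsCompact M) {t : ℝ} (ht : t ∈ Icc 0 π) :
    IntegrableOn (f t) M := by
  obtain ⟨B, hB⟩ := hf.2
  exact integrableOn_of_bdd hM (hf.measurable_space t) (hB t ht)

lemma intervalIntegrable (hf : Nice M f) {a : P} (ha : a ∈ M) {α β : ℝ} (hα : α ∈ Icc 0 π)
    (hβ : β ∈ Icc 0 π) : IntervalIntegrable (fun t => f t a) volume α β := by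
  obtain ⟨B, hB⟩ := hf.2
  exact intervalIntegrable_of_bdd (hf.measurable_time a).aestronglyMeasurable hα hβ
    fun t ht => hB t ht a ha

lemma measurable_spaceIntegral (hf : Nice M f) : Measurable fun t => ∫ a in M, f t a :=
  (hf.1.stronglyMeasurable.integral_prod_right' (ν := volume.restrict M)).measurable

lemma measurable_timeIntegral (hf : Nice M f) (α β : ℝ) :
    Measurable fun a => ∫ t in α..β, f t a :=
  ((hf.1.stronglyMeasurable.integral_prod_left' (μ := volume.restrict (Ioc α β))).measurable).sub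
    ((hf.1.stronglyMeasurable.integral_prod_left' (μ := volume.restrict (Ioc β α))).measurable)

lemma intervalIntegrable_integral (hf : Nice M f) (hM : IsCompact M) {α β : ℝ} (hα : α ∈ Icc 0 π)
    (hβ : β ∈ Icc 0 π) : IntervalIntegrable (fun t => ∫ a in M, f t a) volume α β := by
  obtain ⟨B, hB⟩ := hf.2
  exact intervalIntegrable_of_bdd hf.measurable_spaceIntegral.aestronglyMeasurable hα hβ
    fun t ht => norm_setIntegral_le_of_norm_le_const hM.measure_lt_top (hB t ht)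

lemma timeIntegral_bdd (hf : Nice M f) : ∃ B, ∀ a ∈ M, ∀ α ∈ Icc 0 π, ∀ β ∈ Icc 0 π,
    |∫ t in α..β, f t a| ≤ B := by
  obtain ⟨B, hB⟩ := hf.2
  refine ⟨|B| * π, fun a ha α hα β hβ => ?_⟩
  have := intervalIntegral.norm_integral_le_of_norm_le_const (a := α) (b := β) (C := |B|)
    (f := fun t => f t a) fun t ht =>
      (hB t (uIcc_subset_Icc hα hβ (uIoc_subset_uIcc ht)) a ha).trans (le_abs_self B)
  refine this.trans (mul_le_mul_of_nonneg_left ?_ (abs_nonneg B))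
  rw [abs_le]; constructor <;> linarith [hα.1, hα.2, hβ.1, hβ.2]

lemma integrableOn_timeIntegral (hf : Nice M f) (hM : IsCompact M) {α β : ℝ} (hα : α ∈ Icc 0 π)
    (hβ : β ∈ Icc 0 π) : IntegrableOn (fun a => ∫ t in α..β, f t a) M := by
  obtain ⟨B, hB⟩ := hf.timeIntegral_bdd
  exact integrableOn_of_bdd hM (hf.measurable_timeIntegral α β) fun a ha => hB a ha α hα β hβ

lemma swap (hf : Nice M f) (hM : IsCompact M) {α β : ℝ} (hα : α ∈ Icc 0 π) (hβ : β ∈ Icc 0 π) :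
    ∫ t in α..β, ∫ a in M, f t a = ∫ a in M, ∫ t in α..β, f t a := by
  obtain ⟨B, hB⟩ := hf.2
  refine intervalIntegral_integral_swap ?_
  have : IsFiniteMeasure (volume.restrict M) := isFiniteMeasure_restrict.2 hM.measure_lt_top.ne
  have : IsFiniteMeasure (volume.restrict (uIoc α β)) :=
    isFiniteMeasure_restrict.2 (by simp [uIoc])
  refine Integrable.of_bound hf.1.aestronglyMeasurable B ?_
  rw [Measure.prod_restrict]
  refine (ae_restrict_mem (measurableSet_uIoc.prod hM.measurableSet)).mono fun q hq => ?_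
  exact hB q.1 (uIcc_subset_Icc hα hβ (uIoc_subset_uIcc hq.1)) q.2 hq.2

end Nice

section dbl
variable {M : Set P} {f g : ℝ → P → ℝ}

lemma dbl_swap (hM : IsCompact M) (hf : Nice M f) :
    dbl M f = ∫ a in M, ∫ t in (0 : ℝ)..π, f t a := hf.swap hM zero_mem_Icc pi_mem_Icc

lemma dbl_congr (hM : IsCompact M) (h : ∀ t ∈ Icc 0 π, ∀ a ∈ M, f t a = g t a) :
    dbl M f = dbl M g := by
  refine intervalIntegral.integral_congr fun t ht => ?_
  rw [uIcc_of_le pi_pos.le] at ht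
  exact setIntegral_congr_fun hM.measurableSet fun a ha => h t ht a ha

lemma dbl_add (hM : IsCompact M) (hf : Nice M f) (hg : Nice M g) :
    dbl M (fun t a => f t a + g t a) = dbl M f + dbl M g := by
  unfold dbl
  rw [← intervalIntegral.integral_add (hf.intervalIntegrable_integral hM zero_mem_Icc pi_mem_Icc)
    (hg.intervalIntegrable_integral hM zero_mem_Icc pi_mem_Icc)]
  refine intervalIntegral.integral_congr fun t ht => ?_
  rw [uIcc_of_le pi_pos.le] at ht
  exact integral_add (hf.integrableOn hM ht) (hg.integrableOn hM ht)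

lemma dbl_const_mul (c : ℝ) : dbl M (fun t a => c * f t a) = c * dbl M f := by
  unfold dbl
  simp only [integral_const_mul, intervalIntegral.integral_const_mul]

lemma dbl_sub (hM : IsCompact M) (hf : Nice M f) (hg : Nice M g) :
    dbl M (fun t a => f t a - g t a) = dbl M f - dbl M g := by
  have h1 := dbl_add hM hf (hg.const_mul (-1))
  rw [dbl_const_mul] at h1
  simp only [neg_mul, one_mul, ← sub_eq_add_neg] at h1
  exact h1

lemma dbl_mono (hM : IsCompact M) (hf : Nice M f) (hg : Nice M g)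
    (h : ∀ t ∈ Icc 0 π, ∀ a ∈ M, f t a ≤ g t a) : dbl M f ≤ dbl M g :=
  intervalIntegral.integral_mono_on pi_pos.le
    (hf.intervalIntegrable_integral hM zero_mem_Icc pi_mem_Icc)
    (hg.intervalIntegrable_integral hM zero_mem_Icc pi_mem_Icc) fun t ht =>
      setIntegral_mono_on (hf.integrableOn hM ht) (hg.integrableOn hM ht) hM.measurableSet (h t ht)

lemma dbl_nonneg (hM : IsCompact M) (h : ∀ t ∈ Icc 0 π, ∀ a ∈ M, 0 ≤ f t a) : 0 ≤ dbl M f :=
  intervalIntegral.integral_nonneg pi_pos.le fun t ht =>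
    setIntegral_nonneg hM.measurableSet (h t ht)

lemma dbl_space (h : P → ℝ) : dbl M (fun _ a => h a) = π * ∫ a in M, h a := by
  simp [dbl]

end dbl

namespace Adm
variable {M : Set P} {η v : ℝ → P → P}

lemma continuous_time (h : Adm M η v) (a : P) : Continuous fun t => η t a :=
  h.cont.comp (continuous_id.prodMk continuous_const)

lemma continuous_space (h : Adm M η v) (t : ℝ) : Continuous (η t) :=
  h.cont.comp (continuous_const.prodMk continuous_id)

lemma intervalIntegrable (h : Adm M η v) {a : P} (ha : a ∈ M) {α β : ℝ} (hα : α ∈ Icc 0 π)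
    (hβ : β ∈ Icc 0 π) : IntervalIntegrable (fun t => v t a) volume α β := by
  obtain ⟨B, hB⟩ := h.bdd
  exact intervalIntegrable_of_bdd (h.meas.comp measurable_prodMk_right).aestronglyMeasurable hα hβ
    fun t ht => hB t ht a ha

lemma ftc (h : Adm M η v) {a : P} (ha : a ∈ M) {α β : ℝ} (hα : α ∈ Icc 0 π) (hβ : β ∈ Icc 0 π) :
    ∫ t in α..β, v t a = η β a - η α a := by
  obtain ⟨S, hS⟩ := h.der
  exact ftc_off S hα hβ (h.continuous_time a).continuousOn (fun t ht _ hs => hS t ht hs a ha)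
    (h.intervalIntegrable ha hα hβ)

lemma lip (h : Adm M η v) : ∃ B, 0 ≤ B ∧ ∀ a ∈ M, ∀ α ∈ Icc 0 π, ∀ β ∈ Icc 0 π,
    ‖η β a - η α a‖ ≤ B * |β - α| := by
  obtain ⟨B, hB⟩ := h.bdd
  refine ⟨|B|, abs_nonneg B, fun a ha α hα β hβ => ?_⟩
  rw [← h.ftc ha hα hβ]
  exact intervalIntegral.norm_integral_le_of_norm_le_const fun t ht =>
    (hB t (uIcc_subset_Icc hα hβ (uIoc_subset_uIcc ht)) a ha).trans (le_abs_self B)

lemma nice_η1 (h : Adm M η v) (hM : IsCompact M) : Nice M fun t a => (η t a).1 :=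
  Nice.of_continuous hM h.cont.fst
lemma nice_η2 (h : Adm M η v) (hM : IsCompact M) : Nice M fun t a => (η t a).2 :=
  Nice.of_continuous hM h.cont.snd
lemma nice_v1 (h : Adm M η v) : Nice M fun t a => (v t a).1 := by
  obtain ⟨B, hB⟩ := h.bdd
  exact ⟨h.meas.fst, B, fun t ht a ha => (abs_fst_le _).trans (hB t ht a ha)⟩
lemma nice_v2 (h : Adm M η v) : Nice M fun t a => (v t a).2 := by
  obtain ⟨B, hB⟩ := h.bdd
  exact ⟨h.meas.snd, B, fun t ht a ha => (abs_snd_le _).trans (hB t ht a ha)⟩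

lemma injOn (h : Adm M η v) {t : ℝ} (ht : t ∈ Icc 0 π) : InjOn (η t) M := by
  obtain ⟨ρ, -, -, h3⟩ := h.inv t ht
  exact h3.1.injOn

end Adm

lemma hasDerivAt_fst {c : ℝ → P} {c' : P} {t : ℝ} (h : HasDerivAt c c' t) :
    HasDerivAt (fun τ => (c τ).1) c'.1 t :=
  (ContinuousLinearMap.fst ℝ ℝ ℝ).hasFDerivAt.comp_hasDerivAt t h

lemma hasDerivAt_snd {c : ℝ → P} {c' : P} {t : ℝ} (h : HasDerivAt c c' t) :
    HasDerivAt (fun τ => (c τ).2) c'.2 t :=
  (ContinuousLinearMap.snd ℝ ℝ ℝ).hasFDerivAt.comp_hasDerivAt t h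

namespace Full
variable {κ C : ℝ} {X : Geo} {η v : ℝ → P → P}

lemma M_norm (_h : Full κ C X) {a : P} (ha : a ∈ X.M) : ‖a‖ ≤ 2 := ha.1
lemma M_meas (h : Full κ C X) : MeasurableSet X.M := h.M_compact.measurableSet
lemma M_Box (_h : Full κ C X) : X.M ⊆ Box := fun _ ha => mem_Box.2 ha.1
lemma M_W (h : Full κ C X) {a : P} (ha : a ∈ X.M) : X.Ψ a ∈ X.W := h.box_W a ha.1
lemma M_Ml (h : Full κ C X) {a : P} (ha : a ∈ X.M) : X.Ψ a ∈ X.Ml := ⟨(h.box_n a ha.1).le, ha.2⟩

lemma vol_M (h : Full κ C X) : volume.real X.M ≤ 16 := by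
  have : volume.real Box = 16 := by
    rw [Box_eq, Measure.real, Measure.volume_eq_prod, Measure.prod_prod]
    simp only [Real.volume_Icc]
    rw [← ENNReal.ofReal_mul (by norm_num), ENNReal.toReal_ofReal (by norm_num)]; norm_num
  rw [← this]
  exact measureReal_mono h.M_Box (isCompact_closedBall _ _).measure_lt_top.ne

lemma nice_d1 (h : Full κ C X) (hη : Adm X.M η v) : Nice X.M (d1 X η) :=
  (hη.nice_η1 h.M_compact).sub (h.adm.nice_η1 h.M_compact)
lemma nice_d2 (h : Full κ C X) (hη : Adm X.M η v) : Nice X.M (d2 X η) :=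
  (hη.nice_η2 h.M_compact).sub (h.adm.nice_η2 h.M_compact)
lemma nice_e1 (h : Full κ C X) (hη : Adm X.M η v) : Nice X.M (e1 X v) :=
  hη.nice_v1.sub h.adm.nice_v1
lemma nice_e2 (h : Full κ C X) (hη : Adm X.M η v) : Nice X.M (e2 X v) :=
  hη.nice_v2.sub h.adm.nice_v2
lemma nice_Ψ (h : Full κ C X) : Nice X.M fun _ a => ‖X.Ψ a‖ :=
  Nice.of_continuous h.M_compact (h.Ψ_cont.comp continuous_snd).norm

lemma continuous_d1 (h : Full κ C X) (hη : Adm X.M η v) :
    Continuous fun q : ℝ × P => d1 X η q.1 q.2 := hη.cont.fst.sub h.eta_cont.fst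
lemma continuous_d2 (h : Full κ C X) (hη : Adm X.M η v) :
    Continuous fun q : ℝ × P => d2 X η q.1 q.2 := hη.cont.snd.sub h.eta_cont.snd
lemma continuous_d1_time (h : Full κ C X) (hη : Adm X.M η v) (a : P) :
    Continuous fun t => d1 X η t a := (h.continuous_d1 hη).comp (continuous_id.prodMk continuous_const)
lemma continuous_d2_time (h : Full κ C X) (hη : Adm X.M η v) (a : P) :
    Continuous fun t => d2 X η t a := (h.continuous_d2 hη).comp (continuous_id.prodMk continuous_const)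

lemma d_der (h : Full κ C X) {t : ℝ} {a : P} (ha : a ∈ X.M)
    (hd : HasDerivAt (fun τ => η τ a) (v t a) t) :
    HasDerivAt (fun τ => d1 X η τ a) (e1 X v t a) t ∧
      HasDerivAt (fun τ => d2 X η τ a) (e2 X v t a) t :=
  ⟨(hasDerivAt_fst hd).sub (hasDerivAt_fst (h.eta_der a ha.1 t)),
    (hasDerivAt_snd hd).sub (hasDerivAt_snd (h.eta_der a ha.1 t))⟩

lemma d1_ftc (h : Full κ C X) (hη : Adm X.M η v) {a : P} (ha : a ∈ X.M) {α β : ℝ}
    (hα : α ∈ Icc 0 π) (hβ : β ∈ Icc 0 π) :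
    ∫ t in α..β, e1 X v t a = d1 X η β a - d1 X η α a := by
  obtain ⟨S, hS⟩ := hη.der
  exact ftc_off S hα hβ (h.continuous_d1_time hη a).continuousOn
    (fun t ht _ hs => (h.d_der ha (hS t ht hs a ha)).1) ((h.nice_e1 hη).intervalIntegrable ha hα hβ)

lemma d2_ftc (h : Full κ C X) (hη : Adm X.M η v) {a : P} (ha : a ∈ X.M) {α β : ℝ}
    (hα : α ∈ Icc 0 π) (hβ : β ∈ Icc 0 π) :
    ∫ t in α..β, e2 X v t a = d2 X η β a - d2 X η α a := by
  obtain ⟨S, hS⟩ := hη.der
  exact ftc_off S hα hβ (h.continuous_d2_time hη a).continuousOn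
    (fun t ht _ hs => (h.d_der ha (hS t ht hs a ha)).2) ((h.nice_e2 hη).intervalIntegrable ha hα hβ)

lemma d_ends (h : Full κ C X) (he : Ends X η) {a : P} (ha : a ∈ X.M) :
    d1 X η 0 a = 0 ∧ d1 X η π a = 0 ∧ d2 X η 0 a = 0 ∧ d2 X η π a = 0 := by
  simp [d1, d2, (he a ha).1, (he a ha).2, h.eta_zero a ha.1]

lemma d_le (h : Full κ C X) (hη : Adm X.M η v) {t : ℝ} (ht : t ∈ Icc 0 π) {a : P} (ha : a ∈ X.M) :
    |d1 X η t a| ≤ 4 ∧ |d2 X η t a| ≤ 4 := by
  obtain ⟨h1, h2⟩ := norm_le_iff.1 (hη.maps t ht ha).1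
  obtain ⟨h3, h4⟩ := norm_le_iff.1 (h.eta_M a ha t).1
  unfold d1 d2
  constructor
  · linarith [abs_sub (η t a).1 (X.eta t a).1]
  · linarith [abs_sub (η t a).2 (X.eta t a).2]

lemma nice_I (h : Full κ C X) (hη : Adm X.M η v) :
    Nice X.M fun t a => e1 X v t a ^ 2 - d1 X η t a ^ 2 :=
  ((h.nice_e1 hη).pow 2).sub ((h.nice_d1 hη).pow 2)

lemma nice_J (h : Full κ C X) (hη : Adm X.M η v) :
    Nice X.M fun t a => (X.eta t a).1 ^ 4 * d1 X η t a ^ 2 + d1 X η t a ^ 6 :=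
  (((h.adm.nice_η1 h.M_compact).pow 4).mul ((h.nice_d1 hη).pow 2)).add ((h.nice_d1 hη).pow 6)

lemma measurable_Ia (h : Full κ C X) (hη : Adm X.M η v) : Measurable (Ia X η v) :=
  (h.nice_I hη).measurable_timeIntegral 0 π
lemma measurable_Ja (h : Full κ C X) (hη : Adm X.M η v) : Measurable (Ja X η) :=
  (h.nice_J hη).measurable_timeIntegral 0 π
lemma integrableOn_Ia (h : Full κ C X) (hη : Adm X.M η v) : IntegrableOn (Ia X η v) X.M :=
  (h.nice_I hη).integrableOn_timeIntegral h.M_compact zero_mem_Icc pi_mem_Icc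
lemma integrableOn_Ja (h : Full κ C X) (hη : Adm X.M η v) : IntegrableOn (Ja X η) X.M :=
  (h.nice_J hη).integrableOn_timeIntegral h.M_compact zero_mem_Icc pi_mem_Icc
lemma II_eq (h : Full κ C X) (hη : Adm X.M η v) :
    II X η v = dbl X.M fun t a => e1 X v t a ^ 2 - d1 X η t a ^ 2 :=
  (dbl_swap h.M_compact (h.nice_I hη)).symm
lemma JJ_eq (h : Full κ C X) (hη : Adm X.M η v) :
    JJ X η = dbl X.M fun t a => (X.eta t a).1 ^ 4 * d1 X η t a ^ 2 + d1 X η t a ^ 6 :=
  (dbl_swap h.M_compact (h.nice_J hη)).symm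
lemma measurable_mm (h : Full κ C X) (hη : Adm X.M η v) : Measurable (mm X η v) :=
  ((h.measurable_Ia hη).add (h.measurable_Ja hη)).sqrt
lemma mm_nonneg (X : Geo) (η v : ℝ → P → P) (a : P) : 0 ≤ mm X η v a := sqrt_nonneg _

lemma mm_bdd (h : Full κ C X) (hη : Adm X.M η v) : ∃ B, ∀ a ∈ X.M, |mm X η v a| ≤ B := by
  obtain ⟨B, hB⟩ := (h.nice_I hη).timeIntegral_bdd
  obtain ⟨B', hB'⟩ := (h.nice_J hη).timeIntegral_bdd
  refine ⟨√(B + B'), fun a ha => ?_⟩
  rw [abs_of_nonneg (mm_nonneg X η v a)]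
  exact sqrt_le_sqrt (add_le_add (le_of_abs_le (hB a ha 0 zero_mem_Icc π pi_mem_Icc))
    (le_of_abs_le (hB' a ha 0 zero_mem_Icc π pi_mem_Icc)))

/-- the integral of `mm ^ 2`, given that `Ia + Ja` is nonnegative on `M` -/
lemma integral_mm_sq (h : Full κ C X) (hη : Adm X.M η v)
    (h0 : ∀ a ∈ X.M, 0 ≤ Ia X η v a + Ja X η a) :
    ∫ a in X.M, mm X η v a ^ 2 = II X η v + JJ X η := by
  unfold II JJ
  rw [← integral_add (h.integrableOn_Ia hη) (h.integrableOn_Ja hη)]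
  exact setIntegral_congr_fun h.M_meas fun a ha => sq_sqrt (h0 a ha)

lemma measurable_ee (h : Full κ C X) (hη : Adm X.M η v) (η0 l K t : ℝ) :
    Measurable (ee X η v η0 l K t) :=
  ((((h.nice_d2 hη).measurable_space t).abs.const_mul η0).add
    (((h.nice_e2 hη).abs.measurable_timeIntegral _ _).const_mul 2)).add
    ((h.measurable_mm hη).const_mul K)

lemma ee_nonneg (X : Geo) (η v : ℝ → P → P) {η0 l K : ℝ} (h0 : 0 ≤ η0) (hl : 0 ≤ l) (hK : 0 ≤ K)
    (t : ℝ) (a : P) : 0 ≤ ee X η v η0 l K t a := by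
  have := intervalIntegral.integral_nonneg (μ := volume) (f := fun s => |e2 X v s a|)
    (a := t - l) (b := t + l) (by linarith) fun _ _ => abs_nonneg _
  have := mm_nonneg X η v a
  unfold ee; positivity

lemma ee_bdd (h : Full κ C X) (hη : Adm X.M η v) {η0 l K t : ℝ} (h0 : 0 ≤ η0) (hl : 0 ≤ l)
    (hK : 0 ≤ K) (h1 : 0 ≤ t - l) (h2 : t + l ≤ π) :
    ∃ B, ∀ a ∈ X.M, 0 ≤ ee X η v η0 l K t a ∧ ee X η v η0 l K t a ≤ B := by
  obtain ⟨B, hB⟩ := (h.nice_e2 hη).abs.timeIntegral_bdd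
  obtain ⟨B', hB'⟩ := h.mm_bdd hη
  refine ⟨η0 * 4 + 2 * B + K * B', fun a ha => ⟨ee_nonneg X η v h0 hl hK t a, ?_⟩⟩
  have a1 := (h.d_le hη (t := t) ⟨by linarith, by linarith⟩ ha).2
  have a2 := le_of_abs_le (hB a ha (t - l) ⟨h1, by linarith⟩ (t + l) ⟨by linarith, h2⟩)
  have a3 := le_of_abs_le (hB' a ha)
  unfold ee
  gcongr

lemma eta_fst (X : Geo) (t : ℝ) (a : P) : (X.eta t a).1 = (X.g t (X.Ψ a)).1 := rfl
lemma eta_snd (X : Geo) (t : ℝ) (a : P) : (X.eta t a).2 = X.Y (X.g t (X.Ψ a)) := rfl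

/-- the Lagrangian velocity is the Eulerian field `(U, V ∘ Ψ)` at the current position -/
lemma vel_eq (h : Full κ C X) {p : P} (hp : ‖p‖ ≤ 2) (t : ℝ) :
    X.vel t p = (X.U (X.eta t p), X.V (X.Ψ (X.eta t p))) := by
  have := h.eta_lab p hp t
  unfold Geo.vel
  rw [← this]; rfl

end Full

end Pool.Agent.Lib.MP_f62ea7_gt
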