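import Pool.Agent.Lib.MP_f62ea7_gt.Basic

set_option autoImplicit false

open Set Filter Topology Real

namespace Pool.Agent.Lib.MP_f62ea7_gt

namespace WIND

/-- The loop has a continuous logarithm with equal end values. -/
def NL (H : ℝ → ℂ) : Prop :=
  ∃ L : ℝ → ℂ, ContinuousOn L (Icc 0 π) ∧ (∀ s ∈ Icc 0 π, H s = Complex.exp (L s)) ∧ L 0 = L π

lemma continuous_toC : Continuous toC := by
  have : toC = fun p : P => (p.1 : ℂ) + p.2 * Complex.I := by
    funext p; apply Complex.ext <;> simp [toC]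
  rw [this]; fun_prop

lemma toC_ne {p : P} (h : p ≠ 0) : toC p ≠ 0 := fun e =>
  h (Prod.ext (congrArg Complex.re e) (congrArg Complex.im e))

lemma h0 : (0 : ℝ) ∈ Icc 0 π := left_mem_Icc.2 pi_pos.le
lemma hπ : π ∈ Icc 0 π := right_mem_Icc.2 pi_pos.le

lemma null_iff {F F' : ℝ → P} (h : ∀ s ∈ Icc 0 π, F' s ≠ 0) :
    Null F F' ↔ NL fun s => toC (F s) / toC (F' s) :=
  exists_congr fun _ => and_congr_right fun _ => and_congr_left fun _ =>
    forall₂_congr fun s hs => (div_eq_iff (toC_ne (h s hs))).symm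

lemma NL_mul {H K : ℝ → ℂ} (hK : ContinuousOn K (Icc 0 π))
    (hs : ∀ s ∈ Icc 0 π, K s ∈ Complex.slitPlane) (he : K 0 = K π) {H' : ℝ → ℂ}
    (h : ∀ s ∈ Icc 0 π, H' s = H s * K s) : NL H ↔ NL H' := by
  have h1 := fun s h => Complex.slitPlane_ne_zero (hs s h)
  constructor <;> rintro ⟨L, hL, hE, hL0⟩
  · refine ⟨fun s => L s + Complex.log (K s), hL.add (hK.clog hs), fun s h' => ?_, by
      simp only [hL0, he]⟩
    rw [h s h', Complex.exp_add, Complex.exp_log (h1 s h'), hE s h']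
  · refine ⟨fun s => L s - Complex.log (K s), hL.sub (hK.clog hs), fun s h' => ?_, by
      simp only [hL0, he]⟩
    rw [Complex.exp_sub, Complex.exp_log (h1 s h'), ← hE s h', h s h', mul_div_cancel_right₀ _ (h1 s h')]

lemma NL_one : NL fun _ => 1 := ⟨fun _ => 0, continuousOn_const, fun _ _ => by simp, rfl⟩

lemma key {X : Type} [TopologicalSpace X] [PreconnectedSpace X] {H : X → ℝ → ℂ}
    (hc : ContinuousOn (fun q : X × ℝ => H q.1 q.2) (univ ×ˢ Icc 0 π))
    (hn : ∀ x, ∀ s ∈ Icc 0 π, H x s ≠ 0) (he : ∀ x, H x 0 = H x π) (x y : X) :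
    NL (H x) ↔ NL (H y) := by
  have h1 : ∀ x, ContinuousOn (H x) (Icc 0 π) := fun x =>
    hc.comp (Continuous.prodMk_right x).continuousOn fun s hs => ⟨trivial, hs⟩
  refine Iff.of_eq (IsLocallyConstant.apply_eq_of_preconnectedSpace (f := fun x => NL (H x))
    ((IsLocallyConstant.iff_eventually_eq _).2 fun x => ?_) x y)
  have h2 : ∀ᶠ y in 𝓝 x, ∀ s ∈ Icc 0 π, s ∈ Icc 0 π → H y s / H x s ∈ Complex.slitPlane := by
    refine isCompact_Icc.eventually_forall_of_forall_eventually fun s hs => ?_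
    have h3 := (hc.div ((h1 x).comp continuousOn_snd fun q hq => hq.2) fun q hq => hn x _ hq.2)
      (x, s) ⟨trivial, hs⟩
    have h4 := h3.eventually (Complex.isOpen_slitPlane.mem_nhds (by simp [hn x s hs]))
    exact (eventually_nhdsWithin_iff.1 h4).mono fun q hq h => hq ⟨trivial, h⟩
  filter_upwards [h2] with y hy
  exact propext (NL_mul ((h1 y).div (h1 x) (hn x)) (fun s hs => hy s hs hs) (by simp only [Pi.div_apply, he])
    fun s hs => (mul_div_cancel₀ _ (hn x s hs)).symm).symm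

lemma key' {X : Type} [TopologicalSpace X] [PreconnectedSpace X] {F F' : X → ℝ → P}
    (hc : ContinuousOn (fun q : X × ℝ => F q.1 q.2) (univ ×ˢ Icc 0 π))
    (hc' : ContinuousOn (fun q : X × ℝ => F' q.1 q.2) (univ ×ˢ Icc 0 π))
    (hn : ∀ x, ∀ s ∈ Icc 0 π, F x s ≠ 0 ∧ F' x s ≠ 0) (he : ∀ x, F x 0 = F' x 0 ∧ F x π = F' x π)
    (x y : X) : Null (F x) (F' x) ↔ Null (F y) (F' y) := by
  rw [null_iff fun s hs => (hn x s hs).2, null_iff fun s hs => (hn y s hs).2]
  refine key (H := fun x s => toC (F x s) / toC (F' x s))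
    ((continuous_toC.comp_continuousOn hc).div (continuous_toC.comp_continuousOn hc')
      fun q hq => toC_ne (hn _ _ hq.2).2)
    (fun x s hs => div_ne_zero (toC_ne (hn x s hs).1) (toC_ne (hn x s hs).2)) (fun x => ?_) x y
  simp only [(he x).1, (he x).2, div_self (toC_ne (hn x _ h0).2), div_self (toC_ne (hn x _ hπ).2)]

lemma one {F F' : ℝ → P} (hF : ContinuousOn F (Icc 0 π)) (hF' : ContinuousOn F' (Icc 0 π))
    (e0 : F 0 = F' 0) (e1 : F π = F' π)
    (h : ∀ s ∈ Icc 0 π, 0 < (F s).1 * (F' s).1 ∨ 0 < (F s).2 * (F' s).2) : Null F F' := by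
  have hn : ∀ s ∈ Icc 0 π, F' s ≠ 0 := fun s hs e => by simpa [e] using h s hs
  rw [null_iff hn]
  refine (NL_mul ((continuous_toC.comp_continuousOn hF).div (continuous_toC.comp_continuousOn hF')
    fun s hs => toC_ne (hn s hs)) (fun s hs => ?_) ?_ fun s _ => (one_mul _).symm).1 NL_one
  · by_contra hc
    simp only [Complex.mem_slitPlane_iff, not_or, not_lt, not_not, Pi.div_apply,
      Function.comp_apply] at hc
    have h1 := div_mul_cancel₀ (toC (F s)) (toC_ne (hn s hs))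
    have h2 := congrArg Complex.re h1
    have h3 := congrArg Complex.im h1
    rw [Complex.mul_re, hc.2] at h2
    rw [Complex.mul_im, hc.2] at h3
    change _ * (F' s).1 - 0 * (F' s).2 = (F s).1 at h2
    change _ * (F' s).2 + 0 * (F' s).1 = (F s).2 at h3
    rcases h s hs with h4 | h4
    · rw [← h2] at h4; nlinarith [hc.1, mul_self_nonneg (F' s).1]
    · rw [← h3] at h4; nlinarith [hc.1, mul_self_nonneg (F' s).2]
  · simp only [Pi.div_apply, Function.comp_apply, e0, e1, div_self (toC_ne (hn _ h0)),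
      div_self (toC_ne (hn _ hπ))]

lemma two {F F' : ℝ → P} (hF : ContinuousOn F (Icc 0 π)) (hF' : ContinuousOn F' (Icc 0 π))
    (e0 : F 0 = F' 0) (e1 : F π = F' π) (h : ∀ s ∈ Icc 0 π, (F s).1 = 0 → 0 < (F s).2)
    (h' : ∀ s ∈ Icc 0 π, (F' s).1 = 0 → (F' s).2 < 0) (hs : (F' 0).1 * (F' π).1 < 0) :
    ¬Null F F' := by
  rintro ⟨L, hL, hE, hL0⟩
  have m : ∀ s ∈ Icc 0 π, -(Complex.I * toC (F s)) ∈ Complex.slitPlane := fun s hs => by
    simpa [Complex.mem_slitPlane_iff, toC, or_iff_not_imp_right] using h s hs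
  have m' : ∀ s ∈ Icc 0 π, Complex.I * toC (F' s) ∈ Complex.slitPlane := fun s hs => by
    simpa [Complex.mem_slitPlane_iff, toC, or_iff_not_imp_right] using h' s hs
  have hM : ∀ s ∈ Icc 0 π, Complex.exp (L s + Complex.log (Complex.I * toC (F' s)) -
      Complex.log (-(Complex.I * toC (F s)))) = -1 := fun s hs => by
    have h1 := Complex.slitPlane_ne_zero (m s hs)
    rw [Complex.exp_sub, Complex.exp_add, Complex.exp_log h1,
      Complex.exp_log (Complex.slitPlane_ne_zero (m' s hs)), div_eq_iff h1, hE s hs]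
    ring
  have h1 := Complex.isCoveringMap_exp.constOn_of_comp isPreconnected_Icc
    ((hL.add (((continuous_toC.comp_continuousOn hF').const_smul Complex.I).clog m')).sub
      (((continuous_toC.comp_continuousOn hF).const_smul Complex.I).neg.clog m))
    (fun a ha b hb => Subtype.ext ((hM a ha).trans (hM b hb).symm)) h0 hπ
  have h2 := congrArg Complex.im h1
  simp only [Pi.sub_apply, Pi.add_apply, Pi.neg_apply, Pi.smul_apply, Function.comp_apply,
    smul_eq_mul, hL0, e0, e1,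
    Complex.sub_im, Complex.add_im, Complex.log_im] at h2
  have p : ∀ q : P, 0 < q.1 → 0 ≤ Complex.arg (Complex.I * toC q) ∧
      Complex.arg (-(Complex.I * toC q)) < 0 := fun q hq => by
    simp [Complex.arg_nonneg_iff, Complex.arg_neg_iff, toC, hq, hq.le]
  have n : ∀ q : P, q.1 < 0 → Complex.arg (Complex.I * toC q) < 0 ∧
      0 ≤ Complex.arg (-(Complex.I * toC q)) := fun q hq => by
    simp [Complex.arg_nonneg_iff, Complex.arg_neg_iff, toC, hq, hq.le]
  rcases mul_neg_iff.1 hs with ⟨a, b⟩ | ⟨a, b⟩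
  · linarith [p _ a, n _ b]
  · linarith [n _ a, p _ b]

lemma three {A : Set P} {ε : ℝ} {f f' : ℝ → P → P} (hA : ∀ z ∈ A, ∀ r ∈ Icc (0 : ℝ) 1, r • z ∈ A)
    (hε : 0 < ε) (hB : Metric.ball 0 ε ⊆ A) (hf : Continuous fun q : ℝ × P => f q.1 q.2)
    (hf' : Continuous fun q : ℝ × P => f' q.1 q.2)
    (hi : ∀ s ∈ Icc 0 π, InjOn (f s) A ∧ InjOn (f' s) A)
    (he : ∀ z ∈ A, f 0 z = f' 0 z ∧ f π z = f' π z) :
    (∀ z ∈ A, ∀ z' ∈ A, z ≠ z' → Null (fun s => f s z - f s z') fun s => f' s z - f' s z') ∨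
    ∀ z ∈ A, ∀ z' ∈ A, z ≠ z' → ¬Null (fun s => f s z - f s z') fun s => f' s z - f' s z' := by
  set N : P → P → Prop := fun z z' => Null (fun s => f s z - f s z') fun s => f' s z - f' s z'
  have G : ∀ (S : Set P) (α β : P → P), IsPreconnected S → Continuous α → Continuous β →
      (∀ x ∈ S, α x ∈ A ∧ β x ∈ A ∧ α x ≠ β x) → ∀ x ∈ S, ∀ y ∈ S,
      (N (α x) (β x) ↔ N (α y) (β y)) := by
    intro S α β hS hα hβ h x hx y hy
    have := isPreconnected_iff_preconnectedSpace.1 hS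
    have c : ∀ {g : ℝ → P → P}, (Continuous fun q : ℝ × P => g q.1 q.2) →
        Continuous fun q : S × ℝ => g q.2 (α q.1) - g q.2 (β q.1) := fun hg =>
      (hg.comp (continuous_snd.prodMk (by fun_prop))).sub
        (hg.comp (continuous_snd.prodMk (by fun_prop)))
    exact key' (X := S) (F := fun x s => f s (α x) - f s (β x))
      (F' := fun x s => f' s (α x) - f' s (β x)) (c hf).continuousOn (c hf').continuousOn
      (fun x s hs => ⟨sub_ne_zero.2 ((hi s hs).1.ne (h x x.2).1 (h x x.2).2.1 (h x x.2).2.2),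
        sub_ne_zero.2 ((hi s hs).2.ne (h x x.2).1 (h x x.2).2.1 (h x x.2).2.2)⟩)
      (fun x => by simp only [he _ (h x x.2).1, he _ (h x x.2).2.1, and_self]) ⟨x, hx⟩ ⟨y, hy⟩
  have hI : ∀ a b : ℝ, IsPreconnected (Icc a b ×ˢ ({0} : Set ℝ)) := fun a b =>
    isPreconnected_Icc.prod isPreconnected_singleton
  set α : P → P := fun ζ => (ε / (1 + ‖ζ‖)) • ζ with hα
  have main : ∀ z ∈ A, ∀ z' ∈ A, z ≠ z' → (N z z' ↔ N (α (1, 0)) 0) := by
    intro z hz z' hz' hne
    set c := min 1 (ε / (1 + ‖z‖ + ‖z'‖)) with hc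
    have hc0 : 0 < c := lt_min one_pos (by positivity)
    have hc1 : c * ‖z‖ + c * ‖z'‖ < ε := by
      have := (le_div_iff₀ (by positivity)).1 (min_le_right 1 (ε / (1 + ‖z‖ + ‖z'‖)))
      nlinarith
    have n1 : ‖c • z‖ = c * ‖z‖ := by rw [norm_smul, Real.norm_of_nonneg hc0.le]
    have n2 : ∀ r ∈ Icc (0 : ℝ) 1, ‖r • c • z'‖ ≤ c * ‖z'‖ := fun r hr => by
      rw [norm_smul, norm_smul, Real.norm_of_nonneg hc0.le, Real.norm_of_nonneg hr.1]
      exact mul_le_of_le_one_left (by positivity) hr.2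
    have d : c • z - c • z' ≠ 0 := by
      rw [← smul_sub]; exact smul_ne_zero hc0.ne' (sub_ne_zero.2 hne)
    have b : ∀ r ∈ Icc (0 : ℝ) 1, ‖c • z - r • c • z'‖ < ε := fun r hr => by
      linarith [norm_sub_le (c • z) (r • c • z'), n2 r hr]
    have s1 := G _ (fun x => x.1 • z) (fun x => x.1 • z') (hI c 1) (by fun_prop) (by fun_prop)
      (fun x hx => ⟨hA z hz _ ⟨hc0.le.trans hx.1.1, hx.1.2⟩, hA z' hz' _ ⟨hc0.le.trans hx.1.1, hx.1.2⟩,
        (smul_right_injective P (hc0.trans_le hx.1.1).ne').ne hne⟩)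
      (1, 0) ⟨⟨min_le_left _ _, le_rfl⟩, rfl⟩ (c, 0) ⟨⟨le_rfl, min_le_left _ _⟩, rfl⟩
    have s2 := G _ (fun x => c • z - x.1 • c • z') (fun x => (1 - x.1) • c • z') (hI 0 1)
      (by fun_prop) (by fun_prop)
      (fun x hx => ⟨hB (mem_ball_zero_iff.2 (b _ hx.1)), hB (mem_ball_zero_iff.2 (by
        linarith [n2 (1 - x.1) ⟨sub_nonneg.2 hx.1.2, sub_le_self _ hx.1.1⟩, mul_nonneg hc0.le (norm_nonneg z)])),
        fun e => d (by rw [sub_smul, one_smul, sub_left_inj] at e; exact sub_eq_zero.2 e)⟩)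
      (0, 0) ⟨left_mem_Icc.2 zero_le_one, rfl⟩ (1, 0) ⟨right_mem_Icc.2 zero_le_one, rfl⟩
    have hb := sub_pos.2 (b 1 (right_mem_Icc.2 zero_le_one))
    rw [one_smul] at hb
    have s3 := G {0}ᶜ α (fun _ => 0) (isConnected_compl_singleton_of_one_lt_rank
      (by simp [rank_prod', Cardinal.one_lt_two, one_add_one_eq_two]) 0).isPreconnected
      ((continuous_const.div (continuous_const.add continuous_norm) fun x =>
        (add_pos_of_pos_of_nonneg one_pos (norm_nonneg x)).ne').smul continuous_id)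
      continuous_const
      (fun x hx => ⟨hB (mem_ball_zero_iff.2 (by
        rw [norm_smul, Real.norm_of_nonneg (by positivity), div_mul_eq_mul_div,
          div_lt_iff₀ (by positivity)]
        linarith)), hB (Metric.mem_ball_self hε), smul_ne_zero (by positivity) hx⟩)
      ((ε - ‖c • z - c • z'‖)⁻¹ • (c • z - c • z')) (smul_ne_zero (inv_ne_zero hb.ne') d)
      (1, 0) (by simp)
    have e3 : α ((ε - ‖c • z - c • z'‖)⁻¹ • (c • z - c • z')) = c • z - c • z' := by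
      simp only [hα]
      rw [smul_smul, norm_smul, Real.norm_of_nonneg (inv_pos.2 hb).le]
      convert one_smul ℝ _
      field_simp
      ring
    simp only [one_smul, zero_smul, sub_zero, sub_self, e3] at s1 s2 s3
    exact s1.trans (s2.trans s3)
  by_cases h : N (α (1, 0)) 0
  · exact Or.inl fun z hz z' hz' hne => (main z hz z' hz' hne).2 h
  · exact Or.inr fun z hz z' hz' hne h' => h ((main z hz z' hz' hne).1 h')

lemma four {A : Set P} {Φ : P → P} {a a' b : ℝ → P} (hA : ∀ z ∈ A, ∀ r ∈ Icc (0 : ℝ) 1, r • z ∈ A)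
    (hΦ : Continuous Φ) (ha : ContinuousOn a (Icc 0 π)) (ha' : ContinuousOn a' (Icc 0 π))
    (hb : ContinuousOn b (Icc 0 π)) (h : ∀ s ∈ Icc 0 π, a s ∈ A ∧ a' s ∈ A ∧ b s ∉ Φ '' A)
    (e0 : a 0 = a' 0) (e1 : a π = a' π) :
    Null (fun s => Φ (a s) - b s) fun s => Φ (a' s) - b s := by
  have c : ∀ {g : ℝ → P}, ContinuousOn g (Icc 0 π) → ContinuousOn
      (fun q : Icc (0 : ℝ) 1 × ℝ => Φ ((q.1 : ℝ) • g q.2) - b q.2) (univ ×ˢ Icc 0 π) := fun hg =>
    (hΦ.comp_continuousOn ((by fun_prop : Continuous fun q : Icc (0 : ℝ) 1 × ℝ => (q.1 : ℝ)).continuousOn.smul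
      (hg.comp continuousOn_snd fun q hq => hq.2))).sub (hb.comp continuousOn_snd fun q hq => hq.2)
  have n : ∀ z ∈ A, ∀ r : Icc (0 : ℝ) 1, ∀ s ∈ Icc 0 π, Φ ((r : ℝ) • z) - b s ≠ 0 :=
    fun z hz r s hs e => (h s hs).2.2 ⟨_, hA z hz r r.2, sub_eq_zero.1 e⟩
  have k := key' (X := Icc (0 : ℝ) 1) (F := fun r s => Φ ((r : ℝ) • a s) - b s)
    (F' := fun r s => Φ ((r : ℝ) • a' s) - b s) (c ha) (c ha')
    (fun r s hs => ⟨n _ (h s hs).1 r s hs, n _ (h s hs).2.1 r s hs⟩)
    (fun r => by simp only [e0, e1, and_self]) 0 1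
  simp only [Icc.coe_zero, Icc.coe_one, zero_smul, one_smul] at k
  exact k.1 ⟨fun _ => 0, continuousOn_const, fun _ _ => by simp, rfl⟩

end WIND

theorem blk_WIND : St_WIND :=
  ⟨fun _ _ => WIND.one, fun _ _ => WIND.two, fun _ _ _ _ => WIND.three, fun _ _ _ _ _ => WIND.four⟩

end Pool.Agent.Lib.MP_f62ea7_gt
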