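import Pool.Agent.Lib.MP_f62ea7_gt.Basic

set_option autoImplicit false

open MeasureTheory Set Filter Topology Real
open scoped ContDiff ENNReal

namespace Pool.Agent.Lib.MP_f62ea7_gt

namespace DOM

/-- A smooth profile: `-1` for small arguments, `s - 1/2` for `s ≥ 3/10`. -/
noncomputable def prof (s : ℝ) : ℝ :=
  smoothTransition (5 * s - 1 / 2) * (s - 1 / 2) - (1 - smoothTransition (5 * s - 1 / 2))

lemma prof_sm : ContDiff ℝ ∞ prof := by
  have : ContDiff ℝ ∞ fun s : ℝ => smoothTransition (5 * s - 1 / 2) :=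
    smoothTransition.contDiff.comp ((contDiff_const.mul contDiff_id).sub contDiff_const)
  exact (this.mul (contDiff_id.sub contDiff_const)).sub (contDiff_const.sub this)

lemma prof_lo {s : ℝ} (h : s ≤ 1 / 10) : prof s = -1 := by
  rw [prof, smoothTransition.zero_of_nonpos (by linarith)]; ring

lemma prof_hi {s : ℝ} (h : 3 / 10 ≤ s) : prof s = s - 1 / 2 := by
  rw [prof, smoothTransition.one_of_one_le (by linarith)]; ring

lemma prof_neg {s : ℝ} (h : s < 1 / 2) : prof s < 0 := by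
  have h0 := smoothTransition.nonneg (5 * s - 1 / 2)
  have h1 := smoothTransition.le_one (5 * s - 1 / 2)
  unfold prof
  rcases h1.lt_or_eq with h2 | h2
  · nlinarith
  · rw [h2]; linarith

lemma ι_eq (κ : ℝ) (p : P) : ι κ p = Complex.equivRealProdCLM.symm (p.1, κ * p.2) := rfl

lemma ι_diff (κ : ℝ) : Differentiable ℝ (ι κ) :=
  Complex.equivRealProdCLM.symm.differentiable.comp
    (differentiable_fst.prodMk (differentiable_snd.const_mul κ))

lemma ιi_sm (κ : ℝ) : ContDiff ℝ ∞ (ιi κ) :=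
  Complex.reCLM.contDiff.prodMk (Complex.imCLM.contDiff.div_const κ)

lemma ιi_ι {κ : ℝ} (hκ : κ ≠ 0) (p : P) : ιi κ (ι κ p) = p := by
  ext
  · rfl
  · simp only [ιi, ι]; field_simp

lemma ι_ιi {κ : ℝ} (hκ : κ ≠ 0) (z : ℂ) : ι κ (ιi κ z) = z := by
  apply Complex.ext
  · rfl
  · simp only [ιi, ι]; field_simp

variable {κ C : ℝ} {X : Geo} (h : Full κ C X)
include h

lemma w_zero : X.w 0 = 0 :=
  le_antisymm (by simpa using h.w_hi 0 (by simp)) (by simpa using h.w_lo 0 (by simp))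

lemma m_cont : Continuous fun p => X.w (X.Ψ p) := h.w_sm.continuous.comp h.Ψ_cont

lemma m_sm {p : P} (hp : ‖p‖ < 3) (h0 : p ≠ 0) : ContDiffAt ℝ ∞ (fun p => X.w (X.Ψ p)) p :=
  h.w_sm.contDiffAt.comp p (h.Ψ_sm.contDiffAt ((Metric.isOpen_ball.sdiff isClosed_singleton).mem_nhds
    ⟨mem_ball_zero_iff.2 hp, h0⟩))

lemma g_sm : ContDiffOn ℝ ∞ (fun p => prof (X.w (X.Ψ p)) - 1) (Metric.ball 0 2) := by
  intro p hp
  refine (ContDiffAt.sub ?_ contDiffAt_const).contDiffWithinAt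
  by_cases h0 : p = 0
  · subst h0
    have : X.w (X.Ψ 0) < 1 / 10 := by rw [h.Ψ_zero, w_zero h]; norm_num
    refine (contDiffAt_const (c := (-1 : ℝ))).congr_of_eventuallyEq ?_
    filter_upwards [(m_cont h).continuousAt.eventually (gt_mem_nhds this)] with q hq
    exact prof_lo hq.le
  · exact prof_sm.contDiffAt.comp p (m_sm h ((mem_ball_zero_iff.1 hp).trans (by norm_num)) h0)

lemma m_reg {p : P} (hp : ‖p‖ < 3) (h0 : p ≠ 0) :
    ¬HasFDerivAt (fun p => X.w (X.Ψ p)) (0 : P →L[ℝ] ℝ) p := by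
  intro hd
  have h1 : fderiv ℝ X.ψ p = 0 := by
    have := ((hd.mul hd).mul_const (1 / 2 : ℝ)).fderiv
    rw [show X.ψ = fun y => (fun p => X.w (X.Ψ p)) y * (fun p => X.w (X.Ψ p)) y * (1 / 2) by
      funext y; simp only [Geo.ψ]; ring]
    simpa using this
  have h2 := h.ψ_dx p hp h0
  have h3 := h.ψ_du p hp h0
  rw [dx, h1] at h2
  rw [du, h1] at h3
  have h4 : X.V (X.Ψ p) = 0 := by simpa using h2
  have h5 : X.U p = 0 := by simpa using h3.symm
  have h6 : ‖X.Ψ p‖ ≤ 5 := norm_le_iff.2 ⟨(abs_fst_le p).trans (by linarith),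
    by simp [Geo.Ψ, h5]⟩
  have h7 := h.rad_ψ _ h6
  rw [h4] at h7
  have h8 : (X.Ψ p).2 = 0 := h5
  rw [h8] at h7
  have h9 : (X.Ψ p).1 = 0 := by
    have : (X.Ψ p).1 ^ 4 = 0 := le_antisymm (by linarith) (by positivity)
    exact pow_eq_zero_iff (by norm_num) |>.1 this
  exact h.Ψ_ne p hp.le h0 (Prod.ext h9 h8)

lemma exists_def : ∃ H : P → ℝ, ContDiff ℝ ∞ H ∧ (∀ p, p ∈ X.M ↔ H p ≤ 0) ∧
    ∀ p, H p = 0 → ¬HasFDerivAt H (0 : P →L[ℝ] ℝ) p := by
  obtain ⟨χ, hχ, -, hs, h1, h01⟩ := exists_cutoff (isCompact_closedBall (0 : P) (3 / 2))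
    Metric.isOpen_ball (Metric.closedBall_subset_ball (show (3 / 2 : ℝ) < 2 by norm_num))
  have hin : ∀ p : P, ‖p‖ < 3 / 2 →
      χ p • (prof (X.w (X.Ψ p)) - 1) + 1 = prof (X.w (X.Ψ p)) := fun p hp => by
    rw [h1 p (mem_closedBall_zero_iff.2 hp.le)]; simp
  have hM : ∀ p, p ∈ X.M ↔ χ p • (prof (X.w (X.Ψ p)) - 1) + 1 ≤ 0 := fun p => by
    constructor
    · intro hp
      rw [hin p (h.N_small p (h.M_sub hp))]
      rcases hp.2.lt_or_eq with h2 | h2
      · exact (prof_neg h2).le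
      · rw [h2, prof_hi (by norm_num)]; norm_num
    · intro hp
      have h2 : χ p ≠ 0 := fun h2 => by rw [h2] at hp; norm_num at hp
      refine ⟨(mem_ball_zero_iff.1 (hs (subset_tsupport _ h2))).le, not_lt.1 fun h3 => ?_⟩
      rw [prof_hi (by linarith), smul_eq_mul] at hp
      have h4 := (h01 p).1.lt_of_ne h2.symm
      nlinarith [(h01 p).2, mul_pos h4 (sub_pos.2 h3)]
  refine ⟨fun p => χ p • (prof (X.w (X.Ψ p)) - 1) + 1,
    (contDiff_cutoff_smul Metric.isOpen_ball hχ hs (g_sm h)).add contDiff_const, hM,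
    fun p hp hd => ?_⟩
  have hpM := (hM p).2 hp.le
  have hn := h.N_small p (h.M_sub hpM)
  have hp' : prof (X.w (X.Ψ p)) = 0 := (hin p hn).symm.trans hp
  have hm : X.w (X.Ψ p) = 1 / 2 := hpM.2.eq_or_lt.resolve_right fun h2 => (prof_neg h2).ne hp'
  have h0 : p ≠ 0 := fun h0 => by
    rw [h0, h.Ψ_zero, w_zero h] at hm; norm_num at hm
  refine m_reg h (hn.trans (by norm_num)) h0 ((hd.add_const (1 / 2)).congr_of_eventuallyEq ?_)
  filter_upwards [(m_cont h).continuousAt.eventually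
      (lt_mem_nhds (show (3 / 10 : ℝ) < X.w (X.Ψ p) by rw [hm]; norm_num)),
    continuous_norm.continuousAt.eventually (gt_mem_nhds hn)] with q h2 h3
  rw [hin q h3, prof_hi h2.le]; ring

lemma M_conn : IsConnected X.M := by
  rw [h.M_eq]
  refine IsConnected.image (StarConvex.isPathConnected (a := 0) ?_ ?_).isConnected _
    h.Φ_cont.continuousOn
  · exact starConvex_zero_iff.2 fun z hz r h0 h1 => h.Ml_star z hz r ⟨h0, h1⟩
  · exact h.Ml_ball (Metric.mem_ball_self (by norm_num))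

end DOM

open DOM in
theorem blk_DOM : St_DOM := by
  intro κ C X h
  have hκ := h.κ_pos.ne'
  obtain ⟨H, H1, H2, H3⟩ := exists_def h
  refine ⟨h.M_compact.image (ι_diff κ).continuous,
    (M_conn h).image _ (ι_diff κ).continuous.continuousOn, fun z => H (ιi κ z),
    H1.comp (ιi_sm κ), ?_, fun z hz hd => H3 _ hz ?_⟩
  · ext z
    constructor
    · rintro ⟨p, hp, rfl⟩
      exact (congrArg H (ιi_ι hκ p)).trans_le ((H2 p).1 hp)
    · exact fun hz => ⟨_, (H2 _).2 hz, ι_ιi hκ z⟩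
  · have h1 : HasFDerivAt (fun z => H (ιi κ z)) (0 : ℂ →L[ℝ] ℝ) (ι κ (ιi κ z)) := by
      rw [ι_ιi hκ, ← hd]
      exact ((H1.comp (ιi_sm κ)).differentiable (by simp) z).hasFDerivAt
    have h2 := h1.comp (ιi κ z) (ι_diff κ (ιi κ z)).hasFDerivAt
    rw [ContinuousLinearMap.zero_comp] at h2
    exact h2.congr_of_eventuallyEq
      (Eventually.of_forall fun p => (congrArg H (ιi_ι hκ p)).symm)

end Pool.Agent.Lib.MP_f62ea7_gt
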