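import Pool.Agent.Lib.MP_f62ea7_gt.Basic

set_option autoImplicit false

open MeasureTheory Set Filter Topology Real
open scoped ContDiff ENNReal NNReal BoundedContinuousFunction

namespace Pool.Agent.Lib.MP_f62ea7_gt

namespace TR1

/-- The identification of the plane with the complex numbers, as a continuous linear equivalence. -/
noncomputable def ιE (κ : ℝ) (hκ : κ ≠ 0) : P ≃L[ℝ] ℂ :=
  LinearEquiv.toContinuousLinearEquiv
    { toFun := ι κ
      invFun := ιi κ
      map_add' := fun p q => by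
        apply Complex.ext <;> simp [ι, mul_add]
      map_smul' := fun c p => by
        apply Complex.ext <;> simp [ι]
        ring
      left_inv := fun p => by
        ext <;> simp [ι, ιi]
        field_simp
      right_inv := fun z => by
        apply Complex.ext <;> simp [ι, ιi]
        field_simp }

lemma ιE_apply {κ : ℝ} (hκ : κ ≠ 0) (p : P) : ιE κ hκ p = ι κ p := rfl
lemma ιE_symm {κ : ℝ} (hκ : κ ≠ 0) (z : ℂ) : (ιE κ hκ).symm z = ιi κ z := rfl
lemma ιi_ι {κ : ℝ} (hκ : κ ≠ 0) (p : P) : ιi κ (ι κ p) = p := (ιE κ hκ).symm_apply_apply p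
lemma ι_ιi {κ : ℝ} (hκ : κ ≠ 0) (z : ℂ) : ι κ (ιi κ z) = z := (ιE κ hκ).apply_symm_apply z

lemma emb {κ : ℝ} (hκ : κ ≠ 0) : MeasurableEmbedding (ι κ) :=
  (ιE κ hκ).toHomeomorph.measurableEmbedding

lemma map_ι {κ : ℝ} (hκ : 0 < κ) :
    Measure.map (ι κ) (volume : Measure P) = ENNReal.ofReal κ⁻¹ • (volume : Measure ℂ) := by
  have h1 : ι κ = Complex.measurableEquivRealProd.symm ∘ Prod.map id (fun y : ℝ => κ * y) := by
    funext p; rfl
  have hm : Measurable (fun y : ℝ => κ * y) := measurable_const_mul κ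
  rw [h1, ← Measure.map_map Complex.measurableEquivRealProd.symm.measurable
    (measurable_id.prodMap hm), Measure.volume_eq_prod, ← Measure.map_prod_map _ _ measurable_id hm,
    Measure.map_id, Real.map_volume_mul_left hκ.ne', Measure.prod_smul_right, Measure.map_smul,
    ← Measure.volume_eq_prod, Complex.volume_preserving_equiv_real_prod.symm.map_eq,
    abs_of_pos (inv_pos.2 hκ)]

lemma vol_eq {κ : ℝ} (hκ : 0 < κ) :
    (volume : Measure ℂ) = ENNReal.ofReal κ • Measure.map (ι κ) (volume : Measure P) := by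
  rw [map_ι hκ, smul_smul, ← ENNReal.ofReal_mul hκ.le, mul_inv_cancel₀ hκ.ne', ENNReal.ofReal_one,
    one_smul]

lemma vol_image {κ : ℝ} (hκ : 0 < κ) (A : Set P) :
    volume (ι κ '' A) = ENNReal.ofReal κ * volume A := by
  rw [vol_eq hκ, Measure.smul_apply, (emb hκ.ne').map_apply,
    preimage_image_eq _ (emb hκ.ne').injective, smul_eq_mul]

lemma lint_image {κ : ℝ} (hκ : 0 < κ) (A : Set P) (F : ℂ → ℝ≥0∞) :
    ∫⁻ z in ι κ '' A, F z = ENNReal.ofReal κ * ∫⁻ a in A, F (ι κ a) := by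
  rw [vol_eq hκ, Measure.restrict_smul, lintegral_smul_measure, (emb hκ.ne').restrict_map,
    (emb hκ.ne').lintegral_map, preimage_image_eq _ (emb hκ.ne').injective, smul_eq_mul]

lemma lip_union {E : Type} [PseudoMetricSpace E] {g : ℝ → E} {a b c : ℝ} {K K' : ℝ≥0}
    (h1 : LipschitzOnWith K g (Icc a b)) (h2 : LipschitzOnWith K' g (Icc b c)) (hab : a ≤ b)
    (hbc : b ≤ c) : LipschitzOnWith (K + K') g (Icc a c) := by
  have key : ∀ x ∈ Icc a c, ∀ y ∈ Icc a c, x ≤ y → dist (g x) (g y) ≤ (K + K' : ℝ≥0) * dist x y := by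
    intro x hx y hy hxy
    have hK : (0 : ℝ) ≤ K := K.2
    have hK' : (0 : ℝ) ≤ K' := K'.2
    push_cast
    rcases le_total y b with hy' | hy'
    · have := h1.dist_le_mul x ⟨hx.1, hxy.trans hy'⟩ y ⟨hy.1, hy'⟩
      nlinarith [dist_nonneg (x := x) (y := y)]
    · rcases le_total b x with hx' | hx'
      · have := h2.dist_le_mul x ⟨hx', hx.2⟩ y ⟨hy', hy.2⟩
        nlinarith [dist_nonneg (x := x) (y := y)]
      · have e1 := h1.dist_le_mul x ⟨hx.1, hx'⟩ b ⟨hab, le_rfl⟩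
        have e2 := h2.dist_le_mul b ⟨le_rfl, hbc⟩ y ⟨hy', hy.2⟩
        have e3 := dist_triangle (g x) (g b) (g y)
        rw [Real.dist_eq, abs_sub_comm, abs_of_nonneg (by linarith)] at e1 e2 ⊢
        nlinarith
  refine LipschitzOnWith.of_dist_le_mul fun x hx y hy => ?_
  rcases le_total x y with h | h
  · exact key x hx y hy h
  · rw [dist_comm (g x), dist_comm x]; exact key y hy x hx h

lemma lip_piece {E : Type} [NormedAddCommGroup E] [NormedSpace ℝ E] {g : ℝ → E} {S : Finset ℝ}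
    (h : ∀ a b : ℝ, 0 ≤ a → b ≤ 1 → (∀ t ∈ S, t ∉ Ioo a b) → ContDiffOn ℝ 1 g (Icc a b)) :
    ∃ K, LipschitzOnWith K g (Icc 0 1) := by
  classical
  have main : ∀ n : ℕ, ∀ a b : ℝ, 0 ≤ a → b ≤ 1 → (S.filter (· ∈ Ioo a b)).card ≤ n →
      ∃ K, LipschitzOnWith K g (Icc a b) := by
    intro n
    induction n with
    | zero =>
      intro a b ha hb hc
      refine (h a b ha hb fun t ht hm => ?_).exists_lipschitzOnWith one_ne_zero (convex_Icc a b)
        isCompact_Icc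
      have : t ∈ S.filter (· ∈ Ioo a b) := Finset.mem_filter.2 ⟨ht, hm⟩
      rw [Finset.card_eq_zero.1 (Nat.le_zero.1 hc)] at this
      simp at this
    | succ n ih =>
      intro a b ha hb hc
      by_cases he : ∀ t ∈ S, t ∉ Ioo a b
      · exact (h a b ha hb he).exists_lipschitzOnWith one_ne_zero (convex_Icc a b) isCompact_Icc
      push Not at he
      obtain ⟨t, ht, hm⟩ := he
      have hmem : t ∈ S.filter (· ∈ Ioo a b) := Finset.mem_filter.2 ⟨ht, hm⟩
      have small : ∀ a' b' : ℝ, a ≤ a' → b' ≤ b → t ∉ Ioo a' b' →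
          (S.filter (· ∈ Ioo a' b')).card ≤ n := by
        intro a' b' h1 h2 h3
        have hs : S.filter (· ∈ Ioo a' b') ⊆ (S.filter (· ∈ Ioo a b)).erase t := by
          intro x hx
          obtain ⟨hx1, hx2⟩ := Finset.mem_filter.1 hx
          refine Finset.mem_erase.2 ⟨fun e => h3 (e ▸ hx2), Finset.mem_filter.2
            ⟨hx1, h1.trans_lt hx2.1, hx2.2.trans_le h2⟩⟩
        have := Finset.card_le_card hs
        rw [Finset.card_erase_of_mem hmem] at this
        omega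
      obtain ⟨K, hK⟩ := ih a t ha (hm.2.le.trans hb) (small a t le_rfl hm.2.le fun x => lt_irrefl _ x.2)
      obtain ⟨K', hK'⟩ := ih t b (ha.trans hm.1.le) hb
        (small t b hm.1.le le_rfl fun x => lt_irrefl _ x.1)
      exact ⟨_, lip_union hK hK' hm.1.le hm.2.le⟩
  exact main _ 0 1 le_rfl le_rfl le_rfl

lemma diff_piece {E : Type} [NormedAddCommGroup E] [NormedSpace ℝ E] {g : ℝ → E} {S : Finset ℝ}
    (h : ∀ a b : ℝ, 0 ≤ a → b ≤ 1 → (∀ t ∈ S, t ∉ Ioo a b) → ContDiffOn ℝ 1 g (Icc a b))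
    {t : ℝ} (ht : t ∈ Ioo (0 : ℝ) 1) (hS : t ∉ S) : DifferentiableAt ℝ g t := by
  have ho : IsOpen (Ioo (0 : ℝ) 1 ∩ (S : Set ℝ)ᶜ) :=
    isOpen_Ioo.inter S.finite_toSet.isClosed.isOpen_compl
  obtain ⟨a, b, hab, hsub⟩ := mem_nhds_iff_exists_Ioo_subset.1 (ho.mem_nhds ⟨ht, hS⟩)
  have h1 := h (max a 0) (min b 1) (le_max_right _ _) (min_le_right _ _) fun x hx hm =>
    (hsub ⟨(le_max_left _ _).trans_lt hm.1, hm.2.trans_le (min_le_left _ _)⟩).2 hx
  exact (h1.contDiffAt (Icc_mem_nhds (max_lt hab.1 ht.1) (lt_min hab.2 ht.2))).differentiableAt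
    one_ne_zero

lemma norm_ι_sq (κ : ℝ) (p : P) : ‖ι κ p‖ ^ 2 = p.1 ^ 2 + κ ^ 2 * p.2 ^ 2 := by
  rw [Complex.sq_norm, Complex.normSq_apply]; simp [ι]; ring

/-- The energy identity for a bounded measurable velocity field. -/
lemma energy_eq {κ : ℝ} (hκ : 0 < κ) {M : Set P} (hM : IsCompact M) {v : ℝ → P → P} {B : ℝ}
    (hv : Measurable fun q : ℝ × P => v q.1 q.2) (hB : ∀ t a, ‖v t a‖ ≤ B) {γ : ℝ → ℂ → ℂ}
    {S : Finset ℝ}
    (hd : ∀ t ∈ Ioo (0 : ℝ) 1, t ∉ S → ∀ a ∈ M, deriv (fun τ => γ τ (ι κ a)) t = ι κ (π • v (π * t) a)) :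
    energy (ι κ '' M) γ = ENNReal.ofReal (κ * π * act κ M v) := by
  set f : ℝ → P → ℝ := fun t a => ((v t a).1 ^ 2 + κ ^ 2 * (v t a).2 ^ 2) / 2 with hf
  have fm : Measurable fun q : ℝ × P => f q.1 q.2 :=
    ((hv.fst.pow_const 2).add ((hv.snd.pow_const 2).const_mul _)).div_const 2
  have f0 : ∀ t a, 0 ≤ f t a := fun t a => by simp only [hf]; positivity
  have fB : ∀ t a, f t a ≤ (B ^ 2 + κ ^ 2 * B ^ 2) / 2 := fun t a => by
    have h0 : ‖v t a‖ ^ 2 ≤ B ^ 2 := pow_le_pow_left₀ (norm_nonneg _) (hB t a) 2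
    have h1 := (fst_sq_le (v t a)).trans h0
    have h2 := (snd_sq_le (v t a)).trans h0
    simp only [hf]
    have := mul_le_mul_of_nonneg_left h2 (sq_nonneg κ)
    linarith
  have : IsFiniteMeasure (volume.restrict M) := ⟨by simpa using hM.measure_lt_top⟩
  have fi : ∀ t, Integrable (f t) (volume.restrict M) := fun t =>
    Integrable.of_bound (fm.comp measurable_prodMk_left).aestronglyMeasurable _
      (Eventually.of_forall fun a => by rw [Real.norm_of_nonneg (f0 t a)]; exact fB t a)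
  set h : ℝ → ℝ := fun t => ∫ a in M, f t a with hh
  have hm : StronglyMeasurable h :=
    StronglyMeasurable.integral_prod_right (f := f) fm.stronglyMeasurable
  have h0 : ∀ t, 0 ≤ h t := fun t => integral_nonneg (f0 t)
  have hb : ∀ t, ‖h t‖ ≤ (B ^ 2 + κ ^ 2 * B ^ 2) / 2 * (volume.restrict M).real univ := fun t =>
    norm_integral_le_of_norm_le_const
      (Eventually.of_forall fun a => by rw [Real.norm_of_nonneg (f0 t a)]; exact fB t a)
  have inner : ∀ t ∈ Ioo (0 : ℝ) 1, t ∉ S →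
      ∫⁻ z in ι κ '' M, ‖deriv (fun τ => γ τ z) t‖ₑ ^ 2 =
        ENNReal.ofReal (κ * (2 * π ^ 2) * h (π * t)) := by
    intro t ht hS
    rw [lint_image hκ, setLIntegral_congr_fun hM.measurableSet
      (g := fun a => ENNReal.ofReal (2 * π ^ 2 * f (π * t) a)) (fun a ha => by
        simp only
        rw [hd t ht hS a ha, ← ofReal_norm, ← ENNReal.ofReal_pow (norm_nonneg _), norm_ι_sq]
        congr 1
        simp only [hf, Prod.smul_fst, Prod.smul_snd, smul_eq_mul]
        ring),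
      ← ofReal_integral_eq_lintegral_ofReal ((fi _).const_mul _)
        (Eventually.of_forall fun a => mul_nonneg (by positivity) (f0 _ a)),
      integral_const_mul, ← ENNReal.ofReal_mul hκ.le]
    congr 1
    simp only [hh]
    ring
  have hS0 : ∀ᵐ t ∂(volume.restrict (Ioo (0 : ℝ) 1)), t ∉ S :=
    ae_restrict_of_ae (S.finite_toSet.countable.ae_notMem volume)
  have hi : Integrable (fun t => κ * (2 * π ^ 2) * h (π * t)) (volume.restrict (Ioo (0 : ℝ) 1)) :=
    (Integrable.of_bound (hm.measurable.comp (measurable_const_mul π)).aestronglyMeasurable _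
      (Eventually.of_forall fun t => hb (π * t))).const_mul _
  unfold energy
  rw [lintegral_congr_ae (g := fun t => ENNReal.ofReal (κ * (2 * π ^ 2) * h (π * t))) (by
      filter_upwards [ae_restrict_mem measurableSet_Ioo, hS0] with t ht hS using inner t ht hS),
    ← ofReal_integral_eq_lintegral_ofReal hi
      (Eventually.of_forall fun t => mul_nonneg (by positivity) (h0 _)),
    integral_const_mul, ← integral_Ioc_eq_integral_Ioo,
    ← intervalIntegral.integral_of_le zero_le_one,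
    intervalIntegral.integral_comp_mul_left h pi_ne_zero, mul_zero, mul_one,
    ← ENNReal.ofReal_ofNat 2, ← ENNReal.ofReal_div_of_pos two_pos]
  congr 1
  have : act κ M v = ∫ x in (0 : ℝ)..π, h x := rfl
  rw [this, smul_eq_mul]
  field_simp

end TR1

open TR1 in
theorem blk_TR1 (hE : St_EMB) : St_TR1 := by
  intro s κ M φ γ hs hκ hM hγ
  obtain ⟨Bs, hBs, hL⟩ := hE s hs
  obtain ⟨⟨g, S, hg, hgγ⟩, hD, h0, h1⟩ := hγ
  obtain ⟨K, hK⟩ := lip_piece hg
  have hκ' := hκ.ne'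
  set e := ιE κ hκ' with he
  set G : ℝ → L2 := fun t => g (projIcc (0 : ℝ) 1 zero_le_one (π⁻¹ * t)) with hG
  have hGL : ∃ K', LipschitzWith K' G :=
    ⟨_, (hK.to_restrict.comp (LipschitzWith.projIcc zero_le_one)).comp
      (lipschitzWith_smul (π⁻¹ : ℝ))⟩
  obtain ⟨K', hGL⟩ := hGL
  have Gin : ∀ t : ℝ, π⁻¹ * t ∈ Icc (0 : ℝ) 1 → G t = g (π⁻¹ * t) := fun t ht => by
    simp only [hG, projIcc_of_mem zero_le_one ht]
  have tin : ∀ t ∈ Icc 0 π, π⁻¹ * t ∈ Icc (0 : ℝ) 1 := fun t ht =>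
    ⟨mul_nonneg (inv_pos.2 pi_pos).le ht.1, by
      rw [inv_mul_le_iff₀ pi_pos]; simpa using ht.2⟩
  have tin' : ∀ t ∈ Ioo 0 π, π⁻¹ * t ∈ Ioo (0 : ℝ) 1 := fun t ht =>
    ⟨mul_pos (inv_pos.2 pi_pos) ht.1, by
      rw [inv_mul_lt_iff₀ pi_pos]; simpa using ht.2⟩
  set η : ℝ → P → P := fun t a => e.symm (Bs (G t) (e a)) with hη
  have ηc : Continuous fun q : ℝ × P => η q.1 q.2 :=
    e.symm.continuous.comp (Continuous.eval
      (Bs.continuous.comp (hGL.continuous.comp continuous_fst)) (e.continuous.comp continuous_snd))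
  have ηγ : ∀ t ∈ Icc 0 π, ∀ a ∈ M, ι κ (η t a) = γ (π⁻¹ * t) (ι κ a) := fun t ht a ha => by
    rw [hgγ _ (tin t ht) _ (mem_image_of_mem _ ha), ← hBs, ← Gin t (tin t ht)]
    exact e.apply_symm_apply _
  set v : ℝ → P → P := fun t a => deriv (fun τ => η τ a) t with hv
  have vm : Measurable fun q : ℝ × P => v q.1 q.2 :=
    (measurable_deriv_with_param (f := fun (a : P) (τ : ℝ) => η τ a)
      (ηc.comp continuous_swap)).comp measurable_swap
  have vB : ∀ t a, ‖v t a‖ ≤ ((‖(e.symm : ℂ →L[ℝ] P)‖₊ * (1 * (‖Bs‖₊ * K')) : ℝ≥0) : ℝ) :=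
    fun t a => norm_deriv_le_of_lipschitz ((e.symm : ℂ →L[ℝ] P).lipschitz.comp
      ((BoundedContinuousFunction.lipschitz_eval_const (e a)).comp (Bs.lipschitz.comp hGL)))
  have vd : ∀ t ∈ Ioo 0 π, π⁻¹ * t ∉ S → ∀ a, HasDerivAt (fun τ => η τ a) (v t a) t := by
    intro t ht hS a
    have d1 : DifferentiableAt ℝ (fun τ => g (π⁻¹ * τ)) t :=
      (diff_piece hg (tin' t ht) hS).comp t (differentiableAt_id.const_mul _)
    have d2 : DifferentiableAt ℝ G t := by
      refine d1.congr_of_eventuallyEq ?_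
      filter_upwards [Icc_mem_nhds ht.1 ht.2] with τ hτ using Gin τ (tin τ hτ)
    have d4 : DifferentiableAt ℝ
        ((BoundedContinuousFunction.evalCLM ℝ (e a) : (ℂ →ᵇ ℂ) →L[ℝ] ℂ) ∘ Bs ∘ G) t :=
      (ContinuousLinearMap.differentiableAt _).comp t (Bs.differentiableAt.comp t d2)
    have d3 : DifferentiableAt ℝ (fun τ => η τ a) t := e.symm.differentiableAt.comp t d4
    exact d3.hasDerivAt
  have back : ∀ {p : P}, ι κ p ∈ ι κ '' M → p ∈ M := fun {p} hp =>
    (mem_image_iff_of_inverse (ιi_ι hκ') (ι_ιi hκ')).1 hp |> fun h => by rwa [ιi_ι hκ'] at h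
  have maps : ∀ t ∈ Icc 0 π, MapsTo (η t) M M := fun t ht a ha =>
    back (by rw [ηγ t ht a ha]; exact (hD _ (tin t ht)).2.1 (mem_image_of_mem _ ha))
  have inv : ∀ t ∈ Icc 0 π, ∃ ρ : P → P, Continuous ρ ∧ MapsTo ρ M M ∧ InvOn ρ (η t) M M := by
    intro t ht
    obtain ⟨f', ⟨g', hg'⟩, hm', hi⟩ := (hD _ (tin t ht)).2.2.1
    have hρ : ∀ a ∈ M, ι κ (e.symm (Bs g' (e a))) = f' (ι κ a) := fun a ha => by
      rw [hg' _ (mem_image_of_mem _ ha), ← hBs]
      exact e.apply_symm_apply _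
    have hmρ : MapsTo (fun a => e.symm (Bs g' (e a))) M M := fun a ha =>
      back (by rw [hρ a ha]; exact hm' (mem_image_of_mem _ ha))
    refine ⟨fun a => e.symm (Bs g' (e a)),
      e.symm.continuous.comp ((Bs g').continuous.comp e.continuous), hmρ, fun a ha => ?_,
      fun a ha => ?_⟩
    · apply (emb hκ').injective
      rw [hρ _ (maps t ht ha), ηγ t ht a ha]
      exact hi.1 (mem_image_of_mem _ ha)
    · apply (emb hκ').injective
      rw [ηγ t ht _ (hmρ ha), hρ a ha]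
      exact hi.2 (mem_image_of_mem _ ha)
  refine ⟨η, v, ⟨ηc, vm, ⟨_, fun t _ a _ => vB t a⟩, ⟨S.image (π * ·), fun t ht hS a _ => ?_⟩,
    maps, inv, fun t ht => ?_⟩, fun a ha => ⟨?_, ?_⟩, ?_, ?_⟩
  · refine vd t ht (fun h => hS (Finset.mem_image.2 ⟨_, h, ?_⟩)) a
    rw [mul_inv_cancel_left₀ pi_ne_zero]
  · obtain ⟨ρ, -, hρ, hi⟩ := inv t ht
    refine mp_of_image hM.measurableSet (ηc.comp (Continuous.prodMk_right t)).measurable
      (maps t ht) (hi.2.surjOn hρ) fun A hA hAm => ?_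
    have e1 : ι κ '' (η t '' A) = γ (π⁻¹ * t) '' (ι κ '' A) := by
      rw [image_image, image_image]
      exact image_congr fun a ha => ηγ t ht a (hA ha)
    have e2 := (hD _ (tin t ht)).2.2.2 (ι κ '' A) (image_mono hA)
      ((emb hκ').measurableSet_image.2 hAm)
    rw [← e1, vol_image hκ, vol_image hκ] at e2
    exact (ENNReal.mul_right_inj (by simpa using hκ) ENNReal.ofReal_ne_top).1 e2
  · apply (emb hκ').injective
    rw [ηγ 0 ⟨le_rfl, pi_pos.le⟩ a ha, mul_zero, h0 _ (mem_image_of_mem _ ha)]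
  · apply (emb hκ').injective
    rw [ηγ π ⟨pi_pos.le, le_rfl⟩ a ha, inv_mul_cancel₀ pi_ne_zero, h1 _ (mem_image_of_mem _ ha),
      cj, ιi_ι hκ']
  · refine energy_eq hκ hM vm vB (S := S) fun t ht hS a ha => ?_
    have ht' : π * t ∈ Ioo 0 π := ⟨mul_pos pi_pos ht.1, by nlinarith [pi_pos, ht.2]⟩
    have d1 := vd (π * t) ht' (by rwa [inv_mul_cancel_left₀ pi_ne_zero]) a
    have d2 : HasDerivAt (fun τ => η (π * τ) a) (π • v (π * t) a) t :=
      d1.scomp t (by simpa using (hasDerivAt_id t).const_mul π)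
    have d3 : HasDerivAt (fun τ => e (η (π * τ) a)) (e (π • v (π * t) a)) t :=
      (e : P →L[ℝ] ℂ).hasFDerivAt.comp_hasDerivAt t d2
    refine (d3.congr_of_eventuallyEq ?_).deriv
    filter_upwards [Icc_mem_nhds ht.1 ht.2] with τ hτ
    have := ηγ (π * τ) ⟨mul_nonneg pi_pos.le hτ.1, by nlinarith [pi_pos, hτ.2]⟩ a ha
    rw [inv_mul_cancel_left₀ pi_ne_zero] at this
    exact this.symm
  · obtain ⟨L, hL⟩ := hL (G (π / 2))
    have : η (π / 2) = (e.symm : ℂ →L[ℝ] P) ∘ bessel s (G (π / 2)) ∘ (e : P →L[ℝ] ℂ) := by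
      funext a; simp only [hη, hBs]; rfl
    rw [this]
    exact ⟨_, ((e.symm : ℂ →L[ℝ] P).lipschitz.comp
      (hL.comp (e : P →L[ℝ] ℂ).lipschitz)).lipschitzOnWith⟩

end Pool.Agent.Lib.MP_f62ea7_gt
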