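import Pool.Agent.Lib.MP_f62ea7_gt.Basic

set_option autoImplicit false

open MeasureTheory Set Real Filter Topology
open scoped FourierTransform ContDiff ENNReal RealInnerProductSpace

namespace Pool.Agent.Lib.MP_f62ea7_gt

namespace HS

abbrev Q : Type := ℝ × ℝ × ℂ

def Nice (F : Q → ℂ) : Prop := ContDiff ℝ ∞ F ∧ HasCompactSupport F

noncomputable def dθ (F : Q → ℂ) (q : Q) : ℂ := fderiv ℝ F q (0, 1, 0)

lemma Nice.d {F : Q → ℂ} (h : Nice F) : Nice (dθ F) :=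
  ⟨(h.1.fderiv_right (m := ∞) le_rfl).clm_apply contDiff_const, h.2.fderiv_apply ℝ _⟩

lemma Nice.der {F : Q → ℂ} (h : Nice F) (l θ : ℝ) (z : ℂ) :
    HasDerivAt (fun t => F (l, t, z)) (dθ F (l, θ, z)) θ :=
  (h.1.differentiable (by simp) _).hasFDerivAt.comp_hasDerivAt θ
    ((hasDerivAt_const θ l).prodMk ((hasDerivAt_id θ).prodMk (hasDerivAt_const θ z)))

lemma bound {E : Type} [NormedAddCommGroup E] {Φ : Q → E} (h1 : Continuous Φ) (h2 : HasCompactSupport Φ) :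
    ∃ B : ℂ → ℝ, Integrable B ∧ ∀ l θ z, ‖Φ (l, θ, z)‖ ≤ B z := by
  obtain ⟨C, hC⟩ := h1.bounded_above_of_compact_support h2
  obtain ⟨R, -, hR⟩ := h2.exists_pos_le_norm
  refine ⟨(Metric.ball 0 R).indicator fun _ => C,
    (integrable_indicator_iff Metric.isOpen_ball.measurableSet).2
      (integrableOn_const measure_ball_lt_top.ne), fun l θ z => ?_⟩
  by_cases hz : z ∈ Metric.ball (0 : ℂ) R
  · rw [indicator_of_mem hz]; exact hC _
  · rw [indicator_of_notMem hz, hR, norm_zero]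
    rw [mem_ball_zero_iff, not_lt] at hz
    exact hz.trans ((norm_snd_le (θ, z)).trans (norm_snd_le (l, θ, z)))

lemma Nice.sm {F : Q → ℂ} (h : Nice F) (l θ : ℝ) : ContDiff ℝ ∞ fun z => F (l, θ, z) :=
  h.1.comp (contDiff_const.prodMk (contDiff_const.prodMk contDiff_id))

lemma Nice.int {F : Q → ℂ} (h : Nice F) (l θ : ℝ) : Integrable fun z => F (l, θ, z) := by
  obtain ⟨B, b1, b2⟩ := bound h.1.continuous h.2
  exact b1.mono' (h.sm l θ).continuous.aestronglyMeasurable (Eventually.of_forall (b2 l θ))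

lemma Nice.iter {F : Q → ℂ} (h : Nice F) (n : ℕ) (l θ : ℝ) (z : ℂ) :
    ‖iteratedFDeriv ℝ n (fun z => F (l, θ, z)) z‖ ≤ ‖iteratedFDeriv ℝ n F (l, θ, z)‖ := by
  let g : ℂ →L[ℝ] Q := (ContinuousLinearMap.inr ℝ ℝ (ℝ × ℂ)).comp (ContinuousLinearMap.inr ℝ ℝ ℂ)
  have hg : ‖g‖ ≤ 1 := ContinuousLinearMap.opNorm_le_bound _ one_pos.le fun x => by
    simp [g, Prod.norm_def]
  have e : (fun z => F (l, θ, z)) = (fun q => F ((l, θ, 0) + q)) ∘ g := by
    ext z; simp [g]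
  have e2 : ((l, θ, 0) : Q) + g z = (l, θ, z) := by simp [g]
  rw [e, g.iteratedFDeriv_comp_right (n := ∞) (f := fun q => F ((l, θ, 0) + q))
    (h.1.comp (contDiff_const.add contDiff_id)) z
    (by exact_mod_cast le_top), iteratedFDeriv_comp_add_left, e2]
  refine (ContinuousMultilinearMap.norm_compContinuousLinearMap_le _ _).trans ?_
  exact mul_le_of_le_one_right (norm_nonneg _) (Finset.prod_le_one (fun _ _ => norm_nonneg _) fun _ _ => hg)

noncomputable def Fh (F : Q → ℂ) (l θ : ℝ) : ℂ → ℂ := 𝓕 fun z => F (l, θ, z)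

lemma Nice.cont {F : Q → ℂ} (h : Nice F) (l θ : ℝ) : Continuous (Fh F l θ) :=
  VectorFourier.fourierIntegral_continuous Real.continuous_fourierChar (innerSL ℝ).continuous₂ (h.int l θ)

lemma Nice.pow {F : Q → ℂ} (h : Nice F) (n : ℕ) : ∃ C, ∀ l θ ξ, ‖ξ‖ ^ n * ‖Fh F l θ ξ‖ ≤ C := by
  choose B b1 b2 using fun m : ℕ =>
    bound (h.1.continuous_iteratedFDeriv (m := m) (by exact_mod_cast le_top)) (h.2.iteratedFDeriv m)
  refine ⟨2 ^ n * ∑ m ∈ Finset.range (n + 1), ∫ z, B m z, fun l θ ξ => ?_⟩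
  have hi : ∀ m : ℕ, Integrable fun v => ‖iteratedFDeriv ℝ m (fun z => F (l, θ, z)) v‖ := fun m =>
    (b1 m).mono' ((h.sm l θ).continuous_iteratedFDeriv (m := m)
      (by exact_mod_cast le_top)).norm.aestronglyMeasurable
      (Eventually.of_forall fun z => by rw [norm_norm]; exact (h.iter m l θ z).trans (b2 m l θ z))
  have := Real.pow_mul_norm_iteratedFDeriv_fourier_le (K := 0) (N := ⊤) (h.sm l θ)
    (fun k m hk _ => by
      have : k = 0 := by simpa using hk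
      simpa [this] using hi m) (k := 0) (n := n) le_rfl le_top ξ
  rw [norm_iteratedFDeriv_zero, Finset.sum_product] at this
  simp only [pow_zero, Nat.cast_zero, mul_zero, zero_add, one_mul, Finset.range_one,
    Finset.sum_singleton] at this
  refine this.trans (mul_le_mul_of_nonneg_left (Finset.sum_le_sum fun m _ => ?_) (by positivity))
  exact integral_mono (hi m) (b1 m) fun z => (h.iter m l θ z).trans (b2 m l θ z)

lemma Nice.decay {F : Q → ℂ} (h : Nice F) :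
    ∃ C, 0 ≤ C ∧ ∀ l θ ξ, ‖Fh F l θ ξ‖ ≤ C * (1 + ‖ξ‖ ^ 2) ^ (-(4 : ℝ) / 2) := by
  obtain ⟨C0, h0⟩ := h.pow 0
  obtain ⟨C4, h4⟩ := h.pow 4
  refine ⟨2 * |C0| + 2 * |C4|, by positivity, fun l θ ξ => ?_⟩
  have e : (1 + ‖ξ‖ ^ 2) ^ (-(4 : ℝ) / 2) = ((1 + ‖ξ‖ ^ 2) ^ 2)⁻¹ := by
    rw [show -(4 : ℝ) / 2 = -((2 : ℕ) : ℝ) by norm_num, rpow_neg (by positivity), rpow_natCast]
  rw [e, ← div_eq_mul_inv, le_div_iff₀ (by positivity)]
  have a0 := (h0 l θ ξ).trans (le_abs_self _)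
  have a4 := (h4 l θ ξ).trans (le_abs_self _)
  have : (1 + ‖ξ‖ ^ 2) ^ 2 ≤ 2 + 2 * ‖ξ‖ ^ 4 := by nlinarith [sq_nonneg (1 - ‖ξ‖ ^ 2)]
  nlinarith [norm_nonneg (Fh F l θ ξ)]

lemma fin2 : (Module.finrank ℝ ℂ : ℝ) = 2 := by simp

lemma Nice.inv {F : Q → ℂ} (h : Nice F) (l θ : ℝ) (z : ℂ) : 𝓕⁻ (Fh F l θ) z = F (l, θ, z) := by
  obtain ⟨C, -, hC⟩ := h.decay
  refine congrFun ((h.sm l θ).continuous.fourierInv_fourier_eq (h.int l θ) ?_) z
  exact ((integrable_rpow_neg_one_add_norm_sq (r := 4) (by rw [fin2]; norm_num)).const_mul C).mono'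
    (h.cont l θ).aestronglyMeasurable (Eventually.of_forall (hC l θ))

lemma Nice.derh {F : Q → ℂ} (h : Nice F) (l θ : ℝ) (ξ : ℂ) :
    HasDerivAt (fun t => Fh F l t ξ) (Fh (dθ F) l θ ξ) θ := by
  obtain ⟨B, b1, b2⟩ := bound h.d.1.continuous h.d.2
  have hc : Continuous fun v : ℂ => (𝐞 (-⟪v, ξ⟫) : Circle) :=
    Real.continuous_fourierChar.comp (by fun_prop)
  simp only [Fh, Real.fourier_eq]
  refine (hasDerivAt_integral_of_dominated_loc_of_deriv_le (s := univ) (bound := B)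
    (F := fun t v => 𝐞 (-⟪v, ξ⟫) • F (l, t, v)) (F' := fun t v => 𝐞 (-⟪v, ξ⟫) • dθ F (l, t, v)) univ_mem
    (Eventually.of_forall fun t => (hc.smul (h.sm l t).continuous).aestronglyMeasurable) ?_
    (hc.smul (h.d.sm l θ).continuous).aestronglyMeasurable
    (Eventually.of_forall fun v t _ => ?_) b1 (Eventually.of_forall fun v t _ => ?_)).2
  · exact (h.int l θ).norm.mono' (hc.smul (h.sm l θ).continuous).aestronglyMeasurable
      (Eventually.of_forall fun v => (Circle.norm_smul _ _).le)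
  · rw [Circle.norm_smul]; exact b2 l t v
  · exact (h.der l t v).const_smul _

/-- Curves in `L²` from dominated pointwise derivatives. -/
lemma curve {G0 G1 G2 : ℝ → ℂ → ℂ} {H : ℂ → ℝ} (hH : MemLp H 2 volume)
    (c0 : ∀ t, Continuous (G0 t)) (c1 : ∀ t, Continuous (G1 t))
    (b0 : ∀ t ξ, ‖G0 t ξ‖ ≤ H ξ) (b1 : ∀ t ξ, ‖G1 t ξ‖ ≤ H ξ) (b2 : ∀ t ξ, ‖G2 t ξ‖ ≤ H ξ)
    (d0 : ∀ t ξ, HasDerivAt (fun t => G0 t ξ) (G1 t ξ) t) (d1 : ∀ t ξ, HasDerivAt (fun t => G1 t ξ) (G2 t ξ) t) :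
    ∃ g g' : ℝ → L2, (∀ t, g t =ᵐ[volume] G0 t) ∧ (∀ t, HasDerivAt g (g' t) t) ∧ Continuous g' ∧
      ∀ t, ‖g t‖ ≤ (eLpNorm H 2 volume).toReal ∧ ‖g' t‖ ≤ (eLpNorm H 2 volume).toReal := by
  have m0 : ∀ t, MemLp (G0 t) 2 volume := fun t =>
    hH.mono' (c0 t).aestronglyMeasurable (Eventually.of_forall (b0 t))
  have m1 : ∀ t, MemLp (G1 t) 2 volume := fun t =>
    hH.mono' (c1 t).aestronglyMeasurable (Eventually.of_forall (b1 t))
  have key : ∀ (f : L2) (c : ℝ), 0 ≤ c → (∀ᵐ ξ, ‖f ξ‖ ≤ c * H ξ) → ‖f‖ ≤ c * (eLpNorm H 2 volume).toReal := by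
    intro f c hc hf
    rw [← Lp.norm_toLp H hH]
    refine Lp.norm_le_mul_norm_of_ae_le_mul ?_
    filter_upwards [hf, hH.coeFn_toLp] with ξ a b
    rw [b]
    exact a.trans (mul_le_mul_of_nonneg_left (le_abs_self _) hc)
  have l1 : ∀ t u ξ, ‖G1 u ξ - G1 t ξ‖ ≤ H ξ * ‖u - t‖ := fun t u ξ =>
    convex_univ.norm_image_sub_le_of_norm_hasDerivWithin_le (f := fun t => G1 t ξ) (f' := fun t => G2 t ξ)
      (fun x _ => (d1 x ξ).hasDerivWithinAt) (fun x _ => b2 x ξ) (mem_univ t) (mem_univ u)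
  have l2 : ∀ t u ξ, ‖G0 u ξ - G0 t ξ - (u - t) • G1 t ξ‖ ≤ ‖u - t‖ ^ 2 * H ξ := fun t u ξ => by
    have := (convex_closedBall t ‖u - t‖).norm_image_sub_le_of_norm_hasDerivWithin_le
      (f := fun x => G0 x ξ - x • G1 t ξ) (f' := fun x => G1 x ξ - G1 t ξ) (C := H ξ * ‖u - t‖)
      (fun x _ => by
        have := (d0 x ξ).sub ((hasDerivAt_id x).smul_const (G1 t ξ))
        rw [one_smul] at this
        exact this.hasDerivWithinAt)
      (fun x hx => (l1 t x ξ).trans (mul_le_mul_of_nonneg_left (mem_closedBall_iff_norm.1 hx)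
        ((norm_nonneg _).trans (b0 t ξ))))
      (Metric.mem_closedBall_self (norm_nonneg _)) (mem_closedBall_iff_norm.2 le_rfl)
    calc _ = ‖G0 u ξ - u • G1 t ξ - (G0 t ξ - t • G1 t ξ)‖ := by
          congr 1; rw [sub_smul]; ring
      _ ≤ _ := this
      _ = _ := by ring
  set N := (eLpNorm H 2 volume).toReal
  refine ⟨fun t => (m0 t).toLp, fun t => (m1 t).toLp, fun t => (m0 t).coeFn_toLp, fun t => ?_, ?_,
    fun t => ⟨?_, ?_⟩⟩
  · rw [hasDerivAt_iff_isLittleO]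
    refine Asymptotics.IsBigO.trans_isLittleO (g := fun u => ‖u - t‖ ^ 2)
      (Asymptotics.IsBigO.of_bound N (Eventually.of_forall fun u => ?_))
      (Asymptotics.isLittleO_pow_sub_sub t (by norm_num))
    rw [norm_pow, norm_norm, mul_comm]
    refine key _ _ (by positivity) ?_
    filter_upwards [Lp.coeFn_sub ((m0 u).toLp - (m0 t).toLp) ((u - t) • (m1 t).toLp),
      Lp.coeFn_sub (m0 u).toLp (m0 t).toLp, Lp.coeFn_smul (u - t) (m1 t).toLp, (m0 u).coeFn_toLp,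
      (m0 t).coeFn_toLp, (m1 t).coeFn_toLp] with ξ a1 a2 a3 a4 a5 a6
    rw [a1, Pi.sub_apply, a2, a3, Pi.sub_apply, Pi.smul_apply, a4, a5, a6]
    exact l2 t u ξ
  · refine (LipschitzWith.of_dist_le_mul (K := ⟨N, ENNReal.toReal_nonneg⟩) fun u t => ?_).continuous
    rw [dist_eq_norm, dist_eq_norm, mul_comm]
    refine key _ _ (norm_nonneg _) ?_
    filter_upwards [Lp.coeFn_sub (m1 u).toLp (m1 t).toLp, (m1 u).coeFn_toLp, (m1 t).coeFn_toLp]
      with ξ a1 a2 a3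
    rw [a1, Pi.sub_apply, a2, a3, mul_comm]
    exact l1 t u ξ
  · rw [← one_mul N]
    refine key _ _ one_pos.le ?_
    filter_upwards [(m0 t).coeFn_toLp] with ξ a
    rw [a, one_mul]; exact b0 t ξ
  · rw [← one_mul N]
    refine key _ _ one_pos.le ?_
    filter_upwards [(m1 t).coeFn_toLp] with ξ a
    rw [a, one_mul]; exact b1 t ξ

/-- The dilation as a linear map. -/
def dl (l : ℝ) : ℂ →ₗ[ℝ] ℂ where
  toFun := dilC l
  map_add' x y := by apply Complex.ext <;> simp [dilC, mul_add]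
  map_smul' c x := by apply Complex.ext <;> simp [dilC] <;> ring

lemma cont_dil (l : ℝ) : Continuous (dilC l) := (dl l).continuous_of_finiteDimensional

lemma det_dl (l : ℝ) : LinearMap.det (dl l) = l ^ 4 := by
  rw [← LinearMap.det_toMatrix Complex.basisOneI, Matrix.det_fin_two]
  simp [LinearMap.toMatrix_apply, dl, dilC]
  ring

lemma map_dil {l : ℝ} (hl : 0 < l) :
    Measure.map (dilC l) (volume : Measure ℂ) = ENNReal.ofReal (l ^ 4)⁻¹ • volume := by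
  have := Measure.map_linearMap_addHaar_eq_smul_addHaar (volume : Measure ℂ) (f := dl l)
    (by rw [det_dl]; positivity)
  rwa [det_dl, abs_of_pos (by positivity)] at this

lemma inner_dil {l : ℝ} (hl : 0 < l) (v z : ℂ) : ⟪dilC l v, dilC l⁻¹ z⟫ = ⟪v, z⟫ := by
  simp only [Complex.inner, dilC, Complex.mul_re, Complex.conj_re, Complex.conj_im]
  field_simp

lemma inv_dil {l : ℝ} (hl : 0 < l) {f : ℂ → ℂ} (hf : Continuous f) (z : ℂ) :
    𝓕⁻ (fun ξ => f (dilC l ξ)) z = (l ^ 4)⁻¹ • 𝓕⁻ f (dilC l⁻¹ z) := by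
  have hc : Continuous fun v : ℂ => (𝐞 ⟪v, dilC l⁻¹ z⟫ : Circle) • f v :=
    (Real.continuous_fourierChar.comp (by fun_prop)).smul hf
  have := integral_map (μ := volume) (cont_dil l).aemeasurable hc.aestronglyMeasurable
  rw [map_dil hl, integral_smul_measure, ENNReal.toReal_ofReal (by positivity)] at this
  rw [Real.fourierInv_eq, Real.fourierInv_eq, this]
  simp only [inner_dil hl]

lemma norm_dil {l : ℝ} (hl : 0 < l) {H : ℂ → ℝ} (hH : Continuous H) :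
    eLpNorm (fun ξ => H (dilC l ξ)) 2 volume = ENNReal.ofReal (l ^ 2)⁻¹ * eLpNorm H 2 volume := by
  have := eLpNorm_map_measure (p := 2) (μ := volume) hH.aestronglyMeasurable (cont_dil l).aemeasurable
  rw [map_dil hl, eLpNorm_smul_measure_of_ne_top (by simp), smul_eq_mul,
    ENNReal.ofReal_rpow_of_pos (by positivity)] at this
  refine this.symm.trans ?_
  congr 2
  rw [show (l ^ 4)⁻¹ = (l ^ 2)⁻¹ ^ 2 by field_simp, ← rpow_natCast, ← rpow_mul (by positivity)]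
  norm_num

lemma wt_le {l : ℝ} (hl : 0 < l) (h1 : l ≤ 1) (ξ : ℂ) :
    1 + ‖ξ‖ ^ 2 ≤ l ^ (-6 : ℝ) * (1 + ‖dilC l ξ‖ ^ 2) := by
  rw [show (-6 : ℝ) = -((6 : ℕ) : ℝ) by norm_num, rpow_neg hl.le, rpow_natCast, ← div_eq_inv_mul,
    le_div_iff₀ (by positivity), Complex.sq_norm, Complex.sq_norm, Complex.normSq_apply,
    Complex.normSq_apply]
  have a : l ^ 6 ≤ 1 := pow_le_one₀ hl.le h1
  have b : l ^ 6 ≤ l ^ 2 := pow_le_pow_of_le_one hl.le h1 (by norm_num)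
  simp only [dilC]
  nlinarith [mul_le_mul_of_nonneg_right b (mul_self_nonneg ξ.re)]

lemma mem_wt {r : ℝ} (hr : r < -1 / 2) : MemLp (fun ξ : ℂ => (1 + ‖ξ‖ ^ 2) ^ r) 2 volume := by
  have hc : Continuous fun ξ : ℂ => (1 + ‖ξ‖ ^ 2) ^ r :=
    Continuous.rpow_const (by fun_prop) fun _ => Or.inl (by positivity)
  rw [memLp_two_iff_integrable_sq hc.aestronglyMeasurable]
  refine (integrable_rpow_neg_one_add_norm_sq (r := -(4 * r)) (by rw [fin2]; linarith)).congr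
    (Eventually.of_forall fun ξ => ?_)
  dsimp only
  rw [← rpow_natCast ((1 + ‖ξ‖ ^ 2) ^ r) 2, ← rpow_mul (by positivity)]
  congr 1
  push_cast
  ring

lemma exists_clm {s : ℝ} (hs : 2 < s) (z : ℂ) : ∃ L : L2 →L[ℂ] ℂ, ∀ g, L g = bessel s g z := by
  let k : ℂ → ℂ := fun ξ => ((1 + ‖ξ‖ ^ 2) ^ (-s / 2) : ℝ) • starRingEnd ℂ (𝐞 ⟪ξ, z⟫ : Circle)
  have hc : Continuous k :=
    (Continuous.rpow_const (by fun_prop) fun _ => Or.inl (by positivity)).smul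
      (Complex.continuous_conj.comp (continuous_subtype_val.comp
        (Real.continuous_fourierChar.comp (by fun_prop))))
  have hk : MemLp k 2 volume := (mem_wt (r := -s / 2) (by linarith)).mono' hc.aestronglyMeasurable
    (Eventually.of_forall fun ξ => by
      simp only [k, norm_smul, Complex.norm_conj, Circle.norm_coe, mul_one]
      exact (abs_of_nonneg (by positivity)).le)
  refine ⟨innerSL ℂ hk.toLp, fun g => ?_⟩
  rw [innerSL_apply_apply, L2.inner_def, bessel, Real.fourierInv_eq]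
  refine integral_congr_ae ?_
  filter_upwards [hk.coeFn_toLp] with ξ a
  rw [a]
  simp [k, Circle.smul_def]
  ring

noncomputable def GG (s : ℝ) (F : Q → ℂ) (l θ : ℝ) (ξ : ℂ) : ℂ :=
  (l ^ 9 * (1 + ‖ξ‖ ^ 2) ^ (s / 2) : ℝ) • Fh F l θ (dilC l ξ)

lemma Nice.GGc {F : Q → ℂ} (h : Nice F) (s l θ : ℝ) : Continuous (GG s F l θ) :=
  (continuous_const.mul (Continuous.rpow_const (by fun_prop) fun _ => Or.inl (by positivity))).smul
    ((h.cont l θ).comp (cont_dil l))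

lemma Nice.GGd {F : Q → ℂ} (h : Nice F) (s l θ : ℝ) (ξ : ℂ) :
    HasDerivAt (fun t => GG s F l t ξ) (GG s (dθ F) l θ ξ) θ :=
  (h.derh l θ (dilC l ξ)).const_smul (l ^ 9 * (1 + ‖ξ‖ ^ 2) ^ (s / 2) : ℝ)

lemma GGb {F : Q → ℂ} {C s l : ℝ} (hs : 0 ≤ s) (hl : 0 < l) (h1 : l ≤ 1)
    (h : ∀ l θ ξ, ‖Fh F l θ ξ‖ ≤ C * (1 + ‖ξ‖ ^ 2) ^ (-(4 : ℝ) / 2)) (θ : ℝ) (ξ : ℂ) :
    ‖GG s F l θ ξ‖ ≤ C * l ^ (9 - 3 * s) * (1 + ‖dilC l ξ‖ ^ 2) ^ (s / 2 - 2) := by
  have a : (1 + ‖ξ‖ ^ 2) ^ (s / 2) ≤ l ^ (-(3 * s)) * (1 + ‖dilC l ξ‖ ^ 2) ^ (s / 2) := by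
    refine (rpow_le_rpow (by positivity) (wt_le hl h1 ξ) (by positivity)).trans_eq ?_
    rw [mul_rpow (by positivity) (by positivity), ← rpow_mul hl.le]
    congr 2
    ring
  rw [GG, norm_smul, Real.norm_of_nonneg (by positivity)]
  calc _ ≤ l ^ 9 * (l ^ (-(3 * s)) * (1 + ‖dilC l ξ‖ ^ 2) ^ (s / 2)) *
        (C * (1 + ‖dilC l ξ‖ ^ 2) ^ (-(4 : ℝ) / 2)) := by gcongr; exact h _ _ _
    _ = _ := by
      rw [sub_eq_add_neg 9, rpow_add hl, show s / 2 - 2 = s / 2 + -(4 : ℝ) / 2 by ring,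
        rpow_add (by positivity), show (9 : ℝ) = ((9 : ℕ) : ℝ) by norm_num, rpow_natCast]
      ring

lemma Nice.bes {F : Q → ℂ} (h : Nice F) {s l θ : ℝ} (hl : 0 < l) {g : L2} (hg : g =ᵐ[volume] GG s F l θ)
    (z : ℂ) : bessel s g z = l ^ 5 • F (l, θ, dilC l⁻¹ z) := by
  have e : bessel s g z = l ^ 9 • 𝓕⁻ (fun ξ => Fh F l θ (dilC l ξ)) z := by
    rw [bessel, Real.fourierInv_eq, Real.fourierInv_eq, ← integral_smul]
    refine integral_congr_ae ?_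
    filter_upwards [hg] with ξ a
    rw [a, GG, smul_smul, smul_comm (l ^ 9)]
    congr 2
    rw [mul_left_comm, ← rpow_add (by positivity), show -s / 2 + s / 2 = 0 by ring, rpow_zero, mul_one]
  rw [e, inv_dil hl (h.cont l θ), h.inv, smul_smul]
  congr 1
  field_simp

lemma piece {F : Q → ℂ} (h : Nice F) {s : ℝ} (h0 : 2 < s) (h3 : s < 7 / 3) :
    ∃ C : ℝ, ∀ l : ℝ, 0 < l → l ≤ 1 → ∃ g g' : ℝ → L2,
      (∀ t z, bessel s (g t) z = l ^ 5 • F (l, t, dilC l⁻¹ z)) ∧ (∀ t, HasDerivAt g (g' t) t) ∧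
      Continuous g' ∧ ∀ t, ‖g t‖ ≤ C * l ^ (7 - 3 * s) ∧ ‖g' t‖ ≤ C * l ^ (7 - 3 * s) := by
  obtain ⟨C0, p0, q0⟩ := h.decay
  obtain ⟨C1, p1, q1⟩ := h.d.decay
  obtain ⟨C2, p2, q2⟩ := h.d.d.decay
  set C := C0 + C1 + C2 with hC
  have up : ∀ {G : Q → ℂ} {c : ℝ}, c ≤ C → (∀ l θ ξ, ‖Fh G l θ ξ‖ ≤ c * (1 + ‖ξ‖ ^ 2) ^ (-(4 : ℝ) / 2)) →
      ∀ l θ ξ, ‖Fh G l θ ξ‖ ≤ C * (1 + ‖ξ‖ ^ 2) ^ (-(4 : ℝ) / 2) := fun hc q l θ ξ =>
    (q l θ ξ).trans (mul_le_mul_of_nonneg_right hc (by positivity))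
  let H : ℂ → ℝ := fun ξ => (1 + ‖ξ‖ ^ 2) ^ (s / 2 - 2)
  have hc : Continuous H := Continuous.rpow_const (by fun_prop) fun _ => Or.inl (by positivity)
  have hH : MemLp H 2 volume := mem_wt (by linarith)
  refine ⟨C * (eLpNorm H 2 volume).toReal, fun l hl h1 => ?_⟩
  have n1 := norm_dil hl hc
  have m1 : MemLp (fun ξ => H (dilC l ξ)) 2 volume :=
    ⟨(hc.comp (cont_dil l)).aestronglyMeasurable, by
      rw [n1]; exact ENNReal.mul_lt_top ENNReal.ofReal_lt_top hH.2⟩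
  have C0' : 0 ≤ C := by positivity
  obtain ⟨g, g', a1, a2, a3, a4⟩ := curve (m1.const_mul (C * l ^ (9 - 3 * s))) (h.GGc s l) (h.d.GGc s l)
    (GGb (by linarith) hl h1 (up (by linarith) q0)) (GGb (by linarith) hl h1 (up (by linarith) q1))
    (GGb (by linarith) hl h1 (up (by linarith) q2)) (h.GGd s l) (h.d.GGd s l)
  refine ⟨g, g', fun t z => h.bes hl (a1 t) z, a2, a3, fun t => ?_⟩
  have e : (eLpNorm (fun ξ => C * l ^ (9 - 3 * s) * H (dilC l ξ)) 2 volume).toReal =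
      C * (eLpNorm H 2 volume).toReal * l ^ (7 - 3 * s) := by
    have := eLpNorm_const_smul (C * l ^ (9 - 3 * s)) (fun ξ => H (dilC l ξ)) 2 volume
    refine (congrArg ENNReal.toReal this).trans ?_
    rw [n1, ENNReal.toReal_mul, ENNReal.toReal_mul, ENNReal.toReal_ofReal (by positivity), toReal_enorm,
      Real.norm_of_nonneg (by positivity), show 9 - 3 * s = (7 - 3 * s) + ((2 : ℕ) : ℝ) by push_cast; ring,
      rpow_add hl, rpow_natCast]
    field_simp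
  exact e ▸ a4 t

end HS

open HS in
theorem blk_HS : St_HS := by
  intro s h0 h3 F R hF hR
  obtain ⟨χ, x1, x2, -, x4, -⟩ := exists_cutoff (K := Icc (0 : ℝ) 1 ×ˢ Icc (-1 : ℝ) 1) (O := univ)
    (isCompact_Icc.prod isCompact_Icc) isOpen_univ (subset_univ _)
  obtain ⟨R1, -, hR1⟩ := x2.exists_pos_le_norm
  have h : Nice fun q : Q => χ (q.1, q.2.1) • F q := by
    refine ⟨(x1.comp (by fun_prop)).smul hF,
      HasCompactSupport.intro (isCompact_closedBall 0 (max R R1)) fun q hq => ?_⟩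
    rw [mem_closedBall_zero_iff, not_le, max_lt_iff] at hq
    by_cases a : R ≤ ‖q.2.2‖
    · rw [show F q = 0 from hR q.1 q.2.1 q.2.2 a, smul_zero]
    · rw [hR1, zero_smul]
      have e : ‖q‖ = max ‖(q.1, q.2.1)‖ ‖q.2.2‖ := by simp only [Prod.norm_def, max_assoc]
      rcases le_total ‖(q.1, q.2.1)‖ ‖q.2.2‖ with b | b
      · rw [e, max_eq_right b] at hq; exact absurd hq.1.le a
      · rw [e, max_eq_left b] at hq; exact hq.2.le
  obtain ⟨C, hC⟩ := piece h h0 h3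
  have l0 : ∀ j : ℕ, (0 : ℝ) < (2 ^ j)⁻¹ := fun j => by positivity
  have l1 : ∀ j : ℕ, ((2 : ℝ) ^ j)⁻¹ ≤ 1 := fun j => inv_le_one_of_one_le₀ (one_le_pow₀ one_le_two)
  choose g g' a1 a2 a3 a4 using fun j : ℕ => hC (2 ^ j)⁻¹ (l0 j) (l1 j)
  have hu : Summable fun j : ℕ => C * ((2 : ℝ) ^ j)⁻¹ ^ (7 - 3 * s) := by
    refine ((summable_geometric_of_lt_one (r := (2 : ℝ)⁻¹ ^ (7 - 3 * s)) (by positivity)
      (rpow_lt_one (by norm_num) (by norm_num) (by linarith))).mul_left C).congr fun j => ?_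
    rw [← inv_pow, ← rpow_natCast, ← rpow_natCast, ← rpow_mul (by norm_num), ← rpow_mul (by norm_num), mul_comm (j : ℝ)]
  have s0 : ∀ t, Summable fun j => g j t := fun t => hu.of_norm_bounded fun j => (a4 j t).1
  have d := hasDerivAt_tsum hu a2 (fun j t => (a4 j t).2) (s0 0)
  refine ⟨fun t => ∑' j, g j t, contDiff_one_iff_deriv.2 ⟨fun t => (d t).differentiableAt, ?_⟩,
    fun θ hθ z => ?_⟩
  · rw [funext fun t => (d t).deriv]
    exact continuous_tsum a3 hu fun j t => (a4 j t).2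
  · obtain ⟨L, hL⟩ := exists_clm h0 z
    rw [← hL, L.map_tsum (s0 θ)]
    refine tsum_congr fun j => ?_
    rw [hL, a1, inv_inv]
    dsimp only
    rw [x4 _ ⟨⟨(l0 j).le, l1 j⟩, hθ⟩, one_smul]

end Pool.Agent.Lib.MP_f62ea7_gt
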