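import Pool.Agent.Lib.MP_f62ea7_gt.Basic

set_option autoImplicit false

open MeasureTheory Set Filter Topology Real
open scoped ContDiff ENNReal

namespace Pool.Agent.Lib.MP_f62ea7_gt

namespace LIFT

/-- `ι κ` as a linear equivalence. -/
noncomputable def ιE (κ : ℝ) (hκ : 0 < κ) : P ≃ₗ[ℝ] ℂ where
  toFun := ι κ
  invFun := ιi κ
  map_add' p q := by
    apply Complex.ext
    · simp [ι]
    · simp [ι, mul_add]
  map_smul' c p := by
    apply Complex.ext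
    · simp [ι]
    · simp [ι, mul_left_comm]
  left_inv p := by
    ext
    · simp [ι, ιi]
    · simp [ι, ιi, hκ.ne']
  right_inv z := by
    apply Complex.ext
    · simp [ι, ιi]
    · simp only [ι, ιi]
      field_simp

/-- `ι κ` as a continuous linear equivalence. -/
noncomputable def ιL (κ : ℝ) (hκ : 0 < κ) : P ≃L[ℝ] ℂ := (ιE κ hκ).toContinuousLinearEquiv

lemma ιL_apply (κ : ℝ) (hκ : 0 < κ) (p : P) : ιL κ hκ p = ι κ p := rfl

lemma ι_dil (κ l : ℝ) (p : P) : ι κ (dil l p) = dilC l (ι κ p) := by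
  apply Complex.ext
  · simp [ι, dil, dilC]
  · simp [ι, dil, dilC, mul_left_comm]

lemma ι_sub (κ : ℝ) (p q : P) : ι κ (p - q) = ι κ p - ι κ q := by
  apply Complex.ext
  · simp [ι]
  · simp [ι, mul_sub]

lemma lift_ser (hS : St_HS) {s κ : ℝ} (hs : 2 < s) (hs' : s < 7 / 3) (hκ : 0 < κ) (M : Set P)
    (F : ℝ × ℝ × P → P) (R : ℝ) (hF : ContDiff ℝ ∞ F)
    (hR : ∀ l θ p, R ≤ ‖p‖ → F (l, θ, p) = 0) : Lift s κ M (ser F) := by
  set e := ιL κ hκ with he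
  have hsm : ContDiff ℝ ∞ fun q : ℝ × ℝ × ℂ => e (F (q.1, q.2.1, e.symm q.2.2)) :=
    e.contDiff.comp (hF.comp (contDiff_fst.prodMk (contDiff_snd.fst.prodMk
      (e.symm.contDiff.comp contDiff_snd.snd))))
  obtain ⟨g, hg, hb⟩ := hS s hs hs' _ (‖(e : P →L[ℝ] ℂ)‖ * R + 1) hsm (fun l θ z hz => by
    have h1 : R ≤ ‖e.symm z‖ := by
      by_contra hc
      have h2 := (e : P →L[ℝ] ℂ).le_opNorm (e.symm z)
      have h3 : (e : P →L[ℝ] ℂ) (e.symm z) = z := e.apply_symm_apply z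
      rw [h3] at h2
      have h4 := mul_le_mul_of_nonneg_left (not_le.1 hc).le (norm_nonneg (e : P →L[ℝ] ℂ))
      linarith
    simp only [hR l θ _ h1, map_zero])
  refine ⟨g, hg, fun θ hθ p _ => ?_⟩
  rw [hb θ hθ, ← ιL_apply κ hκ, ser, ContinuousLinearEquiv.map_tsum]
  refine tsum_congr fun j => ?_
  rw [map_smul, ← ι_dil, ← ιL_apply κ hκ, ← he, e.symm_apply_apply]

lemma lift_smooth (hS : St_HS) {s κ : ℝ} (hs : 2 < s) (hs' : s < 7 / 3) (hκ : 0 < κ) {M : Set P}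
    (hM : IsCompact M) (O : Set P) (f : ℝ → P → P) (hO : IsOpen O) (hMO : M ⊆ O)
    (hf : ContDiffOn ℝ ∞ (fun q : ℝ × P => f q.1 q.2) (univ ×ˢ O)) : Lift s κ M f := by
  obtain ⟨χ, hχ, hc, hsup, h1, -⟩ := exists_cutoff hM hO hMO
  obtain ⟨R, hR⟩ := hc.isCompact.isBounded.subset_ball_lt 0 (0 : P)
  have hs1 : tsupport (fun q : ℝ × P => χ q.2) ⊆ univ ×ˢ O := by
    refine (closure_minimal (t := univ ×ˢ tsupport χ) (fun q hq => ⟨trivial, subset_closure hq⟩)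
      (isClosed_univ.prod (isClosed_tsupport _))).trans fun q hq => ⟨trivial, hsup hq.2⟩
  have hsm : ContDiff ℝ ∞ fun q : ℝ × P => χ q.2 • f q.1 q.2 :=
    contDiff_cutoff_smul (isOpen_univ.prod hO) (hχ.comp contDiff_snd) hs1 hf
  have hF : ContDiff ℝ ∞ fun q : ℝ × ℝ × P =>
      smoothTransition (2 * q.1 - 1) • χ q.2.2 • f q.2.1 q.2.2 :=
    (smoothTransition.contDiff.comp ((contDiff_const.mul contDiff_fst).sub contDiff_const)).smul
      (hsm.comp contDiff_snd)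
  obtain ⟨g, hg, hb⟩ := lift_ser hS hs hs' hκ M _ R hF (fun l θ p hp => by
    have : χ p = 0 := by
      by_contra hc
      have := hR.2 (subset_closure hc)
      rw [mem_ball_zero_iff] at this
      linarith
    simp [this])
  refine ⟨g, hg, fun θ hθ p hp => ?_⟩
  rw [← hb θ hθ p hp, ser, tsum_eq_single 0]
  · have e : dil 1 p = p := by simp [dil]
    have e2 : smoothTransition (2 - 1) = 1 := smoothTransition.one_of_one_le (by norm_num)
    simp [e, e2, h1 p hp]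
  · intro j hj
    have h2 : (2 : ℝ) ^ 1 ≤ 2 ^ j := pow_le_pow_right₀ one_le_two (Nat.one_le_iff_ne_zero.2 hj)
    have h3 : ((2 : ℝ) ^ j)⁻¹ ≤ (2 ^ 1)⁻¹ := inv_anti₀ (by norm_num) h2
    have e2 : smoothTransition (2 * ((2 : ℝ) ^ j)⁻¹ - 1) = 0 :=
      smoothTransition.zero_of_nonpos (by norm_num at h3 ⊢; linarith)
    simp only [e2, zero_smul, smul_zero]

end LIFT

theorem blk_LIFT (hE : St_EMB) (hS : St_HS) : St_LIFT := by
  intro s κ hs hs' hκ M hM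
  obtain ⟨Bs, hB, -⟩ := hE s hs
  have hsub : ∀ g g' : L2, ∀ z, bessel s (g - g') z = bessel s g z - bessel s g' z := by
    intro g g' z
    rw [← hB, ← hB, ← hB, map_sub]
    rfl
  refine ⟨LIFT.lift_smooth hS hs hs' hκ hM, LIFT.lift_ser hS hs hs' hκ M, ?_, ?_⟩
  · rintro f f' ⟨g, hg, h⟩ ⟨g', hg', h'⟩
    refine ⟨fun θ => g θ - g' θ, hg.sub hg', fun θ hθ p hp => ?_⟩
    rw [hsub, LIFT.ι_sub, h θ hθ p hp, h' θ hθ p hp]
  · rintro f f' ⟨g, h⟩ ⟨g', h'⟩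
    refine ⟨g - g', fun p hp => ?_⟩
    rw [hsub, LIFT.ι_sub, h p hp, h' p hp]

end Pool.Agent.Lib.MP_f62ea7_gt
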