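import Pool.Agent.Lib.MP_f62ea7_gt.Basic

set_option autoImplicit false

open MeasureTheory Set
open scoped FourierTransform BoundedContinuousFunction

namespace Pool.Agent.Lib.MP_f62ea7_gt

namespace EMB

lemma memLp_w {s : ℝ} (hs : 2 < s) :
    MemLp (fun ξ : ℂ => ((1 + ‖ξ‖ ^ 2) ^ ((1 - s) / 2) : ℝ)) 2 volume := by
  have hc : Continuous fun ξ : ℂ => ((1 + ‖ξ‖ ^ 2) ^ ((1 - s) / 2) : ℝ) :=
    Continuous.rpow_const (by fun_prop) fun ξ => Or.inl (by positivity)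
  rw [memLp_two_iff_integrable_sq hc.aestronglyMeasurable]
  have h := integrable_rpow_neg_one_add_norm_sq (E := ℂ) (μ := volume) (r := 2 * s - 2)
    (by rw [Complex.finrank_real_complex]; push_cast; linarith)
  refine h.congr (Filter.Eventually.of_forall fun ξ => ?_)
  beta_reduce
  rw [← Real.rpow_natCast, ← Real.rpow_natCast, ← Real.rpow_mul (by positivity)]
  congr 1
  push_cast
  ring

lemma cont_m (s : ℝ) : Continuous fun ξ : ℂ => ((1 + ‖ξ‖ ^ 2) ^ (-s / 2) : ℝ) :=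
  Continuous.rpow_const (by fun_prop) fun ξ => Or.inl (by positivity)

lemma le_w (s : ℝ) (ξ : ℂ) {a : ℝ} (ha : a ^ 2 ≤ 1 + ‖ξ‖ ^ 2) :
    a * (1 + ‖ξ‖ ^ 2) ^ (-s / 2) ≤ ((1 + ‖ξ‖ ^ 2) ^ ((1 - s) / 2) : ℝ) := by
  have h0 : 0 < 1 + ‖ξ‖ ^ 2 := by positivity
  rw [show (1 - s) / 2 = 1 / 2 + -s / 2 by ring, Real.rpow_add h0, ← Real.sqrt_eq_rpow]
  exact mul_le_mul_of_nonneg_right (Real.le_sqrt_of_sq_le ha) (by positivity)

lemma memLp_m {s : ℝ} (hs : 2 < s) :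
    MemLp (fun ξ : ℂ => ((1 + ‖ξ‖ ^ 2) ^ (-s / 2) : ℝ)) 2 volume :=
  (memLp_w hs).mono' (cont_m s).aestronglyMeasurable (Filter.Eventually.of_forall fun ξ => by
    rw [Real.norm_of_nonneg (by positivity)]
    simpa using le_w s ξ (a := 1) (by nlinarith [sq_nonneg ‖ξ‖]))

lemma memLp_m' {s : ℝ} (hs : 2 < s) :
    MemLp (fun ξ : ℂ => ‖ξ‖ * ((1 + ‖ξ‖ ^ 2) ^ (-s / 2) : ℝ)) 2 volume :=
  (memLp_w hs).mono' (continuous_norm.mul (cont_m s)).aestronglyMeasurable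
    (Filter.Eventually.of_forall fun ξ => by
      rw [Real.norm_of_nonneg (by positivity)]
      exact le_w s ξ (by linarith))

lemma lip_fourier {f : ℂ → ℂ} (hf : Integrable f) (hf' : Integrable fun v => ‖v‖ * ‖f v‖) :
    ∃ L, LipschitzWith L (𝓕⁻ f) := by
  have h1 := Real.hasFDerivAt_fourier hf hf'
  have h2 : LipschitzWith
      (∫ v, ‖VectorFourier.fourierSMulRight (innerSL ℝ) f v‖).toNNReal (𝓕 f) :=
    lipschitzWith_of_nnnorm_fderiv_le (𝕜 := ℝ) (fun x => (h1 x).differentiableAt) fun x => by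
      rw [(h1 x).fderiv, ← NNReal.coe_le_coe, coe_nnnorm]
      exact (VectorFourier.norm_fourierIntegral_le_integral_norm _ _ _ _ _).trans
        (Real.le_coe_toNNReal _)
  rw [show 𝓕⁻ f = 𝓕 f ∘ (-id) from funext fun x => Real.fourierInv_eq_fourier_neg f x]
  exact ⟨_, h2.comp LipschitzWith.id.neg⟩

end EMB

theorem blk_EMB : St_EMB := by
  intro s hs
  let W : Lp ℝ 2 (volume : Measure ℂ) := (EMB.memLp_m hs).toLp _
  let B : ℝ →L[ℝ] ℂ →L[ℝ] ℂ := ContinuousLinearMap.lsmul ℝ ℝ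
  let T : L2 →L[ℝ] Lp ℂ 1 (volume : Measure ℂ) := B.holderL volume 2 2 1 W
  have hT : ∀ g : L2, (T g : ℂ → ℂ) =ᵐ[volume]
      fun ξ : ℂ => ((1 + ‖ξ‖ ^ 2) ^ (-s / 2) : ℝ) • g ξ := fun g => by
    filter_upwards [B.coeFn_holder (r := 1) W g, (EMB.memLp_m hs).coeFn_toLp] with ξ h1 h2
    exact h1.trans (by rw [show W ξ = _ from h2]; rfl)
  refine ⟨((Real.Lp.fourierTransformInvCLM ℂ ℂ).restrictScalars ℝ).comp T, fun g z => ?_,
    fun g => EMB.lip_fourier ((L1.integrable_coeFn (T g)).congr (hT g)) ?_⟩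
  · simp only [ContinuousLinearMap.comp_apply, ContinuousLinearMap.coe_restrictScalars',
      Real.Lp.fourierTransformInvCLM_apply, Real.Lp.fourierTransformInv_apply]
    exact Real.fourierInv_congr_ae (hT g) z
  · refine ((EMB.memLp_m' hs).integrable_mul (Lp.memLp g).norm).congr
      (Filter.Eventually.of_forall fun ξ => ?_)
    simp only [Pi.mul_apply, norm_smul]
    rw [Real.norm_of_nonneg (by positivity), mul_assoc]

end Pool.Agent.Lib.MP_f62ea7_gt
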