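import Pool.Agent.Lib.MP_f62ea7_gt.TR1

set_option autoImplicit false

open MeasureTheory Set Filter Topology Real
open scoped ContDiff ENNReal NNReal BoundedContinuousFunction

namespace Pool.Agent.Lib.MP_f62ea7_gt

namespace TR2

open TR1

lemma cj_ι {κ : ℝ} (hκ : κ ≠ 0) (f : P → P) (p : P) : cj κ f (ι κ p) = ι κ (f p) := by
  rw [cj, ιi_ι hκ]

lemma isH_cj {s κ : ℝ} (hκ : κ ≠ 0) {M : Set P} {f : P → P} (h : HsP s κ M f) :
    IsH s (ι κ '' M) (cj κ f) := by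
  obtain ⟨g, hg⟩ := h
  refine ⟨g, ?_⟩
  rintro _ ⟨p, hp, rfl⟩
  rw [cj_ι hκ, hg p hp]

lemma maps_cj {κ : ℝ} (hκ : κ ≠ 0) {M : Set P} {f : P → P} (h : MapsTo f M M) :
    MapsTo (cj κ f) (ι κ '' M) (ι κ '' M) := by
  rintro _ ⟨p, hp, rfl⟩
  rw [cj_ι hκ]
  exact mem_image_of_mem _ (h hp)

lemma diff_cj {s κ : ℝ} (hκ : 0 < κ) {M : Set P} {f : P → P} (h : PDiff s κ M f) :
    IsDiff s (ι κ '' M) (cj κ f) := by
  obtain ⟨h1, h2, ⟨f', h3, h4, h5⟩, h6⟩ := h
  have hκ' := hκ.ne'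
  refine ⟨isH_cj hκ' h1, maps_cj hκ' h2, ⟨cj κ f', isH_cj hκ' h3, maps_cj hκ' h4, ?_, ?_⟩, ?_⟩
  · rintro _ ⟨p, hp, rfl⟩
    rw [cj_ι hκ', cj_ι hκ', h5.1 hp]
  · rintro _ ⟨p, hp, rfl⟩
    rw [cj_ι hκ', cj_ι hκ', h5.2 hp]
  · intro A hA hAm
    have e1 : A = ι κ '' (ι κ ⁻¹' A) :=
      (image_preimage_eq_of_subset (hA.trans (image_subset_range _ _))).symm
    have e2 : ι κ ⁻¹' A ⊆ M := fun p hp => by
      obtain ⟨q, hq, e⟩ := hA hp
      rwa [← (emb hκ').injective e]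
    have e3 : cj κ f '' (ι κ '' (ι κ ⁻¹' A)) = ι κ '' (f '' (ι κ ⁻¹' A)) := by
      rw [image_image, image_image]
      exact image_congr fun p _ => cj_ι hκ' f p
    rw [e1, e3, vol_image hκ, vol_image hκ, h6 _ e2 ((emb hκ').measurable hAm)]

/-- Affine change of variables for lower integrals on an interval. -/
lemma lint_aff {b c : ℝ} (hc : 0 < c) (F : ℝ → ℝ≥0∞) :
    ∫⁻ t in Ioo b (b + c), F t = ENNReal.ofReal c * ∫⁻ u in Ioo (0 : ℝ) 1, F (b + c * u) := by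
  have he : MeasurableEmbedding (fun u : ℝ => b + c * u) :=
    ((Homeomorph.mulLeft₀ c hc.ne').trans (Homeomorph.addLeft b)).measurableEmbedding
  have hm : Measure.map (fun u : ℝ => b + c * u) volume = ENNReal.ofReal c⁻¹ • volume := by
    have : (fun u : ℝ => b + c * u) = (fun x => b + x) ∘ fun u => c * u := rfl
    rw [this, ← Measure.map_map (measurable_const_add b) (measurable_const_mul c),
      Real.map_volume_mul_left hc.ne', Measure.map_smul, map_add_left_eq_self,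
      abs_of_pos (inv_pos.2 hc)]
  have hv : (volume : Measure ℝ) =
      ENNReal.ofReal c • Measure.map (fun u : ℝ => b + c * u) volume := by
    rw [hm, smul_smul, ← ENNReal.ofReal_mul hc.le, mul_inv_cancel₀ hc.ne', ENNReal.ofReal_one,
      one_smul]
  have hp : (fun u : ℝ => b + c * u) ⁻¹' Ioo b (b + c) = Ioo 0 1 := by
    ext u
    simp only [mem_preimage, mem_Ioo]
    constructor
    · rintro ⟨h1, h2⟩
      constructor <;> nlinarith
    · rintro ⟨h1, h2⟩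
      constructor <;> nlinarith
  conv_lhs => rw [hv]
  rw [Measure.restrict_smul, lintegral_smul_measure, he.restrict_map, he.lintegral_map, hp,
    smul_eq_mul]

/-- The energy of one reparametrised piece. -/
lemma piece {κ : ℝ} (hκ : 0 < κ) {M : Set P} (hM : MeasurableSet M) {Γ : ℝ → ℂ → ℂ}
    {α a : ℝ → P → P} {b c : ℝ} (hc : 0 < c)
    (hΓ : ∀ t ∈ Ioo b (b + c), ∀ p ∈ M, Γ t (ι κ p) = ι κ (α ((t - b) / c) p))
    (hd : ∀ t ∈ Ioo (0 : ℝ) 1, ∀ p ∈ M, HasDerivAt (fun τ => α τ p) (a t p) t) :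
    ∫⁻ t in Ioo b (b + c), ∫⁻ z in ι κ '' M, ‖deriv (fun τ => Γ τ z) t‖ₑ ^ 2 =
      2 * (ENNReal.ofReal κ * (ENNReal.ofReal (1 / c) * En κ M a)) := by
  have hκ' := hκ.ne'
  have inner : ∀ u ∈ Ioo (0 : ℝ) 1,
      ∫⁻ z in ι κ '' M, ‖deriv (fun τ => Γ τ z) (b + c * u)‖ₑ ^ 2 =
        ENNReal.ofReal κ * ENNReal.ofReal (2 / c ^ 2) *
          ∫⁻ p in M, ENNReal.ofReal (((a u p).1 ^ 2 + κ ^ 2 * (a u p).2 ^ 2) / 2) := by
    intro u hu
    rw [lint_image hκ, mul_assoc,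
      ← lintegral_const_mul' (ENNReal.ofReal (2 / c ^ 2)) _ ENNReal.ofReal_ne_top]
    congr 1
    refine setLIntegral_congr_fun hM fun p hp => ?_
    have hu' : (b + c * u - b) / c = u := by field_simp; ring
    have d0 : HasDerivAt (fun τ : ℝ => (τ - b) / c) (1 / c) (b + c * u) :=
      ((hasDerivAt_id _).sub_const b).div_const c
    have d1 : HasDerivAt (fun τ => α ((τ - b) / c) p) ((1 / c) • a u p) (b + c * u) := by
      have := hd u hu p hp
      rw [← hu'] at this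
      have h2 := this.scomp (b + c * u) d0
      rw [hu'] at h2
      exact h2
    have d2 : HasDerivAt (fun τ => ιE κ hκ' (α ((τ - b) / c) p)) (ιE κ hκ' ((1 / c) • a u p))
        (b + c * u) :=
      (ιE κ hκ' : P →L[ℝ] ℂ).hasFDerivAt.comp_hasDerivAt _ d1
    have d3 : HasDerivAt (fun τ => Γ τ (ι κ p)) (ι κ ((1 / c) • a u p)) (b + c * u) := by
      refine d2.congr_of_eventuallyEq ?_
      have : b + c * u ∈ Ioo b (b + c) := ⟨by nlinarith [hu.1], by nlinarith [hu.2]⟩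
      filter_upwards [Ioo_mem_nhds this.1 this.2] with τ hτ using hΓ τ hτ p hp
    rw [d3.deriv, ← ofReal_norm, ← ENNReal.ofReal_pow (norm_nonneg _), norm_ι_sq,
      ← ENNReal.ofReal_mul (by positivity)]
    congr 1
    simp only [Prod.smul_fst, Prod.smul_snd, smul_eq_mul]
    field_simp
  rw [lint_aff hc, setLIntegral_congr_fun measurableSet_Ioo inner,
    lintegral_const_mul' _ _ (ENNReal.mul_ne_top ENNReal.ofReal_ne_top ENNReal.ofReal_ne_top)]
  have e : ENNReal.ofReal c * ENNReal.ofReal (2 / c ^ 2) = 2 * ENNReal.ofReal (1 / c) := by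
    rw [← ENNReal.ofReal_mul hc.le, ← ENNReal.ofReal_ofNat 2, ← ENNReal.ofReal_mul two_pos.le]
    congr 1
    field_simp
  unfold En
  calc _ = (ENNReal.ofReal c * ENNReal.ofReal (2 / c ^ 2)) * (ENNReal.ofReal κ *
        ∫⁻ u in Ioo (0 : ℝ) 1, ∫⁻ p in M,
          ENNReal.ofReal (((a u p).1 ^ 2 + κ ^ 2 * (a u p).2 ^ 2) / 2)) := by ring
    _ = _ := by rw [e]; ring

end TR2

open TR1 TR2 in
theorem blk_TR2 (hE : St_EMB) : St_TR2 := by
  intro s κ M hs hκ hM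
  refine ⟨fun f hf => diff_cj hκ hf, ?_⟩
  rintro φ α γ a c r hr0 hr1 ⟨gα, hgα, hα⟩ ⟨gγ, hgγ, hγ⟩ hD hend hd
  obtain ⟨Bs, hBs, -⟩ := hE s hs
  have hκ' := hκ.ne'
  have hm : 0 < 1 - r := by linarith
  classical
  set Γ : ℝ → ℂ → ℂ := fun t =>
    if t ≤ 1 - r then cj κ (α (t / (1 - r))) else cj κ (γ ((t - (1 - r)) / r)) with hΓ
  have in1 : ∀ t, 0 ≤ t → t ≤ 1 - r → t / (1 - r) ∈ Icc (0 : ℝ) 1 := fun t h0 h1 =>
    ⟨div_nonneg h0 hm.le, (div_le_one hm).2 h1⟩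
  have in2 : ∀ t, 1 - r ≤ t → t ≤ 1 → (t - (1 - r)) / r ∈ Icc (0 : ℝ) 1 := fun t h0 h1 =>
    ⟨div_nonneg (by linarith) hr0.le, (div_le_one hr0).2 (by linarith)⟩
  have wid : ∀ t ∈ Icc (0 : ℝ) 1, t ∈ Icc (-1 : ℝ) 1 := fun t ht => ⟨by linarith [ht.1], ht.2⟩
  refine ⟨Γ, ⟨⟨fun t => gα (min (t / (1 - r)) 1) + gγ (max ((t - (1 - r)) / r) 0) - gγ 0,
    {1 - r}, ?_, ?_⟩, ?_, ?_, ?_⟩, ?_⟩
  · intro x y _ _ hS
    have hS' := hS (1 - r) (Finset.mem_singleton_self _)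
    rw [mem_Ioo, not_and_or, not_lt, not_lt] at hS'
    rcases hS' with h | h
    · have : ContDiff ℝ 1 fun t : ℝ => gα 1 + gγ ((t - (1 - r)) / r) - gγ 0 :=
        (contDiff_const.add (hgγ.comp ((contDiff_id.sub contDiff_const).div_const r))).sub
          contDiff_const
      refine this.contDiffOn.congr fun t ht => ?_
      rw [min_eq_right ((one_le_div hm).2 (h.trans ht.1)),
        max_eq_left (div_nonneg (by linarith [ht.1]) hr0.le)]
    · have : ContDiff ℝ 1 fun t : ℝ => gα (t / (1 - r)) + gγ 0 - gγ 0 :=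
        ((hgα.comp (contDiff_id.div_const (1 - r))).add contDiff_const).sub contDiff_const
      refine this.contDiffOn.congr fun t ht => ?_
      rw [min_eq_left ((div_le_one hm).2 (ht.2.trans h)),
        max_eq_right (div_nonpos_of_nonpos_of_nonneg (by linarith [ht.2]) hr0.le)]
  · rintro t ht _ ⟨p, hp, rfl⟩
    by_cases h : t ≤ 1 - r
    · simp only [hΓ, if_pos h]
      rw [min_eq_left ((div_le_one hm).2 h),
        max_eq_right (div_nonpos_of_nonpos_of_nonneg (by linarith) hr0.le), add_sub_cancel_right,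
        cj_ι hκ', hα _ (wid _ (in1 t ht.1 h)) p hp]
    · simp only [hΓ, if_neg h]
      have h' := (not_le.1 h).le
      rw [min_eq_right ((one_le_div hm).2 h'), max_eq_left (div_nonneg (by linarith) hr0.le),
        cj_ι hκ', hγ _ (wid _ (in2 t h' ht.2)) p hp, ← hBs, ← hBs, map_sub, map_add]
      simp only [BoundedContinuousFunction.coe_sub, BoundedContinuousFunction.coe_add,
        Pi.sub_apply, Pi.add_apply, hBs]
      rw [← hα 1 ⟨by norm_num, le_rfl⟩ p hp, ← hγ 0 ⟨by norm_num, by norm_num⟩ p hp,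
        (hend p hp).2.1]
      ring
  · intro t ht
    by_cases h : t ≤ 1 - r
    · simp only [hΓ, if_pos h]
      exact diff_cj hκ (hD _ (in1 t ht.1 h)).1
    · simp only [hΓ, if_neg h]
      exact diff_cj hκ (hD _ (in2 t (not_le.1 h).le ht.2)).2
  · rintro _ ⟨p, hp, rfl⟩
    simp only [hΓ, if_pos hm.le]
    rw [cj_ι hκ', zero_div, (hend p hp).1]
  · rintro _ ⟨p, hp, rfl⟩
    have : ¬ (1 : ℝ) ≤ 1 - r := by linarith
    simp only [hΓ, if_neg this]
    rw [cj_ι hκ', cj_ι hκ', sub_sub_cancel, div_self hr0.ne', (hend p hp).2.2]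
  · have p1 := piece hκ hM.measurableSet (Γ := Γ) (α := α) (a := a) (b := 0) hm
      (fun t ht p _ => by
        have : t ≤ 1 - r := by linarith [ht.2]
        simp only [hΓ, if_pos this]
        rw [cj_ι hκ', sub_zero]) fun t ht p hp => (hd t ht p hp).1
    have p2 := piece hκ hM.measurableSet (Γ := Γ) (α := γ) (a := c) (b := 1 - r) hr0
      (fun t ht p _ => by
        have : ¬ t ≤ 1 - r := not_le.2 ht.1
        simp only [hΓ, if_neg this]
        rw [cj_ι hκ']) fun t ht p hp => (hd t ht p hp).2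
    rw [zero_add] at p1
    rw [sub_add_cancel] at p2
    unfold energy
    rw [← Ioo_union_Ico_eq_Ioo hm (by linarith : 1 - r ≤ 1)]
    refine ENNReal.div_le_of_le_mul ((lintegral_union_le _ _ _).trans ?_)
    rw [← setLIntegral_congr Ioo_ae_eq_Ico, p1, p2]
    exact le_of_eq (by ring)

end Pool.Agent.Lib.MP_f62ea7_gt
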