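import Pool.Agent.Lib.MP_f62ea7_gt.Defs

set_option autoImplicit false

open MeasureTheory Set Filter Topology Real
open scoped ContDiff ENNReal BoundedContinuousFunction

namespace Pool.Agent.Lib.MP_f62ea7_gt

/-! ## The plane, partial derivatives -/

/-- The plane with the sup norm. -/
abbrev P : Type := ℝ × ℝ

noncomputable def dx (f : P → ℝ) (z : P) : ℝ := fderiv ℝ f z (1, 0)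
noncomputable def du (f : P → ℝ) (z : P) : ℝ := fderiv ℝ f z (0, 1)

/-- clockwise rotation -/
noncomputable def rot (t : ℝ) (z : P) : P :=
  (z.1 * cos t + z.2 * sin t, -z.1 * sin t + z.2 * cos t)

/-- the anisotropic weight -/
noncomputable def vw (p : P) : ℝ := p.1 ^ 2 + |p.2| ^ (2 / 3 : ℝ)

/-- anisotropic dilation -/
def dil (l : ℝ) (p : P) : P := (l * p.1, l ^ 3 * p.2)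

abbrev Box : Set P := Metric.closedBall 0 2
abbrev Itv : Set ℝ := Icc (-2) 2

/-! ## The steady flow in label coordinates `z = (x, u)` -/

structure Dat where
  w : P → ℝ
  Y : P → ℝ
  V : P → ℝ
  G : P → ℝ
  B : P → ℝ
  Θ : P → ℝ

def Dat.Φ (D : Dat) (z : P) : P := (z.1, D.Y z)
noncomputable def Dat.pres (D : Dat) (κ : ℝ) (z : P) : ℝ :=
  D.w z - z.2 ^ 2 / 2 - κ ^ 2 * D.V z ^ 2 / 2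
def Dat.W (D : Dat) : Set P := {z | ‖z‖ ≤ 5 ∧ D.w z ≤ 8}
def Dat.Wo (D : Dat) : Set P := {z | ‖z‖ < 5 ∧ D.w z < 8 ∧ z ≠ 0}
def Dat.Ml (D : Dat) : Set P := {z | ‖z‖ ≤ 5 ∧ D.w z ≤ 1 / 2}

structure IsSol (κ C : ℝ) (D : Dat) : Prop where
  w_sm : ContDiff ℝ ∞ D.w
  Y_sm : ContDiff ℝ ∞ D.Y
  V_sm : ContDiff ℝ ∞ D.V
  G_sm : ContDiff ℝ ∞ D.G
  B_sm : ContDiff ℝ ∞ D.B
  Θ_sm : ContDiff ℝ ∞ D.Θ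
  w_u : ∀ z : P, ‖z‖ < 6 → du D.w z = z.2 * D.Θ z
  Y_u : ∀ z : P, ‖z‖ < 6 → du D.Y z = D.w z * D.Θ z
  V_u : ∀ z : P, ‖z‖ < 6 → du D.V z = dx D.Y z
  Θ_eq : ∀ z : P, ‖z‖ < 6 → D.Θ z = 1 - κ ^ 2 * (dx D.V z * du D.Y z - dx D.Y z ^ 2)
  V_eq : ∀ z : P, ‖z‖ < 6 → z.2 * dx D.Y z - D.V z = D.w z * dx D.w z
  G_eq : ∀ z : P, ‖z‖ < 6 → D.G z * D.Θ z = dx D.w z
  B_eq : ∀ z : P, ‖z‖ < 6 → D.B z = -(z.2 * dx D.V z - dx D.Y z * D.G z)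
  w_even : ∀ z : P, ‖z‖ < 6 → D.w (-z) = D.w z
  Y_odd : ∀ z : P, ‖z‖ < 6 → D.Y (-z) = -D.Y z
  V_odd : ∀ z : P, ‖z‖ < 6 → D.V (-z) = -D.V z
  G_odd : ∀ z : P, ‖z‖ < 6 → D.G (-z) = -D.G z
  Y_zero : ∀ x : ℝ, |x| < 6 → D.Y (x, 0) = 0
  Θ_b : ∀ z : P, ‖z‖ < 6 → |D.Θ z - 1| ≤ C * κ ^ 2 * ‖z‖ ^ 4
  w_b : ∀ z : P, ‖z‖ < 6 → |D.w z - (z.1 ^ 2 + z.2 ^ 2) / 2| ≤ C * κ * ‖z‖ ^ 6
  wx_b : ∀ z : P, ‖z‖ < 6 → |dx D.w z - z.1| ≤ C * κ * ‖z‖ ^ 5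
  Y_b : ∀ z : P, ‖z‖ < 6 → |D.Y z - (z.1 ^ 2 * z.2 / 2 + z.2 ^ 3 / 6)| ≤ C * κ * ‖z‖ ^ 7
  V_b : ∀ z : P, ‖z‖ < 6 → |D.V z - z.1 * (z.2 ^ 2 - z.1 ^ 2) / 2| ≤ C * κ * ‖z‖ ^ 7
  Yx_b : ∀ z : P, ‖z‖ < 6 → |dx D.Y z| ≤ C * ‖z‖ ^ 2
  Vx_b : ∀ z : P, ‖z‖ < 6 → |dx D.V z| ≤ C * ‖z‖ ^ 2
  Bx_b : ∀ z : P, ‖z‖ < 6 → |dx D.B z| ≤ C * ‖z‖ ^ 2
  Bu_b : ∀ z : P, ‖z‖ < 6 → |du D.B z| ≤ C * ‖z‖ ^ 2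
  G_b : ∀ z : P, ‖z‖ < 6 → |D.G z - (z.1 - 6 * κ * z.1 ^ 5)| ≤ C * κ ^ 2 * ‖z‖ ^ 5
  Gx_b : ∀ z : P, ‖z‖ < 6 → |dx D.G z - (1 - 30 * κ * z.1 ^ 4)| ≤ C * κ ^ 2 * ‖z‖ ^ 4
  Gu_b : ∀ z : P, ‖z‖ < 6 → |du D.G z| ≤ C * κ ^ 2 * ‖z‖ ^ 4

structure Est (κ C : ℝ) (D : Dat) : Prop where
  w_lo : ∀ z : P, ‖z‖ ≤ 5 → 49 / 100 * (z.1 ^ 2 + z.2 ^ 2) ≤ D.w z
  w_hi : ∀ z : P, ‖z‖ ≤ 5 → D.w z ≤ 51 / 100 * (z.1 ^ 2 + z.2 ^ 2)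
  Θ_lo : ∀ z : P, ‖z‖ ≤ 5 → 99 / 100 ≤ D.Θ z
  Θ_hi : ∀ z : P, ‖z‖ ≤ 5 → D.Θ z ≤ 101 / 100
  Y_lo : ∀ x u u' : ℝ, |x| ≤ 5 → |u| ≤ 5 → |u'| ≤ 5 → u' ≤ u →
    (x ^ 2 + u ^ 2 + u' ^ 2) / 20 * (u - u') ≤ D.Y (x, u) - D.Y (x, u')
  Y_hi : ∀ z : P, ‖z‖ ≤ 5 → |D.Y z| ≤ ‖z‖ ^ 3
  V_hi : ∀ z : P, ‖z‖ ≤ 5 → |D.V z| ≤ ‖z‖ ^ 3
  Y_lip : ∀ z z' : P, ‖z‖ ≤ 5 → ‖z'‖ ≤ 5 → |D.Y z - D.Y z'| ≤ C * (‖z‖ ^ 2 + ‖z'‖ ^ 2) * ‖z - z'‖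
  V_lip : ∀ z z' : P, ‖z‖ ≤ 5 → ‖z'‖ ≤ 5 → |D.V z - D.V z'| ≤ C * (‖z‖ ^ 2 + ‖z'‖ ^ 2) * ‖z - z'‖
  B_lip : ∀ z z' : P, ‖z‖ ≤ 5 → ‖z'‖ ≤ 5 → |D.B z - D.B z'| ≤ C * (‖z‖ ^ 2 + ‖z'‖ ^ 2) * ‖z - z'‖
  G_lip : ∀ z z' : P, ‖z‖ ≤ 5 → ‖z'‖ ≤ 5 → |D.G z - D.G z' - (z.1 - z'.1)| ≤ C * κ * ‖z - z'‖
  G_near : ∀ z : P, ‖z‖ ≤ 5 → |D.G z - z.1| ≤ C * κ * ‖z‖ ^ 5
  rad_w : ∀ z : P, ‖z‖ ≤ 5 → 9 / 10 * (z.1 ^ 2 + z.2 ^ 2) ≤ z.1 * dx D.w z + z.2 * du D.w z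
  rad_ψ : ∀ z : P, ‖z‖ ≤ 5 → (z.1 ^ 4 + z.2 ^ 4) / 10 ≤ z.2 * D.Y z - z.1 * D.V z
  V_vert : ∀ z z' : P, ‖z‖ ≤ 5 → ‖z'‖ ≤ 5 → |D.V z - D.V z'| ≤
    C * (|D.Y z - D.Y z'| + (‖z'‖ ^ 2 + (z.1 - z'.1) ^ 2) * |z.1 - z'.1|)

/-- Taylor remainder of the pressure. -/
def Rem (κ C : ℝ) (D : Dat) : Prop :=
  ∀ z z' : P, ‖z‖ ≤ 5 → ‖z'‖ ≤ 5 →
    D.pres κ z - D.pres κ z' - D.G z' * (z.1 - z'.1) - κ ^ 2 * D.B z' * (D.Y z - D.Y z') ≤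
      (z.1 - z'.1) ^ 2 / 2 - κ / 20 * (z'.1 ^ 4 * (z.1 - z'.1) ^ 2 + (z.1 - z'.1) ^ 6) +
        C * κ ^ 2 * ((D.Y z - D.Y z') ^ 2 + (‖z'‖ ^ 4 + (z.1 - z'.1) ^ 4) * (z.1 - z'.1) ^ 2)

/-- `U (x, y)` solves `Y (x, U) = y`: it is the horizontal velocity at the physical point. -/
structure IsU (C : ℝ) (D : Dat) (U : P → ℝ) : Prop where
  U_cont : Continuous U
  U_bd : ∀ p : P, ‖p‖ ≤ 3 → |U p| ≤ 4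
  U_left : ∀ z : P, ‖z‖ ≤ 5 → U (D.Φ z) = z.2
  U_right : ∀ p : P, ‖p‖ ≤ 3 → D.Y (p.1, U p) = p.2
  U_sm : ∀ z : P, ‖z‖ < 5 → z ≠ 0 → ContDiffAt ℝ ∞ U (D.Φ z)
  U_odd : ∀ p : P, ‖p‖ ≤ 3 → U (-p) = -U p
  U_mono : ∀ x a s : ℝ, |x| ≤ 3 → |a| ≤ 3 → |s| ≤ 3 → s ≤ a → U (x, s) ≤ U (x, a)
  U1 : ∀ x a s : ℝ, |x| ≤ 3 → |a| ≤ 3 → |s| ≤ 3 →
    vw (x, s) * |U (x, a) - U (x, s)| ≤ C * |a - s|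
  U2 : ∀ x a s : ℝ, |x| ≤ 3 → |a| ≤ 3 → |s| ≤ 3 →
    min |a - s| |s| ≤ C * (vw (x, s) * |U (x, a) - U (x, s)|)
  U3 : ∀ x x' y : ℝ, |x| ≤ 3 → |x'| ≤ 3 → |y| ≤ 3 → |U (x, y) - U (x', y)| ≤ C * |x - x'|
  vw_lo : ∀ p : P, ‖p‖ ≤ 3 → ‖((p.1, U p) : P)‖ ^ 2 ≤ 8 * vw p
  vw_hi : ∀ z : P, ‖z‖ ≤ 5 → vw (D.Φ z) ≤ 2 * ‖z‖ ^ 2

/-- `g` is the flow of `x' = u, u' = -G` in the label plane. -/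
structure IsG (κ C : ℝ) (D : Dat) (g : ℝ → P → P) : Prop where
  g_sm : ContDiff ℝ ∞ fun q : ℝ × P => g q.1 q.2
  g_zero : ∀ z, g 0 z = z
  g_add : ∀ s t z, g (s + t) z = g s (g t z)
  g_mem : ∀ z ∈ D.W, ∀ t, g t z ∈ D.W
  g_w : ∀ z ∈ D.W, ∀ t, D.w (g t z) = D.w z
  g_der : ∀ z ∈ D.W, ∀ t, HasDerivAt (fun τ => g τ z) ((g t z).2, -D.G (g t z)) t
  g_odd : ∀ z ∈ D.W, ∀ t, g t (-z) = -g t z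
  g_rot : ∀ z ∈ D.W, ∀ z' ∈ D.W, ∀ t, |t| ≤ 4 →
    ‖g t z - g t z' - rot t (z - z')‖ ≤ C * κ * ‖z - z'‖

structure Geo extends Dat where
  U : P → ℝ
  g : ℝ → P → P

def Geo.Ψ (X : Geo) (p : P) : P := (p.1, X.U p)
/-- the steady Euler flow in physical coordinates -/
def Geo.eta (X : Geo) (t : ℝ) (p : P) : P := X.Φ (X.g t (X.Ψ p))
/-- its Lagrangian velocity -/
def Geo.vel (X : Geo) (t : ℝ) (p : P) : P := ((X.g t (X.Ψ p)).2, X.V (X.g t (X.Ψ p)))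
/-- the fluid domain -/
def Geo.M (X : Geo) : Set P := {p | ‖p‖ ≤ 2 ∧ X.w (X.Ψ p) ≤ 1 / 2}
/-- an open invariant neighbourhood of the domain -/
def Geo.N (X : Geo) : Set P := {p | ‖p‖ < 2 ∧ X.w (X.Ψ p) < 3 / 5}
/-- the stream function -/
noncomputable def Geo.ψ (X : Geo) (p : P) : ℝ := X.w (X.Ψ p) ^ 2 / 2

structure Good (κ C : ℝ) (X : Geo) : Prop extends IsSol κ C X.toDat, Est κ C X.toDat,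
    IsU C X.toDat X.U, IsG κ C X.toDat X.g where
  κ_pos : 0 < κ
  κ_le : κ ≤ 1
  C_ge : 1 ≤ C
  rem : Rem κ C X.toDat

/-- Admissible incompressible motions of `M` on the time interval `[0, π]`, with velocity `v`. -/
structure Adm (M : Set P) (η v : ℝ → P → P) : Prop where
  cont : Continuous fun q : ℝ × P => η q.1 q.2
  meas : Measurable fun q : ℝ × P => v q.1 q.2
  bdd : ∃ B, ∀ t ∈ Icc 0 π, ∀ a ∈ M, ‖v t a‖ ≤ B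
  der : ∃ S : Finset ℝ, ∀ t ∈ Ioo 0 π, t ∉ S → ∀ a ∈ M, HasDerivAt (fun τ => η τ a) (v t a) t
  maps : ∀ t ∈ Icc 0 π, MapsTo (η t) M M
  inv : ∀ t ∈ Icc 0 π, ∃ ρ : P → P, Continuous ρ ∧ MapsTo ρ M M ∧ InvOn ρ (η t) M M
  mp : ∀ t ∈ Icc 0 π, MeasurePreserving (η t) (volume.restrict M) (volume.restrict M)

structure Phys1 (X : Geo) : Prop where
  box_n : ∀ p : P, ‖p‖ ≤ 2 → ‖X.Ψ p‖ < 5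
  box_w : ∀ p : P, ‖p‖ ≤ 2 → X.w (X.Ψ p) < 8
  box_W : ∀ p : P, ‖p‖ ≤ 2 → X.Ψ p ∈ X.W
  ΦΨ : ∀ p : P, ‖p‖ ≤ 3 → X.Φ (X.Ψ p) = p
  ΨΦ : ∀ z : P, ‖z‖ ≤ 5 → X.Ψ (X.Φ z) = z
  Φ_cont : Continuous X.Φ
  Ψ_cont : Continuous X.Ψ
  Ψ_zero : X.Ψ 0 = 0
  Ψ_ne : ∀ p : P, ‖p‖ ≤ 3 → p ≠ 0 → X.Ψ p ≠ 0
  Ψ_odd : ∀ p : P, ‖p‖ ≤ 3 → X.Ψ (-p) = -X.Ψ p
  W_small : ∀ z ∈ X.W, ‖z‖ ≤ 9 / 2
  M_eq : X.M = X.Φ '' X.Ml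
  M_compact : IsCompact X.M
  M_ball : Metric.closedBall 0 (1 / 50) ⊆ X.M
  M_sub : X.M ⊆ X.N
  N_open : IsOpen X.N
  N_small : ∀ p ∈ X.N, ‖p‖ < 3 / 2
  N_lab : ∀ z : P, ‖z‖ ≤ 5 → X.w z < 3 / 5 → X.Φ z ∈ X.N
  N_neg : ∀ p ∈ X.N, -p ∈ X.N
  Ml_star : ∀ z ∈ X.Ml, ∀ r ∈ Icc (0 : ℝ) 1, r • z ∈ X.Ml
  Ml_ball : Metric.ball 0 (1 / 2) ⊆ X.Ml
  w_ray : ∀ z : P, ∀ r : ℝ, z ≠ 0 → 0 < r → ‖z‖ ≤ 5 → ‖r • z‖ ≤ 5 → X.w (r • z) = X.w z → r = 1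
  g_origin : ∀ t, X.g t 0 = 0
  g_norm : ∀ z ∈ X.W, ∀ t, ‖X.g t z‖ ≤ 2 * ‖z‖
  eta_cont : Continuous fun q : ℝ × P => X.eta q.1 q.2
  vel_cont : Continuous fun q : ℝ × P => X.vel q.1 q.2
  eta_lab : ∀ p : P, ‖p‖ ≤ 2 → ∀ t, X.Ψ (X.eta t p) = X.g t (X.Ψ p)
  eta_w : ∀ p : P, ‖p‖ ≤ 2 → ∀ t, X.w (X.Ψ (X.eta t p)) = X.w (X.Ψ p)
  eta_M : ∀ p ∈ X.M, ∀ t, X.eta t p ∈ X.M
  eta_N : ∀ p ∈ X.N, ∀ t, X.eta t p ∈ X.N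
  eta_add : ∀ p : P, ‖p‖ ≤ 2 → ∀ s t, X.eta (s + t) p = X.eta s (X.eta t p)
  eta_zero : ∀ p : P, ‖p‖ ≤ 2 → X.eta 0 p = p
  eta_origin : ∀ t, X.eta t 0 = 0
  eta_odd : ∀ p : P, ‖p‖ ≤ 2 → ∀ t, X.eta t (-p) = -X.eta t p
  xsq : ∀ z ∈ X.W, ‖z‖ ^ 2 ≤ 10 * ∫ t in (π / 4)..(3 * π / 4), (X.g t z).1 ^ 2
  nonlip : ∀ L r : ℝ, 0 < r → ∃ p : P, ‖p‖ < r ∧ L * ‖p‖ < ‖X.eta (π / 2) p‖

structure Phys2 (X : Geo) : Prop where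
  lab_der : ∀ z ∈ X.W, ∀ t, HasDerivAt (fun τ => X.Φ (X.g τ z)) ((X.g t z).2, X.V (X.g t z)) t
  V_der : ∀ z ∈ X.W, ∀ t, HasDerivAt (fun τ => X.V (X.g τ z)) (-X.B (X.g t z)) t
  eta_der : ∀ p : P, ‖p‖ ≤ 2 → ∀ t, HasDerivAt (fun τ => X.eta τ p) (X.vel t p) t
  Ψ_sm : ContDiffOn ℝ ∞ X.Ψ (Metric.ball 0 3 \ {0})
  eta_sm : ContDiffOn ℝ ∞ (fun q : ℝ × P => X.eta q.1 q.2) (univ ×ˢ (Metric.ball 0 3 \ {0}))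
  ψ_dx : ∀ p : P, ‖p‖ < 3 → p ≠ 0 → dx X.ψ p = -X.V (X.Ψ p)
  ψ_du : ∀ p : P, ‖p‖ < 3 → p ≠ 0 → du X.ψ p = X.U p
  N_star : ∀ p ∈ X.N, ∀ r ∈ Icc (0 : ℝ) 1, r • p ∈ X.N
  mp : ∀ b : P → ℝ, DifferentiableOn ℝ b (X.N \ {0}) →
    (∀ p ∈ X.N \ {0}, ∀ t, b (X.eta t p) = b p) →
    ∀ A ⊆ X.N, MeasurableSet A → volume ((fun p => X.eta (b p) p) '' A) = volume A
  adm : Adm X.M X.eta X.vel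

structure Full (κ C : ℝ) (X : Geo) : Prop extends Good κ C X, Phys1 X, Phys2 X

/-- `T` is the half period of the label flow. -/
structure IsT (X : Geo) (T : P → ℝ) : Prop where
  T_sm : ContDiffOn ℝ ∞ T X.Wo
  T_pos : ∀ z ∈ X.Wo, 0 < T z
  T_half : ∀ z ∈ X.Wo, X.g (T z) z = -z
  T_min : ∀ z ∈ X.Wo, ∀ t, 0 < t → t < T z → X.g t z ≠ -z
  T_inv : ∀ z ∈ X.Wo, ∀ t, T (X.g t z) = T z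
  T_bd : ∀ z ∈ X.Wo, |T z - π| ≤ 1
  T_blow : ∃ S : ℝ × P → ℝ, ContDiffOn ℝ ∞ S {q | q.2 ≠ 0 ∧ ‖q.1 • q.2‖ < 1} ∧
    ∀ (l : ℝ) (z : P), l ≠ 0 → z ≠ 0 → ‖l • z‖ < 1 → T (l • z) = π + l ^ 4 * S (l, z)

/-! ## Quantities attached to a competitor `η` with velocity `v` -/

def d1 (X : Geo) (η : ℝ → P → P) (t : ℝ) (a : P) : ℝ := (η t a).1 - (X.eta t a).1
def d2 (X : Geo) (η : ℝ → P → P) (t : ℝ) (a : P) : ℝ := (η t a).2 - (X.eta t a).2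
def e1 (X : Geo) (v : ℝ → P → P) (t : ℝ) (a : P) : ℝ := (v t a).1 - (X.vel t a).1
def e2 (X : Geo) (v : ℝ → P → P) (t : ℝ) (a : P) : ℝ := (v t a).2 - (X.vel t a).2
/-- same end points as the steady flow -/
def Ends (X : Geo) (η : ℝ → P → P) : Prop := ∀ a ∈ X.M, η 0 a = a ∧ η π a = X.eta π a
noncomputable def dbl (M : Set P) (f : ℝ → P → ℝ) : ℝ := ∫ t in (0 : ℝ)..π, ∫ a in M, f t a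
noncomputable def act (κ : ℝ) (M : Set P) (v : ℝ → P → P) : ℝ :=
  dbl M fun t a => ((v t a).1 ^ 2 + κ ^ 2 * (v t a).2 ^ 2) / 2
noncomputable def Ia (X : Geo) (η v : ℝ → P → P) (a : P) : ℝ :=
  ∫ t in (0 : ℝ)..π, (e1 X v t a ^ 2 - d1 X η t a ^ 2)
noncomputable def Ja (X : Geo) (η : ℝ → P → P) (a : P) : ℝ :=
  ∫ t in (0 : ℝ)..π, ((X.eta t a).1 ^ 4 * d1 X η t a ^ 2 + d1 X η t a ^ 6)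
noncomputable def II (X : Geo) (η v : ℝ → P → P) : ℝ := ∫ a in X.M, Ia X η v a
noncomputable def JJ (X : Geo) (η : ℝ → P → P) : ℝ := ∫ a in X.M, Ja X η a
noncomputable def D2 (X : Geo) (η : ℝ → P → P) : ℝ := dbl X.M fun t a => d2 X η t a ^ 2
noncomputable def E2 (X : Geo) (v : ℝ → P → P) : ℝ := dbl X.M fun t a => e2 X v t a ^ 2
noncomputable def mm (X : Geo) (η v : ℝ → P → P) (a : P) : ℝ := √(Ia X η v a + Ja X η a)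
/-- the error in the near monotonicity -/
noncomputable def ee (X : Geo) (η v : ℝ → P → P) (η0 l K t : ℝ) (a : P) : ℝ :=
  η0 * |d2 X η t a| + 2 * (∫ s in (t - l)..(t + l), |e2 X v s a|) + K * mm X η v a

/-- At time `t`, the vertical order is almost the one of the steady flow. -/
def Mono0 (X : Geo) (η : ℝ → P → P) (t : ℝ) (e : P → ℝ) : Prop :=
  (∀ a ∈ X.M, ∀ a' ∈ X.M, (η t a).1 = (η t a').1 → (η t a').2 < (η t a).2 →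
    min ((η t a).2 - (η t a').2) ((X.eta t a').2 - (X.eta t a).2) ≤ e a + e a') ∧
  ∀ a ∈ X.M, ∀ p : P, ‖p‖ ≤ 2 → p ∉ X.M → (η t a).1 = p.1 →
    (p.2 < (η t a).2 → min ((η t a).2 - p.2) (p.2 - (X.eta t a).2) ≤ e a) ∧
    ((η t a).2 < p.2 → min (p.2 - (η t a).2) ((X.eta t a).2 - p.2) ≤ e a)

/-- At time `t`, the vertical order is almost opposite to the one of the steady flow. -/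
def Anti0 (X : Geo) (η : ℝ → P → P) (t : ℝ) (e : P → ℝ) : Prop :=
  ∀ a ∈ X.M, ∀ a' ∈ X.M, (η t a).1 = (η t a').1 → (η t a').2 < (η t a).2 →
    min ((η t a).2 - (η t a').2) ((X.eta t a).2 - (X.eta t a').2) ≤ e a + e a'

def toC (p : P) : ℂ := ⟨p.1, p.2⟩

/-- The loop `F / F'` on `[0, π]` has winding number zero. -/
def Null (F F' : ℝ → P) : Prop :=
  ∃ L : ℝ → ℂ, ContinuousOn L (Icc 0 π) ∧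
    (∀ s ∈ Icc 0 π, toC (F s) = Complex.exp (L s) * toC (F' s)) ∧ L 0 = L π

/-! ## Transfer to the Euclidean plane -/

def ι (κ : ℝ) (p : P) : ℂ := ⟨p.1, κ * p.2⟩
noncomputable def ιi (κ : ℝ) (z : ℂ) : P := (z.re, z.im / κ)
noncomputable def cj (κ : ℝ) (f : P → P) (z : ℂ) : ℂ := ι κ (f (ιi κ z))
def dilC (l : ℝ) (z : ℂ) : ℂ := ⟨l * z.re, l ^ 3 * z.im⟩
def HsP (s κ : ℝ) (M : Set P) (f : P → P) : Prop :=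
  ∃ g : L2, ∀ p ∈ M, ι κ (f p) = bessel s g (ι κ p)
def Lift (s κ : ℝ) (M : Set P) (f : ℝ → P → P) : Prop :=
  ∃ g : ℝ → L2, ContDiff ℝ 1 g ∧
    ∀ θ ∈ Icc (-1 : ℝ) 1, ∀ p ∈ M, ι κ (f θ p) = bessel s (g θ) (ι κ p)
def PDiff (s κ : ℝ) (M : Set P) (f : P → P) : Prop :=
  HsP s κ M f ∧ MapsTo f M M ∧ (∃ f' : P → P, HsP s κ M f' ∧ MapsTo f' M M ∧ InvOn f' f M M) ∧
    ∀ A ⊆ M, MeasurableSet A → volume (f '' A) = volume A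
noncomputable def En (κ : ℝ) (M : Set P) (a : ℝ → P → P) : ℝ≥0∞ :=
  ∫⁻ t in Ioo (0 : ℝ) 1, ∫⁻ p in M, ENNReal.ofReal (((a t p).1 ^ 2 + κ ^ 2 * (a t p).2 ^ 2) / 2)
/-- the time defect, cut off at scale `l` -/
noncomputable def bb (X : Geo) (T : P → ℝ) (l : ℝ) (p : P) : ℝ :=
  smoothTransition (2 - X.w (X.Ψ p) / l ^ 2) * (π - T (X.Ψ p))
noncomputable def gam (X : Geo) (T : P → ℝ) (l θ : ℝ) (p : P) : P :=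
  X.eta (π - (1 - θ) * bb X T l p) p
/-- dyadic singular series -/
noncomputable def ser (F : ℝ × ℝ × P → P) (θ : ℝ) (p : P) : P :=
  ∑' j : ℕ, (((2 : ℝ) ^ j)⁻¹ ^ 5) • F (((2 : ℝ) ^ j)⁻¹, θ, dil (2 ^ j) p)

/-- The regularised Hamiltonian at scale `l`. -/
structure IsK (X : Geo) (c0 CK l : ℝ) (K : P → ℝ) : Prop where
  K_sm : ContDiff ℝ ∞ K
  K_supp : HasCompactSupport K
  K_even : ∀ p ∈ X.N, K (-p) = K p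
  K_out : ∀ p : P, ‖p‖ < 3 / 2 → l ^ 2 / 4 < X.w (X.Ψ p) → K p = X.ψ p
  K_in : ∃ c : ℝ, 0 < c ∧ ∀ᶠ p : P in 𝓝 0, K p = c * (l ^ 2 * p.1 ^ 2 + p.2 ^ 2 / l ^ 2)
  K_rad : ∀ p ∈ X.N, X.w (X.Ψ p) ≤ 3 * l ^ 2 →
    c0 * (l ^ 2 * p.1 ^ 2 + p.2 ^ 2 / l ^ 2) ≤ p.1 * dx K p + p.2 * du K p
  K_pos : ∀ p ∈ X.N, p ≠ 0 → 0 < p.1 * dx K p + p.2 * du K p
  K_bd : ∀ p ∈ X.N, |dx K p| ≤ CK ∧ |du K p| ≤ CK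

/-! ## Statements of the blocks -/

def St_A : Prop :=
  ∃ C κ0 : ℝ, 1 ≤ C ∧ 0 < κ0 ∧ ∀ κ, 0 < κ → κ ≤ κ0 → ∃ D : Dat, IsSol κ C D

def St_EST : Prop :=
  ∀ C : ℝ, 1 ≤ C → ∃ C' κ1 : ℝ, C ≤ C' ∧ 0 < κ1 ∧
    ∀ κ D, 0 < κ → κ ≤ κ1 → IsSol κ C D → Est κ C' D

def St_REM : Prop :=
  ∀ C : ℝ, 1 ≤ C → ∃ C' : ℝ, C ≤ C' ∧
    ∀ κ D, 0 < κ → κ ≤ 1 → IsSol κ C D → Est κ C D → Rem κ C' D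

def St_U : Prop :=
  ∀ C : ℝ, 1 ≤ C → ∃ C' : ℝ, C ≤ C' ∧
    ∀ κ D, IsSol κ C D → Est κ C D → ∃ U, IsU C' D U

def St_FLOW : Prop :=
  ∀ Z : P → P, ContDiff ℝ ∞ Z → HasCompactSupport Z → ∃ k : ℝ → P → P,
    ContDiff ℝ ∞ (fun q : ℝ × P => k q.1 q.2) ∧ (∀ p, k 0 p = p) ∧
    (∀ s t p, k (s + t) p = k s (k t p)) ∧
    (∀ p t, HasDerivAt (fun τ => k τ p) (Z (k t p)) t) ∧
    ∀ c : ℝ → P, (∀ t, HasDerivAt c (Z (c t)) t) → ∀ t, c t = k t (c 0)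

def St_G : Prop :=
  ∀ C : ℝ, 1 ≤ C → ∃ C' : ℝ, C ≤ C' ∧
    ∀ κ D, 0 < κ → κ ≤ 1 → IsSol κ C D → Est κ C D → ∃ g, IsG κ C' D g

def St_PH1 : Prop :=
  ∀ C : ℝ, ∃ κ1 : ℝ, 0 < κ1 ∧ ∀ κ X, κ ≤ κ1 → Good κ C X → Phys1 X

def St_MP : Prop :=
  ∀ (N : Set P) (k : ℝ → P → P) (K b : P → ℝ), IsOpen N →
    ContDiffOn ℝ 1 (fun q : ℝ × P => k q.1 q.2) (univ ×ˢ N) → (∀ p ∈ N, ∀ t, k t p ∈ N) →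
    (∀ p ∈ N, ∀ s t, k (s + t) p = k s (k t p)) → (∀ p ∈ N, k 0 p = p) →
    DifferentiableOn ℝ K N → (∀ p ∈ N, fderiv ℝ K p ≠ 0) →
    (∀ p ∈ N, ∀ t, HasDerivAt (fun τ => k τ p) (du K (k t p), -dx K (k t p)) t) →
    DifferentiableOn ℝ b N → (∀ p ∈ N, ∀ t, b (k t p) = b p) →
    ∀ A ⊆ N, MeasurableSet A → volume ((fun p => k (b p) p) '' A) = volume A

def St_PH2 : Prop := ∀ κ C X, Good κ C X → Phys1 X → Phys2 X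

def St_HAD : Prop :=
  ∀ (E F : Type) [NormedAddCommGroup E] [NormedSpace ℝ E] [FiniteDimensional ℝ E]
    [NormedAddCommGroup F] [NormedSpace ℝ F] [CompleteSpace F]
    (Ω : Set (ℝ × E)) (f : ℝ × E → F) (k : ℕ), IsOpen Ω → ContDiffOn ℝ ∞ f Ω →
    (∀ e, ((0 : ℝ), e) ∈ Ω → ∃ c : ℝ, ∀ᶠ l in 𝓝[≠] (0 : ℝ), ‖f (l, e)‖ ≤ c * |l| ^ k) →
    ∃ h : ℝ × E → F, ContDiffOn ℝ ∞ h Ω ∧ ∀ q ∈ Ω, f q = q.1 ^ k • h q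

def St_HP : Prop :=
  ∀ (E : Type) [NormedAddCommGroup E] [NormedSpace ℝ E] [FiniteDimensional ℝ E]
    (Ω : Set E) (c c' : E → ℝ → P), IsOpen Ω →
    ContDiffOn ℝ ∞ (fun q : E × ℝ => c q.1 q.2) (Ω ×ˢ univ) →
    (∀ e ∈ Ω, ∀ t, HasDerivAt (c e) (c' e t) t) → (∀ e ∈ Ω, ∀ t, c e t ≠ 0) →
    (∀ e ∈ Ω, ∃ lo : ℝ, 0 < lo ∧ ∀ t, lo * ((c e t).1 ^ 2 + (c e t).2 ^ 2) ≤
      (c e t).2 * (c' e t).1 - (c e t).1 * (c' e t).2) →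
    ∃ T : E → ℝ, ContDiffOn ℝ ∞ T Ω ∧ ∀ e ∈ Ω, 0 < T e ∧
      (∃ r : ℝ, 0 < r ∧ c e (T e) = -(r • c e 0)) ∧
      (∀ t, 0 < t → t < T e → ∀ r : ℝ, 0 < r → c e t ≠ -(r • c e 0)) ∧
      (∀ lo : ℝ, (∀ t, lo * ((c e t).1 ^ 2 + (c e t).2 ^ 2) ≤
        (c e t).2 * (c' e t).1 - (c e t).1 * (c' e t).2) → lo * T e ≤ π) ∧
      ∀ hi : ℝ, (∀ t, (c e t).2 * (c' e t).1 - (c e t).1 * (c' e t).2 ≤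
        hi * ((c e t).1 ^ 2 + (c e t).2 ^ 2)) → π ≤ hi * T e

def St_T : Prop :=
  ∀ C : ℝ, ∃ κ1 : ℝ, 0 < κ1 ∧ ∀ κ X, κ ≤ κ1 → Good κ C X → Phys1 X → ∃ T, IsT X T

def St_BM : Prop :=
  ∀ (θ B : ℝ) (f a σ : ℝ → ℝ), 0 < θ → Measurable f → Measurable a → Measurable σ →
    (∀ x ∈ Itv, 0 ≤ f x ∧ f x ≤ B) → (∀ x ∈ Itv, 0 ≤ a x ∧ a x ≤ B) →
    (∀ x ∈ Itv, 0 ≤ σ x ∧ σ x ≤ B) →
    ∫ x in Itv, f x * ∫ s in Icc (x - a x) (x + a x) ∩ Itv, σ s ≤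
      θ * (∫ s in Itv, σ s ^ 2) + 100 / θ * ∫ x in Itv, (f x * a x) ^ 2

def St_LINE : Prop :=
  ∀ cU CU : ℝ, 0 < cU → 0 ≤ CU → ∃ C1 C2 : ℝ, 0 ≤ C1 ∧ 0 ≤ C2 ∧
    ∀ (B : ℝ) (yb e err th : ℝ → ℝ), Measurable yb → Measurable e → Measurable err →
      Measurable th → (∀ y ∈ Itv, yb y ∈ Itv) → (∀ y ∈ Itv, 0 ≤ e y ∧ e y ≤ B) →
      (∀ y ∈ Itv, 0 ≤ err y ∧ err y ≤ B) →
      (∀ y ∈ Itv, ∀ y' ∈ Itv, y' < y → min (y - y') (yb y' - yb y) ≤ e y + e y') →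
      (∀ y ∈ Itv, 0 ≤ yb y - y → cU * min (yb y - y) |y| - err y ≤ th y) →
      (∀ y ∈ Itv, yb y - y ≤ 0 → th y ≤ -(cU * min (y - yb y) |y|) + err y) →
      (∀ y ∈ Itv, |th y| ≤ CU * |yb y - y| + err y) →
      ∫ y in Itv, (yb y - y) ^ 2 ≤ C1 * (∫ y in Itv, ∫ s in y..yb y, th s) +
        C2 * ((∫ y in Itv, e y ^ 2) + ∫ y in Itv, err y ^ 2)

/-- bounded measurable weakly divergence free field supported in the box -/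
def WeakDF (B : ℝ) (ζ om : P → ℝ) : Prop :=
  Measurable ζ ∧ Measurable om ∧ (∀ p, |ζ p| ≤ B ∧ |om p| ≤ B) ∧
    (∀ p, p ∉ Box → ζ p = 0 ∧ om p = 0) ∧
    ∀ h : P → ℝ, ContDiff ℝ 1 h → ∫ p, (ζ p * dx h p + om p * du h p) = 0

def St_STREAM : Prop :=
  ∀ (B : ℝ) (ζ om : P → ℝ), WeakDF B ζ om → ∃ F : P → ℝ, Continuous F ∧
    (∀ᵐ x : ℝ, ∀ y y' : ℝ, F (x, y) - F (x, y') = ∫ s in y'..y, ζ (x, s)) ∧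
    ∀ᵐ y : ℝ, ∀ x x' : ℝ, F (x, y) - F (x', y) = -∫ s in x'..x, om (s, y)

def St_HOR : Prop :=
  ∀ (B : ℝ) (ζ om : P → ℝ), WeakDF B ζ om → ∃ (Q σ : P → ℝ) (B' : ℝ), Continuous Q ∧
    Measurable σ ∧ (∀ p, 0 ≤ σ p ∧ σ p ≤ B') ∧
    (∀ᵐ x : ℝ, ∀ y y' : ℝ, Q (x, y) - Q (x, y') = ∫ s in y'..y, vw (x, s) * ζ (x, s)) ∧
    (∀ᵐ y : ℝ, ∀ x x' : ℝ, x' ≤ x → |Q (x, y) - Q (x', y)| ≤ ∫ s in x'..x, vw (s, y) * σ (s, y)) ∧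
    ∫ p in Box, σ p ^ 2 ≤ 200 * ((∫ p in Box, om p ^ 2) + ∫ p in Box, (vw p * ζ p) ^ 2)

def St_EUL : Prop :=
  ∀ cU CU θ : ℝ, 0 < cU → 0 ≤ CU → 0 < θ → ∃ C : ℝ, 0 ≤ C ∧
    ∀ (B : ℝ) (T S : P → P) (ζ om e err : P → ℝ), WeakDF B ζ om →
      MeasurePreserving T (volume.restrict Box) (volume.restrict Box) → MapsTo T Box Box →
      Measurable S → MapsTo S Box Box → (∀ p ∈ Box, S (T p) = p) →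
      Measurable e → Measurable err →
      (∀ p ∈ Box, 0 ≤ e p ∧ e p ≤ B) → (∀ p ∈ Box, 0 ≤ err p ∧ err p ≤ B) →
      (∀ p ∈ Box, ∀ p' ∈ Box, p.1 = p'.1 → p'.2 < p.2 →
        min (p.2 - p'.2) ((T p').2 - (T p).2) ≤ e p + e p') →
      (∀ p ∈ Box, 0 ≤ (T p).2 - p.2 → cU * min ((T p).2 - p.2) |p.2| - err p ≤ vw p * ζ p) →
      (∀ p ∈ Box, (T p).2 - p.2 ≤ 0 → vw p * ζ p ≤ -(cU * min (p.2 - (T p).2) |p.2|) + err p) →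
      (∀ p ∈ Box, |vw p * ζ p| ≤ CU * |(T p).2 - p.2| + err p) →
      ∫ p in Box, ((T p).2 - p.2) ^ 2 ≤ θ * (∫ p in Box, om p ^ 2) +
        C * ((∫ p in Box, e p ^ 2) + (∫ p in Box, err p ^ 2) +
          ∫ p in Box, ((vw (T p) + ((T p).1 - p.1) ^ 2) * |(T p).1 - p.1|) ^ 2)

def St_WIND : Prop :=
  (∀ F F' : ℝ → P, ContinuousOn F (Icc 0 π) → ContinuousOn F' (Icc 0 π) → F 0 = F' 0 →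
    F π = F' π → (∀ s ∈ Icc 0 π, 0 < (F s).1 * (F' s).1 ∨ 0 < (F s).2 * (F' s).2) → Null F F') ∧
  (∀ F F' : ℝ → P, ContinuousOn F (Icc 0 π) → ContinuousOn F' (Icc 0 π) → F 0 = F' 0 →
    F π = F' π → (∀ s ∈ Icc 0 π, (F s).1 = 0 → 0 < (F s).2) →
    (∀ s ∈ Icc 0 π, (F' s).1 = 0 → (F' s).2 < 0) → (F' 0).1 * (F' π).1 < 0 → ¬Null F F') ∧
  (∀ (A : Set P) (ε : ℝ) (f f' : ℝ → P → P), (∀ z ∈ A, ∀ r ∈ Icc (0 : ℝ) 1, r • z ∈ A) → 0 < ε →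
    Metric.ball 0 ε ⊆ A → Continuous (fun q : ℝ × P => f q.1 q.2) →
    Continuous (fun q : ℝ × P => f' q.1 q.2) → (∀ s ∈ Icc 0 π, InjOn (f s) A ∧ InjOn (f' s) A) →
    (∀ z ∈ A, f 0 z = f' 0 z ∧ f π z = f' π z) →
    (∀ z ∈ A, ∀ z' ∈ A, z ≠ z' → Null (fun s => f s z - f s z') fun s => f' s z - f' s z') ∨
    ∀ z ∈ A, ∀ z' ∈ A, z ≠ z' → ¬Null (fun s => f s z - f s z') fun s => f' s z - f' s z') ∧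
  ∀ (A : Set P) (Φ : P → P) (a a' b : ℝ → P), (∀ z ∈ A, ∀ r ∈ Icc (0 : ℝ) 1, r • z ∈ A) →
    Continuous Φ → ContinuousOn a (Icc 0 π) → ContinuousOn a' (Icc 0 π) →
    ContinuousOn b (Icc 0 π) → (∀ s ∈ Icc 0 π, a s ∈ A ∧ a' s ∈ A ∧ b s ∉ Φ '' A) →
    a 0 = a' 0 → a π = a' π → Null (fun s => Φ (a s) - b s) fun s => Φ (a' s) - b s

def St_PAIR : Prop :=
  ∀ C τ η0 : ℝ, 0 < τ → τ ≤ 1 → 0 < η0 → ∃ l K κ1 : ℝ, 0 < l ∧ l ≤ τ ∧ l ≤ η0 ∧ 0 ≤ K ∧ 0 < κ1 ∧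
    ∀ κ X, κ ≤ κ1 → Full κ C X → ∀ z ∈ X.W, ∀ z' ∈ X.W, ∀ t ∈ Icc τ (π - τ), ∀ d : ℝ,
      |(X.g t z).1 - (X.g t z').1| ≤ d →
      |X.Y (X.g t z) - X.Y (X.g t z')| ≤ K * ((min ‖z‖ ‖z'‖ ^ 2 + d ^ 2) * d) ∨
      ((∀ s ∈ Icc 0 π, l ≤ |s - t| → d < |(X.g s z).1 - (X.g s z').1|) ∧
        ((X.g 0 z).1 - (X.g 0 z').1) * ((X.g π z).1 - (X.g π z').1) < 0 ∧
        X.Y (X.g t z) - X.Y (X.g t z') ≠ 0 ∧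
        ∀ s, |s - t| ≤ l → |X.Y (X.g s z) - X.Y (X.g s z') - (X.Y (X.g t z) - X.Y (X.g t z'))| ≤
          η0 * |X.Y (X.g t z) - X.Y (X.g t z')|)

def St_WL : Prop :=
  ∃ CW : ℝ, 0 ≤ CW ∧ ∀ κ C X, Full κ C X → ∀ η v, Adm X.M η v → Ends X η → ∀ a ∈ X.M,
    0 ≤ Ia X η v a ∧ 0 ≤ Ja X η a ∧
    (∀ τ, 0 < τ → τ ≤ π / 2 →
      ∫ s in τ..(π - τ), (e1 X v s a - cos s / sin s * d1 X η s a) ^ 2 ≤ Ia X η v a) ∧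
    ∀ s ∈ Icc 0 π, (‖X.Ψ a‖ ^ 2 + d1 X η s a ^ 2) * |d1 X η s a| ≤ CW * mm X η v a

def St_MONO : Prop :=
  ∀ C τ η0 : ℝ, 0 < τ → τ ≤ 1 → 0 < η0 → ∃ l K κ1 : ℝ, 0 < l ∧ l ≤ τ ∧ l ≤ η0 ∧ 0 ≤ K ∧ 0 < κ1 ∧
    ∀ κ X, κ ≤ κ1 → Full κ C X → ∀ η v, Adm X.M η v → Ends X η →
      (∀ t ∈ Icc τ (π - τ), Mono0 X η t (ee X η v η0 l K t)) ∨
      ∀ t ∈ Icc τ (π - τ), Anti0 X η t (ee X η v η0 l K t)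

def St_ENER : Prop :=
  ∀ C : ℝ, ∃ C' : ℝ, 0 ≤ C' ∧ ∀ κ X, Full κ C X → ∀ η v, Adm X.M η v → Ends X η →
    II X η v / 2 + κ / 20 * JJ X η + κ ^ 2 / 2 * E2 X v -
      C' * κ ^ 2 * (D2 X η + II X η v + JJ X η) ≤ act κ X.M v - act κ X.M X.vel

def St_EULL : Prop :=
  ∀ C θ Λ : ℝ, 0 < θ → ∃ CE : ℝ, 0 ≤ CE ∧ ∀ κ X, Full κ C X → ∀ η v, Adm X.M η v →
    ∀ t ∈ Ioo 0 π, (∀ a ∈ X.M, HasDerivAt (fun τ => η τ a) (v t a) t) →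
    ∀ (m B : ℝ) (e : P → ℝ), |m| ≤ Λ → Measurable e → (∀ a ∈ X.M, 0 ≤ e a ∧ e a ≤ B) →
      Mono0 X η t e →
      ∫ a in X.M, d2 X η t a ^ 2 ≤ θ * (∫ a in X.M, e2 X v t a ^ 2) +
        CE * ((∫ a in X.M, e a ^ 2) + (∫ a in X.M, (e1 X v t a - m * d1 X η t a) ^ 2) +
          ∫ a in X.M, ((‖X.Ψ a‖ ^ 2 + d1 X η t a ^ 2) * |d1 X η t a|) ^ 2)

def St_ANTI : Prop :=
  ∀ κ C X, Full κ C X → ∀ η v, Adm X.M η v → ∀ t ∈ Icc 0 π, ∀ (B : ℝ) (e : P → ℝ),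
    Measurable e → (∀ a ∈ X.M, 0 ≤ e a ∧ e a ≤ B) → Anti0 X η t e →
    1 / 10 ^ 8 ≤ (∫ a in X.M, d2 X η t a ^ 2) + ∫ a in X.M, e a ^ 2

def St_INT0 : Prop :=
  ∀ C θ : ℝ, 0 < θ → ∃ τ1 : ℝ, 0 < τ1 ∧ ∀ τ, 0 < τ → τ ≤ τ1 → ∃ η1 : ℝ, 0 < η1 ∧
    ∀ η0 l K : ℝ, 0 < η0 → η0 ≤ η1 → 0 < l → l ≤ τ → l ≤ η0 → 0 ≤ K → ∃ C' : ℝ, 0 ≤ C' ∧
      ∀ κ X, Full κ C X → ∀ η v, Adm X.M η v → Ends X η →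
        (∀ t ∈ Icc τ (π - τ), Mono0 X η t (ee X η v η0 l K t)) →
        D2 X η ≤ θ * E2 X v + C' * (II X η v + JJ X η)

def St_INT1 : Prop :=
  ∀ A : ℝ, 0 < A → ∃ τ1 : ℝ, 0 < τ1 ∧ ∀ τ, 0 < τ → τ ≤ τ1 → ∃ η1 : ℝ, 0 < η1 ∧
    ∀ η0 l K : ℝ, 0 < η0 → η0 ≤ η1 → 0 < l → l ≤ τ → l ≤ η0 → 0 ≤ K → ∃ ε : ℝ, 0 < ε ∧
      ∀ κ C X, Full κ C X → ∀ η v, Adm X.M η v → Ends X η → E2 X v ≤ A →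
        II X η v + JJ X η ≤ ε → ¬∀ t ∈ Icc τ (π - τ), Anti0 X η t (ee X η v η0 l K t)

def St_LOW : Prop :=
  ∀ C : ℝ, ∃ κ1 : ℝ, 0 < κ1 ∧ ∀ κ X, κ ≤ κ1 → Full κ C X → ∀ η v, Adm X.M η v → Ends X η →
    (∃ L, LipschitzOnWith L (η (π / 2)) X.M) → act κ X.M X.vel < act κ X.M v

def St_EMB : Prop :=
  ∀ s : ℝ, 2 < s → ∃ Bs : L2 →L[ℝ] (ℂ →ᵇ ℂ), (∀ g z, Bs g z = bessel s g z) ∧
    ∀ g, ∃ L, LipschitzWith L (bessel s g)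

def St_HS : Prop :=
  ∀ s : ℝ, 2 < s → s < 7 / 3 → ∀ (F : ℝ × ℝ × ℂ → ℂ) (R : ℝ), ContDiff ℝ ∞ F →
    (∀ l θ z, R ≤ ‖z‖ → F (l, θ, z) = 0) → ∃ g : ℝ → L2, ContDiff ℝ 1 g ∧
      ∀ θ ∈ Icc (-1 : ℝ) 1, ∀ z, bessel s (g θ) z =
        ∑' j : ℕ, (((2 : ℝ) ^ j)⁻¹ ^ 5) • F (((2 : ℝ) ^ j)⁻¹, θ, dilC (2 ^ j) z)

def St_LIFT : Prop :=
  ∀ s κ : ℝ, 2 < s → s < 7 / 3 → 0 < κ → ∀ M : Set P, IsCompact M →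
    (∀ (O : Set P) (f : ℝ → P → P), IsOpen O → M ⊆ O →
      ContDiffOn ℝ ∞ (fun q : ℝ × P => f q.1 q.2) (univ ×ˢ O) → Lift s κ M f) ∧
    (∀ (F : ℝ × ℝ × P → P) (R : ℝ), ContDiff ℝ ∞ F → (∀ l θ p, R ≤ ‖p‖ → F (l, θ, p) = 0) →
      Lift s κ M (ser F)) ∧
    (∀ f f' : ℝ → P → P, Lift s κ M f → Lift s κ M f' → Lift s κ M fun θ p => f θ p - f' θ p) ∧
    ∀ f f' : P → P, HsP s κ M f → HsP s κ M f' → HsP s κ M fun p => f p - f' p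

def St_TR1 : Prop :=
  ∀ (s κ : ℝ) (M : Set P) (φ : P → P) (γ : ℝ → ℂ → ℂ), 2 < s → 0 < κ → IsCompact M →
    IsCurve s (ι κ '' M) (cj κ φ) γ → ∃ η v : ℝ → P → P, Adm M η v ∧
      (∀ a ∈ M, η 0 a = a ∧ η π a = φ a) ∧
      energy (ι κ '' M) γ = ENNReal.ofReal (κ * π * act κ M v) ∧
      ∃ L, LipschitzOnWith L (η (π / 2)) M

def St_TR2 : Prop :=
  ∀ (s κ : ℝ) (M : Set P), 2 < s → 0 < κ → IsCompact M →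
    (∀ f, PDiff s κ M f → IsDiff s (ι κ '' M) (cj κ f)) ∧
    ∀ (φ : P → P) (α γ a c : ℝ → P → P) (r : ℝ), 0 < r → r < 1 → Lift s κ M α → Lift s κ M γ →
      (∀ t ∈ Icc (0 : ℝ) 1, PDiff s κ M (α t) ∧ PDiff s κ M (γ t)) →
      (∀ p ∈ M, α 0 p = p ∧ α 1 p = γ 0 p ∧ γ 1 p = φ p) →
      (∀ t ∈ Ioo (0 : ℝ) 1, ∀ p ∈ M, HasDerivAt (fun τ => α τ p) (a t p) t ∧
        HasDerivAt (fun τ => γ τ p) (c t p) t) →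
      ∃ Γ, IsCurve s (ι κ '' M) (cj κ φ) Γ ∧ energy (ι κ '' M) Γ ≤ ENNReal.ofReal κ *
        (ENNReal.ofReal (1 / (1 - r)) * En κ M a + ENNReal.ofReal (1 / r) * En κ M c)

def St_BETA : Prop :=
  ∀ κ C X T, Full κ C X → IsT X T → ∃ (ρ : P → ℝ) (F : ℝ × ℝ × P → P) (R : ℝ),
    ContDiff ℝ ∞ ρ ∧ (∀ᶠ p in 𝓝 (0 : P), ρ p = 1) ∧ ContDiff ℝ ∞ F ∧
    (∀ l θ p, R ≤ ‖p‖ → F (l, θ, p) = 0) ∧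
    ∀ θ p, ρ p • (X.eta (θ * (π - T (X.Ψ p))) p - p) = ser F θ p

def St_AL1 : Prop :=
  ∀ κ C X, Full κ C X → ∃ c0 CK l0 : ℝ, 0 < c0 ∧ 0 < l0 ∧
    ∀ l, 0 < l → l ≤ l0 → ∃ K, IsK X c0 CK l K

def St_ALPHA : Prop :=
  ∀ κ C X T, Full κ C X → IsT X T → ∃ Cα l0 : ℝ, 0 < l0 ∧ ∀ l, 0 < l → l ≤ l0 →
    ∃ α αi a : ℝ → P → P,
      ContDiffOn ℝ ∞ (fun q : ℝ × P => α q.1 q.2) (univ ×ˢ X.N) ∧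
      ContDiffOn ℝ ∞ (fun q : ℝ × P => αi q.1 q.2) (univ ×ˢ X.N) ∧
      (∀ t, MapsTo (α t) X.M X.M ∧ MapsTo (αi t) X.M X.M ∧ InvOn (αi t) (α t) X.M X.M ∧
        ∀ A ⊆ X.M, MeasurableSet A → volume (α t '' A) = volume A) ∧
      (∀ p ∈ X.M, α 0 p = p ∧ α 1 p = gam X T l 0 p) ∧
      ∀ t, ∀ p ∈ X.M, HasDerivAt (fun τ => α τ p) (a t p) t ∧ ‖a t p‖ ≤ Cα ∧
        (2 * l ^ 2 ≤ X.w (X.Ψ p) → a t p = π • X.vel (π * t) p)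

def St_GAM : Prop :=
  ∀ κ C X T (s l : ℝ), 2 < s → s < 7 / 3 → Full κ C X → IsT X T → 0 < l →
    Lift s κ X.M (gam X T l) ∧ (∀ θ ∈ Icc (0 : ℝ) 1, PDiff s κ X.M (gam X T l θ)) ∧
    ∀ θ, ∀ p ∈ X.M, HasDerivAt (fun τ => gam X T l τ p)
      (bb X T l p • X.vel (π - (1 - θ) * bb X T l p) p) θ

def St_DOM : Prop := ∀ κ C X, Full κ C X → IsDomain (ι κ '' X.M)

def St_UP : Prop :=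
  ∀ κ C X T (s : ℝ), 2 < s → s < 7 / 3 → Full κ C X → IsT X T →
    IsDiff s (ι κ '' X.M) (cj κ (X.eta π)) ∧ ∀ ε : ℝ, 0 < ε →
      ∃ Γ, IsCurve s (ι κ '' X.M) (cj κ (X.eta π)) Γ ∧
        energy (ι κ '' X.M) Γ ≤ ENNReal.ofReal (κ * π * act κ X.M X.vel + ε)

end Pool.Agent.Lib.MP_f62ea7_gt
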