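import Pool.Agent.Lib.MP_f62ea7_gt.Blue

set_option autoImplicit false

open MeasureTheory Set Filter Topology Real
open scoped ContDiff ENNReal

namespace Pool.Agent.Lib.MP_f62ea7_gt

/-! ### Sup norm on the plane -/

lemma abs_fst_le (z : P) : |z.1| ≤ ‖z‖ := norm_fst_le z
lemma abs_snd_le (z : P) : |z.2| ≤ ‖z‖ := norm_snd_le z
lemma norm_le_iff {z : P} {r : ℝ} : ‖z‖ ≤ r ↔ |z.1| ≤ r ∧ |z.2| ≤ r := norm_prod_le_iff
lemma norm_lt_iff {z : P} {r : ℝ} : ‖z‖ < r ↔ |z.1| < r ∧ |z.2| < r := by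
  rw [Prod.norm_def, max_lt_iff]; rfl
lemma norm_sq_le (z : P) : ‖z‖ ^ 2 ≤ z.1 ^ 2 + z.2 ^ 2 := by
  rw [Prod.norm_def]
  rcases le_total ‖z.1‖ ‖z.2‖ with h | h
  · rw [max_eq_right h, Real.norm_eq_abs, sq_abs]; nlinarith [sq_nonneg z.1]
  · rw [max_eq_left h, Real.norm_eq_abs, sq_abs]; nlinarith [sq_nonneg z.2]
lemma fst_sq_le (z : P) : z.1 ^ 2 ≤ ‖z‖ ^ 2 := by
  rw [← sq_abs]; exact pow_le_pow_left₀ (abs_nonneg _) (abs_fst_le z) 2
lemma snd_sq_le (z : P) : z.2 ^ 2 ≤ ‖z‖ ^ 2 := by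
  rw [← sq_abs]; exact pow_le_pow_left₀ (abs_nonneg _) (abs_snd_le z) 2
lemma mem_Box {p : P} : p ∈ Box ↔ ‖p‖ ≤ 2 := by simp [Box]
lemma Box_eq : Box = Itv ×ˢ Itv := by
  ext p; rw [mem_Box, norm_le_iff, abs_le, abs_le]; rfl
lemma vw_nonneg (p : P) : 0 ≤ vw p := by unfold vw; positivity
lemma continuous_vw : Continuous vw := by
  unfold vw
  exact (continuous_fst.pow 2).add (continuous_snd.abs.rpow_const fun _ => Or.inr (by norm_num))
lemma vw_le {p : P} (h : ‖p‖ ≤ 2) : vw p ≤ 6 := by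
  obtain ⟨h1, h2⟩ := norm_le_iff.1 h
  have a : p.1 ^ 2 ≤ 4 := by rw [← sq_abs]; nlinarith [abs_nonneg p.1]
  have b : |p.2| ^ (2 / 3 : ℝ) ≤ 2 := by
    calc |p.2| ^ (2 / 3 : ℝ) ≤ 2 ^ (2 / 3 : ℝ) := rpow_le_rpow (abs_nonneg _) h2 (by norm_num)
      _ ≤ 2 ^ (1 : ℝ) := rpow_le_rpow_of_exponent_le (by norm_num) (by norm_num)
      _ = 2 := rpow_one 2
  unfold vw; linarith

/-! ### Partial derivatives -/

lemma fderiv_apply_eq (f : P → ℝ) (z h : P) : fderiv ℝ f z h = h.1 * dx f z + h.2 * du f z := by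
  have : h = h.1 • ((1, 0) : P) + h.2 • ((0, 1) : P) := by ext <;> simp
  conv_lhs => rw [this]
  rw [map_add, map_smul, map_smul]; rfl

lemma hasDerivAt_comp {f : P → ℝ} {c : ℝ → P} {c' : P} {t : ℝ}
    (hf : DifferentiableAt ℝ f (c t)) (hc : HasDerivAt c c' t) :
    HasDerivAt (fun τ => f (c τ)) (c'.1 * dx f (c t) + c'.2 * du f (c t)) t := by
  rw [← fderiv_apply_eq]; exact hf.hasFDerivAt.comp_hasDerivAt t hc

lemma hasDerivAt_dx {f : P → ℝ} {x u : ℝ} (hf : DifferentiableAt ℝ f (x, u)) :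
    HasDerivAt (fun s => f (s, u)) (dx f (x, u)) x := by
  have := hasDerivAt_comp (c := fun s => (s, u)) (c' := (1, 0)) (t := x) hf
    ((hasDerivAt_id x).prodMk (hasDerivAt_const x u))
  simpa using this

lemma hasDerivAt_du {f : P → ℝ} {x u : ℝ} (hf : DifferentiableAt ℝ f (x, u)) :
    HasDerivAt (fun s => f (x, s)) (du f (x, u)) u := by
  have := hasDerivAt_comp (c := fun s => (x, s)) (c' := (0, 1)) (t := u) hf
    ((hasDerivAt_const u x).prodMk (hasDerivAt_id u))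
  simpa using this

lemma contDiff_dx {f : P → ℝ} (hf : ContDiff ℝ ∞ f) : ContDiff ℝ ∞ (dx f) :=
  (hf.fderiv_right (m := ∞) le_rfl).clm_apply contDiff_const

lemma contDiff_du {f : P → ℝ} (hf : ContDiff ℝ ∞ f) : ContDiff ℝ ∞ (du f) :=
  (hf.fderiv_right (m := ∞) le_rfl).clm_apply contDiff_const

lemma continuous_dx {f : P → ℝ} (hf : ContDiff ℝ 1 f) : Continuous (dx f) :=
  (hf.continuous_fderiv one_ne_zero).clm_apply continuous_const

lemma continuous_du {f : P → ℝ} (hf : ContDiff ℝ 1 f) : Continuous (du f) :=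
  (hf.continuous_fderiv one_ne_zero).clm_apply continuous_const

lemma norm_fderiv_le (f : P → ℝ) (z : P) : ‖fderiv ℝ f z‖ ≤ |dx f z| + |du f z| := by
  refine ContinuousLinearMap.opNorm_le_bound _ (by positivity) fun h => ?_
  rw [fderiv_apply_eq, Real.norm_eq_abs]
  refine (abs_add_le _ _).trans ?_
  rw [abs_mul, abs_mul]
  nlinarith [abs_fst_le h, abs_snd_le h, abs_nonneg (dx f z), abs_nonneg (du f z)]

/-- Mean value inequality on a closed box. -/
lemma abs_sub_le_of_bound {f : P → ℝ} {R L : ℝ} (hf : ∀ ζ : P, ‖ζ‖ ≤ R → DifferentiableAt ℝ f ζ)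
    (hL : ∀ ζ : P, ‖ζ‖ ≤ R → |dx f ζ| + |du f ζ| ≤ L) {z z' : P} (hz : ‖z‖ ≤ R) (hz' : ‖z'‖ ≤ R) :
    |f z - f z'| ≤ L * ‖z - z'‖ :=
  (convex_closedBall (0 : P) R).norm_image_sub_le_of_norm_fderiv_le
    (fun ζ h => hf ζ (by simpa using h))
    (fun ζ h => (norm_fderiv_le f ζ).trans (hL ζ (by simpa using h)))
    (by simpa using hz') (by simpa using hz)

/-! ### Implicit functions -/

/-- A continuous root of a smooth nondegenerate equation is smooth. -/
theorem ift {E : Type} [NormedAddCommGroup E] [NormedSpace ℝ E] [CompleteSpace E]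
    {f : E × ℝ → ℝ} {h : E → ℝ} {e0 : E} {f' : ℝ} (hf : ContDiffAt ℝ ∞ f (e0, h e0))
    (hd : HasDerivAt (fun u => f (e0, u)) f' (h e0)) (hne : f' ≠ 0) (hc : ContinuousAt h e0)
    (hz : ∀ᶠ e in 𝓝 e0, f (e, h e) = f (e0, h e0)) : ContDiffAt ℝ ∞ h e0 := by
  have hD := hf.differentiableAt (by simp)
  have h1 : HasDerivAt (fun u => f (e0, u)) (fderiv ℝ f (e0, h e0) (0, 1)) (h e0) :=
    hD.hasFDerivAt.comp_hasDerivAt (h e0) ((hasDerivAt_const _ e0).prodMk (hasDerivAt_id _))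
  have h2 : fderiv ℝ f (e0, h e0) (0, 1) = f' := h1.unique hd
  have hinv : (fderiv ℝ f (e0, h e0) ∘L .inr ℝ E ℝ).IsInvertible := by
    refine ⟨ContinuousLinearEquiv.unitsEquivAut ℝ (Units.mk0 f' hne), ?_⟩
    ext
    simp [h2]
  have h3 := hf.contDiffAt_implicitFunction (by simp) hinv
  refine h3.congr_of_eventuallyEq ?_
  have h4 := hf.eventually_apply_eq_iff_implicitFunction (by simp) hinv
  have h5 : Tendsto (fun e => (e, h e)) (𝓝 e0) (𝓝 (e0, h e0)) := continuousAt_id.prodMk hc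
  filter_upwards [h5.eventually h4, hz] with e he hz
  exact (he.1 hz).symm

/-- A root of a continuous equation that is strictly increasing in the unknown is continuous. -/
theorem mono_cont {E : Type} [TopologicalSpace E] {f : E → ℝ → ℝ} {h : E → ℝ} {e0 : E} {a b : ℝ}
    (hf : ∀ u ∈ Icc a b, ContinuousAt (fun e => f e u) e0)
    (hm : ∀ᶠ e in 𝓝 e0, MonotoneOn (f e) (Icc a b)) (hs : StrictMonoOn (f e0) (Icc a b))
    (hh : ∀ᶠ e in 𝓝 e0, h e ∈ Icc a b ∧ f e (h e) = 0) : ContinuousAt h e0 := by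
  obtain ⟨h0, z0⟩ := hh.self_of_nhds
  refine tendsto_order.2 ⟨fun l hl => ?_, fun l hl => ?_⟩
  · by_cases ha : l < a
    · filter_upwards [hh] with e he using ha.trans_le he.1.1
    · have hl' : l ∈ Icc a b := ⟨not_lt.1 ha, hl.le.trans h0.2⟩
      have : f e0 l < 0 := z0 ▸ hs hl' h0 hl
      filter_upwards [hh, hm, (hf l hl').eventually (gt_mem_nhds this)] with e he hm hlt
      by_contra hc
      have := hm he.1 hl' (not_lt.1 hc)
      linarith [he.2]
  · by_cases hb : b < l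
    · filter_upwards [hh] with e he using he.1.2.trans_lt hb
    · have hl' : l ∈ Icc a b := ⟨h0.1.trans hl.le, not_lt.1 hb⟩
      have : 0 < f e0 l := z0 ▸ hs h0 hl' hl
      filter_upwards [hh, hm, (hf l hl').eventually (lt_mem_nhds this)] with e he hm hlt
      by_contra hc
      have := hm hl' he.1 (not_lt.1 hc)
      linarith [he.2]

/-- A smooth cutoff: one on a compact set, with compact support in an open set. -/
theorem exists_cutoff {E : Type} [NormedAddCommGroup E] [NormedSpace ℝ E] [FiniteDimensional ℝ E]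
    {K O : Set E} (hK : IsCompact K) (hO : IsOpen O) (h : K ⊆ O) :
    ∃ χ : E → ℝ, ContDiff ℝ ∞ χ ∧ HasCompactSupport χ ∧ tsupport χ ⊆ O ∧
      (∀ x ∈ K, χ x = 1) ∧ ∀ x, χ x ∈ Icc (0 : ℝ) 1 := by
  obtain ⟨L, hL, hKL, hLO⟩ := exists_compact_between hK hO h
  obtain ⟨f, hf0, hf1, hf⟩ := exists_contMDiffMap_zero_one_of_isClosed (modelWithCornersSelf ℝ E)
    (n := ⊤) isOpen_interior.isClosed_compl hK.isClosed
    (disjoint_compl_left_iff_subset.2 hKL)
  have hs : tsupport f ⊆ L := by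
    refine closure_minimal (fun x hx => ?_) hL.isClosed
    by_contra hc
    exact hx (hf0 fun hi => hc (interior_subset hi))
  exact ⟨f, f.contMDiff.contDiff, hL.of_isClosed_subset (isClosed_tsupport _) hs,
    hs.trans hLO, fun x hx => hf1 hx, hf⟩

/-- A cutoff times a function smooth on an open set containing the support is smooth. -/
theorem contDiff_cutoff_smul {E F : Type} [NormedAddCommGroup E] [NormedSpace ℝ E]
    [NormedAddCommGroup F] [NormedSpace ℝ F] {χ : E → ℝ} {f : E → F} {O : Set E} (hO : IsOpen O)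
    (hχ : ContDiff ℝ ∞ χ) (hs : tsupport χ ⊆ O) (hf : ContDiffOn ℝ ∞ f O) :
    ContDiff ℝ ∞ fun x => χ x • f x := by
  refine contDiff_iff_contDiffAt.2 fun x => ?_
  by_cases hx : x ∈ O
  · exact hχ.contDiffAt.smul (hf.contDiffAt (hO.mem_nhds hx))
  · have : χ =ᶠ[𝓝 x] 0 := notMem_tsupport_iff_eventuallyEq.1 fun h => hx (hs h)
    refine (contDiffAt_const (c := (0 : F))).congr_of_eventuallyEq ?_
    filter_upwards [this] with y hy
    simp [hy]

/-! ### Measure preserving maps of a set -/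

theorem mp_of_image {α : Type} [MeasurableSpace α] {μ : Measure α} {M : Set α} {f : α → α}
    (hM : MeasurableSet M) (hf : Measurable f) (h1 : MapsTo f M M) (h2 : SurjOn f M M)
    (h3 : ∀ A ⊆ M, MeasurableSet A → μ (f '' A) = μ A) :
    MeasurePreserving f (μ.restrict M) (μ.restrict M) := by
  refine ⟨hf, Measure.ext fun B hB => ?_⟩
  rw [Measure.map_apply hf hB, Measure.restrict_apply (hf hB), Measure.restrict_apply hB,
    ← h3 _ inter_subset_right ((hf hB).inter hM)]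
  congr 1
  ext y
  constructor
  · rintro ⟨x, ⟨hx, hxM⟩, rfl⟩; exact ⟨hx, h1 hxM⟩
  · rintro ⟨hy, hyM⟩
    obtain ⟨x, hx, rfl⟩ := h2 hyM
    exact ⟨x, ⟨hy, hx⟩, rfl⟩

theorem mp_inv {α : Type} [MeasurableSpace α] {μ : Measure α} {M : Set α} {f ρ : α → α}
    (hM : MeasurableSet M) (hf : MeasurePreserving f (μ.restrict M) (μ.restrict M))
    (hρ : Measurable ρ) (hl : LeftInvOn ρ f M) :
    MeasurePreserving ρ (μ.restrict M) (μ.restrict M) := by
  refine ⟨hρ, ?_⟩
  conv_lhs => rw [← hf.map_eq]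
  rw [Measure.map_map hρ hf.measurable]
  conv_rhs => rw [← Measure.map_id (μ := μ.restrict M)]
  refine Measure.map_congr ?_
  filter_upwards [ae_restrict_mem hM] with x hx using hl hx

/-- change of variables for a measure preserving map and a measurable function -/
theorem integral_comp_mp {α : Type} [MeasurableSpace α] {μ : Measure α} {f : α → α}
    (hf : MeasurePreserving f μ μ) {h : α → ℝ} (hh : Measurable h) :
    ∫ a, h (f a) ∂μ = ∫ a, h a ∂μ := by
  have := integral_map (μ := μ) hf.measurable.aemeasurable (f := h)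
    (by rw [hf.map_eq]; exact hh.aestronglyMeasurable)
  rw [hf.map_eq] at this
  exact this.symm

end Pool.Agent.Lib.MP_f62ea7_gt
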