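import Pool.Agent.Lib.MP_f62ea7_gt.Basic2

set_option autoImplicit false

open MeasureTheory Set Filter Topology Real
open scoped ContDiff ENNReal

namespace Pool.Agent.Lib.MP_f62ea7_gt

namespace WL

/-- A Lipschitz function on `[0, π]` with derivative `e` off a finite set, zero at both ends. -/
structure Path (δ e : ℝ → ℝ) : Prop where
  cont : Continuous δ
  meas : Measurable e
  bdd : ∃ B, ∀ t ∈ Icc 0 π, |e t| ≤ B
  der : ∃ S : Finset ℝ, ∀ t ∈ Ioo 0 π, t ∉ S → HasDerivAt δ (e t) t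
  zero : δ 0 = 0
  pi : δ π = 0

/-- Cauchy-Schwarz on an interval of length at most four. -/
lemma cs {f : ℝ → ℝ} {a b m : ℝ} (hab : a ≤ b) (hl : b - a ≤ 4) (hm : 0 ≤ m)
    (h1 : IntervalIntegrable f volume a b) (h2 : IntervalIntegrable (fun t => f t ^ 2) volume a b)
    (h : ∫ t in a..b, f t ^ 2 ≤ m ^ 2) : ∫ t in a..b, f t ≤ 2 * m := by
  set c := (∫ t in a..b, f t) / 4 with hc
  have h0 : 0 ≤ ∫ t in a..b, (f t - c) ^ 2 :=
    intervalIntegral.integral_nonneg hab fun _ _ => sq_nonneg _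
  have h3 : ∫ t in a..b, (f t - c) ^ 2 = ∫ t in a..b, (f t ^ 2 - 2 * c * f t + c ^ 2) :=
    intervalIntegral.integral_congr fun t _ => by ring
  rw [h3, intervalIntegral.integral_add (h2.sub (h1.const_mul _)) intervalIntegrable_const,
    intervalIntegral.integral_sub h2 (h1.const_mul _), intervalIntegral.integral_const_mul,
    intervalIntegral.integral_const, smul_eq_mul] at h0
  have h4 : ∫ t in a..b, f t = 4 * c := by rw [hc]; ring
  rw [h4] at h0 ⊢
  have h5 : (4 * c) ^ 2 ≤ (2 * m) ^ 2 := by nlinarith [sq_nonneg c]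
  exact le_trans (le_abs_self _) (abs_le_of_sq_le_sq h5 (by positivity))

lemma sin_pos_of_mem {a b t : ℝ} (ha : a ∈ Ioo 0 π) (hb : b ∈ Ioo 0 π) (ht : t ∈ uIcc a b) :
    0 < sin t :=
  sin_pos_of_mem_Ioo (ordConnected_Ioo.uIcc_subset ha hb ht)

lemma contOn_cot {a b : ℝ} (ha : a ∈ Ioo 0 π) (hb : b ∈ Ioo 0 π) :
    ContinuousOn (fun t => cos t / sin t) (uIcc a b) :=
  continuous_cos.continuousOn.div continuous_sin.continuousOn
    fun _ ht => (sin_pos_of_mem ha hb ht).ne'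

namespace Path

variable {δ e : ℝ → ℝ} (h : Path δ e) {a b : ℝ}
include h

lemma ii_e (ha : a ∈ Icc 0 π) (hb : b ∈ Icc 0 π) : IntervalIntegrable e volume a b := by
  obtain ⟨B, hB⟩ := h.bdd
  exact intervalIntegrable_of_bdd h.meas.aestronglyMeasurable ha hb hB

lemma ii_e2 (ha : a ∈ Icc 0 π) (hb : b ∈ Icc 0 π) :
    IntervalIntegrable (fun t => e t ^ 2) volume a b := by
  obtain ⟨B, hB⟩ := h.bdd
  refine intervalIntegrable_of_bdd (h.meas.pow_const 2).aestronglyMeasurable (B := B ^ 2) ha hb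
    fun t ht => ?_
  rw [Real.norm_eq_abs, abs_pow]
  exact pow_le_pow_left₀ (abs_nonneg _) (hB t ht) 2

lemma ii_I (ha : a ∈ Icc 0 π) (hb : b ∈ Icc 0 π) :
    IntervalIntegrable (fun t => e t ^ 2 - δ t ^ 2) volume a b :=
  (h.ii_e2 ha hb).sub ((h.cont.pow 2).intervalIntegrable _ _)

lemma lip : ∃ B, 0 ≤ B ∧ ∀ a ∈ Icc 0 π, ∀ b ∈ Icc 0 π, |δ b - δ a| ≤ B * |b - a| := by
  obtain ⟨B, hB⟩ := h.bdd
  obtain ⟨S, hS⟩ := h.der
  refine ⟨|B|, abs_nonneg B, fun a ha b hb => ?_⟩
  rw [← ftc_off S ha hb h.cont.continuousOn (fun t ht _ hs => hS t ht hs) (h.ii_e ha hb)]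
  exact intervalIntegral.norm_integral_le_of_norm_le_const (f := e) fun t ht =>
    (hB t (uIcc_subset_Icc ha hb (uIoc_subset_uIcc ht))).trans (le_abs_self B)

lemma ii_f (ha : a ∈ Ioo 0 π) (hb : b ∈ Ioo 0 π) :
    IntervalIntegrable (fun t => e t - cos t / sin t * δ t) volume a b :=
  (h.ii_e (Ioo_subset_Icc_self ha) (Ioo_subset_Icc_self hb)).sub
    ((contOn_cot ha hb).mul h.cont.continuousOn).intervalIntegrable

lemma ii_f2 (ha : a ∈ Ioo 0 π) (hb : b ∈ Ioo 0 π) :
    IntervalIntegrable (fun t => (e t - cos t / sin t * δ t) ^ 2) volume a b := by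
  have c := (contOn_cot ha hb).mul h.cont.continuousOn
  have a1 := ((h.ii_e2 (Ioo_subset_Icc_self ha) (Ioo_subset_Icc_self hb)).sub
    (((h.ii_e (Ioo_subset_Icc_self ha) (Ioo_subset_Icc_self hb)).mul_continuousOn c).const_mul
      2)).add (c.pow 2).intervalIntegrable
  convert a1 using 2 with t
  simp only [Pi.mul_apply, Pi.pow_apply]
  ring

/-- The identity behind the Wirtinger inequality. -/
lemma ident (ha : a ∈ Ioo 0 π) (hb : b ∈ Ioo 0 π) :
    ∫ t in a..b, (e t - cos t / sin t * δ t) ^ 2 = (∫ t in a..b, (e t ^ 2 - δ t ^ 2)) -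
      (δ b ^ 2 * (cos b / sin b) - δ a ^ 2 * (cos a / sin a)) := by
  obtain ⟨S, hS⟩ := h.der
  have ha' := Ioo_subset_Icc_self ha
  have hb' := Ioo_subset_Icc_self hb
  have a1 := ftc_off (f := fun t => δ t ^ 2 * (cos t / sin t))
    (f' := fun t => e t ^ 2 - δ t ^ 2 - (e t - cos t / sin t * δ t) ^ 2) S ha' hb'
    ((h.cont.pow 2).continuousOn.mul (contOn_cot ha hb)) (fun t ht _ hs => by
      have hs0 : sin t ≠ 0 := (sin_pos_of_mem_Ioo ht).ne'
      have := ((hS t ht hs).pow 2).mul ((hasDerivAt_cos t).div (hasDerivAt_sin t) hs0)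
      refine this.congr_deriv ?_
      simp only [Pi.pow_apply, Pi.div_apply]
      field_simp
      norm_num
      ring) ((h.ii_I ha' hb').sub (h.ii_f2 ha hb))
  rw [intervalIntegral.integral_sub (h.ii_I ha' hb') (h.ii_f2 ha hb)] at a1
  linarith

/-- The Wirtinger inequality with remainder. -/
lemma wirt (ha : a ∈ Ioo 0 π) (hb : b ∈ Ioo 0 π) (hab : a ≤ b) :
    ∫ t in a..b, (e t - cos t / sin t * δ t) ^ 2 ≤ ∫ t in (0 : ℝ)..π, (e t ^ 2 - δ t ^ 2) := by
  obtain ⟨L, hL0, hL⟩ := h.lip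
  obtain ⟨B, hB⟩ := h.bdd
  have hδ : ∀ t ∈ Icc 0 π, |δ t| ≤ L * 4 := fun t ht => by
    have := hL 0 zero_mem_Icc t ht
    rw [h.zero, sub_zero, sub_zero, abs_of_nonneg ht.1] at this
    exact this.trans (mul_le_mul_of_nonneg_left (ht.2.trans pi_le_four) hL0)
  set K := B ^ 2 + (L * 4) ^ 2 with hK
  have hK0 : 0 ≤ K := by positivity
  have hI : ∀ t ∈ Icc 0 π, ‖e t ^ 2 - δ t ^ 2‖ ≤ K := fun t ht => by
    have a1 := pow_le_pow_left₀ (abs_nonneg _) (hB t ht) 2
    have a2 := pow_le_pow_left₀ (abs_nonneg _) (hδ t ht) 2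
    rw [sq_abs] at a1 a2
    rw [Real.norm_eq_abs, abs_le]
    constructor <;> nlinarith [sq_nonneg (e t), sq_nonneg (δ t), sq_nonneg B, sq_nonneg (L * 4)]
  have key : ∀ α : ℝ, 0 < α → α ≤ a → α ≤ π - b → ∫ t in a..b, (e t - cos t / sin t * δ t) ^ 2 ≤
      (∫ t in (0 : ℝ)..π, (e t ^ 2 - δ t ^ 2)) + (2 * K + 4 * L ^ 2) * α := by
    intro α h0 h1 h2
    have m1 : α ∈ Ioo 0 π := ⟨h0, by linarith [ha.2]⟩
    have m2 : π - α ∈ Ioo 0 π := ⟨by linarith [ha.2], by linarith⟩
    have m1' := Ioo_subset_Icc_self m1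
    have m2' := Ioo_subset_Icc_self m2
    have b1 := intervalIntegral.integral_mono_interval (μ := volume) h1 hab (by linarith)
      (Eventually.of_forall fun t => sq_nonneg (e t - cos t / sin t * δ t)) (h.ii_f2 m1 m2)
    rw [h.ident m1 m2, sin_pi_sub, cos_pi_sub] at b1
    have b2 := intervalIntegral.integral_add_adjacent_intervals (h.ii_I zero_mem_Icc m1')
      (h.ii_I m1' m2')
    have b3 := intervalIntegral.integral_add_adjacent_intervals (h.ii_I zero_mem_Icc m2')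
      (h.ii_I m2' pi_mem_Icc)
    have b4 := intervalIntegral.norm_integral_le_of_norm_le_const (a := 0) (b := α) (C := K)
      (f := fun t => e t ^ 2 - δ t ^ 2) fun t ht =>
        hI t (uIcc_subset_Icc zero_mem_Icc m1' (uIoc_subset_uIcc ht))
    have b5 := intervalIntegral.norm_integral_le_of_norm_le_const (a := π - α) (b := π) (C := K)
      (f := fun t => e t ^ 2 - δ t ^ 2) fun t ht =>
        hI t (uIcc_subset_Icc m2' pi_mem_Icc (uIoc_subset_uIcc ht))
    rw [sub_zero, abs_of_pos h0, Real.norm_eq_abs, abs_le] at b4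
    rw [sub_sub_cancel, abs_of_pos h0, Real.norm_eq_abs, abs_le] at b5
    have c1 := hL 0 zero_mem_Icc α m1'
    have c2 := hL π pi_mem_Icc (π - α) m2'
    rw [h.zero, sub_zero, sub_zero, abs_of_pos h0] at c1
    rw [h.pi, sub_zero, sub_sub_cancel_left, abs_neg, abs_of_pos h0] at c2
    have c3 := pow_le_pow_left₀ (abs_nonneg _) c1 2
    have c4 := pow_le_pow_left₀ (abs_nonneg _) c2 2
    rw [sq_abs] at c3 c4
    have hα : α ≤ π / 2 := by linarith
    have s0 := sin_pos_of_mem_Ioo m1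
    have s1 : α ≤ 2 * sin α := by
      have := mul_le_sin h0.le hα
      have h4 : 1 / 2 ≤ 2 / π := by
        rw [div_le_div_iff₀ (by norm_num) pi_pos]; linarith [pi_le_four]
      nlinarith
    have s2 : 0 ≤ cos α / sin α :=
      div_nonneg (cos_nonneg_of_mem_Icc ⟨by linarith [pi_pos], hα⟩) s0.le
    have s3 : α * (cos α / sin α) ≤ 2 := by
      rw [← mul_div_assoc, div_le_iff₀ s0]
      nlinarith [cos_le_one α]
    have d1 : δ α ^ 2 * (cos α / sin α) ≤ 2 * L ^ 2 * α := by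
      calc δ α ^ 2 * (cos α / sin α) ≤ (L * α) ^ 2 * (cos α / sin α) :=
            mul_le_mul_of_nonneg_right c3 s2
        _ = L ^ 2 * α * (α * (cos α / sin α)) := by ring
        _ ≤ L ^ 2 * α * 2 := mul_le_mul_of_nonneg_left s3 (by positivity)
        _ = _ := by ring
    have d2 : δ (π - α) ^ 2 * (cos α / sin α) ≤ 2 * L ^ 2 * α := by
      calc δ (π - α) ^ 2 * (cos α / sin α) ≤ (L * α) ^ 2 * (cos α / sin α) :=
            mul_le_mul_of_nonneg_right c4 s2
        _ = L ^ 2 * α * (α * (cos α / sin α)) := by ring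
        _ ≤ L ^ 2 * α * 2 := mul_le_mul_of_nonneg_left s3 (by positivity)
        _ = _ := by ring
    rw [neg_div, mul_neg] at b1
    linarith [b4.1, b5.1]
  have t1 : Tendsto (fun α : ℝ => (∫ t in (0 : ℝ)..π, (e t ^ 2 - δ t ^ 2)) +
      (2 * K + 4 * L ^ 2) * α) (𝓝[>] 0) (𝓝 ((∫ t in (0 : ℝ)..π, (e t ^ 2 - δ t ^ 2)) +
      (2 * K + 4 * L ^ 2) * 0)) :=
    ((continuous_const.add (continuous_const.mul continuous_id)).tendsto 0).mono_left
      nhdsWithin_le_nhds
  rw [mul_zero, add_zero] at t1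
  refine ge_of_tendsto t1 ?_
  filter_upwards [Ioo_mem_nhdsGT (lt_min ha.1 (sub_pos.2 hb.2))] with α hα
  exact key α hα.1 (hα.2.le.trans (min_le_left _ _)) (hα.2.le.trans (min_le_right _ _))

lemma I_nonneg : 0 ≤ ∫ t in (0 : ℝ)..π, (e t ^ 2 - δ t ^ 2) := by
  have m : π / 2 ∈ Ioo 0 π := ⟨by linarith [pi_pos], by linarith [pi_pos]⟩
  simpa using h.wirt m m le_rfl

/-- The values of `δ` are controlled by a value in the middle and the Wirtinger defect. -/
lemma point {m s t : ℝ} (hm : 0 ≤ m) (hI : ∫ t in (0 : ℝ)..π, (e t ^ 2 - δ t ^ 2) ≤ m ^ 2)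
    (hs : s ∈ Icc 0 π) (ht : t ∈ Icc (π / 4) (3 * π / 4)) : |δ s| ≤ 2 * |δ t| + 4 * m := by
  by_cases h0 : s = 0
  · rw [h0, h.zero, abs_zero]; positivity
  by_cases h1 : s = π
  · rw [h1, h.pi, abs_zero]; positivity
  have ms : s ∈ Ioo 0 π := ⟨lt_of_le_of_ne hs.1 (Ne.symm h0), lt_of_le_of_ne hs.2 h1⟩
  have mt : t ∈ Ioo 0 π := ⟨by linarith [pi_pos, ht.1], by linarith [pi_pos, ht.2]⟩
  have cc := strictConcaveOn_sin_Icc.concaveOn
  have st : 1 / 2 ≤ sin t := by
    have := cc.min_le_of_mem_Icc (x := π / 4) (y := 3 * π / 4)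
      ⟨by linarith [pi_pos], by linarith [pi_pos]⟩ ⟨by linarith [pi_pos], by linarith [pi_pos]⟩ ht
    rw [show 3 * π / 4 = π - π / 4 by ring, sin_pi_sub, min_self, sin_pi_div_four] at this
    have h2 : 1 ≤ √2 := by rw [one_le_sqrt]; norm_num
    linarith
  have ss := sin_pos_of_mem_Ioo ms
  have su : ∀ u ∈ uIcc t s, sin s ≤ 2 * sin u := fun u hu => by
    have := cc.ge_on_segment (Ioo_subset_Icc_self mt) hs (segment_eq_uIcc t s ▸ hu)
    rcases min_le_iff.1 this with h2 | h2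
    · linarith [sin_le_one s]
    · linarith
  obtain ⟨S, hS⟩ := h.der
  have cs' : ContinuousOn (fun u => sin s / sin u) (uIcc t s) :=
    continuousOn_const.div continuous_sin.continuousOn fun _ hu => (sin_pos_of_mem mt ms hu).ne'
  have i1 := (h.ii_f mt ms).continuousOn_mul cs'
  have a1 := ftc_off (f := fun u => sin s / sin u * δ u)
    (f' := fun u => sin s / sin u * (e u - cos u / sin u * δ u)) S (Ioo_subset_Icc_self mt) hs
    (cs'.mul h.cont.continuousOn) (fun u hu _ hs => by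
      have hs0 : sin u ≠ 0 := (sin_pos_of_mem_Ioo hu).ne'
      have := ((hasDerivAt_const u (sin s)).div (hasDerivAt_sin u) hs0).mul (hS u hu hs)
      refine this.congr_deriv ?_
      simp only [Pi.div_apply]
      field_simp
      ring) i1
  rw [div_self ss.ne', one_mul] at a1
  have q : ∀ u ∈ uIcc t s, |sin s / sin u| ≤ 2 := fun u hu => by
    have := sin_pos_of_mem mt ms hu
    rw [abs_of_pos (div_pos ss this), div_le_iff₀ this]
    exact su u hu
  have key : ∀ a b : ℝ, a ∈ Ioo 0 π → b ∈ Ioo 0 π → a ≤ b → uIcc a b = uIcc t s →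
      |∫ u in a..b, sin s / sin u * (e u - cos u / sin u * δ u)| ≤ 4 * m := by
    intro a b ha hb hab he
    have j1 := (h.ii_f ha hb).abs
    have j2 := cs hab (by linarith [ha.1, hb.2, pi_le_four]) hm j1
      (by simpa only [sq_abs] using h.ii_f2 ha hb)
      (by simpa only [sq_abs] using (h.wirt ha hb hab).trans hI)
    have j3 := intervalIntegral.norm_integral_le_of_norm_le (μ := volume) hab
      (f := fun u => sin s / sin u * (e u - cos u / sin u * δ u))
      (g := fun u => 2 * |e u - cos u / sin u * δ u|) (Eventually.of_forall fun u hu => by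
        rw [Real.norm_eq_abs, abs_mul]
        exact mul_le_mul_of_nonneg_right (q u (he ▸ Icc_subset_uIcc (Ioc_subset_Icc_self hu)))
          (abs_nonneg _)) (j1.const_mul 2)
    rw [intervalIntegral.integral_const_mul, Real.norm_eq_abs] at j3
    linarith
  have a2 : |∫ u in t..s, sin s / sin u * (e u - cos u / sin u * δ u)| ≤ 4 * m := by
    rcases le_total t s with h2 | h2
    · exact key t s mt ms h2 rfl
    · rw [intervalIntegral.integral_symm, abs_neg]
      exact key s t ms mt h2 (uIcc_comm _ _)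
  have a3 : |sin s / sin t * δ t| ≤ 2 * |δ t| := by
    rw [abs_mul]
    exact mul_le_mul_of_nonneg_right (q t left_mem_uIcc) (abs_nonneg _)
  rw [a1] at a2
  linarith [abs_sub_abs_le_abs_sub (δ s) (sin s / sin t * δ t)]

/-- The weighted cubic bound. -/
lemma cubic {x : ℝ → ℝ} (hx : Continuous x) (hx2 : ∀ t ∈ Icc 0 π, |x t| ≤ 2)
    (hδ : ∀ t ∈ Icc 0 π, |δ t| ≤ 4) {N m s : ℝ}
    (hN : N ≤ 10 * ∫ t in (π / 4)..(3 * π / 4), x t ^ 2) (hm : 0 ≤ m)
    (hI : ∫ t in (0 : ℝ)..π, (e t ^ 2 - δ t ^ 2) ≤ m ^ 2)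
    (hJ : ∫ t in (0 : ℝ)..π, (x t ^ 4 * δ t ^ 2 + δ t ^ 6) ≤ m ^ 2) (hs : s ∈ Icc 0 π) :
    (N + δ s ^ 2) * |δ s| ≤ 1500 * m := by
  have hc := h.cont
  have hab : π / 4 ≤ 3 * π / 4 := by linarith [pi_pos]
  have pw : ∀ t ∈ Icc (π / 4) (3 * π / 4), 10 * |δ s| * x t ^ 2 + |δ s| ^ 3 ≤
      64 * (x t ^ 2 * |δ t| + |δ t| ^ 3) + 300 * m := by
    intro t ht
    have a1 := h.point hm hI hs ht
    have a2 := hδ s hs
    have a3 : x t ^ 2 ≤ 4 := by
      have := pow_le_pow_left₀ (abs_nonneg _)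
        (hx2 t ⟨by linarith [pi_pos, ht.1], by linarith [pi_pos, ht.2]⟩) 2
      rw [sq_abs] at this
      linarith
    have p0 := abs_nonneg (δ s)
    have p1 := abs_nonneg (δ t)
    have p2 := sq_nonneg (x t)
    have b1 : |δ s| * x t ^ 2 ≤ 2 * (x t ^ 2 * |δ t|) + 16 * m := by
      nlinarith [mul_le_mul_of_nonneg_right a1 p2, mul_le_mul_of_nonneg_left a3 hm]
    have b2 : |δ s| ^ 3 ≤ 64 * |δ t| ^ 3 + 128 * m := by
      rcases le_total |δ s| (8 * m) with h1 | h1
      · have : |δ s| ^ 2 ≤ 4 ^ 2 := pow_le_pow_left₀ p0 a2 2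
        have : 0 ≤ |δ t| ^ 3 := by positivity
        nlinarith
      · have : |δ s| ^ 3 ≤ (4 * |δ t|) ^ 3 := pow_le_pow_left₀ p0 (by linarith) 3
        nlinarith
    nlinarith [mul_nonneg p2 p1]
  have c1 : Continuous fun t => x t ^ 2 * |δ t| + |δ t| ^ 3 := by fun_prop
  have i1 := intervalIntegral.integral_mono_on (μ := volume) hab
    (Continuous.intervalIntegrable (by fun_prop) _ _)
    (Continuous.intervalIntegrable (by fun_prop) _ _) pw
  rw [intervalIntegral.integral_add (Continuous.intervalIntegrable (by fun_prop) _ _)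
    intervalIntegrable_const, intervalIntegral.integral_add
    (Continuous.intervalIntegrable (by fun_prop) _ _) intervalIntegrable_const,
    intervalIntegral.integral_const_mul, intervalIntegral.integral_const_mul,
    intervalIntegral.integral_const, intervalIntegral.integral_const, smul_eq_mul,
    smul_eq_mul] at i1
  have i2 : ∫ t in (π / 4)..(3 * π / 4), (x t ^ 2 * |δ t| + |δ t| ^ 3) ≤ 2 * (2 * m) := by
    refine cs hab (by linarith [pi_le_four]) (by positivity) (c1.intervalIntegrable _ _)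
      ((c1.pow 2).intervalIntegrable _ _) ?_
    have j1 := intervalIntegral.integral_mono_on (μ := volume) hab
      (f := fun t => (x t ^ 2 * |δ t| + |δ t| ^ 3) ^ 2)
      (g := fun t => 2 * (x t ^ 4 * δ t ^ 2 + δ t ^ 6)) ((c1.pow 2).intervalIntegrable _ _)
      (Continuous.intervalIntegrable (by fun_prop) _ _) fun t _ => by
        have e2 : δ t ^ 2 = |δ t| ^ 2 := (sq_abs _).symm
        have e6 : δ t ^ 6 = |δ t| ^ 6 := (Even.pow_abs (by decide) _).symm
        rw [e2, e6]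
        nlinarith [sq_nonneg (x t ^ 2 * |δ t| - |δ t| ^ 3)]
    have j2 := intervalIntegral.integral_mono_interval (μ := volume)
      (f := fun t => x t ^ 4 * δ t ^ 2 + δ t ^ 6) (c := 0) (d := π) (by linarith [pi_pos]) hab
      (by linarith [pi_pos]) (Eventually.of_forall fun t => by positivity)
      (Continuous.intervalIntegrable (by fun_prop) _ _)
    rw [intervalIntegral.integral_const_mul] at j1
    nlinarith [sq_nonneg m]
  have p0 := abs_nonneg (δ s)
  have p3 : 0 ≤ |δ s| ^ 3 := by positivity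
  have l1 : 1 ≤ 3 * π / 4 - π / 4 := by linarith [two_le_pi]
  have l2 : 3 * π / 4 - π / 4 ≤ 2 := by linarith [pi_le_four]
  rw [← sq_abs (δ s)]
  nlinarith [mul_le_mul_of_nonneg_left hN p0, mul_le_mul_of_nonneg_right l1 p3,
    mul_le_mul_of_nonneg_right l2 hm]

end Path

end WL

theorem blk_WL : St_WL := by
  refine ⟨1500, by norm_num, fun κ C X h η v hη he a ha => ?_⟩
  have hP : WL.Path (fun t => d1 X η t a) fun t => e1 X v t a := by
    obtain ⟨B, hB⟩ := (h.nice_e1 hη).2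
    obtain ⟨S, hS⟩ := hη.der
    exact ⟨h.continuous_d1_time hη a, (h.nice_e1 hη).measurable_time a,
      ⟨B, fun t ht => hB t ht a ha⟩, ⟨S, fun t ht hs => (h.d_der ha (hS t ht hs a ha)).1⟩,
      (h.d_ends he ha).1, (h.d_ends he ha).2.1⟩
  have hI : 0 ≤ Ia X η v a := hP.I_nonneg
  have hJ : 0 ≤ Ja X η a := intervalIntegral.integral_nonneg pi_pos.le fun t _ => by positivity
  have hm : mm X η v a ^ 2 = Ia X η v a + Ja X η a := sq_sqrt (add_nonneg hI hJ)
  refine ⟨hI, hJ, fun τ h0 h1 => hP.wirt ⟨h0, by linarith [pi_pos]⟩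
    ⟨by linarith [pi_pos], by linarith⟩ (by linarith), fun s hs => ?_⟩
  exact hP.cubic (x := fun t => (X.eta t a).1) (h.adm.continuous_time a).fst
    (fun t _ => (abs_fst_le _).trans (h.eta_M a ha t).1) (fun t ht => (h.d_le hη ht ha).1)
    (h.xsq _ (h.M_W ha)) (Full.mm_nonneg X η v a) (hm ▸ le_add_of_nonneg_right hJ)
    (hm ▸ le_add_of_nonneg_left hI) hs

end Pool.Agent.Lib.MP_f62ea7_gt
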