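import Pool.Agent.Lib.MP_f62ea7_gt.A2

/-! Block A: the Cauchy problem is solved by majorants. -/

set_option autoImplicit false

namespace Pool.Agent.Lib.MP_f62ea7_gt

namespace A

open MvPowerSeries Filter
open scoped ContDiff

section defs
variable (κ : ℝ) (Θ Ξ : S)

noncomputable def a0 : S := C (1 / 2) * X 0 ^ 2 - C κ * X 0 ^ 6
noncomputable def a1 : S := X 0 - C (6 * κ) * X 0 ^ 5
noncomputable def a2 : S := 1 - C (30 * κ) * X 0 ^ 4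
noncomputable def sw : S := a0 κ + iU (X 1 * Θ)
noncomputable def swx : S := a1 κ + T (X 1 * Θ)
noncomputable def sN : S := sw κ Θ * Θ
noncomputable def sY : S := iU (sN κ Θ)
noncomputable def sV : S := -(a0 κ * a1 κ) + iU (T (sN κ Θ))
noncomputable def sVx : S := -(a1 κ ^ 2 + a0 κ * a2 κ) + T (T (sN κ Θ))
noncomputable def sR : S := T (sN κ Θ) ^ 2 - sN κ Θ * sVx κ Θ
noncomputable def sF : S := 1 + C (κ ^ 2) * sR κ Θ
noncomputable def sG : S := swx κ Θ * Ξ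
noncomputable def sB : S := -(X 1 * sVx κ Θ - T (sN κ Θ) * sG κ Θ Ξ)
noncomputable def w1 : S := C κ * iU (X 1 * sR κ Θ) - X 0 ^ 6
noncomputable def wx1 : S := C κ * T (X 1 * sR κ Θ) - C 6 * X 0 ^ 5
noncomputable def N1 : S := w1 κ Θ + C κ * (sw κ Θ * sR κ Θ)
noncomputable def V1 : S := C 4 * X 0 ^ 7 - C (6 * κ) * X 0 ^ 11 + iU (T (N1 κ Θ))
noncomputable def G1 : S := (T (X 1 * sR κ Θ) - a1 κ * sR κ Θ) * Ξ

lemma half : (C (1 / 2 : ℝ) : S) * 2 = 1 := by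
  rw [← map_ofNat (C : ℝ →+* S) 2, ← map_mul]; norm_num

lemma sixth : (C (1 / 6 : ℝ) : S) * 3 = C (1 / 2 : ℝ) := by
  rw [← map_ofNat (C : ℝ →+* S) 3, ← map_mul]; norm_num

lemma p00 : pd 0 (X 0) = 1 := pderiv_X_self
lemma p11 : pd 1 (X 1) = 1 := pderiv_X_self
lemma p01 : pd 0 (X 1) = 0 := pderiv_X_of_ne one_ne_zero
lemma p10 : pd 1 (X 0) = 0 := pderiv_X_of_ne zero_ne_one

lemma dx_a0 : pd 0 (a0 κ) = a1 κ := by
  simp only [a0, a1, map_sub, pd_C, pderiv_pow, p00, map_mul, map_ofNat]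
  push_cast
  linear_combination X 0 * half

lemma dx_a1 : pd 0 (a1 κ) = a2 κ := by
  rw [a1, a2, map_sub, pd_C, pderiv_pow, p00]
  simp only [map_mul, map_ofNat]
  push_cast
  ring

lemma du_a0 : pd 1 (a0 κ) = 0 := by
  simp only [a0, map_sub, pd_C, pderiv_pow, p10, mul_zero, sub_zero]

lemma du_a1 : pd 1 (a1 κ) = 0 := by
  simp only [a1, map_sub, pd_C, pderiv_pow, p10, mul_zero, sub_zero]

lemma du_w : pd 1 (sw κ Θ) = X 1 * Θ := by rw [sw, map_add, du_a0, du_iU, zero_add]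

lemma dx_w : pd 0 (sw κ Θ) = swx κ Θ := by rw [sw, map_add, dx_a0, swx, T_def]

lemma du_Y : pd 1 (sY κ Θ) = sw κ Θ * Θ := du_iU _

lemma dx_Y : pd 0 (sY κ Θ) = T (sN κ Θ) := rfl

lemma du_V : pd 1 (sV κ Θ) = T (sN κ Θ) := by
  rw [sV, map_add, map_neg, pd_mul, du_a0, du_a1, du_iU]; ring

lemma dx_V : pd 0 (sV κ Θ) = sVx κ Θ := by
  rw [sV, map_add, map_neg, pd_mul, dx_a0, dx_a1, ← T_def, sVx]; ring

lemma V_id : X 1 * T (sN κ Θ) - sV κ Θ = sw κ Θ * swx κ Θ := by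
  refine sub_eq_zero.1 (eq_zero_of ?_ ?_)
  · have : X 1 * T (sN κ Θ) - sV κ Θ - sw κ Θ * swx κ Θ = X 1 * T (sN κ Θ) - iU (T (sN κ Θ)) -
        (iU (X 1 * Θ) * a1 κ + T (X 1 * Θ) * sw κ Θ) := by
      rw [sV, swx, sw]; ring
    rw [this]
    exact dvd_sub (dvd_sub (dvd_mul_right _ _) (dvd_iU _))
      (dvd_add ((dvd_iU _).mul_right _) ((dvd_T _).mul_right _))
  · have e : pd 1 (swx κ Θ) = X 1 * pd 0 Θ := by
      rw [swx, map_add, du_a1, du_T, pd_mul, p01]; ring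
    rw [map_sub, map_sub, pd_mul, pd_mul, du_V, du_T, p11, e, du_w, sN, pd_mul, dx_w]; ring

lemma iU_u : iU (X 1) = C (1 / 2) * X 1 ^ 2 :=
  iU_eq (Dvd.intro (C (1 / 2) * X 1) (by ring)) (by
    rw [pd_C, pderiv_pow, p11]
    push_cast
    linear_combination X 1 * half)

lemma T_u : T (X 1) = 0 := by rw [T_def, iU_u, pd_C, pderiv_pow, p01, mul_zero, mul_zero]

lemma iU_r : iU (C (1 / 2) * (X 0 ^ 2 + X 1 ^ 2)) = C (1 / 2) * (X 0 ^ 2 * X 1) + C (1 / 6) * X 1 ^ 3 :=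
  iU_eq (Dvd.intro (C (1 / 2) * X 0 ^ 2 + C (1 / 6) * X 1 ^ 2) (by ring)) (by
    rw [map_add, pd_C, pd_C, pd_mul, pderiv_pow, pderiv_pow, p11, p10]
    push_cast
    linear_combination X 1 ^ 2 * sixth)

lemma T_r : T (C (1 / 2) * (X 0 ^ 2 + X 1 ^ 2)) = X 0 * X 1 := by
  rw [T_def, iU_r, map_add, pd_C, pd_C, pd_mul, pderiv_pow, pderiv_pow, p00, p01]
  push_cast
  linear_combination X 0 * X 1 * half

lemma iU_xu : iU (X 0 * X 1) = C (1 / 2) * (X 0 * X 1 ^ 2) :=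
  iU_eq (Dvd.intro (C (1 / 2) * X 0 * X 1) (by ring)) (by
    rw [pd_C, pd_mul, pderiv_pow, p11, p10]
    push_cast
    linear_combination X 0 * X 1 * half)

lemma rf_a0 : rf (a0 κ) = a0 κ := by
  simp only [a0, map_sub, map_mul, map_pow, rf_C, rf_X]; ring

lemma rf_a1 : rf (a1 κ) = -a1 κ := by
  rw [a1, map_sub, map_mul, map_pow, rf_C, rf_X]; ring

lemma rf_a2 : rf (a2 κ) = a2 κ := by
  rw [a2, map_sub, map_mul, map_pow, rf_C, rf_X, map_one]; ring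

lemma rf_w : rf (sw κ Θ) = sw κ (rf Θ) := by
  rw [sw, map_add, rf_a0, rf_iU, map_mul, rf_X, neg_mul, map_neg, neg_neg, sw]

lemma rf_wx : rf (swx κ Θ) = -swx κ (rf Θ) := by
  rw [swx, map_add, rf_a1, rf_T, map_mul, rf_X, neg_mul, map_neg, swx, neg_add]

lemma rf_N : rf (sN κ Θ) = sN κ (rf Θ) := by rw [sN, map_mul, rf_w, sN]

lemma rf_Y : rf (sY κ Θ) = -sY κ (rf Θ) := by rw [sY, rf_iU, rf_N, sY]

lemma rf_V : rf (sV κ Θ) = -sV κ (rf Θ) := by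
  rw [sV, map_add, map_neg, map_mul, rf_a0, rf_a1, rf_iU, rf_T, rf_N, sV]; ring

lemma rf_Vx : rf (sVx κ Θ) = sVx κ (rf Θ) := by
  rw [sVx, map_add, map_neg, map_add, map_mul, map_pow, rf_a0, rf_a1, rf_a2, rf_T, rf_T, rf_N, sVx]; ring

lemma rf_F : rf (sF κ Θ) = sF κ (rf Θ) := by
  rw [sF, sR, map_add, map_one, map_mul, rf_C, map_sub, map_pow rf, map_mul, rf_T, rf_N, rf_Vx, sF, sR]

lemma contr (m : ℕ) (a b : S) (h : Ord m (a - b)) : Ord (m + 1) (sF κ a - sF κ b) := by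
  have o0 : Ord 1 (a0 κ) := by
    rw [show a0 κ = X 0 * (C (1 / 2) * X 0 - C κ * X 0 ^ 5) by rw [a0]; ring]
    exact (Ord.X 0).mul (Ord.zero _)
  have o1 : Ord 1 (sw κ b) := o0.add (Ord.zero _).iU
  have o2 : Ord (m + 1) (sN κ a - sN κ b) := by
    rw [show sN κ a - sN κ b = iU (X 1 * (a - b)) * a + (a - b) * sw κ b by
      rw [mul_sub, map_sub, sN, sN, sw, sw]; ring]
    exact (((((Ord.zero _).mul h).mono (by omega)).iU).mul (Ord.zero a)).add (h.mul o1)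
  rw [show sF κ a - sF κ b = T (sN κ a - sN κ b) * (C (κ ^ 2) * (T (sN κ a) + T (sN κ b))) -
      (sN κ a - sN κ b) * (C (κ ^ 2) * sVx κ a) - T (T (sN κ a - sN κ b)) * (C (κ ^ 2) * sN κ b) by
    rw [map_sub, map_sub, sF, sF, sR, sR, sVx, sVx]; ring]
  exact ((o2.T.mul (Ord.zero _)).sub (o2.mul (Ord.zero _))).sub (o2.T.T.mul (Ord.zero _))

end defs

section fixed
variable {κ : ℝ} {Θ Ξ : S} (h : sF κ Θ = Θ)
include h

lemma uΘ : X 1 * Θ = X 1 + C κ * (C κ * (X 1 * sR κ Θ)) := by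
  rw [sF, map_pow] at h
  linear_combination -X 1 * h

lemma w_id : sw κ Θ - C (1 / 2) * (X 0 ^ 2 + X 1 ^ 2) = C κ * w1 κ Θ := by
  rw [sw, uΘ h, map_add, iU_C, iU_C, iU_u, a0, w1]; ring

lemma wx_id : swx κ Θ - X 0 = C κ * wx1 κ Θ := by
  rw [swx, uΘ h, map_add, T_C, T_C, T_u, a1, wx1, map_mul]; ring

lemma N_id : sN κ Θ = C (1 / 2) * (X 0 ^ 2 + X 1 ^ 2) + C κ * N1 κ Θ := by
  have := w_id h
  rw [sF, map_pow] at h
  rw [sN, N1]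
  linear_combination this - sw κ Θ * h

lemma Y_id : sY κ Θ - (C (1 / 2) * (X 0 ^ 2 * X 1) + C (1 / 6) * X 1 ^ 3) = C κ * iU (N1 κ Θ) := by
  rw [sY, N_id h, map_add, iU_C κ, iU_r]; ring

lemma V_id' : sV κ Θ - C (1 / 2) * (X 0 * (X 1 ^ 2 - X 0 ^ 2)) = C κ * V1 κ Θ := by
  rw [sV, N_id h, map_add, T_C κ, T_r, map_add, iU_C κ, iU_xu, V1, a0, a1]
  simp only [map_mul, map_ofNat]
  linear_combination 3 * C κ * X 0 ^ 7 * half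

lemma G_id (k : Θ * Ξ = 1) : sG κ Θ Ξ - a1 κ = C (κ ^ 2) * G1 κ Θ Ξ := by
  rw [sG, swx, uΘ h, map_add, T_C, T_C, T_u, G1, map_pow]
  rw [sF, map_pow] at h
  linear_combination a1 κ * Ξ * h + a1 κ * k

end fixed

/-! ### Uniform bounds -/

abbrev J : Type := {q : ℝ × S × S // |q.1| ≤ 1 ∧ Nb cw 2 q.2.1 ∧ Nb cw 2 q.2.2}

lemma uc (r : ℝ) : UB cw 0 fun _ : J => (C r : S) := UB.C wt_cw fun _ => le_rfl
lemma uk : UB cw 0 fun q : J => (C q.1.1 : S) := UB.C wt_cw fun q => q.2.1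
lemma uk' (r : ℝ) : UB cw 0 fun q : J => (C (r * q.1.1) : S) := by
  simpa only [map_mul] using (uc r).mul wt_cw uk
lemma ux (n : ℕ) : UB cw n fun _ : J => (X 0 : S) ^ n := by simpa using (UB.X wt_cw 0).pow wt_cw n
lemma uu : UB cw 1 fun _ : J => (X 1 : S) := UB.X wt_cw 1
lemma uth : UB cw 0 fun q : J => q.1.2.1 := ⟨fun _ => Ord.zero _, 2, fun q => q.2.2.1⟩
lemma uxi : UB cw 0 fun q : J => q.1.2.2 := ⟨fun _ => Ord.zero _, 2, fun q => q.2.2.2⟩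

lemma ua0 : UB cw 2 fun q : J => a0 q.1.1 :=
  ((uc _).mul wt_cw (ux 2)).sub wt_cw ((uk.mul wt_cw (ux 6)).mono (by norm_num))
lemma ua1 : UB cw 1 fun q : J => a1 q.1.1 :=
  (UB.X wt_cw 0).sub wt_cw (((uk' 6).mul wt_cw (ux 5)).mono (by norm_num))
lemma ua2 : UB cw 0 fun q : J => a2 q.1.1 :=
  (UB.one wt_cw).sub wt_cw (((uk' 30).mul wt_cw (ux 4)).mono (by norm_num))
lemma uw : UB cw 2 fun q : J => sw q.1.1 q.1.2.1 := ua0.add wt_cw (uu.mul wt_cw uth).iU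
lemma uwx : UB cw 1 fun q : J => swx q.1.1 q.1.2.1 := ua1.add wt_cw (uu.mul wt_cw uth).T
lemma uN : UB cw 2 fun q : J => sN q.1.1 q.1.2.1 := uw.mul wt_cw uth
lemma uY : UB cw 3 fun q : J => sY q.1.1 q.1.2.1 := uN.iU
lemma uV : UB cw 3 fun q : J => sV q.1.1 q.1.2.1 := (ua0.mul wt_cw ua1).neg.add wt_cw uN.T.iU
lemma uVx : UB cw 2 fun q : J => sVx q.1.1 q.1.2.1 :=
  (UB.add (m := 2) wt_cw (ua1.pow wt_cw 2) (ua0.mul wt_cw ua2)).neg.add wt_cw uN.T.T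
lemma uR : UB cw 4 fun q : J => sR q.1.1 q.1.2.1 := (uN.T.pow wt_cw 2).sub wt_cw (uN.mul wt_cw uVx)
lemma uG : UB cw 1 fun q : J => sG q.1.1 q.1.2.1 q.1.2.2 := uwx.mul wt_cw uxi
lemma uB : UB cw 3 fun q : J => sB q.1.1 q.1.2.1 q.1.2.2 :=
  (UB.sub (m := 3) wt_cw (uu.mul wt_cw uVx) (uN.T.mul wt_cw uG)).neg
lemma uw1 : UB cw 6 fun q : J => w1 q.1.1 q.1.2.1 := (uk.mul wt_cw (uu.mul wt_cw uR).iU).sub wt_cw (ux 6)
lemma uwx1 : UB cw 5 fun q : J => wx1 q.1.1 q.1.2.1 :=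
  (uk.mul wt_cw (uu.mul wt_cw uR).T).sub wt_cw ((uc 6).mul wt_cw (ux 5))
lemma uN1 : UB cw 6 fun q : J => N1 q.1.1 q.1.2.1 := uw1.add wt_cw (uk.mul wt_cw (uw.mul wt_cw uR))
lemma uV1 : UB cw 7 fun q : J => V1 q.1.1 q.1.2.1 :=
  (((uc 4).mul wt_cw (ux 7)).sub wt_cw (((uk' 6).mul wt_cw (ux 11)).mono (by norm_num))).add wt_cw uN1.T.iU
lemma uG1 : UB cw 5 fun q : J => G1 q.1.1 q.1.2.1 q.1.2.2 :=
  ((uu.mul wt_cw uR).T.sub wt_cw (ua1.mul wt_cw uR)).mul wt_cw uxi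

lemma UB.rep {m : ℕ} {c : J → S} (h : UB cw m c) (q : J) : ∃ f, ContDiff ℝ ∞ f ∧ Rep (c q) f := by
  obtain ⟨K, hK⟩ := h.nb
  exact (Cv.of_cw (hK q)).rep

/-- The formal solution. -/
lemma exists_sol : ∃ κ0 : ℝ, 0 < κ0 ∧ ∀ κ, 0 < κ → κ ≤ κ0 → ∃ Θ Ξ : S,
    (|κ| ≤ 1 ∧ Nb cw 2 Θ ∧ Nb cw 2 Ξ) ∧ sF κ Θ = Θ ∧ Θ * Ξ = 1 := by
  obtain ⟨K, hK⟩ := uR.nb
  have one : Nb cw 2 1 := (Nb.one wt_cw).mono one_le_two
  have K0 : 0 ≤ K := (hK ⟨(0, 1, 1), by simp, one, one⟩).nonneg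
  refine ⟨1 / (2 * K + 2), by positivity, fun κ κ0 hκ => ?_⟩
  rw [le_div_iff₀ (by positivity)] at hκ
  have κ1 : κ ≤ 1 := by nlinarith
  have κ2 : |κ| ≤ 1 := by rwa [abs_of_pos κ0]
  have hs : ∀ a, Nb cw 2 a → Nb cw (1 / 2) (C (κ ^ 2) * sR κ a) := fun a ha =>
    ((Nb.C wt_cw _).mul wt_cw (hK ⟨(κ, a, 1), κ2, ha, one⟩)).mono (by
      rw [abs_of_pos (by positivity)]
      nlinarith [mul_nonneg κ0.le K0])
  obtain ⟨Θ, hΘ, l⟩ := exists_fix (contr κ) 1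
  have nΘ : Nb cw 2 Θ := Nb.limit (fun n => by
    induction n with
    | zero => exact one
    | succ n ih =>
      rw [Function.iterate_succ_apply']
      exact ((Nb.one wt_cw).add wt_cw (hs _ ih)).mono (by norm_num)) l
  have o : Ord 1 (-(C (κ ^ 2) * sR κ Θ)) :=
    (((Ord.zero _).mul (uR.ord ⟨(κ, Θ, 1), κ2, nΘ, one⟩)).mono (by norm_num)).neg
  obtain ⟨Ξ, hΞ, l'⟩ := exists_fix (F := fun a => 1 + -(C (κ ^ 2) * sR κ Θ) * a) (fun m a b h => by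
    rw [add_sub_add_left_eq_sub, ← mul_sub, mul_comm]
    exact h.mul o) 1
  refine ⟨Θ, Ξ, ⟨κ2, nΘ, Nb.limit (fun n => ?_) l'⟩, hΘ, ?_⟩
  · induction n with
    | zero => exact one
    | succ n ih =>
      rw [Function.iterate_succ_apply']
      exact ((Nb.one wt_cw).add wt_cw ((hs _ nΘ).neg.mul wt_cw ih)).mono (by norm_num)
  · rw [sF] at hΘ
    linear_combination -hΞ - Ξ * hΘ

lemma Rep.bound' {a b : S} {f : P → ℝ} (h : Rep a f) {K s : ℝ} {m : ℕ} (e : a = MvPowerSeries.C s * b)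
    (s0 : 0 ≤ s) (k : Ord m b ∧ Nb (pw 7) K b) {g : P → ℝ} (fg : ∀ z, g z = f z) (z : P) (hz : ‖z‖ < 6) :
    |g z| ≤ K * s * ‖z‖ ^ m := fg z ▸ h.bound e s0 k z hz

lemma Rep.bound1 {a b : S} {f : P → ℝ} (h : Rep a f) {K : ℝ} {m : ℕ} (e : a = b)
    (k : Ord m b ∧ Nb (pw 7) K b) (z : P) (hz : ‖z‖ < 6) : |f z| ≤ K * ‖z‖ ^ m := by
  simpa using h.bound (s := 1) (by rw [e, map_one, one_mul]) zero_le_one k z hz

end A

open A MvPowerSeries in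
theorem blk_A : St_A := by
  obtain ⟨κ0, p0, h0⟩ := exists_sol
  obtain ⟨K, K1, b1, b2, b3, b4, b5, b6, b7, b8, b9, b10, b11, b12⟩ := ((Filter.eventually_ge_atTop (1 : ℝ)).and
    (uR.plain.ev.and (uw1.plain.ev.and (uwx1.plain.ev.and (uN1.iU.plain.ev.and (uV1.plain.ev.and
      (uN.T.plain.ev.and (uVx.plain.ev.and ((uB.pd 0).ev.and ((uB.pd 1).ev.and (uG1.plain.ev.and
        ((uG1.pd 0).ev.and (uG1.pd 1).ev)))))))))))).exists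
  refine ⟨K, κ0, K1, p0, fun κ κp hκ => ?_⟩
  obtain ⟨Θ, Ξ, hq, hΘ, hΞ⟩ := h0 κ κp hκ
  let q : J := ⟨(κ, Θ, Ξ), hq⟩
  obtain ⟨w, sw', rw'⟩ := uw.rep q
  obtain ⟨Y, sY', rY⟩ := uY.rep q
  obtain ⟨V, sV', rV⟩ := uV.rep q
  obtain ⟨G, sG', rG⟩ := uG.rep q
  obtain ⟨B, sB', rB⟩ := uB.rep q
  obtain ⟨θ, sθ, rθ⟩ := uth.rep q
  have rw' : Rep (sw κ Θ) w := rw'
  have rY : Rep (sY κ Θ) Y := rY
  have rV : Rep (sV κ Θ) V := rV
  have rG : Rep (sG κ Θ Ξ) G := rG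
  have rB : Rep (sB κ Θ Ξ) B := rB
  have rθ : Rep Θ θ := rθ
  have e1 : rf Θ = Θ := fix_unique (contr κ) (by rw [← rf_F, hΘ]) hΘ
  have e2 : rf Ξ = Ξ := by
    have := congrArg rf hΞ
    rw [map_mul, e1, map_one] at this
    linear_combination Ξ * this - rf Ξ * hΞ
  have k2 : 0 ≤ κ ^ 2 := by positivity
  have gid := G_id hΘ hΞ
  refine
    ⟨⟨w, Y, V, G, B, θ⟩, sw', sY', sV', sG', sB', sθ, rw'.du.ext (Rep.u.mul rθ) (du_w κ Θ),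
      rY.du.ext (rw'.mul rθ) (du_Y κ Θ), rV.du.ext rY.dx (du_V κ Θ),
      rθ.ext (Rep.one.sub ((Rep.C (κ ^ 2)).mul ((rV.dx.mul rY.du).sub (rY.dx.pow 2)))) ?_,
      ((Rep.u.mul rY.dx).sub rV).ext (rw'.mul rw'.dx) ?_, (rG.mul rθ).ext rw'.dx ?_,
      rB.ext ((Rep.u.mul rV.dx).sub (rY.dx.mul rG)).neg ?_, rw'.rf.ext rw' ?_, rY.rf.ext rY.neg ?_,
      rV.rf.ext rV.neg ?_, rG.rf.ext rG.neg ?_, fun x hx => ?_,
      (rθ.sub Rep.one).bound ?_ k2 (b1 q),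
      (rw'.sub ((Rep.C (1 / 2)).mul ((Rep.x.pow 2).add (Rep.u.pow 2)))).bound' (w_id hΘ) κp.le (b2 q)
        fun z => by ring,
      (rw'.dx.sub Rep.x).bound ?_ κp.le (b3 q),
      (rY.sub (((Rep.C (1 / 2)).mul ((Rep.x.pow 2).mul Rep.u)).add ((Rep.C (1 / 6)).mul (Rep.u.pow 3)))).bound'
        (Y_id hΘ) κp.le (b4 q) fun z => by ring,
      (rV.sub ((Rep.C (1 / 2)).mul (Rep.x.mul ((Rep.u.pow 2).sub (Rep.x.pow 2))))).bound' (V_id' hΘ) κp.le (b5 q)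
        fun z => by ring,
      rY.dx.bound1 (dx_Y κ Θ) (b6 q), rV.dx.bound1 (dx_V κ Θ) (b7 q), rB.dx.bound1 rfl (b8 q),
      rB.du.bound1 rfl (b9 q), (rG.sub (Rep.x.sub ((Rep.C (6 * κ)).mul (Rep.x.pow 5)))).bound gid k2 (b10 q),
      (rG.dx.sub (Rep.one.sub ((Rep.C (30 * κ)).mul (Rep.x.pow 4)))).bound ?_ k2 (b11 q),
      rG.du.bound ?_ k2 (b12 q)⟩
  · rw [dx_V, du_Y, dx_Y, ← sN]
    rw [sF, sR] at hΘ
    linear_combination -hΘ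
  · rw [dx_Y, dx_w, V_id]
  · rw [dx_w, sG, mul_assoc, mul_comm Ξ, hΞ, mul_one]
  · rw [dx_V, dx_Y, sB]
  · rw [rf_w, e1]
  · rw [rf_Y, e1]
  · rw [rf_V, e1]
  · rw [sG, map_mul, rf_wx, e1, e2, neg_mul]
  · exact (rY.eq _ (norm_lt_iff.2 ⟨hx, by simp⟩)).trans (ev_axis (dvd_iU _) x)
  · rw [sF] at hΘ
    linear_combination -hΘ
  · rw [dx_w]; exact wx_id hΘ
  · rw [← pd_C, ← gid, map_sub, dx_a1, a2]
  · rw [← pd_C, ← gid, map_sub, du_a1, sub_zero]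

end Pool.Agent.Lib.MP_f62ea7_gt
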