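import Pool.Agent.Lib.MP_f62ea7_gt.Basic

/-! Block A, first part: formal series in two variables, order, majorant norms, fixed points. -/

set_option autoImplicit false

namespace Pool.Agent.Lib.MP_f62ea7_gt

namespace A

open MvPowerSeries Finsupp Finset Filter

abbrev D : Type := Fin 2 →₀ ℕ
abbrev S : Type := MvPowerSeries (Fin 2) ℝ

/-- total degree -/
def dg (d : D) : ℕ := d 0 + d 1

lemma dg_add (d e : D) : dg (d + e) = dg d + dg e := by
  simp only [dg, Finsupp.add_apply]; ring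

lemma dg_single (i : Fin 2) : dg (single i 1) = 1 := by
  fin_cases i <;> simp [dg]

lemma dg_zero : dg 0 = 0 := by simp [dg]

lemma le_dg (i : Fin 2) (d : D) : d i ≤ dg d := by
  fin_cases i <;> simp [dg]

lemma ex_succ {d : D} {i : Fin 2} (h : d i ≠ 0) : ∃ e : D, e + single i 1 = d :=
  ⟨d - single i 1, tsub_add_cancel_of_le (single_le_iff.2 (Nat.one_le_iff_ne_zero.2 h))⟩

/-! ### Operators -/

noncomputable abbrev pd (i : Fin 2) : Derivation ℝ S S := pderiv ℝ i

/-- integration in `u` from `0` -/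
noncomputable def iU : S →ₗ[ℝ] S where
  toFun c := fun d => coeff (d - single 1 1) c / (d 1 : ℝ)
  map_add' a b := by
    ext d
    exact (congrArg (· / (d 1 : ℝ)) (map_add (coeff _) a b)).trans (add_div _ _ _)
  map_smul' r a := by
    ext d
    exact (congrArg (· / (d 1 : ℝ)) (map_smul (coeff _) r a)).trans (mul_div_assoc _ _ _)

lemma coeff_iU (d : D) (c : S) : coeff d (iU c) = coeff (d - single 1 1) c / (d 1 : ℝ) := rfl

lemma coeff_iU' (d : D) (c : S) : coeff (d + single 1 1) (iU c) = coeff d c / (d 1 + 1 : ℝ) := by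
  rw [coeff_iU, add_tsub_cancel_right]; simp

lemma coeff_iU0 {d : D} (h : d 1 = 0) (c : S) : coeff d (iU c) = 0 := by
  rw [coeff_iU, h]; simp

/-- `∂x ∘ ∫ du` -/
noncomputable def T : S →ₗ[ℝ] S := (pd 0).toLinearMap ∘ₗ iU

lemma T_def (c : S) : T c = pd 0 (iU c) := rfl

lemma du_iU (c : S) : pd 1 (iU c) = c := by
  ext d
  have : (d 1 + 1 : ℝ) ≠ 0 := by positivity
  rw [coeff_pderiv, coeff_iU', div_mul_cancel₀ _ this]

lemma pd_comm (c : S) : pd 1 (pd 0 c) = pd 0 (pd 1 c) := by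
  ext d
  simp only [coeff_pderiv, add_right_comm d (single 1 1) (single 0 1)]
  simp [mul_right_comm]

lemma du_T (c : S) : pd 1 (T c) = pd 0 c := by rw [T_def, pd_comm, du_iU]

lemma dvd_iU (c : S) : (X 1 : S) ∣ iU c := X_dvd_iff.2 fun _ h => coeff_iU0 h c

lemma dvd_T (c : S) : (X 1 : S) ∣ T c := X_dvd_iff.2 fun d h => by
  rw [T_def, coeff_pderiv, coeff_iU0 (by simpa using h), zero_mul]

lemma eq_zero_of {c : S} (h1 : (X 1 : S) ∣ c) (h2 : pd 1 c = 0) : c = 0 := by
  ext d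
  by_cases h : d 1 = 0
  · simpa using X_dvd_iff.1 h1 d h
  · obtain ⟨e, rfl⟩ := ex_succ h
    have := congrArg (coeff e) h2
    rw [coeff_pderiv, map_zero, mul_eq_zero] at this
    simpa using this.resolve_right (by positivity)

lemma iU_eq {c a : S} (h1 : (X 1 : S) ∣ a) (h2 : pd 1 a = c) : iU c = a :=
  sub_eq_zero.1 (eq_zero_of (dvd_sub (dvd_iU c) h1) (by rw [map_sub, du_iU, h2, sub_self]))

lemma iU_C (r : ℝ) (c : S) : iU (C r * c) = C r * iU c := by
  rw [← smul_eq_C_mul, ← smul_eq_C_mul, map_smul]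

lemma T_C (r : ℝ) (c : S) : T (C r * c) = C r * T c := by
  rw [← smul_eq_C_mul, ← smul_eq_C_mul, map_smul]

lemma pd_C (i : Fin 2) (r : ℝ) (c : S) : pd i (C r * c) = C r * pd i c := by
  rw [← smul_eq_C_mul, ← smul_eq_C_mul, Derivation.map_smul]

lemma pd_mul (i : Fin 2) (a b : S) : pd i (a * b) = a * pd i b + b * pd i a := by
  rw [Derivation.leibniz, smul_eq_mul, smul_eq_mul]

/-- the reflection `z ↦ -z` -/
noncomputable def rf : S →+* S := rescale fun _ => -1

lemma coeff_rf (d : D) (c : S) : coeff d (rf c) = (-1) ^ dg d * coeff d c := by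
  rw [rf, coeff_rescale, Finsupp.prod_fintype _ _ fun _ => pow_zero _]
  simp [dg, pow_add]

lemma rf_X (i : Fin 2) : rf (X i) = -X i := by
  ext d
  rw [coeff_rf, map_neg, coeff_X]
  split_ifs with h
  · simp [h, dg_single]
  · simp

lemma rf_C (r : ℝ) : rf (C r) = C r := by
  ext d
  rw [coeff_rf, coeff_C]
  split_ifs with h
  · simp [h, dg_zero]
  · simp

lemma rf_pd (i : Fin 2) (c : S) : rf (pd i c) = -pd i (rf c) := by
  ext d
  rw [coeff_rf, map_neg, coeff_pderiv, coeff_pderiv, coeff_rf, dg_add, dg_single]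
  ring

lemma rf_iU (c : S) : rf (iU c) = -iU (rf c) := by
  ext d
  by_cases h : d 1 = 0
  · rw [coeff_rf, map_neg, coeff_iU0 h, coeff_iU0 h]; simp
  · obtain ⟨e, rfl⟩ := ex_succ h
    rw [coeff_rf, map_neg, coeff_iU', coeff_iU', coeff_rf, dg_add, dg_single]
    ring

lemma rf_T (c : S) : rf (T c) = T (rf c) := by
  rw [T_def, rf_pd, rf_iU, map_neg, neg_neg, T_def]

/-! ### Order -/

def Ord (m : ℕ) (c : S) : Prop := ∀ d, dg d < m → coeff d c = 0

namespace Ord
variable {m n : ℕ} {a b : S}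

lemma zero (c : S) : Ord 0 c := fun _ h => absurd h (Nat.not_lt_zero _)

lemma mono (h : Ord m a) (e : n ≤ m) : Ord n a := fun d hd => h d (hd.trans_le e)

lemma add (h : Ord m a) (k : Ord m b) : Ord m (a + b) := fun d hd => by
  rw [map_add, h d hd, k d hd, add_zero]

lemma neg (h : Ord m a) : Ord m (-a) := fun d hd => by rw [map_neg, h d hd, neg_zero]

lemma sub (h : Ord m a) (k : Ord m b) : Ord m (a - b) := by
  rw [sub_eq_add_neg]; exact h.add k.neg

lemma mul (h : Ord m a) (k : Ord n b) : Ord (m + n) (a * b) := fun d hd => by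
  rw [coeff_mul]
  refine sum_eq_zero fun p hp => ?_
  rw [← mem_antidiagonal.1 hp, dg_add] at hd
  by_cases e : dg p.1 < m
  · rw [h _ e, zero_mul]
  · rw [k _ (by omega), mul_zero]

lemma monomial (d : D) (r : ℝ) : Ord (dg d) (monomial d r) := fun e he =>
  coeff_monomial_ne (by rintro rfl; exact lt_irrefl _ he) r

lemma X (i : Fin 2) : Ord 1 (X i) := dg_single i ▸ monomial (single i 1) 1

lemma pow (h : Ord m a) (k : ℕ) : Ord (k * m) (a ^ k) := by
  induction k with
  | zero => rw [zero_mul]; exact zero _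
  | succ k ih => rw [pow_succ, add_mul, one_mul]; exact ih.mul h

lemma pd (h : Ord (m + 1) a) (i : Fin 2) : Ord m (pd i a) := fun d hd => by
  rw [coeff_pderiv, h _ (by rw [dg_add, dg_single]; omega), zero_mul]

lemma iU (h : Ord m a) : Ord (m + 1) (iU a) := fun d hd => by
  by_cases k : d 1 = 0
  · exact coeff_iU0 k a
  · obtain ⟨e, rfl⟩ := ex_succ k
    rw [dg_add, dg_single] at hd
    rw [coeff_iU', h e (by omega), zero_div]

lemma T (h : Ord m a) : Ord m (T a) := h.iU.pd 0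

end Ord

lemma iter_ord {F : S → S} (hF : ∀ m a b, Ord m (a - b) → Ord (m + 1) (F a - F b)) (n : ℕ) (a b : S) :
    Ord n (F^[n] a - F^[n] b) := by
  induction n with
  | zero => exact Ord.zero _
  | succ n ih => rw [Function.iterate_succ_apply', Function.iterate_succ_apply']; exact hF _ _ _ ih

lemma fix_unique {F : S → S} (hF : ∀ m a b, Ord m (a - b) → Ord (m + 1) (F a - F b)) {a b : S}
    (ha : F a = a) (hb : F b = b) : a = b := by
  ext d
  have := iter_ord hF (dg d + 1) a b d (Nat.lt_succ_self _)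
  rwa [Function.iterate_fixed ha, Function.iterate_fixed hb, map_sub, sub_eq_zero] at this

lemma exists_fix {F : S → S} (hF : ∀ m a b, Ord m (a - b) → Ord (m + 1) (F a - F b)) (a : S) :
    ∃ t, F t = t ∧ ∀ n, Ord n (F^[n] a - t) := by
  let t : S := fun d => coeff d (F^[dg d + 1] a)
  have h : ∀ n, Ord n (F^[n] a - t) := fun n d hd => by
    obtain ⟨k, rfl⟩ : ∃ k, n = dg d + 1 + k := ⟨n - (dg d + 1), by omega⟩
    have := iter_ord hF (dg d + 1) (F^[k] a) a d (Nat.lt_succ_self _)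
    rw [← Function.iterate_add_apply, map_sub] at this
    rw [map_sub]; exact this
  refine ⟨t, ?_, h⟩
  ext d
  have h1 := hF _ _ _ (h (dg d)) d (Nat.lt_succ_self _)
  have h2 := h (dg d + 1) d (Nat.lt_succ_self _)
  rw [Function.iterate_succ_apply'] at h2
  rw [map_sub, sub_eq_zero] at h1 h2
  rw [← h1, h2]

/-! ### Majorant norms -/

def Nb (ω : D → ℝ) (K : ℝ) (c : S) : Prop := ∀ s : Finset D, ∑ d ∈ s, |coeff d c| * ω d ≤ K

structure Wt (ω : D → ℝ) : Prop where
  pos : ∀ d, 0 ≤ ω d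
  one : ω 0 = 1
  mul : ∀ d e, ω (d + e) ≤ ω d * ω e

namespace Nb
variable {ω ω' : D → ℝ} {K L M : ℝ} {a b c : S}

lemma nonneg (h : Nb ω K a) : 0 ≤ K := by simpa using h ∅

lemma mono (h : Nb ω K a) (e : K ≤ L) : Nb ω L a := fun s => (h s).trans e

lemma wt (h : Nb ω K a) (e : ∀ d, ω' d ≤ ω d) : Nb ω' K a := fun s =>
  (sum_le_sum fun d _ => mul_le_mul_of_nonneg_left (e d) (abs_nonneg _)).trans (h s)

lemma summable (w : Wt ω) (h : Nb ω K a) : Summable fun d => |coeff d a| * ω d :=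
  summable_of_sum_le (fun d => mul_nonneg (abs_nonneg _) (w.pos d)) h

lemma tsum_le (w : Wt ω) (h : Nb ω K a) : ∑' d, |coeff d a| * ω d ≤ K :=
  (h.summable w).tsum_le_of_sum_le h

lemma add (w : Wt ω) (h : Nb ω K a) (k : Nb ω L b) : Nb ω (K + L) (a + b) := fun s => by
  refine le_trans (sum_le_sum fun d _ => ?_) ((sum_add_distrib ..).trans_le (add_le_add (h s) (k s)))
  rw [map_add, ← add_mul]
  exact mul_le_mul_of_nonneg_right (abs_add_le _ _) (w.pos d)

lemma neg (h : Nb ω K a) : Nb ω K (-a) := fun s => by simpa using h s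

lemma mul (w : Wt ω) (h : Nb ω K a) (k : Nb ω L b) : Nb ω (K * L) (a * b) := fun s => by
  have h1 := h.summable w
  have k1 := k.summable w
  have p1 : ∀ (c : S) d, 0 ≤ |coeff d c| * ω d := fun c d => mul_nonneg (abs_nonneg _) (w.pos d)
  have hk := h1.mul_of_nonneg k1 (p1 a) (p1 b)
  have e := h1.tsum_mul_tsum_eq_tsum_sum_antidiagonal k1 hk
  have sm := summable_sum_mul_antidiagonal_of_summable_mul
    (f := fun d => |coeff d a| * ω d) (g := fun d => |coeff d b| * ω d) hk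
  refine le_trans (sum_le_sum fun d _ => ?_) ((sm.sum_le_tsum s fun d _ =>
    sum_nonneg fun p _ => mul_nonneg (p1 _ _) (p1 _ _)).trans (e.symm.trans_le
      (mul_le_mul (h.tsum_le w) (k.tsum_le w) (tsum_nonneg (p1 b)) h.nonneg)))
  rw [coeff_mul]
  refine (mul_le_mul_of_nonneg_right (abs_sum_le_sum_abs _ _) (w.pos d)).trans ?_
  rw [Finset.sum_mul]
  refine sum_le_sum fun p hp => ?_
  rw [← mem_antidiagonal.1 hp, abs_mul, mul_mul_mul_comm]
  exact mul_le_mul_of_nonneg_left (w.mul _ _) (by positivity)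

lemma monomial (w : Wt ω) (d : D) (r : ℝ) : Nb ω (|r| * ω d) (monomial d r) := fun s => by
  have p := mul_nonneg (abs_nonneg r) (w.pos d)
  simp only [coeff_monomial]
  rw [sum_congr rfl (g := fun e => if e = d then |r| * ω d else 0) fun e _ => by
    split_ifs with h <;> simp [h], Finset.sum_ite_eq']
  split_ifs <;> simp [p]

lemma C (w : Wt ω) (r : ℝ) : Nb ω |r| (C r) := by
  simpa [w.one] using monomial w 0 r

lemma one (w : Wt ω) : Nb ω 1 1 := by simpa using C w 1

lemma shift (h : Nb ω K c) (M0 : 0 ≤ M) {ψ φ : D → D} (iψ : ψ.Injective) (iφ : φ.Injective)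
    (h0 : ∀ d, d ∉ Set.range ψ → coeff d a = 0)
    (h1 : ∀ e, |coeff (ψ e) a| * ω' (ψ e) ≤ M * (|coeff (φ e) c| * ω (φ e))) : Nb ω' (M * K) a := fun s => by
  rw [← sum_preimage ψ s iψ.injOn (fun d => |coeff d a| * ω' d) fun d _ hd => by simp [h0 d hd]]
  refine (sum_le_sum fun e _ => h1 e).trans ?_
  rw [← Finset.mul_sum]
  refine mul_le_mul_of_nonneg_left (le_trans (le_of_eq ?_) (h ((s.preimage ψ iψ.injOn).map ⟨φ, iφ⟩))) M0
  rw [sum_map]; rfl

lemma limit {u : ℕ → S} (h : ∀ n, Nb ω K (u n)) (k : ∀ n, Ord n (u n - a)) : Nb ω K a := fun s => by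
  refine le_trans (le_of_eq (sum_congr rfl fun d hd => ?_)) (h (s.sup dg + 1) s)
  have := k (s.sup dg + 1) d (Nat.lt_succ_of_le (le_sup hd))
  rw [map_sub, sub_eq_zero] at this
  rw [this]

end Nb

/-- the plain weight -/
def pw (r : ℝ) (d : D) : ℝ := r ^ dg d

/-- the weight adapted to the Cauchy problem -/
noncomputable def cw (d : D) : ℝ := 30 ^ dg d / ((dg d).choose (d 1) : ℝ)

lemma wt_pw {r : ℝ} (h : 0 ≤ r) : Wt (pw r) :=
  ⟨fun _ => pow_nonneg h _, by simp [pw, dg_zero], fun d e => by simp [pw, dg_add, pow_add]⟩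

lemma ch_pos (d : D) : (0 : ℝ) < (dg d).choose (d 1) := by
  exact_mod_cast Nat.choose_pos (le_dg 1 d)

lemma wt_cw : Wt cw := by
  refine ⟨fun d => by unfold cw; positivity, by simp [cw, dg_zero], fun d e => ?_⟩
  unfold cw
  rw [div_mul_div_comm, ← pow_add, ← dg_add]
  refine div_le_div_of_nonneg_left (by positivity) (mul_pos (ch_pos d) (ch_pos e)) ?_
  rw [dg_add, Finsupp.add_apply, Nat.add_choose_eq]
  exact_mod_cast single_le_sum (f := fun ij : ℕ × ℕ => (dg d).choose ij.1 * (dg e).choose ij.2)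
    (fun _ _ => Nat.zero_le _) (a := (d 1, e 1)) (mem_antidiagonal.2 rfl)

lemma pw_le_cw (d : D) : pw 15 d ≤ cw d := by
  unfold pw cw
  rw [le_div_iff₀ (ch_pos d), show (30 : ℝ) = 15 * 2 by norm_num, mul_pow]
  exact mul_le_mul_of_nonneg_left (by exact_mod_cast Nat.choose_le_two_pow _ _) (by positivity)

lemma pw_le_pw {r r' : ℝ} (h0 : 0 ≤ r') (h : r' ≤ r) (d : D) : pw r' d ≤ pw r d := pow_le_pow_left₀ h0 h _

lemma not_range {d : D} (h : d ∉ Set.range fun e : D => e + single 1 1) : d 1 = 0 := by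
  by_contra k
  exact h (ex_succ k)

lemma Nb.iU {K : ℝ} {c : S} (h : Nb cw K c) : Nb cw (30 * K) (iU c) := by
  refine h.shift (by norm_num) (add_left_injective (single 1 1)) Function.injective_id
    (fun d hd => coeff_iU0 (not_range hd) c) fun e => ?_
  have p := ch_pos e
  have q := ch_pos (e + single 1 1)
  have k := Nat.add_one_mul_choose_eq (dg e) (e 1)
  simp only [coeff_iU', cw, id, dg_add, dg_single, Finsupp.add_apply, single_eq_same] at q ⊢
  have k : ((dg e : ℝ) + 1) * (dg e).choose (e 1) = (dg e + 1).choose (e 1 + 1) * (e 1 + 1 : ℝ) := by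
    exact_mod_cast k
  rw [abs_div, abs_of_pos (a := (e 1 + 1 : ℝ)) (by positivity), div_mul_div_comm, mul_comm (e 1 + 1 : ℝ), ← k,
    show 30 * (|coeff e c| * (30 ^ dg e / ((dg e).choose (e 1) : ℝ))) =
      |coeff e c| * 30 ^ (dg e + 1) / ((dg e).choose (e 1) : ℝ) by ring]
  exact div_le_div_of_nonneg_left (by positivity) p (le_mul_of_one_le_left p.le (by simp))

lemma Nb.T {K : ℝ} {c : S} (h : Nb cw K c) : Nb cw K (T c) := by
  rw [← one_mul K]
  refine h.shift zero_le_one (add_left_injective (single 1 1)) (add_left_injective (single 0 1))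
    (fun d hd => X_dvd_iff.1 (dvd_T c) d (not_range hd)) fun e => le_of_eq ?_
  have p := ch_pos (e + single 0 1)
  have q := ch_pos (e + single 1 1)
  have k := Nat.choose_succ_right_eq (dg e + 1) (e 1)
  rw [show dg e + 1 - e 1 = e 0 + 1 by unfold dg; omega] at k
  have k : ((dg e + 1).choose (e 1 + 1) : ℝ) * (e 1 + 1) = (dg e + 1).choose (e 1) * (e 0 + 1 : ℝ) := by
    exact_mod_cast k
  rw [T_def, coeff_pderiv, add_right_comm, coeff_iU']
  simp only [cw, dg_add, dg_single, Finsupp.add_apply, single_eq_same, single_eq_of_ne (zero_ne_one' (Fin 2)),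
    single_eq_of_ne (one_ne_zero' (Fin 2)), add_zero] at p q ⊢
  rw [abs_mul, abs_div, abs_of_pos (a := (e 1 + 1 : ℝ)) (by positivity),
    abs_of_pos (a := (e 0 + 1 : ℝ)) (by positivity)]
  field_simp
  linear_combination -|coeff (e + single 0 1) c| * k

lemma ex_M {r r' : ℝ} (h0 : 0 < r') (h : r' < r) : ∃ M : ℝ, 0 ≤ M ∧ ∀ n : ℕ, (n + 1) * r' ^ n ≤ M * r ^ (n + 1) := by
  have r0 : 0 < r := h0.trans h
  obtain ⟨t, t0, rfl⟩ : ∃ t, 0 < t ∧ r = (1 + t) * r' :=
    ⟨(r - r') / r', div_pos (sub_pos.2 h) h0, by field_simp; ring⟩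
  refine ⟨(1 + 1 / t) / ((1 + t) * r'), by positivity, fun n => ?_⟩
  have b := one_add_mul_le_pow (a := t) (by linarith) n
  rw [pow_succ', ← mul_assoc, div_mul_cancel₀ _ r0.ne', mul_pow, ← mul_assoc]
  refine mul_le_mul_of_nonneg_right (le_trans ?_ (mul_le_mul_of_nonneg_left b (by positivity))) (by positivity)
  have : (1 + 1 / t) * (1 + n * t) = n + 1 + (n * t + 1 / t) := by field_simp; ring
  rw [this]
  exact le_add_of_nonneg_right (by positivity)

lemma ex_pd {r r' : ℝ} (h0 : 0 < r') (h : r' < r) :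
    ∃ M : ℝ, ∀ (i : Fin 2) (K : ℝ) (c : S), Nb (pw r) K c → Nb (pw r') (M * K) (pd i c) := by
  obtain ⟨M, M0, hM⟩ := ex_M h0 h
  refine ⟨M, fun i K c hc => hc.shift M0 Function.injective_id (add_left_injective (single i 1))
    (fun d hd => absurd ⟨d, rfl⟩ hd) fun e => ?_⟩
  simp only [id, coeff_pderiv, pw, dg_add, dg_single]
  rw [abs_mul, abs_of_pos (a := (e i + 1 : ℝ)) (by positivity), mul_assoc, mul_left_comm M]
  refine mul_le_mul_of_nonneg_left (le_trans ?_ (hM _)) (abs_nonneg _)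
  exact mul_le_mul_of_nonneg_right (by exact_mod_cast Nat.succ_le_succ (le_dg i e)) (by positivity)

/-! ### Uniformly bounded families -/

structure UB {ι : Type} (ω : D → ℝ) (m : ℕ) (c : ι → S) : Prop where
  ord : ∀ i, Ord m (c i)
  nb : ∃ K, ∀ i, Nb ω K (c i)

namespace UB
variable {ι : Type} {ω : D → ℝ} {m n : ℕ} {a b : ι → S}

lemma mono (h : UB ω m a) (e : n ≤ m) : UB ω n a := ⟨fun i => (h.ord i).mono e, h.nb⟩

lemma add (w : Wt ω) (h : UB ω m a) (k : UB ω m b) : UB ω m fun i => a i + b i := by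
  obtain ⟨K, hK⟩ := h.nb
  obtain ⟨L, hL⟩ := k.nb
  exact ⟨fun i => (h.ord i).add (k.ord i), _, fun i => (hK i).add w (hL i)⟩

lemma neg (h : UB ω m a) : UB ω m fun i => -a i := by
  obtain ⟨K, hK⟩ := h.nb
  exact ⟨fun i => (h.ord i).neg, _, fun i => (hK i).neg⟩

lemma sub (w : Wt ω) (h : UB ω m a) (k : UB ω m b) : UB ω m fun i => a i - b i := by
  simpa only [sub_eq_add_neg] using h.add w k.neg

lemma mul (w : Wt ω) (h : UB ω m a) (k : UB ω n b) : UB ω (m + n) fun i => a i * b i := by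
  obtain ⟨K, hK⟩ := h.nb
  obtain ⟨L, hL⟩ := k.nb
  exact ⟨fun i => (h.ord i).mul (k.ord i), _, fun i => (hK i).mul w (hL i)⟩

lemma X (w : Wt ω) (j : Fin 2) : UB ω 1 fun _ : ι => (X j : S) :=
  ⟨fun _ => Ord.X j, _, fun _ => Nb.monomial w _ 1⟩

lemma C (w : Wt ω) {κ : ι → ℝ} {B : ℝ} (h : ∀ i, |κ i| ≤ B) : UB ω 0 fun i => (C (κ i) : S) :=
  ⟨fun _ => Ord.zero _, B, fun i => (Nb.C w _).mono (h i)⟩

lemma one (w : Wt ω) : UB ω 0 fun _ : ι => (1 : S) := ⟨fun _ => Ord.zero _, 1, fun _ => Nb.one w⟩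

lemma pow (w : Wt ω) (h : UB ω m a) (k : ℕ) : UB ω (k * m) fun i => a i ^ k := by
  induction k with
  | zero => simpa using one w
  | succ k ih => simpa only [pow_succ, add_mul, one_mul] using ih.mul w h

lemma iU (h : UB cw m a) : UB cw (m + 1) fun i => iU (a i) := by
  obtain ⟨K, hK⟩ := h.nb
  exact ⟨fun i => (h.ord i).iU, _, fun i => (hK i).iU⟩

lemma T (h : UB cw m a) : UB cw m fun i => T (a i) := by
  obtain ⟨K, hK⟩ := h.nb
  exact ⟨fun i => (h.ord i).T, _, fun i => (hK i).T⟩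

lemma pd (h : UB cw (m + 1) a) (j : Fin 2) : UB (pw 7) m fun i => pd j (a i) := by
  obtain ⟨K, hK⟩ := h.nb
  obtain ⟨M, hM⟩ := ex_pd (r := 15) (r' := 7) (by norm_num) (by norm_num)
  exact ⟨fun i => (h.ord i).pd j, _, fun i => hM j K _ ((hK i).wt pw_le_cw)⟩

lemma plain (h : UB cw m a) : UB (pw 7) m a := by
  obtain ⟨K, hK⟩ := h.nb
  exact ⟨h.ord, K, fun i => ((hK i).wt pw_le_cw).wt (pw_le_pw (by norm_num) (by norm_num))⟩

lemma ev (h : UB ω m a) : ∀ᶠ K in atTop, ∀ i, Ord m (a i) ∧ Nb ω K (a i) := by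
  obtain ⟨K, hK⟩ := h.nb
  filter_upwards [eventually_ge_atTop K] with L hL i using ⟨h.ord i, (hK i).mono hL⟩

end UB

end A

end Pool.Agent.Lib.MP_f62ea7_gt
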