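import Pool.Agent.Lib.MP_f62ea7_gt.A1

/-! Block A, second part: evaluation of convergent series. -/

set_option autoImplicit false

namespace Pool.Agent.Lib.MP_f62ea7_gt

namespace A

open MvPowerSeries Finsupp Finset Filter Topology
open scoped ContDiff

/-- the monomial function -/
def mo (d : D) (z : P) : ℝ := z.1 ^ d 0 * z.2 ^ d 1

noncomputable def ev (c : S) (z : P) : ℝ := ∑' d, coeff d c * mo d z

/-- convergent series -/
def Cv (c : S) : Prop := ∃ r K : ℝ, 7 < r ∧ Nb (pw r) K c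

lemma mo_add (d e : D) (z : P) : mo (d + e) z = mo d z * mo e z := by
  simp only [mo, Finsupp.add_apply, pow_add]; ring

lemma abs_mo_le (d : D) (z : P) : |mo d z| ≤ ‖z‖ ^ dg d := by
  rw [mo, dg, abs_mul, abs_pow, abs_pow, pow_add]
  exact mul_le_mul (pow_le_pow_left₀ (abs_nonneg _) (abs_fst_le z) _)
    (pow_le_pow_left₀ (abs_nonneg _) (abs_snd_le z) _) (by positivity) (by positivity)

lemma Nb.norm_summable {K : ℝ} {c : S} (h : Nb (pw 7) K c) {z : P} (hz : ‖z‖ < 7) :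
    Summable fun d => ‖coeff d c * mo d z‖ := by
  refine (h.summable (wt_pw (by norm_num))).of_nonneg_of_le (fun _ => norm_nonneg _) fun d => ?_
  rw [Real.norm_eq_abs, abs_mul]
  exact mul_le_mul_of_nonneg_left ((abs_mo_le d z).trans (pow_le_pow_left₀ (norm_nonneg _) hz.le _))
    (abs_nonneg _)

lemma abs_ev_le {K : ℝ} {m : ℕ} {c : S} (o : Ord m c) (h : Nb (pw 7) K c) {z : P} (hz : ‖z‖ < 7) :
    |ev c z| ≤ K * ‖z‖ ^ m := by
  have w : Wt (pw 7) := wt_pw (by norm_num)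
  refine le_trans (tsum_of_norm_bounded (f := fun d => coeff d c * mo d z)
    ((h.summable w).mul_right (‖z‖ ^ m)).hasSum fun d => ?_) ?_
  · by_cases k : dg d < m
    · simp [o d k]
    · obtain ⟨n, hn⟩ : ∃ n, dg d = n + m := ⟨dg d - m, by omega⟩
      rw [Real.norm_eq_abs, abs_mul, mul_assoc]
      refine mul_le_mul_of_nonneg_left ((abs_mo_le d z).trans ?_) (abs_nonneg _)
      rw [pw, hn, pow_add]
      exact mul_le_mul_of_nonneg_right ((pow_le_pow_left₀ (norm_nonneg _) hz.le _).trans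
        (pow_le_pow_right₀ (by norm_num) (Nat.le_add_right _ _))) (by positivity)
  · rw [tsum_mul_right]
    exact mul_le_mul_of_nonneg_right (h.tsum_le w) (by positivity)

namespace Cv
variable {a b c : S}

lemma seven (h : Cv c) : ∃ K, Nb (pw 7) K c := by
  obtain ⟨r, K, hr, h⟩ := h
  exact ⟨K, h.wt (pw_le_pw (by norm_num) hr.le)⟩

lemma of_cw {K : ℝ} (h : Nb cw K c) : Cv c := ⟨15, K, by norm_num, h.wt pw_le_cw⟩

lemma both (h : Cv a) (k : Cv b) : ∃ r K L : ℝ, 7 < r ∧ Nb (pw r) K a ∧ Nb (pw r) L b := by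
  obtain ⟨r, K, hr, h⟩ := h
  obtain ⟨r', L, hr', k⟩ := k
  have m : 7 < min r r' := lt_min hr hr'
  exact ⟨min r r', K, L, m, h.wt (pw_le_pw (by linarith) (min_le_left _ _)),
    k.wt (pw_le_pw (by linarith) (min_le_right _ _))⟩

lemma add (h : Cv a) (k : Cv b) : Cv (a + b) := by
  obtain ⟨r, K, L, hr, h, k⟩ := h.both k
  exact ⟨r, _, hr, h.add (wt_pw (by linarith)) k⟩

lemma mul (h : Cv a) (k : Cv b) : Cv (a * b) := by
  obtain ⟨r, K, L, hr, h, k⟩ := h.both k
  exact ⟨r, _, hr, h.mul (wt_pw (by linarith)) k⟩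

lemma neg (h : Cv a) : Cv (-a) := by
  obtain ⟨r, K, hr, h⟩ := h
  exact ⟨r, K, hr, h.neg⟩

lemma monomial (d : D) (r : ℝ) : Cv (monomial d r) := of_cw (Nb.monomial wt_cw d r)

lemma rf (h : Cv a) : Cv (rf a) := by
  obtain ⟨r, K, hr, h⟩ := h
  exact ⟨r, K, hr, fun s => by simpa [coeff_rf, abs_mul] using h s⟩

lemma pd (h : Cv a) (i : Fin 2) : Cv (pd i a) := by
  obtain ⟨r, K, hr, h⟩ := h
  obtain ⟨M, hM⟩ := ex_pd (r := r) (r' := (7 + r) / 2) (by linarith) (by linarith)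
  exact ⟨_, _, by linarith, hM i K a h⟩

lemma norm_summable (h : Cv c) {z : P} (hz : ‖z‖ < 7) : Summable fun d => ‖coeff d c * mo d z‖ := by
  obtain ⟨K, h⟩ := h.seven
  exact h.norm_summable hz

lemma summable (h : Cv c) {z : P} (hz : ‖z‖ < 7) : Summable fun d => coeff d c * mo d z :=
  (h.norm_summable hz).of_norm

end Cv

lemma ev_add {a b : S} (h : Cv a) (k : Cv b) {z : P} (hz : ‖z‖ < 7) : ev (a + b) z = ev a z + ev b z := by
  simp only [ev, map_add, add_mul]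
  exact (h.summable hz).tsum_add (k.summable hz)

lemma ev_neg (a : S) (z : P) : ev (-a) z = -ev a z := by
  simp only [ev, map_neg, neg_mul, tsum_neg]

lemma ev_mul {a b : S} (h : Cv a) (k : Cv b) {z : P} (hz : ‖z‖ < 7) : ev (a * b) z = ev a z * ev b z := by
  unfold ev
  rw [(h.summable hz).tsum_mul_tsum_eq_tsum_sum_antidiagonal (k.summable hz)
    (summable_mul_of_summable_norm (h.norm_summable hz) (k.norm_summable hz))]
  refine tsum_congr fun d => ?_
  rw [coeff_mul, Finset.sum_mul]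
  refine sum_congr rfl fun p hp => ?_
  rw [← mem_antidiagonal.1 hp, mo_add]; ring

lemma ev_monomial (d : D) (r : ℝ) (z : P) : ev (monomial d r) z = r * mo d z := by
  unfold ev
  rw [tsum_eq_single d fun e he => by rw [coeff_monomial_ne he, zero_mul], coeff_monomial_same]

lemma ev_rf (a : S) (z : P) : ev (rf a) z = ev a (-z) := by
  refine tsum_congr fun d => ?_
  rw [coeff_rf, mo, mo, dg, Prod.fst_neg, Prod.snd_neg, neg_pow z.1, neg_pow z.2]; ring

lemma ev_axis {a : S} (h : (X 1 : S) ∣ a) (x : ℝ) : ev a (x, 0) = 0 := by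
  unfold ev
  rw [← tsum_zero (β := D)]
  refine tsum_congr fun d => ?_
  by_cases k : d 1 = 0
  · rw [X_dvd_iff.1 h d k, zero_mul]
  · simp [mo, k]

/-- derivative of a monomial -/
noncomputable def mo' (d : D) (z : P) : P →L[ℝ] ℝ :=
  (d 0 * z.1 ^ (d 0 - 1) * z.2 ^ d 1) • ContinuousLinearMap.fst ℝ ℝ ℝ +
    (d 1 * z.1 ^ d 0 * z.2 ^ (d 1 - 1)) • ContinuousLinearMap.snd ℝ ℝ ℝ

lemma hasFDerivAt_mo (d : D) (z : P) : HasFDerivAt (mo d) (mo' d z) z := by
  have := ((hasFDerivAt_fst (𝕜 := ℝ) (p := z)).pow (d 0)).mul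
    ((hasFDerivAt_snd (𝕜 := ℝ) (p := z)).pow (d 1))
  refine this.congr_fderiv ?_
  ext <;> simp [mo'] <;> ring

lemma norm_mo'_le (d : D) {z : P} (hz : ‖z‖ < 7) : ‖mo' d z‖ ≤ (dg d + 1) * 7 ^ dg d := by
  have h1 : |z.1| ≤ 7 := (abs_fst_le z).trans hz.le
  have h2 : |z.2| ≤ 7 := (abs_snd_le z).trans hz.le
  have b : ∀ j k : ℕ, j + k ≤ dg d → |z.1| ^ j * |z.2| ^ k ≤ 7 ^ dg d := fun j k h =>
    (mul_le_mul (pow_le_pow_left₀ (abs_nonneg _) h1 _) (pow_le_pow_left₀ (abs_nonneg _) h2 _) (by positivity)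
      (by positivity)).trans (by rw [← pow_add]; exact pow_le_pow_right₀ (by norm_num) h)
  have b1 := b (d 0 - 1) (d 1) (by unfold dg; omega)
  have b2 := b (d 0) (d 1 - 1) (by unfold dg; omega)
  refine (norm_add_le _ _).trans ?_
  rw [norm_smul, norm_smul, ContinuousLinearMap.norm_fst, ContinuousLinearMap.norm_snd]
  simp only [Real.norm_eq_abs, abs_mul, abs_pow, Nat.abs_cast, mul_one, mul_assoc]
  have c1 := mul_le_mul_of_nonneg_left b1 (Nat.cast_nonneg (α := ℝ) (d 0))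
  have c2 := mul_le_mul_of_nonneg_left b2 (Nat.cast_nonneg (α := ℝ) (d 1))
  have : (dg d : ℝ) = d 0 + d 1 := by simp [dg]
  have p : (0 : ℝ) ≤ 7 ^ dg d := by positivity
  rw [this]; nlinarith

lemma Cv.der {c : S} (h : Cv c) {z : P} (hz : ‖z‖ < 7) :
    (Summable fun d => coeff d c • mo' d z) ∧ HasFDerivAt (ev c) (∑' d, coeff d c • mo' d z) z := by
  obtain ⟨r, K, hr, hc⟩ := id h
  obtain ⟨M, M0, hM⟩ := ex_M (r' := 7) (by norm_num) hr
  have su : Summable fun d => |coeff d c| * pw r d * (M * r) := (hc.summable (wt_pw (by linarith))).mul_right _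
  have bd : ∀ d, ∀ y ∈ Metric.ball (0 : P) 7, ‖coeff d c • mo' d y‖ ≤ |coeff d c| * pw r d * (M * r) :=
    fun d y hy => by
      rw [norm_smul, Real.norm_eq_abs, mul_assoc]
      refine mul_le_mul_of_nonneg_left ((norm_mo'_le d (by simpa using hy)).trans ((hM _).trans_eq ?_))
        (abs_nonneg _)
      rw [pw]; ring
  have hz' : z ∈ Metric.ball (0 : P) 7 := by simpa using hz
  exact ⟨su.of_norm_bounded fun d => bd d z hz', hasFDerivAt_tsum_of_isPreconnected su Metric.isOpen_ball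
    (convex_ball _ _).isPreconnected (fun d y _ => (hasFDerivAt_mo d y).const_mul (coeff d c)) bd hz'
    (h.summable hz) hz'⟩

lemma Cv.fd {c : S} (h : Cv c) {z : P} (hz : ‖z‖ < 7) (i : Fin 2) (v : P)
    (h0 : ∀ d : D, d i = 0 → mo' d z v = 0) (h1 : ∀ d : D, mo' (d + single i 1) z v = (d i + 1) * mo d z) :
    fderiv ℝ (ev c) z v = ev (A.pd i c) z := by
  obtain ⟨s, hd⟩ := h.der hz
  rw [hd.fderiv]
  refine ((ContinuousLinearMap.apply ℝ ℝ v).map_tsum s).trans ?_
  rw [← (add_left_injective (single i 1)).tsum_eq]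
  · refine tsum_congr fun d => ?_
    simp only [ContinuousLinearMap.apply_apply, _root_.smul_apply, h1, coeff_pderiv, smul_eq_mul]
    ring
  · intro d hd
    refine ex_succ fun k => hd ?_
    simp [h0 d k]

lemma Cv.dx_eq {c : S} (h : Cv c) {z : P} (hz : ‖z‖ < 7) : dx (ev c) z = ev (A.pd 0 c) z :=
  h.fd hz 0 _ (fun d k => by simp [mo', k]) fun d => by simp [mo', mo, mul_assoc]

lemma Cv.du_eq {c : S} (h : Cv c) {z : P} (hz : ‖z‖ < 7) : du (ev c) z = ev (A.pd 1 c) z :=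
  h.fd hz 1 _ (fun d k => by simp [mo', k]) fun d => by simp [mo', mo, mul_assoc]

lemma Cv.smooth {c : S} (h : Cv c) : ContDiffOn ℝ ∞ (ev c) (Metric.ball 0 7) := by
  refine contDiffOn_infty.2 fun n => ?_
  induction n generalizing c with
  | zero =>
    exact contDiffOn_zero.2 fun z hz =>
      (h.der (by simpa using hz)).2.continuousAt.continuousWithinAt
  | succ n ih =>
    rw [Nat.cast_succ, contDiffOn_succ_iff_fderiv_of_isOpen Metric.isOpen_ball]
    refine ⟨fun z hz => (h.der (by simpa using hz)).2.differentiableAt.differentiableWithinAt, by simp, ?_⟩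
    refine (((ih (h.pd 0)).smul_const (ContinuousLinearMap.fst ℝ ℝ ℝ)).add
      ((ih (h.pd 1)).smul_const (ContinuousLinearMap.snd ℝ ℝ ℝ))).congr fun z hz => ?_
    have hz : ‖z‖ < 7 := by simpa using hz
    refine ContinuousLinearMap.ext fun v => ?_
    rw [fderiv_apply_eq, h.dx_eq hz, h.du_eq hz]
    simp [mul_comm]

/-- `f` is the sum of the series `c` on the box of size `6`. -/
structure Rep (c : S) (f : P → ℝ) : Prop where
  cv : Cv c
  eq : ∀ z : P, ‖z‖ < 6 → f z = ev c z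

lemma Cv.rep {c : S} (h : Cv c) : ∃ f, ContDiff ℝ ∞ f ∧ Rep c f := by
  obtain ⟨χ, h1, -, h2, h3, -⟩ := exists_cutoff (isCompact_closedBall (0 : P) 6) (Metric.isOpen_ball (ε := 7))
    (Metric.closedBall_subset_ball (by norm_num))
  refine ⟨_, contDiff_cutoff_smul Metric.isOpen_ball h1 h2 h.smooth, h, fun z hz => ?_⟩
  rw [h3 z (by simpa using hz.le), one_smul]

namespace Rep
variable {a b : S} {f g : P → ℝ}

lemma lt {z : P} (h : ‖z‖ < 6) : ‖z‖ < 7 := by linarith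

lemma add (h : Rep a f) (k : Rep b g) : Rep (a + b) fun z => f z + g z :=
  ⟨h.cv.add k.cv, fun z hz => by rw [ev_add h.cv k.cv (lt hz), h.eq z hz, k.eq z hz]⟩

lemma mul (h : Rep a f) (k : Rep b g) : Rep (a * b) fun z => f z * g z :=
  ⟨h.cv.mul k.cv, fun z hz => by rw [ev_mul h.cv k.cv (lt hz), h.eq z hz, k.eq z hz]⟩

lemma neg (h : Rep a f) : Rep (-a) fun z => -f z := ⟨h.cv.neg, fun z hz => by rw [ev_neg, h.eq z hz]⟩

lemma sub (h : Rep a f) (k : Rep b g) : Rep (a - b) fun z => f z - g z := by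
  simpa only [sub_eq_add_neg] using h.add k.neg

lemma C (r : ℝ) : Rep (C r) fun _ => r :=
  ⟨Cv.monomial 0 r, fun z _ => by rw [← monomial_zero_eq_C_apply, ev_monomial]; simp [mo]⟩

lemma one : Rep 1 fun _ => 1 := by simpa using C 1

lemma x : Rep (X 0) fun z => z.1 := ⟨Cv.monomial _ 1, fun z _ => by rw [X_def, ev_monomial]; simp [mo]⟩

lemma u : Rep (X 1) fun z => z.2 := ⟨Cv.monomial _ 1, fun z _ => by rw [X_def, ev_monomial]; simp [mo]⟩

lemma pow (h : Rep a f) (n : ℕ) : Rep (a ^ n) fun z => f z ^ n := by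
  induction n with
  | zero => simpa using one
  | succ n ih => simpa only [pow_succ] using ih.mul h

lemma fd (h : Rep a f) {z : P} (hz : ‖z‖ < 6) : fderiv ℝ f z = fderiv ℝ (ev a) z := by
  refine EventuallyEq.fderiv_eq ?_
  filter_upwards [(isOpen_lt continuous_norm continuous_const).mem_nhds hz] with y hy using h.eq y hy

lemma dx (h : Rep a f) : Rep (pd 0 a) (dx f) :=
  ⟨h.cv.pd 0, fun z hz => by rw [← h.cv.dx_eq (lt hz)]; exact DFunLike.congr_fun (h.fd hz) _⟩

lemma du (h : Rep a f) : Rep (pd 1 a) (du f) :=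
  ⟨h.cv.pd 1, fun z hz => by rw [← h.cv.du_eq (lt hz)]; exact DFunLike.congr_fun (h.fd hz) _⟩

lemma rf (h : Rep a f) : Rep (rf a) fun z => f (-z) :=
  ⟨h.cv.rf, fun z hz => by rw [ev_rf, h.eq _ (by rwa [norm_neg])]⟩

lemma ext (h : Rep a f) (k : Rep b g) (e : a = b) (z : P) (hz : ‖z‖ < 6) : f z = g z := by
  rw [h.eq z hz, k.eq z hz, e]

lemma bound (h : Rep a f) {K s : ℝ} {m : ℕ} (e : a = MvPowerSeries.C s * b) (s0 : 0 ≤ s)
    (k : Ord m b ∧ Nb (pw 7) K b) (z : P) (hz : ‖z‖ < 6) : |f z| ≤ K * s * ‖z‖ ^ m := by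
  have w : Wt (pw 7) := wt_pw (by norm_num)
  have := abs_ev_le ((Ord.zero (MvPowerSeries.C s)).mul k.1) ((Nb.C w s).mul w k.2) (lt hz)
  rwa [zero_add, abs_of_nonneg s0, mul_comm s, ← e, ← h.eq z hz] at this

end Rep

end A

end Pool.Agent.Lib.MP_f62ea7_gt
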