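import Pool.Agent.Lib.MP_f62ea7_gt.Basic

set_option autoImplicit false

open MeasureTheory Set Filter Topology Real
open scoped ContDiff ENNReal

namespace Pool.Agent.Lib.MP_f62ea7_gt

namespace AL1

lemma sT_diff : Differentiable ℝ smoothTransition :=
  (smoothTransition.contDiff (n := 1)).differentiable (by simp)

lemma sT_supp {t : ℝ} (h : deriv smoothTransition t ≠ 0) : 0 ≤ t ∧ t ≤ 1 := by
  constructor
  · by_contra a
    refine h ((EventuallyEq.deriv_eq (f := fun _ => (0 : ℝ)) ?_).trans (deriv_const _ _))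
    filter_upwards [Iio_mem_nhds (not_le.1 a)] with x hx using smoothTransition.zero_of_nonpos (le_of_lt hx)
  · by_contra a
    refine h ((EventuallyEq.deriv_eq (f := fun _ => (1 : ℝ)) ?_).trans (deriv_const _ _))
    filter_upwards [Ioi_mem_nhds (not_le.1 a)] with x hx using smoothTransition.one_of_one_le (le_of_lt hx)

lemma sT_bd : ∃ S, 0 ≤ S ∧ ∀ t, deriv smoothTransition t ≤ S := by
  have hc : Continuous (deriv smoothTransition) :=
    (smoothTransition.contDiff (n := 1)).continuous_deriv le_rfl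
  obtain ⟨S, hS⟩ := isCompact_Icc.exists_bound_of_continuousOn (s := Icc (0 : ℝ) 1) hc.continuousOn
  refine ⟨|S|, abs_nonneg _, fun t => ?_⟩
  by_cases h : deriv smoothTransition t = 0
  · rw [h]; exact abs_nonneg _
  · exact (le_abs_self _).trans ((hS t (sT_supp h)).trans (le_abs_self _))

noncomputable def q (l : ℝ) (p : P) : ℝ := 1 / 100 * (l ^ 2 * p.1 ^ 2 + p.2 ^ 2 / l ^ 2)

lemma q_sm (l : ℝ) : ContDiff ℝ ∞ (q l) := by unfold q; fun_prop

lemma q_der (l : ℝ) (p v : P) :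
    fderiv ℝ (q l) p v = 1 / 50 * (l ^ 2 * p.1 * v.1 + p.2 * v.2 / l ^ 2) := by
  have h1 : HasFDerivAt (fun p : P => p.1) (ContinuousLinearMap.fst ℝ ℝ ℝ) p := hasFDerivAt_fst
  have h2 : HasFDerivAt (fun p : P => p.2) (ContinuousLinearMap.snd ℝ ℝ ℝ) p := hasFDerivAt_snd
  have : HasFDerivAt (fun p : P => 1 / 100 * (l ^ 2 * p.1 ^ 2 + p.2 ^ 2 * (l ^ 2)⁻¹)) _ p :=
    (((h1.pow 2).const_mul (l ^ 2)).add ((h2.pow 2).mul_const (l ^ 2)⁻¹)).const_mul (1 / 100)
  have e : q l = fun p : P => 1 / 100 * (l ^ 2 * p.1 ^ 2 + p.2 ^ 2 * (l ^ 2)⁻¹) := by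
    ext p; simp [q, div_eq_mul_inv]
  rw [e, HasFDerivAt.fderiv this]
  simp
  ring

noncomputable def K0 (X : Geo) (l : ℝ) (p : P) : ℝ :=
  q l p + smoothTransition (64 / l ^ 4 * X.ψ p - 1) * (X.ψ p - q l p)

variable {κ C : ℝ} {X : Geo}

lemma ψ_sm (h : Full κ C X) {p : P} (h1 : ‖p‖ < 3) (h2 : p ≠ 0) : ContDiffAt ℝ ∞ X.ψ p := by
  have := h.Ψ_sm.contDiffAt ((Metric.isOpen_ball.sdiff isClosed_singleton).mem_nhds
    ⟨mem_ball_zero_iff.2 h1, h2⟩)
  exact ((h.w_sm.contDiffAt.comp p this).pow 2).div_const 2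

lemma K0_zero (h : Full κ C X) {l : ℝ} (hl : 0 < l) : K0 X l =ᶠ[𝓝 0] q l := by
  have hc : Continuous X.ψ := ((h.w_sm.continuous.comp h.Ψ_cont).pow 2).div_const 2
  have w0 : X.w 0 = 0 := by
    have a := h.w_lo 0 (by simp)
    have b := h.w_hi 0 (by simp)
    simp at a b
    linarith
  have z : 64 / l ^ 4 * X.ψ 0 - 1 < 0 := by simp [Geo.ψ, h.Ψ_zero, w0]
  filter_upwards [((continuous_const.mul hc).sub continuous_const).continuousAt.eventually_lt
    continuousAt_const z] with p hp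
  rw [K0, smoothTransition.zero_of_nonpos (x := 64 / l ^ 4 * X.ψ p - 1) (le_of_lt hp), zero_mul, add_zero]

lemma K0_sm (h : Full κ C X) {l : ℝ} (hl : 0 < l) : ContDiffOn ℝ ∞ (K0 X l) (Metric.ball 0 2) := by
  intro p hp
  refine ContDiffAt.contDiffWithinAt ?_
  by_cases h0 : p = 0
  · subst h0
    exact (q_sm l).contDiffAt.congr_of_eventuallyEq (K0_zero h hl)
  · have a := ψ_sm h ((mem_ball_zero_iff.1 hp).trans (by norm_num)) h0
    exact (q_sm l).contDiffAt.add ((smoothTransition.contDiffAt.comp p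
      ((contDiffAt_const.mul a).sub contDiffAt_const)).mul (a.sub (q_sm l).contDiffAt))

lemma K0_der (h : Full κ C X) (l : ℝ) {p : P} (h1 : ‖p‖ < 3) (h2 : p ≠ 0) (v : P) :
    fderiv ℝ (K0 X l) p v = (1 - smoothTransition (64 / l ^ 4 * X.ψ p - 1)) * fderiv ℝ (q l) p v +
      smoothTransition (64 / l ^ 4 * X.ψ p - 1) * fderiv ℝ X.ψ p v +
      deriv smoothTransition (64 / l ^ 4 * X.ψ p - 1) * (64 / l ^ 4 * (X.ψ p - q l p)) * fderiv ℝ X.ψ p v := by
  have a := ((ψ_sm h h1 h2).differentiableAt (by simp)).hasFDerivAt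
  have b := ((q_sm l).differentiable (by simp) p).hasFDerivAt
  have c := (sT_diff (64 / l ^ 4 * X.ψ p - 1)).hasDerivAt.comp_hasFDerivAt p
    ((a.const_mul (64 / l ^ 4)).sub_const 1)
  have d : HasFDerivAt (K0 X l) _ p := b.add (c.mul (a.sub b))
  rw [d.fderiv]
  simp
  ring

/-- size of the label in terms of `w` -/
lemma size (h : Full κ C X) {p : P} (hp : ‖p‖ ≤ 2) {l a : ℝ} (hl : 0 < l) (ha : 0 ≤ a)
    (hw : X.w (X.Ψ p) ≤ 49 / 100 * (a * l ^ 2)) : p.1 ^ 2 ≤ a * l ^ 2 ∧ p.2 ^ 2 ≤ a ^ 3 * l ^ 6 := by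
  have n := (h.box_n p hp).le
  have a1 := h.w_lo _ n
  have a2 := h.Y_hi _ n
  have a3 : X.Y (X.Ψ p) = p.2 := congrArg Prod.snd (h.ΦΨ p (by linarith))
  have a4 := norm_sq_le (X.Ψ p)
  have a5 : (X.Ψ p).1 = p.1 := rfl
  rw [a3] at a2
  refine ⟨by rw [← a5]; linarith [sq_nonneg (X.Ψ p).2], ?_⟩
  calc p.2 ^ 2 = |p.2| ^ 2 := (sq_abs _).symm
    _ ≤ (‖X.Ψ p‖ ^ 3) ^ 2 := by gcongr
    _ = (‖X.Ψ p‖ ^ 2) ^ 3 := by ring
    _ ≤ (a * l ^ 2) ^ 3 := by gcongr; linarith
    _ = _ := by ring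

lemma inner (h : Full κ C X) {p : P} (hp : ‖p‖ ≤ 2) {l : ℝ} (hl : 0 < l)
    (ht : 64 / l ^ 4 * X.ψ p - 1 ≤ 1) : p.1 ^ 2 ≤ 3 / 5 * l ^ 2 ∧ p.2 ^ 2 ≤ (3 / 5) ^ 3 * l ^ 6 := by
  refine size h hp hl (by norm_num) (le_trans (b := l ^ 2 / 4) ?_ (by nlinarith [sq_nonneg l]))
  have : 64 / l ^ 4 * X.ψ p ≤ 2 := by linarith
  rw [div_mul_eq_mul_div, div_le_iff₀ (by positivity), Geo.ψ] at this
  exact le_of_sq_le_sq (by nlinarith) (by positivity)

lemma trans (h : Full κ C X) {p : P} (hp : ‖p‖ ≤ 2) {l S : ℝ} (hl : 0 < l) (hS0 : 0 ≤ S)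
    (hS : ∀ t, deriv smoothTransition t ≤ S) :
    0 ≤ deriv smoothTransition (64 / l ^ 4 * X.ψ p - 1) * (64 / l ^ 4 * (X.ψ p - q l p)) ∧
      deriv smoothTransition (64 / l ^ 4 * X.ψ p - 1) * (64 / l ^ 4 * (X.ψ p - q l p)) ≤ 2 * S := by
  by_cases z : deriv smoothTransition (64 / l ^ 4 * X.ψ p - 1) = 0
  · rw [z, zero_mul]; exact ⟨le_rfl, by positivity⟩
  obtain ⟨a, b⟩ := sT_supp z
  obtain ⟨c, d⟩ := inner h hp hl b
  have q0 : 0 ≤ 64 / l ^ 4 * q l p := by unfold q; positivity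
  have q1 : 64 / l ^ 4 * q l p ≤ 1 := by
    have e : p.2 ^ 2 / l ^ 2 ≤ (3 / 5) ^ 3 * l ^ 4 := by
      rw [div_le_iff₀ (by positivity)]; linarith
    have f : l ^ 2 * p.1 ^ 2 ≤ 3 / 5 * l ^ 4 := by nlinarith [sq_nonneg l]
    rw [div_mul_eq_mul_div, div_le_one (by positivity), q]
    nlinarith [pow_pos hl 4]
  have d0 : 0 ≤ deriv smoothTransition (64 / l ^ 4 * X.ψ p - 1) := smoothTransition.monotone.deriv_nonneg
  rw [mul_sub (64 / l ^ 4)]
  exact ⟨mul_nonneg d0 (by linarith),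
    (mul_le_mul (hS _) (by linarith : _ ≤ (2 : ℝ)) (by linarith) hS0).trans_eq (mul_comm _ _)⟩

lemma rad (h : Full κ C X) {p : P} (hp : ‖p‖ ≤ 2) (h0 : p ≠ 0) :
    (p.1 ^ 4 + X.U p ^ 4) / 10 ≤ fderiv ℝ X.ψ p p := by
  have a := h.rad_ψ _ (h.box_n p hp).le
  have a3 : X.Y (X.Ψ p) = p.2 := congrArg Prod.snd (h.ΦΨ p (by linarith))
  rw [fderiv_apply_eq, h.ψ_dx p (by linarith) h0, h.ψ_du p (by linarith) h0]
  rw [a3] at a
  change (p.1 ^ 4 + X.U p ^ 4) / 10 ≤ X.U p * p.2 - p.1 * _ at a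
  linarith

end AL1

open AL1 in
theorem blk_AL1 : St_AL1 := by
  intro κ C X h
  obtain ⟨S, S0, hS⟩ := sT_bd
  refine ⟨1 / 100000, 126 + 250 * S, 1, by norm_num, one_pos, fun l hl l1 => ?_⟩
  obtain ⟨χ, x1, x2, x3, x4, -⟩ := exists_cutoff (K := Metric.closedBall (0 : P) (3 / 2)) (O := Metric.ball 0 2)
    (isCompact_closedBall _ _) Metric.isOpen_ball (Metric.closedBall_subset_ball (by norm_num))
  have e1 : ∀ p : P, ‖p‖ < 3 / 2 → χ p • K0 X l p = K0 X l p := fun p hp => by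
    rw [x4 p (mem_closedBall_zero_iff.2 hp.le), one_smul]
  have e2 : ∀ p : P, ‖p‖ < 3 / 2 → (fun p => χ p • K0 X l p) =ᶠ[𝓝 p] K0 X l := fun p hp => by
    filter_upwards [Metric.isOpen_ball.mem_nhds (mem_ball_zero_iff.2 hp)] with x hx
    exact e1 x (mem_ball_zero_iff.1 hx)
  have σ0 := fun p => smoothTransition.nonneg (64 / l ^ 4 * X.ψ p - 1)
  have σ1 := fun p => smoothTransition.le_one (64 / l ^ 4 * X.ψ p - 1)
  have low : ∀ p ∈ X.N, p ≠ 0 → ∀ c : ℝ, c ≤ 2 * q l p →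
      (0 < smoothTransition (64 / l ^ 4 * X.ψ p - 1) → c ≤ fderiv ℝ X.ψ p p) →
      c ≤ p.1 * dx (fun p => χ p • K0 X l p) p + p.2 * du (fun p => χ p • K0 X l p) p := by
    intro p hp h0 c c1 c2
    have n := h.N_small p hp
    have r0 : 0 ≤ fderiv ℝ X.ψ p p := le_trans (by positivity) (rad h (by linarith) h0)
    have t := mul_nonneg (trans h (p := p) (by linarith) hl S0 hS).1 r0
    have eq : fderiv ℝ (q l) p p = 2 * q l p := by rw [q_der, q]; ring
    rw [← fderiv_apply_eq, (e2 p n).fderiv_eq, K0_der h l (by linarith) h0, eq]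
    rcases (σ0 p).eq_or_lt with z | z
    · rw [← z]; linarith
    · nlinarith [mul_le_mul_of_nonneg_left c1 (sub_nonneg.2 (σ1 p)), mul_le_mul_of_nonneg_left (c2 z) z.le]
  have bd : ∀ p ∈ X.N, ∀ v : P, (v = (1, 0) ∨ v = (0, 1)) →
      |fderiv ℝ (fun p => χ p • K0 X l p) p v| ≤ 126 + 250 * S := by
    intro p hp v hv
    have n := h.N_small p hp
    rw [(e2 p n).fderiv_eq]
    by_cases h0 : p = 0
    · subst h0
      rw [(K0_zero h hl).fderiv_eq, q_der]
      simp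
      positivity
    have n5 := (h.box_n p (by linarith)).le
    have a1 : |fderiv ℝ X.ψ p v| ≤ 125 := by
      rcases hv with rfl | rfl
      · have := h.ψ_dx p (by linarith) h0
        rw [dx] at this
        rw [this, abs_neg]
        exact (h.V_hi _ n5).trans ((pow_le_pow_left₀ (norm_nonneg _) n5 3).trans (by norm_num))
      · have := h.ψ_du p (by linarith) h0
        rw [du] at this
        rw [this]
        linarith [h.U_bd p (by linarith)]
    have a2 : |(1 - smoothTransition (64 / l ^ 4 * X.ψ p - 1)) * fderiv ℝ (q l) p v| ≤ 1 := by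
      by_cases z : 1 ≤ 64 / l ^ 4 * X.ψ p - 1
      · simp [smoothTransition.one_of_one_le z]
      obtain ⟨c, d⟩ := inner h (p := p) (by linarith) hl (not_le.1 z).le
      rw [abs_mul, abs_of_nonneg (sub_nonneg.2 (σ1 p))]
      refine mul_le_one₀ (by linarith [σ0 p]) (abs_nonneg _) ?_
      have l2 : l ^ 2 ≤ 1 := pow_le_one₀ hl.le l1
      rw [q_der]
      rcases hv with rfl | rfl
      · have : |p.1| ≤ 1 := by rw [← sq_le_one_iff_abs_le_one]; linarith
        simp only [mul_one, mul_zero, zero_div, add_zero, abs_mul, abs_of_nonneg (sq_nonneg l)]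
        rw [abs_of_pos (by norm_num)]
        nlinarith [abs_nonneg p.1]
      · have : |p.2| ≤ l ^ 2 := abs_le_of_sq_le_sq' (by nlinarith [pow_pos hl 4]) (by positivity) |> abs_le.2
        simp only [mul_one, mul_zero, zero_add, abs_mul, abs_div, abs_of_nonneg (sq_nonneg l)]
        rw [abs_of_pos (by norm_num)]
        have := (div_le_one (by positivity : 0 < l ^ 2)).2 this
        linarith
    obtain ⟨t0, t1⟩ := trans h (p := p) (by linarith) hl S0 hS
    rw [K0_der h l (by linarith) h0]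
    refine (abs_add_three _ _ _).trans ?_
    rw [abs_mul (smoothTransition _), abs_mul (_ * _), abs_of_nonneg (σ0 p), abs_of_nonneg t0]
    nlinarith [mul_le_mul (σ1 p) a1 (abs_nonneg _) one_pos.le, mul_le_mul t1 a1 (abs_nonneg _) (by positivity)]
  refine ⟨fun p => χ p • K0 X l p, contDiff_cutoff_smul Metric.isOpen_ball x1 x3 (K0_sm h hl),
    x2.smul_right, fun p hp => ?_, fun p hp hw => ?_, ⟨1 / 100, by norm_num, ?_⟩, fun p hp hw => ?_,
    fun p hp h0 => ?_, fun p hp => ⟨bd p hp _ (Or.inl rfl), bd p hp _ (Or.inr rfl)⟩⟩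
  · have n := h.N_small p hp
    have a : X.ψ (-p) = X.ψ p := by
      rw [Geo.ψ, Geo.ψ, h.Ψ_odd p (by linarith), h.w_even _ (by linarith [h.box_n p (by linarith)])]
    have b : q l (-p) = q l p := by simp [q]
    rw [e1 p n, e1 (-p) (by rwa [norm_neg]), K0, K0, a, b]
  · rw [e1 p hp, K0, smoothTransition.one_of_one_le]
    · ring
    · rw [le_sub_iff_add_le, div_mul_eq_mul_div, le_div_iff₀ (by positivity), Geo.ψ]
      nlinarith [pow_le_pow_left₀ (by positivity) hw.le 2]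
  · exact (e2 0 (by simp)).trans (K0_zero h hl)
  · by_cases h0 : p = 0
    · simp [h0]
    have n := h.N_small p hp
    refine low p hp h0 _ ?_ fun z => le_trans ?_ (rad h (by linarith) h0)
    · have : 0 ≤ l ^ 2 * p.1 ^ 2 + p.2 ^ 2 / l ^ 2 := by positivity
      unfold q
      linarith
    · obtain ⟨c, d⟩ := size h (p := p) (a := 7) (by linarith) hl (by norm_num) (by nlinarith [sq_nonneg l])
      have e : p.2 ^ 2 / l ^ 2 ≤ 7 ^ 3 * l ^ 4 := by
        rw [div_le_iff₀ (by positivity)]; linarith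
      have f : l ^ 2 * p.1 ^ 2 ≤ 7 * l ^ 4 := by nlinarith [sq_nonneg l]
      have g : 0 < 64 / l ^ 4 * X.ψ p - 1 := by
        by_contra g
        exact z.ne' (smoothTransition.zero_of_nonpos (not_lt.1 g))
      rw [sub_pos, div_mul_eq_mul_div, lt_div_iff₀ (by positivity), Geo.ψ] at g
      have n5 := (h.box_n p (by linarith)).le
      have w0 : 0 ≤ X.w (X.Ψ p) := le_trans (by positivity) (h.w_lo _ n5)
      have w1 := pow_le_pow_left₀ w0 (h.w_hi _ n5) 2
      change _ ≤ (51 / 100 * (p.1 ^ 2 + X.U p ^ 2)) ^ 2 at w1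
      nlinarith [sq_nonneg (p.1 ^ 2 - X.U p ^ 2)]
  · have n := h.N_small p hp
    have a : 0 < q l p := by
      unfold q
      rcases eq_or_ne p.1 0 with b | b
      · have : p.2 ≠ 0 := fun c => h0 (Prod.ext b c)
        positivity
      · positivity
    have b : 0 < fderiv ℝ X.ψ p p := by
      refine lt_of_lt_of_le ?_ (rad h (by linarith) h0)
      rcases eq_or_ne p.1 0 with b | b
      · have : X.U p ≠ 0 := fun c => h.Ψ_ne p (by linarith) h0 (Prod.ext b c)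
        positivity
      · positivity
    exact (lt_min (by linarith : 0 < 2 * q l p) b).trans_le
      (low p hp h0 _ (min_le_left _ _) fun _ => min_le_right _ _)

end Pool.Agent.Lib.MP_f62ea7_gt
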