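import Pool.Agent.Lib.MP_f62ea7_gt.ALPHA2

set_option autoImplicit false

open MeasureTheory Set Filter Topology Real
open scoped ContDiff ENNReal

namespace Pool.Agent.Lib.MP_f62ea7_gt

namespace ALPHA

/-- the cutoff -/
noncomputable def sc (X : Geo) (l : ℝ) (p : P) : ℝ := smoothTransition (2 - m X p / l ^ 2)

open Classical in
/-- the running time -/
noncomputable def At (X : Geo) (l : ℝ) (TK : P → ℝ) (t0 : ℝ) (p : P) : ℝ :=
  if m X p < 3 * l ^ 2 then (if p = 0 then t0 else sc X l p * TK p + (1 - sc X l p) * π) else π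

variable {κ C : ℝ} {X : Geo} {c0 CK l : ℝ} {K : P → ℝ} {k : ℝ → P → P}

lemma sc_one (hl : 0 < l) {p : P} (hm : m X p ≤ l ^ 2) : sc X l p = 1 := by
  apply smoothTransition.one_of_one_le
  have : m X p / l ^ 2 ≤ 1 := by rwa [div_le_one (pow_pos hl 2)]
  linarith

lemma sc_zero (hl : 0 < l) {p : P} (hm : 2 * l ^ 2 ≤ m X p) : sc X l p = 0 := by
  apply smoothTransition.zero_of_nonpos
  have : 2 ≤ m X p / l ^ 2 := by rwa [le_div_iff₀ (pow_pos hl 2)]
  linarith

lemma At_Om {TK : P → ℝ} {t0 : ℝ} {p : P} (hp : p ∈ Om X l) :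
    At X l TK t0 p = sc X l p * TK p + (1 - sc X l p) * π := by
  unfold At; rw [if_pos hp.2.2, if_neg hp.2.1]

namespace Ctx

variable (H : Ctx κ C X c0 CK l K k)
include H

lemma ne_of_m {p : P} {a : ℝ} (ha : 0 < a) (hm : a ≤ m X p) : p ≠ 0 := by
  rintro rfl
  rw [m_zero H.h] at hm; linarith

lemma At_far {TK : P → ℝ} {t0 : ℝ} {p : P} (hm : 2 * l ^ 2 ≤ m X p) : At X l TK t0 p = π := by
  unfold At
  split_ifs with h1 h2
  · exact absurd h2 (H.ne_of_m (by linarith [H.l2_pos]) hm)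
  · rw [sc_zero H.l_pos hm]; ring
  · rfl

variable {TK : P → ℝ} {t0 : ℝ} (HT : HalfP X c0 l k TK t0)
include HT

lemma At_sm : ContDiffOn ℝ ∞ (At X l TK t0) X.N := by
  intro p hp
  refine ContDiffAt.contDiffWithinAt ?_
  have hl := H.l2_pos
  by_cases h0 : p = 0
  · subst h0
    have h1 : ∀ᶠ p in 𝓝 (0 : P), m X p < l ^ 2 :=
      (m_cont H.h).continuousAt.eventually (gt_mem_nhds (by rw [m_zero H.h]; exact hl))
    refine (contDiffAt_const (c := t0)).congr_of_eventuallyEq ?_
    filter_upwards [h1, HT.near] with q a b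
    unfold At
    rw [if_pos (by linarith)]
    split_ifs with hq
    · rfl
    · rw [sc_one H.l_pos a.le, b hq]; ring
  by_cases h3 : m X p < 3 * l ^ 2
  · have hO : p ∈ Om X l := ⟨hp, h0, h3⟩
    have hn := H.Om_open.mem_nhds hO
    have hm : ContDiffAt ℝ ∞ (m X) p := (m_sm H.h).contDiffAt
      ((Metric.isOpen_ball.sdiff isClosed_singleton).mem_nhds
        ⟨by simpa using (by linarith [hp.1] : ‖p‖ < 3), h0⟩)
    have hs : ContDiffAt ℝ ∞ (sc X l) p :=
      smoothTransition.contDiffAt.comp p (contDiffAt_const.sub (hm.div_const _))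
    have hT : ContDiffAt ℝ ∞ TK p := HT.sm.contDiffAt hn
    refine ((hs.mul hT).add (((contDiffAt_const (c := (1 : ℝ))).sub hs).mul
      (contDiffAt_const (c := π)))).congr_of_eventuallyEq ?_
    filter_upwards [hn] with q hq using At_Om hq
  · refine (contDiffAt_const (c := π)).congr_of_eventuallyEq ?_
    have h1 : ∀ᶠ q in 𝓝 p, 2 * l ^ 2 < m X q :=
      (m_cont H.h).continuousAt.eventually (lt_mem_nhds (by linarith))
    filter_upwards [h1] with q hq using H.At_far hq.le

lemma At_inv {p : P} (hp : p ∈ X.N) (t : ℝ) : At X l TK t0 (k t p) = At X l TK t0 p := by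
  have hl := H.l2_pos
  by_cases h0 : p = 0
  · rw [h0, H.k_origin]
  by_cases h3 : m X p < 3 * l ^ 2
  · have hO : p ∈ Om X l := ⟨hp, h0, h3⟩
    rw [At_Om hO, At_Om (H.k_Om hO t), H.TK_inv HT hO]
    have : sc X l (k t p) = sc X l p := by
      rcases lt_or_ge (m X p) (l ^ 2 / 2) with hm | hm
      · rw [sc_one H.l_pos (by linarith [(H.k_in hp hm t).2]), sc_one H.l_pos (by linarith)]
      · unfold sc; rw [H.m_out hp hm]
    rw [this]
  · have hm : l ^ 2 / 2 ≤ m X p := by linarith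
    rw [H.At_far (p := p) (by linarith), H.At_far (by rw [H.m_out hp hm]; linarith)]

lemma At_bd {p : P} (hp : p ∈ X.N) (h0 : p ≠ 0) : |At X l TK t0 p| ≤ π / c0 + π := by
  have hc := H.c0_pos
  have hπ := pi_pos
  have hq : 0 < π / c0 := by positivity
  by_cases h3 : m X p < 3 * l ^ 2
  · have hO : p ∈ Om X l := ⟨hp, h0, h3⟩
    rw [At_Om hO]
    have a : 0 ≤ sc X l p := smoothTransition.nonneg _
    have b : sc X l p ≤ 1 := smoothTransition.le_one _
    have d := HT.pos p hO
    have e : TK p ≤ π / c0 := by rw [le_div_iff₀ hc]; linarith [HT.bd p hO]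
    rw [abs_le]
    constructor <;> nlinarith
  · rw [H.At_far (by linarith [H.l2_pos]), abs_of_pos hπ]; linarith

lemma At_end {T : P → ℝ} (hT : IsT X T) {p : P} (hp : p ∈ X.N) :
    k (At X l TK t0 p) p = gam X T l 0 p := by
  have hl := H.l2_pos
  have hb : bb X T l p = sc X l p * (π - T (X.Ψ p)) := rfl
  unfold gam
  by_cases h0 : p = 0
  · rw [h0, H.k_origin, H.h.eta_origin]
  rcases lt_or_ge (m X p) (l ^ 2 / 2) with hm | hm
  · have hO : p ∈ Om X l := ⟨hp, h0, by linarith⟩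
    have h1 := sc_one (X := X) H.l_pos (p := p) (by linarith)
    rw [At_Om hO, hb, h1]
    have e1 : 1 * TK p + (1 - 1) * π = TK p := by ring
    have e2 : π - (1 - 0) * (1 * (π - T (X.Ψ p))) = T (X.Ψ p) := by ring
    rw [e1, e2, HT.half p hO]
    exact ((eta_neg_iff H.h hp _).2 (hT.T_half _ (Ψ_Wo H.h hp h0))).symm
  · rw [H.k_eta hp hm]
    congr 1
    by_cases h3 : m X p < 3 * l ^ 2
    · have hO : p ∈ Om X l := ⟨hp, h0, h3⟩
      rw [At_Om hO, hb, H.TK_out HT hT hO hm]; ring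
    · rw [H.At_far (by linarith), hb, sc_zero H.l_pos (by linarith)]; ring

lemma comp_sm (σ : ℝ) :
    ContDiffOn ℝ ∞ (fun q : ℝ × P => k (σ * (q.1 * At X l TK t0 q.2)) q.2) (univ ×ˢ X.N) := by
  have h1 : ContDiffOn ℝ ∞ (fun q : ℝ × P => At X l TK t0 q.2) (univ ×ˢ X.N) :=
    (H.At_sm HT).comp contDiffOn_snd fun q hq => hq.2
  exact H.sm.comp_contDiffOn
    ((contDiffOn_const.mul (contDiffOn_fst.mul h1)).prodMk contDiffOn_snd)

lemma vol (hM : St_MP) (t : ℝ) {A : Set P} (hA : A ⊆ X.N) (hm : MeasurableSet A) :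
    volume ((fun p => k (t * At X l TK t0 p) p) '' A) = volume A := by
  have hd : Differentiable ℝ K := H.hK.K_sm.differentiable (by simp)
  have key := hM (X.N \ {0}) k K (fun p => t * At X l TK t0 p)
    (H.h.N_open.sdiff isClosed_singleton) (H.sm.of_le (by simp)).contDiffOn
    (fun p hp s => ⟨H.k_N hp.1 s, H.k_ne hp.2 s⟩) (fun p _ s t => H.add s t p)
    (fun p _ => H.zero p) hd.differentiableOn
    (fun p hp e => by
      have := H.hK.K_pos p hp.1 hp.2
      simp [dx, du, e] at this)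
    (fun p _ t => H.der p t)
    ((((H.At_sm HT).differentiableOn (by simp)).mono sdiff_subset).const_mul t)
    (fun p hp s => by rw [H.At_inv HT hp.1])
    (A \ {0}) (sdiff_subset_sdiff_left hA) (hm.diff (measurableSet_singleton 0))
  rw [measure_sdiff_null (measure_singleton _)] at key
  rw [← key]
  refine le_antisymm ?_ (measure_mono (image_mono sdiff_subset))
  calc volume ((fun p => k (t * At X l TK t0 p) p) '' A)
      ≤ volume ((fun p => k (t * At X l TK t0 p) p) '' (A \ {0}) ∪ {0}) := by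
        refine measure_mono ?_
        rintro _ ⟨p, hp, rfl⟩
        by_cases h0 : p = 0
        · right; rw [h0]; exact H.k_origin _
        · left; exact ⟨p, ⟨hp, h0⟩, rfl⟩
    _ ≤ _ := by
        refine (measure_union_le _ _).trans ?_
        rw [measure_singleton, add_zero]

end Ctx

end ALPHA

open ALPHA in
theorem blk_ALPHA (hF : St_FLOW) (hP : St_HP) (hM : St_MP) (hK : St_AL1) : St_ALPHA := by
  intro κ C X T h hT
  obtain ⟨c0, CK, l0, hc0, hl0, hex⟩ := hK κ C X h
  refine ⟨(π / c0 + π) * |CK|, min l0 (2 / 5), lt_min hl0 (by norm_num), fun l hl hle => ?_⟩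
  obtain ⟨K, hKl⟩ := hex l hl (hle.trans (min_le_left _ _))
  obtain ⟨k, k1, k2, k3, k4, k5⟩ := hF (Z K) (Z_sm hKl.K_sm) (Z_supp hKl.K_supp)
  have H : Ctx κ C X c0 CK l K k :=
    ⟨h, hKl, hc0, hl, hle.trans (min_le_right _ _), k1, k2, k3, k4, k5⟩
  obtain ⟨TK, t0, HT⟩ := H.exists_half hP
  refine ⟨fun t p => k (t * At X l TK t0 p) p, fun t p => k (-(t * At X l TK t0 p)) p,
    fun t p => At X l TK t0 p • Z K (k (t * At X l TK t0 p) p), ?_, ?_, fun t => ⟨?_, ?_, ?_, ?_⟩,
    fun p hp => ⟨?_, ?_⟩, fun t p hp => ⟨?_, ?_, fun hm => ?_⟩⟩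
  · simpa using H.comp_sm HT 1
  · simpa using H.comp_sm HT (-1)
  · exact fun p hp => H.k_M hp _
  · exact fun p hp => H.k_M hp _
  · refine ⟨fun p hp => ?_, fun p hp => ?_⟩
    · simp only [H.At_inv HT (h.M_sub hp)]
      exact H.inv _ _
    · simp only [H.At_inv HT (h.M_sub hp)]
      rw [← H.add, add_neg_cancel, H.zero]
  · exact fun A hA hm => H.vol HT hM t (hA.trans h.M_sub) hm
  · simp only [zero_mul, H.zero]
  · simp only [one_mul]
    exact H.At_end HT hT (h.M_sub hp)
  · have := (H.der p (t * At X l TK t0 p)).scomp t ((hasDerivAt_id t).mul_const (At X l TK t0 p))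
    simpa [Function.comp_def] using this
  · have hc : 0 ≤ π / c0 + π := by positivity
    by_cases h0 : p = 0
    · subst h0
      simp only [H.k_origin, H.Z_origin, smul_zero, norm_zero]
      positivity
    · rw [norm_smul, Real.norm_eq_abs]
      refine mul_le_mul (H.At_bd HT (h.M_sub hp) h0) ?_ (norm_nonneg _) hc
      obtain ⟨a, b⟩ := hKl.K_bd _ (H.k_N (h.M_sub hp) (t * At X l TK t0 p))
      rw [norm_le_iff]
      exact ⟨b.trans (le_abs_self _), by
        simp only [Z, abs_neg]; exact a.trans (le_abs_self _)⟩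
  · have hm' : l ^ 2 / 2 ≤ m X p := by
      change 2 * l ^ 2 ≤ m X p at hm
      linarith [H.l2_pos]
    simp only [H.At_far hm]
    rw [H.k_eta (h.M_sub hp) hm', H.Z_eta (h.M_sub hp) hm', mul_comm]

end Pool.Agent.Lib.MP_f62ea7_gt
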