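import Pool.Agent.Lib.MP_f62ea7_gt.Basic

set_option autoImplicit false

open MeasureTheory Set Filter Topology Real
open scoped ContDiff ENNReal

namespace Pool.Agent.Lib.MP_f62ea7_gt

namespace ALPHA

/-- the Hamiltonian vector field of `K` -/
noncomputable def Z (K : P → ℝ) (p : P) : P := (du K p, -dx K p)

/-- the level function -/
def m (X : Geo) (p : P) : ℝ := X.w (X.Ψ p)

/-- All the data of the block. -/
structure Ctx (κ C : ℝ) (X : Geo) (c0 CK l : ℝ) (K : P → ℝ) (k : ℝ → P → P) : Prop where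
  h : Full κ C X
  hK : IsK X c0 CK l K
  c0_pos : 0 < c0
  l_pos : 0 < l
  l_le : l ≤ 2 / 5
  sm : ContDiff ℝ ∞ (fun q : ℝ × P => k q.1 q.2)
  zero : ∀ p, k 0 p = p
  add : ∀ s t p, k (s + t) p = k s (k t p)
  der : ∀ p t, HasDerivAt (fun τ => k τ p) (Z K (k t p)) t
  uniq : ∀ c : ℝ → P, (∀ t, HasDerivAt c (Z K (c t)) t) → ∀ t, c t = k t (c 0)

lemma Z_sm {K : P → ℝ} (hK : ContDiff ℝ ∞ K) : ContDiff ℝ ∞ (Z K) :=
  (contDiff_du hK).prodMk (contDiff_dx hK).neg

lemma Z_supp {K : P → ℝ} (hK : HasCompactSupport K) : HasCompactSupport (Z K) := by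
  have h1 : HasCompactSupport (fderiv ℝ K) := hK.fderiv ℝ
  exact h1.comp_left (g := fun L : P →L[ℝ] ℝ => ((L (0, 1), -L (1, 0)) : P)) (by simp)

section Level
variable {κ C : ℝ} {X : Geo} (h : Full κ C X)
include h

lemma m_cont : Continuous (m X) := h.w_sm.continuous.comp h.Ψ_cont

lemma m_zero : m X 0 = 0 := by
  unfold m
  rw [h.Ψ_zero]
  have h1 := h.w_lo 0 (by simp)
  have h2 := h.w_hi 0 (by simp)
  simp at h1 h2
  exact le_antisymm h2 h1

lemma m_sm : ContDiffOn ℝ ∞ (m X) (Metric.ball 0 3 \ {0}) :=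
  h.w_sm.comp_contDiffOn h.Ψ_sm

lemma zero_N : (0 : P) ∈ X.N := h.M_sub (h.M_ball (by simp))

lemma Ψ_Wo {p : P} (hp : p ∈ X.N) (h0 : p ≠ 0) : X.Ψ p ∈ X.Wo :=
  ⟨h.box_n p hp.1.le, h.box_w p hp.1.le, h.Ψ_ne p (by linarith [hp.1]) h0⟩

lemma eta_neg_iff {p : P} (hp : p ∈ X.N) (t : ℝ) :
    X.eta t p = -p ↔ X.g t (X.Ψ p) = -X.Ψ p := by
  have h3 : ‖p‖ ≤ 3 := by linarith [hp.1]
  constructor
  · intro he
    rw [← h.eta_lab p hp.1.le, he, h.Ψ_odd p h3]
  · intro he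
    unfold Geo.eta
    rw [he, ← h.Ψ_odd p h3, h.ΦΨ (-p) (by simpa using h3)]

end Level

variable {κ C : ℝ} {X : Geo} {c0 CK l : ℝ} {K : P → ℝ} {k : ℝ → P → P}

namespace Ctx

variable (H : Ctx κ C X c0 CK l K k)
include H

lemma l2_pos : 0 < l ^ 2 := pow_pos H.l_pos 2
lemma l2_le : l ^ 2 ≤ 4 / 25 := by nlinarith [H.l_pos, H.l_le]

lemma cont (p : P) : Continuous fun t => k t p :=
  continuous_iff_continuousAt.2 fun t => (H.der p t).continuousAt

lemma inv (t : ℝ) (p : P) : k (-t) (k t p) = p := by rw [← H.add, neg_add_cancel, H.zero]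

lemma inj (t : ℝ) {p q : P} (e : k t p = k t q) : p = q := by
  rw [← H.inv t p, e, H.inv]

lemma Z_out {q : P} (hq : q ∈ X.N) (hm : l ^ 2 / 2 ≤ m X q) :
    Z K q = (X.U q, X.V (X.Ψ q)) := by
  have hs := H.h.N_small q hq
  have hl := H.l2_pos
  have h0 : q ≠ 0 := by
    rintro rfl
    rw [m_zero H.h] at hm; linarith
  have ho : IsOpen {p : P | ‖p‖ < 3 / 2 ∧ l ^ 2 / 4 < m X p} :=
    (isOpen_lt continuous_norm continuous_const).inter
      (isOpen_lt continuous_const (m_cont H.h))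
  have he : K =ᶠ[𝓝 q] X.ψ := by
    filter_upwards [ho.mem_nhds ⟨hs, by linarith⟩] with p hp using H.hK.K_out p hp.1 hp.2
  have e1 : dx K q = dx X.ψ q := by unfold dx; rw [he.fderiv_eq]
  have e2 : du K q = du X.ψ q := by unfold du; rw [he.fderiv_eq]
  unfold Z
  rw [e1, e2, H.h.ψ_dx q (by linarith) h0, H.h.ψ_du q (by linarith) h0, neg_neg]

lemma Z_eta {p : P} (hp : p ∈ X.N) (hm : l ^ 2 / 2 ≤ m X p) (t : ℝ) :
    Z K (X.eta t p) = X.vel t p := by
  have hw : m X (X.eta t p) = m X p := H.h.eta_w p hp.1.le t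
  rw [H.Z_out (H.h.eta_N p hp t) (hw ▸ hm)]
  have := H.h.eta_lab p hp.1.le t
  unfold Geo.vel
  rw [← this]; rfl

lemma k_eta {p : P} (hp : p ∈ X.N) (hm : l ^ 2 / 2 ≤ m X p) (t : ℝ) : k t p = X.eta t p := by
  have := H.uniq (fun τ => X.eta τ p)
    (fun τ => by rw [H.Z_eta hp hm]; exact H.h.eta_der p hp.1.le τ) t
  simp only [H.h.eta_zero p hp.1.le] at this
  exact this.symm

lemma m_out {p : P} (hp : p ∈ X.N) (hm : l ^ 2 / 2 ≤ m X p) (t : ℝ) : m X (k t p) = m X p := by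
  rw [H.k_eta hp hm]; exact H.h.eta_w p hp.1.le t

lemma k_in {p : P} (hp : p ∈ X.N) (hm : m X p < l ^ 2 / 2) (t : ℝ) :
    k t p ∈ X.N ∧ m X (k t p) < l ^ 2 / 2 := by
  have hc := H.cont p
  have hmc := (m_cont H.h).comp hc
  have hl := H.l2_le
  let S : Set ℝ := {t | k t p ∈ X.N ∧ m X (k t p) < l ^ 2 / 2}
  have hS : S = {t | ‖k t p‖ ≤ 3 / 2 ∧ m X (k t p) ≤ l ^ 2 / 2} := by
    ext τ
    constructor
    · rintro ⟨a, b⟩; exact ⟨(H.h.N_small _ a).le, b.le⟩
    · rintro ⟨a, b⟩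
      have hN : k τ p ∈ X.N := ⟨by linarith, by change m X (k τ p) < 3 / 5; linarith⟩
      refine ⟨hN, lt_of_le_of_ne b fun e => ?_⟩
      have := H.m_out hN e.ge (-τ)
      rw [H.inv, e] at this
      linarith
  have ho : IsOpen S := (H.h.N_open.preimage hc).inter (isOpen_lt hmc continuous_const)
  have hcl : IsClosed S := by
    rw [hS]
    exact (isClosed_le hc.norm continuous_const).inter (isClosed_le hmc continuous_const)
  have : S = univ := IsClopen.eq_univ ⟨hcl, ho⟩ ⟨0, by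
    change k 0 p ∈ X.N ∧ m X (k 0 p) < l ^ 2 / 2
    rw [H.zero]; exact ⟨hp, hm⟩⟩
  exact (this ▸ mem_univ t : t ∈ S)

lemma k_N {p : P} (hp : p ∈ X.N) (t : ℝ) : k t p ∈ X.N := by
  rcases lt_or_ge (m X p) (l ^ 2 / 2) with hm | hm
  · exact (H.k_in hp hm t).1
  · rw [H.k_eta hp hm]; exact H.h.eta_N p hp t

lemma k_M {p : P} (hp : p ∈ X.M) (t : ℝ) : k t p ∈ X.M := by
  have hN := H.h.M_sub hp
  rcases lt_or_ge (m X p) (l ^ 2 / 2) with hm | hm
  · obtain ⟨a, b⟩ := H.k_in hN hm t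
    exact ⟨a.1.le, by change m X (k t p) ≤ 1 / 2; linarith [H.l2_le]⟩
  · rw [H.k_eta hN hm]; exact H.h.eta_M p hp t

lemma k_lt {p : P} (hp : p ∈ X.N) {a : ℝ} (ha : l ^ 2 / 2 ≤ a) (t : ℝ) :
    m X (k t p) < a ↔ m X p < a := by
  rcases lt_or_ge (m X p) (l ^ 2 / 2) with hm | hm
  · have := (H.k_in hp hm t).2
    exact ⟨fun _ => by linarith, fun _ => by linarith⟩
  · rw [H.m_out hp hm]

lemma Z_odd {q : P} (hq : q ∈ X.N) : Z K (-q) = -Z K q := by
  have hd : Differentiable ℝ K := H.hK.K_sm.differentiable (by simp)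
  have he : (fun p => K (-p)) =ᶠ[𝓝 q] K := by
    filter_upwards [H.h.N_open.mem_nhds hq] with p hp using H.hK.K_even p hp
  have h1 : HasFDerivAt (fun p => K (-p)) ((fderiv ℝ K (-q)).comp (-ContinuousLinearMap.id ℝ P)) q :=
    (hd (-q)).hasFDerivAt.comp q (hasFDerivAt_id q).neg
  have h2 := h1.fderiv
  rw [he.fderiv_eq] at h2
  unfold Z dx du
  rw [h2]
  ext <;> simp [← map_neg]

lemma k_odd {p : P} (hp : p ∈ X.N) (t : ℝ) : k t (-p) = -k t p := by
  have := H.uniq (fun τ => -k τ p)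
    (fun τ => by rw [H.Z_odd (H.k_N hp τ)]; exact (H.der p τ).neg) t
  simp only [H.zero] at this
  exact this.symm

omit H in
lemma neg_self {p : P} (e : -p = p) : p = 0 := by
  have h1 := congrArg Prod.fst e
  have h2 := congrArg Prod.snd e
  simp only [Prod.fst_neg, Prod.snd_neg] at h1 h2
  ext <;> simp <;> linarith

lemma k_origin (t : ℝ) : k t 0 = 0 := by
  have := H.k_odd (zero_N H.h) t
  rw [neg_zero] at this
  exact neg_self this.symm

lemma Z_origin : Z K 0 = 0 := by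
  have := H.Z_odd (zero_N H.h)
  rw [neg_zero] at this
  exact neg_self this.symm

lemma k_ne {p : P} (h0 : p ≠ 0) (t : ℝ) : k t p ≠ 0 := fun e =>
  h0 (H.inj t (e.trans (H.k_origin t).symm))

lemma K_cons (p : P) (t : ℝ) : K (k t p) = K p := by
  have hd : Differentiable ℝ K := H.hK.K_sm.differentiable (by simp)
  have h1 : ∀ τ, HasDerivAt (fun τ => K (k τ p)) 0 τ := fun τ => by
    have := hasDerivAt_comp (hd _) (H.der p τ)
    convert this using 1
    simp only [Z]; ring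
  have := is_const_of_deriv_eq_zero (fun τ => (h1 τ).differentiableAt) (fun τ => (h1 τ).deriv) t 0
  rwa [H.zero] at this

lemma K_ray {p : P} (hp : p ∈ X.N) (h0 : p ≠ 0) {r : ℝ} (hr : 0 < r) (hr1 : r < 1) :
    K (r • p) < K p := by
  have hd : Differentiable ℝ K := H.hK.K_sm.differentiable (by simp)
  have h1 : ∀ s : ℝ, HasDerivAt (fun s : ℝ => K (s • p))
      (p.1 * dx K (s • p) + p.2 * du K (s • p)) s := fun s => by
    have := hasDerivAt_comp (c := fun s : ℝ => s • p) (c' := p) (t := s) (hd _)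
      (by simpa using (hasDerivAt_id s).smul_const p)
    exact this
  have h2 : StrictMonoOn (fun s : ℝ => K (s • p)) (Icc r 1) := by
    refine strictMonoOn_of_deriv_pos (convex_Icc _ _)
      (fun s _ => (h1 s).continuousAt.continuousWithinAt) fun s hs => ?_
    rw [interior_Icc] at hs
    have hs0 : 0 < s := hr.trans hs.1
    rw [(h1 s).deriv]
    have := H.hK.K_pos (s • p) (H.h.N_star p hp s ⟨hs0.le, hs.2.le⟩) (smul_ne_zero hs0.ne' h0)
    simp only [Prod.smul_fst, Prod.smul_snd, smul_eq_mul] at this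
    have e : s * p.1 * dx K (s • p) + s * p.2 * du K (s • p) =
        s * (p.1 * dx K (s • p) + p.2 * du K (s • p)) := by ring
    rw [e] at this
    exact (mul_pos_iff_of_pos_left hs0).1 this
  have := h2 ⟨le_rfl, hr1.le⟩ ⟨hr1.le, le_rfl⟩ hr1
  simpa using this

lemma ray_one {p : P} (hp : p ∈ X.N) (h0 : p ≠ 0) {r t : ℝ} (hr : 0 < r)
    (e : k t p = -(r • p)) : r = 1 := by
  have hN : r • p ∈ X.N := by
    have := H.h.N_neg _ (H.k_N hp t)
    rwa [e, neg_neg] at this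
  have hK : K (r • p) = K p := by
    rw [← H.K_cons p t, e, H.hK.K_even _ hN]
  rcases lt_trichotomy r 1 with h1 | h1 | h1
  · exact absurd hK (H.K_ray hp h0 hr h1).ne
  · exact h1
  · have := H.K_ray hN (smul_ne_zero hr.ne' h0) (inv_pos.2 hr) (inv_lt_one_of_one_lt₀ h1)
    rw [smul_smul, inv_mul_cancel₀ hr.ne', one_smul] at this
    exact absurd hK this.ne'

end Ctx

end ALPHA

end Pool.Agent.Lib.MP_f62ea7_gt
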