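import Pool.Agent.Lib.MP_f62ea7_gt.ALPHA1

set_option autoImplicit false

open MeasureTheory Set Filter Topology Real
open scoped ContDiff ENNReal

namespace Pool.Agent.Lib.MP_f62ea7_gt

namespace ALPHA

/-- the region where the half period is used -/
def Om (X : Geo) (l : ℝ) : Set P := {p | p ∈ X.N ∧ p ≠ 0 ∧ m X p < 3 * l ^ 2}

/-- the half period of the regularised flow -/
structure HalfP (X : Geo) (c0 l : ℝ) (k : ℝ → P → P) (TK : P → ℝ) (t0 : ℝ) : Prop where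
  sm : ContDiffOn ℝ ∞ TK (Om X l)
  pos : ∀ p ∈ Om X l, 0 < TK p
  half : ∀ p ∈ Om X l, k (TK p) p = -p
  least : ∀ p ∈ Om X l, ∀ t, 0 < t → t < TK p → k t p ≠ -p
  bd : ∀ p ∈ Om X l, c0 * TK p ≤ π
  near : ∀ᶠ p in 𝓝 (0 : P), p ≠ 0 → TK p = t0

variable {κ C : ℝ} {X : Geo} {c0 CK l : ℝ} {K : P → ℝ} {k : ℝ → P → P}

lemma quad_der (c l : ℝ) (q : P) :
    q.1 * dx (fun p : P => c * (l ^ 2 * p.1 ^ 2 + p.2 ^ 2 / l ^ 2)) q +
      q.2 * du (fun p : P => c * (l ^ 2 * p.1 ^ 2 + p.2 ^ 2 / l ^ 2)) q =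
      2 * c * (l ^ 2 * q.1 ^ 2 + q.2 ^ 2 / l ^ 2) := by
  have hd : Differentiable ℝ (fun p : P => c * (l ^ 2 * p.1 ^ 2 + p.2 ^ 2 / l ^ 2)) := by
    fun_prop
  have h1 := hasDerivAt_comp (c := fun s : ℝ => s • q) (c' := q) (t := 1) (hd _)
    (by simpa using (hasDerivAt_id (1 : ℝ)).smul_const q)
  simp only [one_smul] at h1
  have h2 : HasDerivAt (fun s : ℝ => s ^ 2 * (c * (l ^ 2 * q.1 ^ 2 + q.2 ^ 2 / l ^ 2)))
      (2 * c * (l ^ 2 * q.1 ^ 2 + q.2 ^ 2 / l ^ 2)) 1 := by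
    have := (hasDerivAt_pow 2 (1 : ℝ)).mul_const (c * (l ^ 2 * q.1 ^ 2 + q.2 ^ 2 / l ^ 2))
    refine this.congr_deriv ?_
    norm_num; ring
  refine h1.unique ?_
  have e : (fun τ : ℝ => c * (l ^ 2 * (τ • q).1 ^ 2 + (τ • q).2 ^ 2 / l ^ 2)) =
      fun s : ℝ => s ^ 2 * (c * (l ^ 2 * q.1 ^ 2 + q.2 ^ 2 / l ^ 2)) := by
    funext s
    simp only [Prod.smul_fst, Prod.smul_snd, smul_eq_mul]
    ring
  rw [← e] at h2
  exact h2

lemma der_fst {c : ℝ → P} {c' : P} {t : ℝ} (h : HasDerivAt c c' t) :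
    HasDerivAt (fun τ => (c τ).1) c'.1 t :=
  (ContinuousLinearMap.fst ℝ ℝ ℝ).hasFDerivAt.comp_hasDerivAt t h

lemma der_snd {c : ℝ → P} {c' : P} {t : ℝ} (h : HasDerivAt c c' t) :
    HasDerivAt (fun τ => (c τ).2) c'.2 t :=
  (ContinuousLinearMap.snd ℝ ℝ ℝ).hasFDerivAt.comp_hasDerivAt t h

namespace Ctx

variable (H : Ctx κ C X c0 CK l K k)
include H

lemma Om_open : IsOpen (Om X l) :=
  H.h.N_open.inter (isOpen_ne.inter (isOpen_lt (m_cont H.h) continuous_const))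

lemma k_Om {p : P} (hp : p ∈ Om X l) (t : ℝ) : k t p ∈ Om X l :=
  ⟨H.k_N hp.1 t, H.k_ne hp.2.1 t,
    (H.k_lt hp.1 (by linarith [H.l2_pos]) t).2 hp.2.2⟩

/-- Small orbits stay where `K` is quadratic. -/
lemma small_orbit : ∃ c : ℝ, 0 < c ∧ ∀ᶠ p in 𝓝 (0 : P), ∀ t,
    (k t p).1 * dx K (k t p) + (k t p).2 * du K (k t p) =
      2 * c * (l ^ 2 * (k t p).1 ^ 2 + (k t p).2 ^ 2 / l ^ 2) := by
  obtain ⟨c, hc, hq⟩ := H.hK.K_in
  refine ⟨c, hc, ?_⟩
  obtain ⟨ε, hε, hb⟩ := Metric.eventually_nhds_iff_ball.1 hq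
  have hl := H.l2_pos
  have hl1 := H.l2_le
  have hcont : Continuous fun p : P => c * (l ^ 2 * p.1 ^ 2 + p.2 ^ 2 / l ^ 2) := by fun_prop
  have hδ : 0 < c * (l ^ 2 * (ε / 2) ^ 2) := by positivity
  have h1 : ∀ᶠ p in 𝓝 (0 : P), c * (l ^ 2 * p.1 ^ 2 + p.2 ^ 2 / l ^ 2) < c * (l ^ 2 * (ε / 2) ^ 2) :=
    hcont.continuousAt.eventually (gt_mem_nhds (by simpa using hδ))
  have h2 : ∀ᶠ p in 𝓝 (0 : P), ‖p‖ < ε / 2 :=
    continuous_norm.continuousAt.eventually (gt_mem_nhds (by simpa using half_pos hε))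
  filter_upwards [h1, h2] with p hp1 hp2 t
  have hKp : K p = c * (l ^ 2 * p.1 ^ 2 + p.2 ^ 2 / l ^ 2) :=
    hb p (by simpa using hp2.trans (half_lt_self hε))
  have key : ∀ τ, ‖k τ p‖ ≠ ε / 2 := fun τ e => by
    have a := hb (k τ p) (by simpa [e] using half_lt_self hε)
    rw [H.K_cons, hKp] at a
    have b := norm_sq_le (k τ p)
    rw [e] at b
    have d : l ^ 2 * (k τ p).2 ^ 2 ≤ (k τ p).2 ^ 2 / l ^ 2 := by
      rw [le_div_iff₀ hl]
      have : l ^ 2 * l ^ 2 ≤ 1 := by nlinarith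
      nlinarith [sq_nonneg (k τ p).2]
    have f : l ^ 2 * (ε / 2) ^ 2 ≤ l ^ 2 * (k τ p).1 ^ 2 + (k τ p).2 ^ 2 / l ^ 2 := by
      nlinarith
    have := mul_le_mul_of_nonneg_left f hc.le
    linarith
  have hin : ‖k t p‖ < ε / 2 := by
    by_contra hcon
    have hcn : Continuous fun τ => ‖k τ p‖ := (H.cont p).norm
    have : ε / 2 ∈ range fun τ => ‖k τ p‖ :=
      intermediate_value_univ 0 t hcn ⟨by simpa [H.zero] using hp2.le, not_lt.1 hcon⟩
    obtain ⟨τ, hτ⟩ := this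
    exact key τ hτ
  have he : K =ᶠ[𝓝 (k t p)] fun p : P => c * (l ^ 2 * p.1 ^ 2 + p.2 ^ 2 / l ^ 2) := by
    filter_upwards [Metric.isOpen_ball.mem_nhds
      (show k t p ∈ Metric.ball (0 : P) ε by simpa using hin.trans (half_lt_self hε))] with y hy
      using hb y hy
  rw [← quad_der c l (k t p)]
  unfold dx du
  rw [he.fderiv_eq]

lemma exists_half (hP : St_HP) : ∃ TK t0, HalfP X c0 l k TK t0 := by
  have hl := H.l_pos
  have hl0 : l ≠ 0 := hl.ne'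
  let c : P → ℝ → P := fun p t => ((k t p).1 / l, (k t p).2 / l ^ 3)
  let c' : P → ℝ → P := fun p t => ((Z K (k t p)).1 / l, (Z K (k t p)).2 / l ^ 3)
  have hcross : ∀ p t, (c p t).2 * (c' p t).1 - (c p t).1 * (c' p t).2 =
      ((k t p).1 * dx K (k t p) + (k t p).2 * du K (k t p)) / l ^ 4 := fun p t => by
    simp only [c, c', Z]; field_simp; ring
  have hsq : ∀ p t, (c p t).1 ^ 2 + (c p t).2 ^ 2 =
      (l ^ 2 * (k t p).1 ^ 2 + (k t p).2 ^ 2 / l ^ 2) / l ^ 4 := fun p t => by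
    simp only [c]; field_simp
  have hneg : ∀ p t (r : ℝ), c p t = -(r • c p 0) ↔ k t p = -(r • p) := fun p t r => by
    simp only [c, H.zero, Prod.ext_iff, Prod.fst_neg, Prod.snd_neg, Prod.smul_fst, Prod.smul_snd,
      smul_eq_mul]
    constructor
    · rintro ⟨a, b⟩
      field_simp at a b
      exact ⟨by linarith, by linarith⟩
    · rintro ⟨a, b⟩
      rw [a, b]
      exact ⟨by ring, by ring⟩
  have hlo : ∀ p ∈ Om X l, ∀ t, c0 * ((c p t).1 ^ 2 + (c p t).2 ^ 2) ≤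
      (c p t).2 * (c' p t).1 - (c p t).1 * (c' p t).2 := fun p hp t => by
    have hq := H.k_Om hp t
    rw [hcross, hsq, ← mul_div_assoc]
    exact div_le_div_of_nonneg_right (H.hK.K_rad _ hq.1 hq.2.2.le) (by positivity)
  have hsm : ContDiff ℝ ∞ fun q : P × ℝ => k q.2 q.1 :=
    H.sm.comp (contDiff_snd.prodMk contDiff_fst)
  obtain ⟨TK, hT1, hT2⟩ := hP P (Om X l) c c' H.Om_open
    (((hsm.fst.div_const l).prodMk (hsm.snd.div_const (l ^ 3))).contDiffOn)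
    (fun p _ t => ((der_fst (H.der p t)).div_const l).prodMk ((der_snd (H.der p t)).div_const (l ^ 3)))
    (fun p hp t e => by
      apply H.k_ne hp.2.1 t
      have := (hneg p t 0).1 (by simpa using e)
      simpa using this)
    (fun p hp => ⟨c0, H.c0_pos, hlo p hp⟩)
  obtain ⟨cq, hcq, hnear⟩ := H.small_orbit
  refine ⟨TK, π / (2 * cq), hT1, fun p hp => (hT2 p hp).1, fun p hp => ?_,
    fun p hp t h1 h2 e => ?_, fun p hp => (hT2 p hp).2.2.2.1 c0 (hlo p hp), ?_⟩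
  · obtain ⟨r, hr, e⟩ := (hT2 p hp).2.1
    rw [hneg] at e
    have := H.ray_one hp.1 hp.2.1 hr e
    rw [e, this, one_smul]
  · exact (hT2 p hp).2.2.1 t h1 h2 1 one_pos ((hneg p t 1).2 (by rw [e, one_smul]))
  · have h1 : ∀ᶠ p in 𝓝 (0 : P), m X p < 3 * l ^ 2 :=
      (m_cont H.h).continuousAt.eventually (gt_mem_nhds (by
        rw [m_zero H.h]; positivity))
    filter_upwards [hnear, h1, H.h.N_open.mem_nhds (zero_N H.h)] with p hp hm hN h0
    have hO : p ∈ Om X l := ⟨hN, h0, hm⟩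
    have he : ∀ t, (c p t).2 * (c' p t).1 - (c p t).1 * (c' p t).2 =
        2 * cq * ((c p t).1 ^ 2 + (c p t).2 ^ 2) := fun t => by
      rw [hcross, hsq, hp t, mul_div_assoc]
    have a := (hT2 p hO).2.2.2.1 (2 * cq) fun t => (he t).ge
    have b := (hT2 p hO).2.2.2.2 (2 * cq) fun t => (he t).le
    rw [eq_div_iff (by positivity)]
    linarith

variable {TK : P → ℝ} {t0 : ℝ} (HT : HalfP X c0 l k TK t0)
include HT

omit H in
lemma TK_unique {p : P} (hp : p ∈ Om X l) {a : ℝ} (ha : 0 < a) (h1 : k a p = -p)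
    (h2 : ∀ t, 0 < t → t < a → k t p ≠ -p) : TK p = a := by
  rcases lt_trichotomy (TK p) a with h | h | h
  · exact absurd (HT.half p hp) (h2 _ (HT.pos p hp) h)
  · exact h
  · exact absurd h1 (HT.least p hp a ha h)

lemma TK_inv {p : P} (hp : p ∈ Om X l) (s : ℝ) : TK (k s p) = TK p := by
  have key : ∀ t, k t (k s p) = -k s p ↔ k t p = -p := fun t => by
    rw [← H.add, add_comm, H.add, ← H.k_odd hp.1]
    exact ⟨fun e => H.inj s e, fun e => by rw [e]⟩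
  exact TK_unique HT (H.k_Om hp s) (HT.pos p hp) ((key _).2 (HT.half p hp))
    fun t h1 h2 e => HT.least p hp t h1 h2 ((key t).1 e)

lemma TK_out {T : P → ℝ} (hT : IsT X T) {p : P} (hp : p ∈ Om X l) (hm : l ^ 2 / 2 ≤ m X p) :
    TK p = T (X.Ψ p) := by
  have hW := Ψ_Wo H.h hp.1 hp.2.1
  refine TK_unique HT hp (hT.T_pos _ hW) ?_ fun t h1 h2 e => ?_
  · rw [H.k_eta hp.1 hm, eta_neg_iff H.h hp.1]; exact hT.T_half _ hW
  · rw [H.k_eta hp.1 hm, eta_neg_iff H.h hp.1] at e; exact hT.T_min _ hW t h1 h2 e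

end Ctx

end ALPHA

end Pool.Agent.Lib.MP_f62ea7_gt
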