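import Pool.Agent.Lib.MP_f62ea7_gt.Basic2

set_option autoImplicit false

open MeasureTheory Set Filter Topology Real

namespace Pool.Agent.Lib.MP_f62ea7_gt

namespace ANTI

abbrev R : Set P := Icc (-(1 / 50)) (1 / 50) ×ˢ Icc (1 / 100) (1 / 50)

lemma vol_R : volume.real R = 1 / 2500 := by
  rw [Measure.real, Measure.volume_eq_prod, Measure.prod_prod]
  simp only [Real.volume_Icc]
  rw [← ENNReal.ofReal_mul (by norm_num), ENNReal.toReal_ofReal (by norm_num)]
  norm_num

lemma key {G : P → ℝ} (hG : Integrable G) (h0 : ∀ p, 0 ≤ G p)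
    (h : ∀ p ∈ R, (3 / 100 : ℝ) ^ 2 ≤ 4 * (G p + G (p - (0, 3 / 100)))) : 1 / 10 ^ 8 ≤ ∫ p, G p := by
  have hR : IsCompact R := isCompact_Icc.prod isCompact_Icc
  have i2 : Integrable fun p => G (p - (0, 3 / 100)) := hG.comp_sub_right _
  have a : ∫ p, R.indicator (fun _ => (3 / 100 : ℝ) ^ 2) p ≤ ∫ p, 4 * (G p + G (p - (0, 3 / 100))) := by
    refine integral_mono ((integrable_indicator_iff hR.measurableSet).2
      (integrableOn_const hR.measure_lt_top.ne)) ((hG.add i2).const_mul 4) fun p => ?_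
    by_cases hp : p ∈ R
    · rw [indicator_of_mem hp]
      exact h p hp
    · rw [indicator_of_notMem hp]
      have := h0 p
      have := h0 (p - (0, 3 / 100))
      positivity
  rw [integral_indicator_const _ hR.measurableSet, vol_R, integral_const_mul, integral_add hG i2,
    integral_sub_right_eq_self G, smul_eq_mul] at a
  linarith

end ANTI

open ANTI in
theorem blk_ANTI : St_ANTI := by
  intro κ C X h η v hη t ht B e he hB hA
  obtain ⟨ρ, c1, c2, c3⟩ := hη.inv t ht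
  have nd := (h.nice_d2 hη).pow 2
  have ne := (Nice.of_space (M := X.M) he (B := B) fun a ha => by
    rw [abs_of_nonneg (hB a ha).1]; exact (hB a ha).2).pow 2
  obtain ⟨B', hB'⟩ := (nd.add ne).2
  have mF : Measurable fun a => d2 X η t a ^ 2 + e a ^ 2 := (nd.add ne).measurable_space t
  have mH : Measurable fun p => d2 X η t (ρ p) ^ 2 + e (ρ p) ^ 2 := mF.comp c1.measurable
  have iH : IntegrableOn (fun p => d2 X η t (ρ p) ^ 2 + e (ρ p) ^ 2) X.M :=
    integrableOn_of_bdd h.M_compact mH fun p hp => hB' t ht _ (c2 hp)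
  rw [← integral_add (nd.integrableOn h.M_compact ht) (ne.integrableOn h.M_compact ht),
    ← integral_comp_mp (mp_inv h.M_meas (hη.mp t ht) c1.measurable c3.1) mF,
    ← integral_indicator h.M_meas]
  refine key ((integrable_indicator_iff h.M_meas).2 iH)
    (fun p => indicator_nonneg (fun p _ => by positivity) p) fun p hp => ?_
  obtain ⟨⟨p1, p2⟩, p3, p4⟩ := hp
  have m1 : p ∈ X.M := h.M_ball (mem_closedBall_zero_iff.2 (norm_le_iff.2
    ⟨abs_le.2 ⟨p1, p2⟩, abs_le.2 ⟨by linarith, p4⟩⟩))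
  have q1 : (p - (0, 3 / 100) : P).1 = p.1 := by simp
  have q2 : (p - (0, 3 / 100) : P).2 = p.2 - 3 / 100 := by simp
  generalize (p - (0, 3 / 100) : P) = q at q1 q2
  have m2 : q ∈ X.M := h.M_ball (mem_closedBall_zero_iff.2 (norm_le_iff.2
    ⟨abs_le.2 ⟨by linarith, by linarith⟩, abs_le.2 ⟨by linarith, by linarith⟩⟩))
  rw [indicator_of_mem m1, indicator_of_mem m2]
  have k := hA _ (c2 m1) _ (c2 m2) (by rw [c3.2 m1, c3.2 m2, q1])
    (by rw [c3.2 m1, c3.2 m2]; linarith)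
  have e1 := (hB _ (c2 m1)).1
  have e2 := (hB _ (c2 m2)).1
  have f1 : d2 X η t (ρ p) = p.2 - (X.eta t (ρ p)).2 := by rw [d2, c3.2 m1]
  have f2 : d2 X η t (ρ q) = q.2 - (X.eta t (ρ q)).2 := by rw [d2, c3.2 m2]
  rw [c3.2 m1, c3.2 m2] at k
  have k2 : 3 / 100 ≤ e (ρ p) + e (ρ q) + |d2 X η t (ρ p)| + |d2 X η t (ρ q)| := by
    rcases min_le_iff.1 k with k | k
    · linarith [abs_nonneg (d2 X η t (ρ p)), abs_nonneg (d2 X η t (ρ q))]
    · linarith [le_abs_self (d2 X η t (ρ p)), neg_abs_le (d2 X η t (ρ q))]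
  rw [← sq_abs (d2 X η t (ρ p)), ← sq_abs (d2 X η t (ρ q))]
  generalize |d2 X η t (ρ p)| = a at k2
  generalize |d2 X η t (ρ q)| = b at k2
  generalize e (ρ p) = c at k2
  generalize e (ρ q) = d at k2
  have := pow_le_pow_left₀ (by norm_num) k2 2
  nlinarith [sq_nonneg (a - b), sq_nonneg (a - c), sq_nonneg (a - d), sq_nonneg (b - c),
    sq_nonneg (b - d), sq_nonneg (c - d)]

end Pool.Agent.Lib.MP_f62ea7_gt
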