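import Pool.Agent.Lib.MP_f62ea7_gt.Basic

set_option autoImplicit false

open MeasureTheory Set Filter Topology Real
open scoped ContDiff ENNReal

namespace Pool.Agent.Lib.MP_f62ea7_gt

namespace BETA

lemma eq_of_punct {F : Type} [TopologicalSpace F] [T2Space F] {f g : ℝ → F}
    (hf : Continuous f) (hg : Continuous g) (h : ∀ l ≠ 0, f l = g l) : f 0 = g 0 := by
  have h1 : Tendsto f (𝓝[≠] 0) (𝓝 (f 0)) := (hf.tendsto 0).mono_left nhdsWithin_le_nhds
  have h2 : Tendsto g (𝓝[≠] 0) (𝓝 (g 0)) := (hg.tendsto 0).mono_left nhdsWithin_le_nhds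
  refine tendsto_nhds_unique h1 (h2.congr' ?_)
  filter_upwards [self_mem_nhdsWithin] with l hl using (h l hl).symm

lemma small (e : P) : ∀ᶠ l in 𝓝 (0 : ℝ), ‖l • e‖ < 1 := by
  have : Continuous fun l : ℝ => ‖l • e‖ := by fun_prop
  exact this.continuousAt.eventually_lt continuousAt_const (by simp)

lemma mem_W {κ C : ℝ} {X : Geo} (h : Full κ C X) {z : P} (hz : ‖z‖ < 1) : z ∈ X.W := by
  refine ⟨by linarith, ?_⟩
  have h1 := h.w_hi z (by linarith)
  have h2 := fst_sq_le z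
  have h3 := snd_sq_le z
  have h4 : ‖z‖ ^ 2 ≤ 1 := by nlinarith [norm_nonneg z]
  linarith

lemma exY (hH : St_HAD) {κ C : ℝ} {X : Geo} (h : Full κ C X) :
    ∃ Yh : ℝ × P → ℝ, ContDiff ℝ ∞ Yh ∧ ∀ (l : ℝ) (z : P), X.Y (l • z) = l ^ 3 * Yh (l, z) := by
  obtain ⟨Yh, h1, h2⟩ := hH P ℝ univ (fun q => X.Y (q.1 • q.2)) 3 isOpen_univ
    (h.Y_sm.comp (contDiff_fst.smul contDiff_snd)).contDiffOn (fun e _ => ⟨‖e‖ ^ 3, by
      filter_upwards [nhdsWithin_le_nhds (small e)] with l hl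
      have := h.Y_hi (l • e) (by linarith)
      rw [norm_smul, Real.norm_eq_abs, mul_pow] at this
      rw [Real.norm_eq_abs]
      linarith⟩)
  exact ⟨Yh, contDiffOn_univ.1 h1, fun l z => h2 (l, z) trivial⟩

lemma exG (hH : St_HAD) {κ C : ℝ} {X : Geo} (h : Full κ C X) :
    ∃ gh : ℝ × (ℝ × P) → P, ContDiff ℝ ∞ gh ∧
      (∀ (l t : ℝ) (z : P), X.g t (l • z) = l • gh (l, t, z)) ∧ ∀ l z, gh (l, 0, z) = z := by
  have hs : ContDiff ℝ ∞ fun q : ℝ × (ℝ × P) => X.g q.2.1 (q.1 • q.2.2) :=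
    h.g_sm.comp (f := fun q : ℝ × (ℝ × P) => (q.2.1, q.1 • q.2.2)) (by fun_prop)
  obtain ⟨gh, h1, h2⟩ := hH (ℝ × P) P univ (fun q => X.g q.2.1 (q.1 • q.2.2)) 1 isOpen_univ
    hs.contDiffOn (fun e _ => ⟨2 * ‖e.2‖, by
      filter_upwards [nhdsWithin_le_nhds (small e.2)] with l hl
      have := h.g_norm (l • e.2) (mem_W h hl) e.1
      rw [norm_smul, Real.norm_eq_abs] at this
      rw [pow_one]
      linarith⟩)
  have h1' := contDiffOn_univ.1 h1
  have h3 : ∀ (l t : ℝ) (z : P), X.g t (l • z) = l • gh (l, t, z) := fun l t z => by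
    simpa using h2 (l, t, z) trivial
  have h4 : ∀ l ≠ 0, ∀ z, gh (l, 0, z) = z := fun l hl z => by
    have := h3 l 0 z
    rw [h.g_zero] at this
    exact (smul_right_injective P hl this).symm
  refine ⟨gh, h1', h3, fun l z => ?_⟩
  by_cases hl : l = 0
  · subst hl
    exact eq_of_punct (f := fun l => gh (l, 0, z)) (g := fun _ => z)
      (h1'.continuous.comp (by fun_prop)) continuous_const fun l hl => h4 l hl z
  · exact h4 l hl z

/-- rescaled monotonicity -/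
lemma Yh_lo {κ C : ℝ} {X : Geo} (h : Full κ C X) {Yh : ℝ × P → ℝ} (hc : Continuous Yh)
    (hY : ∀ (l : ℝ) (z : P), X.Y (l • z) = l ^ 3 * Yh (l, z)) {l x u u' : ℝ} (hl : |l| < 2)
    (hx : |x| ≤ 2) (hu : |u| ≤ 2) (hu' : |u'| ≤ 2) (huu : u' ≤ u) :
    (x ^ 2 + u ^ 2 + u' ^ 2) / 20 * (u - u') ≤ Yh (l, x, u) - Yh (l, x, u') := by
  have key : ∀ l : ℝ, l ≠ 0 → |l| < 2 →
      (x ^ 2 + u ^ 2 + u' ^ 2) / 20 * (u - u') ≤ Yh (l, x, u) - Yh (l, x, u') := by
    intro l hl0 hl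
    have b : ∀ a : ℝ, |a| ≤ 2 → |l * a| ≤ 5 := fun a ha => by
      rw [abs_mul]; nlinarith [abs_nonneg l, abs_nonneg a]
    have e1 : X.Y (l * x, l * u) = l ^ 3 * Yh (l, x, u) := hY l (x, u)
    have e2 : X.Y (l * x, l * u') = l ^ 3 * Yh (l, x, u') := hY l (x, u')
    rcases lt_or_gt_of_ne hl0 with hn | hp
    · have := h.Y_lo (l * x) (l * u') (l * u) (b x hx) (b u' hu') (b u hu) (by nlinarith)
      rw [e1, e2] at this
      have h3 : 0 < -l ^ 3 := by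
        have : 0 < (-l) ^ 3 := pow_pos (by linarith) 3
        nlinarith
      refine le_of_mul_le_mul_left ?_ h3
      nlinarith
    · have := h.Y_lo (l * x) (l * u) (l * u') (b x hx) (b u hu) (b u' hu') (by nlinarith)
      rw [e1, e2] at this
      refine le_of_mul_le_mul_left ?_ (pow_pos hp 3)
      nlinarith
  by_cases hl0 : l = 0
  · subst hl0
    have hcont : Continuous fun l : ℝ => Yh (l, x, u) - Yh (l, x, u') := by fun_prop
    have ht := (hcont.tendsto 0).mono_left (nhdsWithin_le_nhds (s := {0}ᶜ))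
    refine ge_of_tendsto ht ?_
    have : ∀ᶠ l in 𝓝 (0 : ℝ), |l| < 2 :=
      continuous_abs.continuousAt.eventually_lt continuousAt_const (by simp)
    filter_upwards [nhdsWithin_le_nhds this, self_mem_nhdsWithin] with l h1 h2 using key l h2 h1
  · exact key l hl0 hl

lemma Yh_zero {κ C : ℝ} {X : Geo} (h : Full κ C X) {Yh : ℝ × P → ℝ} (hc : Continuous Yh)
    (hY : ∀ (l : ℝ) (z : P), X.Y (l • z) = l ^ 3 * Yh (l, z)) {l x : ℝ} (hl : |l| < 2)
    (hx : |x| ≤ 2) : Yh (l, x, 0) = 0 := by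
  have key : ∀ l : ℝ, l ≠ 0 → |l| < 2 → Yh (l, x, 0) = 0 := by
    intro l hl0 hl
    have e1 : X.Y (l * x, l * 0) = l ^ 3 * Yh (l, x, 0) := hY l (x, 0)
    rw [mul_zero, h.Y_zero _ (by rw [abs_mul]; nlinarith [abs_nonneg l, abs_nonneg x])] at e1
    exact (mul_eq_zero.1 e1.symm).resolve_left (pow_ne_zero 3 hl0)
  by_cases hl0 : l = 0
  · subst hl0
    have hcont : Continuous fun l : ℝ => Yh (l, x, 0) := by fun_prop
    have ht := (hcont.tendsto 0).mono_left (nhdsWithin_le_nhds (s := {0}ᶜ))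
    refine tendsto_nhds_unique ht (tendsto_const_nhds.congr' ?_)
    have : ∀ᶠ l in 𝓝 (0 : ℝ), |l| < 2 :=
      continuous_abs.continuousAt.eventually_lt continuousAt_const (by simp)
    filter_upwards [nhdsWithin_le_nhds this, self_mem_nhdsWithin] with l h1 h2
      using (key l h2 h1).symm
  · exact key l hl0 hl

/-- the domain of the rescaled velocity -/
def Om : Set (ℝ × P) := {e | |e.1| < 2 ∧ ‖e.2‖ < 1 / 2000}

lemma isOpen_Om : IsOpen Om :=
  (isOpen_lt (f := fun e : ℝ × P => |e.1|) (by fun_prop) continuous_const).inter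
    (isOpen_lt (f := fun e : ℝ × P => ‖e.2‖) (by fun_prop) continuous_const)

lemma exU {Yh : ℝ × P → ℝ} (hs : ContDiff ℝ ∞ Yh)
    (hlo : ∀ l x u u' : ℝ, |l| < 2 → |x| ≤ 2 → |u| ≤ 2 → |u'| ≤ 2 → u' ≤ u →
      (x ^ 2 + u ^ 2 + u' ^ 2) / 20 * (u - u') ≤ Yh (l, x, u) - Yh (l, x, u'))
    (hz : ∀ l x : ℝ, |l| < 2 → |x| ≤ 2 → Yh (l, x, 0) = 0) :
    ∃ Uh : ℝ × P → ℝ, (∀ e ∈ Om, |Uh e| ≤ 1 / 4 ∧ Yh (e.1, e.2.1, Uh e) = e.2.2) ∧
      ∀ e ∈ Om, e.2 ≠ 0 → ContDiffAt ℝ ∞ Uh e := by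
  have hc := hs.continuous
  have hx : ∀ e ∈ Om, |e.2.1| ≤ 2 := fun e he => by
    have := abs_fst_le e.2
    have := he.2
    linarith
  have hex : ∀ e : ℝ × P, ∃ u : ℝ, e ∈ Om → u ∈ Icc (-(1 / 4) : ℝ) (1 / 4) ∧
      Yh (e.1, e.2.1, u) = e.2.2 := by
    intro e
    by_cases he : e ∈ Om
    · have hy := abs_le.1 ((abs_snd_le e.2).trans he.2.le)
      have a1 := hlo e.1 e.2.1 (1 / 4) 0 he.1 (hx e he) (by norm_num [abs_of_pos]) (by simp)
        (by norm_num)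
      have a2 := hlo e.1 e.2.1 0 (-(1 / 4)) he.1 (hx e he) (by simp) (by norm_num [abs_of_pos])
        (by norm_num)
      rw [hz _ _ he.1 (hx e he)] at a1 a2
      have hcu : Continuous fun u : ℝ => Yh (e.1, e.2.1, u) := by fun_prop
      obtain ⟨u, hu, hu'⟩ := intermediate_value_Icc (a := -(1 / 4)) (b := 1 / 4) (by norm_num)
        hcu.continuousOn (show e.2.2 ∈ Icc _ _ from
          ⟨by nlinarith [sq_nonneg e.2.1], by nlinarith [sq_nonneg e.2.1]⟩)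
      exact ⟨u, fun _ => ⟨hu, hu'⟩⟩
    · exact ⟨0, fun h => (he h).elim⟩
  choose Uh hUh using hex
  have hb : ∀ u ∈ Icc (-(1 / 4) : ℝ) (1 / 4), |u| ≤ 2 := fun u hu =>
    abs_le.2 ⟨by linarith [hu.1], by linarith [hu.2]⟩
  have hsm : ∀ e ∈ Om, StrictMonoOn (fun u => Yh (e.1, e.2.1, u) - e.2.2)
      (Icc (-(1 / 4) : ℝ) (1 / 4)) := by
    intro e he u' hu' u hu huu
    have := hlo e.1 e.2.1 u u' he.1 (hx e he) (hb u hu) (hb u' hu') huu.le
    have h2 : 0 < u ^ 2 + u' ^ 2 := by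
      rcases eq_or_ne u 0 with h0 | h0
      · have : u' ≠ 0 := by rintro rfl; simp [h0] at huu
        positivity
      · positivity
    have h3 : 0 < (e.2.1 ^ 2 + u ^ 2 + u' ^ 2) / 20 * (u - u') := by
      have := sq_nonneg e.2.1
      have := sub_pos.2 huu
      apply mul_pos <;> linarith
    simp only
    linarith
  refine ⟨Uh, fun e he => ⟨abs_le.2 (hUh e he).1, (hUh e he).2⟩, fun e he hne => ?_⟩
  have hev : ∀ᶠ e' in 𝓝 e, e' ∈ Om := isOpen_Om.mem_nhds he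
  have hcont : ContinuousAt Uh e := by
    refine mono_cont (f := fun e u => Yh (e.1, e.2.1, u) - e.2.2) (a := -(1 / 4)) (b := 1 / 4)
      (fun u _ => Continuous.continuousAt (by fun_prop)) ?_ (hsm e he) ?_
    · filter_upwards [hev] with e' he' using (hsm e' he').monotoneOn
    · filter_upwards [hev] with e' he' using ⟨(hUh e' he').1, sub_eq_zero.2 (hUh e' he').2⟩
  have hf : ContDiff ℝ ∞ fun r : (ℝ × P) × ℝ => Yh (r.1.1, r.1.2.1, r.2) - r.1.2.2 :=
    (hs.comp (f := fun r : (ℝ × P) × ℝ => (r.1.1, r.1.2.1, r.2)) (by fun_prop)).sub (by fun_prop)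
  have hd : DifferentiableAt ℝ (fun u : ℝ => Yh (e.1, e.2.1, u) - e.2.2) (Uh e) :=
    ((hf.comp (f := fun u : ℝ => (e, u)) (by fun_prop)).differentiable (by simp)) (Uh e)
  have hpos : 0 < (e.2.1 ^ 2 + Uh e ^ 2) / 20 := by
    rcases eq_or_ne e.2.1 0 with h1 | h1
    · have : Uh e ≠ 0 := by
        intro h0
        have := (hUh e he).2
        rw [h0, hz _ _ he.1 (hx e he)] at this
        exact hne (Prod.ext h1 this.symm)
      positivity
    · positivity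
  refine ift (f := fun r : (ℝ × P) × ℝ => Yh (r.1.1, r.1.2.1, r.2) - r.1.2.2) hf.contDiffAt
    hd.hasDerivAt ?_ hcont ?_
  · refine ne_of_gt (hpos.trans_le ?_)
    have ht := (hasDerivAt_iff_tendsto_slope_left_right.1 hd.hasDerivAt).2
    refine ge_of_tendsto ht ?_
    have hU := (hUh e he).1
    filter_upwards [Ioo_mem_nhdsGT (show Uh e < 1 by linarith [hU.2])] with u hu
    have := hlo e.1 e.2.1 u (Uh e) he.1 (hx e he)
      (abs_le.2 ⟨by linarith [hu.1, hU.1], by linarith [hu.2]⟩) (hb _ hU) hu.1.le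
    rw [slope_def_field, le_div_iff₀ (sub_pos.2 hu.1)]
    have h5 : 0 ≤ u ^ 2 / 20 * (u - Uh e) := by
      have := sub_pos.2 hu.1
      positivity
    nlinarith
  · filter_upwards [hev] with e' he'
    rw [(hUh e' he').2, (hUh e he).2]
    simp

lemma exH (hH : St_HAD) {f : ℝ × (ℝ × P) → P} (hf : ContDiff ℝ ∞ f) (h0 : ∀ e, f (0, e) = 0) :
    ∃ H : ℝ × (ℝ × P) → P, ContDiff ℝ ∞ H ∧ ∀ τ e, f (τ, e) = τ • H (τ, e) := by
  obtain ⟨H, h1, h2⟩ := hH (ℝ × P) P univ f 1 isOpen_univ hf.contDiffOn (fun e _ => by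
    have hd : DifferentiableAt ℝ (fun τ : ℝ => f (τ, e)) 0 :=
      ((hf.comp (f := fun τ : ℝ => (τ, e)) (by fun_prop)).differentiable (by simp)) 0
    obtain ⟨c, hc⟩ := hd.isBigO_sub.bound
    refine ⟨c, ?_⟩
    filter_upwards [nhdsWithin_le_nhds hc] with l hl
    simpa [h0] using hl)
  exact ⟨H, contDiffOn_univ.1 h1, fun τ e => by simpa using h2 (τ, e) trivial⟩

lemma dil_dil (a b : ℝ) (p : P) : dil a (dil b p) = dil (a * b) p := by
  unfold dil; ext <;> simp <;> ring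

lemma dil_one (p : P) : dil 1 p = p := by
  unfold dil; ext <;> simp

lemma dil_sub (a : ℝ) (p q : P) : dil a p - dil a q = dil a (p - q) := by
  unfold dil; ext <;> simp <;> ring

lemma dil_zero (a : ℝ) : dil a 0 = 0 := by
  unfold dil; ext <;> simp

lemma contDiff_dil (a : ℝ) : ContDiff ℝ ∞ (dil a) := by
  unfold dil; fun_prop

lemma norm_dil_ge {a : ℝ} (ha : 1 ≤ a) (p : P) : a * ‖p‖ ≤ ‖dil a p‖ := by
  have h1 := abs_fst_le (dil a p)
  have h2 := abs_snd_le (dil a p)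
  have ha3 : a ≤ a ^ 3 := by nlinarith [mul_self_nonneg (a - 1), mul_self_nonneg a]
  simp only [dil, abs_mul, abs_pow, abs_of_pos (show 0 < a by linarith)] at h1 h2
  rw [Prod.norm_def p, mul_max_of_nonneg _ _ (by linarith : 0 ≤ a)]
  refine max_le h1 (le_trans ?_ h2)
  exact mul_le_mul_of_nonneg_right ha3 (abs_nonneg _)

lemma norm_dil_two_le (p : P) : ‖dil 2 p‖ ≤ 8 * ‖p‖ := by
  have h1 := abs_fst_le p
  have h2 := abs_snd_le p
  refine norm_le_iff.2 ⟨?_, ?_⟩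
  · simp only [dil, abs_mul]
    rw [abs_of_pos (by norm_num : (0 : ℝ) < 2)]
    nlinarith [abs_nonneg p.1]
  · simp only [dil, abs_mul]
    rw [abs_of_pos (by norm_num : (0 : ℝ) < 2 ^ 3)]
    nlinarith [abs_nonneg p.2]

/-- The blown up form of the displacement. -/
lemma exE (hH : St_HAD) {κ C : ℝ} {X : Geo} {T : P → ℝ} (h : Full κ C X) (hT : IsT X T) :
    ∃ E : ℝ × ℝ × P → P,
      ContDiffOn ℝ ∞ E {r | |r.1| < 2 ∧ ‖r.2.2‖ < 1 / 2000 ∧ r.2.2 ≠ 0} ∧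
      ∀ (l θ : ℝ) (q : P), l ≠ 0 → |l| < 2 → ‖q‖ < 1 / 2000 → q ≠ 0 →
        X.eta (θ * (π - T (X.Ψ (dil l q)))) (dil l q) - dil l q = l ^ 5 • E (l, θ, q) := by
  obtain ⟨Yh, hYs, hY⟩ := exY hH h
  obtain ⟨gh, hgs, hg, hg0⟩ := exG hH h
  have hz : ∀ l x : ℝ, |l| < 2 → |x| ≤ 2 → Yh (l, x, 0) = 0 :=
    fun l x hl hx => Yh_zero h hYs.continuous hY hl hx
  obtain ⟨Uh, hU, hUs⟩ := exU hYs
    (fun l x u u' hl hx hu hu' huu => Yh_lo h hYs.continuous hY hl hx hu hu' huu) hz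
  obtain ⟨S, hSs, hS⟩ := hT.T_blow
  set Φh : ℝ × P → P := fun e => (e.2.1, Yh e) with hΦh
  have hΦs : ContDiff ℝ ∞ Φh := ContDiff.prodMk (by fun_prop) hYs
  have hΦ : ∀ (l : ℝ) (z : P), X.Φ (l • z) = dil l (Φh (l, z)) := fun l z => by
    simp only [Dat.Φ, dil, hΦh, hY, Prod.smul_fst, smul_eq_mul]
  have hfs : ContDiff ℝ ∞ fun r : ℝ × (ℝ × P) =>
      Φh (r.2.1, gh (r.2.1, r.1, r.2.2)) - Φh r.2 := by
    refine ContDiff.sub (hΦs.comp (ContDiff.prodMk (by fun_prop) ?_)) (hΦs.comp contDiff_snd)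
    exact hgs.comp (f := fun r : ℝ × (ℝ × P) => (r.2.1, r.1, r.2.2)) (by fun_prop)
  obtain ⟨H, hHs, hHe⟩ := exH hH hfs (fun e => by simp [hg0])
  set zh : ℝ × P → P := fun e => (e.2.1, Uh e) with hzh
  have hzn : ∀ e ∈ Om, ‖zh e‖ ≤ 1 / 4 := fun e he => norm_le_iff.2
    ⟨by have := abs_fst_le e.2; have := he.2; simp only [hzh]; linarith, (hU e he).1⟩
  have hz1 : ∀ e ∈ Om, ‖e.1 • zh e‖ < 1 := fun e he => by
    rw [norm_smul, Real.norm_eq_abs]
    nlinarith [he.1, hzn e he, abs_nonneg e.1, norm_nonneg (zh e)]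
  have hΦz : ∀ e ∈ Om, Φh (e.1, zh e) = e.2 := fun e he => Prod.ext rfl (hU e he).2
  have hzne : ∀ e ∈ Om, e.2 ≠ 0 → zh e ≠ 0 := fun e he hne h0 => by
    have h1 := hΦz e he
    rw [h0] at h1
    apply hne
    rw [← h1]
    exact Prod.ext rfl (hz e.1 0 he.1 (by simp))
  set E0 : ℝ × ℝ × P → P := fun r => (-r.2.1 * S (r.1, zh (r.1, r.2.2))) •
    H (r.1 ^ 4 * (-r.2.1 * S (r.1, zh (r.1, r.2.2))), r.1, zh (r.1, r.2.2)) with hE0
  refine ⟨fun r => ((E0 r).1, r.1 ^ 2 * (E0 r).2), ?_, ?_⟩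
  · intro r hr
    have he : (r.1, r.2.2) ∈ Om := ⟨hr.1, hr.2.1⟩
    have a1 : ContDiffAt ℝ ∞ (fun r : ℝ × ℝ × P => Uh (r.1, r.2.2)) r :=
      (hUs _ he hr.2.2).comp r (f := fun r : ℝ × ℝ × P => (r.1, r.2.2)) (by fun_prop)
    have a2 : ContDiffAt ℝ ∞ (fun r : ℝ × ℝ × P => (r.1, zh (r.1, r.2.2))) r :=
      ContDiffAt.prodMk (by fun_prop) (ContDiffAt.prodMk (by fun_prop) a1)
    have hop : IsOpen {q : ℝ × P | q.2 ≠ 0 ∧ ‖q.1 • q.2‖ < 1} :=
      (isOpen_ne_fun continuous_snd continuous_const).inter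
        (isOpen_lt (f := fun q : ℝ × P => ‖q.1 • q.2‖) (by fun_prop) continuous_const)
    have a3 : ContDiffAt ℝ ∞ (fun r : ℝ × ℝ × P => S (r.1, zh (r.1, r.2.2))) r :=
      (hSs.contDiffAt (hop.mem_nhds ⟨hzne _ he hr.2.2, hz1 _ he⟩)).comp r a2
    have a4 : ContDiffAt ℝ ∞ (fun r : ℝ × ℝ × P => -r.2.1 * S (r.1, zh (r.1, r.2.2))) r :=
      ContDiffAt.mul (by fun_prop) a3
    have a5 : ContDiffAt ℝ ∞ E0 r :=
      a4.smul (hHs.contDiffAt.comp r (ContDiffAt.prodMk (ContDiffAt.mul (by fun_prop) a4) a2))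
    exact (ContDiffAt.prodMk a5.fst (ContDiffAt.mul (by fun_prop) a5.snd)).contDiffWithinAt
  · intro l θ q hl0 hl hq hq0
    have he : (l, q) ∈ Om := ⟨hl, hq⟩
    have b1 : dil l q = X.Φ (l • zh (l, q)) := by rw [hΦ, hΦz _ he]
    have b2 : X.Ψ (dil l q) = l • zh (l, q) := by
      rw [b1]; exact h.ΨΦ _ (by linarith [hz1 _ he])
    have b3 : T (l • zh (l, q)) = π + l ^ 4 * S (l, zh (l, q)) :=
      hS l _ hl0 (hzne _ he hq0) (hz1 _ he)
    have b4 : θ * (π - T (l • zh (l, q))) = l ^ 4 * (-θ * S (l, zh (l, q))) := by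
      rw [b3]; ring
    have b5 := hHe (l ^ 4 * (-θ * S (l, zh (l, q)))) (l, zh (l, q))
    simp only at b5
    rw [hΦz _ he] at b5
    rw [Geo.eta, b2, b4, hg, hΦ, dil_sub, b5]
    simp only [hE0, dil, Prod.smul_mk, Prod.smul_fst, Prod.smul_snd, smul_eq_mul]
    ext <;> simp only <;> ring

end BETA

open BETA in
theorem blk_BETA (hH : St_HAD) : St_BETA := by
  intro κ C X T h hT
  obtain ⟨E, hEs, hE⟩ := exE hH h hT
  let σ : ContDiffBump (0 : P) := ⟨1 / 8000, 1 / 4000, by norm_num, by norm_num⟩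
  let χ : ContDiffBump (0 : ℝ) := ⟨1, 3 / 2, by norm_num, by norm_num⟩
  have hσ1 : ∀ p : P, ‖p‖ ≤ 1 / 8000 → σ p = 1 := fun p hp =>
    σ.one_of_mem_closedBall (mem_closedBall_zero_iff.2 hp)
  have hσ0 : ∀ p : P, 1 / 4000 ≤ ‖p‖ → σ p = 0 := fun p hp =>
    σ.zero_of_le_dist (by rw [dist_zero_right]; exact hp)
  have hχ1 : ∀ l : ℝ, |l| ≤ 1 → χ l = 1 := fun l hl =>
    χ.one_of_mem_closedBall (by simpa using hl)
  have hχ0 : ∀ l : ℝ, 3 / 2 ≤ |l| → χ l = 0 := fun l hl =>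
    χ.zero_of_le_dist (by simpa using hl)
  set φ : P → ℝ := fun q => σ q - σ (dil 2 q) with hφ
  have hφs : ContDiff ℝ ∞ φ := σ.contDiff.sub (σ.contDiff.comp (contDiff_dil 2))
  have hφa : ∀ q : P, ‖q‖ ≤ 1 / 64000 → φ q = 0 := fun q hq => by
    simp only [hφ]
    rw [hσ1 q (by linarith), hσ1 _ (by linarith [norm_dil_two_le q]), sub_self]
  have hφb : ∀ q : P, 1 / 4000 ≤ ‖q‖ → φ q = 0 := fun q hq => by
    simp only [hφ]
    rw [hσ0 q hq, hσ0 _ (by linarith [norm_dil_ge (a := 2) (by norm_num) q]), sub_self]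
  refine ⟨σ, fun r => (χ r.1 * φ r.2.2) • E r, 1, σ.contDiff, ?_, ?_, ?_, ?_⟩
  · have : ∀ᶠ p in 𝓝 (0 : P), ‖p‖ < 1 / 8000 :=
      continuous_norm.continuousAt.eventually_lt continuousAt_const (by simp)
    filter_upwards [this] with p hp using hσ1 p hp.le
  · refine contDiff_cutoff_smul (χ := fun r : ℝ × ℝ × P => χ r.1 * φ r.2.2) ?_ ?_ ?_ hEs
    · exact (isOpen_lt (f := fun r : ℝ × ℝ × P => |r.1|) (by fun_prop) continuous_const).inter
        ((isOpen_lt (f := fun r : ℝ × ℝ × P => ‖r.2.2‖) (by fun_prop) continuous_const).inter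
          (isOpen_ne_fun (f := fun r : ℝ × ℝ × P => r.2.2) (by fun_prop) continuous_const))
    · exact (χ.contDiff.comp contDiff_fst).mul (hφs.comp (contDiff_snd.comp contDiff_snd))
    · have hcl : IsClosed {r : ℝ × ℝ × P | |r.1| ≤ 3 / 2 ∧ ‖r.2.2‖ ≤ 1 / 4000 ∧
          1 / 64000 ≤ ‖r.2.2‖} :=
        (isClosed_le (f := fun r : ℝ × ℝ × P => |r.1|) (by fun_prop) continuous_const).inter
          ((isClosed_le (f := fun r : ℝ × ℝ × P => ‖r.2.2‖) (by fun_prop) continuous_const).inter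
            (isClosed_le (g := fun r : ℝ × ℝ × P => ‖r.2.2‖) continuous_const (by fun_prop)))
      refine (closure_minimal (fun r hr => ?_) hcl).trans fun r hr => ?_
      · rw [Function.mem_support, mul_ne_zero_iff] at hr
        refine ⟨?_, ?_, ?_⟩
        · by_contra hc
          exact hr.1 (hχ0 _ (not_le.1 hc).le)
        · by_contra hc
          exact hr.2 (hφb _ (not_le.1 hc).le)
        · by_contra hc
          exact hr.2 (hφa _ (not_le.1 hc).le)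
      · refine ⟨by linarith [hr.1], by linarith [hr.2.1], fun h0 => ?_⟩
        have := hr.2.2
        rw [h0, norm_zero] at this
        norm_num at this
  · intro l θ p hp
    simp only
    rw [hφb p (by linarith), mul_zero, zero_smul]
  · intro θ p
    have hterm : ∀ j : ℕ, (((2 : ℝ) ^ j)⁻¹ ^ 5) • ((χ ((2 : ℝ) ^ j)⁻¹ * φ (dil (2 ^ j) p)) •
        E (((2 : ℝ) ^ j)⁻¹, θ, dil (2 ^ j) p)) =
        φ (dil (2 ^ j) p) • (X.eta (θ * (π - T (X.Ψ p))) p - p) := by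
      intro j
      by_cases h0 : φ (dil (2 ^ j) p) = 0
      · simp [h0]
      · have hp : (0 : ℝ) < 2 ^ j := by positivity
        have hl1 : |((2 : ℝ) ^ j)⁻¹| ≤ 1 := by
          rw [abs_of_pos (inv_pos.2 hp)]
          exact inv_le_one_of_one_le₀ (one_le_pow₀ (by norm_num))
        have c1 : ‖dil (2 ^ j) p‖ < 1 / 2000 := by
          by_contra hc
          exact h0 (hφb _ (by linarith [not_lt.1 hc]))
        have c2 : dil (2 ^ j) p ≠ 0 := fun hc => h0 (hφa _ (by rw [hc]; simp))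
        have c3 := hE ((2 : ℝ) ^ j)⁻¹ θ _ (inv_pos.2 hp).ne' (by linarith) c1 c2
        rw [dil_dil, inv_mul_cancel₀ hp.ne', dil_one] at c3
        rw [c3, hχ1 _ hl1, one_mul, smul_comm]
    unfold ser
    simp only [hterm]
    by_cases hp : p = 0
    · subst hp
      simp [h.eta_origin]
    · have hn : 0 < ‖p‖ := norm_pos_iff.2 hp
      obtain ⟨N, hN⟩ := pow_unbounded_of_one_lt (1 / ‖p‖) (show (1 : ℝ) < 2 by norm_num)
      have hbig : ∀ j, N ≤ j → 1 / 4000 ≤ ‖dil (2 ^ j) p‖ := fun j hj => by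
        have d1 : (2 : ℝ) ^ N ≤ 2 ^ j := pow_le_pow_right₀ (by norm_num) hj
        have d2 := norm_dil_ge (a := 2 ^ j) (one_le_pow₀ (by norm_num)) p
        rw [div_lt_iff₀ hn] at hN
        nlinarith
      rw [tsum_eq_sum (s := Finset.range N) (fun j hj => by
        rw [hφb _ (hbig j (by simpa using hj)), zero_smul]), ← Finset.sum_smul]
      congr 1
      have : ∀ j : ℕ, φ (dil (2 ^ j) p) = σ (dil (2 ^ j) p) - σ (dil (2 ^ (j + 1)) p) :=
        fun j => by simp only [hφ, dil_dil, pow_succ']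
      simp only [this]
      rw [Finset.sum_range_sub' (fun j : ℕ => σ (dil (2 ^ j) p)), hσ0 _ (hbig N le_rfl), pow_zero,
        dil_one, sub_zero]

end Pool.Agent.Lib.MP_f62ea7_gt
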