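import Pool.Agent.Lib.MP_f62ea7_gt.Basic

set_option autoImplicit false

open MeasureTheory Set Filter Topology Real
open scoped ENNReal

namespace Pool.Agent.Lib.MP_f62ea7_gt

namespace BM

/-- Integral of `S` over the interval of radius `a x` around `x`. -/
noncomputable def win (a S : ℝ → ℝ) (x : ℝ) : ℝ := ∫ s in Icc (x - a x) (x + a x), S s

/-- Average of `S` over that interval. -/
noncomputable def avg (a S : ℝ → ℝ) (x : ℝ) : ℝ := win a S x / (2 * a x)

lemma measurable_win {a S : ℝ → ℝ} (ha : Measurable a) (hS : Measurable S) :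
    Measurable (win a S) := by
  have hm : MeasurableSet {p : ℝ × ℝ | p.2 ∈ Icc (p.1 - a p.1) (p.1 + a p.1)} := by
    have h1 : Measurable fun p : ℝ × ℝ => p.1 - a p.1 := measurable_fst.sub (ha.comp measurable_fst)
    have h2 : Measurable fun p : ℝ × ℝ => p.1 + a p.1 := measurable_fst.add (ha.comp measurable_fst)
    exact (measurableSet_le h1 measurable_snd).inter (measurableSet_le measurable_snd h2)
  have hf : Measurable fun p : ℝ × ℝ =>
      {p : ℝ × ℝ | p.2 ∈ Icc (p.1 - a p.1) (p.1 + a p.1)}.indicator (fun p => S p.2) p :=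
    (hS.comp measurable_snd).indicator hm
  have := (hf.stronglyMeasurable.integral_prod_right' (ν := (volume : Measure ℝ))).measurable
  convert this using 1
  ext x
  unfold win
  rw [← integral_indicator measurableSet_Icc]
  rfl

lemma measurable_avg {a S : ℝ → ℝ} (ha : Measurable a) (hS : Measurable S) :
    Measurable (avg a S) :=
  (measurable_win ha hS).div (ha.const_mul 2)

lemma integrableOn_Icc {S : ℝ → ℝ} {B : ℝ} (hS : Measurable S) (h0 : ∀ s, 0 ≤ S s)
    (hB : ∀ s, S s ≤ B) (u v : ℝ) : IntegrableOn S (Icc u v) :=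
  Measure.integrableOn_of_bounded (M := B) measure_Icc_lt_top.ne hS.aestronglyMeasurable
    (Eventually.of_forall fun s => by rw [Real.norm_eq_abs, abs_of_nonneg (h0 s)]; exact hB s)

lemma win_nonneg {a S : ℝ → ℝ} (h0 : ∀ s, 0 ≤ S s) (x : ℝ) : 0 ≤ win a S x :=
  integral_nonneg h0

lemma win_le {a S : ℝ → ℝ} {B : ℝ} (hS : Measurable S) (h0 : ∀ s, 0 ≤ S s)
    (hB : ∀ s, S s ≤ B) {x : ℝ} (hx : 0 ≤ a x) : win a S x ≤ B * (2 * a x) := by
  have h1 : win a S x ≤ ∫ _ in Icc (x - a x) (x + a x), B :=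
    setIntegral_mono_on (integrableOn_Icc hS h0 hB _ _)
      (integrableOn_const measure_Icc_lt_top.ne) measurableSet_Icc fun s _ => hB s
  rw [setIntegral_const, Real.volume_real_Icc_of_le (by linarith), smul_eq_mul] at h1
  linarith

lemma avg_nonneg {a S : ℝ → ℝ} (h0 : ∀ s, 0 ≤ S s) {x : ℝ} (hx : 0 ≤ a x) : 0 ≤ avg a S x :=
  div_nonneg (win_nonneg h0 x) (by linarith)

lemma avg_le {a S : ℝ → ℝ} {B : ℝ} (hS : Measurable S) (h0 : ∀ s, 0 ≤ S s)
    (hB : ∀ s, S s ≤ B) {x : ℝ} (hx : 0 ≤ a x) : avg a S x ≤ B :=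
  div_le_of_le_mul₀ (by linarith) ((h0 0).trans (hB 0)) (win_le hS h0 hB hx)

lemma win_eq {a S : ℝ → ℝ} {B : ℝ} (hS : Measurable S) (h0 : ∀ s, 0 ≤ S s)
    (hB : ∀ s, S s ≤ B) {x : ℝ} (hx : 0 ≤ a x) : win a S x = 2 * a x * avg a S x := by
  rcases hx.eq_or_lt with h | h
  · have h1 := win_le hS h0 hB hx
    have h2 := win_nonneg (a := a) h0 x
    rw [← h] at h1 ⊢
    linarith
  · unfold avg; field_simp

/-- The part of `S` above level `t / 2`. -/
noncomputable def top (S : ℝ → ℝ) (t s : ℝ) : ℝ := if t < 2 * S s then S s else 0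

lemma measurable_top {S : ℝ → ℝ} (hS : Measurable S) :
    Measurable fun p : ℝ × ℝ => top S p.1 p.2 :=
  Measurable.ite (measurableSet_lt measurable_fst ((hS.comp measurable_snd).const_mul 2))
    (hS.comp measurable_snd) measurable_const

lemma ball_bound {a S : ℝ → ℝ} {B t : ℝ} (hS : Measurable S) (h0 : ∀ s, 0 ≤ S s)
    (hB : ∀ s, S s ≤ B) (ht : 0 < t) {x : ℝ} (hx : 0 < a x) (hm : t < avg a S x) :
    ENNReal.ofReal (t * a x) ≤
      ∫⁻ s in Metric.closedBall x (a x), ENNReal.ofReal (top S t s) := by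
  have hT : Measurable (top S t) := (measurable_top hS).comp (measurable_const.prodMk measurable_id)
  have hT0 : ∀ s, 0 ≤ top S t s := fun s => by unfold top; split_ifs; exacts [h0 s, le_rfl]
  have hTB : ∀ s, top S t s ≤ B := fun s => by
    unfold top; split_ifs; exacts [hB s, (h0 s).trans (hB s)]
  have hi := integrableOn_Icc hT hT0 hTB (x - a x) (x + a x)
  rw [Real.closedBall_eq_Icc, ← ofReal_integral_eq_lintegral_ofReal hi
    (Eventually.of_forall hT0)]
  refine ENNReal.ofReal_le_ofReal ?_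
  have h1 : win a S x ≤ ∫ s in Icc (x - a x) (x + a x), (t / 2 + top S t s) := by
    refine setIntegral_mono_on (integrableOn_Icc hS h0 hB _ _)
      ((integrableOn_const measure_Icc_lt_top.ne).add hi) measurableSet_Icc fun s _ => ?_
    unfold top; split_ifs with h
    · linarith
    · linarith [not_lt.1 h]
  have hc : IntegrableOn (fun _ : ℝ => t / 2) (Icc (x - a x) (x + a x)) :=
    integrableOn_const measure_Icc_lt_top.ne
  rw [integral_add hc hi, setIntegral_const,
    Real.volume_real_Icc_of_le (by linarith), smul_eq_mul] at h1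
  have h2 : t * (2 * a x) < win a S x := (lt_div_iff₀ (by linarith)).1 hm
  linarith

/-- Weak type bound. -/
lemma weak {a S : ℝ → ℝ} {B t : ℝ} {E : Set ℝ} (hS : Measurable S) (h0 : ∀ s, 0 ≤ S s)
    (hB : ∀ s, S s ≤ B) (ht : 0 < t) (ha : ∀ x ∈ E, 0 ≤ a x ∧ a x ≤ B)
    (hm : ∀ x ∈ E, t < avg a S x) :
    volume E * ENNReal.ofReal t ≤ 10 * ∫⁻ s, ENNReal.ofReal (top S t s) := by
  have hpos : ∀ x ∈ E, 0 < a x := fun x hx => by
    rcases (ha x hx).1.eq_or_lt with h | h
    · have := hm x hx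
      unfold avg at this
      rw [← h, mul_zero, div_zero] at this
      linarith
    · exact h
  obtain ⟨u, huE, hd, hc⟩ := Vitali.exists_disjoint_subfamily_covering_enlargement_closedBall E
    (fun x => x) a B (fun x hx => (ha x hx).2) 5 (by norm_num)
  have hcount : u.Countable := by
    refine hd.countable_of_nonempty_interior fun x hx => ?_
    exact ⟨x, Metric.ball_subset_interior_closedBall (Metric.mem_ball_self (hpos x (huE hx)))⟩
  have hsub : E ⊆ ⋃ b ∈ u, Metric.closedBall b (5 * a b) := fun x hx => by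
    obtain ⟨b, hb, h⟩ := hc x hx
    exact mem_biUnion hb (h (Metric.mem_closedBall_self (ha x hx).1))
  have h1 : volume E ≤ ∑' b : u, volume (Metric.closedBall (b : ℝ) (5 * a b)) :=
    (measure_mono hsub).trans (measure_biUnion_le volume hcount _)
  calc volume E * ENNReal.ofReal t
      ≤ (∑' b : u, volume (Metric.closedBall (b : ℝ) (5 * a b))) * ENNReal.ofReal t := by gcongr
    _ = ∑' b : u, 10 * ENNReal.ofReal (t * a b) := by
        rw [← ENNReal.tsum_mul_right]
        refine tsum_congr fun b => ?_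
        rw [Real.volume_closedBall, ← ENNReal.ofReal_mul' ht.le, ← ENNReal.ofReal_ofNat 10,
          ← ENNReal.ofReal_mul (by norm_num)]
        congr 1; ring
    _ ≤ ∑' b : u, 10 * ∫⁻ s in Metric.closedBall (b : ℝ) (a b), ENNReal.ofReal (top S t s) := by
        refine ENNReal.tsum_le_tsum fun b => ?_
        gcongr
        exact ball_bound hS h0 hB ht (hpos b (huE b.2)) (hm b (huE b.2))
    _ = 10 * ∫⁻ s in ⋃ b ∈ u, Metric.closedBall b (a b), ENNReal.ofReal (top S t s) := by
        rw [ENNReal.tsum_mul_left,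
          lintegral_biUnion hcount (fun _ _ => Metric.isClosed_closedBall.measurableSet) hd]
    _ ≤ 10 * ∫⁻ s, ENNReal.ofReal (top S t s) := by
        gcongr
        exact Measure.restrict_le_self

lemma top_int {S : ℝ → ℝ} (h0 : ∀ s, 0 ≤ S s) (s : ℝ) :
    ∫⁻ t in Ioi (0 : ℝ), ENNReal.ofReal (top S t s) = 2 * ENNReal.ofReal (S s ^ 2) := by
  have h : (fun t => ENNReal.ofReal (top S t s)) =
      (Iio (2 * S s)).indicator fun _ => ENNReal.ofReal (S s) := by
    ext t
    unfold top
    by_cases h : t < 2 * S s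
    · rw [if_pos h, indicator_of_mem (show t ∈ Iio (2 * S s) from h)]
    · rw [if_neg h, indicator_of_notMem (show t ∉ Iio (2 * S s) from h), ENNReal.ofReal_zero]
  rw [h, lintegral_indicator measurableSet_Iio, setLIntegral_const,
    Measure.restrict_apply measurableSet_Iio, inter_comm, Ioi_inter_Iio, Real.volume_Ioo,
    ← ENNReal.ofReal_mul (h0 s), ← ENNReal.ofReal_ofNat 2, ← ENNReal.ofReal_mul (by norm_num)]
  congr 1; ring

/-- Strong bound. -/
lemma strong {a S : ℝ → ℝ} {B : ℝ} {J : Set ℝ} (hJ : MeasurableSet J) (ham : Measurable a)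
    (hS : Measurable S) (h0 : ∀ s, 0 ≤ S s) (hB : ∀ s, S s ≤ B)
    (ha : ∀ x ∈ J, 0 ≤ a x ∧ a x ≤ B) :
    ∫⁻ x in J, ENNReal.ofReal (avg a S x ^ 2) ≤ 40 * ∫⁻ s, ENNReal.ofReal (S s ^ 2) := by
  have hm := measurable_avg ham hS
  have hnn : 0 ≤ᵐ[volume.restrict J] avg a S :=
    (ae_restrict_iff' hJ).2 (Eventually.of_forall fun x hx => avg_nonneg h0 (ha x hx).1)
  have h1 := lintegral_rpow_eq_lintegral_meas_lt_mul (volume.restrict J) hnn hm.aemeasurable
    (p := 2) (by norm_num)
  simp only [Real.rpow_two] at h1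
  rw [h1]
  have h2 : ∫⁻ t in Ioi (0 : ℝ), (volume.restrict J) {x | t < avg a S x} *
        ENNReal.ofReal (t ^ ((2 : ℝ) - 1)) ≤
      ∫⁻ t in Ioi (0 : ℝ), 10 * ∫⁻ s, ENNReal.ofReal (top S t s) := by
    refine setLIntegral_mono' measurableSet_Ioi fun t ht => ?_
    rw [Measure.restrict_apply (measurableSet_lt measurable_const hm),
      show (2 : ℝ) - 1 = 1 by norm_num, Real.rpow_one]
    exact weak hS h0 hB ht (fun x hx => ha x hx.2) fun x hx => hx.1
  have hT : Measurable fun p : ℝ × ℝ => ENNReal.ofReal (top S p.1 p.2) :=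
    (measurable_top hS).ennreal_ofReal
  have h3 : ∫⁻ t in Ioi (0 : ℝ), ∫⁻ s, ENNReal.ofReal (top S t s) =
      2 * ∫⁻ s, ENNReal.ofReal (S s ^ 2) := by
    rw [lintegral_lintegral_swap hT.aemeasurable]
    simp_rw [top_int h0]
    rw [lintegral_const_mul _ (hS.pow_const 2).ennreal_ofReal]
  rw [lintegral_const_mul' _ _ (by norm_num), h3] at h2
  calc ENNReal.ofReal 2 * _ ≤ ENNReal.ofReal 2 * (10 * (2 * ∫⁻ s, ENNReal.ofReal (S s ^ 2))) := by
        gcongr
    _ = 40 * ∫⁻ s, ENNReal.ofReal (S s ^ 2) := by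
        rw [ENNReal.ofReal_ofNat 2]; ring

lemma integrableOn_Itv {g : ℝ → ℝ} {M : ℝ} (hg : Measurable g) (h : ∀ x ∈ Itv, |g x| ≤ M) :
    IntegrableOn g Itv :=
  Measure.integrableOn_of_bounded (M := M) measure_Icc_lt_top.ne hg.aestronglyMeasurable
    ((ae_restrict_iff' measurableSet_Icc).2 (Eventually.of_forall h))

end BM

open BM in
theorem blk_BM : St_BM := by
  intro θ B f a σ hθ hf ha hσ bf ba bσ
  have hI : MeasurableSet Itv := measurableSet_Icc
  have hB0 : 0 ≤ B := by
    have := bf 0 (by constructor <;> norm_num)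
    linarith [this.1, this.2]
  set S : ℝ → ℝ := Itv.indicator σ with hSdef
  have hS : Measurable S := hσ.indicator hI
  have h0 : ∀ s, 0 ≤ S s := fun s => by
    by_cases h : s ∈ Itv
    · rw [hSdef, indicator_of_mem h]; exact (bσ s h).1
    · rw [hSdef, indicator_of_notMem h]
  have hB : ∀ s, S s ≤ B := fun s => by
    by_cases h : s ∈ Itv
    · rw [hSdef, indicator_of_mem h]; exact (bσ s h).2
    · rw [hSdef, indicator_of_notMem h]; exact hB0
  have hw : ∀ x, ∫ s in Icc (x - a x) (x + a x) ∩ Itv, σ s = win a S x := fun x => by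
    unfold win
    rw [hSdef, setIntegral_indicator hI]
  have hm := measurable_avg ha hS
  have i1 : IntegrableOn (fun x => avg a S x ^ 2) Itv :=
    integrableOn_Itv (M := B ^ 2) (hm.pow_const 2) fun x hx => by
      rw [abs_of_nonneg (sq_nonneg _)]
      exact pow_le_pow_left₀ (avg_nonneg h0 (ba x hx).1) (avg_le hS h0 hB (ba x hx).1) 2
  have i2 : IntegrableOn (fun x => (f x * a x) ^ 2) Itv :=
    integrableOn_Itv (M := (B * B) ^ 2) ((hf.mul ha).pow_const 2) fun x hx => by
      rw [abs_of_nonneg (sq_nonneg _)]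
      exact pow_le_pow_left₀ (mul_nonneg (bf x hx).1 (ba x hx).1)
        (mul_le_mul (bf x hx).2 (ba x hx).2 (ba x hx).1 hB0) 2
  have i3 : IntegrableOn (fun x => σ x ^ 2) Itv :=
    integrableOn_Itv (M := B ^ 2) (hσ.pow_const 2) fun x hx => by
      rw [abs_of_nonneg (sq_nonneg _)]
      exact pow_le_pow_left₀ (bσ x hx).1 (bσ x hx).2 2
  have hst := strong hI ha hS h0 hB ba
  have hS2 : ∫⁻ s, ENNReal.ofReal (S s ^ 2) = ∫⁻ s in Itv, ENNReal.ofReal (σ s ^ 2) := by
    rw [← lintegral_indicator hI]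
    refine lintegral_congr fun s => ?_
    by_cases h : s ∈ Itv
    · rw [hSdef, indicator_of_mem h, indicator_of_mem h]
    · rw [hSdef, indicator_of_notMem h, indicator_of_notMem h]; simp
  rw [hS2, ← ofReal_integral_eq_lintegral_ofReal i1 (Eventually.of_forall fun _ => sq_nonneg _),
    ← ofReal_integral_eq_lintegral_ofReal i3 (Eventually.of_forall fun _ => sq_nonneg _),
    ← ENNReal.ofReal_ofNat 40, ← ENNReal.ofReal_mul (by norm_num)] at hst
  have n3 : 0 ≤ ∫ s in Itv, σ s ^ 2 := integral_nonneg fun _ => sq_nonneg _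
  have n2 : 0 ≤ ∫ x in Itv, (f x * a x) ^ 2 := integral_nonneg fun _ => sq_nonneg _
  have hst' := (ENNReal.ofReal_le_ofReal_iff (by positivity)).1 hst
  have key : ∫ x in Itv, f x * ∫ s in Icc (x - a x) (x + a x) ∩ Itv, σ s ≤
      ∫ x in Itv, (θ / 40 * avg a S x ^ 2 + 40 / θ * (f x * a x) ^ 2) := by
    refine integral_mono_of_nonneg ?_ ((i1.const_mul _).add (i2.const_mul _)) ?_
    · refine (ae_restrict_iff' hI).2 (Eventually.of_forall fun x hx => ?_)
      simp only [Pi.zero_apply]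
      rw [hw]
      exact mul_nonneg (bf x hx).1 (win_nonneg h0 x)
    · refine (ae_restrict_iff' hI).2 (Eventually.of_forall fun x hx => ?_)
      simp only []
      rw [hw, win_eq hS h0 hB (ba x hx).1]
      have e : θ / 40 * avg a S x ^ 2 + 40 / θ * (f x * a x) ^ 2 -
          f x * (2 * a x * avg a S x) =
          θ / 40 * (avg a S x - 40 / θ * (f x * a x)) ^ 2 := by
        field_simp; ring
      have : 0 ≤ θ / 40 * (avg a S x - 40 / θ * (f x * a x)) ^ 2 := by positivity
      linarith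
  rw [integral_add (i1.const_mul _) (i2.const_mul _), integral_const_mul, integral_const_mul] at key
  have c1 : θ / 40 * ∫ x in Itv, avg a S x ^ 2 ≤ θ * ∫ s in Itv, σ s ^ 2 := by
    calc _ ≤ θ / 40 * (40 * ∫ s in Itv, σ s ^ 2) := by gcongr
      _ = _ := by ring
  have c2 : 40 / θ * ∫ x in Itv, (f x * a x) ^ 2 ≤ 100 / θ * ∫ x in Itv, (f x * a x) ^ 2 := by
    gcongr; norm_num
  linarith

end Pool.Agent.Lib.MP_f62ea7_gt
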