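import Mathlib

set_option autoImplicit false

open MeasureTheory Set
open scoped FourierTransform ContDiff ENNReal

namespace Pool.Agent.Lib.MP_f62ea7_gt

/-- Square integrable functions on the plane `ℂ = ℝ²` with values in the plane. -/
abbrev L2 : Type := Lp ℂ 2 (volume : Measure ℂ)

/-- The function with Fourier transform `(1 + |ξ|²)^(-s/2) g(ξ)`. As `g` runs over `L²`, these are
the elements of the Sobolev space `H^s(ℝ², ℝ²)`, with norm `‖g‖`. -/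
noncomputable def bessel (s : ℝ) (g : L2) (z : ℂ) : ℂ :=
  𝓕⁻ (fun ξ : ℂ => ((1 + ‖ξ‖ ^ 2) ^ (-s / 2) : ℝ) • g ξ) z

/-- `f` is of class `H^s` on `M`: it is the restriction of an element of `H^s(ℝ², ℝ²)`. -/
def IsH (s : ℝ) (M : Set ℂ) (f : ℂ → ℂ) : Prop :=
  ∃ g : L2, ∀ z ∈ M, f z = bessel s g z

/-- `f` is an area preserving diffeomorphism of `M` of class `H^s`. -/
def IsDiff (s : ℝ) (M : Set ℂ) (f : ℂ → ℂ) : Prop :=
  IsH s M f ∧ MapsTo f M M ∧ (∃ f' : ℂ → ℂ, IsH s M f' ∧ MapsTo f' M M ∧ InvOn f' f M M) ∧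
    ∀ A ⊆ M, MeasurableSet A → volume (f '' A) = volume A

/-- `γ` is a curve, piecewise `C¹` in the `H^s` topology, of area preserving `H^s` diffeomorphisms
of `M` from the identity to `φ`, on the time interval `[0, 1]`. -/
def IsCurve (s : ℝ) (M : Set ℂ) (φ : ℂ → ℂ) (γ : ℝ → ℂ → ℂ) : Prop :=
  (∃ (g : ℝ → L2) (S : Finset ℝ),
    (∀ a b : ℝ, 0 ≤ a → b ≤ 1 → (∀ t ∈ S, t ∉ Ioo a b) → ContDiffOn ℝ 1 g (Icc a b)) ∧
    ∀ t ∈ Icc (0 : ℝ) 1, ∀ z ∈ M, γ t z = bessel s (g t) z) ∧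
  (∀ t ∈ Icc (0 : ℝ) 1, IsDiff s M (γ t)) ∧ (∀ z ∈ M, γ 0 z = z) ∧ ∀ z ∈ M, γ 1 z = φ z

/-- The `L²` energy of a curve. -/
noncomputable def energy (M : Set ℂ) (γ : ℝ → ℂ → ℂ) : ℝ≥0∞ :=
  (∫⁻ t in Ioo (0 : ℝ) 1, ∫⁻ z in M, ‖deriv (fun τ => γ τ z) t‖ₑ ^ 2) / 2

/-- `M` is a compact connected plane domain with smooth boundary. -/
def IsDomain (M : Set ℂ) : Prop :=
  IsCompact M ∧ IsConnected M ∧
    ∃ h : ℂ → ℝ, ContDiff ℝ ∞ h ∧ M = {z | h z ≤ 0} ∧ ∀ z, h z = 0 → fderiv ℝ h z ≠ 0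

end Pool.Agent.Lib.MP_f62ea7_gt
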