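import Pool.Agent.Lib.MP_f62ea7_gt.Basic2

set_option autoImplicit false

open MeasureTheory Set Filter Topology Real
open scoped ContDiff ENNReal

namespace Pool.Agent.Lib.MP_f62ea7_gt

namespace ENER
variable {κ C : ℝ} {X : Geo} {η v : ℝ → P → P}

lemma cont_zs (h : Full κ C X) : Continuous fun q : ℝ × P => X.g q.1 (X.Ψ q.2) :=
  h.g_sm.continuous.comp (continuous_fst.prodMk (h.Ψ_cont.comp continuous_snd))

lemma cont_pres (h : Full κ C X) : Continuous (X.pres κ) := by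
  unfold Dat.pres
  have h1 := h.w_sm.continuous
  have h2 := h.V_sm.continuous
  fun_prop

lemma nice_G (h : Full κ C X) : Nice X.M fun t a => X.G (X.g t (X.Ψ a)) :=
  Nice.of_continuous h.M_compact (h.G_sm.continuous.comp (cont_zs h))

lemma nice_B (h : Full κ C X) : Nice X.M fun t a => X.B (X.g t (X.Ψ a)) :=
  Nice.of_continuous h.M_compact (h.B_sm.continuous.comp (cont_zs h))

lemma nice_p1 (h : Full κ C X) (hη : Adm X.M η v) :
    Nice X.M fun t a => X.pres κ (X.Ψ (η t a)) :=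
  Nice.of_continuous h.M_compact ((cont_pres h).comp (h.Ψ_cont.comp hη.cont))

lemma nice_p2 (h : Full κ C X) : Nice X.M fun t a => X.pres κ (X.g t (X.Ψ a)) :=
  Nice.of_continuous h.M_compact ((cont_pres h).comp (cont_zs h))

/-- integration by parts in time, first coordinate -/
lemma parts1 (h : Full κ C X) (hη : Adm X.M η v) (he : Ends X η) :
    dbl X.M (fun t a => (X.vel t a).1 * e1 X v t a) =
      dbl X.M fun t a => X.G (X.g t (X.Ψ a)) * d1 X η t a := by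
  have n1 := h.adm.nice_v1.mul (h.nice_e1 hη)
  have n2 := (nice_G h).mul (h.nice_d1 hη)
  rw [← sub_eq_zero, ← dbl_sub h.M_compact n1 n2, dbl_swap h.M_compact (n1.sub n2)]
  refine (setIntegral_congr_fun (g := fun _ => (0 : ℝ)) h.M_meas fun a ha => ?_).trans (by simp)
  obtain ⟨S, hS⟩ := hη.der
  have hc : Continuous fun t => (X.vel t a).1 * d1 X η t a :=
    ((h.vel_cont.comp (continuous_id.prodMk continuous_const)).fst).mul (h.continuous_d1_time hη a)
  have := ftc_off (f := fun t => (X.vel t a).1 * d1 X η t a)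
    (f' := fun t => (X.vel t a).1 * e1 X v t a - X.G (X.g t (X.Ψ a)) * d1 X η t a) S
    zero_mem_Icc pi_mem_Icc hc.continuousOn (fun t ht _ hs => by
      have a1 : HasDerivAt (fun τ => (X.vel τ a).1) (-X.G (X.g t (X.Ψ a))) t :=
        hasDerivAt_snd (h.g_der _ (h.M_W ha) t)
      have a2 := (h.d_der ha (hS t ht hs a ha)).1
      exact (a1.mul a2).congr_deriv (by ring)) ((n1.sub n2).intervalIntegrable ha zero_mem_Icc pi_mem_Icc)
  simp only [this, (h.d_ends he ha).1, (h.d_ends he ha).2.1]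
  simp

/-- integration by parts in time, second coordinate -/
lemma parts2 (h : Full κ C X) (hη : Adm X.M η v) (he : Ends X η) :
    dbl X.M (fun t a => (X.vel t a).2 * e2 X v t a) =
      dbl X.M fun t a => X.B (X.g t (X.Ψ a)) * d2 X η t a := by
  have n1 := h.adm.nice_v2.mul (h.nice_e2 hη)
  have n2 := (nice_B h).mul (h.nice_d2 hη)
  rw [← sub_eq_zero, ← dbl_sub h.M_compact n1 n2, dbl_swap h.M_compact (n1.sub n2)]
  refine (setIntegral_congr_fun (g := fun _ => (0 : ℝ)) h.M_meas fun a ha => ?_).trans (by simp)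
  obtain ⟨S, hS⟩ := hη.der
  have hc : Continuous fun t => (X.vel t a).2 * d2 X η t a :=
    ((h.vel_cont.comp (continuous_id.prodMk continuous_const)).snd).mul (h.continuous_d2_time hη a)
  have := ftc_off (f := fun t => (X.vel t a).2 * d2 X η t a)
    (f' := fun t => (X.vel t a).2 * e2 X v t a - X.B (X.g t (X.Ψ a)) * d2 X η t a) S
    zero_mem_Icc pi_mem_Icc hc.continuousOn (fun t ht _ hs => by
      have a1 : HasDerivAt (fun τ => (X.vel τ a).2) (-X.B (X.g t (X.Ψ a))) t :=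
        h.V_der _ (h.M_W ha) t
      have a2 := (h.d_der ha (hS t ht hs a ha)).2
      exact (a1.mul a2).congr_deriv (by ring)) ((n1.sub n2).intervalIntegrable ha zero_mem_Icc pi_mem_Icc)
  simp only [this, (h.d_ends he ha).2.2.1, (h.d_ends he ha).2.2.2]
  simp

/-- the pressure terms have the same integral -/
lemma pres_eq (h : Full κ C X) (hη : Adm X.M η v) :
    dbl X.M (fun t a => X.pres κ (X.Ψ (η t a))) = dbl X.M fun t a => X.pres κ (X.g t (X.Ψ a)) := by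
  refine intervalIntegral.integral_congr fun t ht => ?_
  rw [uIcc_of_le pi_pos.le] at ht
  have hm : Measurable fun p => X.pres κ (X.Ψ p) := ((cont_pres h).comp h.Ψ_cont).measurable
  have a1 := integral_comp_mp (hη.mp t ht) hm
  have a2 := integral_comp_mp (h.adm.mp t ht) hm
  simp only
  rw [a1, ← a2]
  exact setIntegral_congr_fun h.M_meas fun a ha => by simp only [h.eta_lab a ha.1 t]

/-- the pointwise inequality -/
lemma pointwise (h : Full κ C X) (hη : Adm X.M η v) {CW t : ℝ} (ht : t ∈ Icc 0 π) {a : P}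
    (ha : a ∈ X.M) (h0 : 0 ≤ Ia X η v a + Ja X η a)
    (hW : (‖X.Ψ a‖ ^ 2 + d1 X η t a ^ 2) * |d1 X η t a| ≤ CW * mm X η v a) :
    X.pres κ (X.Ψ (η t a)) - X.pres κ (X.g t (X.Ψ a)) - d1 X η t a ^ 2 / 2 +
        κ / 20 * ((X.eta t a).1 ^ 4 * d1 X η t a ^ 2 + d1 X η t a ^ 6) -
        C * κ ^ 2 * d2 X η t a ^ 2 - 16 * C * κ ^ 2 * CW ^ 2 * (Ia X η v a + Ja X η a) ≤
      X.G (X.g t (X.Ψ a)) * d1 X η t a + κ ^ 2 * (X.B (X.g t (X.Ψ a)) * d2 X η t a) := by
  have hp : ‖η t a‖ ≤ 2 := (hη.maps t ht ha).1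
  have hW' := h.g_mem _ (h.M_W ha) t
  have r := h.rem (X.Ψ (η t a)) (X.g t (X.Ψ a)) (h.box_n _ hp).le hW'.1
  have b1 : (X.Ψ (η t a)).1 - (X.g t (X.Ψ a)).1 = d1 X η t a := rfl
  have b2 : X.Y (X.Ψ (η t a)) - X.Y (X.g t (X.Ψ a)) = d2 X η t a := by
    have := congrArg Prod.snd (h.ΦΨ (η t a) (by linarith))
    change X.Y (X.Ψ (η t a)) = _ at this
    rw [this]; rfl
  rw [b1, b2, ← Full.eta_fst] at r
  have c1 : ‖X.g t (X.Ψ a)‖ ^ 4 ≤ 16 * ‖X.Ψ a‖ ^ 4 := by
    calc ‖X.g t (X.Ψ a)‖ ^ 4 ≤ (2 * ‖X.Ψ a‖) ^ 4 :=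
          pow_le_pow_left₀ (norm_nonneg _) (h.g_norm _ (h.M_W ha) t) 4
      _ = 16 * ‖X.Ψ a‖ ^ 4 := by ring
  have c2 : ((‖X.Ψ a‖ ^ 2 + d1 X η t a ^ 2) * |d1 X η t a|) ^ 2 ≤ (CW * mm X η v a) ^ 2 :=
    pow_le_pow_left₀ (by positivity) hW 2
  have c3 : mm X η v a ^ 2 = Ia X η v a + Ja X η a := sq_sqrt h0
  rw [mul_pow, mul_pow, sq_abs, c3] at c2
  have c4 : (‖X.g t (X.Ψ a)‖ ^ 4 + d1 X η t a ^ 4) * d1 X η t a ^ 2 ≤
      16 * (CW ^ 2 * (Ia X η v a + Ja X η a)) := by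
    have : (‖X.g t (X.Ψ a)‖ ^ 4 + d1 X η t a ^ 4) ≤ 16 * (‖X.Ψ a‖ ^ 2 + d1 X η t a ^ 2) ^ 2 := by
      nlinarith [mul_nonneg (sq_nonneg ‖X.Ψ a‖) (sq_nonneg (d1 X η t a)),
        sq_nonneg (d1 X η t a ^ 2)]
    calc _ ≤ 16 * (‖X.Ψ a‖ ^ 2 + d1 X η t a ^ 2) ^ 2 * d1 X η t a ^ 2 :=
          mul_le_mul_of_nonneg_right this (sq_nonneg _)
      _ ≤ _ := by linarith
  have c5 : 0 ≤ C * κ ^ 2 := mul_nonneg (by linarith [h.C_ge]) (sq_nonneg _)
  have c6 := mul_le_mul_of_nonneg_left c4 c5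
  nlinarith

end ENER

open ENER in
theorem blk_ENER (hL : St_WL) : St_ENER := by
  obtain ⟨CW, -, hW⟩ := hL
  intro C
  refine ⟨max C 0 * (1 + 16 * π * CW ^ 2), by positivity, fun κ X h η v hη he => ?_⟩
  have hC : max C 0 = C := max_eq_left (by linarith [h.C_ge])
  have hM := h.M_compact
  have hW' := hW κ C X h η v hη he
  have h0 : ∀ a ∈ X.M, 0 ≤ Ia X η v a + Ja X η a := fun a ha =>
    add_nonneg (hW' a ha).1 (hW' a ha).2.1
  have nI := h.nice_I hη
  have nJ := h.nice_J hη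
  have nE := (h.nice_e2 hη).pow 2
  have nD := (h.nice_d2 hη).pow 2
  have nm : Nice X.M fun _ a => mm X η v a ^ 2 := by
    obtain ⟨B, hB⟩ := h.mm_bdd hη
    exact (Nice.of_space (h.measurable_mm hη) hB).pow 2
  have nG := (nice_G h).mul (h.nice_d1 hη)
  have nB := (nice_B h).mul (h.nice_d2 hη)
  have n1 := h.adm.nice_v1.mul (h.nice_e1 hη)
  have n2 := h.adm.nice_v2.mul (h.nice_e2 hη)
  have nq := (((h.nice_e1 hη).pow 2).const_mul (1 / 2)).add (nE.const_mul (κ ^ 2 / 2))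
  -- the difference of the actions
  have e1' : act κ X.M v - act κ X.M X.vel =
      dbl X.M (fun t a => 1 / 2 * e1 X v t a ^ 2 + κ ^ 2 / 2 * e2 X v t a ^ 2) +
        (dbl X.M (fun t a => (X.vel t a).1 * e1 X v t a) +
          κ ^ 2 * dbl X.M fun t a => (X.vel t a).2 * e2 X v t a) := by
    unfold act
    rw [← dbl_sub hM (((hη.nice_v1.pow 2).add ((hη.nice_v2.pow 2).const_mul _)).div_const 2)
      (((h.adm.nice_v1.pow 2).add ((h.adm.nice_v2.pow 2).const_mul _)).div_const 2),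
      ← dbl_const_mul, ← dbl_add hM n1 (n2.const_mul _), ← dbl_add hM nq (n1.add (n2.const_mul _))]
    refine dbl_congr hM fun t _ a _ => ?_
    unfold e1 e2
    ring
  rw [e1', parts1 h hη he, parts2 h hη he, ← dbl_const_mul, ← dbl_add hM nG (nB.const_mul _),
    ← dbl_add hM nq (nG.add (nB.const_mul _))]
  -- the lower function
  have m1 := (nice_p1 h hη).sub (nice_p2 h)
  have m2 := nI.const_mul (1 / 2)
  have m3 := nJ.const_mul (κ / 20)
  have m4 := nE.const_mul (κ ^ 2 / 2)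
  have m5 := nD.const_mul (C * κ ^ 2)
  have m6 := nm.const_mul (16 * C * κ ^ 2 * CW ^ 2)
  have key := dbl_mono hM (((((m1.add m2).add m3).add m4).sub m5).sub m6)
    (nq.add (nG.add (nB.const_mul (κ ^ 2)))) fun t ht a ha => by
      have := pointwise h hη ht ha (h0 a ha) ((hW' a ha).2.2.2 t ht)
      have c3 : mm X η v a ^ 2 = Ia X η v a + Ja X η a := sq_sqrt (h0 a ha)
      rw [c3]
      linarith
  refine le_trans ?_ key
  rw [dbl_sub hM ((((m1.add m2).add m3).add m4).sub m5) m6, dbl_sub hM (((m1.add m2).add m3).add m4) m5,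
    dbl_add hM ((m1.add m2).add m3) m4, dbl_add hM (m1.add m2) m3, dbl_add hM m1 m2,
    dbl_sub hM (nice_p1 h hη) (nice_p2 h), pres_eq h hη, dbl_const_mul, dbl_const_mul,
    dbl_const_mul, dbl_const_mul, dbl_const_mul, dbl_space, h.integral_mm_sq hη h0,
    ← h.II_eq hη, ← h.JJ_eq hη, hC]
  change _ ≤ _ + _ + _ + κ ^ 2 / 2 * E2 X v - C * κ ^ 2 * D2 X η - _
  have p1 : 0 ≤ D2 X η := dbl_nonneg hM fun _ _ _ _ => sq_nonneg _
  have p2 : 0 ≤ II X η v + JJ X η := by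
    rw [← h.integral_mm_sq hη h0]
    exact setIntegral_nonneg h.M_meas fun _ _ => sq_nonneg _
  have p3 : 0 ≤ C * κ ^ 2 := mul_nonneg (by linarith [h.C_ge]) (sq_nonneg _)
  have p4 : 0 ≤ C * κ ^ 2 * (16 * π * CW ^ 2) * D2 X η := by positivity
  have p5 : 0 ≤ C * κ ^ 2 * (II X η v + JJ X η) := mul_nonneg p3 p2
  nlinarith

end Pool.Agent.Lib.MP_f62ea7_gt
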