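import Pool.Agent.Lib.MP_f62ea7_gt.Basic

set_option autoImplicit false

open MeasureTheory Set Filter Topology Real
open scoped ContDiff ENNReal

namespace Pool.Agent.Lib.MP_f62ea7_gt

namespace EST

variable {κ C : ℝ} {D : Dat}

lemma pow4_le {n : ℝ} (h0 : 0 ≤ n) (h : n ≤ 5) : n ^ 4 ≤ 625 := by
  calc n ^ 4 ≤ 5 ^ 4 := pow_le_pow_left₀ h0 h 4
    _ = 625 := by norm_num

/-- `e * n ^ (k + 4) ≤ n ^ k / 1000` for small `e`. -/
lemma small {e n : ℝ} (k : ℕ) (_he0 : 0 ≤ e) (he : e ≤ 1 / 10 ^ 6) (h0 : 0 ≤ n) (h : n ≤ 5) :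
    e * n ^ (k + 4) ≤ n ^ k / 1000 := by
  have h1 := pow4_le h0 h
  have h2 : 0 ≤ n ^ k := pow_nonneg h0 k
  have h3 : e * n ^ 4 ≤ 1 / 1000 := by
    calc e * n ^ 4 ≤ 1 / 10 ^ 6 * 625 := mul_le_mul he h1 (by positivity) (by norm_num)
      _ ≤ 1 / 1000 := by norm_num
  calc e * n ^ (k + 4) = n ^ k * (e * n ^ 4) := by ring
    _ ≤ n ^ k * (1 / 1000) := mul_le_mul_of_nonneg_left h3 h2
    _ = n ^ k / 1000 := by ring

structure Sm (κ C : ℝ) : Prop where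
  κ0 : 0 < κ
  C1 : 1 ≤ C
  e : C * κ ≤ 1 / 10 ^ 6

lemma Sm.e0 (s : Sm κ C) : 0 ≤ C * κ := by have := s.κ0; have := s.C1; positivity
lemma Sm.κ1 (s : Sm κ C) : κ ≤ 1 / 10 ^ 6 := by
  have := s.κ0; have := s.C1; have := s.e; nlinarith
lemma Sm.e20 (s : Sm κ C) : 0 ≤ C * κ ^ 2 := by have := s.κ0; have := s.C1; positivity
lemma Sm.e2κ (s : Sm κ C) : C * κ ^ 2 ≤ κ / 10 ^ 6 := by
  have := s.κ0; have := s.e; nlinarith
lemma Sm.e2 (s : Sm κ C) : C * κ ^ 2 ≤ 1 / 10 ^ 6 := by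
  have := s.e2κ; have := s.κ1; have := s.κ0; nlinarith

lemma w_near (s : Sm κ C) (h : IsSol κ C D) (z : P) (hz : ‖z‖ ≤ 5) :
    |D.w z - (z.1 ^ 2 + z.2 ^ 2) / 2| ≤ (z.1 ^ 2 + z.2 ^ 2) / 1000 := by
  have h1 := h.w_b z (by linarith)
  have h2 := small 2 s.e0 s.e (norm_nonneg z) hz
  have h3 := norm_sq_le z
  norm_num at h2
  linarith

lemma w_lo (s : Sm κ C) (h : IsSol κ C D) (z : P) (hz : ‖z‖ ≤ 5) :
    49 / 100 * (z.1 ^ 2 + z.2 ^ 2) ≤ D.w z := by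
  have h1 := abs_le.1 (w_near s h z hz)
  nlinarith [sq_nonneg z.1, sq_nonneg z.2]

lemma w_hi (s : Sm κ C) (h : IsSol κ C D) (z : P) (hz : ‖z‖ ≤ 5) :
    D.w z ≤ 51 / 100 * (z.1 ^ 2 + z.2 ^ 2) := by
  have h1 := abs_le.1 (w_near s h z hz)
  nlinarith [sq_nonneg z.1, sq_nonneg z.2]

lemma Θ_near (s : Sm κ C) (h : IsSol κ C D) (z : P) (hz : ‖z‖ ≤ 5) : |D.Θ z - 1| ≤ 1 / 1000 := by
  have h1 := h.Θ_b z (by linarith)
  have h2 := small 0 s.e20 s.e2 (norm_nonneg z) hz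
  norm_num at h2
  linarith

lemma Θ_lo (s : Sm κ C) (h : IsSol κ C D) (z : P) (hz : ‖z‖ ≤ 5) : 99 / 100 ≤ D.Θ z := by
  have h1 := abs_le.1 (Θ_near s h z hz); linarith

lemma Θ_hi (s : Sm κ C) (h : IsSol κ C D) (z : P) (hz : ‖z‖ ≤ 5) : D.Θ z ≤ 101 / 100 := by
  have h1 := abs_le.1 (Θ_near s h z hz); linarith

lemma diffAt {f : P → ℝ} (hf : ContDiff ℝ ∞ f) (z : P) : DifferentiableAt ℝ f z :=
  hf.differentiable (by simp) z

lemma Y_lo (s : Sm κ C) (h : IsSol κ C D) (x u u' : ℝ) (hx : |x| ≤ 5) (hu : |u| ≤ 5)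
    (hu' : |u'| ≤ 5) (hle : u' ≤ u) :
    (x ^ 2 + u ^ 2 + u' ^ 2) / 20 * (u - u') ≤ D.Y (x, u) - D.Y (x, u') := by
  have hd : ∀ t : ℝ, HasDerivAt (fun t => D.Y (x, t) - 97 / 200 * (x ^ 2 * t + t ^ 3 / 3))
      (du D.Y (x, t) - 97 / 200 * (x ^ 2 + t ^ 2)) t := by
    intro t
    have h1 := hasDerivAt_du (diffAt h.Y_sm (x, t))
    have h2 : HasDerivAt (fun t : ℝ => 97 / 200 * (x ^ 2 * t + t ^ 3 / 3))
        (97 / 200 * (x ^ 2 + t ^ 2)) t := by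
      have := ((((hasDerivAt_id t).const_mul (x ^ 2)).add
        ((hasDerivAt_pow 3 t).div_const 3)).const_mul (97 / 200))
      refine this.congr_deriv ?_
      norm_num
    exact h1.sub h2
  have hm : MonotoneOn (fun t => D.Y (x, t) - 97 / 200 * (x ^ 2 * t + t ^ 3 / 3)) (Icc (-5) 5) := by
    refine monotoneOn_of_deriv_nonneg (convex_Icc _ _)
      (fun t _ => (hd t).continuousAt.continuousWithinAt)
      (fun t _ => (hd t).differentiableAt.differentiableWithinAt) fun t ht => ?_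
    rw [(hd t).deriv]
    have ht0 : t ∈ Icc (-5 : ℝ) 5 := interior_subset ht
    have ht' : |t| ≤ 5 := abs_le.2 ht0
    have hz : ‖((x, t) : P)‖ ≤ 5 := norm_le_iff.2 ⟨hx, ht'⟩
    rw [h.Y_u _ (by linarith)]
    have a := w_lo s h _ hz
    have b := Θ_lo s h _ hz
    simp only at a
    have c : 0 ≤ x ^ 2 + t ^ 2 := by positivity
    have d : 49 / 100 * (x ^ 2 + t ^ 2) * (99 / 100) ≤ D.w (x, t) * D.Θ (x, t) :=
      mul_le_mul a b (by norm_num) (by linarith)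
    linarith
  have h1 := hm (abs_le.1 hu') (abs_le.1 hu) hle
  simp only at h1
  have h2 : 0 ≤ u - u' := by linarith
  have h3 : 0 ≤ (u - u') * (x ^ 2 + (u + u') ^ 2 + u ^ 2 + u' ^ 2) := by positivity
  have h4 : 0 ≤ (u - u') * x ^ 2 := by positivity
  have h5 : 0 ≤ (u - u') * (u + u') ^ 2 := by positivity
  have h6 : 0 ≤ (u - u') * (u ^ 2 + u' ^ 2) := by positivity
  nlinarith

lemma Y_hi (s : Sm κ C) (h : IsSol κ C D) (z : P) (hz : ‖z‖ ≤ 5) : |D.Y z| ≤ ‖z‖ ^ 3 := by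
  have h1 := h.Y_b z (by linarith)
  have h2 := small 3 s.e0 s.e (norm_nonneg z) hz
  norm_num at h2
  have h3 : |z.1 ^ 2 * z.2 / 2 + z.2 ^ 3 / 6| ≤ 2 / 3 * ‖z‖ ^ 3 := by
    have a : |z.1 ^ 2 * z.2 / 2 + z.2 ^ 3 / 6| = (z.1 ^ 2 / 2 + z.2 ^ 2 / 6) * |z.2| := by
      rw [show z.1 ^ 2 * z.2 / 2 + z.2 ^ 3 / 6 = (z.1 ^ 2 / 2 + z.2 ^ 2 / 6) * z.2 by ring, abs_mul,
        abs_of_nonneg (by positivity)]
    rw [a]
    have b : z.1 ^ 2 / 2 + z.2 ^ 2 / 6 ≤ 2 / 3 * ‖z‖ ^ 2 := by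
      linarith [fst_sq_le z, snd_sq_le z]
    calc (z.1 ^ 2 / 2 + z.2 ^ 2 / 6) * |z.2| ≤ 2 / 3 * ‖z‖ ^ 2 * ‖z‖ :=
          mul_le_mul b (abs_snd_le z) (abs_nonneg _) (by positivity)
      _ = 2 / 3 * ‖z‖ ^ 3 := by ring
  have h4 := abs_sub_abs_le_abs_sub (D.Y z) (z.1 ^ 2 * z.2 / 2 + z.2 ^ 3 / 6)
  have h5 : 0 ≤ ‖z‖ ^ 3 := by positivity
  linarith

lemma V_hi (s : Sm κ C) (h : IsSol κ C D) (z : P) (hz : ‖z‖ ≤ 5) : |D.V z| ≤ ‖z‖ ^ 3 := by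
  have h1 := h.V_b z (by linarith)
  have h2 := small 3 s.e0 s.e (norm_nonneg z) hz
  norm_num at h2
  have h3 : |z.1 * (z.2 ^ 2 - z.1 ^ 2) / 2| ≤ 1 / 2 * ‖z‖ ^ 3 := by
    rw [abs_div, abs_mul, abs_two]
    have b : |z.2 ^ 2 - z.1 ^ 2| ≤ ‖z‖ ^ 2 := by
      rw [abs_le]
      constructor <;> nlinarith [fst_sq_le z, snd_sq_le z, sq_nonneg z.1, sq_nonneg z.2]
    have c : |z.1| * |z.2 ^ 2 - z.1 ^ 2| ≤ ‖z‖ * ‖z‖ ^ 2 :=
      mul_le_mul (abs_fst_le z) b (abs_nonneg _) (norm_nonneg _)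
    nlinarith
  have h4 := abs_sub_abs_le_abs_sub (D.V z) (z.1 * (z.2 ^ 2 - z.1 ^ 2) / 2)
  have h5 : 0 ≤ ‖z‖ ^ 3 := by positivity
  linarith

/-- Lipschitz bound from a quadratic bound on the gradient. -/
lemma lip_of {f : P → ℝ} {L : ℝ} (hL : 0 ≤ L) (hf : ContDiff ℝ ∞ f)
    (hb : ∀ ζ : P, ‖ζ‖ ≤ 5 → |dx f ζ| + |du f ζ| ≤ L * ‖ζ‖ ^ 2) (z z' : P) (hz : ‖z‖ ≤ 5)
    (hz' : ‖z'‖ ≤ 5) : |f z - f z'| ≤ L * (‖z‖ ^ 2 + ‖z'‖ ^ 2) * ‖z - z'‖ := by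
  refine abs_sub_le_of_bound (R := max ‖z‖ ‖z'‖) (fun ζ _ => diffAt hf ζ) (fun ζ hζ => ?_)
    (le_max_left _ _) (le_max_right _ _)
  refine (hb ζ (hζ.trans (max_le hz hz'))).trans (mul_le_mul_of_nonneg_left ?_ hL)
  rcases le_max_iff.1 hζ with h | h
  · have := pow_le_pow_left₀ (norm_nonneg _) h 2
    nlinarith [sq_nonneg ‖z'‖]
  · have := pow_le_pow_left₀ (norm_nonneg _) h 2
    nlinarith [sq_nonneg ‖z‖]

lemma Y_lip (s : Sm κ C) (h : IsSol κ C D) (z z' : P) (hz : ‖z‖ ≤ 5) (hz' : ‖z'‖ ≤ 5) :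
    |D.Y z - D.Y z'| ≤ 3 * C * (‖z‖ ^ 2 + ‖z'‖ ^ 2) * ‖z - z'‖ := by
  have hC := s.C1
  refine lip_of (by positivity) h.Y_sm (fun ζ hζ => ?_) z z' hz hz'
  have a := h.Yx_b ζ (by linarith)
  rw [h.Y_u ζ (by linarith)]
  have b := w_lo s h ζ hζ
  have c := w_hi s h ζ hζ
  have d := Θ_lo s h ζ hζ
  have e := Θ_hi s h ζ hζ
  have w0 : 0 ≤ D.w ζ := le_trans (by positivity) b
  rw [abs_of_nonneg (mul_nonneg w0 (by linarith))]
  have f : D.w ζ * D.Θ ζ ≤ D.w ζ * (101 / 100) := mul_le_mul_of_nonneg_left e w0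
  have g : ‖ζ‖ ^ 2 ≤ C * ‖ζ‖ ^ 2 := le_mul_of_one_le_left (by positivity) hC
  nlinarith [fst_sq_le ζ, snd_sq_le ζ, sq_nonneg ‖ζ‖]

lemma V_lip (s : Sm κ C) (h : IsSol κ C D) (z z' : P) (hz : ‖z‖ ≤ 5) (hz' : ‖z'‖ ≤ 5) :
    |D.V z - D.V z'| ≤ 2 * C * (‖z‖ ^ 2 + ‖z'‖ ^ 2) * ‖z - z'‖ := by
  have hC := s.C1
  refine lip_of (by positivity) h.V_sm (fun ζ hζ => ?_) z z' hz hz'
  have a := h.Yx_b ζ (by linarith)
  have b := h.Vx_b ζ (by linarith)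
  rw [h.V_u ζ (by linarith)]
  linarith

lemma B_lip (s : Sm κ C) (h : IsSol κ C D) (z z' : P) (hz : ‖z‖ ≤ 5) (hz' : ‖z'‖ ≤ 5) :
    |D.B z - D.B z'| ≤ 2 * C * (‖z‖ ^ 2 + ‖z'‖ ^ 2) * ‖z - z'‖ := by
  have hC := s.C1
  refine lip_of (by positivity) h.B_sm (fun ζ hζ => ?_) z z' hz hz'
  have a := h.Bx_b ζ (by linarith)
  have b := h.Bu_b ζ (by linarith)
  linarith

lemma G_lip (s : Sm κ C) (h : IsSol κ C D) (z z' : P) (hz : ‖z‖ ≤ 5) (hz' : ‖z'‖ ≤ 5) :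
    |D.G z - D.G z' - (z.1 - z'.1)| ≤ 20000 * κ * ‖z - z'‖ := by
  have hd : ∀ ζ : P, HasFDerivAt (fun ζ : P => D.G ζ - ζ.1)
      (fderiv ℝ D.G ζ - ContinuousLinearMap.fst ℝ ℝ ℝ) ζ := fun ζ =>
    (diffAt h.G_sm ζ).hasFDerivAt.sub hasFDerivAt_fst
  have key := abs_sub_le_of_bound (f := fun ζ : P => D.G ζ - ζ.1) (R := 5) (L := 20000 * κ)
    (fun ζ _ => (hd ζ).differentiableAt) (fun ζ hζ => ?_) hz hz'
  · rw [show D.G z - D.G z' - (z.1 - z'.1) = D.G z - z.1 - (D.G z' - z'.1) by ring]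
    exact key
  have e1 : dx (fun ζ : P => D.G ζ - ζ.1) ζ = dx D.G ζ - 1 := by
    unfold dx; rw [(hd ζ).fderiv]; simp
  have e2 : du (fun ζ : P => D.G ζ - ζ.1) ζ = du D.G ζ := by
    unfold du; rw [(hd ζ).fderiv]; simp
  rw [e1, e2]
  have a := h.Gx_b ζ (by linarith)
  have b := h.Gu_b ζ (by linarith)
  have c := pow4_le (norm_nonneg ζ) hζ
  have κ0 := s.κ0
  have d : C * κ ^ 2 * ‖ζ‖ ^ 4 ≤ κ / 10 ^ 6 * 625 :=
    mul_le_mul s.e2κ c (by positivity) (by positivity)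
  have e : ζ.1 ^ 4 ≤ 625 := by
    have := pow4_le (abs_nonneg ζ.1) ((abs_fst_le ζ).trans hζ)
    rwa [show |ζ.1| ^ 4 = ζ.1 ^ 4 by rw [show (4 : ℕ) = 2 * 2 by rfl, pow_mul, pow_mul, sq_abs]] at this
  have f : 0 ≤ 30 * κ * ζ.1 ^ 4 := by positivity
  have g : 30 * κ * ζ.1 ^ 4 ≤ 30 * κ * 625 := mul_le_mul_of_nonneg_left e (by positivity)
  have i : |dx D.G ζ - 1| ≤ κ / 10 ^ 6 * 625 + 30 * κ * 625 := by
    have := abs_le.1 a
    rw [abs_le]; constructor <;> linarith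
  linarith

lemma G_near (s : Sm κ C) (h : IsSol κ C D) (z : P) (hz : ‖z‖ ≤ 5) :
    |D.G z - z.1| ≤ 7 * κ * ‖z‖ ^ 5 := by
  have a := h.G_b z (by linarith)
  have κ0 := s.κ0
  have b : |6 * κ * z.1 ^ 5| ≤ 6 * κ * ‖z‖ ^ 5 := by
    rw [abs_mul, abs_of_nonneg (by positivity : 0 ≤ 6 * κ), abs_pow]
    exact mul_le_mul_of_nonneg_left (pow_le_pow_left₀ (abs_nonneg _) (abs_fst_le z) 5)
      (by positivity)
  have c : C * κ ^ 2 * ‖z‖ ^ 5 ≤ κ * ‖z‖ ^ 5 :=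
    mul_le_mul_of_nonneg_right (by linarith [s.e2κ]) (by positivity)
  have d := abs_le.1 a
  have e := abs_le.1 b
  rw [abs_le]; constructor <;> linarith

lemma rad_w (s : Sm κ C) (h : IsSol κ C D) (z : P) (hz : ‖z‖ ≤ 5) :
    9 / 10 * (z.1 ^ 2 + z.2 ^ 2) ≤ z.1 * dx D.w z + z.2 * du D.w z := by
  rw [h.w_u z (by linarith)]
  have a := h.wx_b z (by linarith)
  have b := small 1 s.e0 s.e (norm_nonneg z) hz
  norm_num at b
  have c := Θ_lo s h z hz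
  have d : |z.1 * (dx D.w z - z.1)| ≤ ‖z‖ * (‖z‖ / 1000) := by
    rw [abs_mul]
    exact mul_le_mul (abs_fst_le z) (a.trans b) (abs_nonneg _) (norm_nonneg _)
  have e := (abs_le.1 d).1
  have f := norm_sq_le z
  have g : z.2 ^ 2 * (99 / 100) ≤ z.2 ^ 2 * D.Θ z := mul_le_mul_of_nonneg_left c (sq_nonneg _)
  nlinarith [sq_nonneg z.1, sq_nonneg z.2]

lemma norm_pow4_le (z : P) : ‖z‖ ^ 4 ≤ z.1 ^ 4 + z.2 ^ 4 := by
  have e : ∀ a : ℝ, |a| ^ 4 = a ^ 4 := fun a => by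
    rw [show (4 : ℕ) = 2 * 2 by rfl, pow_mul, pow_mul, sq_abs]
  rw [Prod.norm_def]
  rcases le_total ‖z.1‖ ‖z.2‖ with h | h
  · rw [max_eq_right h, Real.norm_eq_abs, e]; nlinarith [sq_nonneg (z.1 ^ 2)]
  · rw [max_eq_left h, Real.norm_eq_abs, e]; nlinarith [sq_nonneg (z.2 ^ 2)]

lemma rad_ψ (s : Sm κ C) (h : IsSol κ C D) (z : P) (hz : ‖z‖ ≤ 5) :
    (z.1 ^ 4 + z.2 ^ 4) / 10 ≤ z.2 * D.Y z - z.1 * D.V z := by
  have a := h.Y_b z (by linarith)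
  have a' := h.V_b z (by linarith)
  have b := small 3 s.e0 s.e (norm_nonneg z) hz
  norm_num at b
  have c : |z.2 * (D.Y z - (z.1 ^ 2 * z.2 / 2 + z.2 ^ 3 / 6))| ≤ ‖z‖ * (‖z‖ ^ 3 / 1000) := by
    rw [abs_mul]
    exact mul_le_mul (abs_snd_le z) (a.trans b) (abs_nonneg _) (norm_nonneg _)
  have d : |z.1 * (D.V z - z.1 * (z.2 ^ 2 - z.1 ^ 2) / 2)| ≤ ‖z‖ * (‖z‖ ^ 3 / 1000) := by
    rw [abs_mul]
    exact mul_le_mul (abs_fst_le z) (a'.trans b) (abs_nonneg _) (norm_nonneg _)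
  have e := (abs_le.1 c).1
  have f := (abs_le.1 d).2
  have g := norm_pow4_le z
  have i : 0 ≤ z.1 ^ 4 := by positivity
  have j : 0 ≤ z.2 ^ 4 := by positivity
  nlinarith

lemma Y_abs (s : Sm κ C) (h : IsSol κ C D) (x u u' : ℝ) (hx : |x| ≤ 5) (hu : |u| ≤ 5)
    (hu' : |u'| ≤ 5) :
    (x ^ 2 + u ^ 2 + u' ^ 2) / 20 * |u - u'| ≤ |D.Y (x, u) - D.Y (x, u')| := by
  rcases le_total u' u with hle | hle
  · rw [abs_of_nonneg (sub_nonneg.2 hle)]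
    exact (Y_lo s h x u u' hx hu hu' hle).trans (le_abs_self _)
  · rw [abs_sub_comm u, abs_sub_comm (D.Y _), abs_of_nonneg (sub_nonneg.2 hle)]
    have := (Y_lo s h x u' u hx hu' hu hle).trans (le_abs_self _)
    rwa [show x ^ 2 + u' ^ 2 + u ^ 2 = x ^ 2 + u ^ 2 + u' ^ 2 by ring] at this

lemma V_vert (s : Sm κ C) (h : IsSol κ C D) (z z' : P) (hz : ‖z‖ ≤ 5) (hz' : ‖z'‖ ≤ 5) :
    |D.V z - D.V z'| ≤
      1000 * C ^ 2 * (|D.Y z - D.Y z'| + (‖z'‖ ^ 2 + (z.1 - z'.1) ^ 2) * |z.1 - z'.1|) := by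
  obtain ⟨x, u⟩ := z
  obtain ⟨x', u'⟩ := z'
  obtain ⟨hx, hu⟩ := norm_le_iff.1 hz
  obtain ⟨hx', hu'⟩ := norm_le_iff.1 hz'
  simp only at hx hu hx' hu' ⊢
  have hC := s.C1
  have hm : ‖((x, u') : P)‖ ≤ 5 := norm_le_iff.2 ⟨hx, hu'⟩
  have n1 : ‖((x, u) : P) - (x, u')‖ = |u - u'| := by
    simp [Prod.norm_def]
  have n2 : ‖((x, u') : P) - (x', u')‖ = |x - x'| := by
    simp [Prod.norm_def]
  set R := (‖((x', u') : P)‖ ^ 2 + (x - x') ^ 2) * |x - x'| with hR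
  have R0 : 0 ≤ R := by positivity
  have q : (‖((x, u') : P)‖ ^ 2 + ‖((x', u') : P)‖ ^ 2) * |x - x'| ≤ 3 * R := by
    have a : ‖((x, u') : P)‖ ≤ ‖((x', u') : P)‖ + |x - x'| := by
      rw [← n2]
      have := norm_add_le ((x', u') : P) ((x, u') - (x', u'))
      rwa [add_sub_cancel] at this
    have b := pow_le_pow_left₀ (norm_nonneg _) a 2
    have c : ‖((x, u') : P)‖ ^ 2 + ‖((x', u') : P)‖ ^ 2 ≤
        3 * (‖((x', u') : P)‖ ^ 2 + (x - x') ^ 2) := by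
      rw [← sq_abs (x - x')]
      nlinarith [sq_nonneg (‖((x', u') : P)‖ - |x - x'|), sq_nonneg |x - x'|]
    calc _ ≤ 3 * (‖((x', u') : P)‖ ^ 2 + (x - x') ^ 2) * |x - x'| :=
          mul_le_mul_of_nonneg_right c (abs_nonneg _)
      _ = 3 * R := by rw [hR]; ring
  have a1 := V_lip s h _ _ hz hm
  have a2 := V_lip s h _ _ hm hz'
  have a3 := Y_lip s h _ _ hm hz'
  have a4 := Y_abs s h x u u' hx hu hu'
  rw [n1] at a1
  rw [n2] at a2 a3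
  have b1 : (‖((x, u) : P)‖ ^ 2 + ‖((x, u') : P)‖ ^ 2) * |u - u'| ≤
      40 * |D.Y (x, u) - D.Y (x, u')| := by
    have c1 := norm_sq_le ((x, u) : P)
    have c2 := norm_sq_le ((x, u') : P)
    simp only at c1 c2
    have c : ‖((x, u) : P)‖ ^ 2 + ‖((x, u') : P)‖ ^ 2 ≤ 40 * ((x ^ 2 + u ^ 2 + u' ^ 2) / 20) := by
      nlinarith [sq_nonneg u, sq_nonneg u']
    calc _ ≤ 40 * ((x ^ 2 + u ^ 2 + u' ^ 2) / 20) * |u - u'| :=
          mul_le_mul_of_nonneg_right c (abs_nonneg _)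
      _ ≤ _ := by linarith
  have b2 : |D.V (x, u) - D.V (x, u')| ≤ 80 * C * |D.Y (x, u) - D.Y (x, u')| := by
    have := mul_le_mul_of_nonneg_left b1 (by positivity : 0 ≤ 2 * C)
    linarith [mul_assoc (2 * C) (‖((x, u) : P)‖ ^ 2 + ‖((x, u') : P)‖ ^ 2) |u - u'|]
  have b3 : |D.V (x, u') - D.V (x', u')| ≤ 6 * C * R := by
    have := mul_le_mul_of_nonneg_left q (by positivity : 0 ≤ 2 * C)
    linarith [mul_assoc (2 * C) (‖((x, u') : P)‖ ^ 2 + ‖((x', u') : P)‖ ^ 2) |x - x'|]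
  have b4 : |D.Y (x, u') - D.Y (x', u')| ≤ 9 * C * R := by
    have := mul_le_mul_of_nonneg_left q (by positivity : 0 ≤ 3 * C)
    linarith [mul_assoc (3 * C) (‖((x, u') : P)‖ ^ 2 + ‖((x', u') : P)‖ ^ 2) |x - x'|]
  have b5 : |D.Y (x, u) - D.Y (x, u')| ≤ |D.Y (x, u) - D.Y (x', u')| + 9 * C * R := by
    have := abs_sub_le (D.Y (x, u)) (D.Y (x', u')) (D.Y (x, u'))
    rw [abs_sub_comm (D.Y (x', u'))] at this
    linarith
  have b6 := abs_sub_le (D.V (x, u)) (D.V (x, u')) (D.V (x', u'))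
  set A := |D.Y (x, u) - D.Y (x', u')| with hA
  have A0 : 0 ≤ A := abs_nonneg _
  have b7 := mul_le_mul_of_nonneg_left b5 (by positivity : 0 ≤ 80 * C)
  have hC2 : C ≤ C ^ 2 := by nlinarith
  have b8 : C * A ≤ C ^ 2 * A := mul_le_mul_of_nonneg_right hC2 A0
  have b9 : C * R ≤ C ^ 2 * R := mul_le_mul_of_nonneg_right hC2 R0
  have b10 : 0 ≤ C ^ 2 * A := by positivity
  have b11 : 0 ≤ C ^ 2 * R := by positivity
  nlinarith

end EST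

open _root_.Pool.Agent.Lib.MP_f62ea7_gt.EST in
theorem blk_EST : St_EST := by
  intro C hC
  have hC2 : C ≤ C ^ 2 := by nlinarith
  refine ⟨20000 * C ^ 2, 1 / (10 ^ 6 * C), by nlinarith, by positivity, fun κ D hκ hκ1 h => ?_⟩
  have s : Sm κ C := ⟨hκ, hC, by
    rw [le_div_iff₀ (by positivity)] at hκ1
    rw [le_div_iff₀ (by positivity)]
    linarith⟩
  have m : ∀ {a K t u : ℝ}, K ≤ 20000 * C ^ 2 → 0 ≤ t → 0 ≤ u → a ≤ K * t * u →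
      a ≤ 20000 * C ^ 2 * t * u := fun hK ht hu ha =>
    ha.trans (mul_le_mul_of_nonneg_right (mul_le_mul_of_nonneg_right hK ht) hu)
  exact
    { w_lo := w_lo s h
      w_hi := w_hi s h
      Θ_lo := Θ_lo s h
      Θ_hi := Θ_hi s h
      Y_lo := Y_lo s h
      Y_hi := Y_hi s h
      V_hi := V_hi s h
      Y_lip := fun z z' hz hz' =>
        m (by nlinarith) (by positivity) (norm_nonneg _) (Y_lip s h z z' hz hz')
      V_lip := fun z z' hz hz' =>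
        m (by nlinarith) (by positivity) (norm_nonneg _) (V_lip s h z z' hz hz')
      B_lip := fun z z' hz hz' =>
        m (by nlinarith) (by positivity) (norm_nonneg _) (B_lip s h z z' hz hz')
      G_lip := fun z z' hz hz' =>
        m (by nlinarith) hκ.le (norm_nonneg _) (G_lip s h z z' hz hz')
      G_near := fun z hz => m (by nlinarith) hκ.le (by positivity) (G_near s h z hz)
      rad_w := rad_w s h
      rad_ψ := rad_ψ s h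
      V_vert := fun z z' hz hz' => (V_vert s h z z' hz hz').trans
        (mul_le_mul_of_nonneg_right (by nlinarith) (by positivity)) }

end Pool.Agent.Lib.MP_f62ea7_gt
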