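import Pool.Agent.Lib.MP_f62ea7_gt.Basic2

set_option autoImplicit false

open MeasureTheory Set Filter Topology Real

namespace Pool.Agent.Lib.MP_f62ea7_gt

namespace EUL

/-- measurable and bounded on the box -/
def Bd (f : P → ℝ) : Prop := Measurable f ∧ ∃ B, ∀ p ∈ Box, |f p| ≤ B

namespace Bd

variable {f g : P → ℝ}

lemma const (c : ℝ) : Bd fun _ => c := ⟨measurable_const, |c|, fun _ _ => le_rfl⟩

lemma add (hf : Bd f) (hg : Bd g) : Bd fun p => f p + g p := by
  obtain ⟨h1, B, hB⟩ := hf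
  obtain ⟨h2, B', hB'⟩ := hg
  exact ⟨h1.add h2, B + B', fun p hp => (abs_add_le _ _).trans (add_le_add (hB p hp) (hB' p hp))⟩

lemma neg (hf : Bd f) : Bd fun p => -f p := by
  obtain ⟨h1, B, hB⟩ := hf
  exact ⟨h1.neg, B, fun p hp => by rw [abs_neg]; exact hB p hp⟩

lemma sub (hf : Bd f) (hg : Bd g) : Bd fun p => f p - g p := by
  simpa only [sub_eq_add_neg] using hf.add hg.neg

lemma mul (hf : Bd f) (hg : Bd g) : Bd fun p => f p * g p := by
  obtain ⟨h1, B, hB⟩ := hf
  obtain ⟨h2, B', hB'⟩ := hg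
  refine ⟨h1.mul h2, B * B', fun p hp => ?_⟩
  rw [abs_mul]
  exact mul_le_mul (hB p hp) (hB' p hp) (abs_nonneg _) ((abs_nonneg _).trans (hB p hp))

lemma abs (hf : Bd f) : Bd fun p => |f p| := by
  obtain ⟨h1, B, hB⟩ := hf
  exact ⟨h1.abs, B, fun p hp => by rw [abs_abs]; exact hB p hp⟩

lemma pow (hf : Bd f) (n : ℕ) : Bd fun p => f p ^ n := by
  induction n with
  | zero => simpa using const 1
  | succ n ih => simpa only [pow_succ] using ih.mul hf

lemma const_mul (hf : Bd f) (c : ℝ) : Bd fun p => c * f p := (const c).mul hf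

lemma of_continuous (hf : Continuous f) : Bd f := by
  obtain ⟨B, hB⟩ := (isCompact_closedBall (0 : P) 2).exists_bound_of_continuousOn hf.continuousOn
  exact ⟨hf.measurable, B, fun p hp => hB p hp⟩

lemma comp (hf : Bd f) {T : P → P} (hT : Measurable T) (hm : MapsTo T Box Box) :
    Bd fun p => f (T p) := by
  obtain ⟨h1, B, hB⟩ := hf
  exact ⟨h1.comp hT, B, fun p hp => hB _ (hm hp)⟩

lemma integrableOn (hf : Bd f) : IntegrableOn f Box := by
  obtain ⟨h1, B, hB⟩ := hf
  exact integrableOn_of_bdd (isCompact_closedBall _ _) h1 hB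

end Bd

lemma mk_mem {x y : ℝ} (hx : x ∈ Itv) (hy : y ∈ Itv) : ((x, y) : P) ∈ Box := by
  rw [Box_eq]; exact ⟨hx, hy⟩

lemma fst_mem {p : P} (h : p ∈ Box) : p.1 ∈ Itv := by
  rw [Box_eq] at h; exact h.1

lemma snd_mem {p : P} (h : p ∈ Box) : p.2 ∈ Itv := by
  rw [Box_eq] at h; exact h.2

lemma integrableOn_Itv {h : ℝ → ℝ} (hh : Measurable h) {B : ℝ} (hB : ∀ x ∈ Itv, |h x| ≤ B) :
    IntegrableOn h Itv :=
  Measure.integrableOn_of_bounded (M := B) (by simp) hh.aestronglyMeasurable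
    ((ae_restrict_mem measurableSet_Icc).mono hB)

lemma Bd.vert {f : P → ℝ} (hf : Bd f) {x : ℝ} (hx : x ∈ Itv) :
    IntegrableOn (fun y => f (x, y)) Itv := by
  obtain ⟨h1, B, hB⟩ := hf
  exact integrableOn_Itv (h1.comp measurable_prodMk_left) fun y hy => hB _ (mk_mem hx hy)

lemma Bd.hor {f : P → ℝ} (hf : Bd f) {y : ℝ} (hy : y ∈ Itv) :
    IntegrableOn (fun x => f (x, y)) Itv := by
  obtain ⟨h1, B, hB⟩ := hf
  exact integrableOn_Itv (h1.comp measurable_prodMk_right) fun x hx => hB _ (mk_mem hx hy)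

lemma restrict_Box : (volume.restrict Box : Measure P) =
    (volume.restrict Itv).prod (volume.restrict Itv) := by
  rw [Box_eq, Measure.volume_eq_prod, Measure.prod_restrict]

lemma vert_mono {f g : P → ℝ} (hf : Bd f) (hg : Bd g)
    (h : ∀ᵐ x : ℝ, x ∈ Itv → ∫ y in Itv, f (x, y) ≤ ∫ y in Itv, g (x, y)) :
    ∫ p in Box, f p ≤ ∫ p in Box, g p := by
  have h1 := hf.integrableOn
  have h2 := hg.integrableOn
  unfold IntegrableOn at h1 h2
  rw [restrict_Box] at h1 h2 ⊢
  rw [integral_prod _ h1, integral_prod _ h2]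
  refine integral_mono_ae h1.integral_prod_left h2.integral_prod_left ?_
  filter_upwards [ae_restrict_mem measurableSet_Icc, ae_restrict_of_ae h] with x hx hx' using hx' hx

lemma hor_mono {f g : P → ℝ} (hf : Bd f) (hg : Bd g)
    (h : ∀ᵐ y : ℝ, y ∈ Itv → ∫ x in Itv, f (x, y) ≤ ∫ x in Itv, g (x, y)) :
    ∫ p in Box, f p ≤ ∫ p in Box, g p := by
  have h1 := hf.integrableOn
  have h2 := hg.integrableOn
  unfold IntegrableOn at h1 h2
  rw [restrict_Box] at h1 h2 ⊢
  rw [integral_prod_symm _ h1, integral_prod_symm _ h2]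
  refine integral_mono_ae h1.integral_prod_right h2.integral_prod_right ?_
  filter_upwards [ae_restrict_mem measurableSet_Icc, ae_restrict_of_ae h] with y hy hy' using hy' hy

lemma measurable_window {a σ : ℝ → ℝ} (ha : Measurable a) (hσ : Measurable σ) :
    Measurable fun x => ∫ s in Icc (x - a x) (x + a x) ∩ Itv, σ s := by
  have hS : MeasurableSet {q : ℝ × ℝ | q.2 ∈ Icc (q.1 - a q.1) (q.1 + a q.1) ∩ Itv} := by
    have h1 : Measurable fun q : ℝ × ℝ => q.1 - a q.1 := measurable_fst.sub (ha.comp measurable_fst)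
    have h2 : Measurable fun q : ℝ × ℝ => q.1 + a q.1 := measurable_fst.add (ha.comp measurable_fst)
    exact ((measurableSet_le h1 measurable_snd).inter (measurableSet_le measurable_snd h2)).inter
      (measurable_snd measurableSet_Icc)
  have hF : Measurable fun q : ℝ × ℝ =>
      indicator {q : ℝ × ℝ | q.2 ∈ Icc (q.1 - a q.1) (q.1 + a q.1) ∩ Itv} (fun q => σ q.2) q :=
    (hσ.comp measurable_snd).indicator hS
  have := (hF.stronglyMeasurable.integral_prod_right' (ν := volume)).measurable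
  convert this using 2 with x
  rw [← integral_indicator (measurableSet_Icc.inter measurableSet_Icc)]
  rfl

lemma vw_shift {s x y a : ℝ} (h : |s - x| ≤ a) : vw (s, y) ≤ 2 * vw (x, y) + 2 * a ^ 2 := by
  unfold vw
  have h0 : 0 ≤ |y| ^ (2 / 3 : ℝ) := by positivity
  have h1 : (s - x) ^ 2 ≤ a ^ 2 := by
    rw [← sq_abs]; exact pow_le_pow_left₀ (abs_nonneg _) h 2
  dsimp only
  nlinarith [sq_nonneg (s - 2 * x)]

/-- an oriented interval integral is dominated by the window integral -/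
lemma seg_le {σ : ℝ → ℝ} {y B x u v a : ℝ} (hσ : Measurable σ) (hB : ∀ s, 0 ≤ σ s ∧ σ s ≤ B)
    (huv : u ≤ v) (hu : u ∈ Itv) (hv : v ∈ Itv) (h1 : x - a ≤ u) (h2 : v ≤ x + a) :
    ∫ s in u..v, vw (s, y) * σ s ≤
      (2 * vw (x, y) + 2 * a ^ 2) * ∫ s in Icc (x - a) (x + a) ∩ Itv, σ s := by
  have hi : IntegrableOn σ Itv := integrableOn_Itv hσ fun s _ => by
    rw [abs_of_nonneg (hB s).1]; exact (hB s).2
  have hsub : Ioc u v ⊆ Icc (x - a) (x + a) ∩ Itv := fun s hs =>
    ⟨⟨h1.trans hs.1.le, hs.2.trans h2⟩, ⟨hu.1.trans hs.1.le, hs.2.trans hv.2⟩⟩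
  have hf0 : 0 ≤ 2 * vw (x, y) + 2 * a ^ 2 := by have := vw_nonneg (x, y); positivity
  rw [intervalIntegral.integral_of_le huv, ← integral_const_mul]
  have hi2 : IntegrableOn (fun s => (2 * vw (x, y) + 2 * a ^ 2) * σ s)
      (Icc (x - a) (x + a) ∩ Itv) := (hi.mono_set inter_subset_right).const_mul _
  calc ∫ s in Ioc u v, vw (s, y) * σ s
      ≤ ∫ s in Ioc u v, (2 * vw (x, y) + 2 * a ^ 2) * σ s := by
        refine integral_mono_of_nonneg
          (Eventually.of_forall fun s => mul_nonneg (vw_nonneg _) (hB s).1) (hi2.mono_set hsub) ?_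
        filter_upwards [ae_restrict_mem measurableSet_Ioc] with s hs
        refine mul_le_mul_of_nonneg_right (vw_shift ?_) (hB s).1
        have := (hsub hs).1
        rw [abs_le]; constructor <;> linarith [this.1, this.2]
    _ ≤ _ := setIntegral_mono_set hi2
        (Eventually.of_forall fun s => mul_nonneg hf0 (hB s).1) hsub.eventuallyLE

/-- horizontal estimate -/
lemma hor_est (hB : St_BM) {Q σ : P → ℝ} {B' θ : ℝ} {S : P → P} (hθ : 0 < θ) (hQ : Continuous Q)
    (hσ : Measurable σ) (hσB : ∀ p, 0 ≤ σ p ∧ σ p ≤ B')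
    (hh : ∀ᵐ y : ℝ, ∀ x x' : ℝ, x' ≤ x →
      |Q (x, y) - Q (x', y)| ≤ ∫ s in x'..x, vw (s, y) * σ (s, y))
    (hS : Measurable S) (hm : MapsTo S Box Box) :
    ∫ q in Box, (Q ((S q).1, q.2) - Q q) ≤ θ * (∫ q in Box, σ q ^ 2) +
      100 / θ * ∫ q in Box, ((2 * vw q + 2 * |(S q).1 - q.1| ^ 2) * |(S q).1 - q.1|) ^ 2 := by
  have bQ := Bd.of_continuous hQ
  have b1 : Bd fun q => Q ((S q).1, q.2) :=
    bQ.comp (T := fun q => ((S q).1, q.2)) (hS.fst.prodMk measurable_snd)
      fun q hq => mk_mem (fst_mem (hm hq)) (snd_mem hq)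
  have bσ : Bd σ := ⟨hσ, B', fun p _ => by rw [abs_of_nonneg (hσB p).1]; exact (hσB p).2⟩
  have ba : Bd fun q => |(S q).1 - q.1| :=
    (((Bd.of_continuous continuous_fst).comp hS hm).sub (Bd.of_continuous continuous_fst)).abs
  have bf : Bd fun q => 2 * vw q + 2 * |(S q).1 - q.1| ^ 2 :=
    ((Bd.of_continuous continuous_vw).const_mul 2).add ((ba.pow 2).const_mul 2)
  have bR := (bf.mul ba).pow 2
  rw [← integral_const_mul, ← integral_const_mul, ← integral_add
    ((bσ.pow 2).const_mul θ).integrableOn (bR.const_mul (100 / θ)).integrableOn]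
  refine hor_mono (b1.sub bQ) (((bσ.pow 2).const_mul θ).add (bR.const_mul (100 / θ))) ?_
  filter_upwards [hh] with y hy hyI
  rw [integral_add (((bσ.pow 2).const_mul θ).hor hyI) ((bR.const_mul (100 / θ)).hor hyI),
    integral_const_mul, integral_const_mul]
  have ma : Measurable fun x : ℝ => |(S (x, y)).1 - x| := ba.1.comp measurable_prodMk_right
  have mf : Measurable fun x : ℝ => 2 * vw (x, y) + 2 * |(S (x, y)).1 - x| ^ 2 :=
    bf.1.comp measurable_prodMk_right
  have mσ : Measurable fun x : ℝ => σ (x, y) := hσ.comp measurable_prodMk_right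
  have ha4 : ∀ x ∈ Itv, |(S (x, y)).1 - x| ≤ 4 := fun x hx => by
    have := fst_mem (hm (mk_mem hx hyI))
    rw [abs_le]; constructor <;> linarith [this.1, this.2, hx.1, hx.2]
  have hf44 : ∀ x ∈ Itv, 0 ≤ 2 * vw (x, y) + 2 * |(S (x, y)).1 - x| ^ 2 ∧
      2 * vw (x, y) + 2 * |(S (x, y)).1 - x| ^ 2 ≤ 44 := fun x hx => by
    have h1 := vw_le (mem_Box.1 (mk_mem hx hyI))
    have h2 := vw_nonneg (x, y)
    have h3 := ha4 x hx
    have h4 := abs_nonneg ((S (x, y)).1 - x)
    constructor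
    · positivity
    · nlinarith
  have key := hB θ (max B' 44) (fun x => 2 * vw (x, y) + 2 * |(S (x, y)).1 - x| ^ 2)
    (fun x => |(S (x, y)).1 - x|) (fun x => σ (x, y)) hθ mf ma mσ
    (fun x hx => ⟨(hf44 x hx).1, (hf44 x hx).2.trans (le_max_right _ _)⟩)
    (fun x hx => ⟨abs_nonneg _, ((ha4 x hx).trans (by norm_num)).trans (le_max_right _ _)⟩)
    (fun x _ => ⟨(hσB _).1, (hσB _).2.trans (le_max_left _ _)⟩)
  refine le_trans ?_ key
  have hw : ∀ x, |∫ s in Icc (x - |(S (x, y)).1 - x|) (x + |(S (x, y)).1 - x|) ∩ Itv, σ (s, y)| ≤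
      B' * 4 := fun x => by
    have hfin : volume (Icc (x - |(S (x, y)).1 - x|) (x + |(S (x, y)).1 - x|) ∩ Itv) < ⊤ :=
      (measure_mono inter_subset_right).trans_lt (by simp)
    have h1 := norm_setIntegral_le_of_norm_le_const (f := fun s => σ (s, y)) (C := B') hfin
      fun s _ => by rw [Real.norm_eq_abs, abs_of_nonneg (hσB _).1]; exact (hσB _).2
    refine h1.trans (mul_le_mul_of_nonneg_left ?_ ((hσB 0).1.trans (hσB 0).2))
    refine (measureReal_mono inter_subset_right (by simp)).trans ?_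
    rw [Real.volume_real_Icc]; norm_num
  refine setIntegral_mono_on ((b1.sub bQ).hor hyI)
    (integrableOn_Itv (mf.mul (measurable_window ma mσ)) (B := 44 * (B' * 4)) fun x hx => ?_)
    measurableSet_Icc fun x hx => ?_
  · rw [abs_mul, abs_of_nonneg (hf44 x hx).1]
    exact mul_le_mul (hf44 x hx).2 (hw x) (abs_nonneg _) (by norm_num)
  · have hx' := fst_mem (hm (mk_mem hx hyI))
    have e1 := le_abs_self ((S (x, y)).1 - x)
    have e2 := neg_abs_le ((S (x, y)).1 - x)
    have e3 := abs_nonneg ((S (x, y)).1 - x)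
    rcases le_total (S (x, y)).1 x with h | h
    · refine le_trans ?_ ((hy _ _ h).trans
        (seg_le mσ (fun s => hσB _) h hx' hx (by linarith) (by linarith)))
      rw [abs_sub_comm]; exact le_abs_self _
    · exact (le_abs_self _).trans ((hy _ _ h).trans
        (seg_le mσ (fun s => hσB _) h hx hx' (by linarith) (by linarith)))

end EUL

open EUL in
theorem blk_EUL (hB : St_BM) (hL : St_LINE) (hH : St_HOR) : St_EUL := by
  intro cU CU θ hcU hCU hθ
  obtain ⟨C1, C2, hC1, hC2, hLine⟩ := hL cU CU hcU hCU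
  obtain ⟨θ', hθ', k1, k2⟩ : ∃ θ' : ℝ, 0 < θ' ∧ 400 * C1 * CU ^ 2 * θ' ≤ 1 / 2 ∧
      400 * C1 * θ' ≤ θ := by
    have hm : 0 < min 1 θ := lt_min one_pos hθ
    have hd : 0 < 800 * (C1 + 1) * (CU ^ 2 + 1) := by positivity
    have hCC : 0 ≤ C1 * CU ^ 2 := by positivity
    refine ⟨min 1 θ / (800 * (C1 + 1) * (CU ^ 2 + 1)), by positivity, ?_, ?_⟩
    · rw [← mul_div_assoc, div_le_iff₀ hd]
      have := min_le_left 1 θ
      nlinarith [sq_nonneg CU]
    · rw [← mul_div_assoc, div_le_iff₀ hd]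
      have h1 := min_le_right 1 θ
      have h2 : 400 * C1 * min 1 θ ≤ 400 * C1 * θ := by gcongr
      have h3 : 400 * C1 ≤ 800 * (C1 + 1) * (CU ^ 2 + 1) := by nlinarith [sq_nonneg CU]
      nlinarith
  refine ⟨2 * (400 * C1 * θ' + 400 * C1 / θ' + C2), by positivity, ?_⟩
  intro B T S ζ om e err hW hT hTm hS hSm hST he herr heB herrB hmono hlo hhi hab
  obtain ⟨Q, σ, B', hQ, hσ, hσB, hv, hh, hσ2⟩ := hH B ζ om hW
  have mT := hT.measurable
  have bQ := Bd.of_continuous hQ
  have b1 : Bd fun p => Q (p.1, (T p).2) :=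
    bQ.comp (T := fun p => (p.1, (T p).2)) (measurable_fst.prodMk mT.snd)
      fun p hp => mk_mem (fst_mem hp) (snd_mem (hTm hp))
  have bc : Bd fun p => (T p).2 - p.2 :=
    ((Bd.of_continuous continuous_snd).comp mT hTm).sub (Bd.of_continuous continuous_snd)
  have be : Bd e := ⟨he, B, fun p hp => by rw [abs_of_nonneg (heB p hp).1]; exact (heB p hp).2⟩
  have berr : Bd err :=
    ⟨herr, B, fun p hp => by rw [abs_of_nonneg (herrB p hp).1]; exact (herrB p hp).2⟩
  have bζ : Bd ζ := ⟨hW.1, B, fun p _ => (hW.2.2.1 p).1⟩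
  have bth : Bd fun p => vw p * ζ p := (Bd.of_continuous continuous_vw).mul bζ
  -- step 1: vertical lines
  have s1 : ∫ p in Box, ((T p).2 - p.2) ^ 2 ≤ C1 * (∫ p in Box, (Q (p.1, (T p).2) - Q p)) +
      C2 * ((∫ p in Box, e p ^ 2) + ∫ p in Box, err p ^ 2) := by
    have g1 := (b1.sub bQ).const_mul C1
    have g2 := ((be.pow 2).add (berr.pow 2)).const_mul C2
    rw [← integral_add (be.pow 2).integrableOn (berr.pow 2).integrableOn, ← integral_const_mul,
      ← integral_const_mul, ← integral_add g1.integrableOn g2.integrableOn]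
    refine vert_mono (bc.pow 2) (g1.add g2) ?_
    filter_upwards [hv] with x hx hxI
    rw [integral_add (g1.vert hxI) (g2.vert hxI), integral_const_mul, integral_const_mul,
      integral_add ((be.pow 2).vert hxI) ((berr.pow 2).vert hxI)]
    have key := hLine B (fun y => (T (x, y)).2) (fun y => e (x, y)) (fun y => err (x, y))
      (fun y => vw (x, y) * ζ (x, y)) (mT.comp measurable_prodMk_left).snd
      (he.comp measurable_prodMk_left) (herr.comp measurable_prodMk_left)
      (bth.1.comp measurable_prodMk_left) (fun y hy => snd_mem (hTm (mk_mem hxI hy)))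
      (fun y hy => heB _ (mk_mem hxI hy)) (fun y hy => herrB _ (mk_mem hxI hy))
      (fun y hy y' hy' h => hmono _ (mk_mem hxI hy) _ (mk_mem hxI hy') rfl h)
      (fun y hy h => hlo _ (mk_mem hxI hy) h) (fun y hy h => hhi _ (mk_mem hxI hy) h)
      (fun y hy => hab _ (mk_mem hxI hy))
    simp only [← hx] at key
    exact key
  -- step 2: change of variables
  have mh : Measurable fun q : P => Q ((S q).1, q.2) - Q q :=
    (hQ.measurable.comp (hS.fst.prodMk measurable_snd)).sub hQ.measurable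
  have s2 : ∫ p in Box, (Q (p.1, (T p).2) - Q p) = ∫ q in Box, (Q ((S q).1, q.2) - Q q) := by
    rw [← integral_comp_mp hT mh, integral_sub b1.integrableOn bQ.integrableOn,
      ← integral_comp_mp hT hQ.measurable,
      ← integral_sub b1.integrableOn (bQ.comp mT hTm).integrableOn]
    refine setIntegral_congr_fun measurableSet_closedBall fun p hp => ?_
    simp only [hST p hp]
  have s3 := hor_est hB hθ' hQ hσ hσB hh hS hSm
  have mR : Measurable fun q : P =>
      ((2 * vw q + 2 * |(S q).1 - q.1| ^ 2) * |(S q).1 - q.1|) ^ 2 := by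
    have ma : Measurable fun q : P => |(S q).1 - q.1| := (hS.fst.sub measurable_fst).abs
    exact (((continuous_vw.measurable.const_mul 2).add ((ma.pow_const 2).const_mul 2)).mul
      ma).pow_const 2
  have s4 : ∫ q in Box, ((2 * vw q + 2 * |(S q).1 - q.1| ^ 2) * |(S q).1 - q.1|) ^ 2 =
      4 * ∫ p in Box, ((vw (T p) + ((T p).1 - p.1) ^ 2) * |(T p).1 - p.1|) ^ 2 := by
    rw [← integral_comp_mp hT mR, ← integral_const_mul]
    refine setIntegral_congr_fun measurableSet_closedBall fun p hp => ?_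
    simp only [hST p hp]
    rw [abs_sub_comm p.1, sq_abs]; ring
  have s5 : ∫ p in Box, (vw p * ζ p) ^ 2 ≤
      2 * CU ^ 2 * (∫ p in Box, ((T p).2 - p.2) ^ 2) + 2 * ∫ p in Box, err p ^ 2 := by
    have g1 := (bc.pow 2).const_mul (2 * CU ^ 2)
    have g2 := (berr.pow 2).const_mul 2
    rw [← integral_const_mul, ← integral_const_mul, ← integral_add g1.integrableOn g2.integrableOn]
    refine setIntegral_mono_on (bth.pow 2).integrableOn (g1.add g2).integrableOn
      measurableSet_closedBall fun p hp => ?_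
    have h1 := hab p hp
    have h2 : (vw p * ζ p) ^ 2 ≤ (CU * |(T p).2 - p.2| + err p) ^ 2 := by
      rw [← sq_abs]; exact pow_le_pow_left₀ (abs_nonneg _) h1 2
    rw [← sq_abs ((T p).2 - p.2)]
    nlinarith [sq_nonneg (CU * |(T p).2 - p.2| - err p)]
  have n1 : 0 ≤ ∫ p in Box, ((T p).2 - p.2) ^ 2 := integral_nonneg fun _ => sq_nonneg _
  have n2 : 0 ≤ ∫ p in Box, om p ^ 2 := integral_nonneg fun _ => sq_nonneg _
  have n3 : 0 ≤ ∫ p in Box, e p ^ 2 := integral_nonneg fun _ => sq_nonneg _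
  have n4 : 0 ≤ ∫ p in Box, err p ^ 2 := integral_nonneg fun _ => sq_nonneg _
  have n5 : 0 ≤ ∫ p in Box, ((vw (T p) + ((T p).1 - p.1) ^ 2) * |(T p).1 - p.1|) ^ 2 :=
    integral_nonneg fun _ => sq_nonneg _
  rw [s4] at s3
  rw [s2] at s1
  generalize (∫ p in Box, ((T p).2 - p.2) ^ 2) = I at *
  generalize (∫ p in Box, om p ^ 2) = O at *
  generalize (∫ p in Box, e p ^ 2) = E at *
  generalize (∫ p in Box, err p ^ 2) = Er at *
  generalize (∫ p in Box, ((vw (T p) + ((T p).1 - p.1) ^ 2) * |(T p).1 - p.1|) ^ 2) = R at *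
  generalize (∫ q in Box, (Q ((S q).1, q.2) - Q q)) = H at *
  generalize (∫ q in Box, σ q ^ 2) = Z at *
  generalize (∫ p in Box, (vw p * ζ p) ^ 2) = V at *
  have t1 : Z ≤ 200 * (O + (2 * CU ^ 2 * I + 2 * Er)) := by linarith
  have t2 : H ≤ θ' * (200 * (O + (2 * CU ^ 2 * I + 2 * Er))) + 100 / θ' * (4 * R) := by
    have := mul_le_mul_of_nonneg_left t1 hθ'.le
    linarith
  have t3 := mul_le_mul_of_nonneg_left t2 hC1
  have t4 : C1 * (θ' * (200 * (O + (2 * CU ^ 2 * I + 2 * Er))) + 100 / θ' * (4 * R)) =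
      (400 * C1 * θ') * O / 2 + (400 * C1 * CU ^ 2 * θ') * I + (400 * C1 * θ') * Er +
        (400 * C1 / θ') * R := by ring
  have t5 := mul_le_mul_of_nonneg_right k1 n1
  have t6 := mul_le_mul_of_nonneg_right k2 n2
  have p1 : 0 ≤ 400 * C1 * θ' := by positivity
  have p2 : 0 ≤ 400 * C1 / θ' := by positivity
  generalize 400 * C1 * θ' = a at *
  generalize 400 * C1 / θ' = b at *
  have := mul_nonneg p1 n3
  have := mul_nonneg p1 n5
  have := mul_nonneg p2 n3
  have := mul_nonneg p2 n4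
  have := mul_nonneg hC2 n5
  nlinarith

end Pool.Agent.Lib.MP_f62ea7_gt
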