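import Pool.Agent.Lib.MP_f62ea7_gt.Basic2

set_option autoImplicit false

open MeasureTheory Set Filter Topology Real
open scoped ContDiff ENNReal

namespace Pool.Agent.Lib.MP_f62ea7_gt

namespace EULL

lemma div_free {M : Set P} {η v : ℝ → P → P} (hM : IsCompact M) (hB : M ⊆ Box) (hη : Adm M η v)
    {t : ℝ} (ht : t ∈ Ioo 0 π) (hd : ∀ a ∈ M, HasDerivAt (fun τ => η τ a) (v t a) t)
    {h : P → ℝ} (hh : ContDiff ℝ 1 h) :
    ∫ a in M, ((v t a).1 * dx h (η t a) + (v t a).2 * du h (η t a)) = 0 := by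
  have hdiff : Differentiable ℝ h := hh.differentiable one_ne_zero
  obtain ⟨L, hL⟩ := (isCompact_closedBall (0 : P) 2).exists_bound_of_continuousOn
    (f := fun z => |dx h z| + |du h z|)
    ((continuous_dx hh).abs.add (continuous_du hh).abs).continuousOn
  have hL' : ∀ ζ : P, ‖ζ‖ ≤ 2 → |dx h ζ| + |du h ζ| ≤ |L| := fun ζ hζ =>
    (le_abs_self _).trans ((hL ζ (mem_Box.2 hζ)).trans (le_abs_self L))
  obtain ⟨B, hB0, hlip⟩ := hη.lip
  have hfin : IsFiniteMeasure (volume.restrict M) :=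
    isFiniteMeasure_restrict.2 hM.measure_lt_top.ne
  have hs : Icc 0 π ∈ 𝓝 t := Icc_mem_nhds ht.1 ht.2
  have ht' : t ∈ Icc 0 π := Ioo_subset_Icc_self ht
  have hmeas : ∀ τ, Continuous fun a => h (η τ a) := fun τ =>
    hh.continuous.comp (hη.continuous_space τ)
  have key := hasDerivAt_integral_of_dominated_loc_of_lip (μ := volume.restrict M)
    (F := fun τ a => h (η τ a)) (x₀ := t) (bound := fun _ => |L| * B)
    (F' := fun a => (v t a).1 * dx h (η t a) + (v t a).2 * du h (η t a)) hs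
    (Eventually.of_forall fun τ => (hmeas τ).aestronglyMeasurable)
    ((hmeas t).continuousOn.integrableOn_compact hM)
    (((hη.nice_v1.measurable_space t).mul
      ((continuous_dx hh).comp (hη.continuous_space t)).measurable).add
      ((hη.nice_v2.measurable_space t).mul
      ((continuous_du hh).comp (hη.continuous_space t)).measurable)).aestronglyMeasurable
    ?_ (integrable_const _) ?_
  · have h2 : (fun τ => ∫ a in M, h (η τ a)) =ᶠ[𝓝 t] fun _ => ∫ a in M, h a := by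
      filter_upwards [hs] with τ hτ
      exact integral_comp_mp (hη.mp τ hτ) hh.continuous.measurable
    exact key.2.unique ((hasDerivAt_const t _).congr_of_eventuallyEq h2)
  · filter_upwards [ae_restrict_mem hM.measurableSet] with a ha
    refine LipschitzOnWith.of_dist_le_mul fun α hα β hβ => ?_
    rw [Real.dist_eq, Real.dist_eq, Real.coe_nnabs, abs_of_nonneg (mul_nonneg (abs_nonneg L) hB0)]
    refine (abs_sub_le_of_bound (fun ζ _ => hdiff ζ) hL' (mem_Box.1 (hB (hη.maps α hα ha)))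
      (mem_Box.1 (hB (hη.maps β hβ ha)))).trans ?_
    rw [mul_assoc]
    exact mul_le_mul_of_nonneg_left (hlip a ha β hβ α hα) (abs_nonneg L)
  · filter_upwards [ae_restrict_mem hM.measurableSet] with a ha
    exact hasDerivAt_comp (c := fun τ => η τ a) (hdiff _) (hd a ha)

lemma int_box {M : Set P} {ρ : P → P} (hM : MeasurableSet M) (hB : M ⊆ Box)
    (hρ : MeasurePreserving ρ (volume.restrict M) (volume.restrict M)) {F g : P → ℝ}
    (hg : Measurable g) (h1 : ∀ p ∈ M, F p = g (ρ p)) (h2 : ∀ p, p ∉ M → F p = 0) :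
    ∫ p in Box, F p = ∫ a in M, g a := by
  rw [setIntegral_eq_of_subset_of_forall_sdiff_eq_zero measurableSet_closedBall hB
    fun p hp => h2 p hp.2, setIntegral_congr_fun hM h1]
  exact integral_comp_mp hρ hg

lemma int_le3 {M : Set P} (hM : MeasurableSet M) {g f1 f2 f3 : P → ℝ} {α β γ : ℝ}
    (hg : IntegrableOn g M) (h1 : IntegrableOn f1 M) (h2 : IntegrableOn f2 M)
    (h3 : IntegrableOn f3 M) (h : ∀ a ∈ M, g a ≤ α * f1 a + β * f2 a + γ * f3 a) :
    ∫ a in M, g a ≤ α * (∫ a in M, f1 a) + β * (∫ a in M, f2 a) + γ * ∫ a in M, f3 a := by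
  rw [← integral_const_mul, ← integral_const_mul, ← integral_const_mul,
    ← integral_add (h1.const_mul α) (h2.const_mul β),
    ← integral_add (f := fun a => α * f1 a + β * f2 a) ((h1.const_mul α).add (h2.const_mul β))
      (h3.const_mul γ)]
  exact setIntegral_mono_on hg (((h1.const_mul α).add (h2.const_mul β)).add (h3.const_mul γ)) hM h

lemma young {s d δ : ℝ} (hs : 0 ≤ s) (hδ : 0 < δ) :
    s ^ 2 * d ^ 2 ≤ δ * s ^ 3 + d ^ 6 / δ ^ 2 := by
  have h6 : 0 ≤ d ^ 6 / δ ^ 2 := by positivity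
  rcases le_total (d ^ 2) (δ * s) with h | h
  · have := mul_le_mul_of_nonneg_left h (sq_nonneg s)
    nlinarith
  · have h1 : s ≤ d ^ 2 / δ := by rw [le_div_iff₀ hδ]; linarith
    have h2 : s ^ 2 ≤ (d ^ 2 / δ) ^ 2 := pow_le_pow_left₀ hs h1 2
    have h3 := mul_le_mul_of_nonneg_right h2 (sq_nonneg d)
    have h4 : (d ^ 2 / δ) ^ 2 * d ^ 2 = d ^ 6 / δ ^ 2 := by field_simp
    have h5 : 0 ≤ δ * s ^ 3 := by positivity
    linarith

lemma rpow_cube (y : ℝ) : (|y| ^ (2 / 3 : ℝ)) ^ 3 = y ^ 2 := by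
  rw [← Real.rpow_natCast, ← Real.rpow_mul (abs_nonneg y)]
  norm_num

lemma vw_sub (p q : P) : vw p ≤ 2 * vw q + 2 * (p.1 - q.1) ^ 2 + |p.2 - q.2| ^ (2 / 3 : ℝ) := by
  have h1 : |p.2| ≤ |q.2| + |p.2 - q.2| := by
    have := abs_add_le q.2 (p.2 - q.2)
    rwa [add_sub_cancel] at this
  have h2 : |p.2| ^ (2 / 3 : ℝ) ≤ |q.2| ^ (2 / 3 : ℝ) + |p.2 - q.2| ^ (2 / 3 : ℝ) :=
    (rpow_le_rpow (abs_nonneg _) h1 (by norm_num)).trans
      (rpow_add_le_add_rpow (abs_nonneg _) (abs_nonneg _) (by norm_num) (by norm_num))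
  have h3 : 0 ≤ |q.2| ^ (2 / 3 : ℝ) := by positivity
  unfold vw
  nlinarith [sq_nonneg (p.1 - 2 * q.1)]

lemma sq3 {x a b c : ℝ} (h : |x| ≤ a + b + c) : x ^ 2 ≤ 3 * a ^ 2 + 3 * b ^ 2 + 3 * c ^ 2 := by
  have h1 : x ^ 2 ≤ (a + b + c) ^ 2 := by
    rw [← sq_abs]; exact pow_le_pow_left₀ (abs_nonneg x) h 2
  nlinarith [sq_nonneg (a - b), sq_nonneg (a - c), sq_nonneg (b - c)]

variable {κ C : ℝ} {X : Geo} {η v : ℝ → P → P}

noncomputable def zL (X : Geo) (η v : ℝ → P → P) (t : ℝ) (a : P) : ℝ := (v t a).1 - X.U (η t a)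
noncomputable def oL (X : Geo) (η v : ℝ → P → P) (t : ℝ) (a : P) : ℝ :=
  (v t a).2 - X.V (X.Ψ (η t a))
noncomputable def rL (X : Geo) (C : ℝ) (η v : ℝ → P → P) (t : ℝ) (a : P) : ℝ :=
  vw (η t a) * (|e1 X v t a| + C * |d1 X η t a|)
noncomputable def wL (X : Geo) (η : ℝ → P → P) (t : ℝ) (a : P) : ℝ :=
  (vw (X.eta t a) + d1 X η t a ^ 2) * |d1 X η t a|
noncomputable def qL (X : Geo) (η : ℝ → P → P) (t : ℝ) (a : P) : ℝ :=
  (‖X.Ψ a‖ ^ 2 + d1 X η t a ^ 2) * |d1 X η t a|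

lemma nice_zL (h : Full κ C X) (hη : Adm X.M η v) : Nice X.M (zL X η v) :=
  hη.nice_v1.sub (Nice.of_continuous h.M_compact (h.U_cont.comp hη.cont))
lemma nice_oL (h : Full κ C X) (hη : Adm X.M η v) : Nice X.M (oL X η v) :=
  hη.nice_v2.sub (Nice.of_continuous h.M_compact
    (h.V_sm.continuous.comp (h.Ψ_cont.comp hη.cont)))
lemma nice_rL (h : Full κ C X) (hη : Adm X.M η v) : Nice X.M (rL X C η v) :=
  (Nice.of_continuous h.M_compact (continuous_vw.comp hη.cont)).mul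
    ((h.nice_e1 hη).abs.add ((h.nice_d1 hη).abs.const_mul C))
lemma nice_wL (h : Full κ C X) (hη : Adm X.M η v) : Nice X.M (wL X η) :=
  ((Nice.of_continuous h.M_compact (continuous_vw.comp h.eta_cont)).add
    ((h.nice_d1 hη).pow 2)).mul (h.nice_d1 hη).abs
lemma nice_qL (h : Full κ C X) (hη : Adm X.M η v) : Nice X.M (qL X η) :=
  ((h.nice_Ψ.pow 2).add ((h.nice_d1 hη).pow 2)).mul (h.nice_d1 hη).abs

lemma rL_nonneg (h : Full κ C X) (t : ℝ) (a : P) : 0 ≤ rL X C η v t a := by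
  have := vw_nonneg (η t a)
  have := h.C_ge
  unfold rL; positivity

lemma qL_nonneg (t : ℝ) (a : P) : 0 ≤ qL X η t a := by unfold qL; positivity

lemma lab_norm (h : Full κ C X) {a : P} (ha : a ∈ X.M) (t : ℝ) :
    ‖X.Ψ (X.eta t a)‖ ^ 2 ≤ 4 * ‖X.Ψ a‖ ^ 2 := by
  rw [h.eta_lab a ha.1 t]
  have := pow_le_pow_left₀ (norm_nonneg _) (h.g_norm _ (h.M_W ha) t) 2
  linarith [mul_pow 2 ‖X.Ψ a‖ 2]

lemma vw_eta (h : Full κ C X) {a : P} (ha : a ∈ X.M) (t : ℝ) :
    vw (X.eta t a) ≤ 8 * ‖X.Ψ a‖ ^ 2 := by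
  have h1 := (h.eta_M a ha t).1
  have h2 := h.vw_hi (X.Ψ (X.eta t a)) (h.box_n _ h1).le
  rw [h.ΦΨ _ (by linarith)] at h2
  linarith [lab_norm h ha t]

lemma z_split (h : Full κ C X) (hη : Adm X.M η v) {t : ℝ} (ht : t ∈ Icc 0 π) {a : P}
    (ha : a ∈ X.M) :
    |vw (η t a) * zL X η v t a - vw (η t a) *
      (X.U ((η t a).1, (X.eta t a).2) - X.U ((η t a).1, (η t a).2))| ≤ rL X C η v t a := by
  obtain ⟨h1, -⟩ := norm_le_iff.1 (hη.maps t ht ha).1
  obtain ⟨h3, h4⟩ := norm_le_iff.1 (h.eta_M a ha t).1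
  have h5 := h.U3 (η t a).1 (X.eta t a).1 (X.eta t a).2 (by linarith) (by linarith) (by linarith)
  have h6 : zL X η v t a - (X.U ((η t a).1, (X.eta t a).2) - X.U ((η t a).1, (η t a).2)) =
      e1 X v t a - (X.U ((η t a).1, (X.eta t a).2) - X.U ((X.eta t a).1, (X.eta t a).2)) := by
    unfold zL e1
    rw [h.vel_eq ha.1 t]
    simp only [Prod.mk.eta]
    ring
  rw [← mul_sub, h6, abs_mul, abs_of_nonneg (vw_nonneg _)]
  unfold rL d1
  exact mul_le_mul_of_nonneg_left ((abs_sub _ _).trans (by linarith)) (vw_nonneg _)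

lemma o_sq (h : Full κ C X) (hη : Adm X.M η v) {t : ℝ} (ht : t ∈ Icc 0 π) {a : P}
    (ha : a ∈ X.M) :
    oL X η v t a ^ 2 ≤ 3 * e2 X v t a ^ 2 + 3 * C ^ 2 * d2 X η t a ^ 2 +
      48 * C ^ 2 * qL X η t a ^ 2 := by
  have h1 := (hη.maps t ht ha).1
  have h2 := (h.eta_M a ha t).1
  have h3 := h.V_vert (X.Ψ (η t a)) (X.Ψ (X.eta t a)) (h.box_n _ h1).le (h.box_n _ h2).le
  have h4 : X.Y (X.Ψ (η t a)) = (η t a).2 := h.U_right _ (by linarith)
  have h5 : X.Y (X.Ψ (X.eta t a)) = (X.eta t a).2 := h.U_right _ (by linarith)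
  rw [h4, h5] at h3
  have h6 : (X.Ψ (η t a)).1 - (X.Ψ (X.eta t a)).1 = d1 X η t a := rfl
  have h7 : (η t a).2 - (X.eta t a).2 = d2 X η t a := rfl
  rw [h6, h7] at h3
  have h8 : oL X η v t a = e2 X v t a - (X.V (X.Ψ (η t a)) - X.V (X.Ψ (X.eta t a))) := by
    unfold oL e2
    rw [h.vel_eq ha.1 t]
    ring
  have h9 : (‖X.Ψ (X.eta t a)‖ ^ 2 + d1 X η t a ^ 2) * |d1 X η t a| ≤ 4 * qL X η t a := by
    unfold qL
    rw [← mul_assoc]
    refine mul_le_mul_of_nonneg_right ?_ (abs_nonneg _)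
    linarith [lab_norm h ha t, sq_nonneg (d1 X η t a)]
  have hC : 0 ≤ C := by linarith [h.C_ge]
  have h10 : |oL X η v t a| ≤ |e2 X v t a| + C * |d2 X η t a| + C * (4 * qL X η t a) := by
    rw [h8]
    refine (abs_sub _ _).trans ?_
    have := mul_le_mul_of_nonneg_left h9 hC
    linarith
  have h11 := sq3 h10
  rw [mul_pow, mul_pow, mul_pow, sq_abs, sq_abs] at h11
  linarith

lemma w_sq (h : Full κ C X) {t : ℝ} {a : P} (ha : a ∈ X.M) :
    wL X η t a ^ 2 ≤ 64 * qL X η t a ^ 2 := by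
  have h1 : wL X η t a ≤ 8 * qL X η t a := by
    unfold wL qL
    rw [← mul_assoc]
    refine mul_le_mul_of_nonneg_right ?_ (abs_nonneg _)
    linarith [vw_eta h ha t, sq_nonneg (d1 X η t a)]
  have h2 : 0 ≤ wL X η t a := by
    have := vw_nonneg (X.eta t a)
    unfold wL; positivity
  have := pow_le_pow_left₀ h2 h1 2
  linarith [mul_pow 8 (qL X η t a) 2]

lemma r_sq (h : Full κ C X) (hη : Adm X.M η v) {t : ℝ} (ht : t ∈ Icc 0 π) {a : P}
    (ha : a ∈ X.M) {m L δ : ℝ} (hL : |m| + C ≤ L) (hδ : 0 < δ) :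
    rL X C η v t a ^ 2 ≤ 108 * (e1 X v t a - m * d1 X η t a) ^ 2 +
      3 * L ^ 2 * δ * d2 X η t a ^ 2 + (768 * L ^ 2 + 3 * L ^ 2 / δ ^ 2) * qL X η t a ^ 2 := by
  have hC : 0 ≤ C := by linarith [h.C_ge]
  have hL0 : 0 ≤ L := by linarith [abs_nonneg m]
  have h1 := vw_le (hη.maps t ht ha).1
  have h2 := vw_sub (η t a) (X.eta t a)
  have h3 := vw_eta h ha t
  have h6 : (η t a).1 - (X.eta t a).1 = d1 X η t a := rfl
  have h7 : (η t a).2 - (X.eta t a).2 = d2 X η t a := rfl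
  rw [h6, h7] at h2
  have hy := young (s := |d2 X η t a| ^ (2 / 3 : ℝ)) (d := d1 X η t a) (by positivity) hδ
  rw [rpow_cube] at hy
  have h0 := vw_nonneg (η t a)
  have hr0 := rL_nonneg (η := η) (v := v) h t a
  have hq : d1 X η t a ^ 6 ≤ qL X η t a ^ 2 := by
    have : d1 X η t a ^ 2 * |d1 X η t a| ≤ qL X η t a :=
      mul_le_mul_of_nonneg_right (le_add_of_nonneg_left (sq_nonneg _)) (abs_nonneg _)
    have h' := pow_le_pow_left₀ (by positivity) this 2
    rw [mul_pow, sq_abs] at h'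
    linarith
  have hq' : vw (η t a) * |d1 X η t a| ≤
      16 * qL X η t a + |d2 X η t a| ^ (2 / 3 : ℝ) * |d1 X η t a| := by
    unfold qL
    rw [← mul_assoc, ← add_mul]
    refine mul_le_mul_of_nonneg_right ?_ (abs_nonneg _)
    linarith [sq_nonneg (d1 X η t a)]
  unfold rL at hr0 ⊢
  generalize |d2 X η t a| ^ (2 / 3 : ℝ) = s at *
  generalize vw (η t a) = w at *
  generalize qL X η t a = q at *
  generalize e1 X v t a = e at *
  generalize d1 X η t a = d at *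
  generalize d2 X η t a = d' at *
  have h8 : |e| ≤ |e - m * d| + |m| * |d| := by
    have := abs_add_le (e - m * d) (m * d)
    rwa [sub_add_cancel, abs_mul] at this
  have h9 : |e| + C * |d| ≤ |e - m * d| + L * |d| := by
    have := mul_le_mul_of_nonneg_right hL (abs_nonneg d)
    linarith
  have h10 : |w * (|e| + C * |d|)| ≤ 6 * |e - m * d| + L * (16 * q) + L * (s * |d|) := by
    rw [abs_of_nonneg hr0]
    have a1 := mul_le_mul_of_nonneg_left h9 h0
    have a2 := mul_le_mul_of_nonneg_right h1 (abs_nonneg (e - m * d))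
    have a3 := mul_le_mul_of_nonneg_left hq' hL0
    linarith
  have h11 := sq3 h10
  simp only [mul_pow, sq_abs] at h11
  have h12 : s ^ 2 * d ^ 2 ≤ δ * d' ^ 2 + q ^ 2 / δ ^ 2 :=
    hy.trans (by gcongr)
  have h13 := mul_le_mul_of_nonneg_left h12 (sq_nonneg L)
  have h14 : 3 * L ^ 2 / δ ^ 2 * q ^ 2 = 3 * (L ^ 2 * (q ^ 2 / δ ^ 2)) := by ring
  rw [mul_pow]
  linarith

lemma weak (h : Full κ C X) (hη : Adm X.M η v) {t : ℝ} (ht : t ∈ Ioo 0 π)
    (hd : ∀ a ∈ X.M, HasDerivAt (fun τ => η τ a) (v t a) t) {f : P → ℝ} (hf : ContDiff ℝ 1 f) :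
    ∫ a in X.M, (zL X η v t a * dx f (η t a) + oL X η v t a * du f (η t a)) = 0 := by
  have ht' : t ∈ Icc 0 π := Ioo_subset_Icc_self ht
  have h1 := div_free h.M_compact h.M_Box hη ht hd hf
  have h2 := div_free h.M_compact h.M_Box h.adm ht (fun a ha => h.eta_der a ha.1 t) hf
  set F : P → ℝ := fun p => X.U p * dx f p + X.V (X.Ψ p) * du f p with hF
  have hFc : Continuous F := (h.U_cont.mul (continuous_dx hf)).add
    ((h.V_sm.continuous.comp h.Ψ_cont).mul (continuous_du hf))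
  have h3 : ∫ a in X.M, F (X.eta t a) = 0 := by
    rw [← h2]
    refine setIntegral_congr_fun h.M_meas fun a ha => ?_
    simp only [hF, h.vel_eq ha.1 t]
  rw [integral_comp_mp (h.adm.mp t ht') hFc.measurable,
    ← integral_comp_mp (hη.mp t ht') hFc.measurable] at h3
  have n1 : Nice X.M fun t a => dx f (η t a) :=
    Nice.of_continuous h.M_compact ((continuous_dx hf).comp hη.cont)
  have n2 : Nice X.M fun t a => du f (η t a) :=
    Nice.of_continuous h.M_compact ((continuous_du hf).comp hη.cont)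
  have i1 := ((hη.nice_v1.mul n1).add (hη.nice_v2.mul n2)).integrableOn h.M_compact ht'
  have i2 : IntegrableOn (fun a => F (η t a)) X.M :=
    (hFc.comp (hη.continuous_space t)).continuousOn.integrableOn_compact h.M_compact
  have h4 := integral_sub i1 i2
  rw [h1, h3, sub_zero] at h4
  rw [← h4]
  refine setIntegral_congr_fun h.M_meas fun a _ => ?_
  simp only [hF, zL, oL]
  ring

/-- the conclusion of the Eulerian estimate, in labels -/
def Mid (C θ C1 : ℝ) : Prop :=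
  ∀ κ X, Full κ C X → ∀ η v, Adm X.M η v →
    ∀ t ∈ Ioo 0 π, (∀ a ∈ X.M, HasDerivAt (fun τ => η τ a) (v t a) t) →
    ∀ (B : ℝ) (e : P → ℝ), Measurable e → (∀ a ∈ X.M, 0 ≤ e a ∧ e a ≤ B) → Mono0 X η t e →
      ∫ a in X.M, d2 X η t a ^ 2 ≤ θ * (∫ a in X.M, oL X η v t a ^ 2) +
        C1 * ((∫ a in X.M, e a ^ 2) + (∫ a in X.M, rL X C η v t a ^ 2) +
          ∫ a in X.M, wL X η t a ^ 2)

theorem mid (hE : St_EUL) {C θ : ℝ} (hC : 1 ≤ C) (hθ : 0 < θ) : ∃ C1, 0 ≤ C1 ∧ Mid C θ C1 := by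
  classical
  have hC0 : 0 < C := by linarith
  obtain ⟨C1, hC1, hE⟩ := hE (1 / C) C θ (by positivity) hC0.le hθ
  refine ⟨C1, hC1, fun κ X h η v hη t ht hd B e he heB hm => ?_⟩
  have ht' : t ∈ Icc 0 π := Ioo_subset_Icc_self ht
  have hM := h.M_meas
  obtain ⟨ρ, hρc, hρM, hl, hr⟩ := hη.inv t ht'
  have hρ : MeasurePreserving ρ (volume.restrict X.M) (volume.restrict X.M) :=
    mp_inv hM (hη.mp t ht') hρc.measurable hl
  obtain ⟨Bz, hBz⟩ := (nice_zL h hη).2
  obtain ⟨Bo, hBo⟩ := (nice_oL h hη).2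
  obtain ⟨Br, hBr⟩ := (nice_rL h hη).2
  set B' : ℝ := |B| + |Bz| + |Bo| + |Br| with hB'
  have p1 := abs_nonneg B
  have p2 := abs_nonneg Bz
  have p3 := abs_nonneg Bo
  have p4 := abs_nonneg Br
  have q1 := le_abs_self B
  have q2 := le_abs_self Bz
  have q3 := le_abs_self Bo
  have q4 := le_abs_self Br
  let lf : (P → ℝ) → P → ℝ := fun g => X.M.indicator fun p => g (ρ p)
  have lf1 : ∀ g, ∀ p ∈ X.M, lf g p = g (ρ p) := fun g p hp => indicator_of_mem hp _
  have lf0 : ∀ g p, p ∉ X.M → lf g p = 0 := fun g p hp => indicator_of_notMem hp _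
  have lfm : ∀ g, Measurable g → Measurable (lf g) := fun g hg =>
    (hg.comp hρc.measurable).indicator hM
  have lfb : ∀ g, (∀ a ∈ X.M, |g a| ≤ B') → ∀ p, |lf g p| ≤ B' := fun g hg p => by
    by_cases hp : p ∈ X.M
    · rw [lf1 g p hp]; exact hg _ (hρM hp)
    · rw [lf0 g p hp, abs_zero]; linarith
  have lfn : ∀ g, (∀ a ∈ X.M, 0 ≤ g a ∧ g a ≤ B') → ∀ p ∈ Box, 0 ≤ lf g p ∧ lf g p ≤ B' :=
    fun g hg p _ => by
      by_cases hp : p ∈ X.M
      · rw [lf1 g p hp]; exact hg _ (hρM hp)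
      · rw [lf0 g p hp]; exact ⟨le_rfl, by linarith⟩
  let T : P → P := X.M.piecewise (fun p => X.eta t (ρ p)) id
  let S : P → P := X.M.piecewise (fun p => η t (X.eta (-t) p)) id
  have T1 : ∀ p ∈ X.M, T p = X.eta t (ρ p) := fun p hp => piecewise_eq_of_mem _ _ _ hp
  have T0 : ∀ p, p ∉ X.M → T p = p := fun p hp => piecewise_eq_of_notMem _ _ _ hp
  have S1 : ∀ p ∈ X.M, S p = η t (X.eta (-t) p) := fun p hp => piecewise_eq_of_mem _ _ _ hp
  have S0 : ∀ p, p ∉ X.M → S p = p := fun p hp => piecewise_eq_of_notMem _ _ _ hp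
  have Tm : Measurable T :=
    Measurable.piecewise hM ((h.adm.continuous_space t).comp hρc).measurable measurable_id
  have Sm : Measurable S :=
    Measurable.piecewise hM
      ((hη.continuous_space t).comp (h.adm.continuous_space (-t))).measurable measurable_id
  have mz := (nice_zL h hη).measurable_space t
  have mo := (nice_oL h hη).measurable_space t
  have mr := (nice_rL h hη).measurable_space t
  have mw := (nice_wL h hη).measurable_space t
  have md := (h.nice_d2 hη).measurable_space t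
  have split : ∀ p ∈ X.M, |vw p * lf (zL X η v t) p - vw p * (X.U (p.1, (T p).2) - X.U (p.1, p.2))|
      ≤ lf (rL X C η v t) p := fun p hp => by
    have := z_split h hη ht' (hρM hp)
    rw [hr hp] at this
    rwa [lf1 _ p hp, lf1 _ p hp, T1 p hp]
  have TB : MapsTo T Box Box := fun p hp => by
    by_cases hpM : p ∈ X.M
    · rw [T1 p hpM]; exact h.M_Box (h.eta_M _ (hρM hpM) t)
    · rwa [T0 p hpM]
  have cz : ∀ p ∈ Box, |p.1| ≤ 3 ∧ |p.2| ≤ 3 ∧ |(T p).2| ≤ 3 := fun p hp => by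
    obtain ⟨a1, a2⟩ := norm_le_iff.1 (mem_Box.1 hp)
    obtain ⟨-, a3⟩ := norm_le_iff.1 (mem_Box.1 (TB hp))
    exact ⟨by linarith, by linarith, by linarith⟩
  have key := hE B' T S (lf (zL X η v t)) (lf (oL X η v t)) (lf e) (lf (rL X C η v t))
    ⟨lfm _ mz, lfm _ mo, fun p => ⟨lfb _ (fun a ha => (hBz t ht' a ha).trans (by linarith)) p,
      lfb _ (fun a ha => (hBo t ht' a ha).trans (by linarith)) p⟩,
      fun p hp => ⟨lf0 _ p fun hc => hp (h.M_Box hc), lf0 _ p fun hc => hp (h.M_Box hc)⟩, ?_⟩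
    ?_ TB Sm ?_ ?_ (lfm _ he) (lfm _ mr)
    (lfn _ fun a ha => ⟨(heB a ha).1, (heB a ha).2.trans (by linarith)⟩)
    (lfn _ fun a ha => ⟨rL_nonneg h t a, (le_of_abs_le (hBr t ht' a ha)).trans (by linarith)⟩)
    ?_ ?_ ?_ ?_
  · rw [int_box hM h.M_Box hρ (g := fun a => d2 X η t a ^ 2) (md.pow_const 2),
      int_box hM h.M_Box hρ (g := fun a => oL X η v t a ^ 2) (mo.pow_const 2),
      int_box hM h.M_Box hρ (g := fun a => e a ^ 2) (he.pow_const 2),
      int_box hM h.M_Box hρ (g := fun a => rL X C η v t a ^ 2) (mr.pow_const 2),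
      int_box hM h.M_Box hρ (g := fun a => wL X η t a ^ 2) (mw.pow_const 2)] at key
    · exact key
    · intro p hp
      simp only [wL, d1, T1 p hp, hr hp]
      rw [abs_sub_comm p.1, sub_sq_comm p.1]
    · intro p hp; simp [T0 p hp]
    · intro p hp; rw [lf1 _ p hp]
    · intro p hp; simp [lf0 _ p hp]
    · intro p hp; rw [lf1 _ p hp]
    · intro p hp; simp [lf0 _ p hp]
    · intro p hp; rw [lf1 _ p hp]
    · intro p hp; simp [lf0 _ p hp]
    · intro p hp
      simp only [d2, T1 p hp, hr hp]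
      ring
    · intro p hp; simp [T0 p hp]
  · intro f hf
    rw [← setIntegral_eq_integral_of_forall_compl_eq_zero (s := X.M)
      fun p hp => by simp [lf0 _ p hp], ← weak h hη ht hd hf]
    have n1 : Measurable fun a => dx f (η t a) :=
      ((continuous_dx hf).comp (hη.continuous_space t)).measurable
    have n2 : Measurable fun a => du f (η t a) :=
      ((continuous_du hf).comp (hη.continuous_space t)).measurable
    rw [← integral_comp_mp hρ
      (h := fun a => zL X η v t a * dx f (η t a) + oL X η v t a * du f (η t a))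
      ((mz.mul n1).add (mo.mul n2))]
    refine setIntegral_congr_fun hM fun p hp => ?_
    simp only [lf1 _ p hp, hr hp]
  · have a1 : MeasurePreserving T (volume.restrict X.M) (volume.restrict X.M) :=
      ((h.adm.mp t ht').comp hρ).congr Tm
        ((ae_restrict_mem hM).mono fun p hp => (T1 p hp).symm)
    have a2 : MeasurePreserving T (volume.restrict (Box \ X.M)) (volume.restrict (Box \ X.M)) :=
      (MeasurePreserving.id _).congr Tm
        ((ae_restrict_mem (measurableSet_closedBall.diff hM)).mono fun p hp => (T0 p hp.2).symm)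
    have a3 := Measure.restrict_inter_add_sdiff (μ := volume) Box hM
    rw [inter_eq_right.2 h.M_Box] at a3
    rw [← a3]
    exact a1.add_measure a2
  · intro p hp
    by_cases hpM : p ∈ X.M
    · rw [S1 p hpM]; exact h.M_Box (hη.maps t ht' (h.eta_M _ hpM _))
    · rwa [S0 p hpM]
  · intro p _
    by_cases hpM : p ∈ X.M
    · rw [T1 p hpM, S1 _ (h.eta_M _ (hρM hpM) t), ← h.eta_add _ (hρM hpM).1, neg_add_cancel,
        h.eta_zero _ (hρM hpM).1, hr hpM]
    · rw [T0 p hpM, S0 p hpM]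
  · intro p hp p' hp' h1 h2
    by_cases hpM : p ∈ X.M <;> by_cases hpM' : p' ∈ X.M
    · have := hm.1 _ (hρM hpM) _ (hρM hpM')
      rw [hr hpM, hr hpM'] at this
      rw [T1 p hpM, T1 p' hpM', lf1 _ p hpM, lf1 _ p' hpM']
      exact this h1 h2
    · have := hm.2 _ (hρM hpM) p' (mem_Box.1 hp') hpM'
      rw [hr hpM] at this
      rw [T1 p hpM, T0 p' hpM', lf1 _ p hpM, lf0 _ p' hpM', add_zero]
      exact (this h1).1 h2
    · have := hm.2 _ (hρM hpM') p (mem_Box.1 hp) hpM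
      rw [hr hpM'] at this
      rw [T0 p hpM, T1 p' hpM', lf0 _ p hpM, lf1 _ p' hpM', zero_add]
      exact (this h1.symm).2 h2
    · rw [T0 p hpM, T0 p' hpM', lf0 _ p hpM, lf0 _ p' hpM']
      exact (min_le_right _ _).trans (by linarith)
  · intro p hp h1
    by_cases hpM : p ∈ X.M
    · obtain ⟨c1, c2, c3⟩ := cz p hp
      have a1 := h.U2 p.1 (T p).2 p.2 c1 c3 c2
      have a2 := h.U_mono p.1 (T p).2 p.2 c1 c3 c2 (by linarith)
      rw [abs_of_nonneg h1, abs_of_nonneg (sub_nonneg.2 a2), Prod.mk.eta] at a1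
      have a3 := (abs_le.1 (split p hpM)).1
      have a4 : 1 / C * min ((T p).2 - p.2) |p.2| ≤ vw p * (X.U (p.1, (T p).2) - X.U p) := by
        rw [one_div, inv_mul_le_iff₀ hC0]; exact a1
      rw [Prod.mk.eta] at a3
      linarith
    · simp [T0 p hpM, lf0 _ p hpM]
  · intro p hp h1
    by_cases hpM : p ∈ X.M
    · obtain ⟨c1, c2, c3⟩ := cz p hp
      have a1 := h.U2 p.1 (T p).2 p.2 c1 c3 c2
      have a2 := h.U_mono p.1 p.2 (T p).2 c1 c2 c3 (by linarith)
      rw [abs_of_nonpos h1, abs_of_nonpos (sub_nonpos.2 a2), Prod.mk.eta, neg_sub] at a1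
      have a3 := (abs_le.1 (split p hpM)).2
      have a4 : 1 / C * min (p.2 - (T p).2) |p.2| ≤ vw p * -(X.U (p.1, (T p).2) - X.U p) := by
        rw [one_div, inv_mul_le_iff₀ hC0]; exact a1
      rw [Prod.mk.eta] at a3
      linarith
    · simp [T0 p hpM, lf0 _ p hpM]
  · intro p hp
    by_cases hpM : p ∈ X.M
    · obtain ⟨c1, c2, c3⟩ := cz p hp
      have a1 := h.U1 p.1 (T p).2 p.2 c1 c3 c2
      have a3 := split p hpM
      have a4 := abs_add_le (vw p * lf (zL X η v t) p -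
        vw p * (X.U (p.1, (T p).2) - X.U (p.1, p.2))) (vw p * (X.U (p.1, (T p).2) - X.U (p.1, p.2)))
      rw [sub_add_cancel, abs_mul (vw p) (_ - _), abs_of_nonneg (vw_nonneg p)] at a4
      rw [Prod.mk.eta] at a1 a3 a4
      linarith
    · simp [T0 p hpM, lf0 _ p hpM]

end EULL

open EULL in
theorem blk_EULL (hE : St_EUL) : St_EULL := by
  intro C θ Λ hθ
  by_cases hC : 1 ≤ C
  swap
  · exact ⟨0, le_rfl, fun κ X h => absurd h.C_ge hC⟩
  have hC0 : 0 < C := by linarith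
  set θE : ℝ := min (θ / 6) (1 / (12 * C ^ 2)) with hθE
  have hθ0 : 0 < θE := lt_min (by positivity) (by positivity)
  have hθ1 : 6 * θE ≤ θ := by linarith [min_le_left (θ / 6) (1 / (12 * C ^ 2))]
  have hθ2 : θE * (12 * C ^ 2) ≤ 1 :=
    (le_div_iff₀ (by positivity)).1 (min_le_right (θ / 6) (1 / (12 * C ^ 2)))
  obtain ⟨C1, hC1, hmid⟩ := mid hE hC hθ0
  set L : ℝ := |Λ| + C with hL
  set δ : ℝ := 1 / (12 * L ^ 2 * C1 + 1) with hδ
  have hδ0 : 0 < δ := by positivity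
  have hδ1 : δ * (12 * L ^ 2 * C1 + 1) = 1 := by rw [hδ]; field_simp
  set K : ℝ := 768 * L ^ 2 + 3 * L ^ 2 / δ ^ 2 with hK
  have hK0 : 0 ≤ K := by positivity
  refine ⟨2 * (4 + C1 * (172 + K)), by positivity, ?_⟩
  intro κ X h η v hη t ht hd m B e hm he heB hmono
  have ht' : t ∈ Icc 0 π := Ioo_subset_Icc_self ht
  have hM := h.M_meas
  have hc := h.M_compact
  have key := hmid κ X h η v hη t ht hd B e he heB hmono
  have i1 := ((h.nice_d2 hη).pow 2).integrableOn hc ht'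
  have i2 := ((h.nice_e2 hη).pow 2).integrableOn hc ht'
  have i3 := (((h.nice_e1 hη).sub ((h.nice_d1 hη).const_mul m)).pow 2).integrableOn hc ht'
  have i4 := ((nice_qL h hη).pow 2).integrableOn hc ht'
  have k1 := int_le3 hM (((nice_oL h hη).pow 2).integrableOn hc ht') i2 i1 i4
    fun a ha => o_sq h hη ht' ha
  have k2 := int_le3 hM (((nice_rL h hη).pow 2).integrableOn hc ht') i3 i1 i4
    fun a ha => r_sq h hη ht' ha (m := m) (L := L) (by linarith [le_abs_self Λ]) hδ0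
  have k3 : ∫ a in X.M, wL X η t a ^ 2 ≤ 64 * ∫ a in X.M, qL X η t a ^ 2 := by
    rw [← integral_const_mul]
    exact setIntegral_mono_on (((nice_wL h hη).pow 2).integrableOn hc ht') (i4.const_mul 64) hM
      fun a ha => w_sq h ha
  have n1 : 0 ≤ ∫ a in X.M, d2 X η t a ^ 2 := integral_nonneg fun _ => sq_nonneg _
  have n2 : 0 ≤ ∫ a in X.M, e2 X v t a ^ 2 := integral_nonneg fun _ => sq_nonneg _
  have n3 : 0 ≤ ∫ a in X.M, (e1 X v t a - m * d1 X η t a) ^ 2 :=
    integral_nonneg fun _ => sq_nonneg _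
  have n4 : 0 ≤ ∫ a in X.M, qL X η t a ^ 2 := integral_nonneg fun _ => sq_nonneg _
  have n5 : 0 ≤ ∫ a in X.M, e a ^ 2 := integral_nonneg fun _ => sq_nonneg _
  change _ ≤ _ + _ * (_ + _ + ∫ a in X.M, qL X η t a ^ 2)
  rw [← hK] at k2
  generalize (∫ a in X.M, d2 X η t a ^ 2) = D at *
  generalize (∫ a in X.M, e2 X v t a ^ 2) = E at *
  generalize (∫ a in X.M, (e1 X v t a - m * d1 X η t a) ^ 2) = F at *
  generalize (∫ a in X.M, qL X η t a ^ 2) = Q at *
  generalize (∫ a in X.M, e a ^ 2) = G at *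
  generalize (∫ a in X.M, oL X η v t a ^ 2) = O at *
  generalize (∫ a in X.M, rL X C η v t a ^ 2) = R at *
  generalize (∫ a in X.M, wL X η t a ^ 2) = W at *
  have b1 := mul_le_mul_of_nonneg_left k1 hθ0.le
  have b2 := mul_le_mul_of_nonneg_left k2 hC1
  have b3 := mul_le_mul_of_nonneg_left k3 hC1
  have b4 := mul_le_mul_of_nonneg_right hθ2 n1
  have b5 := mul_le_mul_of_nonneg_right hθ2 n4
  have b6 := mul_le_mul_of_nonneg_right hθ1 n2
  have b7 : δ * (12 * L ^ 2 * C1) * D ≤ 1 * D :=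
    mul_le_mul_of_nonneg_right (by linarith) n1
  have c1 := mul_nonneg hC1 n3
  have c2 := mul_nonneg hC1 n4
  have c3 := mul_nonneg hC1 n5
  have c4 := mul_nonneg (mul_nonneg hC1 hK0) n3
  have c5 := mul_nonneg (mul_nonneg hC1 hK0) n5
  nlinarith

end Pool.Agent.Lib.MP_f62ea7_gt
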