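import Pool.Agent.Lib.MP_f62ea7_gt.Basic
import Pool.Agent.Lib.MP_1301ff_gt.Flow

/-! Block FLOW: smooth dependence of the flow on time and initial point. -/

set_option autoImplicit false

open MeasureTheory Set Filter Topology Real
open scoped ContDiff ENNReal NNReal

namespace Pool.Agent.Lib.MP_f62ea7_gt

namespace FLOW

section Sup

variable {X E : Type} [TopologicalSpace X] [CompactSpace X] [NormedAddCommGroup E] [NormedSpace ℝ E]

/-- Pointwise application of a continuous bilinear map. -/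
noncomputable def app (X : Type) [TopologicalSpace X] [CompactSpace X] {G E F : Type} [NormedAddCommGroup G]
    [NormedSpace ℝ G] [NormedAddCommGroup E] [NormedSpace ℝ E] [NormedAddCommGroup F] [NormedSpace ℝ F]
    (B : G →L[ℝ] E →L[ℝ] F) : C(X, G) →L[ℝ] C(X, E) →L[ℝ] C(X, F) :=
  LinearMap.mkContinuous₂
    (LinearMap.mk₂ ℝ (fun (M : C(X, G)) (h : C(X, E)) =>
        (⟨fun s => B (M s) (h s), (B.continuous.comp M.continuous).clm_apply h.continuous⟩ : C(X, F)))
      (fun _ _ _ => by ext; simp) (fun _ _ _ => by ext; simp) (fun _ _ _ => by ext; simp)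
      (fun _ _ _ => by ext; simp)) ‖B‖
    (fun M h => by
      refine (ContinuousMap.norm_le _ (by positivity)).2 fun s => ?_
      refine (B.le_opNorm₂ _ _).trans ?_
      gcongr
      · exact M.norm_coe_le_norm s
      · exact h.norm_coe_le_norm s)

variable {G F : Type} [NormedAddCommGroup G] [NormedSpace ℝ G] [NormedAddCommGroup F] [NormedSpace ℝ F]

lemma app_apply (B : G →L[ℝ] E →L[ℝ] F) (M : C(X, G)) (h : C(X, E)) (s : X) :
    app X B M h s = B (M s) (h s) := rfl

lemma hasFDerivAt_sup (B : G →L[ℝ] E →L[ℝ] F) (Z : C(E, F))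
    (D : C(E, G)) (hD : ∀ x, HasFDerivAt Z (B (D x)) x) (c : C(X, E)) :
    HasFDerivAt (fun c : C(X, E) => Z.comp c) (app X B (D.comp c)) c := by
  rw [hasFDerivAt_iff_isLittleO_nhds_zero, Asymptotics.isLittleO_iff]
  intro ε hε
  have hc : ContinuousAt (fun c : C(X, E) => D.comp c) c := (ContinuousMap.continuous_postcomp D).continuousAt
  have B0 := norm_nonneg B
  obtain ⟨δ, δ0, hδ⟩ := Metric.continuousAt_iff.1 hc (ε / (‖B‖ + 1)) (by positivity)
  filter_upwards [Metric.ball_mem_nhds (0 : C(X, E)) δ0] with h hh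
  rw [mem_ball_zero_iff] at hh
  refine (ContinuousMap.norm_le _ (by positivity)).2 fun s => ?_
  have h1 : ∀ θ : ℝ, HasDerivAt (fun θ : ℝ => Z (c s + θ • h s) - θ • B (D (c s)) (h s))
      (B (D (c s + θ • h s) - D (c s)) (h s)) θ := by
    intro θ
    have a1 : HasDerivAt (fun θ : ℝ => c s + θ • h s) (h s) θ := by
      simpa using ((hasDerivAt_id θ).smul_const (h s)).const_add (c s)
    have a2 := (hD _).comp_hasDerivAt θ a1
    have a3 : HasDerivAt (fun θ : ℝ => θ • B (D (c s)) (h s)) (B (D (c s)) (h s)) θ := by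
      simpa using (hasDerivAt_id θ).smul_const (B (D (c s)) (h s))
    rw [map_sub]
    exact a2.sub a3
  have h2 := norm_image_sub_le_of_norm_deriv_le_segment_01' (C := ε * ‖h‖)
    (fun θ _ => (h1 θ).hasDerivWithinAt) (fun θ hθ => by
      have b1 : dist (c + θ • h) c < δ := by
        rw [dist_eq_norm, add_sub_cancel_left, norm_smul, Real.norm_eq_abs, abs_of_nonneg hθ.1]
        nlinarith [norm_nonneg h, hθ.1, hθ.2]
      have b2 := (hδ b1).le
      rw [dist_eq_norm] at b2
      have b3 : ‖D (c s + θ • h s) - D (c s)‖ ≤ ε / (‖B‖ + 1) := (ContinuousMap.norm_coe_le_norm _ s).trans b2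
      have b4 : ‖B‖ * (ε / (‖B‖ + 1)) ≤ ε := by
        rw [← mul_div_assoc, div_le_iff₀ (by positivity)]
        linarith
      refine (B.le_opNorm₂ _ _).trans (mul_le_mul ?_ (h.norm_coe_le_norm s) (norm_nonneg _) hε.le)
      exact (mul_le_mul_of_nonneg_left b3 B0).trans b4)
  refine le_of_eq_of_le ?_ h2
  congr 1
  simp [app_apply]
  abel

/-- The superposition map of a `C^n` map is `C^n`. -/
lemma contDiff_sup_nat (n : ℕ) : ∀ (F : Type) [NormedAddCommGroup F] [NormedSpace ℝ F] (Z : C(E, F)),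
    ContDiff ℝ n Z → ContDiff ℝ n (fun c : C(X, E) => Z.comp c) := by
  induction n with
  | zero => exact fun F _ _ Z _ => contDiff_zero.2 (ContinuousMap.continuous_postcomp Z)
  | succ n ih =>
    intro F _ _ Z hZ
    obtain ⟨D, hD, hZD⟩ := contDiff_succ_iff_hasFDerivAt.1 hZ
    let B : (E →L[ℝ] F) →L[ℝ] E →L[ℝ] F := ContinuousLinearMap.id ℝ _
    let D' : C(E, E →L[ℝ] F) := ⟨D, hD.continuous⟩
    exact contDiff_succ_iff_hasFDerivAt.2 ⟨fun c => app X B (D'.comp c),
      (app X B).contDiff.comp (ih _ D' hD), fun c => hasFDerivAt_sup B Z D' hZD c⟩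

lemma contDiff_sup (Z : C(E, F)) (hZ : ContDiff ℝ ∞ Z) : ContDiff ℝ ∞ (fun c : C(X, E) => Z.comp c) :=
  contDiff_infty.2 fun n => contDiff_sup_nat n F Z (contDiff_infty.1 hZ n)

omit [NormedSpace ℝ E] [NormedSpace ℝ F] in
lemma lip_sup {Z : C(E, F)} {K : ℝ≥0} (hK : LipschitzWith K Z)
    (c c' : C(X, E)) : ‖Z.comp c - Z.comp c'‖ ≤ K * ‖c - c'‖ := by
  refine (ContinuousMap.norm_le _ (by positivity)).2 fun s => ?_
  exact (hK.norm_sub_le _ _).trans (mul_le_mul_of_nonneg_left ((c - c').norm_coe_le_norm s) K.2)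

end Sup

/-- A fixed point of a smooth family of contractions is smooth. -/
theorem fixed_smooth {A B : Type} [NormedAddCommGroup A] [NormedSpace ℝ A] [CompleteSpace A]
    [NormedAddCommGroup B] [NormedSpace ℝ B] [CompleteSpace B] {T : A × B → B} (hT : ContDiff ℝ ∞ T)
    {c : A → B} {a0 : A} (hl : ∀ᶠ a in 𝓝 a0, ∀ b b', ‖T (a, b) - T (a, b')‖ ≤ 1 / 2 * ‖b - b'‖)
    (hc : ∀ᶠ a in 𝓝 a0, T (a, c a) = c a) : ContDiffAt ℝ ∞ c a0 := by
  have hf : ContDiffAt ℝ ∞ (fun u : A × B => u.2 - T u) (a0, c a0) := (contDiff_snd.sub hT).contDiffAt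
  have hTd : HasFDerivAt T (fderiv ℝ T (a0, c a0)) (a0, c a0) := (hT.differentiable (by simp) _).hasFDerivAt
  set D := fderiv ℝ T (a0, c a0) ∘L ContinuousLinearMap.inr ℝ A B with hD
  have h1 : HasFDerivAt (fun b => T (a0, b)) D (c a0) := hTd.comp (c a0) (hasFDerivAt_prodMk_right a0 (c a0))
  have h2 : ‖D‖ ≤ 1 / 2 := h1.le_of_lip' (by norm_num) (Eventually.of_forall fun b => hl.self_of_nhds b (c a0))
  have h3 : fderiv ℝ (fun u : A × B => u.2 - T u) (a0, c a0) ∘L ContinuousLinearMap.inr ℝ A B = 1 - D := by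
    rw [(hasFDerivAt_snd.fun_sub hTd).fderiv]
    ext b
    simp [hD]
  have hinv : (fderiv ℝ (fun u : A × B => u.2 - T u) (a0, c a0) ∘L ContinuousLinearMap.inr ℝ A B).IsInvertible := by
    rw [h3]
    exact ⟨ContinuousLinearEquiv.unitsEquiv ℝ B (Units.oneSub D (by linarith)), rfl⟩
  refine (hf.contDiffAt_implicitFunction (by simp) hinv).congr_of_eventuallyEq ?_
  filter_upwards [hf.eventually_apply_implicitFunction (by simp) hinv, hl, hc] with a ha h4 h5
  simp only [hc.self_of_nhds, sub_self, sub_eq_zero] at ha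
  have h6 := h4 (c a) (hf.implicitFunction (by simp) hinv a)
  rw [h5, ← ha] at h6
  have h7 := norm_nonneg (c a - hf.implicitFunction (by simp) hinv a)
  exact sub_eq_zero.1 (norm_eq_zero.1 (by linarith))

variable {E : Type} [NormedAddCommGroup E] [NormedSpace ℝ E] [CompleteSpace E]

abbrev I : Type := Icc (0 : ℝ) 1

omit [NormedSpace ℝ E] [CompleteSpace E] in
lemma cont_ext (c : C(I, E)) : Continuous fun u : ℝ => c (projIcc 0 1 zero_le_one u) :=
  c.continuous.comp continuous_projIcc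

/-- The primitive vanishing at zero. -/
noncomputable def prim (E : Type) [NormedAddCommGroup E] [NormedSpace ℝ E] : C(I, E) →L[ℝ] C(I, E) :=
  LinearMap.mkContinuous
    { toFun := fun c => ⟨fun s => ∫ u in (0 : ℝ)..s, c (projIcc 0 1 zero_le_one u),
        (intervalIntegral.continuous_primitive (fun _ _ => (cont_ext c).intervalIntegrable _ _) 0).comp
          continuous_subtype_val⟩
      map_add' := fun c c' => by
        ext s
        exact intervalIntegral.integral_add ((cont_ext c).intervalIntegrable _ _)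
          ((cont_ext c').intervalIntegrable _ _)
      map_smul' := fun r c => by
        ext s
        exact intervalIntegral.integral_smul r _ } 1
    (fun c => by
      refine (ContinuousMap.norm_le _ (by positivity)).2 fun s => ?_
      refine (intervalIntegral.norm_integral_le_of_norm_le_const (C := ‖c‖)
        fun u _ => c.norm_coe_le_norm _).trans ?_
      rw [sub_zero, abs_of_nonneg s.2.1]
      nlinarith [norm_nonneg c, s.2.2])

omit [CompleteSpace E] in
lemma prim_apply (c : C(I, E)) (s : I) : prim E c s = ∫ u in (0 : ℝ)..s, c (projIcc 0 1 zero_le_one u) := rfl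

omit [CompleteSpace E] in
lemma prim_le (c : C(I, E)) : ‖prim E c‖ ≤ ‖c‖ := by
  have : ‖prim E‖ ≤ 1 := LinearMap.mkContinuous_norm_le _ zero_le_one _
  nlinarith [(prim E).le_opNorm c, norm_nonneg c]

lemma smooth_near {Z : E → E} (hZ : ContDiff ℝ ∞ Z) {K : ℝ≥0} (hK : LipschitzWith K Z) {k : ℝ → E → E}
    (h0 : ∀ p, k 0 p = p) (hd : ∀ p t, HasDerivAt (fun τ => k τ p) (Z (k t p)) t) (q : ℝ × E)
    (hq : |q.1| * (K + 1) < 1 / 2) : ContDiffAt ℝ ∞ (fun q : ℝ × E => k q.1 q.2) q := by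
  have hc : ∀ p, Continuous fun τ => k τ p := fun p => continuous_iff_continuousAt.2 fun t => (hd p t).continuousAt
  let Z' : C(E, E) := ⟨Z, hZ.continuous⟩
  let c : ℝ × E → C(I, E) := fun a => ⟨fun s => k (a.1 * s) a.2, (hc a.2).comp (by fun_prop)⟩
  let T : (ℝ × E) × C(I, E) → C(I, E) := fun u =>
    ContinuousLinearMap.const ℝ I u.1.2 + u.1.1 • prim E (Z'.comp u.2)
  have hT : ContDiff ℝ ∞ T :=
    ((ContinuousLinearMap.const ℝ I).contDiff.comp (contDiff_snd.comp contDiff_fst)).add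
      ((contDiff_fst.comp contDiff_fst).smul ((prim E).contDiff.comp ((contDiff_sup Z' hZ).comp contDiff_snd)))
  have h1 : ContDiffAt ℝ ∞ c q := by
    refine fixed_smooth hT ?_ (Eventually.of_forall fun a => ?_)
    · have : ContinuousAt (fun a : ℝ × E => |a.1| * (K + 1)) q := by fun_prop
      filter_upwards [this.eventually (gt_mem_nhds hq)] with a ha b b'
      have e : T (a, b) - T (a, b') = a.1 • prim E (Z'.comp b - Z'.comp b') := by
        simp only [T, map_sub, smul_sub]; abel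
      rw [e, norm_smul, Real.norm_eq_abs]
      have a1 := (prim_le _).trans (lip_sup (Z := Z') hK b b')
      have a2 := mul_le_mul_of_nonneg_left a1 (abs_nonneg a.1)
      nlinarith [norm_nonneg (b - b'), abs_nonneg a.1]
    · ext s
      have a1 : ∀ u : ℝ, HasDerivAt (fun u => k (a.1 * u) a.2) (a.1 • Z (k (a.1 * u) a.2)) u := fun u => by
        simpa [Function.comp_def] using (hd a.2 (a.1 * u)).scomp u ((hasDerivAt_id u).const_mul a.1)
      have a2 := intervalIntegral.integral_eq_sub_of_hasDerivAt (a := 0) (b := s) (fun u _ => a1 u)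
        (((hZ.continuous.comp ((hc a.2).comp (by fun_prop))).const_smul a.1).intervalIntegrable _ _)
      have a3 : prim E (Z'.comp (c a)) s = ∫ u in (0 : ℝ)..s, Z (k (a.1 * u) a.2) := by
        rw [prim_apply]
        refine intervalIntegral.integral_congr fun u hu => ?_
        rw [uIcc_of_le s.2.1] at hu
        simp only [projIcc_of_mem zero_le_one (⟨hu.1, hu.2.trans s.2.2⟩ : u ∈ Icc (0 : ℝ) 1)]
        rfl
      rw [intervalIntegral.integral_smul, mul_zero, h0] at a2
      change a.2 + a.1 • prim E (Z'.comp (c a)) s = k (a.1 * s) a.2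
      rw [a3, a2]
      abel
  have h2 := (ContinuousMap.evalCLM ℝ (⟨1, zero_le_one, le_rfl⟩ : I)).contDiff.contDiffAt.comp q h1
  convert h2 using 2 with a
  change _ = k (a.1 * 1) a.2
  rw [mul_one]

/-- Smooth global flow of a smooth bounded Lipschitz vector field on a Banach space. -/
theorem smooth_flow {Z : E → E} (hZ : ContDiff ℝ ∞ Z) {K L : ℝ≥0} (hK : LipschitzWith K Z)
    (hL : ∀ x, ‖Z x‖ ≤ L) : ∃ k : ℝ → E → E,
    ContDiff ℝ ∞ (fun q : ℝ × E => k q.1 q.2) ∧ (∀ p, k 0 p = p) ∧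
    (∀ s t p, k (s + t) p = k s (k t p)) ∧
    (∀ p t, HasDerivAt (fun τ => k τ p) (Z (k t p)) t) ∧
    ∀ c : ℝ → E, (∀ t, HasDerivAt c (Z (c t)) t) → ∀ t, c t = k t (c 0) := by
  obtain ⟨Φ, h0, hd, -⟩ := MP_1301ff_gt.exists_flow hK hL
  have hu : ∀ c : ℝ → E, (∀ t, HasDerivAt c (Z (c t)) t) → ∀ t, c t = Φ (c 0) t := fun c hc t =>
    congrFun (ODE_solution_unique_univ (v := fun _ => Z) (s := fun _ => univ) (K := K) (t₀ := 0)
      (fun _ => hK.lipschitzOnWith) (fun t => ⟨hc t, trivial⟩) (fun t => ⟨hd _ t, trivial⟩) (h0 _).symm) t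
  have hg : ∀ s t p, Φ p (s + t) = Φ (Φ p t) s := fun s t p => by
    have := hu (fun s => Φ p (s + t)) (fun s => by
      simpa [Function.comp_def] using (hd p (s + t)).scomp s ((hasDerivAt_id s).add_const t)) s
    simpa using this
  refine ⟨fun t p => Φ p t, ?_, h0, hg, hd, hu⟩
  have key : ∀ n : ℕ, ∀ q : ℝ × E, |q.1| * (K + 1) < 2 ^ n / 2 →
      ContDiffAt ℝ ∞ (fun q : ℝ × E => Φ q.2 q.1) q := by
    intro n
    induction n with
    | zero => exact fun q hq => smooth_near (k := fun t p => Φ p t) hZ hK h0 hd q (by simpa using hq)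
    | succ n ih =>
      intro q hq
      have a0 : |q.1 / 2| * (K + 1) < 2 ^ n / 2 := by
        rw [abs_div, abs_two, pow_succ] at *
        linarith
      have a1 : ContDiffAt ℝ ∞ (fun q : ℝ × E => q.1 / 2) q := contDiffAt_fst.div_const 2
      have a2 := (ih (q.1 / 2, q.2) a0).comp q (a1.prodMk contDiffAt_snd)
      have a3 := (ih (q.1 / 2, Φ q.2 (q.1 / 2)) a0).comp q (a1.prodMk a2)
      convert a3 using 2 with a
      change _ = Φ (Φ a.2 (a.1 / 2)) (a.1 / 2)
      rw [← hg, add_halves]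
  refine contDiff_iff_contDiffAt.2 fun q => ?_
  obtain ⟨n, hn⟩ := pow_unbounded_of_one_lt (2 * (|q.1| * (K + 1))) (one_lt_two (α := ℝ))
  exact key n q (by linarith)

end FLOW

theorem blk_FLOW : St_FLOW := by
  intro Z hZ hs
  obtain ⟨K, hK⟩ := hZ.lipschitzWith_of_hasCompactSupport hs (by simp)
  obtain ⟨L, hL⟩ := hs.exists_bound_of_continuous hZ.continuous
  exact FLOW.smooth_flow hZ hK (L := ⟨L, (norm_nonneg _).trans (hL 0)⟩) hL

end Pool.Agent.Lib.MP_f62ea7_gt
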