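import Pool.Agent.Lib.MP_f62ea7_gt.Pre
import Pool.Agent.Lib.MP_f62ea7_gt.A

set_option autoImplicit false

namespace Pool.Agent.Lib.MP_f62ea7_gt

theorem no_minimizer :
    ∃ (M : Set ℂ) (φ : ℂ → ℂ), IsDomain M ∧ ∀ s : ℝ, 2 < s → s < 7 / 3 →
      IsDiff s M φ ∧ (∃ γ, IsCurve s M φ γ) ∧
        ∀ γ, IsCurve s M φ γ → ∃ γ', IsCurve s M φ γ' ∧ energy M γ' < energy M γ :=
  of_A blk_A

end Pool.Agent.Lib.MP_f62ea7_gt
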