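import Pool.Agent.Lib.MP_f62ea7_gt.Basic

/-! Block G: the flow in the label plane. -/

set_option autoImplicit false

open MeasureTheory Set Filter Topology Real
open scoped ContDiff ENNReal

namespace Pool.Agent.Lib.MP_f62ea7_gt

namespace G

lemma gron_pos {e e' : ℝ → P} {K ε t : ℝ} (hK : 1 ≤ K) (hε : 0 ≤ ε) (hd : ∀ s, HasDerivAt e (e' s) s)
    (h0 : e 0 = 0) (hb : ∀ s, ‖e' s‖ ≤ K * ‖e s‖ + ε) (t0 : 0 ≤ t) (t4 : t ≤ 4) : ‖e t‖ ≤ ε * exp (4 * K) := by
  have h := norm_le_gronwallBound_of_norm_deriv_right_le (f := e) (f' := e') (δ := 0) (K := K) (ε := ε)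
    (a := 0) (b := t) (fun s _ => (hd s).continuousAt.continuousWithinAt) (fun s _ => (hd s).hasDerivWithinAt)
    (by simp [h0]) (fun s _ => hb s) t ⟨t0, le_rfl⟩
  rw [gronwallBound_of_K_ne_0 (by linarith)] at h
  simp only [zero_mul, zero_add, sub_zero] at h
  have a1 : ε / K ≤ ε := div_le_self hε hK
  have a2 : exp (K * t) ≤ exp (4 * K) := exp_le_exp.2 (by nlinarith)
  have a3 : 1 ≤ exp (K * t) := one_le_exp (by nlinarith)
  exact h.trans (mul_le_mul a1 (by linarith) (by linarith) hε)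

lemma gron {e e' : ℝ → P} {K ε t : ℝ} (hK : 1 ≤ K) (hε : 0 ≤ ε) (hd : ∀ s, HasDerivAt e (e' s) s)
    (h0 : e 0 = 0) (hb : ∀ s, ‖e' s‖ ≤ K * ‖e s‖ + ε) (ht : |t| ≤ 4) : ‖e t‖ ≤ ε * exp (4 * K) := by
  obtain ⟨t1, t2⟩ := abs_le.1 ht
  rcases le_total 0 t with h | h
  · exact gron_pos hK hε hd h0 hb h t2
  · have := gron_pos (e := fun s => e (-s)) (e' := fun s => -e' (-s)) (t := -t) hK hε
      (fun s => by simpa [Function.comp_def] using (hd (-s)).scomp s (hasDerivAt_neg s))
      (by simpa using h0) (fun s => by simpa using hb (-s)) (by linarith) (by linarith)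
    simpa using this

lemma rot_der (z : P) (t : ℝ) : HasDerivAt (fun τ => rot τ z) ((rot t z).2, -(rot t z).1) t := by
  have h1 := ((hasDerivAt_cos t).const_mul z.1).add ((hasDerivAt_sin t).const_mul z.2)
  have h2 := ((hasDerivAt_sin t).const_mul (-z.1)).add ((hasDerivAt_cos t).const_mul z.2)
  refine (h1.prodMk h2).congr_deriv ?_
  ext <;> simp only [rot] <;> ring

lemma rot_le (z : P) (t : ℝ) : ‖rot t z‖ ≤ 2 * ‖z‖ := by
  have a := abs_fst_le z
  have b := abs_snd_le z
  have c := abs_cos_le_one t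
  have s := abs_sin_le_one t
  have k : ∀ x y : ℝ, |x| ≤ ‖z‖ → |y| ≤ 1 → |x * y| ≤ ‖z‖ := fun x y hx hy => by
    rw [abs_mul]; nlinarith [abs_nonneg x, abs_nonneg y]
  refine norm_le_iff.2 ⟨(abs_add_le _ _).trans ?_, (abs_add_le _ _).trans ?_⟩
  · linarith [k _ _ a c, k _ _ b s]
  · linarith [k (-z.1) _ (by rwa [abs_neg]) s, k _ _ b c]

end G

open G in
theorem blk_G (hF : St_FLOW) : St_G := by
  intro C hC
  have e1 : 1 ≤ exp (4 * (1 + C)) := one_le_exp (by linarith)
  refine ⟨2 * C * exp (4 * (1 + C)), by nlinarith, fun κ D κ0 κ1 hS hE => ?_⟩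
  obtain ⟨χ, χs, χc, χt, χ1, -⟩ := exists_cutoff (isCompact_closedBall (0 : P) (11 / 2)) Metric.isOpen_ball
    (Metric.closedBall_subset_ball (by norm_num : (11 / 2 : ℝ) < 6))
  obtain ⟨g, gs, g0, ga, gd, gu⟩ := hF (fun z => χ z • ((z.2, -D.G z) : P))
    (χs.smul (contDiff_snd.prodMk hS.G_sm.neg)) χc.smul_right
  have hw : ∀ z t, D.w (g t z) = D.w z := by
    intro z t
    have h : ∀ t, HasDerivAt (fun τ => D.w (g τ z)) 0 t := by
      intro t
      refine (hasDerivAt_comp (hS.w_sm.differentiable (by simp) _) (gd z t)).congr_deriv ?_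
      by_cases h6 : ‖g t z‖ < 6
      · rw [hS.w_u _ h6, ← hS.G_eq _ h6]
        simp only [Prod.smul_mk, smul_eq_mul]
        ring
      · have : χ (g t z) = 0 := by
          by_contra k
          exact h6 (mem_ball_zero_iff.1 (χt (subset_tsupport _ k)))
        simp [this]
    rw [is_const_of_deriv_eq_zero (fun t => (h t).differentiableAt) (fun t => (h t).deriv) t 0, g0]
  have hsm : ∀ z : P, ‖z‖ ≤ 5 → D.w z ≤ 8 → ‖z‖ < 9 / 2 := by
    intro z h5 h8
    have a1 := hE.w_lo z h5
    have a2 := norm_sq_le z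
    by_contra k
    nlinarith [not_lt.1 k]
  have hm : ∀ z ∈ D.W, ∀ t, g t z ∈ D.W := by
    intro z hz t
    refine ⟨?_, (hw z t).trans_le hz.2⟩
    by_contra k
    have hc : Continuous fun τ => ‖g τ z‖ :=
      (continuous_iff_continuousAt.2 fun τ => (gd z τ).continuousAt).norm
    obtain ⟨s, hs⟩ := intermediate_value_univ 0 t hc
      (show (9 / 2 : ℝ) ∈ Icc ‖g 0 z‖ ‖g t z‖ from ⟨by rw [g0]; exact (hsm z hz.1 hz.2).le, by linarith [not_le.1 k]⟩)
    have hs : ‖g s z‖ = 9 / 2 := hs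
    exact (hsm (g s z) (by linarith) ((hw z s).trans_le hz.2)).ne hs
  have hχ : ∀ z : P, ‖z‖ ≤ 5 → χ z = 1 := fun z hz => χ1 z (mem_closedBall_zero_iff.2 (by linarith))
  have hd : ∀ z ∈ D.W, ∀ t, HasDerivAt (fun τ => g τ z) ((g t z).2, -D.G (g t z)) t := by
    intro z hz t
    have := gd z t
    rwa [hχ _ (hm z hz t).1, one_smul] at this
  refine ⟨g, gs, g0, ga, hm, fun z _ => hw z, hd, fun z hz t => ?_, fun z hz z' hz' t ht => ?_⟩
  · have := gu (fun τ => -g τ z) (fun τ => by
      have h5 := (hm z hz τ).1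
      rw [hχ _ (by rwa [norm_neg]), one_smul, hS.G_odd _ (by linarith)]
      exact (hd z hz τ).neg) t
    rw [g0] at this
    exact this.symm
  · have h := gron (e := fun τ => g τ z - g τ z' - rot τ (z - z')) (K := 1 + C) (ε := 2 * C * κ * ‖z - z'‖)
      (by linarith) (by positivity) (fun s => ((hd z hz s).sub (hd z' hz' s)).sub (rot_der (z - z') s))
      (by ext <;> simp [g0, rot]) (fun s => by
        have a1 := hE.G_lip _ _ (hm z hz s).1 (hm z' hz' s).1
        set a := g s z
        set b := g s z'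
        set r := rot s (z - z')
        have a2 : ‖a - b‖ ≤ ‖a - b - r‖ + 2 * ‖z - z'‖ := by
          have := norm_add_le (a - b - r) r
          rw [sub_add_cancel] at this
          linarith [rot_le (z - z') s]
        have a3 := abs_fst_le (a - b - r)
        have a4 := abs_snd_le (a - b - r)
        have a5 := norm_nonneg (a - b - r)
        have a6 : C * κ * ‖a - b‖ ≤ C * ‖a - b - r‖ + 2 * C * κ * ‖z - z'‖ := by
          have b1 := mul_le_mul_of_nonneg_left a2 (by positivity : 0 ≤ C * κ)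
          have b2 : C * κ * ‖a - b - r‖ ≤ C * ‖a - b - r‖ := by
            refine mul_le_mul_of_nonneg_right ?_ a5
            nlinarith
          linarith
        have a7 : 0 ≤ C * κ * ‖a - b‖ := by positivity
        simp only [Prod.fst_sub, Prod.snd_sub] at a3 a4
        refine norm_le_iff.2 ⟨?_, ?_⟩
        · simp only [Prod.fst_sub]
          linarith
        · simp only [Prod.snd_sub]
          have e : -D.G a - -D.G b - -r.1 = -(a.1 - b.1 - r.1) + -(D.G a - D.G b - (a.1 - b.1)) := by ring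
          rw [e]
          refine (abs_add_le _ _).trans ?_
          rw [abs_neg, abs_neg]
          linarith) ht
    exact h.trans_eq (by ring)

end Pool.Agent.Lib.MP_f62ea7_gt
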