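import Pool.Agent.Lib.MP_f62ea7_gt.Basic

set_option autoImplicit false

open MeasureTheory Set Filter Topology Real
open scoped ContDiff ENNReal

namespace Pool.Agent.Lib.MP_f62ea7_gt

namespace GAM

variable {κ C : ℝ} {X : Geo} {T : P → ℝ}

lemma mem_Wo (h : Full κ C X) {p : P} (hp : ‖p‖ ≤ 2) (h0 : p ≠ 0) : X.Ψ p ∈ X.Wo :=
  ⟨h.box_n p hp, h.box_w p hp, h.Ψ_ne p (by linarith) h0⟩

lemma sub_ball (X : Geo) : X.N \ {0} ⊆ Metric.ball 0 3 \ {0} := fun p hp =>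
  ⟨mem_ball_zero_iff.2 (by linarith [hp.1.1]), hp.2⟩

lemma Ψ_on (h : Full κ C X) : ContDiffOn ℝ ∞ X.Ψ (X.N \ {0}) := h.Ψ_sm.mono (sub_ball X)

lemma T_on (h : Full κ C X) (hT : IsT X T) : ContDiffOn ℝ ∞ (fun p => T (X.Ψ p)) (X.N \ {0}) :=
  hT.T_sm.comp (Ψ_on h) fun _ hp => mem_Wo h hp.1.1.le hp.2

lemma bb_on (h : Full κ C X) (hT : IsT X T) (l : ℝ) : ContDiffOn ℝ ∞ (bb X T l) (X.N \ {0}) := by
  unfold bb
  refine ContDiffOn.mul ?_ (contDiffOn_const.sub (T_on h hT))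
  exact smoothTransition.contDiff.comp_contDiffOn
    (contDiffOn_const.sub ((h.w_sm.comp_contDiffOn (Ψ_on h)).div_const _))

lemma bb_inv (h : Full κ C X) (hT : IsT X T) (l : ℝ) {p : P} (hp : ‖p‖ ≤ 2) (t : ℝ) :
    bb X T l (X.eta t p) = bb X T l p := by
  by_cases h0 : p = 0
  · rw [h0, h.eta_origin]
  · unfold bb
    rw [h.eta_w p hp, h.eta_lab p hp, hT.T_inv _ (mem_Wo h hp h0)]

lemma eta_T (h : Full κ C X) (hT : IsT X T) {p : P} (hp : ‖p‖ ≤ 2) (h0 : p ≠ 0) :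
    X.eta (T (X.Ψ p)) p = -p := by
  rw [Geo.eta, hT.T_half _ (mem_Wo h hp h0), ← h.Ψ_odd p (by linarith)]
  exact h.ΦΨ _ (by rw [norm_neg]; linarith)

lemma eta_add_T (h : Full κ C X) (hT : IsT X T) {p : P} (hp : ‖p‖ ≤ 2) (t : ℝ) :
    X.eta (t + T (X.Ψ p)) p = -X.eta t p := by
  by_cases h0 : p = 0
  · simp [h0, h.eta_origin]
  · rw [h.eta_add p hp, eta_T h hT hp h0, h.eta_odd p hp]

lemma eta_sub_T (h : Full κ C X) (hT : IsT X T) {p : P} (hp : ‖p‖ ≤ 2) (t : ℝ) :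
    X.eta (t - T (X.Ψ p)) p = -X.eta t p := by
  have := eta_add_T h hT hp (t - T (X.Ψ p))
  rw [sub_add_cancel] at this
  rw [this, neg_neg]

/-- smoothness of `eta (τ (θ, p)) p` away from the origin -/
lemma eta_on (h : Full κ C X) {τ : ℝ × P → ℝ} (hτ : ContDiffOn ℝ ∞ τ (univ ×ˢ (X.N \ {0}))) :
    ContDiffOn ℝ ∞ (fun q : ℝ × P => X.eta (τ q) q.2) (univ ×ˢ (X.N \ {0})) :=
  h.eta_sm.comp (f := fun q : ℝ × P => (τ q, q.2)) (hτ.prodMk contDiffOn_snd)
    fun _ hq => ⟨trivial, sub_ball X hq.2⟩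

lemma snd_on {E : Type} [NormedAddCommGroup E] [NormedSpace ℝ E] {f : P → E} {S : Set P}
    (hf : ContDiffOn ℝ ∞ f S) : ContDiffOn ℝ ∞ (fun q : ℝ × P => f q.2) (univ ×ˢ S) :=
  hf.comp contDiffOn_snd fun _ hq => hq.2

/-- smooth away from the origin and equal to `-p` near the origin -/
lemma glue (h : Full κ C X) {f : ℝ × P → P} (h1 : ContDiffOn ℝ ∞ f (univ ×ˢ (X.N \ {0})))
    (h2 : ∀ᶠ p in 𝓝 (0 : P), ∀ θ, f (θ, p) = -p) : ContDiffOn ℝ ∞ f (univ ×ˢ X.N) := by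
  intro q hq
  refine ContDiffAt.contDiffWithinAt ?_
  by_cases h0 : q.2 = 0
  · have h3 : ContDiffAt ℝ ∞ (fun r : ℝ × P => -r.2) q := by fun_prop
    refine h3.congr_of_eventuallyEq ?_
    have h4 : Tendsto (fun r : ℝ × P => r.2) (𝓝 q) (𝓝 0) := h0 ▸ continuous_snd.tendsto q
    filter_upwards [h4.eventually h2] with r hr using hr r.1
  · exact h1.contDiffAt ((isOpen_univ.prod (h.N_open.sdiff isClosed_singleton)).mem_nhds
      ⟨trivial, hq.2, h0⟩)

lemma near (h : Full κ C X) (T : P → ℝ) {l : ℝ} (hl : 0 < l) :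
    ∀ᶠ p in 𝓝 (0 : P), ‖p‖ ≤ 2 ∧ bb X T l p = π - T (X.Ψ p) := by
  have h1 : ∀ᶠ p in 𝓝 (0 : P), ‖p‖ < 2 :=
    continuous_norm.continuousAt.eventually_lt continuousAt_const (by simp)
  have h2 : ∀ᶠ p in 𝓝 (0 : P), X.w (X.Ψ p) < l ^ 2 := by
    refine (h.w_sm.continuous.comp h.Ψ_cont).continuousAt.eventually_lt continuousAt_const ?_
    have := h.w_hi 0 (by simp)
    simp only [Function.comp, h.Ψ_zero]
    simp only [Prod.fst_zero, Prod.snd_zero] at this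
    nlinarith [pow_pos hl 2]
  filter_upwards [h1, h2] with p a b
  refine ⟨a.le, ?_⟩
  unfold bb
  rw [smoothTransition.one_of_one_le, one_mul]
  have := (div_lt_one (pow_pos hl 2)).2 b
  linarith

end GAM

open GAM in
theorem blk_GAM (hB : St_BETA) (hL : St_LIFT) : St_GAM := by
  intro κ C X T s l hs1 hs2 h hT hl
  obtain ⟨ρ, F, R, hρ, hρ1, hF, hFR, hser⟩ := hB κ C X T h hT
  obtain ⟨L1, L2, L3, L4⟩ := hL s κ hs1 hs2 h.κ_pos X.M h.M_compact
  have hS : Lift s κ X.M (ser F) := L2 F R hF hFR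
  have hbb := snd_on (bb_on h hT l)
  have hTT := snd_on (T_on h hT)
  have hb : ContDiffOn ℝ ∞ (fun q : ℝ × P => π - (1 - q.1) * bb X T l q.2)
      (univ ×ˢ (X.N \ {0})) :=
    contDiffOn_const.sub ((contDiffOn_const.sub contDiffOn_fst).mul hbb)
  have hserS : ∀ σ : ℝ, ContDiffOn ℝ ∞ (fun q : ℝ × P => ser F (σ * q.1) q.2)
      (univ ×ˢ (X.N \ {0})) := fun σ => by
    simp only [← hser]
    exact (snd_on hρ.contDiffOn).smul ((eta_on h ((contDiffOn_const.mul contDiffOn_fst).mul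
      (contDiffOn_const.sub hTT))).sub contDiffOn_snd)
  have r1 : Lift s κ X.M fun θ p => gam X T l θ p + ser F θ p := by
    refine L1 X.N _ h.N_open h.M_sub (glue h ?_ ?_)
    · have := hserS 1
      simp only [one_mul] at this
      exact (eta_on h hb).add this
    · filter_upwards [hρ1, near h T hl] with p a b θ
      simp only [gam, ← hser, a, b.2, one_smul]
      rw [show π - (1 - θ) * (π - T (X.Ψ p)) = θ * (π - T (X.Ψ p)) + T (X.Ψ p) by ring,
        eta_add_T h hT b.1]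
      abel
  have r2 : Lift s κ X.M fun θ p => X.eta (-(π - (1 - θ) * bb X T l p)) p + ser F (-θ) p := by
    refine L1 X.N _ h.N_open h.M_sub (glue h ?_ ?_)
    · have := hserS (-1)
      simp only [neg_mul, one_mul] at this
      exact (eta_on h hb.neg).add this
    · filter_upwards [hρ1, near h T hl] with p a b θ
      simp only [← hser, a, b.2, one_smul]
      rw [show -(π - (1 - θ) * (π - T (X.Ψ p))) = -θ * (π - T (X.Ψ p)) - T (X.Ψ p) by ring,
        eta_sub_T h hT b.1]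
      abel
  have r3 : Lift s κ X.M (gam X T l) := by
    have := L3 _ _ r1 hS
    simpa only [add_sub_cancel_right] using this
  have toH : ∀ {f : ℝ → P → P}, Lift s κ X.M f → ∀ θ ∈ Icc (-1 : ℝ) 1, HsP s κ X.M (f θ) :=
    fun ⟨g, _, hg⟩ θ hθ => ⟨g θ, hg θ hθ⟩
  refine ⟨r3, fun θ hθ => ⟨toH r3 θ ⟨by linarith [hθ.1], hθ.2⟩, fun p hp => h.eta_M p hp _,
    ⟨fun p => X.eta (-(π - (1 - θ) * bb X T l p)) p, ?_, fun p hp => h.eta_M p hp _, ?_, ?_⟩,
    fun A hA hAm => ?_⟩, fun θ p hp => ?_⟩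
  · have := L4 _ _ (toH r2 θ ⟨by linarith [hθ.1], hθ.2⟩)
      (toH hS (-θ) ⟨by linarith [hθ.2], by linarith [hθ.1]⟩)
    simpa only [add_sub_cancel_right] using this
  · intro p hp
    simp only [gam]
    rw [bb_inv h hT l hp.1, ← h.eta_add p hp.1, neg_add_cancel, h.eta_zero p hp.1]
  · intro p hp
    simp only [gam]
    rw [bb_inv h hT l hp.1, ← h.eta_add p hp.1, add_neg_cancel, h.eta_zero p hp.1]
  · refine h.mp (fun p => π - (1 - θ) * bb X T l p) ?_ ?_ A (hA.trans h.M_sub) hAm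
    · exact (differentiableOn_const _).sub
        (((bb_on h hT l).differentiableOn (by simp)).const_mul _)
    · intro p hp t
      rw [bb_inv h hT l hp.1.1.le]
  · have h1 : HasDerivAt (fun τ : ℝ => π - (1 - τ) * bb X T l p) (bb X T l p) θ := by
      simpa using (((hasDerivAt_id θ).const_sub 1).mul_const (bb X T l p)).const_sub π
    exact (h.eta_der p hp.1 (π - (1 - θ) * bb X T l p)).scomp θ h1

end Pool.Agent.Lib.MP_f62ea7_gt
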