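import Pool.Agent.Lib.MP_f62ea7_gt.UP

set_option autoImplicit false

open MeasureTheory Set Filter Topology Real
open scoped ContDiff ENNReal

namespace Pool.Agent.Lib.MP_f62ea7_gt

lemma IsSol.mono {κ C C' : ℝ} {D : Dat} (h : IsSol κ C D) (hκ : 0 < κ) (hC : C ≤ C') :
    IsSol κ C' D :=
  { h with
    Θ_b := fun z hz => (h.Θ_b z hz).trans (by gcongr)
    w_b := fun z hz => (h.w_b z hz).trans (by gcongr)
    wx_b := fun z hz => (h.wx_b z hz).trans (by gcongr)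
    Y_b := fun z hz => (h.Y_b z hz).trans (by gcongr)
    V_b := fun z hz => (h.V_b z hz).trans (by gcongr)
    Yx_b := fun z hz => (h.Yx_b z hz).trans (by gcongr)
    Vx_b := fun z hz => (h.Vx_b z hz).trans (by gcongr)
    Bx_b := fun z hz => (h.Bx_b z hz).trans (by gcongr)
    Bu_b := fun z hz => (h.Bu_b z hz).trans (by gcongr)
    G_b := fun z hz => (h.G_b z hz).trans (by gcongr)
    Gx_b := fun z hz => (h.Gx_b z hz).trans (by gcongr)
    Gu_b := fun z hz => (h.Gu_b z hz).trans (by gcongr) }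

lemma Est.mono {κ C C' : ℝ} {D : Dat} (h : Est κ C D) (hκ : 0 < κ) (hC : C ≤ C') :
    Est κ C' D :=
  { h with
    Y_lip := fun z z' a b => (h.Y_lip z z' a b).trans (by gcongr)
    V_lip := fun z z' a b => (h.V_lip z z' a b).trans (by gcongr)
    B_lip := fun z z' a b => (h.B_lip z z' a b).trans (by gcongr)
    G_lip := fun z z' a b => (h.G_lip z z' a b).trans (by gcongr)
    G_near := fun z a => (h.G_near z a).trans (by gcongr)
    V_vert := fun z z' a b => (h.V_vert z z' a b).trans (by gcongr) }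

lemma Rem.mono {κ C C' : ℝ} {D : Dat} (h : Rem κ C D) (hC : C ≤ C') : Rem κ C' D :=
  fun z z' a b => (h z z' a b).trans (by gcongr)

lemma IsU.mono {C C' : ℝ} {D : Dat} {U : P → ℝ} (h : IsU C D U) (hC : C ≤ C') : IsU C' D U :=
  { h with
    U1 := fun x a s h1 h2 h3 => (h.U1 x a s h1 h2 h3).trans (by gcongr)
    U2 := fun x a s h1 h2 h3 => (h.U2 x a s h1 h2 h3).trans
      (mul_le_mul_of_nonneg_right hC (mul_nonneg (vw_nonneg _) (abs_nonneg _)))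
    U3 := fun x a s h1 h2 h3 => (h.U3 x a s h1 h2 h3).trans (by gcongr) }

lemma IsG.mono {κ C C' : ℝ} {D : Dat} {g : ℝ → P → P} (h : IsG κ C D g) (hκ : 0 < κ)
    (hC : C ≤ C') : IsG κ C' D g :=
  { h with g_rot := fun z a z' b t c => (h.g_rot z a z' b t c).trans (by gcongr) }

theorem exists_good (hA : St_A) (hE : St_EST) (hR : St_REM) (hU : St_U) (hG : St_G) :
    ∃ C κ0 : ℝ, 0 < κ0 ∧ ∀ κ, 0 < κ → κ ≤ κ0 → ∃ X, Good κ C X := by
  obtain ⟨C0, κ0, c0, k0, hA⟩ := hA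
  obtain ⟨C1, κ1, c1, k1, hE⟩ := hE C0 c0
  have c1' : 1 ≤ C1 := c0.trans c1
  obtain ⟨C2, c2, hR⟩ := hR C1 c1'
  obtain ⟨C3, c3, hU⟩ := hU C1 c1'
  obtain ⟨C4, c4, hG⟩ := hG C1 c1'
  refine ⟨max C2 (max C3 C4), min (min κ0 κ1) 1, by positivity, fun κ kp hκ => ?_⟩
  have kl : κ ≤ 1 := hκ.trans (min_le_right _ _)
  obtain ⟨D, hD⟩ := hA κ kp (hκ.trans ((min_le_left _ _).trans (min_le_left _ _)))
  have e := hE κ D kp (hκ.trans ((min_le_left _ _).trans (min_le_right _ _))) hD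
  have hD := hD.mono kp c1
  obtain ⟨U, hU⟩ := hU κ D hD e
  obtain ⟨g, hG⟩ := hG κ D kp kl hD e
  have m1 : C1 ≤ max C2 (max C3 C4) := c2.trans (le_max_left _ _)
  exact ⟨⟨D, U, g⟩, hD.mono kp m1, e.mono kp m1,
    hU.mono ((le_max_left _ _).trans (le_max_right _ _)),
    hG.mono kp ((le_max_right _ _).trans (le_max_right _ _)), kp, kl, c1'.trans m1,
    (hR κ D kp kl hD e).mono (le_max_left _ _)⟩

theorem glue (hA : St_A) (hE : St_EST) (hR : St_REM) (hU : St_U) (hG : St_G) (h1 : St_PH1)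
    (h2 : St_PH2) (hT : St_T) (hL : St_LOW) (hT1 : St_TR1) (hD : St_DOM) (hUP : St_UP) :
    ∃ (M : Set ℂ) (φ : ℂ → ℂ), IsDomain M ∧ ∀ s : ℝ, 2 < s → s < 7 / 3 →
      IsDiff s M φ ∧ (∃ γ, IsCurve s M φ γ) ∧
        ∀ γ, IsCurve s M φ γ → ∃ γ', IsCurve s M φ γ' ∧ energy M γ' < energy M γ := by
  obtain ⟨C, κ0, k0, hX⟩ := exists_good hA hE hR hU hG
  obtain ⟨κ1, k1, h1⟩ := h1 C
  obtain ⟨κ2, k2, hT⟩ := hT C
  obtain ⟨κ3, k3, hL⟩ := hL C
  set κ := min (min κ0 κ1) (min κ2 κ3) with hκ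
  have kp : 0 < κ := by positivity
  obtain ⟨X, hX⟩ := hX κ kp ((min_le_left _ _).trans (min_le_left _ _))
  have p1 := h1 κ X ((min_le_left _ _).trans (min_le_right _ _)) hX
  have h : Full κ C X := ⟨hX, p1, h2 κ C X hX p1⟩
  obtain ⟨T, hT⟩ := hT κ X ((min_le_right _ _).trans (min_le_left _ _)) hX p1
  refine ⟨ι κ '' X.M, cj κ (X.eta π), hD κ C X h, fun s hs hs' => ?_⟩
  obtain ⟨u1, u2⟩ := hUP κ C X T s hs hs' h hT
  refine ⟨u1, (u2 1 one_pos).imp fun _ h => h.1, fun γ hγ => ?_⟩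
  obtain ⟨η, v, a1, a2, a3, a4⟩ := hT1 s κ X.M (X.eta π) γ hs kp h.M_compact hγ
  have lt := hL κ X ((min_le_right _ _).trans (min_le_right _ _)) h η v a1 a2 a4
  have h0 := UP.act_nonneg h
  have kπ : 0 < κ * π := mul_pos kp pi_pos
  obtain ⟨Γ, hΓ, hE⟩ := u2 (κ * π * (act κ X.M v - act κ X.M X.vel) / 2)
    (half_pos (mul_pos kπ (sub_pos.2 lt)))
  refine ⟨Γ, hΓ, hE.trans_lt ?_⟩
  rw [a3, ENNReal.ofReal_lt_ofReal_iff (mul_pos kπ (h0.trans_lt lt))]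
  nlinarith [mul_pos kπ (sub_pos.2 lt)]

end Pool.Agent.Lib.MP_f62ea7_gt
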