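import Pool.Agent.Lib.MP_f62ea7_gt.Basic
import Pool.Agent.Lib.MP_0281e9_an.TurSm

set_option autoImplicit false

open MeasureTheory Set Filter Topology Real
open scoped ContDiff ENNReal

namespace Pool.Agent.Lib.MP_f62ea7_gt

namespace HAD

variable {E F : Type} [NormedAddCommGroup E] [NormedSpace ℝ E] [FiniteDimensional ℝ E]
  [NormedAddCommGroup F] [NormedSpace ℝ F] [CompleteSpace F]

lemma step {Ω : Set (ℝ × E)} {f : ℝ × E → F} (hΩ : IsOpen Ω) (hf : ContDiffOn ℝ ∞ f Ω)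
    (h0 : ∀ e, ((0 : ℝ), e) ∈ Ω → f (0, e) = 0) :
    ∃ h : ℝ × E → F, ContDiffOn ℝ ∞ h Ω ∧ ∀ q ∈ Ω, f q = q.1 • h q := by
  classical
  refine ⟨fun q => if q.1 = 0 then deriv (fun s => f (s, q.2)) 0 else q.1⁻¹ • f q, ?_, ?_⟩
  · intro q hq
    refine ContDiffAt.contDiffWithinAt ?_
    by_cases hq1 : q.1 = 0
    · obtain ⟨r, hr, hrΩ⟩ := Metric.nhds_basis_closedBall.mem_iff.1 (hΩ.mem_nhds hq)
      obtain ⟨χ, hχ, -, hs, h1, -⟩ := exists_cutoff (isCompact_closedBall q r) hΩ hrΩ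
      obtain ⟨A, hA, hA1, hA2⟩ := Pool.Agent.Lib.MP_0281e9_an.BT.hadamard
        (contDiff_cutoff_smul hΩ hχ hs hf)
      refine hA.contDiffAt.congr_of_eventuallyEq ?_
      filter_upwards [Metric.ball_mem_nhds q hr] with p hp
      have hb : ((0 : ℝ), p.2) ∈ Metric.ball q r := by
        rw [Metric.mem_ball, Prod.dist_eq] at hp ⊢
        refine max_lt ?_ (lt_of_le_of_lt (le_max_right _ _) hp)
        simp [hq1, hr]
      by_cases hp1 : p.1 = 0
      · rw [if_pos hp1]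
        have e1 : (fun s : ℝ => f (s, p.2)) =ᶠ[𝓝 0] fun s => χ (s, p.2) • f (s, p.2) := by
          have hc : Continuous fun s : ℝ => (s, p.2) := by fun_prop
          filter_upwards [hc.continuousAt.preimage_mem_nhds (Metric.isOpen_ball.mem_nhds hb)]
            with s hs
          rw [h1 _ (Metric.ball_subset_closedBall hs), one_smul]
        rw [e1.deriv_eq, (hA2 p.2).deriv, ← hp1]
      · rw [if_neg hp1]
        have e1 := hA1 p.1 p.2
        rw [h0 _ (hrΩ (Metric.ball_subset_closedBall hb)), smul_zero, zero_add,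
          h1 _ (Metric.ball_subset_closedBall hp), one_smul] at e1
        show p.1⁻¹ • f (p.1, p.2) = A (p.1, p.2)
        rw [e1, smul_smul, inv_mul_cancel₀ hp1, one_smul]
    · have e1 : ContDiffAt ℝ ∞ (fun p : ℝ × E => p.1⁻¹ • f p) q :=
        (contDiffAt_fst.inv hq1).smul (hf.contDiffAt (hΩ.mem_nhds hq))
      refine e1.congr_of_eventuallyEq ?_
      filter_upwards [continuous_fst.continuousAt.eventually_ne hq1] with p hp
      rw [if_neg hp]
  · intro q hq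
    by_cases hq1 : q.1 = 0
    · have : q = (0, q.2) := by rw [← hq1]
      rw [hq1, zero_smul, this]
      exact h0 _ (this ▸ hq)
    · simp only [if_neg hq1]
      rw [smul_smul, mul_inv_cancel₀ hq1, one_smul]

lemma main (k : ℕ) : ∀ {Ω : Set (ℝ × E)} {f : ℝ × E → F}, IsOpen Ω → ContDiffOn ℝ ∞ f Ω →
    (∀ e, ((0 : ℝ), e) ∈ Ω → ∃ c : ℝ, ∀ᶠ l in 𝓝[≠] (0 : ℝ), ‖f (l, e)‖ ≤ c * |l| ^ k) →
    ∃ h : ℝ × E → F, ContDiffOn ℝ ∞ h Ω ∧ ∀ q ∈ Ω, f q = q.1 ^ k • h q := by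
  induction k with
  | zero => exact fun _ hf _ => ⟨_, hf, fun q _ => by simp⟩
  | succ k ih =>
    intro Ω f hΩ hf hb
    have hc : ∀ e : E, Continuous fun s : ℝ => (s, e) := fun e => by fun_prop
    have h0 : ∀ e, ((0 : ℝ), e) ∈ Ω → f (0, e) = 0 := by
      intro e he
      obtain ⟨c, hc'⟩ := hb e he
      have h1 : Tendsto (fun l : ℝ => ‖f (l, e)‖) (𝓝[≠] 0) (𝓝 ‖f (0, e)‖) :=
        (((hf.contDiffAt (hΩ.mem_nhds he)).continuousAt.comp_of_eq (hc e).continuousAt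
          rfl).norm.tendsto).mono_left nhdsWithin_le_nhds
      have h2 : Tendsto (fun l : ℝ => c * |l| ^ (k + 1)) (𝓝[≠] 0) (𝓝 (c * |(0 : ℝ)| ^ (k + 1))) :=
        (Continuous.tendsto (by fun_prop) 0).mono_left nhdsWithin_le_nhds
      have h3 := le_of_tendsto_of_tendsto h1 h2 hc'
      simpa using h3
    obtain ⟨h1, hh1, e1⟩ := step hΩ hf h0
    obtain ⟨h, hh, e2⟩ := ih hΩ hh1 (by
      intro e he
      obtain ⟨c, hc'⟩ := hb e he
      refine ⟨c, ?_⟩
      have hm : ∀ᶠ l in 𝓝[≠] (0 : ℝ), (l, e) ∈ Ω :=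
        mem_nhdsWithin_of_mem_nhds ((hc e).continuousAt.preimage_mem_nhds (hΩ.mem_nhds he))
      filter_upwards [hc', hm, self_mem_nhdsWithin] with l hl hl' hl0
      have hpos : 0 < |l| := abs_pos.2 hl0
      rw [e1 _ hl', norm_smul, Real.norm_eq_abs] at hl
      refine le_of_mul_le_mul_left ?_ hpos
      calc _ ≤ _ := hl
        _ = _ := by ring)
    refine ⟨h, hh, fun q hq => ?_⟩
    rw [e1 q hq, e2 q hq, smul_smul, pow_succ']

end HAD

theorem blk_HAD : St_HAD := fun _ _ _ _ _ _ _ _ _ _ k hΩ hf hb => HAD.main k hΩ hf hb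

end Pool.Agent.Lib.MP_f62ea7_gt
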