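import Pool.Agent.Lib.MP_f62ea7_gt.Basic

set_option autoImplicit false

open MeasureTheory Set Filter Topology Real

namespace Pool.Agent.Lib.MP_f62ea7_gt

namespace HOR

lemma io {α : Type} [MeasurableSpace α] {μ : Measure α} {f : α → ℝ} {s : Set α}
    (hs : MeasurableSet s) (hμ : μ s ≠ ⊤) (hf : Measurable f) {M : ℝ} (hb : ∀ a ∈ s, |f a| ≤ M) :
    IntegrableOn f s μ :=
  Measure.integrableOn_of_bounded hμ hf.aestronglyMeasurable
    ((ae_restrict_iff' hs).2 (ae_of_all _ hb))

lemma uIoc_fin (a b : ℝ) : volume (uIoc a b) ≠ ⊤ := by simp [uIoc]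

lemma ii {g : ℝ → ℝ} (hg : Measurable g) {a b M : ℝ} (hb : ∀ t ∈ uIoc a b, |g t| ≤ M) :
    IntervalIntegrable g volume a b :=
  intervalIntegrable_iff.2 (io measurableSet_uIoc (uIoc_fin a b) hg hb)

lemma u01 {u : ℝ} (h : u ∈ uIoc (0 : ℝ) 1) : 0 ≤ u ∧ u ≤ 1 := by
  rw [uIoc_of_le zero_le_one] at h; exact ⟨h.1.le, h.2⟩

/-- Product rule for a primitive. -/
lemma prod_rule {a a' b k : ℝ → ℝ} {u v : ℝ} (ha : ContDiff ℝ 1 a) (hd : ∀ t, HasDerivAt a (a' t) t)
    (hk : IntervalIntegrable k volume u v) (hb : ∀ t ∈ uIcc u v, b t = b u + ∫ s in u..t, k s) :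
    a v * b v - a u * b u = ∫ t in u..v, (a' t * b t + a t * k t) := by
  have h1 : AbsolutelyContinuousOnInterval a u v := ha.contDiffOn.absolutelyContinuousOnInterval
  have h2 : AbsolutelyContinuousOnInterval (fun t => b u + ∫ s in u..t, k s) u v :=
    (contDiffOn_const (n := 1) (c := b u)).absolutelyContinuousOnInterval.fun_add
      (hk.absolutelyContinuousOnInterval_intervalIntegral left_mem_uIcc)
  have h3 := h1.integral_deriv_mul_eq_sub h2
  rw [← hb v right_mem_uIcc, ← hb u left_mem_uIcc] at h3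
  rw [← h3]
  refine intervalIntegral.integral_congr_ae ?_
  filter_upwards [hk.ae_hasDerivAt_integral] with t ht hm
  have hm' := uIoc_subset_uIcc hm
  rw [(hd t).deriv, ← hb t hm', ((ht hm' u left_mem_uIcc).const_add (b u)).deriv]

/-- Change of variables. -/
lemma cov (g : ℝ → ℝ) (y : ℝ) {v : ℝ} (hv : 0 ≤ v) :
    ∫ t in (0 : ℝ)..v, g (t ^ 6 * y) * (6 * t ^ 5 * y) = ∫ s in (0 : ℝ)..v ^ 6 * y, g s := by
  have hd : ∀ t : ℝ, HasDerivAt (fun t : ℝ => t ^ 6 * y) (6 * t ^ 5 * y) t := fun t => by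
    simpa using (hasDerivAt_pow 6 t).mul_const y
  have hc : ContinuousOn (fun t : ℝ => t ^ 6 * y) (uIcc 0 v) := by fun_prop
  have h0 : ∀ t ∈ Ioo (min 0 v) (max 0 v), 0 ≤ 6 * t ^ 5 := fun t ht => by
    rw [min_eq_left hv] at ht
    have := ht.1.le
    positivity
  rcases le_total 0 y with hy | hy
  · simpa using intervalIntegral.integral_comp_mul_deriv_of_deriv_nonneg (g := g) hc
      (fun t _ => hd t) fun t ht => mul_nonneg (h0 t ht) hy
  · simpa using intervalIntegral.integral_comp_mul_deriv_of_deriv_nonpos (g := g) hc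
      (fun t _ => hd t) fun t ht => mul_nonpos_of_nonneg_of_nonpos (h0 t ht) hy

noncomputable def pw (y : ℝ) : ℝ := |y| ^ (2 / 3 : ℝ)

lemma pw_nonneg (y : ℝ) : 0 ≤ pw y := by unfold pw; positivity

lemma continuous_pw : Continuous pw :=
  continuous_abs.rpow_const fun _ => Or.inr (by norm_num)

lemma vw_eq (x y : ℝ) : vw (x, y) = x ^ 2 + pw y := rfl

lemma pw_cube (y : ℝ) : pw y ^ 3 = y ^ 2 := by
  rw [pw, ← rpow_natCast, ← rpow_mul (abs_nonneg y), ← sq_abs y, ← rpow_natCast]
  norm_num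

lemma pw_scale (u y : ℝ) : pw (u ^ 6 * y) = u ^ 4 * pw y := by
  refine (pow_left_inj₀ (pw_nonneg _) (mul_nonneg (by positivity) (pw_nonneg _))
    three_ne_zero).1 ?_
  rw [mul_pow, pw_cube, pw_cube]; ring

lemma amgm (r u y : ℝ) : 2 * |r| * (u ^ 2 * |y|) ≤ pw y * vw (r, u ^ 6 * y) := by
  rw [vw_eq, pw_scale]
  have h0 := pw_nonneg y
  refine le_of_sq_le_sq ?_ (by positivity)
  have h1 : (2 * |r| * (u ^ 2 * |y|)) ^ 2 = pw y ^ 2 * (4 * r ^ 2 * (u ^ 4 * pw y)) := by
    rw [mul_pow, mul_pow, mul_pow, sq_abs, sq_abs, ← pw_cube y]; ring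
  rw [h1, mul_pow]
  exact mul_le_mul_of_nonneg_left (by nlinarith [sq_nonneg (r ^ 2 - u ^ 4 * pw y)]) (by positivity)

lemma vert {f z : ℝ → ℝ} {M : ℝ} (hz : Measurable z) (hM : ∀ s, |z s| ≤ M)
    (hf : ∀ y y', f y - f y' = ∫ s in y'..y, z s) (y : ℝ) :
    pw y * f y - pw y * ∫ u in (0 : ℝ)..1, 4 * u ^ 3 * f (u ^ 6 * y) =
      ∫ s in (0 : ℝ)..y, pw s * z s := by
  have hz' : ∀ a b, IntervalIntegrable z volume a b := fun a b => ii hz fun t _ => hM t
  have hfc : Continuous f := by
    have : f = fun y => f 0 + ∫ s in (0 : ℝ)..y, z s := funext fun y => by linarith [hf y 0]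
    rw [this]
    exact continuous_const.add (intervalIntegral.continuous_primitive hz' 0)
  have hk : IntervalIntegrable (fun t : ℝ => z (t ^ 6 * y) * (6 * t ^ 5 * y)) volume 0 1 :=
    (ii (M := M) (by fun_prop) fun t _ => hM _).mul_continuousOn (by fun_prop)
  have h1 := prod_rule (a := fun t => t ^ 4) (a' := fun t => 4 * t ^ 3)
    (b := fun t => f (t ^ 6 * y)) (u := 0) (v := 1) (by fun_prop)
    (fun t => by simpa using hasDerivAt_pow 4 t) hk fun t ht => by
      rw [uIcc_of_le zero_le_one] at ht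
      rw [cov z y ht.1, ← hf]; simp
  rw [intervalIntegral.integral_add (Continuous.intervalIntegrable (by fun_prop) _ _)
    (hk.continuousOn_mul (by fun_prop))] at h1
  have h2 := cov (fun s => pw s * z s) y zero_le_one
  simp only [one_pow, one_mul] at h1 h2
  rw [← h2, ← mul_sub, show f y - ∫ u in (0 : ℝ)..1, 4 * u ^ 3 * f (u ^ 6 * y) =
    ∫ t in (0 : ℝ)..1, t ^ 4 * (z (t ^ 6 * y) * (6 * t ^ 5 * y)) by linarith,
    ← intervalIntegral.integral_const_mul]
  refine intervalIntegral.integral_congr fun t _ => ?_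
  simp only [pw_scale]; ring

lemma meas_int {φ : P × ℝ → ℝ} (h : Measurable φ) :
    Measurable fun p => ∫ u in (0 : ℝ)..1, φ (p, u) := by
  simp_rw [intervalIntegral.integral_of_le zero_le_one]
  exact (h.stronglyMeasurable.integral_prod_right' (ν := volume.restrict (Ioc 0 1))).measurable

/-- The Hardy operator. -/
noncomputable def H (f : P → ℝ) (p : P) : ℝ := ∫ u in (0 : ℝ)..1, 6 * u ^ 3 * |f (p.1, u ^ 6 * p.2)|

lemma H_meas {f : P → ℝ} (hf : Measurable f) : Measurable (H f) :=
  meas_int (φ := fun q => 6 * q.2 ^ 3 * |f (q.1.1, q.2 ^ 6 * q.1.2)|) (by fun_prop)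

lemma H_nonneg (f : P → ℝ) (p : P) : 0 ≤ H f p :=
  intervalIntegral.integral_nonneg zero_le_one fun u hu => by have := hu.1; positivity

lemma wb {u a M : ℝ} (hu : u ∈ uIoc (0 : ℝ) 1) (ha : |a| ≤ M) : abs (6 * u ^ 3 * |a|) ≤ 6 * M := by
  obtain ⟨h0, h1⟩ := u01 hu
  rw [abs_of_nonneg (by positivity), mul_assoc]
  exact mul_le_mul_of_nonneg_left ((mul_le_of_le_one_left (abs_nonneg a)
    (pow_le_one₀ h0 h1)).trans ha) (by norm_num)

lemma H_le {f : P → ℝ} {M : ℝ} (hM : ∀ p, |f p| ≤ M) (p : P) : H f p ≤ 6 * M := by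
  have := intervalIntegral.norm_integral_le_of_norm_le_const (a := 0) (b := 1) (C := 6 * M)
    (f := fun u : ℝ => 6 * u ^ 3 * |f (p.1, u ^ 6 * p.2)|) fun u hu => wb hu (hM _)
  unfold H
  exact (le_abs_self _).trans (by simpa using this)

lemma H_int {f : P → ℝ} (hf : Measurable f) {M : ℝ} (hM : ∀ p, |f p| ≤ M) (p : P) :
    IntervalIntegrable (fun u : ℝ => 6 * u ^ 3 * |f (p.1, u ^ 6 * p.2)|) volume 0 1 :=
  ii (by fun_prop) fun u hu => wb hu (hM _)

lemma cs {h : ℝ → ℝ} (h1 : IntervalIntegrable h volume 0 1)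
    (h2 : IntervalIntegrable (fun u => h u ^ 2) volume 0 1) :
    (∫ u in (0 : ℝ)..1, h u) ^ 2 ≤ ∫ u in (0 : ℝ)..1, h u ^ 2 := by
  set c := ∫ u in (0 : ℝ)..1, h u with hc
  have := intervalIntegral.integral_mono_on zero_le_one ((h1.const_mul (2 * c)).sub
    (intervalIntegrable_const (c := c ^ 2))) h2 fun u _ => by nlinarith [sq_nonneg (h u - c)]
  rw [intervalIntegral.integral_sub (h1.const_mul _) intervalIntegrable_const,
    intervalIntegral.integral_const_mul, ← hc] at this
  simp at this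
  linarith

lemma Box_meas : MeasurableSet Box := Metric.isClosed_closedBall.measurableSet
lemma Box_fin : volume Box ≠ ⊤ := (isCompact_closedBall (0 : P) 2).measure_lt_top.ne

lemma sqb {a M : ℝ} (h : |a| ≤ M) : |a ^ 2| ≤ M ^ 2 := by
  rw [abs_pow]; exact pow_le_pow_left₀ (abs_nonneg _) h 2

lemma scale {f : P → ℝ} (hf : Measurable f) {M : ℝ} (hM : ∀ p, |f p| ≤ M) {c : ℝ} (h0 : 0 ≤ c)
    (h1 : c ≤ 1) : ∫ p in Box, c * f (p.1, c * p.2) ^ 2 ≤ ∫ p in Box, f p ^ 2 := by
  have a : IntegrableOn (fun p : P => c * f (p.1, c * p.2) ^ 2) Box :=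
    (io Box_meas Box_fin (by fun_prop) fun p _ => sqb (hM _)).const_mul c
  have b : IntegrableOn (fun p : P => f p ^ 2) Box :=
    io Box_meas Box_fin (by fun_prop) fun p _ => sqb (hM _)
  rw [Box_eq, Measure.volume_eq_prod] at a b ⊢
  rw [setIntegral_prod _ a, setIntegral_prod _ b]
  rw [IntegrableOn, ← Measure.prod_restrict] at b
  refine integral_mono_of_nonneg (ae_of_all _ fun x => integral_nonneg fun y => by positivity)
    b.integral_prod_left (ae_of_all _ fun x => ?_)
  simp only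
  rw [integral_Icc_eq_integral_Ioc, integral_Icc_eq_integral_Ioc,
    ← intervalIntegral.integral_of_le (by norm_num), ← intervalIntegral.integral_of_le (by norm_num),
    intervalIntegral.integral_const_mul,
    intervalIntegral.mul_integral_comp_mul_left (f := fun y => f (x, y) ^ 2)]
  exact intervalIntegral.integral_mono_interval (by linarith) (by linarith) (by linarith)
    (ae_of_all _ fun y => by positivity) (ii (by fun_prop) fun y _ => sqb (hM _))

lemma hardy {f : P → ℝ} (hf : Measurable f) {M : ℝ} (hM : ∀ p, |f p| ≤ M) :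
    ∫ p in Box, H f p ^ 2 ≤ 36 * ∫ p in Box, f p ^ 2 := by
  have a : Integrable (Function.uncurry fun (u : ℝ) (p : P) =>
      (6 * u ^ 3 * |f (p.1, u ^ 6 * p.2)|) ^ 2)
      ((volume.restrict (uIoc 0 1)).prod (volume.restrict Box)) := by
    rw [Measure.prod_restrict]
    refine io (M := (6 * M) ^ 2) (measurableSet_uIoc.prod Box_meas) ?_ (by fun_prop)
      fun q hq => sqb (wb hq.1 (hM _))
    rw [Measure.prod_prod]
    exact ENNReal.mul_ne_top (uIoc_fin _ _) Box_fin
  calc _ ≤ ∫ p in Box, ∫ u in (0 : ℝ)..1, (6 * u ^ 3 * |f (p.1, u ^ 6 * p.2)|) ^ 2 := by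
        refine integral_mono_of_nonneg (ae_of_all _ fun p => sq_nonneg _) ?_
          (ae_of_all _ fun p => cs (H_int hf hM p)
            (ii (by fun_prop) fun u hu => sqb (wb hu (hM _))))
        simp_rw [intervalIntegral.integral_of_le zero_le_one]
        rw [uIoc_of_le zero_le_one] at a
        exact a.integral_prod_right
    _ = ∫ u in (0 : ℝ)..1, ∫ p in Box, (6 * u ^ 3 * |f (p.1, u ^ 6 * p.2)|) ^ 2 :=
        (intervalIntegral_integral_swap a).symm
    _ ≤ _ := by
        have := intervalIntegral.norm_integral_le_of_norm_le_const (a := 0) (b := 1)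
          (C := 36 * ∫ p in Box, f p ^ 2)
          (f := fun u : ℝ => ∫ p in Box, (6 * u ^ 3 * |f (p.1, u ^ 6 * p.2)|) ^ 2) fun u hu => by
            obtain ⟨h0, h1⟩ := u01 hu
            rw [Real.norm_of_nonneg (integral_nonneg fun p => sq_nonneg _)]
            refine le_trans (le_of_eq ?_) (mul_le_mul_of_nonneg_left
              (scale hf hM (c := u ^ 6) (by positivity) (pow_le_one₀ h0 h1)) (by norm_num))
            rw [← integral_const_mul]
            congr 1; funext p
            rw [mul_pow, sq_abs]; ring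
        exact (le_abs_self _).trans (by simpa using this)

lemma ae_scale {q : ℝ → Prop} (h : ∀ᵐ y, q y) : ∀ᵐ y : ℝ, ∀ᵐ u : ℝ, q (u ^ 6 * y) := by
  obtain ⟨N, hN, hm, h0⟩ := exists_measurable_superset_of_null (ae_iff.1 h)
  have h1 : ∀ᵐ u : ℝ, ∀ᵐ y : ℝ, u ^ 6 * y ∉ N := by
    filter_upwards [show ∀ᵐ u : ℝ, u ≠ 0 by simp [ae_iff]] with u hu
    have := Real.volume_preimage_mul_left (pow_ne_zero 6 hu) N
    rw [h0, mul_zero] at this
    exact measure_eq_zero_iff_ae_notMem.1 this
  have h2 := (Measure.ae_ae_comm (p := fun u y : ℝ => u ^ 6 * y ∉ N)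
    ((show Measurable fun z : ℝ × ℝ => z.1 ^ 6 * z.2 by fun_prop) hm.compl)).1 h1
  filter_upwards [h2] with y hy
  filter_upwards [hy] with u hu
  by_contra hc
  exact hu (hN hc)

lemma term1 {ζ : P → ℝ} (hζ : Measurable ζ) {M : ℝ} (hM : ∀ p, |vw p * ζ p| ≤ M) (r y : ℝ) :
    |2 * r * ∫ s in (0 : ℝ)..y, ζ (r, s)| ≤ pw y * H (fun p => vw p * ζ p) (r, y) := by
  have h := cov (fun s => ζ (r, s)) y zero_le_one
  simp only [one_pow, one_mul] at h
  rw [← h, ← intervalIntegral.integral_const_mul, H, ← intervalIntegral.integral_const_mul]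
  rw [← Real.norm_eq_abs]
  refine intervalIntegral.norm_integral_le_of_norm_le zero_le_one (ae_of_all _ fun u hu => ?_)
    ((H_int (f := fun p => vw p * ζ p) (continuous_vw.measurable.mul hζ) hM (r, y)).const_mul _)
  have h0 := hu.1.le
  have := mul_le_mul_of_nonneg_right (amgm r u y)
    (show 0 ≤ 6 * u ^ 3 * |ζ (r, u ^ 6 * y)| by positivity)
  simp only [Real.norm_eq_abs, abs_mul, abs_of_nonneg (vw_nonneg _), abs_pow, abs_of_nonneg h0,
    abs_two, Nat.abs_ofNat]
  nlinarith

lemma term3 {om : P → ℝ} (ho : Measurable om) {M : ℝ} (hM : ∀ p, |om p| ≤ M) (p : P) :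
    |∫ u in (0 : ℝ)..1, 4 * u ^ 3 * om (p.1, u ^ 6 * p.2)| ≤ H om p := by
  rw [← Real.norm_eq_abs]
  refine intervalIntegral.norm_integral_le_of_norm_le zero_le_one (ae_of_all _ fun u hu => ?_)
    (H_int ho hM p)
  have h0 := hu.1.le
  simp only [Real.norm_eq_abs, abs_mul, abs_pow, abs_of_nonneg h0, Nat.abs_ofNat]
  have : 0 ≤ u ^ 3 * |om (p.1, u ^ 6 * p.2)| := by positivity
  nlinarith

end HOR

open HOR in
theorem blk_HOR (hS : St_STREAM) : St_HOR := by
  intro B ζ om hW
  obtain ⟨F, hF, hv, hh⟩ := hS B ζ om hW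
  obtain ⟨hζ, ho, hB, hsupp, -⟩ := hW
  have hB0 : 0 ≤ B := (abs_nonneg _).trans (hB 0).1
  have hoB : ∀ p, |om p| ≤ B := fun p => (hB p).2
  have hwm : Measurable fun p => vw p * ζ p := continuous_vw.measurable.mul hζ
  have hw : ∀ p, |vw p * ζ p| ≤ 6 * B := fun p => by
    by_cases hp : p ∈ Box
    · rw [abs_mul, abs_of_nonneg (vw_nonneg p)]
      exact mul_le_mul (vw_le (mem_Box.1 hp)) (hB p).1 (abs_nonneg _) (by norm_num)
    · rw [(hsupp p hp).1, mul_zero, abs_zero]; positivity
  have hσm : Measurable fun p => |om p| + H (fun p => vw p * ζ p) p + H om p :=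
    (ho.abs.add (H_meas hwm)).add (H_meas ho)
  have hσ : ∀ p, 0 ≤ |om p| + H (fun p => vw p * ζ p) p + H om p ∧
      |om p| + H (fun p => vw p * ζ p) p + H om p ≤ B + 6 * (6 * B) + 6 * B := fun p =>
    ⟨add_nonneg (add_nonneg (abs_nonneg _) (H_nonneg _ _)) (H_nonneg _ _),
      add_le_add (add_le_add (hoB p) (H_le hw p)) (H_le hoB p)⟩
  refine ⟨fun p => vw p * F p - pw p.2 * (∫ u in (0 : ℝ)..1, 4 * u ^ 3 * F (p.1, u ^ 6 * p.2)) -
      ∫ r in (0 : ℝ)..p.1, 2 * r * F (r, 0),
    fun p => |om p| + H (fun p => vw p * ζ p) p + H om p, _, ?_, hσm, hσ, ?_, ?_, ?_⟩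
  · refine ((continuous_vw.mul hF).sub ((continuous_pw.comp continuous_snd).mul ?_)).sub
      ((intervalIntegral.continuous_primitive (f := fun r => 2 * r * F (r, 0))
        (fun a b => Continuous.intervalIntegrable (by fun_prop) a b) 0).comp continuous_fst)
    exact intervalIntegral.continuous_parametric_intervalIntegral_of_continuous'
      (f := fun (p : P) (u : ℝ) => 4 * u ^ 3 * F (p.1, u ^ 6 * p.2)) (by
        unfold Function.uncurry; fun_prop) 0 1
  · filter_upwards [hv] with x hx y y'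
    have hz : Measurable fun s => ζ (x, s) := by fun_prop
    have h1 := vert (f := fun s => F (x, s)) hz (fun s => (hB _).1) hx
    have h2 : ∀ a b, IntervalIntegrable (fun s => ζ (x, s)) volume a b :=
      fun a b => ii hz fun t _ => (hB _).1
    have h3 : ∀ a b, IntervalIntegrable (fun s => pw s * ζ (x, s)) volume a b :=
      fun a b => (h2 a b).continuousOn_mul continuous_pw.continuousOn
    have h4 := intervalIntegral.integral_interval_sub_left (h3 0 y) (h3 0 y')
    simp only [vw_eq, add_mul]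
    rw [intervalIntegral.integral_add ((h2 _ _).const_mul _) (h3 _ _),
      intervalIntegral.integral_const_mul, ← hx, ← h4, ← h1, ← h1]
    ring
  · filter_upwards [hh, ae_scale hh] with y hy hu x x' hxx
    have hz : Measurable fun s => om (s, y) := by fun_prop
    have h2 : ∀ a b, IntervalIntegrable (fun s => om (s, y)) volume a b :=
      fun a b => ii hz fun t _ => hoB _
    have t1 := prod_rule (a := fun t => t ^ 2) (a' := fun t => 2 * t) (b := fun t => F (t, y))
      (k := fun t => -om (t, y)) (u := x') (v := x) (by fun_prop)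
      (fun t => by simpa using hasDerivAt_pow 2 t) (h2 _ _).neg fun t _ => by
        rw [intervalIntegral.integral_neg, ← hy]; ring
    have c0 : ∀ a b, IntervalIntegrable (fun r => 2 * r * F (r, 0)) volume a b :=
      fun a b => Continuous.intervalIntegrable (by fun_prop) a b
    have t4 := intervalIntegral.integral_interval_sub_left (c0 0 x) (c0 0 x')
    have t3 : (∫ u in (0 : ℝ)..1, 4 * u ^ 3 * F (x, u ^ 6 * y)) -
        ∫ u in (0 : ℝ)..1, 4 * u ^ 3 * F (x', u ^ 6 * y) =
        -∫ r in x'..x, ∫ u in (0 : ℝ)..1, 4 * u ^ 3 * om (r, u ^ 6 * y) := by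
      rw [← intervalIntegral.integral_sub (Continuous.intervalIntegrable (by fun_prop) _ _)
        (Continuous.intervalIntegrable (by fun_prop) _ _),
        intervalIntegral_intervalIntegral_swap, ← intervalIntegral.integral_neg]
      · refine intervalIntegral.integral_congr_ae ?_
        filter_upwards [hu] with u hu _
        rw [← mul_sub, hu, intervalIntegral.integral_const_mul, mul_neg]
      · refine io (M := 4 * B) (measurableSet_uIoc.prod measurableSet_uIoc) ?_ (by fun_prop)
          fun q hq => ?_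
        · rw [Measure.volume_eq_prod, Measure.prod_prod]
          exact ENNReal.mul_ne_top (uIoc_fin _ _) (uIoc_fin _ _)
        · obtain ⟨h0, h1⟩ := u01 hq.2
          have := mul_le_mul (pow_le_one₀ (n := 3) h0 h1) (hoB (q.1, q.2 ^ 6 * y)) (abs_nonneg _)
            zero_le_one
          simp only [Function.uncurry, abs_mul, abs_pow, abs_of_nonneg h0, Nat.abs_ofNat]
          linarith
    have hG : IntervalIntegrable (fun r => ∫ u in (0 : ℝ)..1, 4 * u ^ 3 * om (r, u ^ 6 * y))
        volume x' x :=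
      ii ((meas_int (φ := fun q => 4 * q.2 ^ 3 * om (q.1.1, q.2 ^ 6 * q.1.2)) (by fun_prop)).comp
        (show Measurable fun r : ℝ => ((r, y) : P) by fun_prop))
        fun r _ => (term3 ho hoB (r, y)).trans (H_le hoB _)
    have i1 : IntervalIntegrable (fun t => 2 * t * F (t, y) + t ^ 2 * -om (t, y)) volume x' x :=
      (Continuous.intervalIntegrable (by fun_prop) _ _).add
        ((h2 _ _).neg.continuousOn_mul (by fun_prop))
    have e : vw (x, y) * F (x, y) - pw y * (∫ u in (0 : ℝ)..1, 4 * u ^ 3 * F (x, u ^ 6 * y)) -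
        (∫ r in (0 : ℝ)..x, 2 * r * F (r, 0)) -
        (vw (x', y) * F (x', y) - pw y * (∫ u in (0 : ℝ)..1, 4 * u ^ 3 * F (x', u ^ 6 * y)) -
        ∫ r in (0 : ℝ)..x', 2 * r * F (r, 0)) =
        ∫ r in x'..x, (2 * r * F (r, y) + r ^ 2 * -om (r, y) - pw y * om (r, y) +
          pw y * (∫ u in (0 : ℝ)..1, 4 * u ^ 3 * om (r, u ^ 6 * y)) - 2 * r * F (r, 0)) := by
      rw [intervalIntegral.integral_sub ((i1.sub ((h2 _ _).const_mul _)).add (hG.const_mul _))
        (c0 _ _), intervalIntegral.integral_add (i1.sub ((h2 _ _).const_mul _)) (hG.const_mul _),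
        intervalIntegral.integral_sub i1 ((h2 _ _).const_mul _), ← t1, ← t4,
        intervalIntegral.integral_const_mul, intervalIntegral.integral_const_mul, vw_eq, vw_eq]
      linear_combination pw y * hy x x' - pw y * t3
    rw [e, ← Real.norm_eq_abs]
    refine intervalIntegral.norm_integral_le_of_norm_le hxx ?_
      ((ii (M := B + 6 * (6 * B) + 6 * B) (hσm.comp
        (show Measurable fun r : ℝ => ((r, y) : P) by fun_prop)) fun r _ =>
          (abs_of_nonneg (hσ _).1).trans_le (hσ _).2).continuousOn_mul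
        (continuous_vw.comp (by fun_prop : Continuous fun r : ℝ => ((r, y) : P))).continuousOn)
    filter_upwards [hv] with r hr _
    have a1 := term1 hζ hw r y
    rw [← hr] at a1
    have a3 := mul_le_mul_of_nonneg_left (term3 ho hoB (r, y)) (pw_nonneg y)
    rw [← abs_of_nonneg (pw_nonneg y), ← abs_mul, abs_of_nonneg (pw_nonneg y)] at a3
    have a2 : |vw (r, y) * om (r, y)| = vw (r, y) * |om (r, y)| := by
      rw [abs_mul, abs_of_nonneg (vw_nonneg _)]
    have b1 := mul_nonneg (sq_nonneg r) (H_nonneg (fun p => vw p * ζ p) (r, y))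
    have b2 := mul_nonneg (sq_nonneg r) (H_nonneg om (r, y))
    rw [vw_eq] at a2 ⊢
    rw [Real.norm_eq_abs, abs_le]
    have := abs_le.1 a1
    have := abs_le.1 a3
    have := abs_le.1 a2.le
    constructor <;> nlinarith
  · have i1 : IntegrableOn (fun p => om p ^ 2) Box :=
      io Box_meas Box_fin (by fun_prop) fun p _ => sqb (hoB _)
    have i2 : IntegrableOn (fun p => H (fun p => vw p * ζ p) p ^ 2) Box :=
      io Box_meas Box_fin ((H_meas hwm).pow_const 2) fun p _ =>
        sqb ((abs_of_nonneg (H_nonneg _ _)).trans_le (H_le hw p))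
    have i3 : IntegrableOn (fun p => H om p ^ 2) Box :=
      io Box_meas Box_fin ((H_meas ho).pow_const 2) fun p _ =>
        sqb ((abs_of_nonneg (H_nonneg _ _)).trans_le (H_le hoB p))
    have h1 := integral_mono_of_nonneg (μ := volume.restrict Box)
      (f := fun p => (|om p| + H (fun p => vw p * ζ p) p + H om p) ^ 2)
      (ae_of_all _ fun p => sq_nonneg _) (((i1.add i2).add i3).const_mul 3)
      (ae_of_all _ fun p => by
        simp only [Pi.add_apply]
        rw [← sq_abs (om p)]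
        nlinarith [sq_nonneg (|om p| - H (fun p => vw p * ζ p) p), sq_nonneg (|om p| - H om p),
          sq_nonneg (H (fun p => vw p * ζ p) p - H om p)])
    simp only [Pi.add_apply] at h1
    rw [integral_const_mul, integral_add (f := fun p => om p ^ 2 + H (fun p => vw p * ζ p) p ^ 2)
      (μ := volume.restrict Box) (Integrable.add i1 i2) i3, integral_add i1 i2] at h1
    have h2 := hardy hwm hw
    have h3 := hardy ho hoB
    have h4 : 0 ≤ ∫ p in Box, om p ^ 2 := integral_nonneg fun p => sq_nonneg _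
    have h5 : 0 ≤ ∫ p in Box, (vw p * ζ p) ^ 2 := integral_nonneg fun p => sq_nonneg _
    linarith

end Pool.Agent.Lib.MP_f62ea7_gt
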