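import Pool.Agent.Lib.MP_f62ea7_gt.Basic

set_option autoImplicit false

open MeasureTheory Set Filter Topology Real
open scoped ContDiff ENNReal

namespace Pool.Agent.Lib.MP_f62ea7_gt

namespace HP

/-- angular velocity -/
noncomputable def av (p q : P) : ℝ := (p.2 * q.1 - p.1 * q.2) / (p.1 ^ 2 + p.2 ^ 2)
/-- radial velocity -/
noncomputable def rv (p q : P) : ℝ := (p.1 * q.1 + p.2 * q.2) / (p.1 ^ 2 + p.2 ^ 2)

lemma den_pos {p : P} (hp : p ≠ 0) : 0 < p.1 ^ 2 + p.2 ^ 2 := by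
  have h1 := norm_sq_le p
  have h2 : 0 < ‖p‖ ^ 2 := pow_pos (norm_pos_iff.2 hp) 2
  linarith

lemma cont_av {X : Type} [TopologicalSpace X] {c d : X → P} (hc : Continuous c) (hd : Continuous d)
    (h0 : ∀ x, c x ≠ 0) : Continuous fun x => av (c x) (d x) :=
  Continuous.div (by fun_prop) (by fun_prop) fun x => (den_pos (h0 x)).ne'

lemma cont_rv {X : Type} [TopologicalSpace X] {c d : X → P} (hc : Continuous c) (hd : Continuous d)
    (h0 : ∀ x, c x ≠ 0) : Continuous fun x => rv (c x) (d x) :=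
  Continuous.div (by fun_prop) (by fun_prop) fun x => (den_pos (h0 x)).ne'

lemma prim {a : ℝ → ℝ} (ha : Continuous a) (t : ℝ) :
    HasDerivAt (fun u => ∫ s in (0 : ℝ)..u, a s) (a t) t :=
  (ha.integral_hasStrictDerivAt 0 t).hasDerivAt

/-- polar form of a curve avoiding the origin -/
lemma polar {c d : ℝ → P} (hc : ∀ t, HasDerivAt c (d t) t) (hd : Continuous d) (h0 : ∀ t, c t ≠ 0)
    (t : ℝ) : ∃ r : ℝ, 0 < r ∧
      (c t).1 = r * ((c 0).1 * cos (∫ s in (0 : ℝ)..t, av (c s) (d s))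
        + (c 0).2 * sin (∫ s in (0 : ℝ)..t, av (c s) (d s))) ∧
      (c t).2 = r * (-(c 0).1 * sin (∫ s in (0 : ℝ)..t, av (c s) (d s))
        + (c 0).2 * cos (∫ s in (0 : ℝ)..t, av (c s) (d s))) := by
  have hcc : Continuous c := continuous_iff_continuousAt.2 fun t => (hc t).continuousAt
  have hA := prim (cont_av hcc hd h0)
  have hB := prim (cont_rv hcc hd h0)
  set A : ℝ → ℝ := fun u => ∫ s in (0 : ℝ)..u, av (c s) (d s) with hAd
  set B : ℝ → ℝ := fun u => ∫ s in (0 : ℝ)..u, rv (c s) (d s) with hBd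
  have h1 : ∀ t, HasDerivAt (fun u => (c u).1) (d t).1 t := fun t =>
    (ContinuousLinearMap.fst ℝ ℝ ℝ).hasFDerivAt.comp_hasDerivAt t (hc t)
  have h2 : ∀ t, HasDerivAt (fun u => (c u).2) (d t).2 t := fun t =>
    (ContinuousLinearMap.snd ℝ ℝ ℝ).hasFDerivAt.comp_hasDerivAt t (hc t)
  have e1 : ∀ t, (d t).1 = rv (c t) (d t) * (c t).1 + av (c t) (d t) * (c t).2 := fun t => by
    have := (den_pos (h0 t)).ne'
    unfold rv av; field_simp; ring
  have e2 : ∀ t, (d t).2 = rv (c t) (d t) * (c t).2 - av (c t) (d t) * (c t).1 := fun t => by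
    have := (den_pos (h0 t)).ne'
    unfold rv av; field_simp; ring
  have k1 : ∀ t, HasDerivAt
      (fun u => exp (-B u) * ((c u).1 * cos (A u) - (c u).2 * sin (A u))) 0 t := fun t => by
    have := ((hB t).neg.exp).mul (((h1 t).mul (hA t).cos).sub ((h2 t).mul (hA t).sin))
    refine this.congr_deriv ?_
    rw [e1 t, e2 t]
    simp only [Pi.neg_apply, Pi.mul_apply, Pi.sub_apply]
    generalize rv (c t) (d t) = x, av (c t) (d t) = y
    ring
  have k2 : ∀ t, HasDerivAt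
      (fun u => exp (-B u) * ((c u).1 * sin (A u) + (c u).2 * cos (A u))) 0 t := fun t => by
    have := ((hB t).neg.exp).mul (((h1 t).mul (hA t).sin).add ((h2 t).mul (hA t).cos))
    refine this.congr_deriv ?_
    rw [e1 t, e2 t]
    simp only [Pi.neg_apply, Pi.mul_apply, Pi.add_apply]
    generalize rv (c t) (d t) = x, av (c t) (d t) = y
    ring
  have c1 := is_const_of_deriv_eq_zero (fun t => (k1 t).differentiableAt) (fun t => (k1 t).deriv) t 0
  have c2 := is_const_of_deriv_eq_zero (fun t => (k2 t).differentiableAt) (fun t => (k2 t).deriv) t 0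
  have a0 : A 0 = 0 := by simp [hAd]
  have b0 : B 0 = 0 := by simp [hBd]
  simp only [a0, b0, neg_zero, exp_zero, cos_zero, sin_zero, mul_one, mul_zero, one_mul, sub_zero,
    zero_add] at c1 c2
  have hx : exp (B t) * exp (-B t) = 1 := by rw [← exp_add]; simp
  have hs := sin_sq_add_cos_sq (A t)
  refine ⟨exp (B t), exp_pos _, ?_, ?_⟩
  · change _ = exp (B t) * ((c 0).1 * cos (A t) + (c 0).2 * sin (A t))
    rw [← c1, ← c2]
    linear_combination (-(c t).1) * hx - exp (B t) * exp (-B t) * (c t).1 * hs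
  · change _ = exp (B t) * (-(c 0).1 * sin (A t) + (c 0).2 * cos (A t))
    rw [← c1, ← c2]
    linear_combination (-(c t).2) * hx - exp (B t) * exp (-B t) * (c t).2 * hs

lemma lo_le {a : ℝ → ℝ} (ha : Continuous a) {lo T : ℝ} (hT : 0 ≤ T) (h : ∀ t, lo ≤ a t) :
    lo * T ≤ ∫ s in (0 : ℝ)..T, a s := by
  have := intervalIntegral.integral_mono_on (μ := volume) (f := fun _ => lo) (g := a) hT
    (by simp) (ha.intervalIntegrable _ _) fun t _ => h t
  simpa [mul_comm] using this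

lemma le_hi {a : ℝ → ℝ} (ha : Continuous a) {hi T : ℝ} (hT : 0 ≤ T) (h : ∀ t, a t ≤ hi) :
    ∫ s in (0 : ℝ)..T, a s ≤ hi * T := by
  have := intervalIntegral.integral_mono_on (μ := volume) (g := fun _ => hi) (f := a) hT
    (ha.intervalIntegrable _ _) (by simp) fun t _ => h t
  simpa [mul_comm] using this

lemma smono {a : ℝ → ℝ} (ha : Continuous a) (h : ∀ t, 0 < a t) :
    StrictMono fun u => ∫ s in (0 : ℝ)..u, a s :=
  strictMono_of_hasDerivAt_pos (prim ha) h

lemma exists_root {a : ℝ → ℝ} (ha : Continuous a) {lo : ℝ} (hlo : 0 < lo) (h : ∀ t, lo ≤ a t) :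
    ∃ T, 0 < T ∧ ∫ s in (0 : ℝ)..T, a s = π := by
  have hc : Continuous fun u => ∫ s in (0 : ℝ)..u, a s :=
    continuous_iff_continuousAt.2 fun t => (prim ha t).continuousAt
  have hp : 0 ≤ π / lo := by positivity
  have h1 := lo_le ha hp h
  rw [mul_div_cancel₀ _ hlo.ne'] at h1
  obtain ⟨T, hT, hT2⟩ := intermediate_value_Icc hp hc.continuousOn
    (show π ∈ Icc _ _ from ⟨by simpa using pi_pos.le, h1⟩)
  refine ⟨T, hT.1.lt_of_ne ?_, hT2⟩
  rintro rfl
  simp at hT2
  exact pi_pos.ne hT2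

end HP

open HP in
theorem blk_HP : St_HP := by
  intro E _ _ _ Ω c d hΩ hsm hder h0 hlo
  have hO : IsOpen (Ω ×ˢ (univ : Set ℝ)) := hΩ.prod isOpen_univ
  have hat : ∀ e ∈ Ω, ∀ t, ContDiffAt ℝ ∞ (fun q : E × ℝ => c q.1 q.2) (e, t) := fun e he t =>
    hsm.contDiffAt (hO.mem_nhds ⟨he, trivial⟩)
  have hd : ∀ e ∈ Ω, ∀ t, d e t = fderiv ℝ (fun q : E × ℝ => c q.1 q.2) (e, t) (0, 1) := by
    intro e he t
    have h1 := ((hat e he t).differentiableAt (by simp)).hasFDerivAt.comp_hasDerivAt t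
      ((hasDerivAt_const t e).prodMk (hasDerivAt_id t))
    exact (hder e he t).unique h1
  have hm : Continuous fun q : Ω × ℝ => ((q.1 : E), q.2) := by fun_prop
  have hcc : Continuous fun q : Ω × ℝ => c q.1 q.2 :=
    hsm.continuousOn.comp_continuous hm fun q => ⟨q.1.2, trivial⟩
  have hdc : Continuous fun q : Ω × ℝ => d q.1 q.2 := by
    have h1 := (hsm.continuousOn_fderiv_of_isOpen hO (by simp)).comp_continuous hm
      fun q => ⟨q.1.2, trivial⟩
    refine (h1.clm_apply (continuous_const (y := ((0, 1) : E × ℝ)))).congr fun q => ?_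
    exact (hd q.1 q.1.2 q.2).symm
  have hac : Continuous fun q : Ω × ℝ => av (c q.1 q.2) (d q.1 q.2) :=
    cont_av hcc hdc fun q => h0 _ q.1.2 _
  have ha1 : ∀ e ∈ Ω, Continuous fun t => av (c e t) (d e t) := fun e he =>
    hac.comp (f := fun t : ℝ => ((⟨e, he⟩ : Ω), t)) (by fun_prop)
  have hd1 : ∀ e ∈ Ω, Continuous (d e) := fun e he =>
    hdc.comp (f := fun t : ℝ => ((⟨e, he⟩ : Ω), t)) (by fun_prop)
  have hl : ∀ e ∈ Ω, ∀ lo t, lo * ((c e t).1 ^ 2 + (c e t).2 ^ 2) ≤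
      (c e t).2 * (d e t).1 - (c e t).1 * (d e t).2 → lo ≤ av (c e t) (d e t) :=
    fun e he lo t h => (le_div_iff₀ (den_pos (h0 e he t))).2 h
  have hpos : ∀ e ∈ Ω, ∀ t, 0 < av (c e t) (d e t) := fun e he t => by
    obtain ⟨lo, h1, h2⟩ := hlo e he
    exact h1.trans_le (hl e he lo t (h2 t))
  set A : E → ℝ → ℝ := fun e u => ∫ s in (0 : ℝ)..u, av (c e s) (d e s) with hA
  have hex : ∀ e, ∃ T, e ∈ Ω → 0 < T ∧ A e T = π := fun e => by
    by_cases he : e ∈ Ω
    · obtain ⟨lo, h1, h2⟩ := hlo e he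
      obtain ⟨T, hT⟩ := exists_root (ha1 e he) h1 fun t => hl e he lo t (h2 t)
      exact ⟨T, fun _ => hT⟩
    · exact ⟨0, fun h => absurd h he⟩
  choose T hT using hex
  have hsA : ∀ e ∈ Ω, StrictMono (A e) := fun e he => smono (ha1 e he) (hpos e he)
  have hAc : ∀ e ∈ Ω, ∀ u, ContinuousAt (fun e => A e u) e := fun e he u => by
    have h1 : Continuous fun e : Ω => A e u :=
      intervalIntegral.continuous_parametric_intervalIntegral_of_continuous'
        (f := fun (e : Ω) s => av (c e s) (d e s)) hac 0 u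
    exact (continuousOn_iff_continuous_restrict.2 h1).continuousAt (hΩ.mem_nhds he)
  have hhalf : ∀ e ∈ Ω, ∃ r : ℝ, 0 < r ∧ c e (T e) = -(r • c e 0) := fun e he => by
    obtain ⟨r, hr, h1, h2⟩ := polar (hder e he) (hd1 e he) (h0 e he) (T e)
    have h3 : ∫ s in (0 : ℝ)..T e, av (c e s) (d e s) = π := (hT e he).2
    rw [h3] at h1 h2
    refine ⟨r, hr, Prod.ext ?_ ?_⟩
    · rw [h1]; simp
    · rw [h2]; simp
  have hTc : ∀ e ∈ Ω, ContinuousAt T e := fun e he => by
    have h1 : π < A e (T e + 1) := (hT e he).2 ▸ hsA e he (lt_add_one _)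
    refine mono_cont (f := fun e u => A e u - π) (a := 0) (b := T e + 1)
      (fun u _ => (hAc e he u).sub continuousAt_const) ?_ ?_ ?_
    · filter_upwards [hΩ.mem_nhds he] with x hx u _ v _ huv
      exact sub_le_sub_right ((hsA x hx).monotone huv) _
    · exact fun u _ v _ huv => sub_lt_sub_right (hsA e he huv) _
    · filter_upwards [hΩ.mem_nhds he, (hAc e he _).eventually (lt_mem_nhds h1)] with x hx h2
      refine ⟨⟨(hT x hx).1.le, ?_⟩, sub_eq_zero.2 (hT x hx).2⟩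
      exact ((hsA x hx).lt_iff_lt.1 ((hT x hx).2.symm ▸ h2)).le
  refine ⟨T, fun e he => ContDiffAt.contDiffWithinAt ?_, fun e he => ⟨(hT e he).1, hhalf e he,
    fun t ht0 ht r hr hc => ?_, fun lo h => ?_, fun hi h => ?_⟩⟩
  · have z0 : ∀ x ∈ Ω, (c x 0).1 * (c x (T x)).2 - (c x 0).2 * (c x (T x)).1 = 0 := fun x hx => by
      obtain ⟨r, -, h1⟩ := hhalf x hx
      rw [h1]; simp; ring
    have h1 : HasDerivAt (fun u => (c e u).1) (d e (T e)).1 (T e) :=
      (ContinuousLinearMap.fst ℝ ℝ ℝ).hasFDerivAt.comp_hasDerivAt _ (hder e he _)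
    have h2 : HasDerivAt (fun u => (c e u).2) (d e (T e)).2 (T e) :=
      (ContinuousLinearMap.snd ℝ ℝ ℝ).hasFDerivAt.comp_hasDerivAt _ (hder e he _)
    have h3 : ContDiffAt ℝ ∞ (fun q : E × ℝ => c q.1 0) (e, T e) :=
      ContDiffAt.comp (g := fun q : E × ℝ => c q.1 q.2) (f := fun q : E × ℝ => (q.1, (0 : ℝ))) _
        (hat e he 0) (by fun_prop)
    have h4 := hat e he (T e)
    refine ift (f := fun q : E × ℝ => (c q.1 0).1 * (c q.1 q.2).2 - (c q.1 0).2 * (c q.1 q.2).1)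
      ((h3.fst.mul h4.snd).sub (h3.snd.mul h4.fst))
      ((h2.const_mul (c e 0).1).sub (h1.const_mul (c e 0).2)) ?_ (hTc e he) ?_
    · obtain ⟨r, hr, h5⟩ := hhalf e he
      have h6 := (div_pos_iff_of_pos_right (den_pos (h0 e he (T e)))).1 (hpos e he (T e))
      rw [h5] at h6
      simp only [Prod.snd_neg, Prod.fst_neg, Prod.smul_fst, Prod.smul_snd, smul_eq_mul] at h6
      intro h7
      have : r * ((c e 0).1 * (d e (T e)).2 - (c e 0).2 * (d e (T e)).1) = 0 := by rw [h7]; simp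
      linarith
    · filter_upwards [hΩ.mem_nhds he] with x hx
      rw [z0 x hx, z0 e he]
  · obtain ⟨ρ, hρ, h1, h2⟩ := polar (hder e he) (hd1 e he) (h0 e he) t
    have h3 : 0 < A e t := by
      have := hsA e he ht0
      simpa [hA] using this
    have h4 : A e t < π := (hT e he).2 ▸ hsA e he ht
    have h5 := sin_pos_of_pos_of_lt_pi h3 h4
    change _ = ρ * ((c e 0).1 * cos (A e t) + (c e 0).2 * sin (A e t)) at h1
    change _ = ρ * (-(c e 0).1 * sin (A e t) + (c e 0).2 * cos (A e t)) at h2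
    rw [hc] at h1 h2
    simp only [Prod.snd_neg, Prod.fst_neg, Prod.smul_fst, Prod.smul_snd, smul_eq_mul] at h1 h2
    have h6 : ρ * sin (A e t) * ((c e 0).1 ^ 2 + (c e 0).2 ^ 2) = 0 := by
      linear_combination (c e 0).1 * h2 - (c e 0).2 * h1
    have h7 := mul_pos (mul_pos hρ h5) (den_pos (h0 e he 0))
    linarith
  · exact (lo_le (ha1 e he) (hT e he).1.le fun t => hl e he lo t (h t)).trans (hT e he).2.le
  · exact (hT e he).2.ge.trans (le_hi (ha1 e he) (hT e he).1.le fun t =>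
      (div_le_iff₀ (den_pos (h0 e he t))).2 (h t))

end Pool.Agent.Lib.MP_f62ea7_gt
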