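import Pool.Agent.Lib.MP_f62ea7_gt.Basic2

set_option autoImplicit false

open MeasureTheory Set Filter Topology Real
open scoped ContDiff ENNReal

namespace Pool.Agent.Lib.MP_f62ea7_gt

namespace INT0

/-- Cauchy-Schwarz on an interval -/
lemma cs {g : ℝ → ℝ} {α β : ℝ} (hab : α ≤ β) (h1 : IntervalIntegrable g volume α β)
    (h2 : IntervalIntegrable (fun s => g s ^ 2) volume α β) :
    (∫ s in α..β, g s) ^ 2 ≤ (β - α) * ∫ s in α..β, g s ^ 2 := by
  rcases hab.eq_or_lt with rfl | hlt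
  · simp
  have hp : 0 < β - α := sub_pos.2 hlt
  set I := ∫ s in α..β, g s with hI
  set Q := ∫ s in α..β, g s ^ 2 with hQ
  set μ := I / (β - α) with hμ
  have h3 : 0 ≤ ∫ s in α..β, (g s - μ) ^ 2 :=
    intervalIntegral.integral_nonneg hab fun _ _ => sq_nonneg _
  have h4 : ∫ s in α..β, (g s - μ) ^ 2 = Q - 2 * μ * I + (β - α) * μ ^ 2 := by
    have : (fun s => (g s - μ) ^ 2) = fun s => g s ^ 2 - 2 * μ * g s + μ ^ 2 := by
      ext s; ring
    rw [this, intervalIntegral.integral_add (h2.sub (h1.const_mul _)) intervalIntegrable_const,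
      intervalIntegral.integral_sub h2 (h1.const_mul _), intervalIntegral.integral_const_mul,
      intervalIntegral.integral_const, smul_eq_mul]
  have h5 : I = (β - α) * μ := by rw [hμ]; field_simp
  rw [h4] at h3
  have h6 : (β - α) * μ ^ 2 ≤ Q := by rw [h5] at h3; nlinarith
  calc I ^ 2 = (β - α) * ((β - α) * μ ^ 2) := by rw [h5]; ring
    _ ≤ (β - α) * Q := mul_le_mul_of_nonneg_left h6 hp.le

lemma cs_nice {M : Set P} {f : ℝ → P → ℝ} (hf : Nice M f) {a : P} (ha : a ∈ M) {α β : ℝ}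
    (h0 : 0 ≤ α) (hab : α ≤ β) (hπ : β ≤ π) :
    (∫ s in α..β, f s a) ^ 2 ≤ (β - α) * ∫ s in (0 : ℝ)..π, f s a ^ 2 := by
  have hα : α ∈ Icc 0 π := ⟨h0, hab.trans hπ⟩
  have hβ : β ∈ Icc 0 π := ⟨h0.trans hab, hπ⟩
  refine (cs hab (hf.intervalIntegrable ha hα hβ) ((hf.pow 2).intervalIntegrable ha hα hβ)).trans
    (mul_le_mul_of_nonneg_left ?_ (sub_nonneg.2 hab))
  exact intervalIntegral.integral_mono_interval h0 hab hπ (Eventually.of_forall fun _ => sq_nonneg _)
    ((hf.pow 2).intervalIntegrable ha zero_mem_Icc pi_mem_Icc)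

lemma sin_le {τ t : ℝ} (h0 : 0 < τ) (ht : t ∈ Icc τ (π - τ)) : sin τ ≤ sin t := by
  obtain ⟨h1, h2⟩ := ht
  have hp := pi_pos
  rcases le_total t (π / 2) with h | h
  · exact sin_le_sin_of_le_of_le_pi_div_two (by linarith) h h1
  · rw [← sin_pi_sub t]
    exact sin_le_sin_of_le_of_le_pi_div_two (by linarith) (by linarith) (by linarith)

variable {κ C : ℝ} {X : Geo} {η v : ℝ → P → P}

lemma E2_eq (h : Full κ C X) (hη : Adm X.M η v) :
    E2 X v = ∫ a in X.M, ∫ s in (0 : ℝ)..π, e2 X v s a ^ 2 :=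
  dbl_swap h.M_compact ((h.nice_e2 hη).pow 2)

lemma int_Ea (h : Full κ C X) (hη : Adm X.M η v) :
    IntegrableOn (fun a => ∫ s in (0 : ℝ)..π, e2 X v s a ^ 2) X.M :=
  ((h.nice_e2 hη).pow 2).integrableOn_timeIntegral h.M_compact zero_mem_Icc pi_mem_Icc

lemma E2_nonneg (h : Full κ C X) : 0 ≤ E2 X v := dbl_nonneg h.M_compact fun _ _ _ _ => sq_nonneg _

/-- near the end times the displacement is small -/
lemma ends_le (h : Full κ C X) (hη : Adm X.M η v) (he : Ends X η) {t : ℝ} (ht : t ∈ Icc 0 π) :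
    ∫ a in X.M, d2 X η t a ^ 2 ≤ t * E2 X v ∧ ∫ a in X.M, d2 X η t a ^ 2 ≤ (π - t) * E2 X v := by
  rw [E2_eq h hη, ← integral_const_mul, ← integral_const_mul]
  have hi := ((h.nice_d2 hη).pow 2).integrableOn h.M_compact ht
  constructor
  · refine setIntegral_mono_on hi ((int_Ea h hη).const_mul _) h.M_meas fun a ha => ?_
    have h1 := h.d2_ftc hη ha zero_mem_Icc ht
    have h2 := cs_nice (h.nice_e2 hη) ha le_rfl ht.1 ht.2
    rw [h1, (h.d_ends he ha).2.2.1, sub_zero, sub_zero] at h2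
    exact h2
  · refine setIntegral_mono_on hi ((int_Ea h hη).const_mul _) h.M_meas fun a ha => ?_
    have h1 := h.d2_ftc hη ha ht pi_mem_Icc
    have h2 := cs_nice (h.nice_e2 hη) ha ht.1 ht.2 le_rfl
    rw [h1, (h.d_ends he ha).2.2.2, zero_sub, neg_sq] at h2
    exact h2

/-- the square integral of the error -/
lemma ee_le (h : Full κ C X) (hη : Adm X.M η v) (h0 : ∀ a ∈ X.M, 0 ≤ Ia X η v a + Ja X η a)
    {η0 l K t : ℝ} (hη0 : 0 ≤ η0) (hl : 0 ≤ l) (hK : 0 ≤ K) (h1 : 0 ≤ t - l) (h2 : t + l ≤ π) :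
    ∫ a in X.M, ee X η v η0 l K t a ^ 2 ≤ 3 * η0 ^ 2 * (∫ a in X.M, d2 X η t a ^ 2) +
      24 * l * E2 X v + 3 * K ^ 2 * (II X η v + JJ X η) := by
  have ht : t ∈ Icc 0 π := ⟨by linarith, by linarith⟩
  obtain ⟨B, hB⟩ := h.ee_bdd hη hη0 hl hK h1 h2
  obtain ⟨B', hB'⟩ := h.mm_bdd hη
  have i1 := ((h.nice_d2 hη).pow 2).integrableOn h.M_compact ht
  have i2 := int_Ea h hη
  have i3 : IntegrableOn (fun a => mm X η v a ^ 2) X.M :=
    ((Nice.of_space (h.measurable_mm hη) hB').pow 2).integrableOn h.M_compact ht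
  have i0 : IntegrableOn (fun a => ee X η v η0 l K t a ^ 2) X.M :=
    ((Nice.of_space (h.measurable_ee hη η0 l K t) (B := B) fun a ha => by
      rw [abs_of_nonneg (hB a ha).1]; exact (hB a ha).2).pow 2).integrableOn h.M_compact ht
  have i4 : IntegrableOn (fun a => 3 * η0 ^ 2 * d2 X η t a ^ 2 +
      24 * l * ∫ s in (0 : ℝ)..π, e2 X v s a ^ 2) X.M := (i1.const_mul _).add (i2.const_mul _)
  rw [E2_eq h hη, ← h.integral_mm_sq hη h0, ← integral_const_mul, ← integral_const_mul,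
    ← integral_const_mul, ← integral_add (i1.const_mul _) (i2.const_mul _),
    ← integral_add i4 (i3.const_mul _)]
  refine setIntegral_mono_on i0 (i4.add (i3.const_mul _)) h.M_meas fun a ha => ?_
  have h3 := cs_nice (h.nice_e2 hη).abs ha h1 (by linarith : t - l ≤ t + l) h2
  simp only [sq_abs] at h3
  have h4 : t + l - (t - l) = 2 * l := by ring
  rw [h4] at h3
  unfold ee
  set w := ∫ s in (t - l)..(t + l), |e2 X v s a|
  set x := η0 * |d2 X η t a| with hx
  have hx2 : x ^ 2 = η0 ^ 2 * d2 X η t a ^ 2 := by rw [hx, mul_pow, sq_abs]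
  set z := K * mm X η v a with hz
  have hz2 : z ^ 2 = K ^ 2 * mm X η v a ^ 2 := by rw [hz, mul_pow]
  have h5 : (x + 2 * w + z) ^ 2 ≤ 3 * x ^ 2 + 12 * w ^ 2 + 3 * z ^ 2 := by
    nlinarith [sq_nonneg (x - 2 * w), sq_nonneg (x - z), sq_nonneg (2 * w - z)]
  rw [hx2, hz2] at h5
  linarith

end INT0

theorem blk_INT0 (hL : St_WL) (hE : St_EULL) : St_INT0 := by
  intro C θ hθ
  obtain ⟨CW, hCW, hL⟩ := hL
  have hπ3 := pi_gt_three
  have hπ4 := pi_lt_four
  refine ⟨min 1 (θ / 6), lt_min one_pos (by positivity), fun τ hτ hτ1 => ?_⟩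
  have hτa : τ ≤ 1 := hτ1.trans (min_le_left _ _)
  have hτb : τ ≤ θ / 6 := hτ1.trans (min_le_right _ _)
  have hsin : 0 < sin τ := sin_pos_of_pos_of_lt_pi hτ (by linarith)
  obtain ⟨CE, hCE, hE⟩ := hE C (θ / 6) (1 / sin τ) (by positivity)
  refine ⟨min (1 / (6 * CE + 1)) (θ / (576 * CE + 1)), lt_min (by positivity) (by positivity),
    fun η0 l K hη0 hη1 hl hlτ hlη hK => ?_⟩
  have hηa : η0 * (6 * CE + 1) ≤ 1 := by
    have := hη1.trans (min_le_left _ _)
    rwa [le_div_iff₀ (by positivity)] at this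
  have hηb : η0 * (576 * CE + 1) ≤ θ := by
    have := hη1.trans (min_le_right _ _)
    rwa [le_div_iff₀ (by positivity)] at this
  have hη1' : η0 ≤ 1 := by nlinarith
  have k1 : CE * (3 * η0 ^ 2) ≤ 1 / 2 := by
    have : η0 * CE ≤ 1 / 6 := by nlinarith
    nlinarith [mul_nonneg hη0.le hCE]
  have k2 : 192 * CE * l ≤ θ / 3 := by
    have : CE * l ≤ CE * η0 := mul_le_mul_of_nonneg_left hlη hCE
    nlinarith
  refine ⟨2 * CE + 8 * CE * (3 * K ^ 2 + CW ^ 2), by positivity,
    fun κ X h η v hη he hmono => ?_⟩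
  have hL := hL κ C X h η v hη he
  have hM := h.M_compact
  have h0 : ∀ a ∈ X.M, 0 ≤ Ia X η v a + Ja X η a := fun a ha =>
    add_nonneg (hL a ha).1 (hL a ha).2.1
  have hII : 0 ≤ II X η v := setIntegral_nonneg h.M_meas fun a ha => (hL a ha).1
  have hJJ : 0 ≤ JJ X η := setIntegral_nonneg h.M_meas fun a ha => (hL a ha).2.1
  have hE2 : 0 ≤ E2 X v := INT0.E2_nonneg h
  set W := II X η v + JJ X η with hW
  have hW0 : 0 ≤ W := add_nonneg hII hJJ
  have m1 : τ ∈ Icc 0 π := ⟨hτ.le, by linarith⟩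
  have m2 : π - τ ∈ Icc 0 π := ⟨by linarith, by linarith⟩
  have hab : τ ≤ π - τ := by linarith
  -- the clamped multiplier
  set m : ℝ → ℝ := fun t => cos t / max (sin t) (sin τ) with hm
  have hmb : ∀ t, |m t| ≤ 1 / sin τ := fun t => by
    have hp : 0 < max (sin t) (sin τ) := hsin.trans_le (le_max_right _ _)
    rw [hm, abs_div, abs_of_pos hp]
    exact div_le_div₀ zero_le_one (abs_cos_le_one t) hsin (le_max_right _ _)
  have hmm : Measurable m := measurable_cos.div (measurable_sin.max measurable_const)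
  have hme : ∀ t ∈ Icc τ (π - τ), m t = cos t / sin t := fun t ht => by
    simp only [hm, max_eq_left (INT0.sin_le hτ ht)]
  have nF : Nice X.M fun t a => (e1 X v t a - m t * d1 X η t a) ^ 2 :=
    ((h.nice_e1 hη).sub ((Nice.of_time hmm fun t _ => hmb t).mul (h.nice_d1 hη))).pow 2
  have nA := (h.nice_d2 hη).pow 2
  have nB := (h.nice_e2 hη).pow 2
  have nG : Nice X.M fun t a => ((‖X.Ψ a‖ ^ 2 + d1 X η t a ^ 2) * |d1 X η t a|) ^ 2 :=
    (((h.nice_Ψ.pow 2).add ((h.nice_d1 hη).pow 2)).mul (h.nice_d1 hη).abs).pow 2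
  obtain ⟨B', hB'⟩ := h.mm_bdd hη
  have nm : Nice X.M fun _ a => mm X η v a ^ 2 := (Nice.of_space (h.measurable_mm hη) hB').pow 2
  obtain ⟨S, hS⟩ := hη.der
  -- the estimate at one time
  have key : ∀ t ∈ Icc τ (π - τ), t ∉ S → ∫ a in X.M, d2 X η t a ^ 2 ≤
      θ / 3 * (∫ a in X.M, e2 X v t a ^ 2) +
        2 * CE * (∫ a in X.M, (e1 X v t a - m t * d1 X η t a) ^ 2) +
        2 * CE * (24 * l * E2 X v + (3 * K ^ 2 + CW ^ 2) * W) := by
    intro t ht hs
    have ht0 : t ∈ Ioo 0 π := ⟨by linarith [ht.1], by linarith [ht.2]⟩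
    have ht1 : t ∈ Icc 0 π := Ioo_subset_Icc_self ht0
    have l1 : 0 ≤ t - l := by linarith [ht.1]
    have l2 : t + l ≤ π := by linarith [ht.2]
    obtain ⟨B, hB⟩ := h.ee_bdd hη hη0.le hl.le hK l1 l2
    have e1' := hE κ X h η v hη t ht0 (hS t ht0 hs) (m t) B _ (hmb t)
      (h.measurable_ee hη η0 l K t) hB (hmono t ht)
    have e2' := INT0.ee_le h hη h0 hη0.le hl.le hK l1 l2
    have e3 : ∫ a in X.M, ((‖X.Ψ a‖ ^ 2 + d1 X η t a ^ 2) * |d1 X η t a|) ^ 2 ≤ CW ^ 2 * W := by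
      rw [hW, ← h.integral_mm_sq hη h0, ← integral_const_mul]
      refine setIntegral_mono_on (nG.integrableOn hM ht1) ((nm.integrableOn hM ht1).const_mul _)
        h.M_meas fun a ha => ?_
      rw [← mul_pow]
      exact pow_le_pow_left₀ (by positivity) ((hL a ha).2.2.2 t ht1) 2
    have a0 : 0 ≤ ∫ a in X.M, d2 X η t a ^ 2 := setIntegral_nonneg h.M_meas fun _ _ => sq_nonneg _
    rw [← hW] at e2'
    set A := ∫ a in X.M, d2 X η t a ^ 2
    have e4 := mul_le_mul_of_nonneg_left (add_le_add e2' e3) hCE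
    have e5 := mul_le_mul_of_nonneg_right k1 a0
    nlinarith
  -- the middle interval
  have mid : ∫ t in τ..(π - τ), ∫ a in X.M, d2 X η t a ^ 2 ≤
      θ / 3 * E2 X v + 2 * CE * W + 4 * (2 * CE * (24 * l * E2 X v + (3 * K ^ 2 + CW ^ 2) * W)) := by
    have jA := nA.intervalIntegrable_integral hM m1 m2
    have jB := nB.intervalIntegrable_integral hM m1 m2
    have jF := nF.intervalIntegrable_integral hM m1 m2
    have hae : ∀ᵐ t : ℝ, t ∉ S := S.countable_toSet.ae_notMem volume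
    have s1 := intervalIntegral.integral_mono_ae_restrict hab jA
      (((jB.const_mul (θ / 3)).add (jF.const_mul (2 * CE))).add (intervalIntegrable_const
        (c := 2 * CE * (24 * l * E2 X v + (3 * K ^ 2 + CW ^ 2) * W)))) (by
        filter_upwards [ae_restrict_mem measurableSet_Icc, ae_restrict_of_ae hae] with t ht hs
        exact key t ht hs)
    rw [intervalIntegral.integral_add ((jB.const_mul (θ / 3)).add (jF.const_mul (2 * CE)))
      intervalIntegrable_const, intervalIntegral.integral_add (jB.const_mul (θ / 3))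
      (jF.const_mul (2 * CE)), intervalIntegral.integral_const_mul,
      intervalIntegral.integral_const_mul, intervalIntegral.integral_const, smul_eq_mul] at s1
    have s2 : ∫ t in τ..(π - τ), ∫ a in X.M, e2 X v t a ^ 2 ≤ E2 X v :=
      intervalIntegral.integral_mono_interval hτ.le hab m2.2
        (Eventually.of_forall fun t => setIntegral_nonneg h.M_meas fun _ _ => sq_nonneg _)
        (nB.intervalIntegrable_integral hM zero_mem_Icc pi_mem_Icc)
    have s3 : ∫ t in τ..(π - τ), ∫ a in X.M, (e1 X v t a - m t * d1 X η t a) ^ 2 ≤ W := by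
      rw [nF.swap hM m1 m2]
      refine le_trans ?_ (le_add_of_nonneg_right hJJ : II X η v ≤ W)
      refine setIntegral_mono_on (nF.integrableOn_timeIntegral hM m1 m2) (h.integrableOn_Ia hη)
        h.M_meas fun a ha => ?_
      refine le_of_eq_of_le ?_ ((hL a ha).2.2.1 τ hτ (by linarith))
      refine intervalIntegral.integral_congr fun t ht => ?_
      rw [uIcc_of_le hab] at ht
      simp only [hme t ht]
    have s4 : 0 ≤ 2 * CE * (24 * l * E2 X v + (3 * K ^ 2 + CW ^ 2) * W) := by positivity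
    have s5 := mul_le_mul_of_nonneg_right (by linarith : π - τ - τ ≤ 4) s4
    have s6 := mul_le_mul_of_nonneg_left s2 (by positivity : 0 ≤ θ / 3)
    have s7 := mul_le_mul_of_nonneg_left s3 (by positivity : 0 ≤ 2 * CE)
    linarith
  have j1 := nA.intervalIntegrable_integral hM zero_mem_Icc m1
  have j2 := nA.intervalIntegrable_integral hM m1 m2
  have j3 := nA.intervalIntegrable_integral hM m2 pi_mem_Icc
  have lo : ∫ t in (0 : ℝ)..τ, ∫ a in X.M, d2 X η t a ^ 2 ≤ τ * (τ * E2 X v) := by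
    have := intervalIntegral.integral_mono_on hτ.le j1 (intervalIntegrable_const (c := τ * E2 X v))
      fun t ht => (INT0.ends_le h hη he ⟨ht.1, ht.2.trans m1.2⟩).1.trans
        (mul_le_mul_of_nonneg_right ht.2 hE2)
    simpa using this
  have hi : ∫ t in (π - τ)..π, ∫ a in X.M, d2 X η t a ^ 2 ≤ τ * (τ * E2 X v) := by
    have := intervalIntegral.integral_mono_on m2.2 j3 (intervalIntegrable_const (c := τ * E2 X v))
      fun t ht => (INT0.ends_le h hη he ⟨m2.1.trans ht.1, ht.2⟩).2.trans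
        (mul_le_mul_of_nonneg_right (by linarith [ht.1]) hE2)
    simpa using this
  have split : D2 X η = (∫ t in (0 : ℝ)..τ, ∫ a in X.M, d2 X η t a ^ 2) +
      (∫ t in τ..(π - τ), ∫ a in X.M, d2 X η t a ^ 2) +
      ∫ t in (π - τ)..π, ∫ a in X.M, d2 X η t a ^ 2 := by
    rw [intervalIntegral.integral_add_adjacent_intervals j1 j2,
      intervalIntegral.integral_add_adjacent_intervals (j1.trans j2) j3]
    rfl
  have f1 : τ * (τ * E2 X v) ≤ θ / 6 * E2 X v := by
    rw [← mul_assoc]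
    exact mul_le_mul_of_nonneg_right (by nlinarith) hE2
  have f2 := mul_le_mul_of_nonneg_right k2 hE2
  rw [split]
  nlinarith

end Pool.Agent.Lib.MP_f62ea7_gt
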