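import Pool.Agent.Lib.MP_f62ea7_gt.Basic2

set_option autoImplicit false

open MeasureTheory Set Filter Topology Real
open scoped ContDiff ENNReal

namespace Pool.Agent.Lib.MP_f62ea7_gt

namespace INT1

/-- Cauchy-Schwarz on an interval. -/
lemma cs {h : ℝ → ℝ} {α β : ℝ} (hab : α ≤ β) (h1 : IntervalIntegrable h volume α β)
    (h2 : IntervalIntegrable (fun t => h t ^ 2) volume α β) :
    (∫ t in α..β, h t) ^ 2 ≤ (β - α) * ∫ t in α..β, h t ^ 2 := by
  rcases hab.eq_or_lt with rfl | hlt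
  · simp
  have hL : 0 < β - α := sub_pos.2 hlt
  set I := ∫ t in α..β, h t
  set J := ∫ t in α..β, h t ^ 2
  have h3 : 0 ≤ ∫ t in α..β, (h t - I / (β - α)) ^ 2 :=
    intervalIntegral.integral_nonneg hab fun _ _ => sq_nonneg _
  have h4 : ∀ t, (h t - I / (β - α)) ^ 2 =
      h t ^ 2 - 2 * (I / (β - α)) * h t + (I / (β - α)) ^ 2 := fun t => by ring
  simp only [h4] at h3
  rw [intervalIntegral.integral_add (h2.sub (h1.const_mul _)) intervalIntegrable_const,
    intervalIntegral.integral_sub h2 (h1.const_mul _), intervalIntegral.integral_const_mul,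
    intervalIntegral.integral_const, smul_eq_mul] at h3
  have h5 : (β - α) * (J - 2 * (I / (β - α)) * I + (β - α) * (I / (β - α)) ^ 2) =
      (β - α) * J - I ^ 2 := by
    field_simp
    ring
  have h6 := mul_nonneg hL.le h3
  rw [h5] at h6
  linarith

lemma cs_nice {M : Set P} {f : ℝ → P → ℝ} (hf : Nice M f) {a : P} (ha : a ∈ M) {α β : ℝ}
    (hα : 0 ≤ α) (hab : α ≤ β) (hβ : β ≤ π) :
    (∫ t in α..β, f t a) ^ 2 ≤ (β - α) * ∫ t in (0 : ℝ)..π, f t a ^ 2 := by
  have m1 : α ∈ Icc 0 π := ⟨hα, hab.trans hβ⟩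
  have m2 : β ∈ Icc 0 π := ⟨hα.trans hab, hβ⟩
  refine (cs hab (hf.intervalIntegrable ha m1 m2) ((hf.pow 2).intervalIntegrable ha m1 m2)).trans
    (mul_le_mul_of_nonneg_left ?_ (sub_nonneg.2 hab))
  exact intervalIntegral.integral_mono_interval hα hab hβ
    (Eventually.of_forall fun _ => sq_nonneg _)
    ((hf.pow 2).intervalIntegrable ha zero_mem_Icc pi_mem_Icc)

end INT1

open INT1 in
theorem blk_INT1 (hL : St_WL) (hA : St_ANTI) : St_INT1 := by
  obtain ⟨CW, -, hW⟩ := hL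
  intro A hA0
  refine ⟨min 1 (1 / 10 ^ 8 / (100 * A)), by positivity, fun τ hτ hτ1 => ⟨1, one_pos, ?_⟩⟩
  intro η0 l K hη0 hη1 hl hlτ _ hK
  refine ⟨1 / 10 ^ 8 / (10 * (K ^ 2 + 1)), by positivity, ?_⟩
  intro κ C X h η v hη he hE hI hanti
  have hτa : τ ≤ 1 := hτ1.trans (min_le_left _ _)
  have hτb : τ * (100 * A) ≤ 1 / 10 ^ 8 :=
    (le_div_iff₀ (by positivity)).1 (hτ1.trans (min_le_right _ _))
  have hπ := pi_gt_three
  have mτ : τ ∈ Icc 0 π := ⟨hτ.le, by linarith⟩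
  obtain ⟨B, hB⟩ := h.ee_bdd hη hη0.le hl.le hK (t := τ) (by linarith) (by linarith)
  have key := hA κ C X h η v hη τ mτ B _ (h.measurable_ee hη η0 l K τ) hB
    (hanti τ ⟨le_rfl, by linarith⟩)
  have n2 := h.nice_e2 hη
  set Q : P → ℝ := fun a => ∫ t in (0 : ℝ)..π, e2 X v t a ^ 2 with hQ
  have iQ : IntegrableOn Q X.M :=
    (n2.pow 2).integrableOn_timeIntegral h.M_compact zero_mem_Icc pi_mem_Icc
  have eQ : ∫ a in X.M, Q a = E2 X v := (dbl_swap h.M_compact (n2.pow 2)).symm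
  have Q0 : ∀ a, 0 ≤ Q a := fun a =>
    intervalIntegral.integral_nonneg pi_pos.le fun _ _ => sq_nonneg _
  have b1 : ∀ a ∈ X.M, d2 X η τ a ^ 2 ≤ τ * Q a := fun a ha => by
    have := cs_nice n2 ha le_rfl hτ.le mτ.2
    rwa [h.d2_ftc hη ha zero_mem_Icc mτ, (h.d_ends he ha).2.2.1, sub_zero, sub_zero] at this
  have b2 : ∀ a ∈ X.M, (∫ s in (τ - l)..(τ + l), |e2 X v s a|) ^ 2 ≤ 2 * τ * Q a := fun a ha => by
    have := cs_nice n2.abs ha (α := τ - l) (β := τ + l) (by linarith) (by linarith) (by linarith)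
    simp only [sq_abs] at this
    exact this.trans (mul_le_mul_of_nonneg_right (by linarith) (Q0 a))
  obtain ⟨B', hB'⟩ := h.mm_bdd hη
  have im : IntegrableOn (fun a => mm X η v a ^ 2) X.M :=
    integrableOn_of_bdd h.M_compact ((h.measurable_mm hη).pow_const 2) (B := B' ^ 2)
      fun a ha => by
        rw [abs_pow]; exact pow_le_pow_left₀ (abs_nonneg _) (hB' a ha) 2
  have ie : IntegrableOn (fun a => ee X η v η0 l K τ a ^ 2) X.M :=
    integrableOn_of_bdd h.M_compact ((h.measurable_ee hη η0 l K τ).pow_const 2) (B := B ^ 2)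
      fun a ha => by
        rw [abs_pow, abs_of_nonneg (hB a ha).1]
        exact pow_le_pow_left₀ (hB a ha).1 (hB a ha).2 2
  have b3 : ∀ a ∈ X.M, ee X η v η0 l K τ a ^ 2 ≤ 27 * τ * Q a + 3 * K ^ 2 * mm X η v a ^ 2 :=
    fun a ha => by
      have c1 := b1 a ha
      have c2 := b2 a ha
      have c3 : (η0 * |d2 X η τ a|) ^ 2 ≤ τ * Q a := by
        rw [mul_pow, sq_abs]
        refine le_trans ?_ c1
        exact mul_le_of_le_one_left (sq_nonneg _) (pow_le_one₀ hη0.le hη1)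
      unfold ee
      generalize η0 * |d2 X η τ a| = x at c3
      generalize (∫ s in (τ - l)..(τ + l), |e2 X v s a|) = y at c2
      generalize mm X η v a = z
      nlinarith [sq_nonneg (x - 2 * y), sq_nonneg (x - K * z), sq_nonneg (2 * y - K * z)]
  have s1 : ∫ a in X.M, d2 X η τ a ^ 2 ≤ τ * E2 X v := by
    rw [← eQ, ← integral_const_mul]
    exact setIntegral_mono_on (((h.nice_d2 hη).pow 2).integrableOn h.M_compact mτ)
      (iQ.const_mul τ) h.M_meas b1
  have s2 : ∫ a in X.M, ee X η v η0 l K τ a ^ 2 ≤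
      27 * τ * E2 X v + 3 * K ^ 2 * (II X η v + JJ X η) := by
    rw [← eQ, ← h.integral_mm_sq hη fun a ha => add_nonneg (hW κ C X h η v hη he a ha).1
      (hW κ C X h η v hη he a ha).2.1, ← integral_const_mul, ← integral_const_mul,
      ← integral_add (iQ.const_mul _) (im.const_mul _)]
    exact setIntegral_mono_on ie ((iQ.const_mul _).add (im.const_mul _)) h.M_meas b3
  have s3 : τ * E2 X v ≤ τ * A := mul_le_mul_of_nonneg_left hE hτ.le
  have s4 : (II X η v + JJ X η) * (10 * (K ^ 2 + 1)) ≤ 1 / 10 ^ 8 :=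
    (le_div_iff₀ (by positivity)).1 hI
  have s5 : 0 ≤ II X η v + JJ X η := by
    rw [← h.integral_mm_sq hη fun a ha => add_nonneg (hW κ C X h η v hη he a ha).1
      (hW κ C X h η v hη he a ha).2.1]
    exact integral_nonneg fun _ => sq_nonneg _
  nlinarith

end Pool.Agent.Lib.MP_f62ea7_gt
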