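import Pool.Agent.Lib.MP_f62ea7_gt.Basic

set_option autoImplicit false

open MeasureTheory Set Filter Topology Real
open scoped ContDiff ENNReal

namespace Pool.Agent.Lib.MP_f62ea7_gt

namespace LINE

lemma mItv : MeasurableSet Itv := measurableSet_Icc

/-- bounded measurable functions are integrable on subsets of the interval -/
lemma intOn {f : ℝ → ℝ} {B : ℝ} {S : Set ℝ} (hf : Measurable f) (hS : MeasurableSet S)
    (hs : S ⊆ Itv) (hB : ∀ y ∈ Itv, |f y| ≤ B) : IntegrableOn f S := by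
  refine Measure.integrableOn_of_bounded (M := B) ?_ hf.aestronglyMeasurable ?_
  · exact ((measure_mono hs).trans_lt measure_Icc_lt_top).ne
  · filter_upwards [ae_restrict_mem hS] with y hy using hB y (hs hy)

lemma sec_meas {A : ℝ → Set ℝ} (hA : MeasurableSet {q : ℝ × ℝ | q.2 ∈ A q.1}) (y : ℝ) :
    MeasurableSet (A y) := measurable_prodMk_left (x := y) hA

lemma par_eq {A : ℝ → Set ℝ} (hA : MeasurableSet {q : ℝ × ℝ | q.2 ∈ A q.1}) (σ : ℝ → ℝ) (y : ℝ) :
    ∫ s in A y ∩ Itv, σ s =
      ∫ s in Itv, indicator {q : ℝ × ℝ | q.2 ∈ A q.1} (fun q => σ q.2) (y, s) := by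
  have : (fun s => indicator {q : ℝ × ℝ | q.2 ∈ A q.1} (fun q => σ q.2) (y, s)) =
      indicator (A y) σ := by
    funext s
    by_cases h : s ∈ A y <;> simp [indicator, h]
  rw [this, setIntegral_indicator (sec_meas hA y), inter_comm]

lemma par_meas {A : ℝ → Set ℝ} (hA : MeasurableSet {q : ℝ × ℝ | q.2 ∈ A q.1}) {σ : ℝ → ℝ}
    (hσ : Measurable σ) : Measurable fun y => ∫ s in A y ∩ Itv, σ s := by
  simp_rw [par_eq hA σ]
  exact (((hσ.comp measurable_snd).indicator hA).stronglyMeasurable.integral_prod_right'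
    (ν := volume.restrict Itv)).measurable

lemma vol_le {S : Set ℝ} (hs : S ⊆ Itv) : volume.real S ≤ 4 := by
  refine (measureReal_mono hs measure_Icc_lt_top.ne).trans ?_
  rw [Real.volume_real_Icc]; norm_num

lemma set_bd {S : Set ℝ} (hs : S ⊆ Itv) {σ : ℝ → ℝ} {B : ℝ} (hB : ∀ y ∈ Itv, |σ y| ≤ B) :
    |∫ s in S, σ s| ≤ B * 4 := by
  have h0 : 0 ≤ B := (abs_nonneg _).trans (hB 0 (by norm_num [Itv]))
  have := norm_setIntegral_le_of_norm_le_const (μ := volume) (s := S) (f := σ) (C := B)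
    ((measure_mono hs).trans_lt measure_Icc_lt_top) (fun y hy => hB y (hs hy))
  exact this.trans (mul_le_mul_of_nonneg_left (vol_le hs) h0)

lemma par_int {A : ℝ → Set ℝ} (hA : MeasurableSet {q : ℝ × ℝ | q.2 ∈ A q.1}) {σ : ℝ → ℝ}
    (hσ : Measurable σ) {B : ℝ} (hB : ∀ y ∈ Itv, |σ y| ≤ B) :
    IntegrableOn (fun y => ∫ s in A y ∩ Itv, σ s) Itv :=
  intOn (par_meas hA hσ) mItv Subset.rfl fun _ _ => set_bd inter_subset_right hB

lemma ball_meas {a : ℝ → ℝ} (ha : Measurable a) :
    MeasurableSet {q : ℝ × ℝ | q.2 ∈ Icc (q.1 - a q.1) (q.1 + a q.1)} :=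
  (measurableSet_le (measurable_fst.sub (ha.comp measurable_fst)) measurable_snd).inter
    (measurableSet_le measurable_snd (measurable_fst.add (ha.comp measurable_fst)))

lemma dual_meas {e : ℝ → ℝ} (he : Measurable e) :
    MeasurableSet {q : ℝ × ℝ | q.2 ∈ {s : ℝ | |s - q.1| ≤ 2 * e s}} :=
  measurableSet_le (measurable_snd.sub measurable_fst).abs
    (measurable_const.mul (he.comp measurable_snd))

/-- the Fubini term -/
lemma dual_le {e σ : ℝ → ℝ} {B : ℝ} (he : Measurable e) (hσ : Measurable σ)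
    (heB : ∀ y ∈ Itv, 0 ≤ e y ∧ e y ≤ B) (hσB : ∀ y ∈ Itv, 0 ≤ σ y ∧ σ y ≤ B) :
    ∫ y in Itv, ∫ s in {s : ℝ | |s - y| ≤ 2 * e s} ∩ Itv, σ s ≤ ∫ s in Itv, 4 * e s * σ s := by
  have hA := dual_meas he
  have h0 : 0 ≤ B := (heB 0 (by norm_num [Itv])).1.trans (heB 0 (by norm_num [Itv])).2
  simp_rw [par_eq (A := fun y => {s : ℝ | |s - y| ≤ 2 * e s}) hA σ]
  have hI : Integrable (Function.uncurry fun y s : ℝ =>
      indicator {q : ℝ × ℝ | q.2 ∈ {s : ℝ | |s - q.1| ≤ 2 * e s}} (fun q => σ q.2) (y, s))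
      ((volume.restrict Itv).prod (volume.restrict Itv)) := by
    refine Integrable.of_bound (C := B)
      ((hσ.comp measurable_snd).indicator hA).aestronglyMeasurable ?_
    rw [Measure.prod_restrict]
    filter_upwards [ae_restrict_mem (mItv.prod mItv)] with q hq
    refine (norm_indicator_le_norm_self (fun q : ℝ × ℝ => σ q.2) q).trans ?_
    rw [Real.norm_eq_abs, abs_of_nonneg (hσB _ hq.2).1]
    exact (hσB _ hq.2).2
  rw [integral_integral_swap hI]
  refine setIntegral_mono_on hI.integral_prod_right ?_ mItv fun s hs => ?_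
  · refine intOn (B := 4 * B * B) ((measurable_const.mul he).mul hσ) mItv Subset.rfl fun y hy => ?_
    obtain ⟨a1, a2⟩ := heB y hy
    obtain ⟨b1, b2⟩ := hσB y hy
    rw [abs_of_nonneg (by positivity)]
    gcongr
  · have : (fun y => indicator {q : ℝ × ℝ | q.2 ∈ {s : ℝ | |s - q.1| ≤ 2 * e s}}
        (fun q => σ q.2) (y, s)) = indicator (Icc (s - 2 * e s) (s + 2 * e s)) fun _ => σ s := by
      funext y
      have : |s - y| ≤ 2 * e s ↔ y ∈ Icc (s - 2 * e s) (s + 2 * e s) := by
        rw [abs_le, mem_Icc]; constructor <;> rintro ⟨h1, h2⟩ <;> constructor <;> linarith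
      by_cases h : y ∈ Icc (s - 2 * e s) (s + 2 * e s)
      · rw [indicator_of_mem h, indicator_of_mem (by exact this.2 h)]
      · rw [indicator_of_notMem h, indicator_of_notMem (by exact fun h' => h (this.1 h'))]
    rw [this, setIntegral_indicator measurableSet_Icc, setIntegral_const, smul_eq_mul]
    refine mul_le_mul_of_nonneg_right ?_ (hσB s hs).1
    refine (measureReal_mono inter_subset_right measure_Icc_lt_top.ne).trans ?_
    rw [Real.volume_real_Icc]
    exact max_le (by linarith) (by linarith [(heB s hs).1])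

lemma int6 {μ : Measure ℝ} {f1 f2 f3 f4 f5 f6 : ℝ → ℝ} (h1 : Integrable f1 μ)
    (h2 : Integrable f2 μ) (h3 : Integrable f3 μ) (h4 : Integrable f4 μ) (h5 : Integrable f5 μ)
    (h6 : Integrable f6 μ) :
    Integrable (fun x => f1 x + f2 x + f3 x + f4 x + f5 x + f6 x) μ ∧
      ∫ x, (f1 x + f2 x + f3 x + f4 x + f5 x + f6 x) ∂μ = (∫ x, f1 x ∂μ) + (∫ x, f2 x ∂μ) +
        (∫ x, f3 x ∂μ) + (∫ x, f4 x ∂μ) + (∫ x, f5 x ∂μ) + ∫ x, f6 x ∂μ := by
  have a2 : Integrable (fun x => f1 x + f2 x) μ := h1.add h2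
  have a3 : Integrable (fun x => f1 x + f2 x + f3 x) μ := a2.add h3
  have a4 : Integrable (fun x => f1 x + f2 x + f3 x + f4 x) μ := a3.add h4
  have a5 : Integrable (fun x => f1 x + f2 x + f3 x + f4 x + f5 x) μ := a4.add h5
  refine ⟨a5.add h6, ?_⟩
  rw [integral_add a5 h6, integral_add a4 h5, integral_add a3 h4, integral_add a2 h3,
    integral_add h1 h2]

/-- the pointwise lower bound -/
lemma pt {cU CU y s b bs es ey er t : ℝ} (hcU : 0 < cU) (hCU : 0 ≤ CU) (hes : 0 ≤ es)
    (hey : 0 ≤ ey) (h1 : y < s) (h2 : s < b) (hm : min (s - y) (b - bs) ≤ es + ey)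
    (hp : 0 ≤ bs - s → cU * min (bs - s) |s| - er ≤ t) (ha : -(CU * |bs - s| + er) ≤ t) :
    cU * min (min (s - y) (b - s)) |s| - ((cU + CU) * (es + ey) +
      (if |s - y| ≤ es + ey then CU * |bs - s| else 0) + er) ≤ t := by
  set m := min (min (s - y) (b - s)) |s| with hm0
  have m1 : m ≤ s - y := (min_le_left _ _).trans (min_le_left _ _)
  have m2 : m ≤ b - s := (min_le_left _ _).trans (min_le_right _ _)
  have m3 : m ≤ |s| := min_le_right _ _
  have hE : 0 ≤ CU * (es + ey) := by positivity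
  split_ifs with h
  · rw [abs_of_pos (by linarith)] at h
    have : cU * m ≤ cU * (es + ey) := mul_le_mul_of_nonneg_left (by linarith) hcU.le
    linarith
  · rw [abs_of_pos (by linarith)] at h
    have hb : b - bs ≤ es + ey := by
      rcases min_le_iff.1 hm with h' | h'
      · exact absurd h' h
      · exact h'
    by_cases hc : 0 ≤ bs - s
    · have : m - (es + ey) ≤ min (bs - s) |s| := le_min (by linarith) (by linarith)
      have := mul_le_mul_of_nonneg_left this hcU.le
      linarith [hp hc]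
    · rw [abs_of_neg (not_le.1 hc)] at ha
      have a1 : cU * m ≤ cU * (es + ey) := mul_le_mul_of_nonneg_left (by linarith) hcU.le
      have a2 : CU * -(bs - s) ≤ CU * (es + ey) := mul_le_mul_of_nonneg_left (by linarith) hCU
      linarith

lemma tent {p q : ℝ} (hpq : p ≤ q) :
    (q - p) ^ 2 / 64 ≤ ∫ s in Ioo p q, min (min (s - p) (q - s)) |s| := by
  have hc : Continuous fun s : ℝ => min (min (s - p) (q - s)) |s| := by fun_prop
  have hI : IntegrableOn (fun s : ℝ => min (min (s - p) (q - s)) |s|) (Ioo p q) :=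
    (hc.integrableOn_Icc (a := p) (b := q)).mono_set Ioo_subset_Icc_self
  have key : ∀ g : ℝ, p + (q - p) / 4 ≤ g → g + (q - p) / 8 ≤ q - (q - p) / 4 →
      (∀ s ∈ Ioo g (g + (q - p) / 8), (q - p) / 8 ≤ |s|) →
      (q - p) ^ 2 / 64 ≤ ∫ s in Ioo p q, min (min (s - p) (q - s)) |s| := by
    intro g g1 g2 g3
    have hs : Ioo g (g + (q - p) / 8) ⊆ Ioo p q := Ioo_subset_Ioo (by linarith) (by linarith)
    refine le_trans ?_ (setIntegral_mono_set hI ?_ hs.eventuallyLE)
    · refine le_trans ?_ (setIntegral_ge_of_const_le_real (c := (q - p) / 8) measurableSet_Ioo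
        measure_Ioo_lt_top.ne (fun s hs' => ?_) (hI.mono_set hs))
      · rw [Real.volume_real_Ioo_of_le (by linarith)]
        apply le_of_eq; ring
      · exact le_min (le_min (by linarith [hs'.1]) (by linarith [hs'.2])) (g3 s hs')
    · filter_upwards [ae_restrict_mem measurableSet_Ioo] with s hs'
      exact le_min (le_min (sub_nonneg.2 hs'.1.le) (sub_nonneg.2 hs'.2.le)) (abs_nonneg _)
  by_cases h : 0 ≤ p + q
  · refine key ((p + q) / 2 + (q - p) / 8) (by linarith) (by linarith) fun s hs => ?_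
    exact le_trans (by linarith [hs.1]) (le_abs_self s)
  · refine key ((p + q) / 2 - (q - p) / 4) (by linarith) (by linarith) fun s hs => ?_
    exact le_trans (by linarith [hs.2]) (neg_le_abs s)

/-- the estimate on one fibre, for an interval with end point `y` -/
lemma fibre {cU CU B y p q : ℝ} {c e err u : ℝ → ℝ} (hcU : 0 < cU) (hCU : 0 ≤ CU)
    (hc : Measurable c) (he : Measurable e) (herr : Measurable err) (hu : Measurable u)
    (hcB : ∀ s ∈ Itv, |c s| ≤ B) (heB : ∀ s ∈ Itv, 0 ≤ e s ∧ e s ≤ B)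
    (herrB : ∀ s ∈ Itv, 0 ≤ err s ∧ err s ≤ B) (huB : ∀ s ∈ Itv, |u s| ≤ CU * B + B)
    (hy : y ∈ Itv) (hpq : p ≤ q) (hp : p ∈ Itv) (hq : q ∈ Itv) (hl : q - p = |c y|)
    (hyp : y - |c y| ≤ p) (hyq : q ≤ y + |c y|)
    (h : ∀ s ∈ Ioo p q, cU * min (min (s - p) (q - s)) |s| - ((cU + CU) * (e s + e y) +
      (if |s - y| ≤ e s + e y then CU * |c s| else 0) + err s) ≤ u s) :
    cU / 64 * c y ^ 2 ≤ (∫ s in Ioo p q, u s) +
      (cU + CU) * (∫ s in Icc (y - |c y|) (y + |c y|) ∩ Itv, e s) + (cU + CU) * (|c y| * e y) +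
      CU * (∫ s in {s : ℝ | |s - y| ≤ 2 * e s} ∩ Itv, |c s|) +
      CU * (∫ s in Icc (y - 2 * e y) (y + 2 * e y) ∩ Itv, |c s|) +
      ∫ s in Icc (y - |c y|) (y + |c y|) ∩ Itv, err s := by
  have hsub : Ioo p q ⊆ Itv := fun s hs => ⟨hp.1.trans hs.1.le, hs.2.le.trans hq.2⟩
  have hsub' : Ioo p q ⊆ Icc (y - |c y|) (y + |c y|) ∩ Itv := fun s hs =>
    ⟨⟨hyp.trans hs.1.le, hs.2.le.trans hyq⟩, hsub hs⟩
  have heA : ∀ s ∈ Itv, |e s| ≤ B := fun s hs => by
    rw [abs_of_nonneg (heB s hs).1]; exact (heB s hs).2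
  have herrA : ∀ s ∈ Itv, |err s| ≤ B := fun s hs => by
    rw [abs_of_nonneg (herrB s hs).1]; exact (herrB s hs).2
  have hcA : ∀ s ∈ Itv, |(|c s|)| ≤ B := fun s hs => by rw [abs_abs]; exact hcB s hs
  have mono : ∀ (σ : ℝ → ℝ) (S S' : Set ℝ), Measurable σ → MeasurableSet S' → S ⊆ S' → S' ⊆ Itv →
      (∀ s ∈ Itv, |σ s| ≤ B) → (∀ s ∈ Itv, 0 ≤ σ s) → ∫ s in S, σ s ≤ ∫ s in S', σ s := by
    intro σ S S' h1 h2 h3 h4 h5 h6
    refine setIntegral_mono_set (intOn h1 h2 h4 h5) ?_ h3.eventuallyLE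
    filter_upwards [ae_restrict_mem h2] with s hs using h6 s (h4 hs)
  set A1 : Set ℝ := {s : ℝ | |s - y| ≤ 2 * e s} with hA1
  set A2 : Set ℝ := Icc (y - 2 * e y) (y + 2 * e y) with hA2
  have mA1 : MeasurableSet A1 :=
    measurableSet_le (measurable_id.sub measurable_const).abs (measurable_const.mul he)
  have mA2 : MeasurableSet A2 := measurableSet_Icc
  have iu := intOn hu measurableSet_Ioo hsub huB
  have ie := intOn he measurableSet_Ioo hsub heA
  have ier := intOn herr measurableSet_Ioo hsub herrA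
  have ic := intOn hc.abs measurableSet_Ioo hsub hcA
  have i1 : IntegrableOn (indicator A1 fun s => |c s|) (Ioo p q) := ic.indicator mA1
  have i2 : IntegrableOn (indicator A2 fun s => |c s|) (Ioo p q) := ic.indicator mA2
  have ik : IntegrableOn (fun _ : ℝ => (cU + CU) * e y) (Ioo p q) :=
    integrableOn_const measure_Ioo_lt_top.ne
  have hm : IntegrableOn (fun s : ℝ => min (min (s - p) (q - s)) |s|) (Ioo p q) := by
    have hc : Continuous fun s : ℝ => min (min (s - p) (q - s)) |s| := by fun_prop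
    exact (hc.integrableOn_Icc (a := p) (b := q)).mono_set Ioo_subset_Icc_self
  have six := int6 iu (ie.const_mul (cU + CU)) ik (i1.const_mul CU) (i2.const_mul CU) ier
  have main : ∫ s in Ioo p q, cU * min (min (s - p) (q - s)) |s| ≤
      ∫ s in Ioo p q, (u s + (cU + CU) * e s + (cU + CU) * e y +
        CU * indicator A1 (fun s => |c s|) s + CU * indicator A2 (fun s => |c s|) s + err s) := by
    refine setIntegral_mono_on (hm.const_mul _) six.1 measurableSet_Ioo fun s hs => ?_
    · have h0 := h s hs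
      have n1 : 0 ≤ indicator A1 (fun s => |c s|) s := indicator_nonneg (fun _ _ => abs_nonneg _) s
      have n2 : 0 ≤ indicator A2 (fun s => |c s|) s := indicator_nonneg (fun _ _ => abs_nonneg _) s
      have : (if |s - y| ≤ e s + e y then CU * |c s| else 0) ≤
          CU * indicator A1 (fun s => |c s|) s + CU * indicator A2 (fun s => |c s|) s := by
        split_ifs with h1
        · rcases le_total (e y) (e s) with h2 | h2
          · have : s ∈ A1 := show |s - y| ≤ 2 * e s by linarith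
            rw [indicator_of_mem this]
            exact le_add_of_nonneg_right (mul_nonneg hCU n2)
          · have : s ∈ A2 := by
              obtain ⟨a1, a2⟩ := abs_le.1 h1
              exact ⟨by linarith, by linarith⟩
            rw [indicator_of_mem this]
            exact le_add_of_nonneg_left (mul_nonneg hCU n1)
        · positivity
      linarith
  rw [six.2,
    integral_const_mul, integral_const_mul, setIntegral_const, integral_const_mul,
    integral_const_mul, setIntegral_indicator mA1, setIntegral_indicator mA2,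
    Real.volume_real_Ioo_of_le hpq, smul_eq_mul, hl] at main
  have t0 := mul_le_mul_of_nonneg_left (tent hpq) hcU.le
  rw [hl, sq_abs] at t0
  have mJ : MeasurableSet (Icc (y - |c y|) (y + |c y|) ∩ Itv) := measurableSet_Icc.inter mItv
  have b1 := mul_le_mul_of_nonneg_left
    (mono e _ _ he mJ hsub' inter_subset_right heA fun s hs => (heB s hs).1)
    (add_nonneg hcU.le hCU)
  have b2 := mono err _ _ herr mJ hsub' inter_subset_right herrA fun s hs => (herrB s hs).1
  have b3 := mul_le_mul_of_nonneg_left (mono (fun s => |c s|) (Ioo p q ∩ A1) (A1 ∩ Itv) hc.abs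
    (mA1.inter mItv) (fun s hs => ⟨hs.2, hsub hs.1⟩) inter_subset_right hcA
    fun s _ => abs_nonneg _) hCU
  have b4 := mul_le_mul_of_nonneg_left (mono (fun s => |c s|) (Ioo p q ∩ A2) (A2 ∩ Itv) hc.abs
    (mA2.inter mItv) (fun s hs => ⟨hs.2, hsub hs.1⟩) inter_subset_right hcA
    fun s _ => abs_nonneg _) hCU
  linarith

lemma amgm {ε a b : ℝ} (hε : 0 < ε) : |a| * b ≤ ε * a ^ 2 + 1 / ε * b ^ 2 := by
  have h : 0 ≤ ε * (|a| - b / ε) ^ 2 := by positivity
  have h2 : ε * (|a| - b / ε) ^ 2 = ε * a ^ 2 - 2 * (|a| * b) + 1 / ε * b ^ 2 := by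
    rw [← sq_abs a]; field_simp; ring
  have h3 : 0 ≤ ε * a ^ 2 + 1 / ε * b ^ 2 := by positivity
  linarith

end LINE

open LINE in
theorem blk_LINE (hB : St_BM) : St_LINE := by
  intro cU CU hcU hCU
  set D : ℝ := cU + CU with hD
  have hD0 : 0 ≤ D := add_nonneg hcU.le hCU
  set k : ℝ := cU / 64 with hk
  have hk0 : 0 < k := by positivity
  set ε : ℝ := k / (2 * (2 * D + 5 * CU + 1)) with hε
  have hε0 : 0 < ε := by positivity
  have hεk : (2 * D + 5 * CU + 1) * ε = k / 2 := by rw [hε]; field_simp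
  refine ⟨2 / k, 2 / k * ((101 * D + 404 * CU + 100) / ε), by positivity, by positivity, ?_⟩
  intro B yb e err th hyb he herr hth hI heB herrB hmono hpos hneg habs
  have h0 : (0 : ℝ) ∈ Itv := by norm_num [Itv]
  have hB0 : 0 ≤ B := (heB 0 h0).1.trans (heB 0 h0).2
  set B' : ℝ := 2 * B + 4 with hB'
  set c : ℝ → ℝ := fun y => yb y - y with hc
  have hcm : Measurable c := hyb.sub measurable_id
  have hc4 : ∀ y ∈ Itv, |c y| ≤ B' := fun y hy => by
    obtain ⟨a1, a2⟩ := hI y hy
    obtain ⟨a3, a4⟩ := hy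
    exact abs_le.2 ⟨by simp only [hc]; linarith, by simp only [hc]; linarith⟩
  have heB' : ∀ y ∈ Itv, 0 ≤ e y ∧ e y ≤ B' := fun y hy =>
    ⟨(heB y hy).1, by linarith [(heB y hy).2]⟩
  have heB2 : ∀ y ∈ Itv, 0 ≤ 2 * e y ∧ 2 * e y ≤ B' := fun y hy =>
    ⟨by linarith [(heB y hy).1], by linarith [(heB y hy).2]⟩
  have herrB' : ∀ y ∈ Itv, 0 ≤ err y ∧ err y ≤ B' := fun y hy =>
    ⟨(herrB y hy).1, by linarith [(herrB y hy).2]⟩
  have hcB' : ∀ y ∈ Itv, 0 ≤ |c y| ∧ |c y| ≤ B' := fun y hy => ⟨abs_nonneg _, hc4 y hy⟩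
  have h1B : ∀ y ∈ Itv, 0 ≤ (fun _ : ℝ => (1 : ℝ)) y ∧ (fun _ : ℝ => (1 : ℝ)) y ≤ B' :=
    fun y _ => ⟨zero_le_one, by simp only; linarith⟩
  have hthB : ∀ y ∈ Itv, |th y| ≤ CU * B' + B' := fun y hy =>
    (habs y hy).trans (add_le_add (mul_le_mul_of_nonneg_left (hc4 y hy) hCU) (herrB' y hy).2)
  have abs_of : ∀ {σ : ℝ → ℝ}, (∀ y ∈ Itv, 0 ≤ σ y ∧ σ y ≤ B') → ∀ y ∈ Itv, |σ y| ≤ B' :=
    fun h y hy => by rw [abs_of_nonneg (h y hy).1]; exact (h y hy).2
  -- the fibre estimate
  have fib : ∀ y ∈ Itv, k * c y ^ 2 ≤ (∫ s in y..yb y, th s) +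
      D * (∫ s in Icc (y - |c y|) (y + |c y|) ∩ Itv, e s) + D * (|c y| * e y) +
      CU * (∫ s in {s : ℝ | |s - y| ≤ 2 * e s} ∩ Itv, |c s|) +
      CU * (∫ s in Icc (y - 2 * e y) (y + 2 * e y) ∩ Itv, |c s|) +
      ∫ s in Icc (y - |c y|) (y + |c y|) ∩ Itv, err s := by
    intro y hy
    rcases le_total y (yb y) with h | h
    · have hcy : |c y| = yb y - y := abs_of_nonneg (sub_nonneg.2 h)
      rw [intervalIntegral.integral_of_le h, integral_Ioc_eq_integral_Ioo]
      refine fibre hcU hCU hcm he herr hth hc4 heB' herrB' hthB hy h hy (hI y hy) hcy.symm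
        (by rw [hcy]; linarith) (by rw [hcy]; linarith) fun s hs => ?_
      have hsI : s ∈ Itv := ⟨hy.1.trans hs.1.le, hs.2.le.trans (hI y hy).2⟩
      exact pt hcU hCU (heB s hsI).1 (heB y hy).1 hs.1 hs.2 (hmono s hsI y hy hs.1) (hpos s hsI)
        (abs_le.1 (habs s hsI)).1
    · have hcy : |c y| = y - yb y := by
        rw [abs_of_nonpos (sub_nonpos.2 h)]; simp [hc]
      rw [intervalIntegral.integral_of_ge h, integral_Ioc_eq_integral_Ioo, ← integral_neg]
      refine fibre (u := fun s => -th s) hcU hCU hcm he herr hth.neg hc4 heB' herrB'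
        (fun s hs => by rw [abs_neg]; exact hthB s hs) hy h (hI y hy) hy hcy.symm
        (by rw [hcy]; linarith) (by rw [hcy]; linarith) fun s hs => ?_
      have hsI : s ∈ Itv := ⟨(hI y hy).1.trans hs.1.le, hs.2.le.trans hy.2⟩
      have := pt (y := -y) (s := -s) (b := -yb y) (bs := -yb s) (er := err s) (t := -th s) hcU hCU
        (heB s hsI).1 (heB y hy).1 (neg_lt_neg hs.2) (neg_lt_neg hs.1)
        (by
          have := hmono y hy s hsI hs.2
          rw [show -s - -y = y - s by ring, show -yb y - -yb s = yb s - yb y by ring]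
          linarith)
        (fun h' => by
          have := hneg s hsI (by linarith)
          rw [show -yb s - -s = s - yb s by ring, abs_neg]
          linarith)
        (by
          have := (abs_le.1 (habs s hsI)).2
          rw [show -yb s - -s = -(yb s - s) by ring, abs_neg]
          linarith)
      rw [show -s - -y = y - s by ring, show -yb y - -s = s - yb y by ring,
        show -yb s - -s = -(yb s - s) by ring, abs_neg, abs_neg, min_comm (y - s),
        abs_sub_comm y s] at this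
      exact this
  -- integrability
  have sqI : ∀ {σ : ℝ → ℝ}, Measurable σ → (∀ y ∈ Itv, |σ y| ≤ B') →
      IntegrableOn (fun y => σ y ^ 2) Itv := fun {σ} h1 h2 =>
    intOn (B := B' ^ 2) (h1.pow_const 2) mItv Subset.rfl fun y hy => by
      rw [abs_pow]; exact pow_le_pow_left₀ (abs_nonneg _) (h2 y hy) 2
  have ic2 := sqI hcm hc4
  have ie2 := sqI he (abs_of heB')
  have i1 : IntegrableOn (fun y => ∫ s in y..yb y, th s) Itv := by
    have m1 : MeasurableSet {q : ℝ × ℝ | q.2 ∈ Ioc q.1 (yb q.1)} :=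
      (measurableSet_lt measurable_fst measurable_snd).inter
        (measurableSet_le measurable_snd (hyb.comp measurable_fst))
    have m2 : MeasurableSet {q : ℝ × ℝ | q.2 ∈ Ioc (yb q.1) q.1} :=
      (measurableSet_lt (hyb.comp measurable_fst) measurable_snd).inter
        (measurableSet_le measurable_snd measurable_fst)
    refine ((par_int (A := fun y => Ioc y (yb y)) m1 hth hthB).sub
      (par_int (A := fun y => Ioc (yb y) y) m2 hth hthB)).congr_fun (fun y hy => ?_) mItv
    have e1 : Ioc y (yb y) ∩ Itv = Ioc y (yb y) :=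
      inter_eq_left.2 fun s hs => ⟨hy.1.trans hs.1.le, hs.2.trans (hI y hy).2⟩
    have e2 : Ioc (yb y) y ∩ Itv = Ioc (yb y) y :=
      inter_eq_left.2 fun s hs => ⟨(hI y hy).1.trans hs.1.le, hs.2.trans hy.2⟩
    simp only [Pi.sub_apply, e1, e2, intervalIntegral]
  have i2 := par_int (A := fun y => Icc (y - |c y|) (y + |c y|)) (ball_meas hcm.abs) he (abs_of heB')
  have i3 : IntegrableOn (fun y => |c y| * e y) Itv :=
    intOn (B := B' * B') (hcm.abs.mul he) mItv Subset.rfl fun y hy => by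
      rw [abs_mul, abs_abs]
      exact mul_le_mul (hc4 y hy) (abs_of heB' y hy) (abs_nonneg _) (by linarith)
  have i4 := par_int (A := fun y => {s : ℝ | |s - y| ≤ 2 * e s}) (dual_meas he) hcm.abs
    (abs_of hcB')
  have i5 := par_int (A := fun y => Icc (y - 2 * e y) (y + 2 * e y))
    (ball_meas (measurable_const.mul he)) hcm.abs (abs_of hcB')
  have i6 := par_int (A := fun y => Icc (y - |c y|) (y + |c y|)) (ball_meas hcm.abs) herr
    (abs_of herrB')
  have six := int6 i1 (i2.const_mul D) (i3.const_mul D) (i4.const_mul CU) (i5.const_mul CU) i6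
  have main := setIntegral_mono_on (ic2.const_mul k) six.1 mItv fib
  rw [six.2, integral_const_mul, integral_const_mul, integral_const_mul, integral_const_mul,
    integral_const_mul] at main
  have hθ : 0 < 100 / ε := by positivity
  have hq : 100 / (100 / ε) = ε := by field_simp
  have b2 := hB (100 / ε) B' (fun _ => 1) (fun y => |c y|) e hθ measurable_const hcm.abs he h1B
    hcB' heB'
  have b6 := hB (100 / ε) B' (fun _ => 1) (fun y => |c y|) err hθ measurable_const hcm.abs herr h1B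
    hcB' herrB'
  have b5 := hB ε B' (fun _ => 1) (fun y => 2 * e y) (fun y => |c y|) hε0 measurable_const
    (measurable_const.mul he) hcm.abs h1B heB2 hcB'
  have b4 := dual_le he hcm.abs heB' hcB'
  simp only [one_mul, sq_abs, hq] at b2 b6 b5
  have e5 : ∫ y in Itv, (2 * e y) ^ 2 = 4 * ∫ y in Itv, e y ^ 2 := by
    rw [← integral_const_mul]; congr 1; funext y; ring
  have e4 : ∫ y in Itv, 4 * e y * |c y| = 4 * ∫ y in Itv, |c y| * e y := by
    rw [← integral_const_mul]; congr 1; funext y; ring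
  rw [e5] at b5
  rw [e4] at b4
  have b3 : ∫ y in Itv, |c y| * e y ≤ ε * (∫ y in Itv, c y ^ 2) + 1 / ε * ∫ y in Itv, e y ^ 2 := by
    rw [← integral_const_mul, ← integral_const_mul,
      ← integral_add (ic2.const_mul _) (ie2.const_mul _)]
    exact setIntegral_mono_on i3 ((ic2.const_mul _).add (ie2.const_mul _)) mItv
      fun y _ => amgm hε0
  have nE : 0 ≤ ∫ y in Itv, e y ^ 2 := integral_nonneg fun y => sq_nonneg _
  have nR : 0 ≤ ∫ y in Itv, err y ^ 2 := integral_nonneg fun y => sq_nonneg _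
  show ∫ y in Itv, c y ^ 2 ≤ _
  generalize (∫ y in Itv, c y ^ 2) = a at *
  generalize (∫ y in Itv, e y ^ 2) = E at *
  generalize (∫ y in Itv, err y ^ 2) = R at *
  generalize (∫ y in Itv, ∫ s in y..yb y, th s) = I at *
  have c2 := mul_le_mul_of_nonneg_left b2 hD0
  have c3 := mul_le_mul_of_nonneg_left b3 hD0
  have c3' := mul_le_mul_of_nonneg_left b3 hCU
  have c4 := mul_le_mul_of_nonneg_left b4 hCU
  have c5 := mul_le_mul_of_nonneg_left b5 hCU
  set r : ℝ := 1 / ε with hr
  have hr0 : 0 < r := by positivity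
  have r1 : 100 / ε = 100 * r := by rw [hr]; ring
  have r2 : (101 * D + 404 * CU + 100) / ε = (101 * D + 404 * CU + 100) * r := by rw [hr]; ring
  rw [r1] at c2 c5 b6
  rw [r2]
  have fin : k / 2 * a ≤ I + (101 * D + 404 * CU + 100) * r * (E + R) := by
    have z1 : 0 ≤ r * E := by positivity
    have z2 : 0 ≤ D * (r * R) := by positivity
    have z3 : 0 ≤ CU * (r * R) := by positivity
    have z4 : (2 * D + 5 * CU + 1) * ε * a = k / 2 * a := by rw [hεk]
    nlinarith
  have : a = 2 / k * (k / 2 * a) := by field_simp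
  rw [this, mul_assoc (2 / k), ← mul_add]
  exact mul_le_mul_of_nonneg_left fin (by positivity)

end Pool.Agent.Lib.MP_f62ea7_gt
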