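import Pool.Agent.Lib.MP_f62ea7_gt.Basic2

set_option autoImplicit false

open MeasureTheory Set Filter Topology Real
open scoped ContDiff ENNReal

namespace Pool.Agent.Lib.MP_f62ea7_gt

namespace LOW

lemma eq_zero_of_dbl {M : Set P} (hM : IsCompact M) {f : ℝ → P → ℝ}
    (hf : Continuous fun q : ℝ × P => f q.1 q.2) (h0 : ∀ t a, 0 ≤ f t a) (hz : dbl M f ≤ 0)
    {t : ℝ} (ht : t ∈ Icc 0 π) {a : P} (ha : M ∈ 𝓝 a) : f t a = 0 := by
  by_contra hne
  have hc : Continuous fun t => ∫ a in M, f t a :=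
    continuous_parametric_integral_of_continuous (f := f) hf hM
  have hft : Continuous (f t) := hf.comp (continuous_const.prodMk continuous_id)
  have h1 : 0 < ∫ a in M, f t a := by
    rw [setIntegral_pos_iff_support_of_nonneg_ae (Eventually.of_forall (h0 t))
      (hft.continuousOn.integrableOn_compact hM)]
    exact Measure.measure_pos_of_mem_nhds _ (inter_mem (hft.continuousAt.eventually_ne hne) ha)
  have := intervalIntegral.integral_pos pi_pos hc.continuousOn
    (fun s _ => integral_nonneg (h0 s)) ⟨t, ht, h1⟩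
  exact absurd hz (not_le.2 this)

lemma D2_le {κ C : ℝ} {X : Geo} {η v : ℝ → P → P} (h : Full κ C X) (hη : Adm X.M η v) :
    D2 X η ≤ 1024 := by
  have h1 : D2 X η ≤ dbl X.M fun _ _ => (16 : ℝ) :=
    dbl_mono h.M_compact ((h.nice_d2 hη).pow 2) (Nice.const 16) fun t ht a ha => by
      have := (h.d_le hη ht ha).2
      rw [← sq_abs]; nlinarith [abs_nonneg (d2 X η t a)]
  rw [dbl_space (fun _ => (16 : ℝ)), setIntegral_const, smul_eq_mul] at h1
  have := h.vol_M
  have h2 : 0 ≤ volume.real X.M := measureReal_nonneg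
  nlinarith [pi_lt_four, pi_pos]

end LOW

open LOW in
theorem blk_LOW (hL : St_WL) (hM : St_MONO) (hE : St_ENER) (h0 : St_INT0) (h1 : St_INT1) :
    St_LOW := by
  intro C
  obtain ⟨CW, -, hL⟩ := hL
  obtain ⟨C', hC', hE⟩ := hE C
  set Cp := C' + 1 with hCp
  have hCp0 : 0 < Cp := by linarith
  obtain ⟨τ0, hτ0, h0⟩ := h0 C (1 / (4 * Cp)) (by positivity)
  obtain ⟨τ1, hτ1, h1⟩ := h1 (2048 * Cp) (by positivity)
  set τ := min (min τ0 τ1) 1 with hτ
  have hτp : 0 < τ := by positivity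
  obtain ⟨n0, hn0, h0⟩ := h0 τ hτp ((min_le_left _ _).trans (min_le_left _ _))
  obtain ⟨n1, hn1, h1⟩ := h1 τ hτp ((min_le_left _ _).trans (min_le_right _ _))
  have hn : 0 < min n0 n1 := by positivity
  obtain ⟨l, K, κm, hl, hlτ, hln, hK, hκm, hM⟩ := hM C τ (min n0 n1) hτp (min_le_right _ _) hn
  obtain ⟨C0, hC0, h0⟩ := h0 _ l K hn (min_le_left _ _) hl hlτ hln hK
  obtain ⟨ε, hε, h1⟩ := h1 _ l K hn (min_le_right _ _) hl hlτ hln hK
  refine ⟨min (min κm (1 / (40 * Cp))) (min (ε / (40960 * Cp)) (1 / (80 * Cp * (C0 + 1)))),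
    by positivity, fun κ X hκ h η v hη he hlip => ?_⟩
  have k1 : κ ≤ κm := hκ.trans ((min_le_left _ _).trans (min_le_left _ _))
  have k2 : κ * (40 * Cp) ≤ 1 :=
    (le_div_iff₀ (by positivity)).1 (hκ.trans ((min_le_left _ _).trans (min_le_right _ _)))
  have k3 : κ * (40960 * Cp) ≤ ε :=
    (le_div_iff₀ (by positivity)).1 (hκ.trans ((min_le_right _ _).trans (min_le_left _ _)))
  have k4 : κ * (80 * Cp * (C0 + 1)) ≤ 1 :=
    (le_div_iff₀ (by positivity)).1 (hκ.trans ((min_le_right _ _).trans (min_le_right _ _)))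
  have kp := h.κ_pos
  have kl := h.κ_le
  by_contra hc
  have hc := not_lt.1 hc
  have e := hE κ X h η v hη he
  have hI : 0 ≤ II X η v := setIntegral_nonneg h.M_meas fun a ha => (hL κ C X h η v hη he a ha).1
  have hJ : 0 ≤ JJ X η := setIntegral_nonneg h.M_meas fun a ha => (hL κ C X h η v hη he a ha).2.1
  have hE2 : 0 ≤ E2 X v := dbl_nonneg h.M_compact fun _ _ _ _ => sq_nonneg _
  have hD2 : 0 ≤ D2 X η := dbl_nonneg h.M_compact fun _ _ _ _ => sq_nonneg _
  have hD := D2_le h hη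
  set I := II X η v
  set J := JJ X η
  set E := E2 X v
  set D := D2 X η
  have key : (I + J) / 40 + κ / 2 * E ≤ Cp * κ * D := by
    have a1 : κ / 20 * I ≤ I / 2 := by nlinarith
    have a2 : C' * κ ^ 2 * (D + I + J) ≤ Cp * κ ^ 2 * (D + I + J) := by gcongr; linarith
    have a3 : κ * (κ * (40 * Cp)) * (I + J) ≤ κ * 1 * (I + J) := by gcongr
    have a4 : κ * ((I + J) / 40 + κ / 2 * E) ≤ κ * (Cp * κ * D) := by nlinarith
    exact le_of_mul_le_mul_left a4 kp
  have hκD : Cp * κ * D ≤ Cp * κ * 1024 := by gcongr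
  rcases hM κ X k1 h η v hη he with hm | hm
  · have b := h0 κ X h η v hη he hm
    have b1 : Cp * κ * D ≤ Cp * κ * (1 / (4 * Cp) * E + C0 * (I + J)) := by gcongr
    have b2 : Cp * κ * (1 / (4 * Cp) * E + C0 * (I + J)) = κ / 4 * E + κ * Cp * C0 * (I + J) := by
      field_simp
    have b3 : κ * Cp * C0 * (I + J) ≤ 1 / 80 * (I + J) := by
      gcongr; nlinarith [mul_pos kp hCp0]
    have b4 : 0 ≤ κ * E := by positivity
    have bJ : J ≤ 0 := by linarith
    have bI : I ≤ 0 := by linarith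
    have bE : E ≤ 0 := by
      have : κ * E ≤ κ * 0 := by linarith
      exact le_of_mul_le_mul_left this kp
    have bD : D ≤ 0 := by
      have : 1 / (4 * Cp) * E ≤ 0 := mul_nonpos_of_nonneg_of_nonpos (by positivity) bE
      have : C0 * (I + J) ≤ 0 := mul_nonpos_of_nonneg_of_nonpos hC0 (by linarith)
      linarith
    have ht : π / 2 ∈ Icc 0 π := ⟨by positivity, by linarith [pi_pos]⟩
    have heq : ∀ a : P, ‖a‖ < 1 / 50 → η (π / 2) a = X.eta (π / 2) a := by
      intro a ha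
      have hn : X.M ∈ 𝓝 a := mem_of_superset (Metric.isOpen_ball.mem_nhds (by simpa using ha))
        (Metric.ball_subset_closedBall.trans h.M_ball)
      have c2 := eq_zero_of_dbl h.M_compact (f := fun t a => d2 X η t a ^ 2)
        ((h.continuous_d2 hη).pow 2) (fun _ _ => sq_nonneg _) bD ht hn
      have c1 := eq_zero_of_dbl h.M_compact
        (f := fun t a => (X.eta t a).1 ^ 4 * d1 X η t a ^ 2 + d1 X η t a ^ 6)
        (((h.eta_cont.fst.pow 4).mul ((h.continuous_d1 hη).pow 2)).add ((h.continuous_d1 hη).pow 6))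
        (fun _ _ => by positivity) (by rw [← h.JJ_eq hη]; exact bJ) ht hn
      have c3 : d1 X η (π / 2) a ^ 6 = 0 := by
        have : 0 ≤ (X.eta (π / 2) a).1 ^ 4 * d1 X η (π / 2) a ^ 2 := by positivity
        have : 0 ≤ d1 X η (π / 2) a ^ 6 := by positivity
        linarith
      exact Prod.ext (sub_eq_zero.1 (pow_eq_zero_iff (by norm_num) |>.1 c3))
        (sub_eq_zero.1 (pow_eq_zero_iff (by norm_num) |>.1 c2))
    obtain ⟨L, hLp⟩ := hlip
    obtain ⟨p, hp, hp'⟩ := h.nonlip L (1 / 50) (by norm_num)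
    have hpM : p ∈ X.M := h.M_ball (by simpa using hp.le)
    have h0M : (0 : P) ∈ X.M := h.M_ball (by simp)
    have := hLp.norm_sub_le hpM h0M
    rw [heq p hp, heq 0 (by simp), h.eta_origin, sub_zero, sub_zero] at this
    linarith
  · refine h1 κ C X h η v hη he ?_ ?_ hm
    · have : κ * E ≤ κ * (2048 * Cp) := by nlinarith
      exact le_of_mul_le_mul_left this kp
    · have : 0 ≤ κ * E := by positivity
      nlinarith

end Pool.Agent.Lib.MP_f62ea7_gt
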