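import Pool.Agent.Lib.MP_f62ea7_gt.Basic2

set_option autoImplicit false

open MeasureTheory Set Filter Topology Real
open scoped ContDiff ENNReal

namespace Pool.Agent.Lib.MP_f62ea7_gt

namespace MONO

/-- the second alternative of the pair lemma, for the difference `F'` of two trajectories -/
def Right (F' : ℝ → P) (t l d η' : ℝ) : Prop :=
  (∀ s ∈ Icc 0 π, l ≤ |s - t| → d < |(F' s).1|) ∧ (F' 0).1 * (F' π).1 < 0 ∧ (F' t).2 ≠ 0 ∧
    ∀ s, |s - t| ≤ l → |(F' s).2 - (F' t).2| ≤ η' * |(F' t).2|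

lemma Right.neg {F' : ℝ → P} {t l d η' : ℝ} (h : Right F' t l d η') :
    Right (fun s => -F' s) t l d η' := by
  obtain ⟨h1, h2, h3, h4⟩ := h
  refine ⟨fun s hs hl => ?_, ?_, ?_, fun s hs => ?_⟩
  · simpa using h1 s hs hl
  · simpa using h2
  · simpa using h3
  · have := h4 s hs
    simp only [Prod.snd_neg, abs_neg]
    rwa [show -(F' s).2 - -(F' t).2 = -((F' s).2 - (F' t).2) by ring, abs_neg]

lemma toC_neg (p : P) : toC (-p) = -toC p := by
  apply Complex.ext <;> simp [toC]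

lemma null_neg {F F' : ℝ → P} (h : Null F F') : Null (fun s => -F s) fun s => -F' s := by
  obtain ⟨L, h1, h2, h3⟩ := h
  refine ⟨L, h1, fun s hs => ?_, h3⟩
  simp only [toC_neg, h2 s hs, mul_neg]

lemma null_congr {F F' G G' : ℝ → P} (h : Null F F') (hG : ∀ s ∈ Icc 0 π, G s = F s)
    (hG' : ∀ s ∈ Icc 0 π, G' s = F' s) : Null G G' := by
  obtain ⟨L, h1, h2, h3⟩ := h
  exact ⟨L, h1, fun s hs => by rw [hG s hs, hG' s hs, h2 s hs], h3⟩

/-- the abstract lemma -/
lemma key (hW : St_WIND) {F F' : ℝ → P} (hF : ContinuousOn F (Icc 0 π))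
    (hF' : ContinuousOn F' (Icc 0 π)) (h0 : F 0 = F' 0) (hπ : F π = F' π)
    {t l d η' η0 N W L : ℝ} (hη : 0 ≤ η') (hη1 : η' ≤ 1 / 2) (hη2 : 2 * η' ≤ η0) (hL : 0 ≤ L)
    (hW0 : 0 ≤ W) (hd : ∀ s ∈ Icc 0 π, |(F s).1 - (F' s).1| ≤ d)
    (hp : |(F' t).2| ≤ L ∨ Right F' t l d η')
    (hn : ∀ s ∈ Icc 0 π, |s - t| ≤ l → |(F t).2 - (F' t).2 - ((F s).2 - (F' s).2)| ≤ W)
    (hN : |(F t).2 - (F' t).2| ≤ N) (hpos : 0 < (F t).2) :
    (Null F F' → min (F t).2 (-(F' t).2) ≤ η0 * N + 2 * W + L) ∧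
      (¬Null F F' → min (F t).2 (F' t).2 ≤ η0 * N + 2 * W + L) := by
  have hN0 : 0 ≤ N := (abs_nonneg _).trans hN
  have hηN : 0 ≤ η0 * N := mul_nonneg (by linarith) hN0
  rcases hp with hp | ⟨h1, h2, h3, h4⟩
  · have := abs_le.1 hp
    exact ⟨fun _ => (min_le_right _ _).trans (by linarith),
      fun _ => (min_le_right _ _).trans (by linarith)⟩
  have hd0 : 0 ≤ d := (abs_nonneg _).trans (hd 0 zero_mem_Icc)
  have est : (∃ s ∈ Icc 0 π, |s - t| ≤ l ∧ (F s).2 ≤ 0) → (F t).2 ≤ η0 * N + 2 * W + L := by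
    rintro ⟨s, hs, hsl, hs0⟩
    have a1 := (abs_le.1 (hn s hs hsl)).2
    have a2 := (abs_le.1 (h4 s hsl)).1
    have a3 : |(F' t).2| ≤ (F t).2 + N := by
      have := abs_le.1 hN
      rw [abs_le]; constructor <;> linarith
    have a4 : η' * |(F' t).2| ≤ η' * ((F t).2 + N) := mul_le_mul_of_nonneg_left a3 hη
    have a5 : η' * (F t).2 ≤ 1 / 2 * (F t).2 := mul_le_mul_of_nonneg_right hη1 hpos.le
    have a6 : 2 * η' * N ≤ η0 * N := mul_le_mul_of_nonneg_right hη2 hN0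
    nlinarith
  have win : ∀ s, |s - t| ≤ l → |(F' s).2 - (F' t).2| ≤ 1 / 2 * |(F' t).2| := fun s hs =>
    (h4 s hs).trans (mul_le_mul_of_nonneg_right hη1 (abs_nonneg _))
  constructor
  · intro hnull
    rcases le_or_gt 0 (F' t).2 with hD | hD
    · exact (min_le_right _ _).trans (by linarith)
    refine (min_le_left _ _).trans (est ?_)
    by_contra hc
    push Not at hc
    refine hW.2.1 F F' hF hF' h0 hπ (fun s hs hs0 => ?_) (fun s hs hs0 => ?_) h2 hnull
    · rcases le_or_gt l |s - t| with hl | hl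
      · have a1 := h1 s hs hl
        have a2 := hd s hs
        rw [hs0, zero_sub, abs_neg] at a2
        linarith
      · exact hc s hs hl.le
    · rcases le_or_gt l |s - t| with hl | hl
      · have a1 := h1 s hs hl
        rw [hs0, abs_zero] at a1
        linarith
      · have a1 := (abs_le.1 (win s hl.le)).2
        rw [abs_of_neg hD] at a1
        linarith
  · intro hnull
    rcases le_or_gt (F' t).2 0 with hD | hD
    · exact (min_le_right _ _).trans (by linarith)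
    refine (min_le_left _ _).trans (est ?_)
    by_contra hc
    push Not at hc
    refine hnull (hW.1 F F' hF hF' h0 hπ fun s hs => ?_)
    rcases le_or_gt l |s - t| with hl | hl
    · left
      have a1 := h1 s hs hl
      have a2 := abs_le.1 (hd s hs)
      rcases le_or_gt 0 (F' s).1 with hx | hx
      · rw [abs_of_nonneg hx] at a1
        exact mul_pos (by linarith) (by linarith)
      · rw [abs_of_neg hx] at a1
        exact mul_pos_of_neg_of_neg (by linarith) hx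
    · right
      have a1 := (abs_le.1 (win s hl.le)).1
      rw [abs_of_pos hD] at a1
      exact mul_pos (hc s hs hl.le) (by linarith)

variable {κ C : ℝ} {X : Geo} {η v : ℝ → P → P}

/-- the oscillation of `d2` on the window -/
lemma window (h : Full κ C X) (hη : Adm X.M η v) {a : P} (ha : a ∈ X.M) {t l s : ℝ} (hl : 0 ≤ l)
    (h1 : 0 ≤ t - l) (h2 : t + l ≤ π) (hs : s ∈ Icc 0 π) (hsl : |s - t| ≤ l) :
    |d2 X η t a - d2 X η s a| ≤ ∫ r in (t - l)..(t + l), |e2 X v r a| := by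
  have ht : t ∈ Icc 0 π := ⟨by linarith, by linarith⟩
  rw [← h.d2_ftc hη ha hs ht]
  have hi : IntervalIntegrable (fun r => |e2 X v r a|) volume (t - l) (t + l) :=
    (h.nice_e2 hη).abs.intervalIntegrable ha ⟨h1, by linarith⟩ ⟨by linarith, h2⟩
  have a1 : |∫ r in s..t, e2 X v r a| ≤ abs (∫ r in s..t, |e2 X v r a|) :=
    intervalIntegral.norm_integral_le_abs_integral_norm (f := fun r => e2 X v r a)
  have a2 : abs (∫ r in s..t, |e2 X v r a|) ≤ abs (∫ r in (t - l)..(t + l), |e2 X v r a|) := by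
    refine intervalIntegral.abs_integral_mono_interval ?_
      (Eventually.of_forall fun r => abs_nonneg _) hi
    have := abs_le.1 hsl
    rw [uIoc_of_le (show t - l ≤ t + l by linarith)]
    exact Ioc_subset_Ioc (le_min (by linarith) (by linarith)) (max_le (by linarith) (by linarith))
  have a3 : 0 ≤ ∫ r in (t - l)..(t + l), |e2 X v r a| :=
    intervalIntegral.integral_nonneg (by linarith) fun _ _ => abs_nonneg _
  rw [abs_of_nonneg a3] at a2
  exact a1.trans a2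

lemma win_nonneg (X : Geo) (v : ℝ → P → P) (a : P) (t : ℝ) {l : ℝ} (hl : 0 ≤ l) :
    0 ≤ ∫ r in (t - l)..(t + l), |e2 X v r a| :=
  intervalIntegral.integral_nonneg (by linarith) fun _ _ => abs_nonneg _

/-- the maximal horizontal deviation -/
lemma exists_da (h : Full κ C X) (hη : Adm X.M η v) {a : P} {CW : ℝ}
    (hL : ∀ s ∈ Icc 0 π, (‖X.Ψ a‖ ^ 2 + d1 X η s a ^ 2) * |d1 X η s a| ≤ CW * mm X η v a) :
    ∃ da : ℝ, 0 ≤ da ∧ (∀ s ∈ Icc 0 π, |d1 X η s a| ≤ da) ∧
      (‖X.Ψ a‖ ^ 2 + da ^ 2) * da ≤ CW * mm X η v a := by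
  obtain ⟨s0, hs0, hmax⟩ := isCompact_Icc.exists_isMaxOn (f := fun s => |d1 X η s a|)
    ⟨0, zero_mem_Icc⟩ (h.continuous_d1_time hη a).abs.continuousOn
  refine ⟨|d1 X η s0 a|, abs_nonneg _, fun s hs => hmax hs, ?_⟩
  rw [sq_abs]
  exact hL s0 hs0

lemma left_two {x y a b : ℝ} (hx : 0 ≤ x) (hy : 0 ≤ y) (ha : 0 ≤ a) (hb : 0 ≤ b) :
    (min x y ^ 2 + (a + b) ^ 2) * (a + b) ≤ 4 * ((x ^ 2 + a ^ 2) * a + (y ^ 2 + b ^ 2) * b) := by
  have h0 : 0 ≤ min x y := le_min hx hy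
  have h1 : min x y ^ 2 ≤ x ^ 2 := pow_le_pow_left₀ h0 (min_le_left _ _) 2
  have h2 : min x y ^ 2 ≤ y ^ 2 := pow_le_pow_left₀ h0 (min_le_right _ _) 2
  have h3 := mul_le_mul_of_nonneg_right h1 ha
  have h4 := mul_le_mul_of_nonneg_right h2 hb
  have h5 : 0 ≤ (a + b) * (a - b) ^ 2 := by positivity
  have h6 : 0 ≤ x ^ 2 * a := by positivity
  have h7 : 0 ≤ y ^ 2 * b := by positivity
  nlinarith

lemma left_one {x y a : ℝ} (hx : 0 ≤ x) (hy : 0 ≤ y) (ha : 0 ≤ a) :
    (min x y ^ 2 + a ^ 2) * a ≤ 4 * ((x ^ 2 + a ^ 2) * a) := by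
  have := left_two hx hy ha le_rfl
  simpa using this

/-- the conclusion of the pair lemma for fixed constants -/
def PairC (X : Geo) (τ η' l K : ℝ) : Prop :=
  ∀ z ∈ X.W, ∀ z' ∈ X.W, ∀ t ∈ Icc τ (π - τ), ∀ d : ℝ,
    |(X.g t z).1 - (X.g t z').1| ≤ d →
    |X.Y (X.g t z) - X.Y (X.g t z')| ≤ K * ((min ‖z‖ ‖z'‖ ^ 2 + d ^ 2) * d) ∨
    ((∀ s ∈ Icc 0 π, l ≤ |s - t| → d < |(X.g s z).1 - (X.g s z').1|) ∧
      ((X.g 0 z).1 - (X.g 0 z').1) * ((X.g π z).1 - (X.g π z').1) < 0 ∧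
      X.Y (X.g t z) - X.Y (X.g t z') ≠ 0 ∧
      ∀ s, |s - t| ≤ l → |X.Y (X.g s z) - X.Y (X.g s z') - (X.Y (X.g t z) - X.Y (X.g t z'))| ≤
        η' * |X.Y (X.g t z) - X.Y (X.g t z')|)

/-- the conclusion of the Wirtinger lemma used here -/
def WirC (X : Geo) (η v : ℝ → P → P) (CW : ℝ) : Prop :=
  ∀ a ∈ X.M, ∀ s ∈ Icc 0 π, (‖X.Ψ a‖ ^ 2 + d1 X η s a ^ 2) * |d1 X η s a| ≤ CW * mm X η v a

/-- two fluid particles on a vertical line -/
lemma pair (hW : St_WIND) (h : Full κ C X) (hη : Adm X.M η v) (he : Ends X η)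
    {τ η' η0 l K CW t : ℝ} (hl : 0 < l) (hlτ : l ≤ τ) (hη0 : 0 ≤ η') (hη1 : η' ≤ 1 / 2)
    (hη2 : 2 * η' ≤ η0) (hK : 0 ≤ K) (hCW : 0 ≤ CW) (hP : PairC X τ η' l K) (hL : WirC X η v CW)
    (ht : t ∈ Icc τ (π - τ)) {a a' : P} (ha : a ∈ X.M) (ha' : a' ∈ X.M)
    (h1 : (η t a).1 = (η t a').1) (h2 : (η t a').2 < (η t a).2) :
    (Null (fun s => η s a - η s a') (fun s => X.eta s a - X.eta s a') →
      min ((η t a).2 - (η t a').2) ((X.eta t a').2 - (X.eta t a).2) ≤
        ee X η v η0 l (4 * K * CW) t a + ee X η v η0 l (4 * K * CW) t a') ∧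
    (¬Null (fun s => η s a - η s a') (fun s => X.eta s a - X.eta s a') →
      min ((η t a).2 - (η t a').2) ((X.eta t a).2 - (X.eta t a').2) ≤
        ee X η v η0 l (4 * K * CW) t a + ee X η v η0 l (4 * K * CW) t a') := by
  obtain ⟨da, hda0, hda, hdaL⟩ := exists_da h hη (hL a ha)
  obtain ⟨db, hdb0, hdb, hdbL⟩ := exists_da h hη (hL a' ha')
  have ht1 : 0 ≤ t - l := by linarith [ht.1]
  have ht2 : t + l ≤ π := by linarith [ht.2]
  have ht0 : t ∈ Icc 0 π := ⟨by linarith, by linarith⟩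
  have hd : ∀ s ∈ Icc 0 π, |(η s a - η s a').1 - (X.eta s a - X.eta s a').1| ≤ da + db := by
    intro s hs
    have : (η s a - η s a').1 - (X.eta s a - X.eta s a').1 = d1 X η s a - d1 X η s a' := by
      simp only [d1, Prod.fst_sub]; ring
    rw [this]
    exact (abs_sub _ _).trans (add_le_add (hda s hs) (hdb s hs))
  have hn : ∀ s, (η s a - η s a').2 - (X.eta s a - X.eta s a').2 = d2 X η s a - d2 X η s a' := by
    intro s
    simp only [d2, Prod.snd_sub]; ring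
  have hm := Full.mm_nonneg X η v a
  have hm' := Full.mm_nonneg X η v a'
  have k := key hW (F := fun s => η s a - η s a') (F' := fun s => X.eta s a - X.eta s a')
    ((hη.continuous_time a).sub (hη.continuous_time a')).continuousOn
    ((h.adm.continuous_time a).sub (h.adm.continuous_time a')).continuousOn
    (by simp only [(he a ha).1, (he a' ha').1, h.eta_zero a ha.1, h.eta_zero a' ha'.1])
    (by simp only [(he a ha).2, (he a' ha').2])
    (t := t) (l := l) (d := da + db) (η' := η') (η0 := η0)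
    (N := |d2 X η t a| + |d2 X η t a'|)
    (W := (∫ r in (t - l)..(t + l), |e2 X v r a|) + ∫ r in (t - l)..(t + l), |e2 X v r a'|)
    (L := 4 * K * CW * mm X η v a + 4 * K * CW * mm X η v a') hη0 hη1 hη2 (by positivity)
    (add_nonneg (win_nonneg X v a t hl.le) (win_nonneg X v a' t hl.le)) hd ?_ ?_ ?_ ?_
  · have e : ee X η v η0 l (4 * K * CW) t a + ee X η v η0 l (4 * K * CW) t a' =
        η0 * (|d2 X η t a| + |d2 X η t a'|) +
          2 * ((∫ r in (t - l)..(t + l), |e2 X v r a|) + ∫ r in (t - l)..(t + l), |e2 X v r a'|) +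
          (4 * K * CW * mm X η v a + 4 * K * CW * mm X η v a') := by
      unfold ee; ring
    rw [e]
    simp only [Prod.snd_sub, neg_sub] at k
    exact k
  · have hx : |(X.g t (X.Ψ a)).1 - (X.g t (X.Ψ a')).1| ≤ da + db := by
      have := hd t ht0
      rw [Prod.fst_sub, h1, sub_self, zero_sub, abs_neg] at this
      exact this
    rcases hP _ (h.M_W ha) _ (h.M_W ha') t ht _ hx with hp | hp
    · left
      refine le_trans hp ?_
      have a1 := left_two (norm_nonneg (X.Ψ a)) (norm_nonneg (X.Ψ a')) hda0 hdb0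
      have a2 : (min ‖X.Ψ a‖ ‖X.Ψ a'‖ ^ 2 + (da + db) ^ 2) * (da + db) ≤
          4 * (CW * mm X η v a + CW * mm X η v a') := by linarith
      refine (mul_le_mul_of_nonneg_left a2 hK).trans (le_of_eq (by ring))
    · exact Or.inr hp
  · intro s hs hsl
    rw [hn, hn, show d2 X η t a - d2 X η t a' - (d2 X η s a - d2 X η s a') =
      (d2 X η t a - d2 X η s a) - (d2 X η t a' - d2 X η s a') by ring]
    exact (abs_sub _ _).trans (add_le_add (window h hη ha hl.le ht1 ht2 hs hsl)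
      (window h hη ha' hl.le ht1 ht2 hs hsl))
  · rw [hn]
    exact abs_sub _ _
  · simp only [Prod.snd_sub]
    linarith

/-- a fluid particle and a point outside the domain on a vertical line -/
lemma mixed (hW : St_WIND) (h : Full κ C X) (hη : Adm X.M η v) (he : Ends X η)
    {τ η' η0 l K CW t : ℝ} (hl : 0 < l) (hlτ : l ≤ τ) (hη0 : 0 ≤ η') (hη1 : η' ≤ 1 / 2)
    (hη2 : 2 * η' ≤ η0) (hK : 0 ≤ K) (hCW : 0 ≤ CW) (hP : PairC X τ η' l K) (hL : WirC X η v CW)
    (ht : t ∈ Icc τ (π - τ)) {a p : P} (ha : a ∈ X.M) (hp : ‖p‖ ≤ 2) (hpM : p ∉ X.M)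
    (h1 : (η t a).1 = p.1) :
    (p.2 < (η t a).2 → min ((η t a).2 - p.2) (p.2 - (X.eta t a).2) ≤
      ee X η v η0 l (4 * K * CW) t a) ∧
    ((η t a).2 < p.2 → min (p.2 - (η t a).2) ((X.eta t a).2 - p.2) ≤
      ee X η v η0 l (4 * K * CW) t a) := by
  obtain ⟨da, hda0, hda, hdaL⟩ := exists_da h hη (hL a ha)
  have ht1 : 0 ≤ t - l := by linarith [ht.1]
  have ht2 : t + l ≤ π := by linarith [ht.2]
  have ht0 : t ∈ Icc 0 π := ⟨by linarith, by linarith⟩
  obtain ⟨z', hz'⟩ : ∃ z', z' = X.g (-t) (X.Ψ p) := ⟨_, rfl⟩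
  have hpW := h.box_W p hp
  have hzW : z' ∈ X.W := hz' ▸ h.g_mem _ hpW _
  have hzw : X.w z' = X.w (X.Ψ p) := hz' ▸ h.g_w _ hpW _
  obtain ⟨b, hb⟩ : ∃ b : ℝ → P, b = fun s => X.Φ (X.g s z') := ⟨_, rfl⟩
  have hbt : b t = p := by
    simp only [hb, hz']
    rw [← h.g_add, add_neg_cancel, h.g_zero, h.ΦΨ p (by linarith)]
  have hbc : Continuous b := by
    rw [hb]
    exact h.Φ_cont.comp (h.g_sm.continuous.comp (continuous_id.prodMk continuous_const))
  have hbM : ∀ s, b s ∉ X.Φ '' X.Ml := by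
    rintro s ⟨ζ, hζ, e⟩
    have e1 : ζ = X.g s z' := by
      rw [← h.ΨΦ ζ hζ.1, e, hb, h.ΨΦ _ (h.g_mem _ hzW s).1]
    refine hpM ⟨hp, ?_⟩
    rw [← hzw, ← h.g_w _ hzW s, ← e1]
    exact hζ.2
  have hnull : Null (fun s => η s a - b s) fun s => X.eta s a - b s := by
    refine null_congr (hW.2.2.2 X.Ml X.Φ (fun s => X.Ψ (η s a)) (fun s => X.Ψ (X.eta s a)) b
      h.Ml_star h.Φ_cont (h.Ψ_cont.comp (hη.continuous_time a)).continuousOn
      (h.Ψ_cont.comp (h.adm.continuous_time a)).continuousOn hbc.continuousOn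
      (fun s hs => ⟨h.M_Ml (hη.maps s hs ha), h.M_Ml (h.eta_M a ha s), hbM s⟩)
      (by simp only [(he a ha).1, h.eta_zero a ha.1]) (by simp only [(he a ha).2]))
      (fun s hs => ?_) (fun s _ => ?_)
    · rw [h.ΦΨ _ (by linarith [(hη.maps s hs ha).1])]
    · rw [h.ΦΨ _ (by linarith [(h.eta_M a ha s).1])]
  have hd : ∀ s ∈ Icc 0 π, |(η s a - b s).1 - (X.eta s a - b s).1| ≤ da := by
    intro s hs
    have : (η s a - b s).1 - (X.eta s a - b s).1 = d1 X η s a := by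
      simp only [d1, Prod.fst_sub]; ring
    rw [this]
    exact hda s hs
  have hn : ∀ s, (η s a - b s).2 - (X.eta s a - b s).2 = d2 X η s a := by
    intro s
    simp only [d2, Prod.snd_sub]; ring
  have hm := Full.mm_nonneg X η v a
  have hc1 : Continuous fun s => η s a - b s := (hη.continuous_time a).sub hbc
  have hc2 : Continuous fun s => X.eta s a - b s := (h.adm.continuous_time a).sub hbc
  have he0 : η 0 a - b 0 = X.eta 0 a - b 0 := by rw [(he a ha).1, h.eta_zero a ha.1]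
  have heπ : η π a - b π = X.eta π a - b π := by rw [(he a ha).2]
  have hpair : |(X.eta t a - b t).2| ≤ 4 * K * CW * mm X η v a ∨
      Right (fun s => X.eta s a - b s) t l da η' := by
    have hx : |(X.g t (X.Ψ a)).1 - (X.g t z').1| ≤ da := by
      have := hd t ht0
      rw [Prod.fst_sub, hbt, h1, sub_self, zero_sub, abs_neg, ← hbt, hb] at this
      exact this
    rw [hb]
    rcases hP _ (h.M_W ha) _ hzW t ht _ hx with hq | hq
    · left
      refine le_trans hq ?_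
      have a1 := left_one (norm_nonneg (X.Ψ a)) (norm_nonneg z') hda0
      have a2 : (min ‖X.Ψ a‖ ‖z'‖ ^ 2 + da ^ 2) * da ≤ 4 * (CW * mm X η v a) := by linarith
      refine (mul_le_mul_of_nonneg_left a2 hK).trans (le_of_eq (by ring))
    · exact Or.inr hq
  constructor
  · intro h2
    have k := (key hW (F := fun s => η s a - b s) (F' := fun s => X.eta s a - b s)
      hc1.continuousOn hc2.continuousOn he0 heπ (t := t) (l := l) (d := da) (η' := η') (η0 := η0)
      (N := |d2 X η t a|) (W := ∫ r in (t - l)..(t + l), |e2 X v r a|)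
      (L := 4 * K * CW * mm X η v a) hη0 hη1 hη2 (by positivity) (win_nonneg X v a t hl.le) hd
      hpair (fun s hs hsl => ?_) ?_ ?_).1 hnull
    · simp only [Prod.snd_sub, neg_sub, hbt] at k
      exact k
    · rw [hn, hn]
      exact window h hη ha hl.le ht1 ht2 hs hsl
    · rw [hn]
    · simp only [Prod.snd_sub, hbt]
      linarith
  · intro h2
    have hn' : ∀ s, (-(η s a - b s)).2 - (-(X.eta s a - b s)).2 = -d2 X η s a := by
      intro s
      rw [← hn, Prod.snd_neg, Prod.snd_neg]; ring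
    have k := (key hW (F := fun s => -(η s a - b s)) (F' := fun s => -(X.eta s a - b s))
      hc1.neg.continuousOn hc2.neg.continuousOn (congrArg Neg.neg he0) (congrArg Neg.neg heπ)
      (t := t) (l := l) (d := da) (η' := η') (η0 := η0)
      (N := |d2 X η t a|) (W := ∫ r in (t - l)..(t + l), |e2 X v r a|)
      (L := 4 * K * CW * mm X η v a) hη0 hη1 hη2 (by positivity) (win_nonneg X v a t hl.le)
      (fun s hs => ?_) ?_ (fun s hs hsl => ?_) ?_ ?_).1 (null_neg hnull)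
    · simp only [Prod.snd_sub, neg_sub, hbt] at k
      exact k
    · rw [Prod.fst_neg, Prod.fst_neg, neg_sub_neg, abs_sub_comm]
      exact hd s hs
    · rcases hpair with hq | hq
      · left
        rw [Prod.snd_neg, abs_neg]
        exact hq
      · exact Or.inr hq.neg
    · rw [hn', hn', neg_sub_neg, abs_sub_comm]
      exact window h hη ha hl.le ht1 ht2 hs hsl
    · rw [hn', abs_neg]
    · simp only [Prod.snd_sub, neg_sub, hbt]
      linarith

/-- all pairs have winding number zero, or none -/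
lemma dichotomy (hW : St_WIND) (h : Full κ C X) (hη : Adm X.M η v) (he : Ends X η) :
    (∀ a ∈ X.M, ∀ a' ∈ X.M, a ≠ a' →
      Null (fun s => η s a - η s a') fun s => X.eta s a - X.eta s a') ∨
    ∀ a ∈ X.M, ∀ a' ∈ X.M, a ≠ a' →
      ¬Null (fun s => η s a - η s a') fun s => X.eta s a - X.eta s a' := by
  have hM : ∀ z ∈ X.Ml, X.Φ z ∈ X.M := fun z hz => h.M_eq ▸ mem_image_of_mem _ hz
  have hinj : InjOn X.Φ X.Ml := fun z hz z' hz' e => by
    rw [← h.ΨΦ z hz.1, e, h.ΨΦ z' hz'.1]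
  have hΦ : ∀ a ∈ X.M, X.Φ (X.Ψ a) = a := fun a ha => h.ΦΨ a (by linarith [ha.1])
  have hne : ∀ a ∈ X.M, ∀ a' ∈ X.M, a ≠ a' → X.Ψ a ≠ X.Ψ a' := fun a ha a' ha' hn e =>
    hn (by rw [← hΦ a ha, e, hΦ a' ha'])
  rcases hW.2.2.1 X.Ml (1 / 2) (fun s z => η s (X.Φ z)) (fun s z => X.eta s (X.Φ z)) h.Ml_star
    (by norm_num) h.Ml_ball
    (hη.cont.comp (continuous_fst.prodMk (h.Φ_cont.comp continuous_snd)))
    (h.eta_cont.comp (continuous_fst.prodMk (h.Φ_cont.comp continuous_snd)))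
    (fun s hs => ⟨(hη.injOn hs).comp hinj hM, (h.adm.injOn hs).comp hinj hM⟩)
    (fun z hz => ⟨by rw [(he _ (hM z hz)).1, h.eta_zero _ (hM z hz).1], (he _ (hM z hz)).2⟩)
    with k | k
  · left
    intro a ha a' ha' hn
    have := k _ (h.M_Ml ha) _ (h.M_Ml ha') (hne a ha a' ha' hn)
    simpa only [hΦ a ha, hΦ a' ha'] using this
  · right
    intro a ha a' ha' hn
    have := k _ (h.M_Ml ha) _ (h.M_Ml ha') (hne a ha a' ha' hn)
    simpa only [hΦ a ha, hΦ a' ha'] using this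

end MONO

theorem blk_MONO (hP : St_PAIR) (hW : St_WIND) (hL : St_WL) : St_MONO := by
  intro C τ η0 hτ hτ1 hη0
  obtain ⟨CW, hCW, hL⟩ := hL
  have hη' : 0 < min (η0 / 2) (1 / 2) := lt_min (by linarith) (by norm_num)
  have hη1 : min (η0 / 2) (1 / 2) ≤ 1 / 2 := min_le_right _ _
  have hη2 : 2 * min (η0 / 2) (1 / 2) ≤ η0 := by linarith [min_le_left (η0 / 2) (1 / 2)]
  obtain ⟨l, K, κ1, hl, hlτ, hlη, hK, hκ1, hP⟩ := hP C τ _ hτ hτ1 hη'
  refine ⟨l, 4 * K * CW, κ1, hl, hlτ, by linarith, by positivity, hκ1,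
    fun κ X hκ h η v hη he => ?_⟩
  have hPc : MONO.PairC X τ (min (η0 / 2) (1 / 2)) l K := hP κ X hκ h
  have hLc : MONO.WirC X η v CW := fun a ha => (hL κ C X h η v hη he a ha).2.2.2
  have hne : ∀ {t : ℝ} {a a' : P}, (η t a').2 < (η t a).2 → a ≠ a' := by
    rintro t a a' h2 rfl
    exact lt_irrefl _ h2
  rcases MONO.dichotomy hW h hη he with k | k
  · refine Or.inl fun t ht => ⟨fun a ha a' ha' h1 h2 => ?_, fun a ha p hp hpM h1 => ?_⟩
    · exact (MONO.pair hW h hη he hl hlτ hη'.le hη1 hη2 hK hCW hPc hLc ht ha ha' h1 h2).1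
        (k a ha a' ha' (hne h2))
    · exact MONO.mixed hW h hη he hl hlτ hη'.le hη1 hη2 hK hCW hPc hLc ht ha hp hpM h1
  · refine Or.inr fun t ht a ha a' ha' h1 h2 => ?_
    exact (MONO.pair hW h hη he hl hlτ hη'.le hη1 hη2 hK hCW hPc hLc ht ha ha' h1 h2).2
      (k a ha a' ha' (hne h2))

end Pool.Agent.Lib.MP_f62ea7_gt
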