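import Pool.Agent.Lib.MP_f62ea7_gt.Basic

set_option autoImplicit false

open MeasureTheory Set Filter Topology Real

namespace Pool.Agent.Lib.MP_f62ea7_gt

namespace PAIR

lemma sin_lo {l σ : ℝ} (hl : 0 ≤ l) (h1 : l ≤ σ) (h2 : σ ≤ π - l) : l / 2 ≤ sin σ := by
  have key {x : ℝ} (h1 : l ≤ x) (h2 : x ≤ π / 2) : l / 2 ≤ sin x := by
    refine le_trans ?_ (mul_le_sin (hl.trans h1) h2)
    have h3 : 1 / 2 ≤ 2 / π := by
      rw [div_le_div_iff₀ two_pos pi_pos]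
      linarith [pi_le_four]
    nlinarith
  rcases le_total σ (π / 2) with h | h
  · exact key h1 h
  · rw [← sin_pi_sub]
    exact key (by linarith) (by linarith)

lemma left_aux {C K0 m d a b n y : ℝ} (hC : 0 ≤ C) (hK : 0 ≤ K0) (hd : 0 ≤ d) (ha0 : 0 ≤ a)
    (hb0 : 0 ≤ b) (ha : a ≤ 2 * m) (hb : b ≤ a + n) (hn0 : 0 ≤ n) (hn : n ≤ K0 * d)
    (hy : y ≤ C * (a ^ 2 + b ^ 2) * n) : y ≤ C * K0 * (12 + 2 * K0 ^ 2) * ((m ^ 2 + d ^ 2) * d) := by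
  have h1 : a ^ 2 ≤ 4 * m ^ 2 := by nlinarith
  have h2 : n ^ 2 ≤ K0 ^ 2 * d ^ 2 := by nlinarith
  have h3 : b ^ 2 ≤ 2 * a ^ 2 + 2 * n ^ 2 := by nlinarith [sq_nonneg (a - n)]
  have h4 : a ^ 2 + b ^ 2 ≤ (12 + 2 * K0 ^ 2) * (m ^ 2 + d ^ 2) := by
    nlinarith [mul_nonneg (sq_nonneg K0) (sq_nonneg m), sq_nonneg d]
  calc y ≤ C * (a ^ 2 + b ^ 2) * n := hy
    _ ≤ C * ((12 + 2 * K0 ^ 2) * (m ^ 2 + d ^ 2)) * (K0 * d) := by gcongr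
    _ = _ := by ring

lemma sign_aux {μ ξ sn l : ℝ} (hl : 0 < l) (hμ : μ ≠ 0) (h : |ξ - μ * sn| ≤ l / 4 * |μ|)
    (hs : l / 2 ≤ sn) : 0 < μ * ξ ∧ l / 4 * |μ| ≤ |ξ| := by
  rcases lt_or_gt_of_ne hμ with h0 | h0
  · rw [abs_of_neg h0, abs_le] at h
    have h1 : ξ ≤ l / 4 * μ := by nlinarith [h.2]
    have h2 : ξ < 0 := by nlinarith
    rw [abs_of_neg h0, abs_of_neg h2]
    exact ⟨mul_pos_of_neg_of_neg h0 h2, by linarith⟩
  · rw [abs_of_pos h0, abs_le] at h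
    have h1 : l / 4 * μ ≤ ξ := by nlinarith [h.1]
    have h2 : 0 < ξ := by nlinarith
    rw [abs_of_pos h0, abs_of_pos h2]
    exact ⟨mul_pos h0 h2, h1⟩

lemma norm_rot_le (σ : ℝ) (z : P) : ‖rot σ z‖ ≤ 2 * ‖z‖ := by
  have h (a b : ℝ) (ha : |a| ≤ ‖z‖) (hb : |b| ≤ ‖z‖) (c s : ℝ) (hc : |c| ≤ 1) (hs : |s| ≤ 1) :
      |a * c + b * s| ≤ 2 * ‖z‖ := by
    refine (abs_add_le _ _).trans ?_
    rw [abs_mul, abs_mul]
    nlinarith [abs_nonneg a, abs_nonneg b, abs_nonneg c, abs_nonneg s]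
  exact norm_le_iff.2 ⟨h _ _ (abs_fst_le z) (abs_snd_le z) _ _ (abs_cos_le_one σ)
    (abs_sin_le_one σ), h _ _ (by rw [abs_neg]; exact abs_fst_le z) (abs_snd_le z) _ _
      (abs_sin_le_one σ) (abs_cos_le_one σ)⟩

lemma Y_abs {κ C : ℝ} {D : Dat} (h : Est κ C D) {x u u' : ℝ} (hx : |x| ≤ 5) (hu : |u| ≤ 5)
    (hu' : |u'| ≤ 5) : (x ^ 2 + u ^ 2 + u' ^ 2) / 20 * |u - u'| ≤ |D.Y (x, u) - D.Y (x, u')| := by
  rcases le_total u' u with e | e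
  · rw [abs_of_nonneg (sub_nonneg.2 e)]
    exact (h.Y_lo x u u' hx hu hu' e).trans (le_abs_self _)
  · rw [abs_sub_comm, abs_of_nonneg (sub_nonneg.2 e), abs_sub_comm]
    refine le_trans (le_of_eq ?_) ((h.Y_lo x u' u hx hu' hu e).trans (le_abs_self _))
    ring

end PAIR

open PAIR in
theorem blk_PAIR : St_PAIR := by
  intro C τ η0 hτ hτ1 hη
  by_cases hC : 1 ≤ C
  swap
  · exact ⟨min τ η0, 0, 1, lt_min hτ hη, min_le_left _ _, min_le_right _ _, le_rfl, one_pos,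
      fun κ X _ h => absurd h.C_ge hC⟩
  have hC0 : 0 < C := one_pos.trans_le hC
  obtain ⟨l, hl, hlτ, hlη⟩ : ∃ l : ℝ, 0 < l ∧ l ≤ τ ∧ 2880 * C * l ≤ η0 :=
    ⟨min τ (η0 / (2880 * C)), lt_min hτ (by positivity), min_le_left _ _, by
      rw [mul_comm, ← le_div_iff₀ (by positivity)]; exact min_le_right _ _⟩
  obtain ⟨K0, hK1, hK2⟩ : ∃ K0 : ℝ, 8 ≤ l * K0 ∧ 480 * C ≤ K0 :=
    ⟨8 / l + 480 * C, by
      rw [mul_add, mul_div_cancel₀ _ hl.ne']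
      linarith [mul_pos hl (mul_pos (show (0 : ℝ) < 480 by norm_num) hC0)], by
      linarith [div_pos (show (0 : ℝ) < 8 by norm_num) hl]⟩
  have hK0 : 1 ≤ K0 := by linarith
  refine ⟨l, C * K0 * (12 + 2 * K0 ^ 2), l / (8 * C), hl, hlτ, by nlinarith only [hlη, hl, hC], by positivity,
    by positivity, fun κ X hκ h z hz z' hz' t ht d hd => ?_⟩
  have hCκ : C * κ ≤ l / 8 := by
    rw [le_div_iff₀ (by positivity)] at hκ
    linarith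
  have hd0 : 0 ≤ d := (abs_nonneg _).trans hd
  have hsh (s : ℝ) (y : P) : X.g s y = X.g (s - t) (X.g t y) := by
    rw [← h.g_add, sub_add_cancel]
  have hW₁ := h.g_mem z hz t
  have hW₂ := h.g_mem z' hz' t
  have hn₁ := h.g_norm z hz t
  have hn₂ := h.g_norm z' hz' t
  have hder (s : ℝ) : HasDerivAt (fun σ => X.Y (X.g σ z) - X.Y (X.g σ z'))
      (X.V (X.g s z) - X.V (X.g s z')) s :=
    (hasFDerivAt_snd.comp_hasDerivAt s (h.lab_der z hz s)).sub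
      (hasFDerivAt_snd.comp_hasDerivAt s (h.lab_der z' hz' s))
  have hg (s : ℝ) : X.g s z = X.g (s - t) (X.g t z) := hsh s z
  have hg' (s : ℝ) : X.g s z' = X.g (s - t) (X.g t z') := hsh s z'
  have hV' (s : ℝ) := h.V_lip _ _ (h.g_mem z hz s).1 (h.g_mem z' hz' s).1
  obtain ⟨z₁, hz₁⟩ : ∃ y, X.g t z = y := ⟨_, rfl⟩
  obtain ⟨z₂, hz₂⟩ : ∃ y, X.g t z' = y := ⟨_, rfl⟩
  rw [hz₁] at hW₁ hn₁ hg hd
  rw [hz₂] at hW₂ hn₂ hg' hd
  rw [hz₁, hz₂]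
  by_cases hc : |z₁.2 - z₂.2| ≤ K0 * d
  · left
    have hn : ‖z₁ - z₂‖ ≤ K0 * d := norm_le_iff.2 ⟨hd.trans (le_mul_of_one_le_left hd0 hK0), hc⟩
    have hy := h.Y_lip z₁ z₂ hW₁.1 hW₂.1
    rcases le_total ‖z‖ ‖z'‖ with e | e
    · rw [min_eq_left e]
      exact left_aux hC0.le (by linarith) hd0 (norm_nonneg _) (norm_nonneg _) hn₁
        (by simpa [norm_sub_rev z₂ z₁] using norm_le_norm_add_norm_sub' z₂ z₁) (norm_nonneg _) hn hy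
    · rw [min_eq_right e]
      exact left_aux hC0.le (by linarith) hd0 (norm_nonneg _) (norm_nonneg _) hn₂
        (norm_le_norm_add_norm_sub' z₁ z₂) (norm_nonneg _) hn (by rwa [add_comm])
  right
  push Not at hc
  set μ := z₁.2 - z₂.2 with hμ
  have hμ0 : 0 < |μ| := (mul_nonneg (by linarith) hd0).trans_lt hc
  have hμ1 : μ ≠ 0 := abs_pos.1 hμ0
  have hdμ : d ≤ |μ| := (le_mul_of_one_le_left hd0 hK0).trans hc.le
  have hn : ‖z₁ - z₂‖ ≤ |μ| := norm_le_iff.2 ⟨hd.trans hdμ, le_rfl⟩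
  have hd8 : d < l / 8 * |μ| := by
    linarith only [mul_lt_mul_of_pos_left hc hl, mul_le_mul_of_nonneg_right hK1 hd0]
  have hrot (σ : ℝ) (hσ : |σ| ≤ 4) :
      ‖X.g σ z₁ - X.g σ z₂ - rot σ (z₁ - z₂)‖ ≤ l / 8 * |μ| :=
    (h.g_rot z₁ hW₁ z₂ hW₂ σ hσ).trans (mul_le_mul hCκ hn (norm_nonneg _) (by positivity))
  have hξ (σ : ℝ) (hσ : |σ| ≤ 4) :
      |(X.g σ z₁).1 - (X.g σ z₂).1 - μ * sin σ| ≤ l / 4 * |μ| := by
    have h1 := (abs_fst_le _).trans (hrot σ hσ)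
    have h2 : |(z₁.1 - z₂.1) * cos σ| ≤ d := by
      rw [abs_mul]
      exact (mul_le_of_le_one_right (abs_nonneg _) (abs_cos_le_one σ)).trans hd
    have h3 : (X.g σ z₁).1 - (X.g σ z₂).1 - μ * sin σ =
        (X.g σ z₁ - X.g σ z₂ - rot σ (z₁ - z₂)).1 + (z₁.1 - z₂.1) * cos σ := by
      simp only [rot, Prod.fst_sub, Prod.snd_sub, hμ]
      ring
    rw [h3]
    linarith [abs_add_le (X.g σ z₁ - X.g σ z₂ - rot σ (z₁ - z₂)).1 ((z₁.1 - z₂.1) * cos σ)]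
  have hpos (σ : ℝ) (h1 : l ≤ σ) (h2 : σ ≤ π - l) :
      0 < μ * ((X.g σ z₁).1 - (X.g σ z₂).1) ∧ l / 4 * |μ| ≤ |(X.g σ z₁).1 - (X.g σ z₂).1| :=
    sign_aux hl hμ1 (hξ σ (abs_le.2 ⟨by linarith, by linarith [pi_le_four]⟩)) (sin_lo hl.le h1 h2)
  have hneg (σ : ℝ) (h1 : l ≤ -σ) (h2 : -σ ≤ π - l) :
      0 < -μ * ((X.g σ z₁).1 - (X.g σ z₂).1) ∧ l / 4 * |μ| ≤ |(X.g σ z₁).1 - (X.g σ z₂).1| := by
    have := sign_aux (μ := -μ) (ξ := (X.g σ z₁).1 - (X.g σ z₂).1) hl (neg_ne_zero.2 hμ1)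
      (by rw [sin_neg, neg_mul_neg, abs_neg]
          exact hξ σ (abs_le.2 ⟨by linarith [pi_le_four], by linarith⟩)) (sin_lo hl.le h1 h2)
    rwa [abs_neg] at this
  obtain ⟨R, hR⟩ : ∃ R, R = z₁.1 ^ 2 + z₁.2 ^ 2 + z₂.2 ^ 2 := ⟨_, rfl⟩
  have hR0 : 0 < R := by
    have : 0 < μ ^ 2 := by positivity
    rw [hμ] at this
    nlinarith only [sq_nonneg z₁.1, sq_nonneg (z₁.2 + z₂.2), this, hR]
  have hs₁ : ‖z₁‖ ^ 2 ≤ R := by linarith only [norm_sq_le z₁, sq_nonneg z₂.2, hR]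
  have hs₂ : ‖z₂‖ ^ 2 ≤ 5 * R := by
    have h1 : (z₁.1 - z₂.1) ^ 2 ≤ μ ^ 2 := sq_le_sq.2 (hd.trans hdμ)
    rw [hμ] at h1
    nlinarith only [norm_sq_le z₂, sq_nonneg (2 * z₁.1 - z₂.1), sq_nonneg (z₁.2 + z₂.2),
      sq_nonneg z₁.1, sq_nonneg z₁.2, h1, hR]
  have hD : R / 40 * |μ| ≤ |X.Y z₁ - X.Y z₂| := by
    have b₁ := norm_le_iff.1 hW₁.1
    have b₂ := norm_le_iff.1 hW₂.1
    have h1 := Y_abs h.toEst b₁.1 b₁.2 b₂.2
    have h2 := h.Y_lip (z₁.1, z₂.2) z₂ (norm_le_iff.2 ⟨b₁.1, b₂.2⟩) hW₂.1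
    have h3 : ‖((z₁.1, z₂.2) : P)‖ ^ 2 ≤ R := by
      linarith only [norm_sq_le (z₁.1, z₂.2), sq_nonneg z₁.2, hR]
    have h4 : ‖((z₁.1, z₂.2) : P) - z₂‖ ≤ d := norm_le_iff.2 ⟨hd, by simpa using hd0⟩
    have h5 : C * (‖((z₁.1, z₂.2) : P)‖ ^ 2 + ‖z₂‖ ^ 2) * ‖((z₁.1, z₂.2) : P) - z₂‖ ≤
        C * (R + 5 * R) * d := by gcongr
    have h6 : 480 * C * d ≤ |μ| := (mul_le_mul_of_nonneg_right hK2 hd0).trans hc.le
    have h7 := abs_sub_le (X.Y (z₁.1, z₁.2)) (X.Y z₂) (X.Y (z₁.1, z₂.2))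
    rw [abs_sub_comm (X.Y z₂)] at h7
    rw [← hR, ← hμ] at h1
    change |X.Y (z₁.1, z₁.2) - X.Y (z₁.1, z₂.2)| ≤ |X.Y z₁ - X.Y z₂| + _ at h7
    linarith only [mul_le_mul_of_nonneg_left h6 hR0.le, h1, h2, h5, h7, mul_pos hR0 hμ0]
  refine ⟨fun s hs hls => ?_, ?_, abs_pos.1 (lt_of_lt_of_le (by positivity) hD), fun s hs => ?_⟩
  · rw [hg s, hg' s]
    have : l / 8 * |μ| ≤ l / 4 * |μ| := by linarith only [mul_pos hl hμ0]
    rcases le_abs'.1 hls with e | e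
    · exact hd8.trans_le (this.trans (hneg _ (by linarith) (by linarith [ht.2, hs.1])).2)
    · exact hd8.trans_le (this.trans (hpos _ e (by linarith [ht.1, hs.2])).2)
  · rw [hg 0, hg' 0, hg π, hg' π]
    have h1 := (hneg (0 - t) (by linarith [ht.1]) (by linarith [ht.2])).1
    have h2 := (hpos (π - t) (by linarith [ht.2]) (by linarith [ht.1])).1
    by_contra! h3
    have h4 := mul_pos h1 h2
    linarith only [mul_nonneg (sq_nonneg μ) h3, h4]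
  · have hb (σ : ℝ) (hσ : σ ∈ Icc (t - l) (t + l)) :
        ‖X.V (X.g σ z) - X.V (X.g σ z')‖ ≤ 72 * C * R * |μ| := by
      refine (hV' σ).trans ?_
      rw [hg σ, hg' σ]
      have h1 := h.g_norm z₁ hW₁ (σ - t)
      have h2 := h.g_norm z₂ hW₂ (σ - t)
      have h3 := hrot (σ - t) (abs_le.2 ⟨by linarith [hσ.1], by linarith [hσ.2]⟩)
      have h4 := norm_rot_le (σ - t) (z₁ - z₂)
      have h5 : ‖X.g (σ - t) z₁ - X.g (σ - t) z₂‖ ≤ 3 * |μ| := by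
        have := norm_le_norm_add_norm_sub' (X.g (σ - t) z₁ - X.g (σ - t) z₂)
          (rot (σ - t) (z₁ - z₂))
        linarith only [this, h3, h4, hn, mul_le_mul_of_nonneg_right (hlτ.trans hτ1) hμ0.le, hμ0]
      have h6 : ‖X.g (σ - t) z₁‖ ^ 2 ≤ 4 * R := by
        linarith only [pow_le_pow_left₀ (norm_nonneg _) h1 2, hs₁]
      have h7 : ‖X.g (σ - t) z₂‖ ^ 2 ≤ 20 * R := by
        linarith only [pow_le_pow_left₀ (norm_nonneg _) h2 2, hs₂]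
      calc _ ≤ C * (4 * R + 20 * R) * (3 * |μ|) := by gcongr
        _ = _ := by ring
    have h1 := (convex_Icc (t - l) (t + l)).norm_image_sub_le_of_norm_hasDerivWithin_le
      (fun σ _ => (hder σ).hasDerivWithinAt) hb (x := t) (y := s) ⟨by linarith, by linarith⟩
      ⟨by linarith [(abs_le.1 hs).1], by linarith [(abs_le.1 hs).2]⟩
    rw [hz₁, hz₂] at h1
    refine le_trans h1 ?_
    calc 72 * C * R * |μ| * ‖s - t‖ ≤ 72 * C * R * |μ| * l := by gcongr; exact hs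
      _ = 2880 * C * l * (R / 40 * |μ|) := by ring
      _ ≤ _ := by gcongr

end Pool.Agent.Lib.MP_f62ea7_gt
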