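import Pool.Agent.Lib.MP_f62ea7_gt.Basic

set_option autoImplicit false

open MeasureTheory Set Filter Topology Real
open scoped ContDiff ENNReal

namespace Pool.Agent.Lib.MP_f62ea7_gt

namespace PH1

variable {κ C : ℝ} {X : Geo}

lemma sq_le_two (z : P) : z.1 ^ 2 + z.2 ^ 2 ≤ 2 * ‖z‖ ^ 2 := by
  linarith [fst_sq_le z, snd_sq_le z]

lemma box_n (h : Good κ C X) (p : P) (hp : ‖p‖ ≤ 3) : ‖X.Ψ p‖ < 5 := by
  have h1 := h.U_bd p hp
  have h2 := (abs_fst_le p).trans hp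
  rw [norm_lt_iff]
  constructor
  · show |p.1| < 5
    linarith
  · show |X.U p| < 5
    linarith

lemma ΦΨ (h : Good κ C X) (p : P) (hp : ‖p‖ ≤ 3) : X.Φ (X.Ψ p) = p := by
  have := h.U_right p hp
  ext
  · rfl
  · exact this

lemma ΨΦ (h : Good κ C X) (z : P) (hz : ‖z‖ ≤ 5) : X.Ψ (X.Φ z) = z := by
  have := h.U_left z hz
  ext
  · rfl
  · exact this

/-- `r² |u| ≤ 20 |Y|`. -/
lemma cube_le (h : Good κ C X) (z : P) (hz : ‖z‖ ≤ 5) :
    (z.1 ^ 2 + z.2 ^ 2) * |z.2| ≤ 20 * |X.Y z| := by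
  obtain ⟨x, u⟩ := z
  obtain ⟨h1, h2⟩ := norm_le_iff.1 hz
  simp only at h1 h2 ⊢
  have h0 : X.Y (x, 0) = 0 := h.Y_zero x (by linarith)
  rcases le_total 0 u with hu | hu
  · have := h.Y_lo x u 0 h1 h2 (by simp) hu
    rw [h0] at this
    rw [abs_of_nonneg hu]
    nlinarith [le_abs_self (X.Y (x, u))]
  · have := h.Y_lo x 0 u h1 (by simp) h2 hu
    rw [h0] at this
    rw [abs_of_nonpos hu]
    nlinarith [neg_abs_le (X.Y (x, u))]

lemma cube_le' (h : Good κ C X) (p : P) (hp : ‖p‖ ≤ 3) :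
    (p.1 ^ 2 + X.U p ^ 2) * |X.U p| ≤ 20 * |p.2| := by
  have h1 := cube_le h (X.Ψ p) (box_n h p hp).le
  have h2 : X.Y (X.Ψ p) = p.2 := h.U_right p hp
  rw [h2] at h1
  exact h1

lemma box_w (h : Good κ C X) (p : P) (hp : ‖p‖ ≤ 2) : X.w (X.Ψ p) < 8 := by
  have h3 : ‖p‖ ≤ 3 := by linarith
  have h1 := cube_le' h p h3
  have h2 := h.w_hi (X.Ψ p) (box_n h p h3).le
  obtain ⟨a, b⟩ := norm_le_iff.1 hp
  have hx : p.1 ^ 2 ≤ 4 := by rw [← sq_abs]; nlinarith [abs_nonneg p.1]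
  have e1 : (X.Ψ p).1 = p.1 := rfl
  have e2 : (X.Ψ p).2 = X.U p := rfl
  rw [e1, e2] at h2
  rcases le_total |X.U p| 3 with hu | hu
  · have : X.U p ^ 2 ≤ 9 := by rw [← sq_abs]; nlinarith [abs_nonneg (X.U p)]
    linarith
  · have : (p.1 ^ 2 + X.U p ^ 2) * 3 ≤ (p.1 ^ 2 + X.U p ^ 2) * |X.U p| :=
      mul_le_mul_of_nonneg_left hu (by positivity)
    linarith

lemma box_W (h : Good κ C X) (p : P) (hp : ‖p‖ ≤ 2) : X.Ψ p ∈ X.W :=
  ⟨(box_n h p (by linarith)).le, (box_w h p hp).le⟩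

lemma Φ_cont (h : Good κ C X) : Continuous X.Φ :=
  continuous_fst.prodMk h.Y_sm.continuous

lemma Ψ_cont (h : Good κ C X) : Continuous X.Ψ :=
  continuous_fst.prodMk h.U_cont

lemma Ψ_zero (h : Good κ C X) : X.Ψ 0 = 0 := by
  have := h.U_odd 0 (by simp)
  rw [neg_zero] at this
  ext
  · rfl
  · show X.U 0 = 0
    linarith

lemma Φ_zero (h : Good κ C X) : X.Φ 0 = 0 := by
  ext
  · rfl
  · exact h.Y_zero 0 (by simp)

lemma Ψ_ne (h : Good κ C X) (p : P) (hp : ‖p‖ ≤ 3) (h0 : p ≠ 0) : X.Ψ p ≠ 0 := by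
  intro hc
  have := ΦΨ h p hp
  rw [hc, Φ_zero h] at this
  exact h0 this.symm

lemma Ψ_odd (h : Good κ C X) (p : P) (hp : ‖p‖ ≤ 3) : X.Ψ (-p) = -X.Ψ p := by
  ext
  · rfl
  · exact h.U_odd p hp

lemma Φ_odd (h : Good κ C X) (z : P) (hz : ‖z‖ < 6) : X.Φ (-z) = -X.Φ z := by
  ext
  · rfl
  · exact h.Y_odd z hz

lemma norm_sq_le_w (h : Good κ C X) (z : P) (hz : ‖z‖ ≤ 5) : 49 / 100 * ‖z‖ ^ 2 ≤ X.w z := by
  have := h.w_lo z hz
  nlinarith [norm_sq_le z]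

lemma w_le_norm_sq (h : Good κ C X) (z : P) (hz : ‖z‖ ≤ 5) : X.w z ≤ 51 / 50 * ‖z‖ ^ 2 := by
  have := h.w_hi z hz
  nlinarith [sq_le_two z]

lemma W_small (h : Good κ C X) (z : P) (hz : z ∈ X.W) : ‖z‖ ≤ 9 / 2 := by
  have h1 := norm_sq_le_w h z hz.1
  have h2 := hz.2
  nlinarith [norm_nonneg z]

lemma Φ_small (h : Good κ C X) (z : P) (hz : ‖z‖ ≤ 5) (hw : X.w z < 3 / 5) :
    ‖X.Φ z‖ < 3 / 2 := by
  have h1 := norm_sq_le_w h z hz
  have h2 : ‖z‖ < 111 / 100 := by nlinarith [norm_nonneg z]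
  have h3 := h.Y_hi z hz
  have h4 : ‖z‖ ^ 3 ≤ (111 / 100) ^ 3 := pow_le_pow_left₀ (norm_nonneg _) h2.le 3
  rw [norm_lt_iff]
  constructor
  · show |z.1| < 3 / 2
    linarith [abs_fst_le z]
  · show |X.Y z| < 3 / 2
    nlinarith

lemma N_lab (h : Good κ C X) (z : P) (hz : ‖z‖ ≤ 5) (hw : X.w z < 3 / 5) : X.Φ z ∈ X.N := by
  refine ⟨by linarith [Φ_small h z hz hw], ?_⟩
  rw [ΨΦ h z hz]
  exact hw

lemma N_small (h : Good κ C X) (p : P) (hp : p ∈ X.N) : ‖p‖ < 3 / 2 := by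
  have h3 : ‖p‖ ≤ 3 := by linarith [hp.1]
  have := Φ_small h (X.Ψ p) (box_n h p h3).le hp.2
  rwa [ΦΨ h p h3] at this

lemma M_lab (h : Good κ C X) (z : P) (hz : z ∈ X.Ml) : X.Φ z ∈ X.M := by
  have hw : X.w z < 3 / 5 := by linarith [hz.2]
  refine ⟨by linarith [Φ_small h z hz.1 hw], ?_⟩
  rw [ΨΦ h z hz.1]
  exact hz.2

lemma M_eq (h : Good κ C X) : X.M = X.Φ '' X.Ml := by
  ext p
  constructor
  · intro hp
    have h3 : ‖p‖ ≤ 3 := by linarith [hp.1]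
    exact ⟨X.Ψ p, ⟨(box_n h p h3).le, hp.2⟩, ΦΨ h p h3⟩
  · rintro ⟨z, hz, rfl⟩
    exact M_lab h z hz

lemma M_compact (h : Good κ C X) : IsCompact X.M := by
  have e : X.M = Metric.closedBall (0 : P) 2 ∩ {p | X.w (X.Ψ p) ≤ 1 / 2} := by
    ext p
    simp [Geo.M]
  rw [e]
  exact (isCompact_closedBall 0 2).inter_right
    (isClosed_le (h.w_sm.continuous.comp (Ψ_cont h)) continuous_const)

lemma M_ball (h : Good κ C X) : Metric.closedBall 0 (1 / 50) ⊆ X.M := by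
  intro p hp
  have hp' : ‖p‖ ≤ 1 / 50 := by simpa using hp
  have h3 : ‖p‖ ≤ 3 := by linarith
  refine ⟨by linarith, ?_⟩
  have h1 := cube_le' h p h3
  have h2 := h.w_hi (X.Ψ p) (box_n h p h3).le
  obtain ⟨a, b⟩ := norm_le_iff.1 hp'
  have hx : p.1 ^ 2 ≤ 1 / 100 := by rw [← sq_abs]; nlinarith [abs_nonneg p.1]
  have e1 : (X.Ψ p).1 = p.1 := rfl
  have e2 : (X.Ψ p).2 = X.U p := rfl
  rw [e1, e2] at h2
  rcases le_total |X.U p| (9 / 10) with hu | hu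
  · have : X.U p ^ 2 ≤ 81 / 100 := by rw [← sq_abs]; nlinarith [abs_nonneg (X.U p)]
    linarith
  · have : (p.1 ^ 2 + X.U p ^ 2) * (9 / 10) ≤ (p.1 ^ 2 + X.U p ^ 2) * |X.U p| :=
      mul_le_mul_of_nonneg_left hu (by positivity)
    linarith

lemma M_sub (h : Good κ C X) : X.M ⊆ X.N := by
  intro p hp
  have h3 : ‖p‖ ≤ 3 := by linarith [hp.1]
  have := N_lab h (X.Ψ p) (box_n h p h3).le (by linarith [hp.2])
  rwa [ΦΨ h p h3] at this

lemma N_open (h : Good κ C X) : IsOpen X.N :=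
  (isOpen_lt continuous_norm continuous_const).inter
    (isOpen_lt (h.w_sm.continuous.comp (Ψ_cont h)) continuous_const)

lemma N_neg (h : Good κ C X) (p : P) (hp : p ∈ X.N) : -p ∈ X.N := by
  have h3 : ‖p‖ ≤ 3 := by linarith [hp.1]
  refine ⟨by rw [norm_neg]; exact hp.1, ?_⟩
  rw [Ψ_odd h p h3, h.w_even _ (by linarith [box_n h p h3])]
  exact hp.2

/-- `w` is strictly increasing along rays. -/
lemma ray_strict (h : Good κ C X) (z : P) (hz : z ≠ 0) (R : ℝ) (hR : R * ‖z‖ ≤ 5) :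
    StrictMonoOn (fun s : ℝ => X.w (s • z)) (Icc 0 R) := by
  have hd : ∀ s : ℝ, HasDerivAt (fun s : ℝ => X.w (s • z))
      (z.1 * dx X.w (s • z) + z.2 * du X.w (s • z)) s := fun s => by
    have h1 : HasDerivAt (fun s : ℝ => s • z) z s := by
      simpa using (hasDerivAt_id s).smul_const z
    exact hasDerivAt_comp (c := fun s : ℝ => s • z)
      (h.w_sm.differentiable (by simp) _) h1
  refine strictMonoOn_of_deriv_pos (convex_Icc 0 R)
    (fun s _ => (hd s).continuousAt.continuousWithinAt) fun s hs => ?_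
  rw [interior_Icc] at hs
  rw [(hd s).deriv]
  have hn : ‖s • z‖ ≤ 5 := by
    rw [norm_smul, Real.norm_eq_abs, abs_of_pos hs.1]
    nlinarith [norm_nonneg z, hs.2]
  have h1 := h.rad_w (s • z) hn
  have h2 : 0 < ‖z‖ ^ 2 := by positivity
  have h3 := norm_sq_le z
  simp only [Prod.smul_fst, Prod.smul_snd, smul_eq_mul] at h1
  have h4 : 0 < s * (z.1 * dx X.w (s • z) + z.2 * du X.w (s • z)) := by
    have : 0 < s ^ 2 * (z.1 ^ 2 + z.2 ^ 2) := mul_pos (pow_pos hs.1 2) (by linarith)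
    nlinarith
  exact (mul_pos_iff_of_pos_left hs.1).1 h4

lemma Ml_star (h : Good κ C X) (z : P) (hz : z ∈ X.Ml) (r : ℝ) (hr : r ∈ Icc (0 : ℝ) 1) :
    r • z ∈ X.Ml := by
  by_cases h0 : z = 0
  · rw [h0, smul_zero]
    rwa [h0] at hz
  refine ⟨?_, ?_⟩
  · rw [norm_smul, Real.norm_eq_abs, abs_of_nonneg hr.1]
    nlinarith [norm_nonneg z, hr.2, hz.1]
  · have := (ray_strict h z h0 1 (by simpa using hz.1)).monotoneOn hr
      (⟨zero_le_one, le_rfl⟩ : (1 : ℝ) ∈ Icc (0 : ℝ) 1) hr.2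
    simp only [one_smul] at this
    exact this.trans hz.2

lemma Ml_ball (h : Good κ C X) : Metric.ball 0 (1 / 2) ⊆ X.Ml := by
  intro z hz
  have hz' : ‖z‖ < 1 / 2 := by simpa using hz
  have h5 : ‖z‖ ≤ 5 := by linarith
  refine ⟨h5, ?_⟩
  have := w_le_norm_sq h z h5
  nlinarith [norm_nonneg z]

lemma w_ray (h : Good κ C X) (z : P) (r : ℝ) (hz : z ≠ 0) (hr : 0 < r) (h1 : ‖z‖ ≤ 5)
    (h2 : ‖r • z‖ ≤ 5) (he : X.w (r • z) = X.w z) : r = 1 := by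
  have hR : max 1 r * ‖z‖ ≤ 5 := by
    rw [norm_smul, Real.norm_eq_abs, abs_of_pos hr] at h2
    rcases le_total 1 r with h3 | h3
    · rwa [max_eq_right h3]
    · rwa [max_eq_left h3, one_mul]
  refine (ray_strict h z hz _ hR).injOn ⟨hr.le, le_max_right _ _⟩
    ⟨zero_le_one, le_max_left _ _⟩ ?_
  simpa using he

lemma zero_W (h : Good κ C X) : (0 : P) ∈ X.W := by
  have := box_W h 0 (by simp)
  rwa [Ψ_zero h] at this

lemma g_origin (h : Good κ C X) (t : ℝ) : X.g t 0 = 0 := by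
  have := h.g_odd 0 (zero_W h) t
  rw [neg_zero] at this
  have h2 : (2 : ℝ) • X.g t 0 = 0 := by
    rw [two_smul]
    nth_rewrite 1 [this]
    exact neg_add_cancel _
  exact (smul_eq_zero.1 h2).resolve_left two_ne_zero

lemma g_norm (h : Good κ C X) (z : P) (hz : z ∈ X.W) (t : ℝ) : ‖X.g t z‖ ≤ 2 * ‖z‖ := by
  have h1 := norm_sq_le_w h _ (h.g_mem z hz t).1
  have h2 := w_le_norm_sq h z hz.1
  rw [h.g_w z hz t] at h1
  refine abs_le_of_sq_le_sq' ?_ (by positivity) |>.2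
  nlinarith [sq_nonneg ‖z‖]

lemma gΨ_cont (h : Good κ C X) : Continuous fun q : ℝ × P => X.g q.1 (X.Ψ q.2) :=
  h.g_sm.continuous.comp (continuous_fst.prodMk ((Ψ_cont h).comp continuous_snd))

lemma eta_cont (h : Good κ C X) : Continuous fun q : ℝ × P => X.eta q.1 q.2 :=
  (Φ_cont h).comp (gΨ_cont h)

lemma vel_cont (h : Good κ C X) : Continuous fun q : ℝ × P => X.vel q.1 q.2 :=
  (gΨ_cont h).snd.prodMk (h.V_sm.continuous.comp (gΨ_cont h))

lemma eta_lab (h : Good κ C X) (p : P) (hp : ‖p‖ ≤ 2) (t : ℝ) :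
    X.Ψ (X.eta t p) = X.g t (X.Ψ p) :=
  ΨΦ h _ (h.g_mem _ (box_W h p hp) t).1

lemma eta_w (h : Good κ C X) (p : P) (hp : ‖p‖ ≤ 2) (t : ℝ) :
    X.w (X.Ψ (X.eta t p)) = X.w (X.Ψ p) := by
  rw [eta_lab h p hp t, h.g_w _ (box_W h p hp) t]

lemma eta_M (h : Good κ C X) (p : P) (hp : p ∈ X.M) (t : ℝ) : X.eta t p ∈ X.M := by
  refine M_lab h _ ⟨(h.g_mem _ (box_W h p hp.1) t).1, ?_⟩
  rw [h.g_w _ (box_W h p hp.1) t]
  exact hp.2

lemma eta_N (h : Good κ C X) (p : P) (hp : p ∈ X.N) (t : ℝ) : X.eta t p ∈ X.N := by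
  refine N_lab h _ (h.g_mem _ (box_W h p hp.1.le) t).1 ?_
  rw [h.g_w _ (box_W h p hp.1.le) t]
  exact hp.2

lemma eta_add (h : Good κ C X) (p : P) (hp : ‖p‖ ≤ 2) (s t : ℝ) :
    X.eta (s + t) p = X.eta s (X.eta t p) := by
  show X.Φ (X.g (s + t) (X.Ψ p)) = X.Φ (X.g s (X.Ψ (X.eta t p)))
  rw [eta_lab h p hp t, h.g_add]

lemma eta_zero (h : Good κ C X) (p : P) (hp : ‖p‖ ≤ 2) : X.eta 0 p = p := by
  show X.Φ (X.g 0 (X.Ψ p)) = p
  rw [h.g_zero, ΦΨ h p (by linarith)]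

lemma eta_origin (h : Good κ C X) (t : ℝ) : X.eta t 0 = 0 := by
  show X.Φ (X.g t (X.Ψ 0)) = 0
  rw [Ψ_zero h, g_origin h, Φ_zero h]

lemma eta_odd (h : Good κ C X) (p : P) (hp : ‖p‖ ≤ 2) (t : ℝ) :
    X.eta t (-p) = -X.eta t p := by
  show X.Φ (X.g t (X.Ψ (-p))) = -X.Φ (X.g t (X.Ψ p))
  rw [Ψ_odd h p (by linarith), h.g_odd _ (box_W h p hp),
    Φ_odd h _ (by linarith [(h.g_mem _ (box_W h p hp) t).1])]

lemma g_near (h : Good κ C X) (hκ : C * κ ≤ 1 / 100) (z : P) (hz : z ∈ X.W) (t : ℝ)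
    (ht : |t| ≤ 4) : |(X.g t z).1 - (z.1 * cos t + z.2 * sin t)| ≤ ‖z‖ / 100 := by
  have h1 := h.g_rot z hz 0 (zero_W h) t ht
  rw [g_origin h, sub_zero, sub_zero] at h1
  have h2 := abs_fst_le (X.g t z - rot t z)
  have h3 : C * κ * ‖z‖ ≤ 1 / 100 * ‖z‖ := mul_le_mul_of_nonneg_right hκ (norm_nonneg _)
  have e : (X.g t z - rot t z).1 = (X.g t z).1 - (z.1 * cos t + z.2 * sin t) := rfl
  rw [e] at h2
  linarith

lemma int_model (x u c : ℝ) :
    ∫ t in (π / 4)..(3 * π / 4), ((x * cos t + u * sin t) ^ 2 / 2 - c) =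
      (x ^ 2 * (π / 4 - 1 / 2) + u ^ 2 * (π / 4 + 1 / 2)) / 2 - c * (π / 2) := by
  have hd : ∀ t ∈ uIcc (π / 4) (3 * π / 4), HasDerivAt
      (fun t => ((x ^ 2 + u ^ 2) * t / 2 + (x ^ 2 - u ^ 2) * (sin t * cos t) / 2 +
        x * u * sin t ^ 2) / 2 - c * t) ((x * cos t + u * sin t) ^ 2 / 2 - c) t := by
    intro t _
    have h1 := ((((((hasDerivAt_id t).const_mul (x ^ 2 + u ^ 2)).div_const 2).add
      ((((hasDerivAt_sin t).mul (hasDerivAt_cos t)).const_mul (x ^ 2 - u ^ 2)).div_const 2)).add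
      (((hasDerivAt_sin t).pow 2).const_mul (x * u))).div_const 2).sub
      ((hasDerivAt_id t).const_mul c)
    refine h1.congr_deriv ?_ |>.congr_of_eventuallyEq (Eventually.of_forall fun s => by simp)
    have := sin_sq_add_cos_sq t
    simp only [Nat.cast_ofNat, Nat.add_one_sub_one, pow_one, mul_one]
    linear_combination (-(x ^ 2 + u ^ 2) / 4) * this
  rw [intervalIntegral.integral_eq_sub_of_hasDerivAt hd
    (Continuous.intervalIntegrable (by fun_prop) _ _)]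
  have e : 3 * π / 4 = π - π / 4 := by ring
  have s2 : √2 ^ 2 = 2 := sq_sqrt (by norm_num)
  rw [e, sin_pi_sub, cos_pi_sub, sin_pi_div_four, cos_pi_div_four]
  linear_combination (-(x ^ 2 - u ^ 2) / 8) * s2

lemma xsq (h : Good κ C X) (hκ : C * κ ≤ 1 / 100) (z : P) (hz : z ∈ X.W) :
    ‖z‖ ^ 2 ≤ 10 * ∫ t in (π / 4)..(3 * π / 4), (X.g t z).1 ^ 2 := by
  have hπ := pi_gt_d2
  have hπ' := pi_lt_d2
  have hc : Continuous fun t => (X.g t z).1 ^ 2 :=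
    ((h.g_sm.continuous.comp (continuous_id.prodMk continuous_const)).fst).pow 2
  have h1 : ∫ t in (π / 4)..(3 * π / 4), ((z.1 * cos t + z.2 * sin t) ^ 2 / 2 - (‖z‖ / 100) ^ 2) ≤
      ∫ t in (π / 4)..(3 * π / 4), (X.g t z).1 ^ 2 := by
    refine intervalIntegral.integral_mono_on (by linarith)
      (Continuous.intervalIntegrable (by fun_prop) _ _) (hc.intervalIntegrable _ _) fun t ht => ?_
    have h2 := g_near h hκ z hz t (abs_le.2 ⟨by linarith [ht.1], by linarith [ht.2]⟩)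
    have h3 : ((X.g t z).1 - (z.1 * cos t + z.2 * sin t)) ^ 2 ≤ (‖z‖ / 100) ^ 2 := by
      rw [← sq_abs]
      exact pow_le_pow_left₀ (abs_nonneg _) h2 2
    nlinarith [sq_nonneg (2 * (X.g t z).1 - (z.1 * cos t + z.2 * sin t))]
  rw [int_model] at h1
  have h4 := norm_sq_le z
  nlinarith [sq_nonneg z.1, sq_nonneg z.2, sq_nonneg ‖z‖, mul_nonneg (sq_nonneg z.1) (sub_pos.2 hπ).le,
    mul_nonneg (sq_nonneg z.2) (sub_pos.2 hπ).le, mul_nonneg (sq_nonneg ‖z‖) (sub_pos.2 hπ').le]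

lemma nonlip (h : Good κ C X) (hκ : C * κ ≤ 1 / 100) (L r : ℝ) (hr : 0 < r) :
    ∃ p : P, ‖p‖ < r ∧ L * ‖p‖ < ‖X.eta (π / 2) p‖ := by
  obtain ⟨u, hu0, hu1, hur, huL⟩ : ∃ u : ℝ, 0 < u ∧ u ≤ 1 ∧ u < r ∧ |L| * u ≤ 1 / 2 := by
    have hL : 0 < |L| + 1 := by positivity
    refine ⟨min (min 1 (r / 2)) (1 / (2 * (|L| + 1))), by positivity,
      (min_le_left _ _).trans (min_le_left _ _),
      lt_of_le_of_lt ((min_le_left _ _).trans (min_le_right _ _)) (by linarith), ?_⟩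
    calc |L| * min (min 1 (r / 2)) (1 / (2 * (|L| + 1))) ≤ (|L| + 1) * (1 / (2 * (|L| + 1))) :=
          mul_le_mul (by linarith) (min_le_right _ _) (by positivity) hL.le
      _ = 1 / 2 := by field_simp
  have hn : ‖((0, u) : P)‖ = u := by
    rw [Prod.norm_def]
    simp [abs_of_pos hu0, hu0.le]
  have h5 : ‖((0, u) : P)‖ ≤ 5 := by rw [hn]; linarith
  have hW : ((0, u) : P) ∈ X.W := by
    refine ⟨h5, ?_⟩
    have := w_le_norm_sq h _ h5
    rw [hn] at this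
    nlinarith
  have hY := h.Y_hi _ h5
  rw [hn] at hY
  have hp : ‖X.Φ (0, u)‖ ≤ u ^ 3 := by
    rw [norm_le_iff]
    refine ⟨?_, hY⟩
    show |(0 : ℝ)| ≤ u ^ 3
    rw [abs_zero]
    positivity
  have h3 : u ^ 3 ≤ u ^ 2 := pow_le_pow_of_le_one hu0.le hu1 (by norm_num)
  have h2 : u ^ 2 ≤ u := by nlinarith
  refine ⟨X.Φ (0, u), by linarith, ?_⟩
  have hπ' := pi_lt_d2
  have h6 := g_near h hκ _ hW (π / 2) (abs_le.2 ⟨by linarith [pi_pos], by linarith⟩)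
  rw [hn, cos_pi_div_two, sin_pi_div_two] at h6
  have e : (X.eta (π / 2) (X.Φ (0, u))).1 = (X.g (π / 2) (0, u)).1 := by
    show (X.g (π / 2) (X.Ψ (X.Φ (0, u)))).1 = _
    rw [ΨΦ h _ h5]
  have h7 := abs_fst_le (X.eta (π / 2) (X.Φ (0, u)))
  rw [e] at h7
  have h8 := le_abs_self (X.g (π / 2) (0, u)).1
  have h9 := (abs_le.1 h6).1
  simp only [mul_zero, mul_one, zero_add] at h9
  have h10 : L * ‖X.Φ (0, u)‖ ≤ |L| * u ^ 2 :=
    mul_le_mul (le_abs_self L) (hp.trans h3) (norm_nonneg _) (abs_nonneg _)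
  nlinarith

end PH1

theorem blk_PH1 : St_PH1 := by
  intro C
  have hC : 0 < max C 1 := lt_of_lt_of_le one_pos (le_max_right _ _)
  refine ⟨1 / (100 * max C 1), by positivity, fun κ X hκ h => ?_⟩
  have hκ' : C * κ ≤ 1 / 100 := by
    have h1 := h.C_ge
    rw [max_eq_left h1] at hκ
    calc C * κ ≤ C * (1 / (100 * C)) := mul_le_mul_of_nonneg_left hκ (by linarith)
      _ = 1 / 100 := by field_simp
  exact
    { box_n := fun p hp => PH1.box_n h p (by linarith)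
      box_w := PH1.box_w h
      box_W := PH1.box_W h
      ΦΨ := PH1.ΦΨ h
      ΨΦ := PH1.ΨΦ h
      Φ_cont := PH1.Φ_cont h
      Ψ_cont := PH1.Ψ_cont h
      Ψ_zero := PH1.Ψ_zero h
      Ψ_ne := PH1.Ψ_ne h
      Ψ_odd := PH1.Ψ_odd h
      W_small := PH1.W_small h
      M_eq := PH1.M_eq h
      M_compact := PH1.M_compact h
      M_ball := PH1.M_ball h
      M_sub := PH1.M_sub h
      N_open := PH1.N_open h
      N_small := PH1.N_small h
      N_lab := PH1.N_lab h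
      N_neg := PH1.N_neg h
      Ml_star := PH1.Ml_star h
      Ml_ball := PH1.Ml_ball h
      w_ray := PH1.w_ray h
      g_origin := PH1.g_origin h
      g_norm := PH1.g_norm h
      eta_cont := PH1.eta_cont h
      vel_cont := PH1.vel_cont h
      eta_lab := PH1.eta_lab h
      eta_w := PH1.eta_w h
      eta_M := PH1.eta_M h
      eta_N := PH1.eta_N h
      eta_add := PH1.eta_add h
      eta_zero := PH1.eta_zero h
      eta_origin := PH1.eta_origin h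
      eta_odd := PH1.eta_odd h
      xsq := PH1.xsq h hκ'
      nonlip := PH1.nonlip h hκ' }

end Pool.Agent.Lib.MP_f62ea7_gt
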