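import Pool.Agent.Lib.MP_f62ea7_gt.Basic

set_option autoImplicit false

open MeasureTheory Set Filter Topology Real
open scoped ContDiff ENNReal

namespace Pool.Agent.Lib.MP_f62ea7_gt

namespace PH2

variable {κ C : ℝ} {X : Geo}

lemma der_fst {c : ℝ → P} {c' : P} {t : ℝ} (hc : HasDerivAt c c' t) :
    HasDerivAt (fun τ => (c τ).1) c'.1 t :=
  (ContinuousLinearMap.fst ℝ ℝ ℝ).hasFDerivAt.comp_hasDerivAt t hc

lemma der_snd {c : ℝ → P} {c' : P} {t : ℝ} (hc : HasDerivAt c c' t) :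
    HasDerivAt (fun τ => (c τ).2) c'.2 t :=
  (ContinuousLinearMap.snd ℝ ℝ ℝ).hasFDerivAt.comp_hasDerivAt t hc

lemma lab_der (h : Good κ C X) (z : P) (hz : z ∈ X.W) (t : ℝ) :
    HasDerivAt (fun τ => X.Φ (X.g τ z)) ((X.g t z).2, X.V (X.g t z)) t := by
  have h6 : ‖X.g t z‖ < 6 := (h.g_mem z hz t).1.trans_lt (by norm_num)
  have hd := h.g_der z hz t
  refine (der_fst hd).prodMk ?_
  refine (hasDerivAt_comp (h.Y_sm.differentiable (by simp) _) hd).congr_deriv ?_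
  have e1 := h.V_eq _ h6
  have e2 := h.G_eq _ h6
  simp only [h.Y_u _ h6]
  linear_combination e1 - X.w (X.g t z) * e2

lemma V_der (h : Good κ C X) (z : P) (hz : z ∈ X.W) (t : ℝ) :
    HasDerivAt (fun τ => X.V (X.g τ z)) (-X.B (X.g t z)) t := by
  have h6 : ‖X.g t z‖ < 6 := (h.g_mem z hz t).1.trans_lt (by norm_num)
  refine (hasDerivAt_comp (h.V_sm.differentiable (by simp) _) (h.g_der z hz t)).congr_deriv ?_
  simp only [h.V_u _ h6, h.B_eq _ h6]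
  ring

lemma Ψ_norm (h : Good κ C X) {p : P} (hp : ‖p‖ ≤ 3) : ‖X.Ψ p‖ < 5 := by
  refine norm_lt_iff.2 ⟨?_, ?_⟩
  · exact ((abs_fst_le p).trans hp).trans_lt (by norm_num)
  · exact (h.U_bd p hp).trans_lt (by norm_num)

lemma U_at (h : Good κ C X) (h1 : Phys1 X) {p : P} (hp : ‖p‖ ≤ 3) (h0 : p ≠ 0) :
    ContDiffAt ℝ ∞ X.U p := by
  have := h.U_sm _ (Ψ_norm h hp) (h1.Ψ_ne p hp h0)
  rwa [h1.ΦΨ p hp] at this

lemma Ψ_at (h : Good κ C X) (h1 : Phys1 X) {p : P} (hp : ‖p‖ ≤ 3) (h0 : p ≠ 0) :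
    ContDiffAt ℝ ∞ X.Ψ p :=
  contDiffAt_fst.prodMk (U_at h h1 hp h0)

lemma Ψ_sm (h : Good κ C X) (h1 : Phys1 X) : ContDiffOn ℝ ∞ X.Ψ (Metric.ball 0 3 \ {0}) :=
  fun _ hp => (Ψ_at h h1 (mem_ball_zero_iff.1 hp.1).le hp.2).contDiffWithinAt

lemma eta_sm (h : Good κ C X) (h1 : Phys1 X) :
    ContDiffOn ℝ ∞ (fun q : ℝ × P => X.eta q.1 q.2) (univ ×ˢ (Metric.ball 0 3 \ {0})) := by
  have hΦ : ContDiff ℝ ∞ X.Φ := contDiff_fst.prodMk h.Y_sm
  exact (hΦ.comp h.g_sm).comp_contDiffOn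
    (contDiffOn_fst.prodMk ((Ψ_sm h h1).comp contDiffOn_snd fun q hq => hq.2))

lemma ψ_at (h : Good κ C X) (h1 : Phys1 X) {p : P} (hp : ‖p‖ ≤ 3) (h0 : p ≠ 0) :
    DifferentiableAt ℝ X.ψ p := by
  have : ContDiffAt ℝ ∞ X.ψ p :=
    ((h.w_sm.contDiffAt.comp p (Ψ_at h h1 hp h0)).pow 2).div_const 2
  exact this.differentiableAt (by simp)

lemma ψ_curve (h : Good κ C X) (h1 : Phys1 X) {γ : ℝ → P} {γ' : P} {t : ℝ}
    (hγ : HasDerivAt γ γ' t) (hp : ‖γ t‖ < 3) (h0 : γ t ≠ 0) :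
    HasDerivAt (fun τ => X.ψ (γ τ)) (γ'.2 * X.U (γ t) - γ'.1 * X.V (X.Ψ (γ t))) t := by
  have h6 : ‖X.Ψ (γ t)‖ < 6 := (Ψ_norm h hp.le).trans (by norm_num)
  have hU := hasDerivAt_comp ((U_at h h1 hp.le h0).differentiableAt (by simp)) hγ
  generalize γ'.1 * dx X.U (γ t) + γ'.2 * du X.U (γ t) = a at hU
  have hc : HasDerivAt (fun τ => X.Ψ (γ τ)) (γ'.1, a) t := (der_fst hγ).prodMk hU
  have hY := hasDerivAt_comp (h.Y_sm.differentiable (by simp) _) hc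
  have hw := hasDerivAt_comp (h.w_sm.differentiable (by simp) _) hc
  have hev : (fun τ => (γ τ).2) =ᶠ[𝓝 t] fun τ => X.Y (X.Ψ (γ τ)) := by
    filter_upwards [hγ.continuousAt.norm.eventually (gt_mem_nhds hp)] with τ hτ
    exact (h.U_right _ (le_of_lt hτ)).symm
  have e0 := (hY.congr_of_eventuallyEq hev).unique (der_snd hγ)
  have e1 := h.V_eq _ h6
  simp only [h.Y_u _ h6] at e0
  simp only [h.w_u _ h6] at hw
  refine ((hw.pow 2).div_const 2).congr_deriv ?_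
  have e2 : (X.Ψ (γ t)).2 = X.U (γ t) := rfl
  rw [e2] at e1 ⊢
  push_cast
  linear_combination X.U (γ t) * e0 - γ'.1 * e1

lemma ψ_dx (h : Good κ C X) (h1 : Phys1 X) (p : P) (hp : ‖p‖ < 3) (h0 : p ≠ 0) :
    dx X.ψ p = -X.V (X.Ψ p) := by
  have := (hasDerivAt_dx (x := p.1) (u := p.2) (ψ_at h h1 hp.le h0)).unique
    (ψ_curve h h1 (γ := fun s => (s, p.2)) (γ' := (1, 0))
      ((hasDerivAt_id p.1).prodMk (hasDerivAt_const p.1 p.2)) hp h0)
  simpa using this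

lemma ψ_du (h : Good κ C X) (h1 : Phys1 X) (p : P) (hp : ‖p‖ < 3) (h0 : p ≠ 0) :
    du X.ψ p = X.U p := by
  have := (hasDerivAt_du (x := p.1) (u := p.2) (ψ_at h h1 hp.le h0)).unique
    (ψ_curve h h1 (γ := fun s => (p.1, s)) (γ' := (0, 1))
      ((hasDerivAt_const p.2 p.1).prodMk (hasDerivAt_id p.2)) hp h0)
  simpa using this

lemma N_star (h : Good κ C X) (h1 : Phys1 X) (p : P) (hp : p ∈ X.N) (r : ℝ)
    (hr : r ∈ Icc (0 : ℝ) 1) : r • p ∈ X.N := by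
  have hn : ∀ s ∈ Icc (0 : ℝ) 1, ‖s • p‖ < 2 := fun s hs => by
    rw [norm_smul, Real.norm_of_nonneg hs.1]
    exact (mul_le_of_le_one_left (norm_nonneg p) hs.2).trans_lt hp.1
  refine ⟨hn r hr, ?_⟩
  by_cases h0 : r • p = 0
  · have := h.w_hi 0 (by simp)
    rw [h0, h1.Ψ_zero]
    simp only [Prod.fst_zero, Prod.snd_zero] at this
    linarith
  obtain ⟨hr0, hp0⟩ := smul_ne_zero_iff.1 h0
  have hr1 : 0 < r := lt_of_le_of_ne hr.1 hr0.symm
  have hd : ∀ s ∈ Icc r 1, HasDerivAt (fun τ => X.ψ (τ • p))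
      (p.2 * X.U (s • p) - p.1 * X.V (X.Ψ (s • p))) s := fun s hs => by
    have := ψ_curve h h1 (γ := fun τ => τ • p) ((hasDerivAt_id s).smul_const p)
      ((hn s ⟨hr.1.trans hs.1, hs.2⟩).trans (by norm_num))
      (smul_ne_zero (hr1.trans_le hs.1).ne' hp0)
    simpa using this
  have hm : MonotoneOn (fun τ => X.ψ (τ • p)) (Icc r 1) := by
    refine monotoneOn_of_hasDerivWithinAt_nonneg (convex_Icc r 1)
      (fun s hs => (hd s hs).continuousAt.continuousWithinAt)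
      (fun s hs => (hd s (interior_subset hs)).hasDerivWithinAt) fun s hs => ?_
    have hs' := interior_subset hs
    have h3 : ‖s • p‖ ≤ 3 := (hn s ⟨hr.1.trans hs'.1, hs'.2⟩).le.trans (by norm_num)
    have h4 := h.rad_ψ _ (Ψ_norm h h3).le
    have h5 : X.Y (X.Ψ (s • p)) = s * p.2 := h.U_right _ h3
    have h6 : (X.Ψ (s • p)).1 = s * p.1 := rfl
    have h7 : (X.Ψ (s • p)).2 = X.U (s • p) := rfl
    rw [h5, h6, h7] at h4
    refine nonneg_of_mul_nonneg_right (a := s) ?_ (hr1.trans_le hs'.1)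
    have : 0 ≤ ((s * p.1) ^ 4 + X.U (s • p) ^ 4) / 10 := by positivity
    linarith
  have h8 := hm ⟨le_rfl, hr.2⟩ ⟨hr.2, le_rfl⟩ hr.2
  simp only [one_smul, Geo.ψ] at h8
  have h9 := h.w_lo _ (Ψ_norm h (hp.1.le.trans (by norm_num))).le
  have h10 : 0 ≤ X.w (X.Ψ p) := le_trans (by positivity) h9
  refine lt_of_le_of_lt ?_ hp.2
  exact le_of_sq_le_sq (by linarith) h10

lemma eta_inv (h1 : Phys1 X) {p : P} (hp : ‖p‖ ≤ 2) (t : ℝ) : X.eta (-t) (X.eta t p) = p := by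
  rw [← h1.eta_add p hp, neg_add_cancel, h1.eta_zero p hp]

lemma mp (hM : St_MP) (h : Good κ C X) (h1 : Phys1 X) (b : P → ℝ)
    (hb : DifferentiableOn ℝ b (X.N \ {0})) (hb' : ∀ p ∈ X.N \ {0}, ∀ t, b (X.eta t p) = b p)
    (A : Set P) (hA : A ⊆ X.N) (hA' : MeasurableSet A) :
    volume ((fun p => X.eta (b p) p) '' A) = volume A := by
  have h3 : ∀ p ∈ X.N, ‖p‖ < 3 := fun p hp => hp.1.trans (by norm_num)
  have hne : ∀ p ∈ X.N \ {0}, ∀ t, X.eta t p ∈ X.N \ {0} := fun p hp t =>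
    ⟨h1.eta_N p hp.1 t, fun e => hp.2 (by
      rw [← eta_inv h1 hp.1.1.le t, mem_singleton_iff.1 e, h1.eta_origin]; rfl)⟩
  have key := hM (X.N \ {0}) X.eta X.ψ b (h1.N_open.sdiff isClosed_singleton)
    (((eta_sm h h1).of_le (by simp)).mono
      (prod_mono_right fun p hp => ⟨mem_ball_zero_iff.2 (h3 p hp.1), hp.2⟩))
    hne (fun p hp => h1.eta_add p hp.1.1.le) (fun p hp => h1.eta_zero p hp.1.1.le)
    (fun p hp => (ψ_at h h1 (h3 p hp.1).le hp.2).differentiableWithinAt)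
    (fun p hp e => by
      have e1 := ψ_dx h h1 p (h3 p hp.1) hp.2
      have e2 := ψ_du h h1 p (h3 p hp.1) hp.2
      simp only [dx, du, e, zero_apply] at e1 e2
      have h4 := h.rad_ψ _ (Ψ_norm h (h3 p hp.1).le).le
      have h7 : (X.Ψ p).2 = 0 := e2.symm
      rw [h7, neg_eq_zero.1 e1.symm] at h4
      have h8 : (X.Ψ p).1 ^ 4 = 0 := le_antisymm (by linarith) (by positivity)
      exact h1.Ψ_ne p (h3 p hp.1).le hp.2 (Prod.ext (pow_eq_zero_iff (by norm_num) |>.1 h8) h7))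
    (fun p hp t => by
      have hq := hne p hp t
      rw [ψ_dx h h1 _ (h3 _ hq.1) hq.2, ψ_du h h1 _ (h3 _ hq.1) hq.2, neg_neg,
        show X.U (X.eta t p) = (X.Ψ (X.eta t p)).2 from rfl, h1.eta_lab p hp.1.1.le]
      exact lab_der h _ (h1.box_W p hp.1.1.le) t)
    hb hb' (A \ {0}) (sdiff_subset_sdiff_left hA) (hA'.diff (measurableSet_singleton _))
  rw [measure_sdiff_null (measure_singleton _)] at key
  rw [← key]
  refine le_antisymm ?_ (measure_mono (image_mono sdiff_subset))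
  refine (measure_mono (t := (fun p => X.eta (b p) p) '' (A \ {0}) ∪ {X.eta (b 0) 0}) ?_).trans
    ((measure_union_le _ _).trans (by simp))
  rintro _ ⟨p, hp, rfl⟩
  by_cases e : p = 0
  · exact Or.inr (by rw [e]; rfl)
  · exact Or.inl ⟨p, ⟨hp, e⟩, rfl⟩

lemma adm (hM : St_MP) (h : Good κ C X) (h1 : Phys1 X) : Adm X.M X.eta X.vel where
  cont := h1.eta_cont
  meas := h1.vel_cont.measurable
  bdd := by
    obtain ⟨B, hB⟩ := ((isCompact_Icc (a := (0 : ℝ)) (b := π)).prod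
      h1.M_compact).exists_bound_of_continuousOn h1.vel_cont.continuousOn
    exact ⟨B, fun t ht a ha => hB (t, a) ⟨ht, ha⟩⟩
  der := ⟨∅, fun t _ _ a ha => lab_der h _ (h1.box_W a ha.1) t⟩
  maps t _ a ha := h1.eta_M a ha t
  inv t _ := ⟨X.eta (-t), h1.eta_cont.comp (Continuous.prodMk_right (-t)),
    fun a ha => h1.eta_M a ha _, fun a ha => eta_inv h1 ha.1 t,
    fun a ha => by simpa using eta_inv h1 ha.1 (-t)⟩
  mp t _ := mp_of_image h1.M_compact.measurableSet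
    (h1.eta_cont.comp (Continuous.prodMk_right t)).measurable (fun a ha => h1.eta_M a ha t)
    (fun a ha => ⟨X.eta (-t) a, h1.eta_M a ha _, by simpa using eta_inv h1 ha.1 (-t)⟩)
    fun A hA hA' => mp hM h h1 (fun _ => t) (differentiableOn_const t) (fun _ _ _ => rfl) A
      (hA.trans h1.M_sub) hA'

end PH2

theorem blk_PH2 (hM : St_MP) : St_PH2 := fun _ _ _ h h1 =>
  { lab_der := PH2.lab_der h
    V_der := PH2.V_der h
    eta_der := fun p hp t => PH2.lab_der h _ (h1.box_W p hp) t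
    Ψ_sm := PH2.Ψ_sm h h1
    eta_sm := PH2.eta_sm h h1
    ψ_dx := PH2.ψ_dx h h1
    ψ_du := PH2.ψ_du h h1
    N_star := PH2.N_star h h1
    mp := PH2.mp hM h h1
    adm := PH2.adm hM h h1 }

end Pool.Agent.Lib.MP_f62ea7_gt
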