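import Pool.Agent.Lib.MP_f62ea7_gt.Basic

set_option autoImplicit false

open MeasureTheory Set Filter Topology Real
open scoped ContDiff ENNReal

namespace Pool.Agent.Lib.MP_f62ea7_gt

namespace REM

lemma le_of_deriv_nonneg {h h' : ℝ → ℝ} {a b : ℝ} (hab : a ≤ b)
    (hd : ∀ s ∈ Icc a b, HasDerivAt h (h' s) s) (h0 : ∀ s ∈ Icc a b, 0 ≤ h' s) : h a ≤ h b := by
  rcases hab.eq_or_lt with rfl | hlt
  · exact le_rfl
  obtain ⟨c, hc, he⟩ := exists_hasDerivAt_eq_slope h h' hlt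
    (fun s hs => (hd s hs).continuousAt.continuousWithinAt)
    (fun s hs => hd s (Ioo_subset_Icc_self hs))
  have := h0 c (Ioo_subset_Icc_self hc)
  rw [he, le_div_iff₀ (sub_pos.2 hlt)] at this
  linarith

lemma abs_sub_le_aux {f g f' g' : ℝ → ℝ} {a b : ℝ} (hab : a ≤ b)
    (hf : ∀ s ∈ Icc a b, HasDerivAt f (f' s) s) (hg : ∀ s ∈ Icc a b, HasDerivAt g (g' s) s)
    (h : ∀ s ∈ Icc a b, |f' s| ≤ g' s) : |f b - f a| ≤ g b - g a := by
  have h1 := le_of_deriv_nonneg (h := fun s => g s - f s) (h' := fun s => g' s - f' s) hab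
    (fun s hs => (hg s hs).sub (hf s hs)) (fun s hs => by linarith [(abs_le.1 (h s hs)).2])
  have h2 := le_of_deriv_nonneg (h := fun s => g s + f s) (h' := fun s => g' s + f' s) hab
    (fun s hs => (hg s hs).add (hf s hs)) (fun s hs => by linarith [(abs_le.1 (h s hs)).1])
  rw [abs_le]
  constructor <;> linarith

/-- comparison of increments -/
lemma abs_sub_le_of_deriv {f g f' g' : ℝ → ℝ} {a b : ℝ}
    (hf : ∀ s ∈ uIcc a b, HasDerivAt f (f' s) s) (hg : ∀ s ∈ uIcc a b, HasDerivAt g (g' s) s)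
    (h : ∀ s ∈ uIcc a b, |f' s| ≤ g' s) : |f b - f a| ≤ |g b - g a| := by
  rcases le_total a b with hab | hab
  · rw [uIcc_of_le hab] at hf hg h
    exact (abs_sub_le_aux hab hf hg h).trans (le_abs_self _)
  · rw [uIcc_of_ge hab] at hf hg h
    rw [abs_sub_comm, abs_sub_comm (g b)]
    exact (abs_sub_le_aux hab hf hg h).trans (le_abs_self _)

lemma abs_sub_le_const {f f' : ℝ → ℝ} {a b m : ℝ}
    (hf : ∀ s ∈ uIcc a b, HasDerivAt f (f' s) s) (h : ∀ s ∈ uIcc a b, |f' s| ≤ m) :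
    |f b - f a| ≤ m * |b - a| := by
  have hm : 0 ≤ m := (abs_nonneg _).trans (h a left_mem_uIcc)
  have := abs_sub_le_of_deriv (g := fun s => m * s) (g' := fun _ => m) hf
    (fun s _ => by simpa using (hasDerivAt_id s).const_mul m) h
  rwa [← mul_sub, abs_mul, abs_of_nonneg hm] at this

lemma poly (a d : ℝ) :
    (a ^ 4 * d ^ 2 + d ^ 6) / 20 ≤ (a + d) ^ 6 - a ^ 6 - 6 * a ^ 5 * d := by
  have h : 0 ≤ 19 * d ^ 4 + 120 * a * d ^ 3 + 300 * a ^ 2 * d ^ 2 + 400 * a ^ 3 * d + 299 * a ^ 4 := by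
    nlinarith [sq_nonneg (d ^ 2 + 60 / 19 * a * d + 5 / 2 * a ^ 2), sq_nonneg (a * d + 13 / 4 * a ^ 2),
      sq_nonneg (a * d), sq_nonneg (a ^ 2)]
  nlinarith [mul_nonneg h (sq_nonneg d)]

lemma abs_le_of_uIcc {a b s R : ℝ} (ha : |a| ≤ R) (hb : |b| ≤ R) (hs : s ∈ uIcc a b) :
    |s| ≤ R := by
  rw [abs_le] at *
  rcases mem_uIcc.1 hs with h | h <;> constructor <;> linarith [h.1, h.2]

variable {κ C : ℝ} {D : Dat}

lemma diff {f : P → ℝ} (hf : ContDiff ℝ ∞ f) (z : P) : DifferentiableAt ℝ f z :=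
  hf.differentiable (by simp) z

lemma GY (h : IsSol κ C D) {z : P} (hz : ‖z‖ < 6) :
    D.G z * du D.Y z = z.2 * dx D.Y z - D.V z := by
  rw [h.Y_u z hz, h.V_eq z hz, ← h.G_eq z hz]; ring

lemma pres_dx (h : IsSol κ C D) {x u : ℝ} (hz : ‖((x, u) : P)‖ < 6) :
    HasDerivAt (fun s => D.pres κ (s, u))
      (D.G (x, u) + κ ^ 2 * D.B (x, u) * dx D.Y (x, u)) x := by
  have hw := hasDerivAt_dx (diff h.w_sm (x, u))
  have hV := hasDerivAt_dx (diff h.V_sm (x, u))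
  have := (hw.sub_const (u ^ 2 / 2)).sub (((hV.pow 2).const_mul (κ ^ 2)).div_const 2)
  refine HasDerivAt.congr_deriv this ?_
  have e1 := GY h hz
  have e2 := h.G_eq _ hz
  have e3 := h.Θ_eq _ hz
  have e4 := h.B_eq _ hz
  simp only at e1 e4
  rw [← e2, e3, e4]
  simp only [Nat.cast_ofNat, Nat.add_one_sub_one, pow_one]
  linear_combination (-(κ ^ 2 * dx D.V (x, u))) * e1

lemma pres_du (h : IsSol κ C D) {x u : ℝ} (hz : ‖((x, u) : P)‖ < 6) :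
    HasDerivAt (fun s => D.pres κ (x, s)) (κ ^ 2 * D.B (x, u) * du D.Y (x, u)) u := by
  have hw := hasDerivAt_du (diff h.w_sm (x, u))
  have hV := hasDerivAt_du (diff h.V_sm (x, u))
  have := (hw.sub (((hasDerivAt_id u).pow 2).div_const 2)).sub
    (((hV.pow 2).const_mul (κ ^ 2)).div_const 2)
  refine HasDerivAt.congr_deriv this ?_
  have e1 := GY h hz
  have e2 := h.w_u _ hz
  have e3 := h.Θ_eq _ hz
  have e4 := h.B_eq _ hz
  have e5 := h.V_u _ hz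
  simp only at e1 e2 e4
  rw [e2, e3, e4, e5]
  simp only [Nat.cast_ofNat, Nat.add_one_sub_one, pow_one, id]
  linear_combination (-(κ ^ 2 * dx D.Y (x, u))) * e1

lemma norm_mk_le {s u R : ℝ} (hs : |s| ≤ R) (hu : |u| ≤ R) : ‖((s, u) : P)‖ ≤ R :=
  norm_le_iff.2 ⟨hs, hu⟩

lemma norm_sub_fst (s x u : ℝ) : ‖((s, u) : P) - (x, u)‖ = |s - x| := by
  simp [Prod.norm_def]

lemma norm_sub_snd (x s u : ℝ) : ‖((x, s) : P) - (x, u)‖ = |s - u| := by
  simp [Prod.norm_def]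

/-- a Lipschitz bound on a horizontal segment -/
lemma hor_bound {f : P → ℝ} (hC : 0 ≤ C)
    (hf : ∀ z z' : P, ‖z‖ ≤ 5 → ‖z'‖ ≤ 5 → |f z - f z'| ≤ C * (‖z‖ ^ 2 + ‖z'‖ ^ 2) * ‖z - z'‖)
    {s a u ρ d : ℝ} (h1 : ‖((s, u) : P)‖ ≤ 5) (h2 : ‖((a, u) : P)‖ ≤ 5) (h3 : ‖((s, u) : P)‖ ≤ ρ)
    (h4 : ‖((a, u) : P)‖ ≤ ρ) (h5 : |s - a| ≤ d) : |f (s, u) - f (a, u)| ≤ 2 * C * (ρ ^ 2 * d) := by
  refine (hf _ _ h1 h2).trans ?_
  rw [norm_sub_fst]
  have a1 : ‖((s, u) : P)‖ ^ 2 ≤ ρ ^ 2 := pow_le_pow_left₀ (norm_nonneg _) h3 2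
  have a2 : ‖((a, u) : P)‖ ^ 2 ≤ ρ ^ 2 := pow_le_pow_left₀ (norm_nonneg _) h4 2
  calc C * (‖((s, u) : P)‖ ^ 2 + ‖((a, u) : P)‖ ^ 2) * |s - a| ≤ C * (ρ ^ 2 + ρ ^ 2) * d := by
        gcongr
    _ = 2 * C * (ρ ^ 2 * d) := by ring

/-- first leg -/
lemma leg1 (hC : 1 ≤ C) (h : IsSol κ C D) (he : Est κ C D) {x a u ρ : ℝ} (hx : |x| ≤ 5)
    (ha : |a| ≤ 5) (hu : |u| ≤ 5) (hρ : ∀ s ∈ uIcc a x, ‖((s, u) : P)‖ ≤ ρ) :
    D.pres κ (x, u) - D.pres κ (a, u) - D.G (a, u) * (x - a) -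
        κ ^ 2 * D.B (a, u) * (D.Y (x, u) - D.Y (a, u)) ≤
      (x - a) ^ 2 / 2 - κ * (x ^ 6 - a ^ 6 - 6 * a ^ 5 * (x - a)) +
        κ ^ 2 * (3 * C ^ 2) * (ρ ^ 2 * |x - a|) ^ 2 := by
  have hC0 : 0 ≤ C := by linarith
  have h5 : ∀ s ∈ uIcc a x, ‖((s, u) : P)‖ ≤ 5 := fun s hs =>
    norm_mk_le (abs_le_of_uIcc ha hx hs) hu
  have h6 : ∀ s ∈ uIcc a x, ‖((s, u) : P)‖ < 6 := fun s hs => (h5 s hs).trans_lt (by norm_num)
  have hρ0 : 0 ≤ ρ := (norm_nonneg _).trans (hρ a left_mem_uIcc)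
  -- the bound for `G`
  have hG : ∀ s ∈ uIcc a x, |(D.G (s, u) - (s - 6 * κ * s ^ 5)) - (D.G (a, u) - (a - 6 * κ * a ^ 5))| ≤
      C * κ ^ 2 * ρ ^ 4 * |x - a| := by
    intro s hs
    have hsub : uIcc a s ⊆ uIcc a x := uIcc_subset_uIcc left_mem_uIcc hs
    have := abs_sub_le_const (f := fun r => D.G (r, u) - (r - 6 * κ * r ^ 5))
      (f' := fun r => dx D.G (r, u) - (1 - 30 * κ * r ^ 4)) (a := a) (b := s)
      (m := C * κ ^ 2 * ρ ^ 4) (fun r _ => by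
        have h1 := hasDerivAt_dx (diff h.G_sm (r, u))
        have h2 := (hasDerivAt_id r).sub (((hasDerivAt_id r).pow 5).const_mul (6 * κ))
        refine HasDerivAt.congr_deriv (h1.sub h2) ?_
        simp only [Nat.cast_ofNat, id]
        ring) (fun r hr => by
        refine (h.Gx_b (r, u) (h6 r (hsub hr))).trans ?_
        have := pow_le_pow_left₀ (norm_nonneg _) (hρ r (hsub hr)) 4
        gcongr)
    refine this.trans ?_
    have := abs_sub_left_of_mem_uIcc hs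
    gcongr
  have key := abs_sub_le_const
    (f := fun s => D.pres κ (s, u) - D.G (a, u) * s - κ ^ 2 * D.B (a, u) * D.Y (s, u) -
      ((s - a) ^ 2 / 2 - κ * (s ^ 6 - 6 * a ^ 5 * s)))
    (f' := fun s => ((D.G (s, u) - (s - 6 * κ * s ^ 5)) - (D.G (a, u) - (a - 6 * κ * a ^ 5))) +
      κ ^ 2 * ((D.B (s, u) - D.B (a, u)) * dx D.Y (s, u))) (a := a) (b := x)
    (m := κ ^ 2 * (3 * C ^ 2) * (ρ ^ 4 * |x - a|)) (fun s hs => by
      have h1 := pres_dx h (h6 s hs)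
      have h2 := (hasDerivAt_id s).const_mul (D.G (a, u))
      have h3 := (hasDerivAt_dx (diff h.Y_sm (s, u))).const_mul (κ ^ 2 * D.B (a, u))
      have h4 := ((((hasDerivAt_id s).sub_const a).pow 2).div_const 2).sub
        ((((hasDerivAt_id s).pow 6).sub ((hasDerivAt_id s).const_mul (6 * a ^ 5))).const_mul κ)
      refine HasDerivAt.congr_deriv (((h1.sub h2).sub h3).sub h4) ?_
      simp only [Nat.cast_ofNat, id]
      ring) (fun s hs => by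
      refine (abs_add_le _ _).trans ?_
      have b1 := hG s hs
      have b2 := hor_bound hC0 he.B_lip (h5 s hs) (h5 a left_mem_uIcc) (hρ s hs) (hρ a left_mem_uIcc)
        (abs_sub_left_of_mem_uIcc hs)
      have b3 : |dx D.Y (s, u)| ≤ C * ρ ^ 2 := by
        refine (h.Yx_b _ (h6 s hs)).trans ?_
        have := pow_le_pow_left₀ (norm_nonneg _) (hρ s hs) 2
        gcongr
      have b4 : |κ ^ 2 * ((D.B (s, u) - D.B (a, u)) * dx D.Y (s, u))| ≤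
          κ ^ 2 * ((2 * C * (ρ ^ 2 * |x - a|)) * (C * ρ ^ 2)) := by
        rw [abs_mul, abs_mul, abs_of_nonneg (sq_nonneg κ)]
        gcongr
      have b5 : C * κ ^ 2 * ρ ^ 4 * |x - a| ≤ C ^ 2 * κ ^ 2 * ρ ^ 4 * |x - a| := by
        gcongr
        nlinarith
      nlinarith)
  have k2 := (abs_le.1 key).2
  have e : κ ^ 2 * (3 * C ^ 2) * (ρ ^ 4 * |x - a|) * |x - a| =
      κ ^ 2 * (3 * C ^ 2) * (ρ ^ 2 * |x - a|) ^ 2 := by ring
  rw [e] at k2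
  linarith

lemma Y_mono (he : Est κ C D) {x s s' : ℝ} (hx : |x| ≤ 5) (hs : |s| ≤ 5) (hs' : |s'| ≤ 5)
    (h : s' ≤ s) : D.Y (x, s') ≤ D.Y (x, s) := by
  have := he.Y_lo x s s' hx hs hs' h
  have h2 : 0 ≤ (x ^ 2 + s ^ 2 + s' ^ 2) / 20 * (s - s') := by
    have : 0 ≤ s - s' := by linarith
    positivity
  linarith

lemma Y_abs_lo (he : Est κ C D) {x s s' : ℝ} (hx : |x| ≤ 5) (hs : |s| ≤ 5) (hs' : |s'| ≤ 5) :
    (x ^ 2 + s ^ 2 + s' ^ 2) * |s - s'| ≤ 20 * |D.Y (x, s) - D.Y (x, s')| := by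
  rcases le_total s' s with h | h
  · have := he.Y_lo x s s' hx hs hs' h
    rw [abs_of_nonneg (sub_nonneg.2 h)]
    linarith [le_abs_self (D.Y (x, s) - D.Y (x, s'))]
  · have := he.Y_lo x s' s hx hs' hs h
    rw [abs_sub_comm, abs_of_nonneg (sub_nonneg.2 h), abs_sub_comm]
    linarith [le_abs_self (D.Y (x, s') - D.Y (x, s))]

lemma Y_between (he : Est κ C D) {x u b s : ℝ} (hx : |x| ≤ 5) (hu : |u| ≤ 5) (hb : |b| ≤ 5)
    (hs : s ∈ uIcc b u) : |D.Y (x, s) - D.Y (x, b)| ≤ |D.Y (x, u) - D.Y (x, b)| := by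
  have hs5 := abs_le_of_uIcc hb hu hs
  rcases mem_uIcc.1 hs with h | h
  · have a1 := Y_mono he hx hs5 hb h.1
    have a2 := Y_mono he hx hu hs5 h.2
    rw [abs_of_nonneg (by linarith), abs_of_nonneg (by linarith)]
    linarith
  · have a1 := Y_mono he hx hs5 hu h.1
    have a2 := Y_mono he hx hb hs5 h.2
    rw [abs_of_nonpos (by linarith), abs_of_nonpos (by linarith)]
    linarith

/-- second leg -/
lemma leg2 (hC : 1 ≤ C) (h : IsSol κ C D) (he : Est κ C D) {x u b β q : ℝ} (hx : |x| ≤ 5)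
    (hu : |u| ≤ 5) (hb : |b| ≤ 5) (hq : |D.B (x, b) - β| ≤ q) :
    D.pres κ (x, u) - D.pres κ (x, b) - κ ^ 2 * β * (D.Y (x, u) - D.Y (x, b)) ≤
      κ ^ 2 * ((40 * C * |D.Y (x, u) - D.Y (x, b)| + q) * |D.Y (x, u) - D.Y (x, b)|) := by
  have hC0 : 0 ≤ C := by linarith
  have hq0 : 0 ≤ q := (abs_nonneg _).trans hq
  have h5 : ∀ s ∈ uIcc b u, ‖((x, s) : P)‖ ≤ 5 := fun s hs =>
    norm_mk_le hx (abs_le_of_uIcc hb hu hs)
  have h6 : ∀ s ∈ uIcc b u, ‖((x, s) : P)‖ < 6 := fun s hs => (h5 s hs).trans_lt (by norm_num)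
  set Δ := |D.Y (x, u) - D.Y (x, b)| with hΔ
  have hΔ0 : 0 ≤ Δ := abs_nonneg _
  have key := abs_sub_le_of_deriv
    (f := fun s => D.pres κ (x, s) - κ ^ 2 * β * D.Y (x, s))
    (g := fun s => κ ^ 2 * (40 * C * Δ + q) * D.Y (x, s))
    (f' := fun s => κ ^ 2 * (D.B (x, s) - β) * du D.Y (x, s))
    (g' := fun s => κ ^ 2 * (40 * C * Δ + q) * du D.Y (x, s)) (a := b) (b := u)
    (fun s hs => by
      have h1 := pres_du h (h6 s hs)
      have h3 := (hasDerivAt_du (diff h.Y_sm (x, s))).const_mul (κ ^ 2 * β)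
      refine HasDerivAt.congr_deriv (h1.sub h3) ?_
      ring)
    (fun s _ => (hasDerivAt_du (diff h.Y_sm (x, s))).const_mul _)
    (fun s hs => by
      have hs5 := abs_le_of_uIcc hb hu hs
      have y0 : 0 ≤ du D.Y (x, s) := by
        rw [h.Y_u _ (h6 s hs)]
        have a1 := he.w_lo _ (h5 s hs)
        have a2 := he.Θ_lo _ (h5 s hs)
        refine mul_nonneg (le_trans (by positivity) a1) (by linarith)
      have b1 : |D.B (x, s) - D.B (x, b)| ≤ 40 * C * Δ := by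
        refine (he.B_lip _ _ (h5 s hs) (h5 b left_mem_uIcc)).trans ?_
        rw [norm_sub_snd]
        have a1 := norm_sq_le ((x, s) : P)
        have a2 := norm_sq_le ((x, b) : P)
        have a3 := Y_abs_lo he hx hs5 hb
        have a4 := Y_between he hx hu hb hs
        simp only at a1 a2
        calc C * (‖((x, s) : P)‖ ^ 2 + ‖((x, b) : P)‖ ^ 2) * |s - b|
            ≤ C * (2 * (x ^ 2 + s ^ 2 + b ^ 2)) * |s - b| := by
              gcongr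
              nlinarith [sq_nonneg s, sq_nonneg b]
          _ = 2 * C * ((x ^ 2 + s ^ 2 + b ^ 2) * |s - b|) := by ring
          _ ≤ 2 * C * (20 * Δ) := mul_le_mul_of_nonneg_left (by linarith) (by positivity)
          _ = 40 * C * Δ := by ring
      have b2 : |D.B (x, s) - β| ≤ 40 * C * Δ + q :=
        (abs_sub_le _ (D.B (x, b)) _).trans (add_le_add b1 hq)
      rw [abs_mul, abs_mul, abs_of_nonneg (sq_nonneg κ), abs_of_nonneg y0]
      gcongr)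
  have e : |κ ^ 2 * (40 * C * Δ + q) * D.Y (x, u) - κ ^ 2 * (40 * C * Δ + q) * D.Y (x, b)| =
      κ ^ 2 * ((40 * C * Δ + q) * Δ) := by
    rw [← mul_sub, abs_mul, abs_of_nonneg (by positivity), mul_assoc]
  rw [e] at key
  have k2 := (abs_le.1 key).2
  linarith

end REM

open REM in
theorem blk_REM : St_REM := by
  intro C hC
  have hC0 : 0 ≤ C := by linarith
  have hC2 : C ≤ C ^ 2 := by nlinarith
  have hC3 : C ^ 2 ≤ C ^ 3 := by nlinarith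
  refine ⟨3000 * C ^ 3, by nlinarith, fun κ D hκ _ h he => ?_⟩
  rintro ⟨x, u⟩ ⟨a, b⟩ hz hz'
  obtain ⟨hx, hu⟩ := norm_le_iff.1 hz
  obtain ⟨ha, hb⟩ := norm_le_iff.1 hz'
  simp only at hx hu ha hb ⊢
  set n := ‖((a, b) : P)‖ with hn
  have hn0 : 0 ≤ n := norm_nonneg _
  have han : |a| ≤ n := abs_fst_le ((a, b) : P)
  have hbn : |b| ≤ n := abs_snd_le ((a, b) : P)
  set d := |x - a| with hd
  have hd0 : 0 ≤ d := abs_nonneg _
  have hρ : ∀ s ∈ uIcc a x, ‖((s, b) : P)‖ ≤ n + d := fun s hs => by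
    refine norm_mk_le ?_ (by linarith)
    have := abs_sub_left_of_mem_uIcc hs
    have h2 := abs_sub_abs_le_abs_sub s a
    linarith
  have l1 := leg1 hC h he hx ha hb hρ
  have hxb : ‖((x, b) : P)‖ ≤ 5 := norm_mk_le hx hb
  have hB := hor_bound hC0 he.B_lip hxb hz' (hρ x right_mem_uIcc) (hρ a left_mem_uIcc) le_rfl
  have hY := hor_bound hC0 he.Y_lip hxb hz' (hρ x right_mem_uIcc) (hρ a left_mem_uIcc) le_rfl
  have l2 := leg2 hC h he hx hu hb hB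
  rw [← hd] at l1 hB hY l2
  set Q := (n + d) ^ 2 * d with hQ
  have hQ0 : 0 ≤ Q := by positivity
  set E := |D.Y (x, u) - D.Y (a, b)| with hE
  have hE0 : 0 ≤ E := abs_nonneg _
  set Δ := |D.Y (x, u) - D.Y (x, b)| with hΔ
  have hΔ0 : 0 ≤ Δ := abs_nonneg _
  have hΔE : Δ ≤ E + 2 * C * Q := by
    have := abs_sub_le (D.Y (x, u)) (D.Y (a, b)) (D.Y (x, b))
    rw [abs_sub_comm (D.Y (a, b))] at this
    linarith
  have hQ2 : Q ^ 2 ≤ 8 * ((n ^ 4 + (x - a) ^ 4) * (x - a) ^ 2) := by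
    have e2 : (x - a) ^ 2 = d ^ 2 := (sq_abs _).symm
    have e4 : (x - a) ^ 4 = d ^ 4 := by
      rw [show (x - a) ^ 4 = ((x - a) ^ 2) ^ 2 by ring, e2]; ring
    have : (n + d) ^ 4 ≤ 8 * (n ^ 4 + d ^ 4) := by
      nlinarith [sq_nonneg (n - d), sq_nonneg (n ^ 2 - d ^ 2), sq_nonneg (n + d),
        mul_nonneg (sq_nonneg (n - d)) (sq_nonneg (n + d)), mul_nonneg (sq_nonneg (n - d)) (mul_nonneg hn0 hd0)]
    rw [e2, e4, hQ]
    nlinarith [mul_le_mul_of_nonneg_right this (sq_nonneg d)]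
  set S := (n ^ 4 + (x - a) ^ 4) * (x - a) ^ 2 with hS
  have hS0 : 0 ≤ S := by positivity
  have hE2 : (D.Y (x, u) - D.Y (a, b)) ^ 2 = E ^ 2 := (sq_abs _).symm
  have hp := poly a (x - a)
  rw [show a + (x - a) = x by ring] at hp
  have hp2 := mul_le_mul_of_nonneg_left hp hκ.le
  have m1 : (40 * C * Δ + 2 * C * Q) * Δ ≤ 41 * C * (E + 2 * C * Q) ^ 2 := by
    have : 2 * C * Q ≤ C * (E + 2 * C * Q) := by
      nlinarith [mul_nonneg hC0 hE0, mul_nonneg (sub_nonneg.2 hC2) hQ0]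
    calc (40 * C * Δ + 2 * C * Q) * Δ
        ≤ (40 * C * (E + 2 * C * Q) + C * (E + 2 * C * Q)) * (E + 2 * C * Q) := by gcongr
      _ = 41 * C * (E + 2 * C * Q) ^ 2 := by ring
  have m2 : (E + 2 * C * Q) ^ 2 ≤ 2 * E ^ 2 + 8 * C ^ 2 * Q ^ 2 := by
    nlinarith [sq_nonneg (E - 2 * C * Q)]
  have m3 : 3 * C ^ 2 * Q ^ 2 + (40 * C * Δ + 2 * C * Q) * Δ ≤ 3000 * C ^ 3 * (E ^ 2 + S) := by
    have t1 : 41 * C * (E + 2 * C * Q) ^ 2 ≤ 41 * C * (2 * E ^ 2 + 8 * C ^ 2 * (8 * S)) := by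
      gcongr
      refine m2.trans ?_
      gcongr
    have t2 : 3 * C ^ 2 * Q ^ 2 ≤ 3 * C ^ 3 * (8 * S) := by gcongr
    have t3 : C * E ^ 2 ≤ C ^ 3 * E ^ 2 := by
      gcongr
      linarith
    have t4 : 0 ≤ C ^ 3 * E ^ 2 := by positivity
    have t5 : 0 ≤ C ^ 3 * S := by positivity
    nlinarith
  have m4 := mul_le_mul_of_nonneg_left m3 (sq_nonneg κ)
  rw [hE2]
  nlinarith

end Pool.Agent.Lib.MP_f62ea7_gt
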