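import Pool.Agent.Lib.MP_f62ea7_gt.Basic

set_option autoImplicit false

open MeasureTheory Set Filter Topology Real
open scoped ContDiff ENNReal NNReal

namespace Pool.Agent.Lib.MP_f62ea7_gt

namespace STREAM

/-- the step function -/
noncomputable def st (t : ℝ) : ℝ := if 0 ≤ t then 1 else 0
/-- the positive part -/
noncomputable def ps (t : ℝ) : ℝ := max t 0
/-- the primitive of the positive part -/
noncomputable def qd (t : ℝ) : ℝ := ∫ s in (0 : ℝ)..t, ps s

lemma measurable_st : Measurable st :=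
  Measurable.ite measurableSet_Ici measurable_const measurable_const
lemma continuous_ps : Continuous ps := continuous_id.max continuous_const
lemma hasDerivAt_qd (t : ℝ) : HasDerivAt qd (ps t) t := (continuous_ps.integral_hasStrictDerivAt 0 t).hasDerivAt
lemma continuous_qd : Continuous qd :=
  continuous_iff_continuousAt.2 fun t => (hasDerivAt_qd t).continuousAt
lemma contDiff_qd : ContDiff ℝ 1 qd := by
  refine contDiff_one_iff_deriv.2 ⟨fun t => (hasDerivAt_qd t).differentiableAt, ?_⟩
  have : deriv qd = ps := funext fun t => (hasDerivAt_qd t).deriv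
  rw [this]; exact continuous_ps
lemma abs_st_le (t : ℝ) : |st t| ≤ 1 := by unfold st; split_ifs <;> simp

lemma hasDerivAt_ps {t : ℝ} (ht : t ≠ 0) : HasDerivAt ps (st t) t := by
  rcases lt_or_gt_of_ne ht with h | h
  · have e : ps =ᶠ[𝓝 t] fun _ => (0 : ℝ) := by
      filter_upwards [gt_mem_nhds h] with s hs using max_eq_right hs.le
    have : st t = 0 := if_neg (not_le.2 h)
    rw [this]; exact (hasDerivAt_const t (0 : ℝ)).congr_of_eventuallyEq e
  · have e : ps =ᶠ[𝓝 t] fun s => s := by
      filter_upwards [lt_mem_nhds h] with s hs using max_eq_left hs.le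
    have : st t = 1 := if_pos h.le
    rw [this]; exact (hasDerivAt_id t).congr_of_eventuallyEq e

lemma lip_ps (R : ℝ) : ∃ L : ℝ≥0, LipschitzOnWith L ps (Icc (-R) R) :=
  ⟨1, (LipschitzWith.id.max_const 0).lipschitzOnWith⟩

lemma lip_qd (R : ℝ) : ∃ L : ℝ≥0, LipschitzOnWith L qd (Icc (-R) R) := by
  refine ⟨Real.nnabs R, (convex_Icc _ _).lipschitzOnWith_of_nnnorm_hasDerivWithin_le
    (f' := ps) (fun x _ => (hasDerivAt_qd x).hasDerivWithinAt) fun x hx => ?_⟩
  rw [← NNReal.coe_le_coe, coe_nnnorm, Real.coe_nnabs, Real.norm_eq_abs,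
    abs_of_nonneg (le_max_right _ _)]
  exact max_le (hx.2.trans (le_abs_self R)) (abs_nonneg R)

section General

variable {X : Type} [MeasurableSpace X] {μ : Measure X}

lemma int_mul {g k : X → ℝ} (hk : Integrable k μ) (hg : Measurable g) (C : ℝ)
    (hb : ∀ p, k p ≠ 0 → |g p| ≤ C) : Integrable (fun p => g p * k p) μ := by
  refine (hk.norm.const_mul C).mono' (hg.aestronglyMeasurable.mul hk.1) (ae_of_all _ fun p => ?_)
  by_cases h : k p = 0
  · simp [h]
  · rw [norm_mul]; exact mul_le_mul_of_nonneg_right (hb p h) (norm_nonneg _)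

lemma int_cont {u k : X → ℝ} {G : ℝ → ℝ} (hu : Measurable u) (hk : Integrable k μ)
    (hb : ∀ p, k p ≠ 0 → |u p| ≤ 2) (hG : Continuous G) (a : ℝ) :
    Integrable (fun p => G (a - u p) * k p) μ := by
  obtain ⟨C, hC⟩ := (isCompact_Icc (a := a - 2) (b := a + 2)).exists_bound_of_continuousOn
    hG.continuousOn
  refine int_mul hk (hG.measurable.comp (measurable_const.sub hu)) C fun p hp => ?_
  have := abs_le.1 (hb p hp)
  exact hC _ ⟨by linarith, by linarith⟩

lemma int_st {u k : X → ℝ} (hu : Measurable u) (hk : Integrable k μ) (a : ℝ) :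
    Integrable (fun p => st (a - u p) * k p) μ :=
  int_mul hk (measurable_st.comp (measurable_const.sub hu)) 1 fun _ _ => abs_st_le _

/-- differentiation under the integral -/
lemma hasDerivAt_int {u k : X → ℝ} {G G' : ℝ → ℝ} (hu : Measurable u) (hk : Integrable k μ)
    (hb : ∀ p, k p ≠ 0 → |u p| ≤ 2) (hG : Continuous G) (hG' : Measurable G')
    (hd : ∀ t ≠ 0, HasDerivAt G (G' t) t)
    (hL : ∀ R, ∃ L : ℝ≥0, LipschitzOnWith L G (Icc (-R) R)) (a : ℝ)
    (h0 : ∀ᵐ p ∂μ, u p ≠ a) :
    HasDerivAt (fun a => ∫ p, G (a - u p) * k p ∂μ) (∫ p, G' (a - u p) * k p ∂μ) a := by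
  obtain ⟨L, hL⟩ := hL (|a| + 3)
  refine (hasDerivAt_integral_of_dominated_loc_of_lip (s := Icc (a - 1) (a + 1))
    (bound := fun p => L * |k p|) (F := fun a p => G (a - u p) * k p)
    (F' := fun p => G' (a - u p) * k p) (Icc_mem_nhds (by linarith) (by linarith))
    (Eventually.of_forall fun b => (int_cont hu hk hb hG b).1) (int_cont hu hk hb hG a)
    ((hG'.comp (measurable_const.sub hu)).aestronglyMeasurable.mul hk.1)
    (ae_of_all _ fun p => ?_) (hk.abs.const_mul _) ?_).2
  · refine LipschitzOnWith.of_dist_le_mul fun x hx y hy => ?_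
    by_cases h : k p = 0
    · simp [h]
    · have h2 := abs_le.1 (hb p h)
      have h3 := le_abs_self a
      have h4 := neg_abs_le a
      have := hL.dist_le_mul (x - u p) ⟨by linarith [hx.1], by linarith [hx.2]⟩ (y - u p)
        ⟨by linarith [hy.1], by linarith [hy.2]⟩
      rw [Real.dist_eq, Real.dist_eq, sub_sub_sub_cancel_right] at this
      rw [Real.dist_eq, Real.dist_eq, ← sub_mul, abs_mul, Real.coe_nnabs, abs_mul, abs_abs,
        NNReal.abs_eq]
      nlinarith [abs_nonneg (k p)]
  · filter_upwards [h0] with p hp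
    have := ((hd _ (sub_ne_zero.2 hp.symm)).comp a ((hasDerivAt_id a).sub_const (u p))).mul_const
      (k p)
    simpa using this

end General

lemma st_int (f : ℝ → ℝ) (a : ℝ) : ∫ x, st (a - x) * f x = ∫ x in Iic a, f x := by
  rw [← integral_indicator measurableSet_Iic]
  congr 1; ext x
  by_cases h : x ≤ a
  · simp [st, h, indicator]
  · simp [st, h, indicator]

lemma Iic_eq {f : ℝ → ℝ} (hf : Integrable f) (a : ℝ) :
    ∫ x in Iic a, f x = (∫ x in Iic 0, f x) + ∫ x in (0 : ℝ)..a, f x := by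
  rw [← intervalIntegral.integral_Iic_sub_Iic hf.integrableOn hf.integrableOn]; ring

lemma continuous_Iic {f : ℝ → ℝ} (hf : Integrable f) : Continuous fun a => ∫ x in Iic a, f x := by
  rw [funext (Iic_eq hf)]
  exact continuous_const.add (hf.continuous_primitive 0)

lemma ae_ne (a : ℝ) : ∀ᵐ x : ℝ, x ≠ a := by simp [ae_iff]

lemma hasDerivAt_ps_int {k : ℝ → ℝ} (hk : Integrable k) (hb : ∀ x, k x ≠ 0 → |x| ≤ 2) (a : ℝ) :
    HasDerivAt (fun a => ∫ x, ps (a - x) * k x) (∫ x in Iic a, k x) a := by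
  rw [← st_int]
  exact hasDerivAt_int measurable_id hk hb continuous_ps measurable_st (fun _ => hasDerivAt_ps)
    lip_ps a (ae_ne a)

/-- the one-dimensional weak derivative lemma -/
lemma weak {p k : ℝ → ℝ} (hp : Integrable p) (hk : Integrable k) (hb : ∀ x, k x ≠ 0 → |x| ≤ 2)
    (h : ∀ a, (∫ x in Iic a, p x) + ∫ x, ps (a - x) * k x = 0) :
    ∀ᵐ a, p a + ∫ x in Iic a, k x = 0 := by
  filter_upwards [_root_.LocallyIntegrable.ae_hasDerivAt_integral hp.locallyIntegrable] with a ha
  have h1 : HasDerivAt (fun a => ∫ x in Iic a, p x) (p a) a := by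
    rw [funext (Iic_eq hp)]
    exact (ha 0).const_add _
  have h2 := h1.add (hasDerivAt_ps_int hk hb a)
  have h3 : ((fun a => ∫ x in Iic a, p x) + fun a => ∫ x, ps (a - x) * k x) = fun _ => 0 :=
    funext h
  rw [h3] at h2
  exact h2.unique (hasDerivAt_const a 0)

lemma ae_fst_ne (a : ℝ) : ∀ᵐ p : P, p.1 ≠ a :=
  Measure.quasiMeasurePreserving_fst.ae (ae_ne a)
lemma ae_snd_ne (a : ℝ) : ∀ᵐ p : P, p.2 ≠ a :=
  Measure.quasiMeasurePreserving_snd.ae (ae_ne a)

/-- bounded measurable functions vanishing off the box -/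
structure Nice (B : ℝ) (f : P → ℝ) : Prop where
  meas : Measurable f
  bd : ∀ p, |f p| ≤ B
  supp : ∀ p, f p ≠ 0 → |p.1| ≤ 2 ∧ |p.2| ≤ 2

lemma Nice.int {B : ℝ} {f : P → ℝ} (h : Nice B f) : Integrable f := by
  have h1 : IntegrableOn f Box :=
    Measure.integrableOn_of_bounded (M := B) (isCompact_closedBall _ _).measure_lt_top.ne
      h.meas.aestronglyMeasurable (ae_of_all _ h.bd)
  refine (integrableOn_iff_integrable_of_support_subset fun p hp => ?_).1 h1
  exact mem_Box.2 (norm_le_iff.2 (h.supp p hp))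

lemma int1 {B : ℝ} {f : ℝ → ℝ} (hm : Measurable f) (hb : ∀ x, |f x| ≤ B)
    (hs : ∀ x, f x ≠ 0 → |x| ≤ 2) : Integrable f := by
  have h1 : IntegrableOn f (Icc (-2) 2) :=
    Measure.integrableOn_of_bounded (M := B) isCompact_Icc.measure_lt_top.ne
      hm.aestronglyMeasurable (ae_of_all _ hb)
  exact (integrableOn_iff_integrable_of_support_subset fun p hp => abs_le.1 (hs p hp)).1 h1

lemma Nice.int_left {B : ℝ} {f : P → ℝ} (h : Nice B f) (x : ℝ) : Integrable fun y => f (x, y) :=
  int1 (h.meas.comp measurable_prodMk_left) (fun _ => h.bd _) fun _ hy => (h.supp _ hy).2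

lemma Nice.int_right {B : ℝ} {f : P → ℝ} (h : Nice B f) (y : ℝ) : Integrable fun x => f (x, y) :=
  int1 (h.meas.comp measurable_prodMk_right) (fun _ => h.bd _) fun _ hy => (h.supp _ hy).1

lemma ne_of_mul {a b : ℝ} (h : a * b ≠ 0) : b ≠ 0 := right_ne_zero_of_mul h

/-- the rectangle identity -/
lemma rect {B : ℝ} {ζ om : P → ℝ} (hζ : Nice B ζ) (ho : Nice B om)
    (h : ∀ h : P → ℝ, ContDiff ℝ 1 h → ∫ p, (ζ p * dx h p + om p * du h p) = 0) (a b : ℝ) :
    (∫ p : P, st (a - p.1) * (ps (b - p.2) * ζ p)) +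
      ∫ p : P, ps (a - p.1) * (st (b - p.2) * om p) = 0 := by
  have i1 : ∀ b, Integrable fun p : P => qd (b - p.2) * ζ p := fun b =>
    int_cont measurable_snd hζ.int (fun p hp => (hζ.supp p hp).2) continuous_qd b
  have i2 : ∀ b, Integrable fun p : P => ps (b - p.2) * om p := fun b =>
    int_cont measurable_snd ho.int (fun p hp => (ho.supp p hp).2) continuous_ps b
  have s1 : ∀ a b : ℝ, (∫ p : P, ps (a - p.1) * (qd (b - p.2) * ζ p)) +
      ∫ p : P, qd (a - p.1) * (ps (b - p.2) * om p) = 0 := by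
    intro a b
    have hc : ContDiff ℝ 1 fun p : P => qd (a - p.1) * qd (b - p.2) :=
      (contDiff_qd.comp (contDiff_const.sub contDiff_fst)).mul
        (contDiff_qd.comp (contDiff_const.sub contDiff_snd))
    have h1 := h _ hc
    have e1 : ∀ p : P, dx (fun p : P => qd (a - p.1) * qd (b - p.2)) p =
        -(ps (a - p.1) * qd (b - p.2)) := by
      rintro ⟨x, y⟩
      refine (hasDerivAt_dx (hc.differentiable one_ne_zero _)).unique ?_
      have := ((hasDerivAt_qd (a - x)).comp x ((hasDerivAt_id x).const_sub a)).mul_const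
        (qd (b - y))
      simpa using this
    have e2 : ∀ p : P, du (fun p : P => qd (a - p.1) * qd (b - p.2)) p =
        -(qd (a - p.1) * ps (b - p.2)) := by
      rintro ⟨x, y⟩
      refine (hasDerivAt_du (hc.differentiable one_ne_zero _)).unique ?_
      have := ((hasDerivAt_qd (b - y)).comp y ((hasDerivAt_id y).const_sub b)).const_mul
        (qd (a - x))
      simpa using this
    rw [← integral_add (int_cont measurable_fst (i1 b)
      (fun p hp => (hζ.supp p (ne_of_mul hp)).1) continuous_ps a) (int_cont measurable_fst (i2 b)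
      (fun p hp => (ho.supp p (ne_of_mul hp)).1) continuous_qd a), ← neg_eq_zero, ← integral_neg,
      ← h1]
    congr 1; ext p
    rw [e1, e2]; ring
  have s2 : ∀ a b : ℝ, (∫ p : P, qd (b - p.2) * (st (a - p.1) * ζ p)) +
      ∫ p : P, ps (b - p.2) * (ps (a - p.1) * om p) = 0 := by
    intro a b
    have d1 := hasDerivAt_int measurable_fst (i1 b) (fun p hp => (hζ.supp p (ne_of_mul hp)).1)
      continuous_ps measurable_st (fun _ => hasDerivAt_ps) lip_ps a (ae_fst_ne a)
    have d2 := hasDerivAt_int measurable_fst (i2 b) (fun p hp => (ho.supp p (ne_of_mul hp)).1)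
      continuous_qd continuous_ps.measurable (fun t _ => hasDerivAt_qd t) lip_qd a (ae_fst_ne a)
    have d3 := d1.add d2
    have e : ((fun a => ∫ p : P, ps (a - p.1) * (qd (b - p.2) * ζ p)) +
      fun a => ∫ p : P, qd (a - p.1) * (ps (b - p.2) * om p)) = fun _ => 0 := funext (s1 · b)
    rw [e] at d3
    have := d3.unique (hasDerivAt_const a 0)
    simp_rw [mul_left_comm (qd _), mul_left_comm (ps (b - _))]
    exact this
  have j1 : Integrable fun p : P => st (a - p.1) * ζ p := int_st measurable_fst hζ.int a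
  have j2 : Integrable fun p : P => ps (a - p.1) * om p :=
    int_cont measurable_fst ho.int (fun p hp => (ho.supp p hp).1) continuous_ps a
  have d1 := hasDerivAt_int measurable_snd j1 (fun p hp => (hζ.supp p (ne_of_mul hp)).2)
    continuous_qd continuous_ps.measurable (fun t _ => hasDerivAt_qd t) lip_qd b (ae_snd_ne b)
  have d2 := hasDerivAt_int measurable_snd j2 (fun p hp => (ho.supp p (ne_of_mul hp)).2)
    continuous_ps measurable_st (fun _ => hasDerivAt_ps) lip_ps b (ae_snd_ne b)
  have d3 := d1.add d2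
  have e : ((fun b => ∫ p : P, qd (b - p.2) * (st (a - p.1) * ζ p)) +
    fun b => ∫ p : P, ps (b - p.2) * (ps (a - p.1) * om p)) = fun _ => 0 := funext (s2 a)
  rw [e] at d3
  have := d3.unique (hasDerivAt_const b 0)
  simp_rw [mul_left_comm (st (a - _)), mul_left_comm (ps (a - _))]
  exact this

/-- the two primitives agree almost everywhere -/
lemma prim_ae {B : ℝ} {ζ om : P → ℝ} (hζ : Nice B ζ) (ho : Nice B om)
    (h : ∀ h : P → ℝ, ContDiff ℝ 1 h → ∫ p, (ζ p * dx h p + om p * du h p) = 0) :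
    ∀ᵐ x : ℝ, ∀ᵐ y : ℝ, (∫ s in Iic x, om (s, y)) + ∫ s in Iic y, ζ (x, s) = 0 := by
  have i1 : ∀ b, Integrable fun p : P => ps (b - p.2) * ζ p := fun b =>
    int_cont measurable_snd hζ.int (fun p hp => (hζ.supp p hp).2) continuous_ps b
  have i2 : ∀ b, Integrable fun p : P => st (b - p.2) * om p := fun b =>
    int_st measurable_snd ho.int b
  have s1 : ∀ b : ℝ, ∀ᵐ x : ℝ, (∫ y, ps (b - y) * ζ (x, y)) +
      ∫ s in Iic x, ∫ y, st (b - y) * om (s, y) = 0 := by
    intro b
    refine weak (i1 b).integral_prod_left (i2 b).integral_prod_left (fun x hx => ?_) fun a => ?_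
    · by_contra hc
      refine hx (integral_eq_zero_of_ae (ae_of_all _ fun y => ?_))
      by_contra hy
      exact hc (ho.supp _ (ne_of_mul hy)).1
    · rw [← rect hζ ho h a b, ← st_int]
      have k1 := integral_prod _ (int_st measurable_fst (i1 b) a)
      have k2 := integral_prod _ (int_cont measurable_fst (i2 b)
        (fun p hp => (ho.supp p (ne_of_mul hp)).1) continuous_ps a)
      simp only [integral_const_mul] at k1 k2
      exact congrArg₂ (· + ·) k1.symm k2.symm
  have s2 : ∀ᵐ x : ℝ, ∀ b : ℚ, (∫ y, ps (b - y) * ζ (x, y)) +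
      ∫ s in Iic x, ∫ y, st (b - y) * om (s, y) = 0 := ae_all_iff.2 fun b => s1 b
  filter_upwards [s2] with x hx
  have j : Integrable fun p : P => st (x - p.1) * om p := int_st measurable_fst ho.int x
  have j1 : Integrable fun y => ∫ s in Iic x, om (s, y) := by
    have := j.integral_prod_right
    simpa only [st_int] using this
  have e : ∀ b : ℝ, ∫ s in Iic x, ∫ y, st (b - y) * om (s, y) =
      ∫ y in Iic b, ∫ s in Iic x, om (s, y) := by
    intro b
    have k1 := integral_prod _ (int_st measurable_fst (i2 b) x)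
    have k2 := integral_prod_symm _ (int_st measurable_fst (i2 b) x)
    simp only [integral_const_mul] at k1
    simp only [mul_left_comm (st (x - _)), integral_const_mul] at k2
    simp only [mul_left_comm (st (x - _))] at k1
    rw [← st_int, ← k1, k2, ← st_int]
    simp only [st_int]
  have hs : ∀ y, ζ (x, y) ≠ 0 → |y| ≤ 2 := fun y hy => (hζ.supp _ hy).2
  refine weak j1 (hζ.int_left x) hs fun b => ?_
  have c1 : Continuous fun b : ℝ => (∫ y in Iic b, ∫ s in Iic x, om (s, y)) +
      ∫ y, ps (b - y) * ζ (x, y) :=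
    (continuous_Iic j1).add (continuous_iff_continuousAt.2 fun b =>
      (hasDerivAt_ps_int (hζ.int_left x) hs b).continuousAt)
  have := Rat.denseRange_cast.equalizer c1 (continuous_const (y := (0 : ℝ)))
    (funext fun q => by simpa [e, add_comm] using hx q)
  exact congrFun this b

lemma Iic_lip {B : ℝ} {f : ℝ → ℝ} (hf : Integrable f) (hb : ∀ x, |f x| ≤ B) (a b : ℝ) :
    |(∫ x in Iic a, f x) - ∫ x in Iic b, f x| ≤ B * |a - b| := by
  rw [intervalIntegral.integral_Iic_sub_Iic hf.integrableOn hf.integrableOn]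
  exact intervalIntegral.norm_integral_le_of_norm_le_const (f := f) (a := b) (b := a) (C := B)
    fun x _ => hb x

end STREAM

open STREAM in
theorem blk_STREAM : St_STREAM := by
  rintro B ζ om ⟨m1, m2, hb, hs, h⟩
  have hζ : Nice B ζ := ⟨m1, fun p => (hb p).1, fun p hp => by
    by_contra hc
    exact hp (hs p fun hB => hc (norm_le_iff.1 (mem_Box.1 hB))).1⟩
  have ho : Nice B om := ⟨m2, fun p => (hb p).2, fun p hp => by
    by_contra hc
    exact hp (hs p fun hB => hc (norm_le_iff.1 (mem_Box.1 hB))).2⟩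
  have hB : 0 ≤ B := (abs_nonneg _).trans (hb 0).1
  have hae := prim_ae hζ ho h
  set Xs : Set ℝ := {x | ∀ᵐ y : ℝ, (∫ s in Iic x, om (s, y)) + ∫ s in Iic y, ζ (x, s) = 0}
  set F1 : P → ℝ := fun p => ∫ s in Iic p.2, ζ (p.1, s) with hF1
  have l1 : ∀ x ∈ Xs, ∀ x' ∈ Xs, ∀ y, |F1 (x, y) - F1 (x', y)| ≤ B * |x - x'| := by
    intro x hx x' hx'
    have c : IsClosed {y | |F1 (x, y) - F1 (x', y)| ≤ B * |x - x'|} :=
      isClosed_le ((continuous_Iic (hζ.int_left x)).sub (continuous_Iic (hζ.int_left x'))).abs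
        continuous_const
    have d : Dense {y | |F1 (x, y) - F1 (x', y)| ≤ B * |x - x'|} := by
      refine Measure.dense_of_ae (μ := volume) ?_
      filter_upwards [hx, hx'] with y h1 h2
      have := Iic_lip (ho.int_right y) (fun s => ho.bd _) x' x
      rw [abs_sub_comm x' x] at this
      convert this using 2
      simp only [hF1]; linarith
    intro y
    have := d y
    rwa [c.closure_eq] at this
  have l2 : LipschitzOnWith (Real.toNNReal (2 * B)) F1 (Xs ×ˢ univ) := by
    refine LipschitzOnWith.of_dist_le_mul fun p hp q hq => ?_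
    have a1 := l1 p.1 hp.1 q.1 hq.1 p.2
    have a2 := Iic_lip (hζ.int_left q.1) (fun s => hζ.bd _) p.2 q.2
    have a3 := abs_sub_le (F1 p) (F1 (q.1, p.2)) (F1 q)
    have b1 : |p.1 - q.1| ≤ dist p q := by rw [dist_eq_norm]; exact abs_fst_le (p - q)
    have b2 : |p.2 - q.2| ≤ dist p q := by rw [dist_eq_norm]; exact abs_snd_le (p - q)
    rw [Real.coe_toNNReal _ (by positivity), Real.dist_eq]
    have c1 := mul_le_mul_of_nonneg_left b1 hB
    have c2 := mul_le_mul_of_nonneg_left b2 hB
    have a1' : |F1 p - F1 (q.1, p.2)| ≤ B * |p.1 - q.1| := a1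
    have a2' : |F1 (q.1, p.2) - F1 q| ≤ B * |p.2 - q.2| := a2
    linarith
  obtain ⟨F, hF, hE⟩ := l2.extend_real
  refine ⟨F, hF.continuous, ?_, ?_⟩
  · filter_upwards [hae] with x hx y y'
    rw [← hE (x := (x, y)) ⟨hx, trivial⟩, ← hE (x := (x, y')) ⟨hx, trivial⟩]
    exact intervalIntegral.integral_Iic_sub_Iic (hζ.int_left x).integrableOn
      (hζ.int_left x).integrableOn
  · obtain ⟨T, hT, hc, hd⟩ := (Measure.dense_of_ae (μ := volume) hae).exists_countable_dense_subset
    have : ∀ᵐ y : ℝ, ∀ x ∈ T, (∫ s in Iic x, om (s, y)) + ∫ s in Iic y, ζ (x, s) = 0 :=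
      (ae_ball_iff hc).2 fun x hx => hT hx
    filter_upwards [this] with y hy x x'
    have e : (fun x => F (x, y)) = fun x => -∫ s in Iic x, om (s, y) := by
      refine Continuous.ext_on hd (hF.continuous.comp (continuous_id.prodMk continuous_const))
        (continuous_Iic (ho.int_right y)).neg fun x hx => ?_
      have := hy x hx
      rw [← hE (x := (x, y)) ⟨hT hx, trivial⟩]
      simp only [hF1]; linarith
    rw [congrFun e x, congrFun e x', ← intervalIntegral.integral_Iic_sub_Iic
      (ho.int_right y).integrableOn (ho.int_right y).integrableOn]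
    ring

end Pool.Agent.Lib.MP_f62ea7_gt
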