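import Pool.Agent.Lib.MP_f62ea7_gt.Basic

set_option autoImplicit false

open MeasureTheory Set Filter Topology Real
open scoped ContDiff

namespace Pool.Agent.Lib.MP_f62ea7_gt

namespace T

lemma lim0 {f : ℝ → ℝ} (hf : Continuous f) (h : ∀ᶠ l in 𝓝[≠] (0 : ℝ), 0 ≤ f l) : 0 ≤ f 0 :=
  ge_of_tendsto ((hf.tendsto 0).mono_left nhdsWithin_le_nhds) h

lemma ev_small (z : P) : ∀ᶠ l in 𝓝[≠] (0 : ℝ), l ≠ 0 ∧ ‖l • z‖ < 1 := by
  have h : Continuous fun l : ℝ => ‖l • z‖ := by fun_prop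
  have h1 : ∀ᶠ l in 𝓝 (0 : ℝ), ‖l • z‖ < 1 := (h.tendsto 0).eventually_lt_const (by simp)
  exact Eventually.and (self_mem_nhdsWithin (a := (0 : ℝ)) (s := {0}ᶜ))
    (h1.filter_mono nhdsWithin_le_nhds)

/-- `τ` is the least positive time at which `ζ` is carried to `-ζ`. -/
def Half (X : Geo) (ζ : P) (τ : ℝ) : Prop :=
  0 < τ ∧ X.g τ ζ = -ζ ∧ ∀ t, 0 < t → t < τ → X.g t ζ ≠ -ζ

lemma Half.unique {X : Geo} {ζ : P} {τ τ' : ℝ} (h : Half X ζ τ) (h' : Half X ζ τ') : τ = τ' := by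
  rcases lt_trichotomy τ τ' with k | k | k
  · exact absurd h.2.1 (h'.2.2 τ h.1 k)
  · exact k
  · exact absurd h'.2.1 (h.2.2 τ' h'.1 k)

variable {κ C : ℝ} {X : Geo}

lemma w_small (h : Good κ C X) {z : P} (hz : ‖z‖ < 1) : X.w z < 8 := by
  have a := h.w_hi z (by linarith)
  have b := fst_sq_le z
  have c := snd_sq_le z
  nlinarith [norm_nonneg z]

lemma memW (h : Good κ C X) {z : P} (hz : ‖z‖ < 1) : z ∈ X.W :=
  ⟨by linarith, (w_small h hz).le⟩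

lemma WoW {z : P} (hz : z ∈ X.Wo) : z ∈ X.W := ⟨hz.1.le, hz.2.1.le⟩

lemma g_back (h : Good κ C X) (t : ℝ) (z : P) : X.g (-t) (X.g t z) = z := by
  rw [← h.g_add, neg_add_cancel, h.g_zero]

lemma norm_back (h : Good κ C X) (hp : Phys1 X) {z : P} (hz : z ∈ X.W) (t : ℝ) :
    ‖z‖ ≤ 2 * ‖X.g t z‖ := by
  have := hp.g_norm _ (h.g_mem z hz t) (-t)
  rwa [g_back h] at this

lemma g_Wo (h : Good κ C X) (hp : Phys1 X) {z : P} (hz : z ∈ X.Wo) (t : ℝ) : X.g t z ∈ X.Wo := by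
  have a := hp.W_small _ (h.g_mem z (WoW hz) t)
  refine ⟨by linarith, by rw [h.g_w z (WoW hz)]; exact hz.2.1, fun e => hz.2.2 ?_⟩
  have b := norm_back h hp (WoW hz) t
  rw [e, norm_zero, mul_zero] at b
  exact norm_le_zero_iff.1 b

lemma Half.flow (h : Good κ C X) {z : P} (hz : z ∈ X.W) {τ : ℝ} (k : Half X z τ) (t : ℝ) :
    Half X (X.g t z) τ := by
  refine ⟨k.1, ?_, fun s s0 s1 e => k.2.2 s s0 s1 ?_⟩
  · rw [← h.g_add, add_comm, h.g_add, k.2.1, h.g_odd z hz]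
  · rw [← h.g_odd z hz, ← h.g_add, add_comm, h.g_add] at e
    have := congrArg (X.g (-t)) e
    rwa [g_back h, g_back h] at this

lemma est (h : Good κ C X) {ζ : P} (hζ : ‖ζ‖ ≤ 5) {m : ℝ} (hm : ‖ζ‖ ≤ m) :
    |ζ.2 * ζ.2 - ζ.1 * -X.G ζ - (ζ.1 ^ 2 + ζ.2 ^ 2)| ≤ C * κ * m ^ 4 * (ζ.1 ^ 2 + ζ.2 ^ 2) := by
  have a := h.G_near ζ hζ
  have k : 0 ≤ C * κ := mul_nonneg (by linarith [h.C_ge]) h.κ_pos.le
  have e : ζ.2 * ζ.2 - ζ.1 * -X.G ζ - (ζ.1 ^ 2 + ζ.2 ^ 2) = ζ.1 * (X.G ζ - ζ.1) := by ring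
  rw [e, abs_mul]
  calc _ ≤ ‖ζ‖ * (C * κ * ‖ζ‖ ^ 5) :=
        mul_le_mul (abs_fst_le ζ) a (abs_nonneg _) (norm_nonneg _)
    _ = C * κ * ‖ζ‖ ^ 4 * ‖ζ‖ ^ 2 := by ring
    _ ≤ _ := by
        have := norm_nonneg ζ
        have := norm_sq_le ζ
        gcongr

/-- The blown up flow. -/
structure Blow (X : Geo) (gh : ℝ × ℝ × P → P) : Prop where
  sm : ContDiff ℝ ∞ gh
  eq : ∀ l t z, X.g t (l • z) = l • gh (l, t, z)

lemma exists_blow (hH : St_HAD) (h : Good κ C X) (hp : Phys1 X) : ∃ gh, Blow X gh := by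
  have s : ContDiff ℝ ∞ fun q : ℝ × ℝ × P => X.g q.2.1 (q.1 • q.2.2) :=
    h.g_sm.comp (f := fun q : ℝ × ℝ × P => (q.2.1, q.1 • q.2.2)) (by fun_prop)
  obtain ⟨gh, a, b⟩ := hH (ℝ × P) P univ _ 1 isOpen_univ s.contDiffOn fun e _ =>
    ⟨2 * ‖e.2‖, (ev_small e.2).mono fun l hl => by
      have := hp.g_norm _ (memW h hl.2) e.1
      rw [norm_smul, Real.norm_eq_abs] at this
      rw [pow_one]
      linarith⟩
  exact ⟨gh, contDiffOn_univ.1 a, fun l t z => by simpa using b (l, t, z) trivial⟩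

/-- time derivative of the blown up flow -/
noncomputable def dt (gh : ℝ × ℝ × P → P) (q : ℝ × ℝ × P) : P := fderiv ℝ gh q (0, 1, 0)

namespace Blow
variable {gh : ℝ × ℝ × P → P}

lemma der (b : Blow X gh) (l t : ℝ) (z : P) :
    HasDerivAt (fun τ => gh (l, τ, z)) (dt gh (l, t, z)) t :=
  (b.sm.differentiable (by simp) (l, t, z)).hasFDerivAt.comp_hasDerivAt t
    ((hasDerivAt_const t l).prodMk ((hasDerivAt_id t).prodMk (hasDerivAt_const t z)))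

lemma cont_dt (b : Blow X gh) : Continuous (dt gh) :=
  (b.sm.continuous_fderiv (by simp)).clm_apply continuous_const

lemma eq' (b : Blow X gh) {l : ℝ} (hl : l ≠ 0) (t : ℝ) (z : P) :
    gh (l, t, z) = l⁻¹ • X.g t (l • z) := by
  rw [b.eq, inv_smul_smul₀ hl]

lemma dt_eq (b : Blow X gh) (h : Good κ C X) {l : ℝ} (hl : l ≠ 0) (t : ℝ) {z : P}
    (hz : l • z ∈ X.W) :
    dt gh (l, t, z) = l⁻¹ • ((X.g t (l • z)).2, -X.G (X.g t (l • z))) := by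
  have a := b.der l t z
  simp only [b.eq' hl] at a
  exact a.unique ((h.g_der _ hz t).const_smul l⁻¹)

lemma est1 (b : Blow X gh) (h : Good κ C X) {l : ℝ} (hl : l ≠ 0) (t : ℝ) {z : P}
    (hz : l • z ∈ X.W) {m : ℝ} (hm : ‖X.g t (l • z)‖ ≤ m) :
    |(gh (l, t, z)).2 * (dt gh (l, t, z)).1 - (gh (l, t, z)).1 * (dt gh (l, t, z)).2 -
      ((gh (l, t, z)).1 ^ 2 + (gh (l, t, z)).2 ^ 2)| ≤
      C * κ * m ^ 4 * ((gh (l, t, z)).1 ^ 2 + (gh (l, t, z)).2 ^ 2) := by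
  have a := est h (h.g_mem _ hz t).1 hm
  rw [b.dt_eq h hl t hz, b.eq' hl]
  generalize X.g t (l • z) = ζ at a ⊢
  simp only [Prod.smul_fst, Prod.smul_snd, smul_eq_mul]
  have := mul_le_mul_of_nonneg_left a (sq_nonneg l⁻¹)
  rw [← abs_of_nonneg (sq_nonneg l⁻¹), ← abs_mul, abs_of_nonneg (sq_nonneg l⁻¹)] at this
  refine le_trans (le_of_eq ?_) (this.trans (le_of_eq ?_))
  · congr 1
    ring
  · ring

lemma est2 (b : Blow X gh) (h : Good κ C X) (hp : Phys1 X) (l t : ℝ) {z : P} (hz : l • z ∈ X.W) :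
    |(gh (l, t, z)).2 * (dt gh (l, t, z)).1 - (gh (l, t, z)).1 * (dt gh (l, t, z)).2 -
      ((gh (l, t, z)).1 ^ 2 + (gh (l, t, z)).2 ^ 2)| ≤
      C * κ * (2 * ‖l • z‖) ^ 4 * ((gh (l, t, z)).1 ^ 2 + (gh (l, t, z)).2 ^ 2) := by
  by_cases hl : l = 0
  · subst hl
    have c1 := b.sm.continuous
    have c2 := b.cont_dt
    refine sub_nonneg.1 (lim0 (f := fun l => C * κ * (2 * ‖l • z‖) ^ 4 *
      ((gh (l, t, z)).1 ^ 2 + (gh (l, t, z)).2 ^ 2) -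
      |(gh (l, t, z)).2 * (dt gh (l, t, z)).1 - (gh (l, t, z)).1 * (dt gh (l, t, z)).2 -
      ((gh (l, t, z)).1 ^ 2 + (gh (l, t, z)).2 ^ 2)|) (by fun_prop) ?_)
    exact (ev_small z).mono fun l hl =>
      sub_nonneg.2 (b.est1 h hl.1 t (memW h hl.2) (hp.g_norm _ (memW h hl.2) t))
  · exact b.est1 h hl t hz (hp.g_norm _ hz t)

lemma est3 (b : Blow X gh) (h : Good κ C X) (hp : Phys1 X) (hκ : C * κ * 10 ^ 5 ≤ 1) (l t : ℝ)
    {z : P} (hz : l • z ∈ X.W) :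
    |(gh (l, t, z)).2 * (dt gh (l, t, z)).1 - (gh (l, t, z)).1 * (dt gh (l, t, z)).2 -
      ((gh (l, t, z)).1 ^ 2 + (gh (l, t, z)).2 ^ 2)| ≤
      1 / 100 * ((gh (l, t, z)).1 ^ 2 + (gh (l, t, z)).2 ^ 2) := by
  by_cases hl : l = 0
  · refine (b.est2 h hp l t hz).trans (mul_le_mul_of_nonneg_right ?_ (by positivity))
    simp [hl]
  · refine (b.est1 h hl t hz (hp.W_small _ (h.g_mem _ hz t))).trans
      (mul_le_mul_of_nonneg_right ?_ (by positivity))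
    linarith

lemma low1 (b : Blow X gh) (h : Good κ C X) (hp : Phys1 X) {l : ℝ} (hl : l ≠ 0) (t : ℝ) {z : P}
    (hz : l • z ∈ X.W) : ‖z‖ ≤ 2 * ‖gh (l, t, z)‖ := by
  have a := norm_back h hp hz t
  rw [b.eq, norm_smul, norm_smul, mul_left_comm] at a
  exact le_of_mul_le_mul_left a (norm_pos_iff.2 hl)

lemma low (b : Blow X gh) (h : Good κ C X) (hp : Phys1 X) (l t : ℝ) {z : P}
    (hz : l • z ∈ X.W) : ‖z‖ ≤ 2 * ‖gh (l, t, z)‖ := by
  by_cases hl : l = 0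
  · subst hl
    have c1 := b.sm.continuous
    refine sub_nonneg.1 (lim0 (f := fun l => 2 * ‖gh (l, t, z)‖ - ‖z‖) (by fun_prop) ?_)
    exact (ev_small z).mono fun l hl => sub_nonneg.2 (b.low1 h hp hl.1 t (memW h hl.2))
  · exact b.low1 h hp hl t hz

lemma half (b : Blow X gh) (h : Good κ C X) (hp : Phys1 X) {l τ : ℝ} (hl : l ≠ 0) {z : P}
    (z0 : z ≠ 0) (hz : l • z ∈ X.W) (h0 : 0 < τ)
    (h1 : ∃ r : ℝ, 0 < r ∧ gh (l, τ, z) = -(r • gh (l, 0, z)))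
    (h2 : ∀ t, 0 < t → t < τ → ∀ r : ℝ, 0 < r → gh (l, t, z) ≠ -(r • gh (l, 0, z))) :
    Half X (l • z) τ := by
  have e0 : gh (l, 0, z) = z := by rw [b.eq' hl, h.g_zero, inv_smul_smul₀ hl]
  rw [e0] at h1 h2
  obtain ⟨r, r0, e⟩ := h1
  have e1 : X.g τ (l • z) = -(r • l • z) := by rw [b.eq, e, smul_neg, smul_comm]
  refine ⟨h0, ?_, fun t t0 t1 k => h2 t t0 t1 1 one_pos ?_⟩
  · have n : ‖r • l • z‖ ≤ 5 := by
      rw [← norm_neg, ← e1]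
      exact (h.g_mem _ hz τ).1
    have w := h.g_w _ hz τ
    rw [e1, h.w_even _ (by linarith)] at w
    rw [e1, hp.w_ray _ r (smul_ne_zero hl z0) r0 hz.1 n w, one_smul]
  · rw [b.eq' hl, k, smul_neg, inv_smul_smul₀ hl, one_smul]

end Blow

end T

open T in
theorem blk_T (hH : St_HAD) (hP : St_HP) : St_T := by
  intro C
  refine ⟨1 / (10 ^ 5 * (|C| + 1)), by positivity, fun κ X hκ h hp => ?_⟩
  have k0 : 0 ≤ C * κ := mul_nonneg (by linarith [h.C_ge]) h.κ_pos.le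
  have k1 : C * κ * 10 ^ 5 ≤ 1 := by
    rw [le_div_iff₀ (by positivity), abs_of_nonneg (by linarith [h.C_ge])] at hκ
    nlinarith [h.κ_pos]
  obtain ⟨gh, b⟩ := exists_blow hH h hp
  let Ω : Set (ℝ × P) := {e | e.2 ≠ 0 ∧ ‖e.1 • e.2‖ < 5 ∧ X.w (e.1 • e.2) < 8}
  have cw := h.w_sm.continuous
  have c1 : Continuous fun e : ℝ × P => ‖e.1 • e.2‖ := by fun_prop
  have c2 : Continuous fun e : ℝ × P => X.w (e.1 • e.2) := by fun_prop
  have Ωo : IsOpen Ω :=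
    (isOpen_ne_fun continuous_snd continuous_const).inter
      ((isOpen_lt c1 continuous_const).inter (isOpen_lt c2 continuous_const))
  have ΩW : ∀ e ∈ Ω, e.1 • e.2 ∈ X.W := fun e he => ⟨he.2.1.le, he.2.2.le⟩
  obtain ⟨Th, sm, hT⟩ := hP (ℝ × P) Ω (fun e t => gh (e.1, t, e.2)) (fun e t => dt gh (e.1, t, e.2)) Ωo
    (b.sm.comp (f := fun q : (ℝ × P) × ℝ => (q.1.1, q.2, q.1.2)) (by fun_prop)).contDiffOn
    (fun e _ t => b.der e.1 t e.2)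
    (fun e he t k => by
      have a := b.low h hp e.1 t (ΩW e he)
      rw [show gh (e.1, t, e.2) = 0 from k, norm_zero, mul_zero] at a
      exact he.1 (norm_le_zero_iff.1 a))
    (fun e he => ⟨99 / 100, by norm_num, fun t => by
      linarith [(abs_le.1 (b.est3 h hp k1 e.1 t (ΩW e he))).1]⟩)
  have hf : ∀ e ∈ Ω, e.1 ≠ 0 → Half X (e.1 • e.2) (Th e) := fun e he hl =>
    b.half h hp hl he.1 (ΩW e he) (hT e he).1 (hT e he).2.1 (hT e he).2.2.1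
  have bd : ∀ e ∈ Ω, ∀ δ : ℝ, 0 ≤ δ → δ ≤ 1 / 100 → (∀ t, |(gh (e.1, t, e.2)).2 * (dt gh (e.1, t, e.2)).1 -
      (gh (e.1, t, e.2)).1 * (dt gh (e.1, t, e.2)).2 -
      ((gh (e.1, t, e.2)).1 ^ 2 + (gh (e.1, t, e.2)).2 ^ 2)| ≤
      δ * ((gh (e.1, t, e.2)).1 ^ 2 + (gh (e.1, t, e.2)).2 ^ 2)) → |Th e - π| ≤ 4 * δ := by
    intro e he δ δ0 δ1 k
    obtain ⟨t0, -, -, lo, hi⟩ := hT e he
    have a1 := lo (1 - δ) fun t => by linarith [(abs_le.1 (k t)).1]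
    have a2 := hi (1 + δ) fun t => by linarith [(abs_le.1 (k t)).2]
    have a3 : Th e ≤ 4 := by nlinarith [pi_lt_d2]
    rw [abs_le]
    constructor <;> nlinarith
  have m1 : ∀ z ∈ X.Wo, ((1 : ℝ), z) ∈ Ω := fun z hz =>
    ⟨hz.2.2, by simpa using hz.1, by simpa using hz.2.1⟩
  have h1 : ∀ z ∈ X.Wo, Half X z (Th (1, z)) := fun z hz => by
    simpa using hf _ (m1 z hz) one_ne_zero
  have sub : {q : ℝ × P | q.2 ≠ 0 ∧ ‖q.1 • q.2‖ < 1} ⊆ Ω := fun q hq =>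
    ⟨hq.1, by linarith [hq.2], w_small h hq.2⟩
  refine ⟨fun z => Th (1, z), sm.comp (by fun_prop) m1, fun z hz => (h1 z hz).1,
    fun z hz => (h1 z hz).2.1, fun z hz => (h1 z hz).2.2,
    fun z hz t => (h1 _ (g_Wo h hp hz t)).unique ((h1 z hz).flow h (WoW hz) t), fun z hz => ?_, ?_⟩
  · have := bd _ (m1 z hz) (1 / 100) (by norm_num) le_rfl fun t => b.est3 h hp k1 _ t (ΩW _ (m1 z hz))
    linarith
  · obtain ⟨S, s1, s2⟩ := hH P ℝ {q : ℝ × P | q.2 ≠ 0 ∧ ‖q.1 • q.2‖ < 1} (fun q => Th q - π) 4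
      ((isOpen_ne_fun continuous_snd continuous_const).inter (isOpen_lt c1 continuous_const))
      ((sm.mono sub).sub contDiffOn_const) fun z hz =>
      ⟨4 * (C * κ * (2 * ‖z‖) ^ 4), (ev_small z).mono fun l hl => by
        have m : (l, z) ∈ Ω := sub ⟨hz.1, hl.2⟩
        have a : (2 * ‖l • z‖) ^ 4 ≤ 2 ^ 4 := by
          have := norm_nonneg (l • z)
          gcongr
          linarith [hl.2]
        have := bd _ m (C * κ * (2 * ‖l • z‖) ^ 4) (by positivity) (by nlinarith)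
          fun t => b.est2 h hp l t (ΩW _ m)
        rw [norm_smul, Real.norm_eq_abs] at this
        rw [Real.norm_eq_abs]
        refine this.trans (le_of_eq ?_)
        ring⟩
    refine ⟨S, s1, fun l z l0 z0 hl => ?_⟩
    have a := s2 (l, z) ⟨z0, hl⟩
    have e : Th (1, l • z) = Th (l, z) :=
      (h1 _ ⟨by linarith, w_small h hl, smul_ne_zero l0 z0⟩).unique (hf _ (sub ⟨z0, hl⟩) l0)
    simp only [smul_eq_mul] at a
    show Th (1, l • z) = _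
    linarith

end Pool.Agent.Lib.MP_f62ea7_gt
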