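import Pool.Agent.Lib.MP_f62ea7_gt.Basic

set_option autoImplicit false

open MeasureTheory Set Filter Topology Real
open scoped ContDiff ENNReal

namespace Pool.Agent.Lib.MP_f62ea7_gt

namespace U

variable {κ C : ℝ} {D : Dat}

/-- clamp to `[-5, 5]` -/
noncomputable def cl (x : ℝ) : ℝ := max (-5) (min x 5)

lemma cl_abs (x : ℝ) : |cl x| ≤ 5 :=
  abs_le.2 ⟨le_max_left _ _, max_le (by norm_num) (min_le_right _ _)⟩

lemma cl_eq {x : ℝ} (h : |x| ≤ 5) : cl x = x := by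
  obtain ⟨h1, h2⟩ := abs_le.1 h
  unfold cl
  rw [min_eq_left h2, max_eq_right h1]

lemma cl_cont : Continuous cl := continuous_const.max (continuous_id.min continuous_const)

lemma smono (hE : Est κ C D) {x : ℝ} (hx : |x| ≤ 5) :
    StrictMonoOn (fun u => D.Y (x, u)) (Icc (-5) 5) := by
  intro u' hu' u hu h
  have h1 := hE.Y_lo x u u' hx (abs_le.2 hu) (abs_le.2 hu') h.le
  have h2 : 0 < x ^ 2 + u ^ 2 + u' ^ 2 := by nlinarith [sq_nonneg (u + u'), sq_nonneg x]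
  have h3 : 0 < (x ^ 2 + u ^ 2 + u' ^ 2) / 20 * (u - u') := mul_pos (by linarith) (by linarith)
  show D.Y (x, u') < D.Y (x, u)
  linarith

lemma lo_abs (hE : Est κ C D) {x u u' : ℝ} (hx : |x| ≤ 5) (hu : |u| ≤ 5) (hu' : |u'| ≤ 5) :
    (x ^ 2 + u ^ 2 + u' ^ 2) / 20 * |u - u'| ≤ |D.Y (x, u) - D.Y (x, u')| := by
  rcases le_total u' u with h | h
  · rw [abs_of_nonneg (sub_nonneg.2 h)]
    exact (hE.Y_lo x u u' hx hu hu' h).trans (le_abs_self _)
  · rw [abs_sub_comm u, abs_sub_comm (D.Y _), abs_of_nonneg (sub_nonneg.2 h)]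
    have := (hE.Y_lo x u' u hx hu' hu h).trans (le_abs_self _)
    linarith

lemma cube (hS : IsSol κ C D) (hE : Est κ C D) {x u : ℝ} (hx : |x| ≤ 5) (hu : |u| ≤ 5) :
    |u| ^ 3 ≤ 20 * |D.Y (x, u)| := by
  have h := lo_abs hE (u' := 0) hx hu (by norm_num)
  rw [hS.Y_zero x (by linarith), sub_zero, sub_zero] at h
  have h2 : |u| ^ 3 = u ^ 2 * |u| := by rw [← sq_abs u]; ring
  nlinarith [mul_nonneg (sq_nonneg x) (abs_nonneg u)]

lemma top (hS : IsSol κ C D) (hE : Est κ C D) {x : ℝ} (hx : |x| ≤ 5) :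
    D.Y (x, -5) ≤ -6 ∧ 6 ≤ D.Y (x, 5) := by
  have h1 := hE.Y_lo x 5 0 hx (by norm_num) (by norm_num) (by norm_num)
  have h2 := hE.Y_lo x 0 (-5) hx (by norm_num) (by norm_num) (by norm_num)
  rw [hS.Y_zero x (by linarith)] at h1 h2
  constructor <;> nlinarith [sq_nonneg x]

lemma exU (hS : IsSol κ C D) (hE : Est κ C D) : ∃ U : P → ℝ, Continuous U ∧ (∀ p, |U p| ≤ 5) ∧
    ∀ p : P, |p.1| ≤ 5 → D.Y (p.1, -5) ≤ p.2 → p.2 ≤ D.Y (p.1, 5) → D.Y (p.1, U p) = p.2 := by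
  have hc := hS.Y_sm.continuous
  have h : ∀ p : P, ∃ u ∈ Icc (-5 : ℝ) 5,
      D.Y (cl p.1, u) = max (D.Y (cl p.1, -5)) (min p.2 (D.Y (cl p.1, 5))) := by
    intro p
    have := top hS hE (cl_abs p.1)
    refine intermediate_value_Icc (f := fun u => D.Y (cl p.1, u)) (by norm_num)
      (hc.comp (continuous_const.prodMk continuous_id)).continuousOn ⟨le_max_left _ _, ?_⟩
    exact max_le (by linarith [this.1, this.2]) (min_le_right _ _)
  choose U hU1 hU2 using h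
  refine ⟨U, continuous_iff_continuousAt.2 fun p => ?_, fun p => abs_le.2 (hU1 p),
    fun p h1 h2 h3 => ?_⟩
  · have hk : ∀ u : ℝ, Continuous fun e : P => D.Y (cl e.1, u) := fun u =>
      hc.comp ((cl_cont.comp continuous_fst).prodMk continuous_const)
    have hs : ∀ e : P, StrictMonoOn (fun u => D.Y (cl e.1, u) -
        max (D.Y (cl e.1, -5)) (min e.2 (D.Y (cl e.1, 5)))) (Icc (-5) 5) := fun e a ha b hb hab =>
      sub_lt_sub_right (smono hE (cl_abs e.1) ha hb hab) _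
    refine mono_cont (f := fun (e : P) u => D.Y (cl e.1, u) -
      max (D.Y (cl e.1, -5)) (min e.2 (D.Y (cl e.1, 5)))) (a := -5) (b := 5)
      (fun u _ => ((hk u).sub ((hk _).max (continuous_snd.min (hk _)))).continuousAt)
      (Eventually.of_forall fun e => (hs e).monotoneOn) (hs p)
      (Eventually.of_forall fun e => ⟨hU1 e, sub_eq_zero.2 (hU2 e)⟩)
  · have := hU2 p
    rwa [cl_eq h1, min_eq_left h3, max_eq_right h2] at this

lemma rpow_cube (y : ℝ) : (|y| ^ (2 / 3 : ℝ)) ^ 3 = |y| ^ 2 := by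
  rw [← rpow_natCast, ← rpow_mul (abs_nonneg y), ← rpow_natCast]
  norm_num

lemma vlo (hS : IsSol κ C D) (hE : Est κ C D) {x u : ℝ} (hx : |x| ≤ 5) (hu : |u| ≤ 5) :
    ‖((x, u) : P)‖ ^ 2 ≤ 8 * vw (x, D.Y (x, u)) := by
  have h1 := cube hS hE hx hu
  have h0 : 0 ≤ |D.Y (x, u)| ^ (2 / 3 : ℝ) := by positivity
  have h2 : u ^ 2 ≤ 8 * |D.Y (x, u)| ^ (2 / 3 : ℝ) := by
    refine le_of_pow_le_pow_left₀ (n := 3) (by norm_num) (by positivity) ?_
    rw [mul_pow, rpow_cube, ← sq_abs u]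
    have h3 : (|u| ^ 3) ^ 2 ≤ (20 * |D.Y (x, u)|) ^ 2 := pow_le_pow_left₀ (by positivity) h1 2
    nlinarith [sq_nonneg |D.Y (x, u)|]
  have h4 := norm_sq_le (x, u)
  unfold vw
  dsimp only at h4 ⊢
  nlinarith [sq_nonneg x]

lemma vhi (hE : Est κ C D) {z : P} (hz : ‖z‖ ≤ 5) : vw (D.Φ z) ≤ 2 * ‖z‖ ^ 2 := by
  have h1 := hE.Y_hi z hz
  have h2 : |D.Y z| ^ (2 / 3 : ℝ) ≤ ‖z‖ ^ 2 := by
    refine le_of_pow_le_pow_left₀ (n := 3) (by norm_num) (by positivity) ?_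
    rw [rpow_cube]
    have h3 : |D.Y z| ^ 2 ≤ (‖z‖ ^ 3) ^ 2 := pow_le_pow_left₀ (by positivity) h1 2
    calc _ ≤ _ := h3
      _ = _ := by ring
  have h4 := fst_sq_le z
  unfold vw Dat.Φ
  dsimp only
  linarith

lemma norm_vert (x u u' : ℝ) : ‖((x, u) : P) - (x, u')‖ = |u - u'| := by
  simp [Prod.norm_def]

lemma norm_hor (x x' u : ℝ) : ‖((x, u) : P) - (x', u)‖ = |x - x'| := by
  simp [Prod.norm_def]

lemma u1 (hE : Est κ C D) {x u u' : ℝ} (hx : |x| ≤ 5) (hu : |u| ≤ 5) (hu' : |u'| ≤ 5) :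
    vw (x, D.Y (x, u')) * |u - u'| ≤ 40 * |D.Y (x, u) - D.Y (x, u')| := by
  have h1 := lo_abs hE hx hu hu'
  have h2 : vw (x, D.Y (x, u')) ≤ 2 * ‖((x, u') : P)‖ ^ 2 :=
    vhi hE (z := (x, u')) (norm_le_iff.2 ⟨hx, hu'⟩)
  have h3 := norm_sq_le (x, u')
  dsimp only at h3
  have h4 : vw (x, D.Y (x, u')) ≤ 2 * (x ^ 2 + u ^ 2 + u' ^ 2) := by nlinarith [sq_nonneg u]
  have h5 := mul_le_mul_of_nonneg_right h4 (abs_nonneg (u - u'))
  linarith

lemma u2 (hC : 1 ≤ C) (hS : IsSol κ C D) (hE : Est κ C D) {x u u' : ℝ} (hx : |x| ≤ 5)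
    (hu : |u| ≤ 5) (hu' : |u'| ≤ 5) :
    min |D.Y (x, u) - D.Y (x, u')| |D.Y (x, u')| ≤ 40 * C * (vw (x, D.Y (x, u')) * |u - u'|) := by
  have h1 := vlo hS hE hx hu'
  have hz : ‖((x, u) : P)‖ ≤ 5 := norm_le_iff.2 ⟨hx, hu⟩
  have hz' : ‖((x, u') : P)‖ ≤ 5 := norm_le_iff.2 ⟨hx, hu'⟩
  have hv := vw_nonneg (x, D.Y (x, u'))
  have ha := abs_nonneg (u - u')
  have hN := norm_nonneg ((x, u') : P)
  have hx' : |x| ≤ ‖((x, u') : P)‖ := abs_fst_le (x, u')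
  have hu'' : |u'| ≤ ‖((x, u') : P)‖ := abs_snd_le (x, u')
  set N := ‖((x, u') : P)‖
  set v := vw (x, D.Y (x, u'))
  rcases le_total |u| (2 * N) with h | h
  · refine (min_le_left _ _).trans ?_
    have h2 := hE.Y_lip _ _ hz hz'
    rw [norm_vert] at h2
    have h3 : ‖((x, u) : P)‖ ≤ 2 * N := norm_le_iff.2 ⟨by dsimp only; linarith, h⟩
    have h4 : ‖((x, u) : P)‖ ^ 2 ≤ (2 * N) ^ 2 := pow_le_pow_left₀ (norm_nonneg _) h3 2
    have h5 : ‖((x, u) : P)‖ ^ 2 + N ^ 2 ≤ 40 * v := by nlinarith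
    calc _ ≤ _ := h2
      _ ≤ C * (40 * v) * |u - u'| := by gcongr
      _ = _ := by ring
  · refine (min_le_right _ _).trans ?_
    have h2 := hE.Y_hi _ hz'
    have h3 : N ≤ |u - u'| := by linarith [abs_sub_abs_le_abs_sub u u']
    have h4 : N ^ 2 * N ≤ 8 * v * |u - u'| := by gcongr
    have h5 : 0 ≤ v * |u - u'| := mul_nonneg hv ha
    nlinarith

lemma u3 (hC : 1 ≤ C) (hE : Est κ C D) {x x' u u' : ℝ} (hx : |x| ≤ 5) (hxx : |x'| ≤ |x|)
    (hu : |u| ≤ 5) (hu' : |u'| ≤ 5) (h : D.Y (x, u) = D.Y (x', u')) :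
    |u - u'| ≤ 40 * C * |x - x'| := by
  have h1 := lo_abs hE hx hu hu'
  have h2 := hE.Y_lip (x', u') (x, u') (norm_le_iff.2 ⟨hxx.trans hx, hu'⟩) (norm_le_iff.2 ⟨hx, hu'⟩)
  rw [norm_hor, abs_sub_comm x'] at h2
  rw [h] at h1
  have h3 := norm_sq_le (x', u')
  have h4 := norm_sq_le (x, u')
  dsimp only at h3 h4
  have h5 : x' ^ 2 ≤ x ^ 2 := sq_le_sq.2 hxx
  have h6 : ‖((x', u') : P)‖ ^ 2 + ‖((x, u') : P)‖ ^ 2 ≤ 2 * (x ^ 2 + u ^ 2 + u' ^ 2) := by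
    nlinarith [sq_nonneg u]
  have ha := abs_nonneg (x - x')
  have h7 : C * (‖((x', u') : P)‖ ^ 2 + ‖((x, u') : P)‖ ^ 2) * |x - x'| ≤
      C * (2 * (x ^ 2 + u ^ 2 + u' ^ 2)) * |x - x'| := by gcongr
  by_cases h0 : u = u'
  · rw [h0, sub_self, abs_zero]; positivity
  · have h8 : 0 < (u - u') ^ 2 := by have := sub_ne_zero.2 h0; positivity
    have h9 : 0 < x ^ 2 + u ^ 2 + u' ^ 2 := by nlinarith [sq_nonneg (u + u'), sq_nonneg x]
    refine le_of_mul_le_mul_left ?_ h9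
    linarith

end U

open U in
theorem blk_U : St_U := by
  intro C hC
  refine ⟨40 * C, by linarith, fun κ D hS hE => ?_⟩
  obtain ⟨U, hc, hb, hr⟩ := exU hS hE
  have hR : ∀ x y : ℝ, |x| ≤ 3 → |y| ≤ 3 → D.Y (x, U (x, y)) = y := fun x y hx hy => by
    have h1 : |x| ≤ 5 := by linarith
    obtain ⟨h2, h3⟩ := top hS hE h1
    obtain ⟨h4, h5⟩ := abs_le.1 hy
    exact hr (x, y) h1 (by dsimp only; linarith) (by dsimp only; linarith)
  have m5 : (-5 : ℝ) ∈ Icc (-5 : ℝ) 5 := by norm_num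
  have p5 : (5 : ℝ) ∈ Icc (-5 : ℝ) 5 := by norm_num
  have hL : ∀ z : P, ‖z‖ ≤ 5 → U (D.Φ z) = z.2 := fun z hz => by
    obtain ⟨h1, h2⟩ := norm_le_iff.1 hz
    have hm := smono hE h1
    have h3 := abs_le.1 h2
    exact hm.injOn (abs_le.1 (hb _)) h3
      (hr (D.Φ z) h1 (hm.monotoneOn m5 h3 h3.1) (hm.monotoneOn h3 p5 h3.2))
  refine ⟨U, hc, fun p hp => ?_, hL, fun p hp => ?_, fun z hz h0 => ?_, fun p hp => ?_,
    fun x a s hx ha hs h => ?_, fun x a s hx ha hs => ?_, fun x a s hx ha hs => ?_,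
    fun x x' y hx hx' hy => ?_, fun p hp => ?_, fun z hz => vhi hE hz⟩
  · obtain ⟨h1, h2⟩ := norm_le_iff.1 hp
    have h3 := cube hS hE (x := p.1) (by linarith) (hb p)
    rw [hR p.1 p.2 h1 h2] at h3
    refine le_of_pow_le_pow_left₀ (n := 3) (by norm_num) (by norm_num) ?_
    linarith
  · obtain ⟨h1, h2⟩ := norm_le_iff.1 hp
    exact hR p.1 p.2 h1 h2
  · obtain ⟨h1, h2⟩ := norm_lt_iff.1 hz
    have hY := hS.Y_sm
    have hU := hL z hz.le
    have hpos : 0 < du D.Y z := by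
      rw [hS.Y_u z (by linarith)]
      have a1 := hE.w_lo z hz.le
      have a2 := hE.Θ_lo z hz.le
      have a3 := norm_sq_le z
      have a4 : 0 < ‖z‖ ^ 2 := pow_pos (norm_pos_iff.2 h0) 2
      exact mul_pos (by linarith) (by linarith)
    refine ift (f := fun q : P × ℝ => D.Y (q.1.1, q.2) - q.1.2) (f' := du D.Y z) ?_ ?_ hpos.ne'
      hc.continuousAt ?_
    · exact ((hY.comp (contDiff_fst.fst.prodMk contDiff_snd)).sub contDiff_fst.snd).contDiffAt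
    · rw [hU]
      exact (hasDerivAt_du (x := z.1) (u := z.2)
        (hY.differentiable (by simp) _)).sub_const _
    · have hm := smono hE h1.le
      have h3 := abs_lt.1 h2
      have h4 : z.2 ∈ Icc (-5 : ℝ) 5 := ⟨h3.1.le, h3.2.le⟩
      have hk : ∀ u : ℝ, Continuous fun e : P => D.Y (e.1, u) := fun u =>
        hY.continuous.comp (continuous_fst.prodMk continuous_const)
      have e1 : ∀ᶠ e : P in 𝓝 (D.Φ z), |e.1| < 5 :=
        continuous_fst.abs.continuousAt.eventually_lt continuousAt_const h1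
      have e2 : ∀ᶠ e : P in 𝓝 (D.Φ z), D.Y (e.1, -5) < e.2 :=
        (hk _).continuousAt.eventually_lt continuousAt_snd (hm m5 h4 h3.1)
      have e3 : ∀ᶠ e : P in 𝓝 (D.Φ z), e.2 < D.Y (e.1, 5) :=
        continuousAt_snd.eventually_lt (hk _).continuousAt (hm h4 p5 h3.2)
      filter_upwards [e1, e2, e3] with e a1 a2 a3
      rw [hr e a1.le a2.le a3.le, hU]
      simp [Dat.Φ]
  · obtain ⟨h1, h2⟩ := norm_le_iff.1 hp
    have hz : ‖((p.1, U p) : P)‖ ≤ 5 := norm_le_iff.2 ⟨by linarith, hb p⟩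
    have h3 := hL (-(p.1, U p)) (by rwa [norm_neg])
    have h4 : D.Φ (-(p.1, U p)) = -p := by
      unfold Dat.Φ
      rw [hS.Y_odd _ (by linarith), hR p.1 p.2 h1 h2]
      rfl
    rw [h4] at h3
    exact h3
  · have hm := smono hE (x := x) (by linarith)
    refine (hm.le_iff_le (abs_le.1 (hb _)) (abs_le.1 (hb _))).1 ?_
    show D.Y (x, U (x, s)) ≤ D.Y (x, U (x, a))
    rw [hR x s hx hs, hR x a hx ha]
    exact h
  · have h1 := u1 hE (x := x) (by linarith) (hb (x, a)) (hb (x, s))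
    rw [hR x s hx hs, hR x a hx ha] at h1
    nlinarith [abs_nonneg (a - s)]
  · have h1 := u2 hC hS hE (x := x) (by linarith) (hb (x, a)) (hb (x, s))
    rwa [hR x s hx hs, hR x a hx ha] at h1
  · have h1 : D.Y (x, U (x, y)) = D.Y (x', U (x', y)) := by rw [hR x y hx hy, hR x' y hx' hy]
    rcases le_total |x'| |x| with h | h
    · exact u3 hC hE (by linarith) h (hb _) (hb _) h1
    · rw [abs_sub_comm, abs_sub_comm x]
      exact u3 hC hE (by linarith) h (hb _) (hb _) h1.symm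
  · obtain ⟨h1, h2⟩ := norm_le_iff.1 hp
    have h3 := vlo hS hE (x := p.1) (by linarith) (hb p)
    rwa [hR p.1 p.2 h1 h2] at h3

end Pool.Agent.Lib.MP_f62ea7_gt
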