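import Pool.Agent.Lib.MP_f62ea7_gt.Glue
import Pool.Agent.Lib.MP_f62ea7_gt.LOW
import Pool.Agent.Lib.MP_f62ea7_gt.AL1
import Pool.Agent.Lib.MP_f62ea7_gt.ALPHA
import Pool.Agent.Lib.MP_f62ea7_gt.ANTI
import Pool.Agent.Lib.MP_f62ea7_gt.BETA
import Pool.Agent.Lib.MP_f62ea7_gt.BM
import Pool.Agent.Lib.MP_f62ea7_gt.DOM
import Pool.Agent.Lib.MP_f62ea7_gt.EMB
import Pool.Agent.Lib.MP_f62ea7_gt.ENER
import Pool.Agent.Lib.MP_f62ea7_gt.EST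
import Pool.Agent.Lib.MP_f62ea7_gt.EUL
import Pool.Agent.Lib.MP_f62ea7_gt.EULL
import Pool.Agent.Lib.MP_f62ea7_gt.FLOW
import Pool.Agent.Lib.MP_f62ea7_gt.G
import Pool.Agent.Lib.MP_f62ea7_gt.GAM
import Pool.Agent.Lib.MP_f62ea7_gt.HAD
import Pool.Agent.Lib.MP_f62ea7_gt.HOR
import Pool.Agent.Lib.MP_f62ea7_gt.HP
import Pool.Agent.Lib.MP_f62ea7_gt.HS
import Pool.Agent.Lib.MP_f62ea7_gt.INT0
import Pool.Agent.Lib.MP_f62ea7_gt.INT1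
import Pool.Agent.Lib.MP_f62ea7_gt.LIFT
import Pool.Agent.Lib.MP_f62ea7_gt.LINE
import Pool.Agent.Lib.MP_f62ea7_gt.MONO
import Pool.Agent.Lib.MP_f62ea7_gt.MP
import Pool.Agent.Lib.MP_f62ea7_gt.PAIR
import Pool.Agent.Lib.MP_f62ea7_gt.PH1
import Pool.Agent.Lib.MP_f62ea7_gt.PH2
import Pool.Agent.Lib.MP_f62ea7_gt.REM
import Pool.Agent.Lib.MP_f62ea7_gt.STREAM
import Pool.Agent.Lib.MP_f62ea7_gt.T
import Pool.Agent.Lib.MP_f62ea7_gt.TR1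
import Pool.Agent.Lib.MP_f62ea7_gt.TR2
import Pool.Agent.Lib.MP_f62ea7_gt.U
import Pool.Agent.Lib.MP_f62ea7_gt.WIND
import Pool.Agent.Lib.MP_f62ea7_gt.WL

set_option autoImplicit false

namespace Pool.Agent.Lib.MP_f62ea7_gt

theorem low : St_LOW :=
  blk_LOW blk_WL (blk_MONO blk_PAIR blk_WIND blk_WL) (blk_ENER blk_WL)
    (blk_INT0 blk_WL (blk_EULL (blk_EUL blk_BM (blk_LINE blk_BM) (blk_HOR blk_STREAM))))
    (blk_INT1 blk_WL blk_ANTI)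

theorem lift : St_LIFT := blk_LIFT blk_EMB blk_HS

theorem up : St_UP :=
  blk_UP lift (blk_TR2 blk_EMB) (blk_ALPHA blk_FLOW blk_HP blk_MP blk_AL1)
    (blk_GAM (blk_BETA blk_HAD) lift)

theorem of_A (hA : St_A) :
    ∃ (M : Set ℂ) (φ : ℂ → ℂ), IsDomain M ∧ ∀ s : ℝ, 2 < s → s < 7 / 3 →
      IsDiff s M φ ∧ (∃ γ, IsCurve s M φ γ) ∧
        ∀ γ, IsCurve s M φ γ → ∃ γ', IsCurve s M φ γ' ∧ energy M γ' < energy M γ :=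
  glue hA blk_EST blk_REM blk_U (blk_G blk_FLOW) blk_PH1 (blk_PH2 blk_MP) (blk_T blk_HAD blk_HP)
    low (blk_TR1 blk_EMB) blk_DOM up

end Pool.Agent.Lib.MP_f62ea7_gt
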