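import Pool.Agent.Lib.MP_f62ea7_gt.Basic2

set_option autoImplicit false

open MeasureTheory Set Filter Topology Real
open scoped ContDiff ENNReal

namespace Pool.Agent.Lib.MP_f62ea7_gt

namespace UP
variable {κ C : ℝ} {X : Geo}

lemma small_ball (h : Full κ C X) {l : ℝ} (hl : 0 < l) (hl3 : 3 * l ≤ 1) {p : P} (hp : p ∈ X.M)
    (hw : X.w (X.Ψ p) < 2 * l ^ 2) : p ∈ Metric.closedBall (0 : P) (3 * l) := by
  have h5 := (h.box_n p hp.1).le
  have h1 := h.w_lo _ h5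
  have h2 := norm_sq_le (X.Ψ p)
  have h3 : ‖X.Ψ p‖ ≤ 3 * l := by
    apply le_of_sq_le_sq _ (by positivity)
    nlinarith
  have h4 := h.Y_hi _ h5
  have h6 : p = X.Φ (X.Ψ p) := (h.ΦΨ p (hp.1.trans (by norm_num))).symm
  rw [mem_closedBall_zero_iff, h6, norm_le_iff]
  refine ⟨(abs_fst_le (X.Ψ p)).trans h3, h4.trans ?_⟩
  have h7 : ‖X.Ψ p‖ ^ 3 ≤ ‖X.Ψ p‖ ^ 1 :=
    pow_le_pow_of_le_one (norm_nonneg _) (h3.trans hl3) (by norm_num)
  linarith

lemma vol_ball {r : ℝ} (hr : 0 ≤ r) :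
    volume (Metric.closedBall (0 : P) r) = ENNReal.ofReal (4 * r ^ 2) := by
  rw [← closedBall_prod_same, Measure.volume_eq_prod, Measure.prod_prod]
  simp only [Real.volume_closedBall]
  rw [← ENNReal.ofReal_mul (by positivity)]; congr 1; ring

lemma vel_le (h : Full κ C X) {p : P} (hp : p ∈ X.M) (t : ℝ) : ‖X.vel t p‖ ≤ 125 := by
  have h1 := (h.g_mem _ (h.M_W hp) t).1
  have h2 := h.V_hi _ h1
  have h3 : ‖X.g t (X.Ψ p)‖ ^ 3 ≤ 5 ^ 3 := pow_le_pow_left₀ (norm_nonneg _) h1 3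
  exact norm_le_iff.2 ⟨(abs_snd_le _).trans (h1.trans (by norm_num)), h2.trans (by linarith)⟩

lemma vel_origin (h : Full κ C X) (t : ℝ) : X.vel t 0 = 0 := by
  have : X.V 0 = 0 := by
    have := h.V_odd 0 (by simp)
    rw [neg_zero] at this; linarith
  simp [Geo.vel, h.Ψ_zero, h.g_origin, this]

lemma dens_le (h : Full κ C X) {a : P} {B : ℝ} (ha : ‖a‖ ≤ B) :
    (a.1 ^ 2 + κ ^ 2 * a.2 ^ 2) / 2 ≤ B ^ 2 := by
  have h1 := fst_sq_le a
  have h2 := snd_sq_le a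
  have h3 : ‖a‖ ^ 2 ≤ B ^ 2 := pow_le_pow_left₀ (norm_nonneg _) ha 2
  have h4 : κ ^ 2 ≤ 1 := pow_le_one₀ h.κ_pos.le h.κ_le
  nlinarith [sq_nonneg a.2]

lemma En_le {M S : Set P} (hM : MeasurableSet M) (hS : MeasurableSet S) {a b : ℝ → P → P} {B : ℝ}
    (H : ∀ t, ∀ p ∈ M, ((a t p).1 ^ 2 + κ ^ 2 * (a t p).2 ^ 2) / 2 ≤ B ∧ (p ∉ S → a t p = b t p)) :
    En κ M a ≤ En κ M b + ENNReal.ofReal B * volume S := by
  unfold En
  have h1 : ∀ t, ∫⁻ p in M, ENNReal.ofReal (((a t p).1 ^ 2 + κ ^ 2 * (a t p).2 ^ 2) / 2) ≤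
      (∫⁻ p in M, ENNReal.ofReal (((b t p).1 ^ 2 + κ ^ 2 * (b t p).2 ^ 2) / 2)) +
        ENNReal.ofReal B * volume S := by
    intro t
    calc _ ≤ ∫⁻ p in M, (ENNReal.ofReal (((b t p).1 ^ 2 + κ ^ 2 * (b t p).2 ^ 2) / 2) +
          S.indicator (fun _ => ENNReal.ofReal B) p) := by
          refine setLIntegral_mono' hM fun p hp => ?_
          by_cases hs : p ∈ S
          · rw [indicator_of_mem hs]
            exact (ENNReal.ofReal_le_ofReal (H t p hp).1).trans le_add_self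
          · rw [(H t p hp).2 hs]; exact le_self_add
      _ = _ + ∫⁻ p in M, S.indicator (fun _ => ENNReal.ofReal B) p :=
          lintegral_add_right _ (measurable_const.indicator hS)
      _ ≤ _ := by
          gcongr
          refine (setLIntegral_le_lintegral _ _).trans ?_
          rw [lintegral_indicator_const hS]
  refine (lintegral_mono h1).trans ?_
  rw [lintegral_add_right _ measurable_const]
  simp

lemma nice_dens (h : Full κ C X) :
    Nice X.M fun t a => ((X.vel t a).1 ^ 2 + κ ^ 2 * (X.vel t a).2 ^ 2) / 2 :=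
  ((h.adm.nice_v1.pow 2).add ((h.adm.nice_v2.pow 2).const_mul _)).div_const 2

lemma act_nonneg (h : Full κ C X) : 0 ≤ act κ X.M X.vel :=
  dbl_nonneg h.M_compact fun _ _ _ _ => by positivity

lemma En_star (h : Full κ C X) :
    En κ X.M (fun t p => π • X.vel (π * t) p) = ENNReal.ofReal (π * act κ X.M X.vel) := by
  set F : ℝ → ℝ := fun t => ∫ a in X.M, ((X.vel t a).1 ^ 2 + κ ^ 2 * (X.vel t a).2 ^ 2) / 2 with hF
  have hn := nice_dens h
  have h1 : ∀ t ∈ Ioo (0 : ℝ) 1, ∫⁻ p in X.M, ENNReal.ofReal (((π • X.vel (π * t) p).1 ^ 2 +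
      κ ^ 2 * (π • X.vel (π * t) p).2 ^ 2) / 2) = ENNReal.ofReal (π ^ 2 * F (π * t)) := by
    intro t ht
    have ht' : π * t ∈ Icc 0 π := ⟨by nlinarith [pi_pos, ht.1], by nlinarith [pi_pos, ht.2]⟩
    rw [hF, ← integral_const_mul, ofReal_integral_eq_lintegral_ofReal
      ((hn.integrableOn h.M_compact ht').const_mul _) (Eventually.of_forall fun p => by positivity)]
    refine lintegral_congr fun p => ?_
    congr 1
    simp only [Prod.smul_fst, Prod.smul_snd, smul_eq_mul]; ring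
  have hi : IntervalIntegrable (fun t => F (π * t)) volume 0 1 := by
    have := (hn.intervalIntegrable_integral h.M_compact zero_mem_Icc pi_mem_Icc).comp_mul_left
      (c := π)
    simpa [pi_pos.ne'] using this
  unfold En
  rw [setLIntegral_congr_fun measurableSet_Ioo h1, ← ofReal_integral_eq_lintegral_ofReal]
  · congr 1
    rw [← integral_Ioc_eq_integral_Ioo, ← intervalIntegral.integral_of_le zero_le_one,
      intervalIntegral.integral_const_mul, intervalIntegral.integral_comp_mul_left _ pi_pos.ne']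
    simp only [mul_zero, mul_one, smul_eq_mul]
    change _ = π * ∫ t in (0 : ℝ)..π, F t
    field_simp
  · exact ((intervalIntegrable_iff_integrableOn_Ioo_of_le zero_le_one).1 hi).const_mul _
  · exact Eventually.of_forall fun t => mul_nonneg (by positivity)
      (integral_nonneg fun p => by positivity)

lemma bb_le {T : P → ℝ} (h : Full κ C X) (hT : IsT X T) (l : ℝ) {p : P} (hp : p ∈ X.M) (t : ℝ) :
    ‖bb X T l p • X.vel t p‖ ≤ 125 := by
  by_cases h0 : p = 0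
  · rw [h0, vel_origin h]; simp
  · have h1 := hT.T_bd (X.Ψ p)
      ⟨h.box_n p hp.1, h.box_w p hp.1, h.Ψ_ne p (hp.1.trans (by norm_num)) h0⟩
    have h2 : |bb X T l p| ≤ 1 := by
      unfold bb
      rw [abs_mul, abs_sub_comm π, abs_of_nonneg (smoothTransition.nonneg _)]
      exact mul_le_one₀ (smoothTransition.le_one _) (abs_nonneg _) h1
    rw [norm_smul]
    have := vel_le h hp t
    calc _ ≤ 1 * 125 := mul_le_mul h2 this (norm_nonneg _) zero_le_one
      _ = 125 := one_mul _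

lemma bb_zero {T : P → ℝ} {l : ℝ} (hl : 0 < l) {p : P} (hw : 2 * l ^ 2 ≤ X.w (X.Ψ p)) :
    bb X T l p = 0 := by
  unfold bb
  rw [smoothTransition.zero_of_nonpos, zero_mul]
  have : 2 ≤ X.w (X.Ψ p) / l ^ 2 := (le_div_iff₀ (by positivity)).2 hw
  linarith

end UP

open UP in
theorem blk_UP (hL : St_LIFT) (hT2 : St_TR2) (hA : St_ALPHA) (hG : St_GAM) : St_UP := by
  intro κ C X T s hs hs' h hT
  have kp := h.κ_pos
  have kl := h.κ_le
  obtain ⟨t1, t2⟩ := hT2 s κ X.M hs kp h.M_compact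
  have hg1 : ∀ l, gam X T l 1 = X.eta π := fun l => by funext p; simp [gam]
  refine ⟨t1 _ (hg1 1 ▸ (hG κ C X T s 1 hs hs' h hT one_pos).2.1 1 ⟨zero_le_one, le_rfl⟩), ?_⟩
  intro ε hε
  obtain ⟨Cα, l0, hl0, hA⟩ := hA κ C X T h hT
  have hA0 := act_nonneg h
  set A := π * act κ X.M X.vel with hAdef
  have hA1 : 0 ≤ A := mul_nonneg pi_pos.le hA0
  set r := min (1 / 2) (ε / (4 * A + 1)) with hr
  have r0 : 0 < r := by positivity
  have r1 : r ≤ 1 / 2 := min_le_left _ _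
  have r2 : r * (4 * A + 1) ≤ ε := (le_div_iff₀ (by positivity)).1 (min_le_right _ _)
  set Q := 72 * Cα ^ 2 + 36 * 125 ^ 2 / r + 1 with hQ
  have Q0 : 0 < Q := by positivity
  set l := min (min l0 (1 / 3)) (ε / (2 * Q)) with hl
  have l1 : 0 < l := by positivity
  have l2 : l ≤ l0 := (min_le_left _ _).trans (min_le_left _ _)
  have l3 : l ≤ 1 / 3 := (min_le_left _ _).trans (min_le_right _ _)
  have l4 : l * (2 * Q) ≤ ε := (le_div_iff₀ (by positivity)).1 (min_le_right _ _)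
  obtain ⟨α, αi, a, a1, a2, a3, a4, a5⟩ := hA l l1 l2
  obtain ⟨g1, g2, g3⟩ := hG κ C X T s l hs hs' h hT l1
  obtain ⟨L1, -, -, -⟩ := hL s κ hs hs' kp X.M h.M_compact
  have b1 := L1 X.N α h.N_open h.M_sub a1
  have b2 := L1 X.N αi h.N_open h.M_sub a2
  have hs1 : ∀ {f : ℝ → P → P}, Lift s κ X.M f → ∀ t ∈ Icc (0 : ℝ) 1, HsP s κ X.M (f t) := by
    rintro f ⟨g, -, hg⟩ t ht
    exact ⟨g t, hg t ⟨by linarith [ht.1], ht.2⟩⟩
  obtain ⟨Γ, hΓ, hE⟩ := t2 (X.eta π) α (gam X T l) a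
    (fun θ p => bb X T l p • X.vel (π - (1 - θ) * bb X T l p) p) r r0 (by linarith) b1 g1
    (fun t ht => ⟨⟨hs1 b1 t ht, (a3 t).1, ⟨αi t, hs1 b2 t ht, (a3 t).2.1, (a3 t).2.2.1⟩,
      (a3 t).2.2.2⟩, g2 t ht⟩)
    (fun p hp => ⟨(a4 p hp).1, (a4 p hp).2, by rw [hg1]⟩)
    (fun t _ p hp => ⟨(a5 t p hp).1, g3 t p hp⟩)
  refine ⟨Γ, hΓ, hE.trans ?_⟩
  have hS : MeasurableSet (Metric.closedBall (0 : P) (3 * l)) := measurableSet_closedBall
  have hout : ∀ p ∈ X.M, p ∉ Metric.closedBall (0 : P) (3 * l) → 2 * l ^ 2 ≤ X.w (X.Ψ p) :=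
    fun p hp hn => not_lt.1 fun hw => hn (small_ball h l1 (by linarith) hp hw)
  have e1 := En_le (κ := κ) h.M_meas hS (a := a) (b := fun t p => π • X.vel (π * t) p)
    (B := Cα ^ 2) fun t p hp => ⟨dens_le h (a5 t p hp).2.1, fun hn => (a5 t p hp).2.2 (hout p hp hn)⟩
  have e2 := En_le (κ := κ) h.M_meas hS
    (a := fun θ p => bb X T l p • X.vel (π - (1 - θ) * bb X T l p) p) (b := fun _ _ => 0)
    (B := 125 ^ 2) fun t p hp => ⟨dens_le h (bb_le h hT l hp _), fun hn => by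
      rw [bb_zero l1 (hout p hp hn), zero_smul]⟩
  have e3 : En κ X.M (fun _ _ => 0) = 0 := by simp [En]
  rw [En_star h, vol_ball (by positivity), ← ENNReal.ofReal_mul (by positivity),
    ← ENNReal.ofReal_add hA1 (by positivity)] at e1
  rw [e3, zero_add, vol_ball (by positivity), ← ENNReal.ofReal_mul (by positivity)] at e2
  have r3 : 0 < 1 - r := by linarith
  calc _ ≤ ENNReal.ofReal κ * (ENNReal.ofReal (1 / (1 - r)) *
        ENNReal.ofReal (A + Cα ^ 2 * (4 * (3 * l) ^ 2)) + ENNReal.ofReal (1 / r) *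
        ENNReal.ofReal (125 ^ 2 * (4 * (3 * l) ^ 2))) := by gcongr
    _ = ENNReal.ofReal (κ * (1 / (1 - r) * (A + Cα ^ 2 * (4 * (3 * l) ^ 2)) +
        1 / r * (125 ^ 2 * (4 * (3 * l) ^ 2)))) := by
      rw [← ENNReal.ofReal_mul (by positivity), ← ENNReal.ofReal_mul (by positivity),
        ← ENNReal.ofReal_add (by positivity) (by positivity), ← ENNReal.ofReal_mul kp.le]
    _ ≤ _ := by
      apply ENNReal.ofReal_le_ofReal
      have c1 : 1 / (1 - r) ≤ 1 + 2 * r := by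
        rw [div_le_iff₀ r3]; nlinarith
      have c2 : 1 / (1 - r) * A ≤ A + ε / 2 := by nlinarith
      have c3 : l ^ 2 ≤ l := by nlinarith
      have c4 : 1 / (1 - r) * (Cα ^ 2 * (4 * (3 * l) ^ 2)) ≤ 72 * Cα ^ 2 * l := by
        calc _ = 1 / (1 - r) * (36 * Cα ^ 2) * l ^ 2 := by ring
          _ ≤ 2 * (36 * Cα ^ 2) * l := by gcongr; linarith
          _ = _ := by ring
      have c5 : 1 / r * (125 ^ 2 * (4 * (3 * l) ^ 2)) ≤ 36 * 125 ^ 2 / r * l := by
        calc _ = 36 * 125 ^ 2 / r * l ^ 2 := by ring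
          _ ≤ _ := by gcongr
      have c6 : (72 * Cα ^ 2 + 36 * 125 ^ 2 / r) * l ≤ ε / 2 := by nlinarith
      have c7 : 1 / (1 - r) * (A + Cα ^ 2 * (4 * (3 * l) ^ 2)) +
          1 / r * (125 ^ 2 * (4 * (3 * l) ^ 2)) ≤ A + ε := by nlinarith
      have c8 : κ * π * act κ X.M X.vel = κ * A := by rw [hAdef]; ring
      rw [c8]
      nlinarith

end Pool.Agent.Lib.MP_f62ea7_gt
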